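import Pool.Agent.Gen.F5.X12DC13m3.S000
import Pool.Agent.Gen.F5.X12DC13m3.S001
import Pool.Agent.Gen.F5.X12DC13m3.S002
import Pool.Agent.Gen.F5.X12DC13m3.S003
import Pool.Agent.Gen.F5.X12DC13m3.S004
import Pool.Agent.Gen.F5.X12DC13m3.S005
import Pool.Agent.Gen.F5.X12DC13m3.S006
import Pool.Agent.Gen.F5.X12DC13m3.S007
import Pool.Agent.Gen.F5.X12DC13m3.S008
import Pool.Agent.Gen.F5.X12DC13m3.S009
import Pool.Agent.Gen.F5.X12DC13m3.S010
import Pool.Agent.Gen.F5.X12DC13m3.S011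
import Pool.Agent.Gen.F5.X12DC13m3.S012
import Pool.Agent.Gen.F5.X12DC13m3.S013

set_option autoImplicit false
set_option maxRecDepth 100000

namespace Pool.Agent.Gen.F5.X12DC13m3

open Pool.Agent.Helper72.F5

def n0 : Cl (O (nat_lit 3)) (R (nat_lit 102673))
    (p (nat_lit 0x109) (nat_lit 1) (p (nat_lit 0x8c8d0e0c0d9a) (nat_lit 0) (p (nat_lit 0xc0c8d8b8d1a) (nat_lit 0) (p (nat_lit 0x8b8c0d0b0a9a) (nat_lit 0) (p (nat_lit 0xb0b8c8a8a1a) (nat_lit 0) (p (nat_lit 0x2a825aa8258a8c0a0b8a) (nat_lit 0) (p (nat_lit 0x2a825aa8258a0b89890a) (nat_lit 0) (p (nat_lit 0xb0014) (nat_lit 1) (p (nat_lit 0x111) (nat_lit 0) (p (nat_lit 0x20000c) (nat_lit 0) (p (nat_lit 0x200004) (nat_lit 0) (p (nat_lit 0xc9) (nat_lit 1) (p (nat_lit 0x81) (nat_lit 0) (p (nat_lit 0x101) (nat_lit 1) (p (nat_lit 0x119) (nat_lit 0) (p (nat_lit 0xd1) (nat_lit 0) (p (nat_lit 0x89) (nat_lit 0) (p (nat_lit 0x41) (nat_lit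 0) (p (nat_lit 0x898a0b090a9a) (nat_lit 0) (p (nat_lit 0x9098a888a1a) (nat_lit 0) (p (nat_lit 0x88890a08079a) (nat_lit 0) (p (nat_lit 0x8088987871a) (nat_lit 0) (p (nat_lit 0x80000800078907088a) (nat_lit 0) (p (nat_lit 0x80000800070886860a) (nat_lit 0) (p (nat_lit 0x8708060782) (nat_lit 0) (p (nat_lit 0x687858702) (nat_lit 0) (p (nat_lit 0x8607050482) (nat_lit 0) (p (nat_lit 0x586848402) (nat_lit 0) (p (nat_lit 0x160014) (nat_lit 0) (p (nat_lit 0x50612) (nat_lit 0) (p (nat_lit 0x40592) (nat_lit 0) (p (nat_lit 0x40492) (nat_lit 0) (p (nat_lit 0x30412) (nat_lit 0) (p (nat_lit 0x30212) (nat_lit 0) (p (nat_lit 0x20192) (nat_lit 0) (p (nat_lit 0x20092) (nat_lit 0) (p (nat_lit 0x10012) (nat_lit 0) pn))))))))))))))))))))))))))))))))))))) :=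
  Cl.node (nat_lit 0x89) (nat_lit 2) (by decide +kernel) (ClAll.succ (ClAll.succ ClAll.zero s23) s24)

def n1 : Cl (O (nat_lit 3)) (R (nat_lit 102673))
    (p (nat_lit 0x109) (nat_lit 1) (p (nat_lit 0x8c8d0e0c0d9a) (nat_lit 0) (p (nat_lit 0xc0c8d8b8d1a) (nat_lit 0) (p (nat_lit 0x8b8c0d0b0a9a) (nat_lit 0) (p (nat_lit 0xb0b8c8a8a1a) (nat_lit 0) (p (nat_lit 0x2a825aa8258a8c0a0b8a) (nat_lit 0) (p (nat_lit 0x2a825aa8258a0b89890a) (nat_lit 0) (p (nat_lit 0xb0014) (nat_lit 1) (p (nat_lit 0x20000c) (nat_lit 0) (p (nat_lit 0x200004) (nat_lit 0) (p (nat_lit 0xc9) (nat_lit 1) (p (nat_lit 0xc1) (nat_lit 0) (p (nat_lit 0x81) (nat_lit 1) (p (nat_lit 0x101) (nat_lit 1) (p (nat_lit 0x119) (nat_lit 0) (p (nat_lit 0xd1) (nat_lit 0) (p (nat_lit 0x89) (nat_lit 0) (p (nat_lit 0x41) (nat_lit 0) (p (nat_lit 0x898a0b090a9a) (nat_lit 0) (p (nat_lit 0x9098a888a1a) (nat_lit 0) (p (nat_lit 0x88890a08079a)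 (nat_lit 0) (p (nat_lit 0x8088987871a) (nat_lit 0) (p (nat_lit 0x80000800078907088a) (nat_lit 0) (p (nat_lit 0x80000800070886860a) (nat_lit 0) (p (nat_lit 0x8708060782) (nat_lit 0) (p (nat_lit 0x687858702) (nat_lit 0) (p (nat_lit 0x8607050482) (nat_lit 0) (p (nat_lit 0x586848402) (nat_lit 0) (p (nat_lit 0x160014) (nat_lit 0) (p (nat_lit 0x50612) (nat_lit 0) (p (nat_lit 0x40592) (nat_lit 0) (p (nat_lit 0x40492) (nat_lit 0) (p (nat_lit 0x30412) (nat_lit 0) (p (nat_lit 0x30212) (nat_lit 0) (p (nat_lit 0x20192) (nat_lit 0) (p (nat_lit 0x20092) (nat_lit 0) (p (nat_lit 0x10012) (nat_lit 0) pn))))))))))))))))))))))))))))))))))))) :=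
  Cl.node (nat_lit 0x41) (nat_lit 2) (by decide +kernel) (ClAll.succ (ClAll.succ ClAll.zero s44) s45)

def n2 : Cl (O (nat_lit 3)) (R (nat_lit 102673))
    (p (nat_lit 0xc9) (nat_lit 1) (p (nat_lit 0x8c8d0e0c0d9a) (nat_lit 0) (p (nat_lit 0xc0c8d8b8d1a) (nat_lit 0) (p (nat_lit 0x8b8c0d0b0a9a) (nat_lit 0) (p (nat_lit 0xb0b8c8a8a1a) (nat_lit 0) (p (nat_lit 0x2a825aa8258a8c0a0b8a) (nat_lit 0) (p (nat_lit 0x2a825aa8258a0b89890a) (nat_lit 0) (p (nat_lit 0xb0014) (nat_lit 1) (p (nat_lit 0x20000c) (nat_lit 0) (p (nat_lit 0x200004) (nat_lit 0) (p (nat_lit 0x109) (nat_lit 1) (p (nat_lit 0x101) (nat_lit 0) (p (nat_lit 0x81) (nat_lit 1) (p (nat_lit 0xc1) (nat_lit 1) (p (nat_lit 0x119) (nat_lit 1) (p (nat_lit 0xd1) (nat_lit 0) (p (nat_lit 0x89) (nat_lit 0) (p (nat_lit 0x41) (nat_lit 0) (p (nat_lit 0x898a0b090a9a) (nat_lit 0) (p (nat_lit 0x9098a888a1a) (nat_lit 0) (p (nat_lit 0x88890a08079a)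 (nat_lit 0) (p (nat_lit 0x8088987871a) (nat_lit 0) (p (nat_lit 0x80000800078907088a) (nat_lit 0) (p (nat_lit 0x80000800070886860a) (nat_lit 0) (p (nat_lit 0x8708060782) (nat_lit 0) (p (nat_lit 0x687858702) (nat_lit 0) (p (nat_lit 0x8607050482) (nat_lit 0) (p (nat_lit 0x586848402) (nat_lit 0) (p (nat_lit 0x160014) (nat_lit 0) (p (nat_lit 0x50612) (nat_lit 0) (p (nat_lit 0x40592) (nat_lit 0) (p (nat_lit 0x40492) (nat_lit 0) (p (nat_lit 0x30412) (nat_lit 0) (p (nat_lit 0x30212) (nat_lit 0) (p (nat_lit 0x20192) (nat_lit 0) (p (nat_lit 0x20092) (nat_lit 0) (p (nat_lit 0x10012) (nat_lit 0) pn))))))))))))))))))))))))))))))))))))) :=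
  Cl.node (nat_lit 0x41) (nat_lit 2) (by decide +kernel) (ClAll.succ (ClAll.succ ClAll.zero s66) s67)

def n3 : Cl (O (nat_lit 3)) (R (nat_lit 102673))
    (p (nat_lit 0x111) (nat_lit 1) (p (nat_lit 0x41) (nat_lit 0) (p (nat_lit 0x8c8d0e0c0d9a) (nat_lit 0) (p (nat_lit 0xc0c8d8b8d1a) (nat_lit 0) (p (nat_lit 0x8b8c0d0b0a9a) (nat_lit 0) (p (nat_lit 0xb0b8c8a8a1a) (nat_lit 0) (p (nat_lit 0x2a825aa8258a8c0a0b8a) (nat_lit 0) (p (nat_lit 0x2a825aa8258a0b89890a) (nat_lit 0) (p (nat_lit 0xb0014) (nat_lit 1) (p (nat_lit 0x20000c) (nat_lit 0) (p (nat_lit 0x200004) (nat_lit 0) (p (nat_lit 0xd1) (nat_lit 1) (p (nat_lit 0x109) (nat_lit 1) (p (nat_lit 0x101) (nat_lit 0) (p (nat_lit 0x119) (nat_lit 0) (p (nat_lit 0xc9) (nat_lit 0) (p (nat_lit 0x89) (nat_lit 1) (p (nat_lit 0x41) (nat_lit 0) (p (nat_lit 0x898a0b090a9a) (nat_lit 0) (p (nat_lit 0x9098a888a1a) (nat_lit 0) (p (nat_lit 0x88890a08079a)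 (nat_lit 0) (p (nat_lit 0x8088987871a) (nat_lit 0) (p (nat_lit 0x80000800078907088a) (nat_lit 0) (p (nat_lit 0x80000800070886860a) (nat_lit 0) (p (nat_lit 0x8708060782) (nat_lit 0) (p (nat_lit 0x687858702) (nat_lit 0) (p (nat_lit 0x8607050482) (nat_lit 0) (p (nat_lit 0x586848402) (nat_lit 0) (p (nat_lit 0x160014) (nat_lit 0) (p (nat_lit 0x50612) (nat_lit 0) (p (nat_lit 0x40592) (nat_lit 0) (p (nat_lit 0x40492) (nat_lit 0) (p (nat_lit 0x30412) (nat_lit 0) (p (nat_lit 0x30212) (nat_lit 0) (p (nat_lit 0x20192) (nat_lit 0) (p (nat_lit 0x20092) (nat_lit 0) (p (nat_lit 0x10012) (nat_lit 0) pn))))))))))))))))))))))))))))))))))))) :=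
  Cl.node (nat_lit 0x89) (nat_lit 2) (by decide +kernel) (ClAll.succ (ClAll.succ ClAll.zero s142) s143)

def n4 : Cl (O (nat_lit 3)) (R (nat_lit 102673))
    (p (nat_lit 0x81) (nat_lit 0) (p (nat_lit 0x109) (nat_lit 1) (p (nat_lit 0x8c8d0e0c0d9a) (nat_lit 0) (p (nat_lit 0xc0c8d8b8d1a) (nat_lit 0) (p (nat_lit 0x8b8c0d0b0a9a) (nat_lit 0) (p (nat_lit 0xb0b8c8a8a1a) (nat_lit 0) (p (nat_lit 0x2a825aa8258a8c0a0b8a) (nat_lit 0) (p (nat_lit 0x2a825aa8258a0b89890a) (nat_lit 0) (p (nat_lit 0xb0014) (nat_lit 1) (p (nat_lit 0x20000c) (nat_lit 0) (p (nat_lit 0x200004) (nat_lit 0) (p (nat_lit 0xd1) (nat_lit 1) (p (nat_lit 0xc1) (nat_lit 0) (p (nat_lit 0x101) (nat_lit 1) (p (nat_lit 0x119) (nat_lit 0) (p (nat_lit 0xc9) (nat_lit 0) (p (nat_lit 0x89) (nat_lit 1) (p (nat_lit 0x41) (nat_lit 0) (p (nat_lit 0x898a0b090a9a) (nat_lit 0) (p (nat_lit 0x9098a888a1a) (nat_lit 0) (p (nat_lit 0x88890a08079a)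 (nat_lit 0) (p (nat_lit 0x8088987871a) (nat_lit 0) (p (nat_lit 0x80000800078907088a) (nat_lit 0) (p (nat_lit 0x80000800070886860a) (nat_lit 0) (p (nat_lit 0x8708060782) (nat_lit 0) (p (nat_lit 0x687858702) (nat_lit 0) (p (nat_lit 0x8607050482) (nat_lit 0) (p (nat_lit 0x586848402) (nat_lit 0) (p (nat_lit 0x160014) (nat_lit 0) (p (nat_lit 0x50612) (nat_lit 0) (p (nat_lit 0x40592) (nat_lit 0) (p (nat_lit 0x40492) (nat_lit 0) (p (nat_lit 0x30412) (nat_lit 0) (p (nat_lit 0x30212) (nat_lit 0) (p (nat_lit 0x20192) (nat_lit 0) (p (nat_lit 0x20092) (nat_lit 0) (p (nat_lit 0x10012) (nat_lit 0) pn))))))))))))))))))))))))))))))))))))) :=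
  Cl.node (nat_lit 0x89) (nat_lit 2) (by decide +kernel) (ClAll.succ (ClAll.succ ClAll.zero s157) s158)

def n5 : Cl (O (nat_lit 3)) (R (nat_lit 102673))
    (p (nat_lit 0x8c8d0e0c0d9a) (nat_lit 0) (p (nat_lit 0xc0c8d8b8d1a) (nat_lit 0) (p (nat_lit 0x8b8c0d0b0a9a) (nat_lit 0) (p (nat_lit 0xb0b8c8a8a1a) (nat_lit 0) (p (nat_lit 0x2a825aa8258a8c0a0b8a) (nat_lit 0) (p (nat_lit 0x2a825aa8258a0b89890a) (nat_lit 0) (p (nat_lit 0xb0014) (nat_lit 1) (p (nat_lit 0x111) (nat_lit 0) (p (nat_lit 0x20000c) (nat_lit 0) (p (nat_lit 0x200004) (nat_lit 0) (p (nat_lit 0xc9) (nat_lit 1) (p (nat_lit 0x81) (nat_lit 0) (p (nat_lit 0x101) (nat_lit 1) (p (nat_lit 0x119) (nat_lit 0) (p (nat_lit 0xd1) (nat_lit 0) (p (nat_lit 0x89) (nat_lit 0) (p (nat_lit 0x41) (nat_lit 0) (p (nat_lit 0x898a0b090a9a) (nat_lit 0) (p (nat_lit 0x9098a888a1a) (nat_lit 0) (p (nat_lit 0x88890a08079a) (nat_lit 0) (p (nat_lit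 0x8088987871a) (nat_lit 0) (p (nat_lit 0x80000800078907088a) (nat_lit 0) (p (nat_lit 0x80000800070886860a) (nat_lit 0) (p (nat_lit 0x8708060782) (nat_lit 0) (p (nat_lit 0x687858702) (nat_lit 0) (p (nat_lit 0x8607050482) (nat_lit 0) (p (nat_lit 0x586848402) (nat_lit 0) (p (nat_lit 0x160014) (nat_lit 0) (p (nat_lit 0x50612) (nat_lit 0) (p (nat_lit 0x40592) (nat_lit 0) (p (nat_lit 0x40492) (nat_lit 0) (p (nat_lit 0x30412) (nat_lit 0) (p (nat_lit 0x30212) (nat_lit 0) (p (nat_lit 0x20192) (nat_lit 0) (p (nat_lit 0x20092) (nat_lit 0) (p (nat_lit 0x10012) (nat_lit 0) pn)))))))))))))))))))))))))))))))))))) :=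
  Cl.node (nat_lit 0x109) (nat_lit 2) (by decide +kernel) (ClAll.succ (ClAll.succ ClAll.zero s22) n0)

def n6 : Cl (O (nat_lit 3)) (R (nat_lit 102673))
    (p (nat_lit 0x8c8d0e0c0d9a) (nat_lit 0) (p (nat_lit 0xc0c8d8b8d1a) (nat_lit 0) (p (nat_lit 0x8b8c0d0b0a9a) (nat_lit 0) (p (nat_lit 0xb0b8c8a8a1a) (nat_lit 0) (p (nat_lit 0x2a825aa8258a8c0a0b8a) (nat_lit 0) (p (nat_lit 0x2a825aa8258a0b89890a) (nat_lit 0) (p (nat_lit 0xb0014) (nat_lit 1) (p (nat_lit 0x20000c) (nat_lit 0) (p (nat_lit 0x200004) (nat_lit 0) (p (nat_lit 0xc9) (nat_lit 1) (p (nat_lit 0xc1) (nat_lit 0) (p (nat_lit 0x81) (nat_lit 1) (p (nat_lit 0x101) (nat_lit 1) (p (nat_lit 0x119) (nat_lit 0) (p (nat_lit 0xd1) (nat_lit 0) (p (nat_lit 0x89) (nat_lit 0) (p (nat_lit 0x41) (nat_lit 0) (p (nat_lit 0x898a0b090a9a) (nat_lit 0) (p (nat_lit 0x9098a888a1a) (nat_lit 0) (p (nat_lit 0x88890a08079a) (nat_lit 0) (p (nat_lit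 0x8088987871a) (nat_lit 0) (p (nat_lit 0x80000800078907088a) (nat_lit 0) (p (nat_lit 0x80000800070886860a) (nat_lit 0) (p (nat_lit 0x8708060782) (nat_lit 0) (p (nat_lit 0x687858702) (nat_lit 0) (p (nat_lit 0x8607050482) (nat_lit 0) (p (nat_lit 0x586848402) (nat_lit 0) (p (nat_lit 0x160014) (nat_lit 0) (p (nat_lit 0x50612) (nat_lit 0) (p (nat_lit 0x40592) (nat_lit 0) (p (nat_lit 0x40492) (nat_lit 0) (p (nat_lit 0x30412) (nat_lit 0) (p (nat_lit 0x30212) (nat_lit 0) (p (nat_lit 0x20192) (nat_lit 0) (p (nat_lit 0x20092) (nat_lit 0) (p (nat_lit 0x10012) (nat_lit 0) pn)))))))))))))))))))))))))))))))))))) :=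
  Cl.node (nat_lit 0x109) (nat_lit 2) (by decide +kernel) (ClAll.succ (ClAll.succ ClAll.zero s43) n1)

def n7 : Cl (O (nat_lit 3)) (R (nat_lit 102673))
    (p (nat_lit 0x8c8d0e0c0d9a) (nat_lit 0) (p (nat_lit 0xc0c8d8b8d1a) (nat_lit 0) (p (nat_lit 0x8b8c0d0b0a9a) (nat_lit 0) (p (nat_lit 0xb0b8c8a8a1a) (nat_lit 0) (p (nat_lit 0x2a825aa8258a8c0a0b8a) (nat_lit 0) (p (nat_lit 0x2a825aa8258a0b89890a) (nat_lit 0) (p (nat_lit 0xb0014) (nat_lit 1) (p (nat_lit 0x20000c) (nat_lit 0) (p (nat_lit 0x200004) (nat_lit 0) (p (nat_lit 0x109) (nat_lit 1) (p (nat_lit 0x101) (nat_lit 0) (p (nat_lit 0x81) (nat_lit 1) (p (nat_lit 0xc1) (nat_lit 1) (p (nat_lit 0x119) (nat_lit 1) (p (nat_lit 0xd1) (nat_lit 0) (p (nat_lit 0x89) (nat_lit 0) (p (nat_lit 0x41) (nat_lit 0) (p (nat_lit 0x898a0b090a9a) (nat_lit 0) (p (nat_lit 0x9098a888a1a) (nat_lit 0) (p (nat_lit 0x88890a08079a) (nat_lit 0) (p (nat_lit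 0x8088987871a) (nat_lit 0) (p (nat_lit 0x80000800078907088a) (nat_lit 0) (p (nat_lit 0x80000800070886860a) (nat_lit 0) (p (nat_lit 0x8708060782) (nat_lit 0) (p (nat_lit 0x687858702) (nat_lit 0) (p (nat_lit 0x8607050482) (nat_lit 0) (p (nat_lit 0x586848402) (nat_lit 0) (p (nat_lit 0x160014) (nat_lit 0) (p (nat_lit 0x50612) (nat_lit 0) (p (nat_lit 0x40592) (nat_lit 0) (p (nat_lit 0x40492) (nat_lit 0) (p (nat_lit 0x30412) (nat_lit 0) (p (nat_lit 0x30212) (nat_lit 0) (p (nat_lit 0x20192) (nat_lit 0) (p (nat_lit 0x20092) (nat_lit 0) (p (nat_lit 0x10012) (nat_lit 0) pn)))))))))))))))))))))))))))))))))))) :=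
  Cl.node (nat_lit 0xc9) (nat_lit 2) (by decide +kernel) (ClAll.succ (ClAll.succ ClAll.zero s65) n2)

def n8 : Cl (O (nat_lit 3)) (R (nat_lit 102673))
    (p (nat_lit 0x8c8d0e0c0d9a) (nat_lit 0) (p (nat_lit 0xc0c8d8b8d1a) (nat_lit 0) (p (nat_lit 0x8b8c0d0b0a9a) (nat_lit 0) (p (nat_lit 0xb0b8c8a8a1a) (nat_lit 0) (p (nat_lit 0x2a825aa8258a8c0a0b8a) (nat_lit 0) (p (nat_lit 0x2a825aa8258a0b89890a) (nat_lit 0) (p (nat_lit 0xb0014) (nat_lit 1) (p (nat_lit 0x119) (nat_lit 1) (p (nat_lit 0x20000c) (nat_lit 0) (p (nat_lit 0x200004) (nat_lit 0) (p (nat_lit 0xc1) (nat_lit 0) (p (nat_lit 0x81) (nat_lit 1) (p (nat_lit 0x101) (nat_lit 1) (p (nat_lit 0x111) (nat_lit 0) (p (nat_lit 0xd1) (nat_lit 1) (p (nat_lit 0x89) (nat_lit 0) (p (nat_lit 0x41) (nat_lit 0) (p (nat_lit 0x898a0b090a9a) (nat_lit 0) (p (nat_lit 0x9098a888a1a) (nat_lit 0) (p (nat_lit 0x88890a08079a) (nat_lit 0) (p (nat_lit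 0x8088987871a) (nat_lit 0) (p (nat_lit 0x80000800078907088a) (nat_lit 0) (p (nat_lit 0x80000800070886860a) (nat_lit 0) (p (nat_lit 0x8708060782) (nat_lit 0) (p (nat_lit 0x687858702) (nat_lit 0) (p (nat_lit 0x8607050482) (nat_lit 0) (p (nat_lit 0x586848402) (nat_lit 0) (p (nat_lit 0x160014) (nat_lit 0) (p (nat_lit 0x50612) (nat_lit 0) (p (nat_lit 0x40592) (nat_lit 0) (p (nat_lit 0x40492) (nat_lit 0) (p (nat_lit 0x30412) (nat_lit 0) (p (nat_lit 0x30212) (nat_lit 0) (p (nat_lit 0x20192) (nat_lit 0) (p (nat_lit 0x20092) (nat_lit 0) (p (nat_lit 0x10012) (nat_lit 0) pn)))))))))))))))))))))))))))))))))))) :=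
  Cl.node (nat_lit 0xc9) (nat_lit 2) (by decide +kernel) (ClAll.succ (ClAll.succ ClAll.zero s104) s105)

def n9 : Cl (O (nat_lit 3)) (R (nat_lit 102673))
    (p (nat_lit 0x41) (nat_lit 0) (p (nat_lit 0x8c8d0e0c0d9a) (nat_lit 0) (p (nat_lit 0xc0c8d8b8d1a) (nat_lit 0) (p (nat_lit 0x8b8c0d0b0a9a) (nat_lit 0) (p (nat_lit 0xb0b8c8a8a1a) (nat_lit 0) (p (nat_lit 0x2a825aa8258a8c0a0b8a) (nat_lit 0) (p (nat_lit 0x2a825aa8258a0b89890a) (nat_lit 0) (p (nat_lit 0xb0014) (nat_lit 1) (p (nat_lit 0x20000c) (nat_lit 0) (p (nat_lit 0x200004) (nat_lit 0) (p (nat_lit 0xd1) (nat_lit 1) (p (nat_lit 0x109) (nat_lit 1) (p (nat_lit 0x101) (nat_lit 0) (p (nat_lit 0x119) (nat_lit 0) (p (nat_lit 0xc9) (nat_lit 0) (p (nat_lit 0x89) (nat_lit 1) (p (nat_lit 0x41) (nat_lit 0) (p (nat_lit 0x898a0b090a9a) (nat_lit 0) (p (nat_lit 0x9098a888a1a) (nat_lit 0) (p (nat_lit 0x88890a08079a) (nat_lit 0) (p (nat_lit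 0x8088987871a) (nat_lit 0) (p (nat_lit 0x80000800078907088a) (nat_lit 0) (p (nat_lit 0x80000800070886860a) (nat_lit 0) (p (nat_lit 0x8708060782) (nat_lit 0) (p (nat_lit 0x687858702) (nat_lit 0) (p (nat_lit 0x8607050482) (nat_lit 0) (p (nat_lit 0x586848402) (nat_lit 0) (p (nat_lit 0x160014) (nat_lit 0) (p (nat_lit 0x50612) (nat_lit 0) (p (nat_lit 0x40592) (nat_lit 0) (p (nat_lit 0x40492) (nat_lit 0) (p (nat_lit 0x30412) (nat_lit 0) (p (nat_lit 0x30212) (nat_lit 0) (p (nat_lit 0x20192) (nat_lit 0) (p (nat_lit 0x20092) (nat_lit 0) (p (nat_lit 0x10012) (nat_lit 0) pn)))))))))))))))))))))))))))))))))))) :=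
  Cl.node (nat_lit 0x111) (nat_lit 2) (by decide +kernel) (ClAll.succ (ClAll.succ ClAll.zero s141) n3)

def n10 : Cl (O (nat_lit 3)) (R (nat_lit 102673))
    (p (nat_lit 0x109) (nat_lit 1) (p (nat_lit 0x8c8d0e0c0d9a) (nat_lit 0) (p (nat_lit 0xc0c8d8b8d1a) (nat_lit 0) (p (nat_lit 0x8b8c0d0b0a9a) (nat_lit 0) (p (nat_lit 0xb0b8c8a8a1a) (nat_lit 0) (p (nat_lit 0x2a825aa8258a8c0a0b8a) (nat_lit 0) (p (nat_lit 0x2a825aa8258a0b89890a) (nat_lit 0) (p (nat_lit 0xb0014) (nat_lit 1) (p (nat_lit 0x20000c) (nat_lit 0) (p (nat_lit 0x200004) (nat_lit 0) (p (nat_lit 0xd1) (nat_lit 1) (p (nat_lit 0xc1) (nat_lit 0) (p (nat_lit 0x101) (nat_lit 1) (p (nat_lit 0x119) (nat_lit 0) (p (nat_lit 0xc9) (nat_lit 0) (p (nat_lit 0x89) (nat_lit 1) (p (nat_lit 0x41) (nat_lit 0) (p (nat_lit 0x898a0b090a9a) (nat_lit 0) (p (nat_lit 0x9098a888a1a) (nat_lit 0) (p (nat_lit 0x88890a08079a) (nat_lit 0) (p (nat_lit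 0x8088987871a) (nat_lit 0) (p (nat_lit 0x80000800078907088a) (nat_lit 0) (p (nat_lit 0x80000800070886860a) (nat_lit 0) (p (nat_lit 0x8708060782) (nat_lit 0) (p (nat_lit 0x687858702) (nat_lit 0) (p (nat_lit 0x8607050482) (nat_lit 0) (p (nat_lit 0x586848402) (nat_lit 0) (p (nat_lit 0x160014) (nat_lit 0) (p (nat_lit 0x50612) (nat_lit 0) (p (nat_lit 0x40592) (nat_lit 0) (p (nat_lit 0x40492) (nat_lit 0) (p (nat_lit 0x30412) (nat_lit 0) (p (nat_lit 0x30212) (nat_lit 0) (p (nat_lit 0x20192) (nat_lit 0) (p (nat_lit 0x20092) (nat_lit 0) (p (nat_lit 0x10012) (nat_lit 0) pn)))))))))))))))))))))))))))))))))))) :=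
  Cl.node (nat_lit 0x81) (nat_lit 2) (by decide +kernel) (ClAll.succ (ClAll.succ ClAll.zero n4) s159)

def n11 : Cl (O (nat_lit 3)) (R (nat_lit 102673))
    (p (nat_lit 0x119) (nat_lit 0) (p (nat_lit 0x8c8d0e0c0d9a) (nat_lit 0) (p (nat_lit 0xc0c8d8b8d1a) (nat_lit 0) (p (nat_lit 0x8b8c0d0b0a9a) (nat_lit 0) (p (nat_lit 0xb0b8c8a8a1a) (nat_lit 0) (p (nat_lit 0x2a825aa8258a8c0a0b8a) (nat_lit 0) (p (nat_lit 0x2a825aa8258a0b89890a) (nat_lit 0) (p (nat_lit 0xb0014) (nat_lit 1) (p (nat_lit 0x20000c) (nat_lit 0) (p (nat_lit 0x200004) (nat_lit 0) (p (nat_lit 0xc9) (nat_lit 0) (p (nat_lit 0x89) (nat_lit 1) (p (nat_lit 0x101) (nat_lit 1) (p (nat_lit 0x111) (nat_lit 0) (p (nat_lit 0xd1) (nat_lit 1) (p (nat_lit 0x81) (nat_lit 0) (p (nat_lit 0x41) (nat_lit 1) (p (nat_lit 0x898a0b090a9a) (nat_lit 0) (p (nat_lit 0x9098a888a1a) (nat_lit 0) (p (nat_lit 0x88890a08079a) (nat_lit 0) (p (nat_lit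 0x8088987871a) (nat_lit 0) (p (nat_lit 0x80000800078907088a) (nat_lit 0) (p (nat_lit 0x80000800070886860a) (nat_lit 0) (p (nat_lit 0x8708060782) (nat_lit 0) (p (nat_lit 0x687858702) (nat_lit 0) (p (nat_lit 0x8607050482) (nat_lit 0) (p (nat_lit 0x586848402) (nat_lit 0) (p (nat_lit 0x160014) (nat_lit 0) (p (nat_lit 0x50612) (nat_lit 0) (p (nat_lit 0x40592) (nat_lit 0) (p (nat_lit 0x40492) (nat_lit 0) (p (nat_lit 0x30412) (nat_lit 0) (p (nat_lit 0x30212) (nat_lit 0) (p (nat_lit 0x20192) (nat_lit 0) (p (nat_lit 0x20092) (nat_lit 0) (p (nat_lit 0x10012) (nat_lit 0) pn)))))))))))))))))))))))))))))))))))) :=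
  Cl.node (nat_lit 0x101) (nat_lit 2) (by decide +kernel) (ClAll.succ (ClAll.succ ClAll.zero s304) s305)

def n12 : Cl (O (nat_lit 3)) (R (nat_lit 102673))
    (p (nat_lit 0x119) (nat_lit 1) (p (nat_lit 0x8c8d0e0c0d9a) (nat_lit 0) (p (nat_lit 0xc0c8d8b8d1a) (nat_lit 0) (p (nat_lit 0x8b8c0d0b0a9a) (nat_lit 0) (p (nat_lit 0xb0b8c8a8a1a) (nat_lit 0) (p (nat_lit 0x2a825aa8258a8c0a0b8a) (nat_lit 0) (p (nat_lit 0x2a825aa8258a0b89890a) (nat_lit 0) (p (nat_lit 0xb0014) (nat_lit 1) (p (nat_lit 0x20000c) (nat_lit 0) (p (nat_lit 0x200004) (nat_lit 0) (p (nat_lit 0xc9) (nat_lit 0) (p (nat_lit 0x89) (nat_lit 1) (p (nat_lit 0x101) (nat_lit 1) (p (nat_lit 0x111) (nat_lit 0) (p (nat_lit 0xd1) (nat_lit 1) (p (nat_lit 0x81) (nat_lit 0) (p (nat_lit 0x41) (nat_lit 1) (p (nat_lit 0x898a0b090a9a) (nat_lit 0) (p (nat_lit 0x9098a888a1a) (nat_lit 0) (p (nat_lit 0x88890a08079a) (nat_lit 0) (p (nat_lit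 0x8088987871a) (nat_lit 0) (p (nat_lit 0x80000800078907088a) (nat_lit 0) (p (nat_lit 0x80000800070886860a) (nat_lit 0) (p (nat_lit 0x8708060782) (nat_lit 0) (p (nat_lit 0x687858702) (nat_lit 0) (p (nat_lit 0x8607050482) (nat_lit 0) (p (nat_lit 0x586848402) (nat_lit 0) (p (nat_lit 0x160014) (nat_lit 0) (p (nat_lit 0x50612) (nat_lit 0) (p (nat_lit 0x40592) (nat_lit 0) (p (nat_lit 0x40492) (nat_lit 0) (p (nat_lit 0x30412) (nat_lit 0) (p (nat_lit 0x30212) (nat_lit 0) (p (nat_lit 0x20192) (nat_lit 0) (p (nat_lit 0x20092) (nat_lit 0) (p (nat_lit 0x10012) (nat_lit 0) pn)))))))))))))))))))))))))))))))))))) :=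
  Cl.node (nat_lit 0xc1) (nat_lit 2) (by decide +kernel) (ClAll.succ (ClAll.succ ClAll.zero s306) s307)

def n13 : Cl (O (nat_lit 3)) (R (nat_lit 102673))
    (p (nat_lit 0xc0c8d8b8d1a) (nat_lit 0) (p (nat_lit 0x8b8c0d0b0a9a) (nat_lit 0) (p (nat_lit 0xb0b8c8a8a1a) (nat_lit 0) (p (nat_lit 0x2a825aa8258a8c0a0b8a) (nat_lit 0) (p (nat_lit 0x2a825aa8258a0b89890a) (nat_lit 0) (p (nat_lit 0xb0014) (nat_lit 1) (p (nat_lit 0x111) (nat_lit 0) (p (nat_lit 0x20000c) (nat_lit 0) (p (nat_lit 0x200004) (nat_lit 0) (p (nat_lit 0xc9) (nat_lit 1) (p (nat_lit 0x81) (nat_lit 0) (p (nat_lit 0x101) (nat_lit 1) (p (nat_lit 0x119) (nat_lit 0) (p (nat_lit 0xd1) (nat_lit 0) (p (nat_lit 0x89) (nat_lit 0) (p (nat_lit 0x41) (nat_lit 0) (p (nat_lit 0x898a0b090a9a) (nat_lit 0) (p (nat_lit 0x9098a888a1a) (nat_lit 0) (p (nat_lit 0x88890a08079a) (nat_lit 0) (p (nat_lit 0x8088987871a) (nat_lit 0) (p (nat_lit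 0x80000800078907088a) (nat_lit 0) (p (nat_lit 0x80000800070886860a) (nat_lit 0) (p (nat_lit 0x8708060782) (nat_lit 0) (p (nat_lit 0x687858702) (nat_lit 0) (p (nat_lit 0x8607050482) (nat_lit 0) (p (nat_lit 0x586848402) (nat_lit 0) (p (nat_lit 0x160014) (nat_lit 0) (p (nat_lit 0x50612) (nat_lit 0) (p (nat_lit 0x40592) (nat_lit 0) (p (nat_lit 0x40492) (nat_lit 0) (p (nat_lit 0x30412) (nat_lit 0) (p (nat_lit 0x30212) (nat_lit 0) (p (nat_lit 0x20192) (nat_lit 0) (p (nat_lit 0x20092) (nat_lit 0) (p (nat_lit 0x10012) (nat_lit 0) pn))))))))))))))))))))))))))))))))))) :=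
  Cl.node (nat_lit 0x8c8d0e0c0d9a) (nat_lit 1) (by decide +kernel) (ClAll.succ ClAll.zero n5)

def n14 : Cl (O (nat_lit 3)) (R (nat_lit 102673))
    (p (nat_lit 0xc0c8d8b8d1a) (nat_lit 0) (p (nat_lit 0x8b8c0d0b0a9a) (nat_lit 0) (p (nat_lit 0xb0b8c8a8a1a) (nat_lit 0) (p (nat_lit 0x2a825aa8258a8c0a0b8a) (nat_lit 0) (p (nat_lit 0x2a825aa8258a0b89890a) (nat_lit 0) (p (nat_lit 0xb0014) (nat_lit 1) (p (nat_lit 0x20000c) (nat_lit 0) (p (nat_lit 0x200004) (nat_lit 0) (p (nat_lit 0xc9) (nat_lit 1) (p (nat_lit 0xc1) (nat_lit 0) (p (nat_lit 0x81) (nat_lit 1) (p (nat_lit 0x101) (nat_lit 1) (p (nat_lit 0x119) (nat_lit 0) (p (nat_lit 0xd1) (nat_lit 0) (p (nat_lit 0x89) (nat_lit 0) (p (nat_lit 0x41) (nat_lit 0) (p (nat_lit 0x898a0b090a9a) (nat_lit 0) (p (nat_lit 0x9098a888a1a) (nat_lit 0) (p (nat_lit 0x88890a08079a) (nat_lit 0) (p (nat_lit 0x8088987871a) (nat_lit 0) (p (nat_lit 0x80000800078907088a)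 (nat_lit 0) (p (nat_lit 0x80000800070886860a) (nat_lit 0) (p (nat_lit 0x8708060782) (nat_lit 0) (p (nat_lit 0x687858702) (nat_lit 0) (p (nat_lit 0x8607050482) (nat_lit 0) (p (nat_lit 0x586848402) (nat_lit 0) (p (nat_lit 0x160014) (nat_lit 0) (p (nat_lit 0x50612) (nat_lit 0) (p (nat_lit 0x40592) (nat_lit 0) (p (nat_lit 0x40492) (nat_lit 0) (p (nat_lit 0x30412) (nat_lit 0) (p (nat_lit 0x30212) (nat_lit 0) (p (nat_lit 0x20192) (nat_lit 0) (p (nat_lit 0x20092) (nat_lit 0) (p (nat_lit 0x10012) (nat_lit 0) pn))))))))))))))))))))))))))))))))))) :=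
  Cl.node (nat_lit 0x8c8d0e0c0d9a) (nat_lit 1) (by decide +kernel) (ClAll.succ ClAll.zero n6)

def n15 : Cl (O (nat_lit 3)) (R (nat_lit 102673))
    (p (nat_lit 0xc0c8d8b8d1a) (nat_lit 0) (p (nat_lit 0x8b8c0d0b0a9a) (nat_lit 0) (p (nat_lit 0xb0b8c8a8a1a) (nat_lit 0) (p (nat_lit 0x2a825aa8258a8c0a0b8a) (nat_lit 0) (p (nat_lit 0x2a825aa8258a0b89890a) (nat_lit 0) (p (nat_lit 0xb0014) (nat_lit 1) (p (nat_lit 0x20000c) (nat_lit 0) (p (nat_lit 0x200004) (nat_lit 0) (p (nat_lit 0x109) (nat_lit 1) (p (nat_lit 0x101) (nat_lit 0) (p (nat_lit 0x81) (nat_lit 1) (p (nat_lit 0xc1) (nat_lit 1) (p (nat_lit 0x119) (nat_lit 1) (p (nat_lit 0xd1) (nat_lit 0) (p (nat_lit 0x89) (nat_lit 0) (p (nat_lit 0x41) (nat_lit 0) (p (nat_lit 0x898a0b090a9a) (nat_lit 0) (p (nat_lit 0x9098a888a1a) (nat_lit 0) (p (nat_lit 0x88890a08079a) (nat_lit 0) (p (nat_lit 0x8088987871a) (nat_lit 0) (p (nat_lit 0x80000800078907088a)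 (nat_lit 0) (p (nat_lit 0x80000800070886860a) (nat_lit 0) (p (nat_lit 0x8708060782) (nat_lit 0) (p (nat_lit 0x687858702) (nat_lit 0) (p (nat_lit 0x8607050482) (nat_lit 0) (p (nat_lit 0x586848402) (nat_lit 0) (p (nat_lit 0x160014) (nat_lit 0) (p (nat_lit 0x50612) (nat_lit 0) (p (nat_lit 0x40592) (nat_lit 0) (p (nat_lit 0x40492) (nat_lit 0) (p (nat_lit 0x30412) (nat_lit 0) (p (nat_lit 0x30212) (nat_lit 0) (p (nat_lit 0x20192) (nat_lit 0) (p (nat_lit 0x20092) (nat_lit 0) (p (nat_lit 0x10012) (nat_lit 0) pn))))))))))))))))))))))))))))))))))) :=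
  Cl.node (nat_lit 0x8c8d0e0c0d9a) (nat_lit 1) (by decide +kernel) (ClAll.succ ClAll.zero n7)

def n16 : Cl (O (nat_lit 3)) (R (nat_lit 102673))
    (p (nat_lit 0x58014) (nat_lit 0) (p (nat_lit 0x10000c) (nat_lit 0) (p (nat_lit 0x100004) (nat_lit 0) (p (nat_lit 0x101) (nat_lit 1) (p (nat_lit 0x109) (nat_lit 0) (p (nat_lit 0xb0014) (nat_lit 0) (p (nat_lit 0x119) (nat_lit 0) (p (nat_lit 0x20000c) (nat_lit 0) (p (nat_lit 0x200004) (nat_lit 0) (p (nat_lit 0xc1) (nat_lit 0) (p (nat_lit 0x81) (nat_lit 1) (p (nat_lit 0x101) (nat_lit 1) (p (nat_lit 0x111) (nat_lit 0) (p (nat_lit 0xd1) (nat_lit 1) (p (nat_lit 0x89) (nat_lit 0) (p (nat_lit 0x41) (nat_lit 0) (p (nat_lit 0x898a0b090a9a) (nat_lit 0) (p (nat_lit 0x9098a888a1a) (nat_lit 0) (p (nat_lit 0x88890a08079a) (nat_lit 0) (p (nat_lit 0x8088987871a) (nat_lit 0) (p (nat_lit 0x80000800078907088a) (nat_lit 0) (p (nat_lit 0x80000800070886860a)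 (nat_lit 0) (p (nat_lit 0x8708060782) (nat_lit 0) (p (nat_lit 0x687858702) (nat_lit 0) (p (nat_lit 0x8607050482) (nat_lit 0) (p (nat_lit 0x586848402) (nat_lit 0) (p (nat_lit 0x160014) (nat_lit 0) (p (nat_lit 0x50612) (nat_lit 0) (p (nat_lit 0x40592) (nat_lit 0) (p (nat_lit 0x40492) (nat_lit 0) (p (nat_lit 0x30412) (nat_lit 0) (p (nat_lit 0x30212) (nat_lit 0) (p (nat_lit 0x20192) (nat_lit 0) (p (nat_lit 0x20092) (nat_lit 0) (p (nat_lit 0x10012) (nat_lit 0) pn))))))))))))))))))))))))))))))))))) :=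
  Cl.node (nat_lit 0x41) (nat_lit 2) (by decide +kernel) (ClAll.succ (ClAll.succ ClAll.zero s86) s87)

def n17 : Cl (O (nat_lit 3)) (R (nat_lit 102673))
    (p (nat_lit 0xc0c8d8b8d1a) (nat_lit 0) (p (nat_lit 0x8b8c0d0b0a9a) (nat_lit 0) (p (nat_lit 0xb0b8c8a8a1a) (nat_lit 0) (p (nat_lit 0x2a825aa8258a8c0a0b8a) (nat_lit 0) (p (nat_lit 0x2a825aa8258a0b89890a) (nat_lit 0) (p (nat_lit 0xb0014) (nat_lit 1) (p (nat_lit 0x119) (nat_lit 1) (p (nat_lit 0x20000c) (nat_lit 0) (p (nat_lit 0x200004) (nat_lit 0) (p (nat_lit 0xc1) (nat_lit 0) (p (nat_lit 0x81) (nat_lit 1) (p (nat_lit 0x101) (nat_lit 1) (p (nat_lit 0x111) (nat_lit 0) (p (nat_lit 0xd1) (nat_lit 1) (p (nat_lit 0x89) (nat_lit 0) (p (nat_lit 0x41) (nat_lit 0) (p (nat_lit 0x898a0b090a9a) (nat_lit 0) (p (nat_lit 0x9098a888a1a) (nat_lit 0) (p (nat_lit 0x88890a08079a) (nat_lit 0) (p (nat_lit 0x8088987871a) (nat_lit 0) (p (nat_lit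 0x80000800078907088a) (nat_lit 0) (p (nat_lit 0x80000800070886860a) (nat_lit 0) (p (nat_lit 0x8708060782) (nat_lit 0) (p (nat_lit 0x687858702) (nat_lit 0) (p (nat_lit 0x8607050482) (nat_lit 0) (p (nat_lit 0x586848402) (nat_lit 0) (p (nat_lit 0x160014) (nat_lit 0) (p (nat_lit 0x50612) (nat_lit 0) (p (nat_lit 0x40592) (nat_lit 0) (p (nat_lit 0x40492) (nat_lit 0) (p (nat_lit 0x30412) (nat_lit 0) (p (nat_lit 0x30212) (nat_lit 0) (p (nat_lit 0x20192) (nat_lit 0) (p (nat_lit 0x20092) (nat_lit 0) (p (nat_lit 0x10012) (nat_lit 0) pn))))))))))))))))))))))))))))))))))) :=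
  Cl.node (nat_lit 0x8c8d0e0c0d9a) (nat_lit 1) (by decide +kernel) (ClAll.succ ClAll.zero n8)

def n18 : Cl (O (nat_lit 3)) (R (nat_lit 102673))
    (p (nat_lit 0x8c8d0e0c0d9a) (nat_lit 0) (p (nat_lit 0xc0c8d8b8d1a) (nat_lit 0) (p (nat_lit 0x8b8c0d0b0a9a) (nat_lit 0) (p (nat_lit 0xb0b8c8a8a1a) (nat_lit 0) (p (nat_lit 0x2a825aa8258a8c0a0b8a) (nat_lit 0) (p (nat_lit 0x2a825aa8258a0b89890a) (nat_lit 0) (p (nat_lit 0xb0014) (nat_lit 1) (p (nat_lit 0x20000c) (nat_lit 0) (p (nat_lit 0x200004) (nat_lit 0) (p (nat_lit 0x101) (nat_lit 0) (p (nat_lit 0xc1) (nat_lit 1) (p (nat_lit 0x81) (nat_lit 1) (p (nat_lit 0x111) (nat_lit 1) (p (nat_lit 0xd1) (nat_lit 1) (p (nat_lit 0x89) (nat_lit 0) (p (nat_lit 0x41) (nat_lit 0) (p (nat_lit 0x898a0b090a9a) (nat_lit 0) (p (nat_lit 0x9098a888a1a) (nat_lit 0) (p (nat_lit 0x88890a08079a) (nat_lit 0) (p (nat_lit 0x8088987871a) (nat_lit 0) (p (nat_lit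 0x80000800078907088a) (nat_lit 0) (p (nat_lit 0x80000800070886860a) (nat_lit 0) (p (nat_lit 0x8708060782) (nat_lit 0) (p (nat_lit 0x687858702) (nat_lit 0) (p (nat_lit 0x8607050482) (nat_lit 0) (p (nat_lit 0x586848402) (nat_lit 0) (p (nat_lit 0x160014) (nat_lit 0) (p (nat_lit 0x50612) (nat_lit 0) (p (nat_lit 0x40592) (nat_lit 0) (p (nat_lit 0x40492) (nat_lit 0) (p (nat_lit 0x30412) (nat_lit 0) (p (nat_lit 0x30212) (nat_lit 0) (p (nat_lit 0x20192) (nat_lit 0) (p (nat_lit 0x20092) (nat_lit 0) (p (nat_lit 0x10012) (nat_lit 0) pn))))))))))))))))))))))))))))))))))) :=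
  Cl.node (nat_lit 0x109) (nat_lit 2) (by decide +kernel) (ClAll.succ (ClAll.succ ClAll.zero s117) s118)

def n19 : Cl (O (nat_lit 3)) (R (nat_lit 102673))
    (p (nat_lit 0x8c8d0e0c0d9a) (nat_lit 0) (p (nat_lit 0xc0c8d8b8d1a) (nat_lit 0) (p (nat_lit 0x8b8c0d0b0a9a) (nat_lit 0) (p (nat_lit 0xb0b8c8a8a1a) (nat_lit 0) (p (nat_lit 0x2a825aa8258a8c0a0b8a) (nat_lit 0) (p (nat_lit 0x2a825aa8258a0b89890a) (nat_lit 0) (p (nat_lit 0xb0014) (nat_lit 1) (p (nat_lit 0x20000c) (nat_lit 0) (p (nat_lit 0x200004) (nat_lit 0) (p (nat_lit 0xd1) (nat_lit 1) (p (nat_lit 0x109) (nat_lit 1) (p (nat_lit 0x101) (nat_lit 0) (p (nat_lit 0x119) (nat_lit 0) (p (nat_lit 0xc9) (nat_lit 0) (p (nat_lit 0x89) (nat_lit 1) (p (nat_lit 0x41) (nat_lit 0) (p (nat_lit 0x898a0b090a9a) (nat_lit 0) (p (nat_lit 0x9098a888a1a) (nat_lit 0) (p (nat_lit 0x88890a08079a) (nat_lit 0) (p (nat_lit 0x8088987871a) (nat_lit 0)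 (p (nat_lit 0x80000800078907088a) (nat_lit 0) (p (nat_lit 0x80000800070886860a) (nat_lit 0) (p (nat_lit 0x8708060782) (nat_lit 0) (p (nat_lit 0x687858702) (nat_lit 0) (p (nat_lit 0x8607050482) (nat_lit 0) (p (nat_lit 0x586848402) (nat_lit 0) (p (nat_lit 0x160014) (nat_lit 0) (p (nat_lit 0x50612) (nat_lit 0) (p (nat_lit 0x40592) (nat_lit 0) (p (nat_lit 0x40492) (nat_lit 0) (p (nat_lit 0x30412) (nat_lit 0) (p (nat_lit 0x30212) (nat_lit 0) (p (nat_lit 0x20192) (nat_lit 0) (p (nat_lit 0x20092) (nat_lit 0) (p (nat_lit 0x10012) (nat_lit 0) pn))))))))))))))))))))))))))))))))))) :=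
  Cl.node (nat_lit 0x41) (nat_lit 2) (by decide +kernel) (ClAll.succ (ClAll.succ ClAll.zero n9) s144)

def n20 : Cl (O (nat_lit 3)) (R (nat_lit 102673))
    (p (nat_lit 0x8c8d0e0c0d9a) (nat_lit 0) (p (nat_lit 0xc0c8d8b8d1a) (nat_lit 0) (p (nat_lit 0x8b8c0d0b0a9a) (nat_lit 0) (p (nat_lit 0xb0b8c8a8a1a) (nat_lit 0) (p (nat_lit 0x2a825aa8258a8c0a0b8a) (nat_lit 0) (p (nat_lit 0x2a825aa8258a0b89890a) (nat_lit 0) (p (nat_lit 0xb0014) (nat_lit 1) (p (nat_lit 0x20000c) (nat_lit 0) (p (nat_lit 0x200004) (nat_lit 0) (p (nat_lit 0xd1) (nat_lit 1) (p (nat_lit 0xc1) (nat_lit 0) (p (nat_lit 0x101) (nat_lit 1) (p (nat_lit 0x119) (nat_lit 0) (p (nat_lit 0xc9) (nat_lit 0) (p (nat_lit 0x89) (nat_lit 1) (p (nat_lit 0x41) (nat_lit 0) (p (nat_lit 0x898a0b090a9a) (nat_lit 0) (p (nat_lit 0x9098a888a1a) (nat_lit 0) (p (nat_lit 0x88890a08079a) (nat_lit 0) (p (nat_lit 0x8088987871a) (nat_lit 0) (p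 (nat_lit 0x80000800078907088a) (nat_lit 0) (p (nat_lit 0x80000800070886860a) (nat_lit 0) (p (nat_lit 0x8708060782) (nat_lit 0) (p (nat_lit 0x687858702) (nat_lit 0) (p (nat_lit 0x8607050482) (nat_lit 0) (p (nat_lit 0x586848402) (nat_lit 0) (p (nat_lit 0x160014) (nat_lit 0) (p (nat_lit 0x50612) (nat_lit 0) (p (nat_lit 0x40592) (nat_lit 0) (p (nat_lit 0x40492) (nat_lit 0) (p (nat_lit 0x30412) (nat_lit 0) (p (nat_lit 0x30212) (nat_lit 0) (p (nat_lit 0x20192) (nat_lit 0) (p (nat_lit 0x20092) (nat_lit 0) (p (nat_lit 0x10012) (nat_lit 0) pn))))))))))))))))))))))))))))))))))) :=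
  Cl.node (nat_lit 0x109) (nat_lit 2) (by decide +kernel) (ClAll.succ (ClAll.succ ClAll.zero s156) n10)

def n21 : Cl (O (nat_lit 3)) (R (nat_lit 102673))
    (p (nat_lit 0x8c8d0e0c0d9a) (nat_lit 0) (p (nat_lit 0xc0c8d8b8d1a) (nat_lit 0) (p (nat_lit 0x8b8c0d0b0a9a) (nat_lit 0) (p (nat_lit 0xb0b8c8a8a1a) (nat_lit 0) (p (nat_lit 0x2a825aa8258a8c0a0b8a) (nat_lit 0) (p (nat_lit 0x2a825aa8258a0b89890a) (nat_lit 0) (p (nat_lit 0xb0014) (nat_lit 1) (p (nat_lit 0x20000c) (nat_lit 0) (p (nat_lit 0x200004) (nat_lit 0) (p (nat_lit 0x111) (nat_lit 1) (p (nat_lit 0x101) (nat_lit 0) (p (nat_lit 0xc1) (nat_lit 1) (p (nat_lit 0x119) (nat_lit 1) (p (nat_lit 0xc9) (nat_lit 0) (p (nat_lit 0x89) (nat_lit 1) (p (nat_lit 0x41) (nat_lit 0) (p (nat_lit 0x898a0b090a9a) (nat_lit 0) (p (nat_lit 0x9098a888a1a) (nat_lit 0) (p (nat_lit 0x88890a08079a) (nat_lit 0) (p (nat_lit 0x8088987871a) (nat_lit 0)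 (p (nat_lit 0x80000800078907088a) (nat_lit 0) (p (nat_lit 0x80000800070886860a) (nat_lit 0) (p (nat_lit 0x8708060782) (nat_lit 0) (p (nat_lit 0x687858702) (nat_lit 0) (p (nat_lit 0x8607050482) (nat_lit 0) (p (nat_lit 0x586848402) (nat_lit 0) (p (nat_lit 0x160014) (nat_lit 0) (p (nat_lit 0x50612) (nat_lit 0) (p (nat_lit 0x40592) (nat_lit 0) (p (nat_lit 0x40492) (nat_lit 0) (p (nat_lit 0x30412) (nat_lit 0) (p (nat_lit 0x30212) (nat_lit 0) (p (nat_lit 0x20192) (nat_lit 0) (p (nat_lit 0x20092) (nat_lit 0) (p (nat_lit 0x10012) (nat_lit 0) pn))))))))))))))))))))))))))))))))))) :=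
  Cl.node (nat_lit 0xd1) (nat_lit 2) (by decide +kernel) (ClAll.succ (ClAll.succ ClAll.zero s176) s177)

def n22 : Cl (O (nat_lit 3)) (R (nat_lit 102673))
    (p (nat_lit 0x8c8d0e0c0d9a) (nat_lit 0) (p (nat_lit 0xc0c8d8b8d1a) (nat_lit 0) (p (nat_lit 0x8b8c0d0b0a9a) (nat_lit 0) (p (nat_lit 0xb0b8c8a8a1a) (nat_lit 0) (p (nat_lit 0x2a825aa8258a8c0a0b8a) (nat_lit 0) (p (nat_lit 0x2a825aa8258a0b89890a) (nat_lit 0) (p (nat_lit 0xb0014) (nat_lit 1) (p (nat_lit 0x20000c) (nat_lit 0) (p (nat_lit 0x200004) (nat_lit 0) (p (nat_lit 0x89) (nat_lit 1) (p (nat_lit 0xc1) (nat_lit 1) (p (nat_lit 0x101) (nat_lit 1) (p (nat_lit 0x119) (nat_lit 0) (p (nat_lit 0xd1) (nat_lit 0) (p (nat_lit 0x81) (nat_lit 0) (p (nat_lit 0x41) (nat_lit 1) (p (nat_lit 0x898a0b090a9a) (nat_lit 0) (p (nat_lit 0x9098a888a1a) (nat_lit 0) (p (nat_lit 0x88890a08079a) (nat_lit 0) (p (nat_lit 0x8088987871a) (nat_lit 0)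 (p (nat_lit 0x80000800078907088a) (nat_lit 0) (p (nat_lit 0x80000800070886860a) (nat_lit 0) (p (nat_lit 0x8708060782) (nat_lit 0) (p (nat_lit 0x687858702) (nat_lit 0) (p (nat_lit 0x8607050482) (nat_lit 0) (p (nat_lit 0x586848402) (nat_lit 0) (p (nat_lit 0x160014) (nat_lit 0) (p (nat_lit 0x50612) (nat_lit 0) (p (nat_lit 0x40592) (nat_lit 0) (p (nat_lit 0x40492) (nat_lit 0) (p (nat_lit 0x30412) (nat_lit 0) (p (nat_lit 0x30212) (nat_lit 0) (p (nat_lit 0x20192) (nat_lit 0) (p (nat_lit 0x20092) (nat_lit 0) (p (nat_lit 0x10012) (nat_lit 0) pn))))))))))))))))))))))))))))))))))) :=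
  Cl.node (nat_lit 0x109) (nat_lit 2) (by decide +kernel) (ClAll.succ (ClAll.succ ClAll.zero s229) s230)

def n23 : Cl (O (nat_lit 3)) (R (nat_lit 102673))
    (p (nat_lit 0x8c8d0e0c0d9a) (nat_lit 0) (p (nat_lit 0xc0c8d8b8d1a) (nat_lit 0) (p (nat_lit 0x8b8c0d0b0a9a) (nat_lit 0) (p (nat_lit 0xb0b8c8a8a1a) (nat_lit 0) (p (nat_lit 0x2a825aa8258a8c0a0b8a) (nat_lit 0) (p (nat_lit 0x2a825aa8258a0b89890a) (nat_lit 0) (p (nat_lit 0xb0014) (nat_lit 1) (p (nat_lit 0x20000c) (nat_lit 0) (p (nat_lit 0x200004) (nat_lit 0) (p (nat_lit 0x89) (nat_lit 1) (p (nat_lit 0x101) (nat_lit 1) (p (nat_lit 0xc1) (nat_lit 1) (p (nat_lit 0x119) (nat_lit 1) (p (nat_lit 0xd1) (nat_lit 0) (p (nat_lit 0x81) (nat_lit 0) (p (nat_lit 0x41) (nat_lit 1) (p (nat_lit 0x898a0b090a9a) (nat_lit 0) (p (nat_lit 0x9098a888a1a) (nat_lit 0) (p (nat_lit 0x88890a08079a) (nat_lit 0) (p (nat_lit 0x8088987871a) (nat_lit 0)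 (p (nat_lit 0x80000800078907088a) (nat_lit 0) (p (nat_lit 0x80000800070886860a) (nat_lit 0) (p (nat_lit 0x8708060782) (nat_lit 0) (p (nat_lit 0x687858702) (nat_lit 0) (p (nat_lit 0x8607050482) (nat_lit 0) (p (nat_lit 0x586848402) (nat_lit 0) (p (nat_lit 0x160014) (nat_lit 0) (p (nat_lit 0x50612) (nat_lit 0) (p (nat_lit 0x40592) (nat_lit 0) (p (nat_lit 0x40492) (nat_lit 0) (p (nat_lit 0x30412) (nat_lit 0) (p (nat_lit 0x30212) (nat_lit 0) (p (nat_lit 0x20192) (nat_lit 0) (p (nat_lit 0x20092) (nat_lit 0) (p (nat_lit 0x10012) (nat_lit 0) pn))))))))))))))))))))))))))))))))))) :=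
  Cl.node (nat_lit 0xc9) (nat_lit 2) (by decide +kernel) (ClAll.succ (ClAll.succ ClAll.zero s255) s256)

def n24 : Cl (O (nat_lit 3)) (R (nat_lit 102673))
    (p (nat_lit 0x8c8d0e0c0d9a) (nat_lit 0) (p (nat_lit 0xc0c8d8b8d1a) (nat_lit 0) (p (nat_lit 0x8b8c0d0b0a9a) (nat_lit 0) (p (nat_lit 0xb0b8c8a8a1a) (nat_lit 0) (p (nat_lit 0x2a825aa8258a8c0a0b8a) (nat_lit 0) (p (nat_lit 0x2a825aa8258a0b89890a) (nat_lit 0) (p (nat_lit 0xb0014) (nat_lit 1) (p (nat_lit 0x20000c) (nat_lit 0) (p (nat_lit 0x200004) (nat_lit 0) (p (nat_lit 0xc9) (nat_lit 0) (p (nat_lit 0x89) (nat_lit 1) (p (nat_lit 0x101) (nat_lit 1) (p (nat_lit 0x111) (nat_lit 0) (p (nat_lit 0xd1) (nat_lit 1) (p (nat_lit 0x81) (nat_lit 0) (p (nat_lit 0x41) (nat_lit 1) (p (nat_lit 0x898a0b090a9a) (nat_lit 0) (p (nat_lit 0x9098a888a1a) (nat_lit 0) (p (nat_lit 0x88890a08079a) (nat_lit 0) (p (nat_lit 0x8088987871a) (nat_lit 0)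 (p (nat_lit 0x80000800078907088a) (nat_lit 0) (p (nat_lit 0x80000800070886860a) (nat_lit 0) (p (nat_lit 0x8708060782) (nat_lit 0) (p (nat_lit 0x687858702) (nat_lit 0) (p (nat_lit 0x8607050482) (nat_lit 0) (p (nat_lit 0x586848402) (nat_lit 0) (p (nat_lit 0x160014) (nat_lit 0) (p (nat_lit 0x50612) (nat_lit 0) (p (nat_lit 0x40592) (nat_lit 0) (p (nat_lit 0x40492) (nat_lit 0) (p (nat_lit 0x30412) (nat_lit 0) (p (nat_lit 0x30212) (nat_lit 0) (p (nat_lit 0x20192) (nat_lit 0) (p (nat_lit 0x20092) (nat_lit 0) (p (nat_lit 0x10012) (nat_lit 0) pn))))))))))))))))))))))))))))))))))) :=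
  Cl.node (nat_lit 0x119) (nat_lit 2) (by decide +kernel) (ClAll.succ (ClAll.succ ClAll.zero n11) n12)

def n25 : Cl (O (nat_lit 3)) (R (nat_lit 102673))
    (p (nat_lit 0x8b8c0d0b0a9a) (nat_lit 0) (p (nat_lit 0xb0b8c8a8a1a) (nat_lit 0) (p (nat_lit 0x2a825aa8258a8c0a0b8a) (nat_lit 0) (p (nat_lit 0x2a825aa8258a0b89890a) (nat_lit 0) (p (nat_lit 0xb0014) (nat_lit 1) (p (nat_lit 0x111) (nat_lit 0) (p (nat_lit 0x20000c) (nat_lit 0) (p (nat_lit 0x200004) (nat_lit 0) (p (nat_lit 0xc9) (nat_lit 1) (p (nat_lit 0x81) (nat_lit 0) (p (nat_lit 0x101) (nat_lit 1) (p (nat_lit 0x119) (nat_lit 0) (p (nat_lit 0xd1) (nat_lit 0) (p (nat_lit 0x89) (nat_lit 0) (p (nat_lit 0x41) (nat_lit 0) (p (nat_lit 0x898a0b090a9a) (nat_lit 0) (p (nat_lit 0x9098a888a1a) (nat_lit 0) (p (nat_lit 0x88890a08079a) (nat_lit 0) (p (nat_lit 0x8088987871a) (nat_lit 0) (p (nat_lit 0x80000800078907088a) (nat_lit 0) (p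 (nat_lit 0x80000800070886860a) (nat_lit 0) (p (nat_lit 0x8708060782) (nat_lit 0) (p (nat_lit 0x687858702) (nat_lit 0) (p (nat_lit 0x8607050482) (nat_lit 0) (p (nat_lit 0x586848402) (nat_lit 0) (p (nat_lit 0x160014) (nat_lit 0) (p (nat_lit 0x50612) (nat_lit 0) (p (nat_lit 0x40592) (nat_lit 0) (p (nat_lit 0x40492) (nat_lit 0) (p (nat_lit 0x30412) (nat_lit 0) (p (nat_lit 0x30212) (nat_lit 0) (p (nat_lit 0x20192) (nat_lit 0) (p (nat_lit 0x20092) (nat_lit 0) (p (nat_lit 0x10012) (nat_lit 0) pn)))))))))))))))))))))))))))))))))) :=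
  Cl.node (nat_lit 0xc0c8d8b8d1a) (nat_lit 1) (by decide +kernel) (ClAll.succ ClAll.zero n13)

def n26 : Cl (O (nat_lit 3)) (R (nat_lit 102673))
    (p (nat_lit 0x10000c) (nat_lit 0) (p (nat_lit 0x100004) (nat_lit 0) (p (nat_lit 0x111) (nat_lit 1) (p (nat_lit 0x109) (nat_lit 0) (p (nat_lit 0xb0014) (nat_lit 0) (p (nat_lit 0x20000c) (nat_lit 0) (p (nat_lit 0x200004) (nat_lit 0) (p (nat_lit 0xc9) (nat_lit 1) (p (nat_lit 0xc1) (nat_lit 0) (p (nat_lit 0x81) (nat_lit 1) (p (nat_lit 0x101) (nat_lit 1) (p (nat_lit 0x119) (nat_lit 0) (p (nat_lit 0xd1) (nat_lit 0) (p (nat_lit 0x89) (nat_lit 0) (p (nat_lit 0x41) (nat_lit 0) (p (nat_lit 0x898a0b090a9a) (nat_lit 0) (p (nat_lit 0x9098a888a1a) (nat_lit 0) (p (nat_lit 0x88890a08079a) (nat_lit 0) (p (nat_lit 0x8088987871a) (nat_lit 0) (p (nat_lit 0x80000800078907088a) (nat_lit 0) (p (nat_lit 0x80000800070886860a) (nat_lit 0) (p (nat_lit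 0x8708060782) (nat_lit 0) (p (nat_lit 0x687858702) (nat_lit 0) (p (nat_lit 0x8607050482) (nat_lit 0) (p (nat_lit 0x586848402) (nat_lit 0) (p (nat_lit 0x160014) (nat_lit 0) (p (nat_lit 0x50612) (nat_lit 0) (p (nat_lit 0x40592) (nat_lit 0) (p (nat_lit 0x40492) (nat_lit 0) (p (nat_lit 0x30412) (nat_lit 0) (p (nat_lit 0x30212) (nat_lit 0) (p (nat_lit 0x20192) (nat_lit 0) (p (nat_lit 0x20092) (nat_lit 0) (p (nat_lit 0x10012) (nat_lit 0) pn)))))))))))))))))))))))))))))))))) :=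
  Cl.node (nat_lit 0x58014) (nat_lit 2) (by decide +kernel) (ClAll.succ (ClAll.succ ClAll.zero s33) s34)

def n27 : Cl (O (nat_lit 3)) (R (nat_lit 102673))
    (p (nat_lit 0x8b8c0d0b0a9a) (nat_lit 0) (p (nat_lit 0xb0b8c8a8a1a) (nat_lit 0) (p (nat_lit 0x2a825aa8258a8c0a0b8a) (nat_lit 0) (p (nat_lit 0x2a825aa8258a0b89890a) (nat_lit 0) (p (nat_lit 0xb0014) (nat_lit 1) (p (nat_lit 0x20000c) (nat_lit 0) (p (nat_lit 0x200004) (nat_lit 0) (p (nat_lit 0xc9) (nat_lit 1) (p (nat_lit 0xc1) (nat_lit 0) (p (nat_lit 0x81) (nat_lit 1) (p (nat_lit 0x101) (nat_lit 1) (p (nat_lit 0x119) (nat_lit 0) (p (nat_lit 0xd1) (nat_lit 0) (p (nat_lit 0x89) (nat_lit 0) (p (nat_lit 0x41) (nat_lit 0) (p (nat_lit 0x898a0b090a9a) (nat_lit 0) (p (nat_lit 0x9098a888a1a) (nat_lit 0) (p (nat_lit 0x88890a08079a) (nat_lit 0) (p (nat_lit 0x8088987871a) (nat_lit 0) (p (nat_lit 0x80000800078907088a) (nat_lit 0) (p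 (nat_lit 0x80000800070886860a) (nat_lit 0) (p (nat_lit 0x8708060782) (nat_lit 0) (p (nat_lit 0x687858702) (nat_lit 0) (p (nat_lit 0x8607050482) (nat_lit 0) (p (nat_lit 0x586848402) (nat_lit 0) (p (nat_lit 0x160014) (nat_lit 0) (p (nat_lit 0x50612) (nat_lit 0) (p (nat_lit 0x40592) (nat_lit 0) (p (nat_lit 0x40492) (nat_lit 0) (p (nat_lit 0x30412) (nat_lit 0) (p (nat_lit 0x30212) (nat_lit 0) (p (nat_lit 0x20192) (nat_lit 0) (p (nat_lit 0x20092) (nat_lit 0) (p (nat_lit 0x10012) (nat_lit 0) pn)))))))))))))))))))))))))))))))))) :=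
  Cl.node (nat_lit 0xc0c8d8b8d1a) (nat_lit 1) (by decide +kernel) (ClAll.succ ClAll.zero n14)

def n28 : Cl (O (nat_lit 3)) (R (nat_lit 102673))
    (p (nat_lit 0x8b8c0d0b0a9a) (nat_lit 0) (p (nat_lit 0xb0b8c8a8a1a) (nat_lit 0) (p (nat_lit 0x2a825aa8258a8c0a0b8a) (nat_lit 0) (p (nat_lit 0x2a825aa8258a0b89890a) (nat_lit 0) (p (nat_lit 0xb0014) (nat_lit 1) (p (nat_lit 0x20000c) (nat_lit 0) (p (nat_lit 0x200004) (nat_lit 0) (p (nat_lit 0x109) (nat_lit 1) (p (nat_lit 0x101) (nat_lit 0) (p (nat_lit 0x81) (nat_lit 1) (p (nat_lit 0xc1) (nat_lit 1) (p (nat_lit 0x119) (nat_lit 1) (p (nat_lit 0xd1) (nat_lit 0) (p (nat_lit 0x89) (nat_lit 0) (p (nat_lit 0x41) (nat_lit 0) (p (nat_lit 0x898a0b090a9a) (nat_lit 0) (p (nat_lit 0x9098a888a1a) (nat_lit 0) (p (nat_lit 0x88890a08079a) (nat_lit 0) (p (nat_lit 0x8088987871a) (nat_lit 0) (p (nat_lit 0x80000800078907088a) (nat_lit 0) (p (nat_lit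 0x80000800070886860a) (nat_lit 0) (p (nat_lit 0x8708060782) (nat_lit 0) (p (nat_lit 0x687858702) (nat_lit 0) (p (nat_lit 0x8607050482) (nat_lit 0) (p (nat_lit 0x586848402) (nat_lit 0) (p (nat_lit 0x160014) (nat_lit 0) (p (nat_lit 0x50612) (nat_lit 0) (p (nat_lit 0x40592) (nat_lit 0) (p (nat_lit 0x40492) (nat_lit 0) (p (nat_lit 0x30412) (nat_lit 0) (p (nat_lit 0x30212) (nat_lit 0) (p (nat_lit 0x20192) (nat_lit 0) (p (nat_lit 0x20092) (nat_lit 0) (p (nat_lit 0x10012) (nat_lit 0) pn)))))))))))))))))))))))))))))))))) :=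
  Cl.node (nat_lit 0xc0c8d8b8d1a) (nat_lit 1) (by decide +kernel) (ClAll.succ ClAll.zero n15)

def n29 : Cl (O (nat_lit 3)) (R (nat_lit 102673))
    (p (nat_lit 0x10000c) (nat_lit 0) (p (nat_lit 0x100004) (nat_lit 0) (p (nat_lit 0x101) (nat_lit 1) (p (nat_lit 0x109) (nat_lit 0) (p (nat_lit 0xb0014) (nat_lit 0) (p (nat_lit 0x119) (nat_lit 0) (p (nat_lit 0x20000c) (nat_lit 0) (p (nat_lit 0x200004) (nat_lit 0) (p (nat_lit 0xc1) (nat_lit 0) (p (nat_lit 0x81) (nat_lit 1) (p (nat_lit 0x101) (nat_lit 1) (p (nat_lit 0x111) (nat_lit 0) (p (nat_lit 0xd1) (nat_lit 1) (p (nat_lit 0x89) (nat_lit 0) (p (nat_lit 0x41) (nat_lit 0) (p (nat_lit 0x898a0b090a9a) (nat_lit 0) (p (nat_lit 0x9098a888a1a) (nat_lit 0) (p (nat_lit 0x88890a08079a) (nat_lit 0) (p (nat_lit 0x8088987871a) (nat_lit 0) (p (nat_lit 0x80000800078907088a) (nat_lit 0) (p (nat_lit 0x80000800070886860a) (nat_lit 0) (p (nat_lit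 0x8708060782) (nat_lit 0) (p (nat_lit 0x687858702) (nat_lit 0) (p (nat_lit 0x8607050482) (nat_lit 0) (p (nat_lit 0x586848402) (nat_lit 0) (p (nat_lit 0x160014) (nat_lit 0) (p (nat_lit 0x50612) (nat_lit 0) (p (nat_lit 0x40592) (nat_lit 0) (p (nat_lit 0x40492) (nat_lit 0) (p (nat_lit 0x30412) (nat_lit 0) (p (nat_lit 0x30212) (nat_lit 0) (p (nat_lit 0x20192) (nat_lit 0) (p (nat_lit 0x20092) (nat_lit 0) (p (nat_lit 0x10012) (nat_lit 0) pn)))))))))))))))))))))))))))))))))) :=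
  Cl.node (nat_lit 0x58014) (nat_lit 2) (by decide +kernel) (ClAll.succ (ClAll.succ ClAll.zero n16) s88)

def n30 : Cl (O (nat_lit 3)) (R (nat_lit 102673))
    (p (nat_lit 0x10000c) (nat_lit 0) (p (nat_lit 0x100004) (nat_lit 0) (p (nat_lit 0xc9) (nat_lit 0) (p (nat_lit 0x109) (nat_lit 1) (p (nat_lit 0xb0014) (nat_lit 0) (p (nat_lit 0x119) (nat_lit 0) (p (nat_lit 0x20000c) (nat_lit 0) (p (nat_lit 0x200004) (nat_lit 0) (p (nat_lit 0xc1) (nat_lit 0) (p (nat_lit 0x81) (nat_lit 1) (p (nat_lit 0x101) (nat_lit 1) (p (nat_lit 0x111) (nat_lit 0) (p (nat_lit 0xd1) (nat_lit 1) (p (nat_lit 0x89) (nat_lit 0) (p (nat_lit 0x41) (nat_lit 0) (p (nat_lit 0x898a0b090a9a) (nat_lit 0) (p (nat_lit 0x9098a888a1a) (nat_lit 0) (p (nat_lit 0x88890a08079a) (nat_lit 0) (p (nat_lit 0x8088987871a) (nat_lit 0) (p (nat_lit 0x80000800078907088a) (nat_lit 0) (p (nat_lit 0x80000800070886860a) (nat_lit 0) (p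 (nat_lit 0x8708060782) (nat_lit 0) (p (nat_lit 0x687858702) (nat_lit 0) (p (nat_lit 0x8607050482) (nat_lit 0) (p (nat_lit 0x586848402) (nat_lit 0) (p (nat_lit 0x160014) (nat_lit 0) (p (nat_lit 0x50612) (nat_lit 0) (p (nat_lit 0x40592) (nat_lit 0) (p (nat_lit 0x40492) (nat_lit 0) (p (nat_lit 0x30412) (nat_lit 0) (p (nat_lit 0x30212) (nat_lit 0) (p (nat_lit 0x20192) (nat_lit 0) (p (nat_lit 0x20092) (nat_lit 0) (p (nat_lit 0x10012) (nat_lit 0) pn)))))))))))))))))))))))))))))))))) :=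
  Cl.node (nat_lit 0x58014) (nat_lit 2) (by decide +kernel) (ClAll.succ (ClAll.succ ClAll.zero s91) s92)

def n31 : Cl (O (nat_lit 3)) (R (nat_lit 102673))
    (p (nat_lit 0x8b8c0d0b0a9a) (nat_lit 0) (p (nat_lit 0xb0b8c8a8a1a) (nat_lit 0) (p (nat_lit 0x2a825aa8258a8c0a0b8a) (nat_lit 0) (p (nat_lit 0x2a825aa8258a0b89890a) (nat_lit 0) (p (nat_lit 0xb0014) (nat_lit 1) (p (nat_lit 0x119) (nat_lit 1) (p (nat_lit 0x20000c) (nat_lit 0) (p (nat_lit 0x200004) (nat_lit 0) (p (nat_lit 0xc1) (nat_lit 0) (p (nat_lit 0x81) (nat_lit 1) (p (nat_lit 0x101) (nat_lit 1) (p (nat_lit 0x111) (nat_lit 0) (p (nat_lit 0xd1) (nat_lit 1) (p (nat_lit 0x89) (nat_lit 0) (p (nat_lit 0x41) (nat_lit 0) (p (nat_lit 0x898a0b090a9a) (nat_lit 0) (p (nat_lit 0x9098a888a1a) (nat_lit 0) (p (nat_lit 0x88890a08079a) (nat_lit 0) (p (nat_lit 0x8088987871a) (nat_lit 0) (p (nat_lit 0x80000800078907088a) (nat_lit 0) (p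 (nat_lit 0x80000800070886860a) (nat_lit 0) (p (nat_lit 0x8708060782) (nat_lit 0) (p (nat_lit 0x687858702) (nat_lit 0) (p (nat_lit 0x8607050482) (nat_lit 0) (p (nat_lit 0x586848402) (nat_lit 0) (p (nat_lit 0x160014) (nat_lit 0) (p (nat_lit 0x50612) (nat_lit 0) (p (nat_lit 0x40592) (nat_lit 0) (p (nat_lit 0x40492) (nat_lit 0) (p (nat_lit 0x30412) (nat_lit 0) (p (nat_lit 0x30212) (nat_lit 0) (p (nat_lit 0x20192) (nat_lit 0) (p (nat_lit 0x20092) (nat_lit 0) (p (nat_lit 0x10012) (nat_lit 0) pn)))))))))))))))))))))))))))))))))) :=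
  Cl.node (nat_lit 0xc0c8d8b8d1a) (nat_lit 1) (by decide +kernel) (ClAll.succ ClAll.zero n17)

def n32 : Cl (O (nat_lit 3)) (R (nat_lit 102673))
    (p (nat_lit 0xc0c8d8b8d1a) (nat_lit 0) (p (nat_lit 0x8b8c0d0b0a9a) (nat_lit 0) (p (nat_lit 0xb0b8c8a8a1a) (nat_lit 0) (p (nat_lit 0x2a825aa8258a8c0a0b8a) (nat_lit 0) (p (nat_lit 0x2a825aa8258a0b89890a) (nat_lit 0) (p (nat_lit 0xb0014) (nat_lit 1) (p (nat_lit 0x20000c) (nat_lit 0) (p (nat_lit 0x200004) (nat_lit 0) (p (nat_lit 0x101) (nat_lit 0) (p (nat_lit 0xc1) (nat_lit 1) (p (nat_lit 0x81) (nat_lit 1) (p (nat_lit 0x111) (nat_lit 1) (p (nat_lit 0xd1) (nat_lit 1) (p (nat_lit 0x89) (nat_lit 0) (p (nat_lit 0x41) (nat_lit 0) (p (nat_lit 0x898a0b090a9a) (nat_lit 0) (p (nat_lit 0x9098a888a1a) (nat_lit 0) (p (nat_lit 0x88890a08079a) (nat_lit 0) (p (nat_lit 0x8088987871a) (nat_lit 0) (p (nat_lit 0x80000800078907088a) (nat_lit 0) (p (nat_lit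 0x80000800070886860a) (nat_lit 0) (p (nat_lit 0x8708060782) (nat_lit 0) (p (nat_lit 0x687858702) (nat_lit 0) (p (nat_lit 0x8607050482) (nat_lit 0) (p (nat_lit 0x586848402) (nat_lit 0) (p (nat_lit 0x160014) (nat_lit 0) (p (nat_lit 0x50612) (nat_lit 0) (p (nat_lit 0x40592) (nat_lit 0) (p (nat_lit 0x40492) (nat_lit 0) (p (nat_lit 0x30412) (nat_lit 0) (p (nat_lit 0x30212) (nat_lit 0) (p (nat_lit 0x20192) (nat_lit 0) (p (nat_lit 0x20092) (nat_lit 0) (p (nat_lit 0x10012) (nat_lit 0) pn)))))))))))))))))))))))))))))))))) :=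
  Cl.node (nat_lit 0x8c8d0e0c0d9a) (nat_lit 1) (by decide +kernel) (ClAll.succ ClAll.zero n18)

def n33 : Cl (O (nat_lit 3)) (R (nat_lit 102673))
    (p (nat_lit 0xc0c8d8b8d1a) (nat_lit 0) (p (nat_lit 0x8b8c0d0b0a9a) (nat_lit 0) (p (nat_lit 0xb0b8c8a8a1a) (nat_lit 0) (p (nat_lit 0x2a825aa8258a8c0a0b8a) (nat_lit 0) (p (nat_lit 0x2a825aa8258a0b89890a) (nat_lit 0) (p (nat_lit 0xb0014) (nat_lit 1) (p (nat_lit 0x20000c) (nat_lit 0) (p (nat_lit 0x200004) (nat_lit 0) (p (nat_lit 0xd1) (nat_lit 1) (p (nat_lit 0x109) (nat_lit 1) (p (nat_lit 0x101) (nat_lit 0) (p (nat_lit 0x119) (nat_lit 0) (p (nat_lit 0xc9) (nat_lit 0) (p (nat_lit 0x89) (nat_lit 1) (p (nat_lit 0x41) (nat_lit 0) (p (nat_lit 0x898a0b090a9a) (nat_lit 0) (p (nat_lit 0x9098a888a1a) (nat_lit 0) (p (nat_lit 0x88890a08079a) (nat_lit 0) (p (nat_lit 0x8088987871a) (nat_lit 0) (p (nat_lit 0x80000800078907088a) (nat_lit 0) (p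 (nat_lit 0x80000800070886860a) (nat_lit 0) (p (nat_lit 0x8708060782) (nat_lit 0) (p (nat_lit 0x687858702) (nat_lit 0) (p (nat_lit 0x8607050482) (nat_lit 0) (p (nat_lit 0x586848402) (nat_lit 0) (p (nat_lit 0x160014) (nat_lit 0) (p (nat_lit 0x50612) (nat_lit 0) (p (nat_lit 0x40592) (nat_lit 0) (p (nat_lit 0x40492) (nat_lit 0) (p (nat_lit 0x30412) (nat_lit 0) (p (nat_lit 0x30212) (nat_lit 0) (p (nat_lit 0x20192) (nat_lit 0) (p (nat_lit 0x20092) (nat_lit 0) (p (nat_lit 0x10012) (nat_lit 0) pn)))))))))))))))))))))))))))))))))) :=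
  Cl.node (nat_lit 0x8c8d0e0c0d9a) (nat_lit 1) (by decide +kernel) (ClAll.succ ClAll.zero n19)

def n34 : Cl (O (nat_lit 3)) (R (nat_lit 102673))
    (p (nat_lit 0xc0c8d8b8d1a) (nat_lit 0) (p (nat_lit 0x8b8c0d0b0a9a) (nat_lit 0) (p (nat_lit 0xb0b8c8a8a1a) (nat_lit 0) (p (nat_lit 0x2a825aa8258a8c0a0b8a) (nat_lit 0) (p (nat_lit 0x2a825aa8258a0b89890a) (nat_lit 0) (p (nat_lit 0xb0014) (nat_lit 1) (p (nat_lit 0x20000c) (nat_lit 0) (p (nat_lit 0x200004) (nat_lit 0) (p (nat_lit 0xd1) (nat_lit 1) (p (nat_lit 0xc1) (nat_lit 0) (p (nat_lit 0x101) (nat_lit 1) (p (nat_lit 0x119) (nat_lit 0) (p (nat_lit 0xc9) (nat_lit 0) (p (nat_lit 0x89) (nat_lit 1) (p (nat_lit 0x41) (nat_lit 0) (p (nat_lit 0x898a0b090a9a) (nat_lit 0) (p (nat_lit 0x9098a888a1a) (nat_lit 0) (p (nat_lit 0x88890a08079a) (nat_lit 0) (p (nat_lit 0x8088987871a) (nat_lit 0) (p (nat_lit 0x80000800078907088a) (nat_lit 0) (p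 (nat_lit 0x80000800070886860a) (nat_lit 0) (p (nat_lit 0x8708060782) (nat_lit 0) (p (nat_lit 0x687858702) (nat_lit 0) (p (nat_lit 0x8607050482) (nat_lit 0) (p (nat_lit 0x586848402) (nat_lit 0) (p (nat_lit 0x160014) (nat_lit 0) (p (nat_lit 0x50612) (nat_lit 0) (p (nat_lit 0x40592) (nat_lit 0) (p (nat_lit 0x40492) (nat_lit 0) (p (nat_lit 0x30412) (nat_lit 0) (p (nat_lit 0x30212) (nat_lit 0) (p (nat_lit 0x20192) (nat_lit 0) (p (nat_lit 0x20092) (nat_lit 0) (p (nat_lit 0x10012) (nat_lit 0) pn)))))))))))))))))))))))))))))))))) :=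
  Cl.node (nat_lit 0x8c8d0e0c0d9a) (nat_lit 1) (by decide +kernel) (ClAll.succ ClAll.zero n20)

def n35 : Cl (O (nat_lit 3)) (R (nat_lit 102673))
    (p (nat_lit 0xc0c8d8b8d1a) (nat_lit 0) (p (nat_lit 0x8b8c0d0b0a9a) (nat_lit 0) (p (nat_lit 0xb0b8c8a8a1a) (nat_lit 0) (p (nat_lit 0x2a825aa8258a8c0a0b8a) (nat_lit 0) (p (nat_lit 0x2a825aa8258a0b89890a) (nat_lit 0) (p (nat_lit 0xb0014) (nat_lit 1) (p (nat_lit 0x20000c) (nat_lit 0) (p (nat_lit 0x200004) (nat_lit 0) (p (nat_lit 0x111) (nat_lit 1) (p (nat_lit 0x101) (nat_lit 0) (p (nat_lit 0xc1) (nat_lit 1) (p (nat_lit 0x119) (nat_lit 1) (p (nat_lit 0xc9) (nat_lit 0) (p (nat_lit 0x89) (nat_lit 1) (p (nat_lit 0x41) (nat_lit 0) (p (nat_lit 0x898a0b090a9a) (nat_lit 0) (p (nat_lit 0x9098a888a1a) (nat_lit 0) (p (nat_lit 0x88890a08079a) (nat_lit 0) (p (nat_lit 0x8088987871a) (nat_lit 0) (p (nat_lit 0x80000800078907088a) (nat_lit 0) (p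 (nat_lit 0x80000800070886860a) (nat_lit 0) (p (nat_lit 0x8708060782) (nat_lit 0) (p (nat_lit 0x687858702) (nat_lit 0) (p (nat_lit 0x8607050482) (nat_lit 0) (p (nat_lit 0x586848402) (nat_lit 0) (p (nat_lit 0x160014) (nat_lit 0) (p (nat_lit 0x50612) (nat_lit 0) (p (nat_lit 0x40592) (nat_lit 0) (p (nat_lit 0x40492) (nat_lit 0) (p (nat_lit 0x30412) (nat_lit 0) (p (nat_lit 0x30212) (nat_lit 0) (p (nat_lit 0x20192) (nat_lit 0) (p (nat_lit 0x20092) (nat_lit 0) (p (nat_lit 0x10012) (nat_lit 0) pn)))))))))))))))))))))))))))))))))) :=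
  Cl.node (nat_lit 0x8c8d0e0c0d9a) (nat_lit 1) (by decide +kernel) (ClAll.succ ClAll.zero n21)

def n36 : Cl (O (nat_lit 3)) (R (nat_lit 102673))
    (p (nat_lit 0xc0c8d8b8d1a) (nat_lit 0) (p (nat_lit 0x8b8c0d0b0a9a) (nat_lit 0) (p (nat_lit 0xb0b8c8a8a1a) (nat_lit 0) (p (nat_lit 0x2a825aa8258a8c0a0b8a) (nat_lit 0) (p (nat_lit 0x2a825aa8258a0b89890a) (nat_lit 0) (p (nat_lit 0xb0014) (nat_lit 1) (p (nat_lit 0x20000c) (nat_lit 0) (p (nat_lit 0x200004) (nat_lit 0) (p (nat_lit 0x89) (nat_lit 1) (p (nat_lit 0xc1) (nat_lit 1) (p (nat_lit 0x101) (nat_lit 1) (p (nat_lit 0x119) (nat_lit 0) (p (nat_lit 0xd1) (nat_lit 0) (p (nat_lit 0x81) (nat_lit 0) (p (nat_lit 0x41) (nat_lit 1) (p (nat_lit 0x898a0b090a9a) (nat_lit 0) (p (nat_lit 0x9098a888a1a) (nat_lit 0) (p (nat_lit 0x88890a08079a) (nat_lit 0) (p (nat_lit 0x8088987871a) (nat_lit 0) (p (nat_lit 0x80000800078907088a) (nat_lit 0) (p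 (nat_lit 0x80000800070886860a) (nat_lit 0) (p (nat_lit 0x8708060782) (nat_lit 0) (p (nat_lit 0x687858702) (nat_lit 0) (p (nat_lit 0x8607050482) (nat_lit 0) (p (nat_lit 0x586848402) (nat_lit 0) (p (nat_lit 0x160014) (nat_lit 0) (p (nat_lit 0x50612) (nat_lit 0) (p (nat_lit 0x40592) (nat_lit 0) (p (nat_lit 0x40492) (nat_lit 0) (p (nat_lit 0x30412) (nat_lit 0) (p (nat_lit 0x30212) (nat_lit 0) (p (nat_lit 0x20192) (nat_lit 0) (p (nat_lit 0x20092) (nat_lit 0) (p (nat_lit 0x10012) (nat_lit 0) pn)))))))))))))))))))))))))))))))))) :=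
  Cl.node (nat_lit 0x8c8d0e0c0d9a) (nat_lit 1) (by decide +kernel) (ClAll.succ ClAll.zero n22)

def n37 : Cl (O (nat_lit 3)) (R (nat_lit 102673))
    (p (nat_lit 0xc0c8d8b8d1a) (nat_lit 0) (p (nat_lit 0x8b8c0d0b0a9a) (nat_lit 0) (p (nat_lit 0xb0b8c8a8a1a) (nat_lit 0) (p (nat_lit 0x2a825aa8258a8c0a0b8a) (nat_lit 0) (p (nat_lit 0x2a825aa8258a0b89890a) (nat_lit 0) (p (nat_lit 0xb0014) (nat_lit 1) (p (nat_lit 0x20000c) (nat_lit 0) (p (nat_lit 0x200004) (nat_lit 0) (p (nat_lit 0x89) (nat_lit 1) (p (nat_lit 0x101) (nat_lit 1) (p (nat_lit 0xc1) (nat_lit 1) (p (nat_lit 0x119) (nat_lit 1) (p (nat_lit 0xd1) (nat_lit 0) (p (nat_lit 0x81) (nat_lit 0) (p (nat_lit 0x41) (nat_lit 1) (p (nat_lit 0x898a0b090a9a) (nat_lit 0) (p (nat_lit 0x9098a888a1a) (nat_lit 0) (p (nat_lit 0x88890a08079a) (nat_lit 0) (p (nat_lit 0x8088987871a) (nat_lit 0) (p (nat_lit 0x80000800078907088a) (nat_lit 0) (p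 (nat_lit 0x80000800070886860a) (nat_lit 0) (p (nat_lit 0x8708060782) (nat_lit 0) (p (nat_lit 0x687858702) (nat_lit 0) (p (nat_lit 0x8607050482) (nat_lit 0) (p (nat_lit 0x586848402) (nat_lit 0) (p (nat_lit 0x160014) (nat_lit 0) (p (nat_lit 0x50612) (nat_lit 0) (p (nat_lit 0x40592) (nat_lit 0) (p (nat_lit 0x40492) (nat_lit 0) (p (nat_lit 0x30412) (nat_lit 0) (p (nat_lit 0x30212) (nat_lit 0) (p (nat_lit 0x20192) (nat_lit 0) (p (nat_lit 0x20092) (nat_lit 0) (p (nat_lit 0x10012) (nat_lit 0) pn)))))))))))))))))))))))))))))))))) :=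
  Cl.node (nat_lit 0x8c8d0e0c0d9a) (nat_lit 1) (by decide +kernel) (ClAll.succ ClAll.zero n23)

def n38 : Cl (O (nat_lit 3)) (R (nat_lit 102673))
    (p (nat_lit 0x100004) (nat_lit 0) (p (nat_lit 0xd1) (nat_lit 1) (p (nat_lit 0xc1) (nat_lit 0) (p (nat_lit 0xb0014) (nat_lit 0) (p (nat_lit 0x119) (nat_lit 1) (p (nat_lit 0x20000c) (nat_lit 0) (p (nat_lit 0x200004) (nat_lit 0) (p (nat_lit 0xc9) (nat_lit 0) (p (nat_lit 0x89) (nat_lit 1) (p (nat_lit 0x109) (nat_lit 1) (p (nat_lit 0x101) (nat_lit 0) (p (nat_lit 0x111) (nat_lit 0) (p (nat_lit 0xd1) (nat_lit 1) (p (nat_lit 0x81) (nat_lit 0) (p (nat_lit 0x41) (nat_lit 1) (p (nat_lit 0x898a0b090a9a) (nat_lit 0) (p (nat_lit 0x9098a888a1a) (nat_lit 0) (p (nat_lit 0x88890a08079a) (nat_lit 0) (p (nat_lit 0x8088987871a) (nat_lit 0) (p (nat_lit 0x80000800078907088a) (nat_lit 0) (p (nat_lit 0x80000800070886860a) (nat_lit 0) (p (nat_lit 0x8708060782)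 (nat_lit 0) (p (nat_lit 0x687858702) (nat_lit 0) (p (nat_lit 0x8607050482) (nat_lit 0) (p (nat_lit 0x586848402) (nat_lit 0) (p (nat_lit 0x160014) (nat_lit 0) (p (nat_lit 0x50612) (nat_lit 0) (p (nat_lit 0x40592) (nat_lit 0) (p (nat_lit 0x40492) (nat_lit 0) (p (nat_lit 0x30412) (nat_lit 0) (p (nat_lit 0x30212) (nat_lit 0) (p (nat_lit 0x20192) (nat_lit 0) (p (nat_lit 0x20092) (nat_lit 0) (p (nat_lit 0x10012) (nat_lit 0) pn)))))))))))))))))))))))))))))))))) :=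
  Cl.node (nat_lit 0x10000c) (nat_lit 2) (by decide +kernel) (ClAll.succ (ClAll.succ ClAll.zero s269) s270)

def n39 : Cl (O (nat_lit 3)) (R (nat_lit 102673))
    (p (nat_lit 0x100004) (nat_lit 0) (p (nat_lit 0x41) (nat_lit 0) (p (nat_lit 0xc1) (nat_lit 1) (p (nat_lit 0xb0014) (nat_lit 0) (p (nat_lit 0x119) (nat_lit 1) (p (nat_lit 0x20000c) (nat_lit 0) (p (nat_lit 0x200004) (nat_lit 0) (p (nat_lit 0xc9) (nat_lit 0) (p (nat_lit 0x89) (nat_lit 1) (p (nat_lit 0x109) (nat_lit 1) (p (nat_lit 0x101) (nat_lit 0) (p (nat_lit 0x111) (nat_lit 0) (p (nat_lit 0xd1) (nat_lit 1) (p (nat_lit 0x81) (nat_lit 0) (p (nat_lit 0x41) (nat_lit 1) (p (nat_lit 0x898a0b090a9a) (nat_lit 0) (p (nat_lit 0x9098a888a1a) (nat_lit 0) (p (nat_lit 0x88890a08079a) (nat_lit 0) (p (nat_lit 0x8088987871a) (nat_lit 0) (p (nat_lit 0x80000800078907088a) (nat_lit 0) (p (nat_lit 0x80000800070886860a) (nat_lit 0) (p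 (nat_lit 0x8708060782) (nat_lit 0) (p (nat_lit 0x687858702) (nat_lit 0) (p (nat_lit 0x8607050482) (nat_lit 0) (p (nat_lit 0x586848402) (nat_lit 0) (p (nat_lit 0x160014) (nat_lit 0) (p (nat_lit 0x50612) (nat_lit 0) (p (nat_lit 0x40592) (nat_lit 0) (p (nat_lit 0x40492) (nat_lit 0) (p (nat_lit 0x30412) (nat_lit 0) (p (nat_lit 0x30212) (nat_lit 0) (p (nat_lit 0x20192) (nat_lit 0) (p (nat_lit 0x20092) (nat_lit 0) (p (nat_lit 0x10012) (nat_lit 0) pn)))))))))))))))))))))))))))))))))) :=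
  Cl.node (nat_lit 0x10000c) (nat_lit 2) (by decide +kernel) (ClAll.succ (ClAll.succ ClAll.zero s272) s273)

def n40 : Cl (O (nat_lit 3)) (R (nat_lit 102673))
    (p (nat_lit 0x8c8d0e0c0d9a) (nat_lit 0) (p (nat_lit 0xc0c8d8b8d1a) (nat_lit 0) (p (nat_lit 0x8b8c0d0b0a9a) (nat_lit 0) (p (nat_lit 0xb0b8c8a8a1a) (nat_lit 0) (p (nat_lit 0x2a825aa8258a8c0a0b8a) (nat_lit 0) (p (nat_lit 0x2a825aa8258a0b89890a) (nat_lit 0) (p (nat_lit 0xb0014) (nat_lit 1) (p (nat_lit 0x20000c) (nat_lit 0) (p (nat_lit 0x200004) (nat_lit 0) (p (nat_lit 0x89) (nat_lit 0) (p (nat_lit 0x101) (nat_lit 1) (p (nat_lit 0x111) (nat_lit 0) (p (nat_lit 0xd1) (nat_lit 1) (p (nat_lit 0x81) (nat_lit 0) (p (nat_lit 0x41) (nat_lit 1) (p (nat_lit 0x898a0b090a9a) (nat_lit 0) (p (nat_lit 0x9098a888a1a) (nat_lit 0) (p (nat_lit 0x88890a08079a) (nat_lit 0) (p (nat_lit 0x8088987871a) (nat_lit 0) (p (nat_lit 0x80000800078907088a)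 (nat_lit 0) (p (nat_lit 0x80000800070886860a) (nat_lit 0) (p (nat_lit 0x8708060782) (nat_lit 0) (p (nat_lit 0x687858702) (nat_lit 0) (p (nat_lit 0x8607050482) (nat_lit 0) (p (nat_lit 0x586848402) (nat_lit 0) (p (nat_lit 0x160014) (nat_lit 0) (p (nat_lit 0x50612) (nat_lit 0) (p (nat_lit 0x40592) (nat_lit 0) (p (nat_lit 0x40492) (nat_lit 0) (p (nat_lit 0x30412) (nat_lit 0) (p (nat_lit 0x30212) (nat_lit 0) (p (nat_lit 0x20192) (nat_lit 0) (p (nat_lit 0x20092) (nat_lit 0) (p (nat_lit 0x10012) (nat_lit 0) pn)))))))))))))))))))))))))))))))))) :=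
  Cl.node (nat_lit 0x119) (nat_lit 2) (by decide +kernel) (ClAll.succ (ClAll.succ ClAll.zero s286) s287)

def n41 : Cl (O (nat_lit 3)) (R (nat_lit 102673))
    (p (nat_lit 0xc0c8d8b8d1a) (nat_lit 0) (p (nat_lit 0x8b8c0d0b0a9a) (nat_lit 0) (p (nat_lit 0xb0b8c8a8a1a) (nat_lit 0) (p (nat_lit 0x2a825aa8258a8c0a0b8a) (nat_lit 0) (p (nat_lit 0x2a825aa8258a0b89890a) (nat_lit 0) (p (nat_lit 0xb0014) (nat_lit 1) (p (nat_lit 0x20000c) (nat_lit 0) (p (nat_lit 0x200004) (nat_lit 0) (p (nat_lit 0xc9) (nat_lit 0) (p (nat_lit 0x89) (nat_lit 1) (p (nat_lit 0x101) (nat_lit 1) (p (nat_lit 0x111) (nat_lit 0) (p (nat_lit 0xd1) (nat_lit 1) (p (nat_lit 0x81) (nat_lit 0) (p (nat_lit 0x41) (nat_lit 1) (p (nat_lit 0x898a0b090a9a) (nat_lit 0) (p (nat_lit 0x9098a888a1a) (nat_lit 0) (p (nat_lit 0x88890a08079a) (nat_lit 0) (p (nat_lit 0x8088987871a) (nat_lit 0) (p (nat_lit 0x80000800078907088a) (nat_lit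 0) (p (nat_lit 0x80000800070886860a) (nat_lit 0) (p (nat_lit 0x8708060782) (nat_lit 0) (p (nat_lit 0x687858702) (nat_lit 0) (p (nat_lit 0x8607050482) (nat_lit 0) (p (nat_lit 0x586848402) (nat_lit 0) (p (nat_lit 0x160014) (nat_lit 0) (p (nat_lit 0x50612) (nat_lit 0) (p (nat_lit 0x40592) (nat_lit 0) (p (nat_lit 0x40492) (nat_lit 0) (p (nat_lit 0x30412) (nat_lit 0) (p (nat_lit 0x30212) (nat_lit 0) (p (nat_lit 0x20192) (nat_lit 0) (p (nat_lit 0x20092) (nat_lit 0) (p (nat_lit 0x10012) (nat_lit 0) pn)))))))))))))))))))))))))))))))))) :=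
  Cl.node (nat_lit 0x8c8d0e0c0d9a) (nat_lit 1) (by decide +kernel) (ClAll.succ ClAll.zero n24)

def n42 : Cl (O (nat_lit 3)) (R (nat_lit 102673))
    (p (nat_lit 0x100004) (nat_lit 0) (p (nat_lit 0x101) (nat_lit 1) (p (nat_lit 0x109) (nat_lit 0) (p (nat_lit 0xb0014) (nat_lit 0) (p (nat_lit 0x111) (nat_lit 0) (p (nat_lit 0x20000c) (nat_lit 0) (p (nat_lit 0x200004) (nat_lit 0) (p (nat_lit 0xc9) (nat_lit 1) (p (nat_lit 0x81) (nat_lit 0) (p (nat_lit 0x101) (nat_lit 1) (p (nat_lit 0x119) (nat_lit 0) (p (nat_lit 0xd1) (nat_lit 0) (p (nat_lit 0x89) (nat_lit 0) (p (nat_lit 0x41) (nat_lit 0) (p (nat_lit 0x898a0b090a9a) (nat_lit 0) (p (nat_lit 0x9098a888a1a) (nat_lit 0) (p (nat_lit 0x88890a08079a) (nat_lit 0) (p (nat_lit 0x8088987871a) (nat_lit 0) (p (nat_lit 0x80000800078907088a) (nat_lit 0) (p (nat_lit 0x80000800070886860a) (nat_lit 0) (p (nat_lit 0x8708060782) (nat_lit 0) (p (nat_lit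 0x687858702) (nat_lit 0) (p (nat_lit 0x8607050482) (nat_lit 0) (p (nat_lit 0x586848402) (nat_lit 0) (p (nat_lit 0x160014) (nat_lit 0) (p (nat_lit 0x50612) (nat_lit 0) (p (nat_lit 0x40592) (nat_lit 0) (p (nat_lit 0x40492) (nat_lit 0) (p (nat_lit 0x30412) (nat_lit 0) (p (nat_lit 0x30212) (nat_lit 0) (p (nat_lit 0x20192) (nat_lit 0) (p (nat_lit 0x20092) (nat_lit 0) (p (nat_lit 0x10012) (nat_lit 0) pn))))))))))))))))))))))))))))))))) :=
  Cl.node (nat_lit 0x10000c) (nat_lit 2) (by decide +kernel) (ClAll.succ (ClAll.succ ClAll.zero s13) s14)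

def n43 : Cl (O (nat_lit 3)) (R (nat_lit 102673))
    (p (nat_lit 0x100004) (nat_lit 0) (p (nat_lit 0x89) (nat_lit 0) (p (nat_lit 0x109) (nat_lit 1) (p (nat_lit 0xb0014) (nat_lit 0) (p (nat_lit 0x111) (nat_lit 0) (p (nat_lit 0x20000c) (nat_lit 0) (p (nat_lit 0x200004) (nat_lit 0) (p (nat_lit 0xc9) (nat_lit 1) (p (nat_lit 0x81) (nat_lit 0) (p (nat_lit 0x101) (nat_lit 1) (p (nat_lit 0x119) (nat_lit 0) (p (nat_lit 0xd1) (nat_lit 0) (p (nat_lit 0x89) (nat_lit 0) (p (nat_lit 0x41) (nat_lit 0) (p (nat_lit 0x898a0b090a9a) (nat_lit 0) (p (nat_lit 0x9098a888a1a) (nat_lit 0) (p (nat_lit 0x88890a08079a) (nat_lit 0) (p (nat_lit 0x8088987871a) (nat_lit 0) (p (nat_lit 0x80000800078907088a) (nat_lit 0) (p (nat_lit 0x80000800070886860a) (nat_lit 0) (p (nat_lit 0x8708060782) (nat_lit 0) (p (nat_lit 0x687858702) (nat_lit 0) (p (nat_lit 0x8607050482) (nat_lit 0) (p (nat_lit 0x586848402) (nat_lit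 0) (p (nat_lit 0x160014) (nat_lit 0) (p (nat_lit 0x50612) (nat_lit 0) (p (nat_lit 0x40592) (nat_lit 0) (p (nat_lit 0x40492) (nat_lit 0) (p (nat_lit 0x30412) (nat_lit 0) (p (nat_lit 0x30212) (nat_lit 0) (p (nat_lit 0x20192) (nat_lit 0) (p (nat_lit 0x20092) (nat_lit 0) (p (nat_lit 0x10012) (nat_lit 0) pn))))))))))))))))))))))))))))))))) :=
  Cl.node (nat_lit 0x10000c) (nat_lit 2) (by decide +kernel) (ClAll.succ (ClAll.succ ClAll.zero s16) s17)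

def n44 : Cl (O (nat_lit 3)) (R (nat_lit 102673))
    (p (nat_lit 0x41) (nat_lit 1) (p (nat_lit 0x89) (nat_lit 1) (p (nat_lit 0x109) (nat_lit 1) (p (nat_lit 0xb0014) (nat_lit 0) (p (nat_lit 0x111) (nat_lit 0) (p (nat_lit 0x20000c) (nat_lit 0) (p (nat_lit 0x200004) (nat_lit 0) (p (nat_lit 0xc9) (nat_lit 1) (p (nat_lit 0x81) (nat_lit 0) (p (nat_lit 0x101) (nat_lit 1) (p (nat_lit 0x119) (nat_lit 0) (p (nat_lit 0xd1) (nat_lit 0) (p (nat_lit 0x89) (nat_lit 0) (p (nat_lit 0x41) (nat_lit 0) (p (nat_lit 0x898a0b090a9a) (nat_lit 0) (p (nat_lit 0x9098a888a1a) (nat_lit 0) (p (nat_lit 0x88890a08079a) (nat_lit 0) (p (nat_lit 0x8088987871a) (nat_lit 0) (p (nat_lit 0x80000800078907088a) (nat_lit 0) (p (nat_lit 0x80000800070886860a) (nat_lit 0) (p (nat_lit 0x8708060782) (nat_lit 0) (p (nat_lit 0x687858702) (nat_lit 0) (p (nat_lit 0x8607050482) (nat_lit 0) (p (nat_lit 0x586848402) (nat_lit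 0) (p (nat_lit 0x160014) (nat_lit 0) (p (nat_lit 0x50612) (nat_lit 0) (p (nat_lit 0x40592) (nat_lit 0) (p (nat_lit 0x40492) (nat_lit 0) (p (nat_lit 0x30412) (nat_lit 0) (p (nat_lit 0x30212) (nat_lit 0) (p (nat_lit 0x20192) (nat_lit 0) (p (nat_lit 0x20092) (nat_lit 0) (p (nat_lit 0x10012) (nat_lit 0) pn))))))))))))))))))))))))))))))))) :=
  Cl.node (nat_lit 0x100004) (nat_lit 2) (by decide +kernel) (ClAll.succ (ClAll.succ ClAll.zero s20) s21)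

def n45 : Cl (O (nat_lit 3)) (R (nat_lit 102673))
    (p (nat_lit 0xb0b8c8a8a1a) (nat_lit 0) (p (nat_lit 0x2a825aa8258a8c0a0b8a) (nat_lit 0) (p (nat_lit 0x2a825aa8258a0b89890a) (nat_lit 0) (p (nat_lit 0xb0014) (nat_lit 1) (p (nat_lit 0x111) (nat_lit 0) (p (nat_lit 0x20000c) (nat_lit 0) (p (nat_lit 0x200004) (nat_lit 0) (p (nat_lit 0xc9) (nat_lit 1) (p (nat_lit 0x81) (nat_lit 0) (p (nat_lit 0x101) (nat_lit 1) (p (nat_lit 0x119) (nat_lit 0) (p (nat_lit 0xd1) (nat_lit 0) (p (nat_lit 0x89) (nat_lit 0) (p (nat_lit 0x41) (nat_lit 0) (p (nat_lit 0x898a0b090a9a) (nat_lit 0) (p (nat_lit 0x9098a888a1a) (nat_lit 0) (p (nat_lit 0x88890a08079a) (nat_lit 0) (p (nat_lit 0x8088987871a) (nat_lit 0) (p (nat_lit 0x80000800078907088a) (nat_lit 0) (p (nat_lit 0x80000800070886860a) (nat_lit 0) (p (nat_lit 0x8708060782) (nat_lit 0) (p (nat_lit 0x687858702) (nat_lit 0) (p (nat_lit 0x8607050482)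 (nat_lit 0) (p (nat_lit 0x586848402) (nat_lit 0) (p (nat_lit 0x160014) (nat_lit 0) (p (nat_lit 0x50612) (nat_lit 0) (p (nat_lit 0x40592) (nat_lit 0) (p (nat_lit 0x40492) (nat_lit 0) (p (nat_lit 0x30412) (nat_lit 0) (p (nat_lit 0x30212) (nat_lit 0) (p (nat_lit 0x20192) (nat_lit 0) (p (nat_lit 0x20092) (nat_lit 0) (p (nat_lit 0x10012) (nat_lit 0) pn))))))))))))))))))))))))))))))))) :=
  Cl.node (nat_lit 0x8b8c0d0b0a9a) (nat_lit 1) (by decide +kernel) (ClAll.succ ClAll.zero n25)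

def n46 : Cl (O (nat_lit 3)) (R (nat_lit 102673))
    (p (nat_lit 0x100004) (nat_lit 0) (p (nat_lit 0x111) (nat_lit 1) (p (nat_lit 0x109) (nat_lit 0) (p (nat_lit 0xb0014) (nat_lit 0) (p (nat_lit 0x20000c) (nat_lit 0) (p (nat_lit 0x200004) (nat_lit 0) (p (nat_lit 0xc9) (nat_lit 1) (p (nat_lit 0xc1) (nat_lit 0) (p (nat_lit 0x81) (nat_lit 1) (p (nat_lit 0x101) (nat_lit 1) (p (nat_lit 0x119) (nat_lit 0) (p (nat_lit 0xd1) (nat_lit 0) (p (nat_lit 0x89) (nat_lit 0) (p (nat_lit 0x41) (nat_lit 0) (p (nat_lit 0x898a0b090a9a) (nat_lit 0) (p (nat_lit 0x9098a888a1a) (nat_lit 0) (p (nat_lit 0x88890a08079a) (nat_lit 0) (p (nat_lit 0x8088987871a) (nat_lit 0) (p (nat_lit 0x80000800078907088a) (nat_lit 0) (p (nat_lit 0x80000800070886860a) (nat_lit 0) (p (nat_lit 0x8708060782) (nat_lit 0) (p (nat_lit 0x687858702) (nat_lit 0) (p (nat_lit 0x8607050482) (nat_lit 0) (p (nat_lit 0x586848402) (nat_lit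 0) (p (nat_lit 0x160014) (nat_lit 0) (p (nat_lit 0x50612) (nat_lit 0) (p (nat_lit 0x40592) (nat_lit 0) (p (nat_lit 0x40492) (nat_lit 0) (p (nat_lit 0x30412) (nat_lit 0) (p (nat_lit 0x30212) (nat_lit 0) (p (nat_lit 0x20192) (nat_lit 0) (p (nat_lit 0x20092) (nat_lit 0) (p (nat_lit 0x10012) (nat_lit 0) pn))))))))))))))))))))))))))))))))) :=
  Cl.node (nat_lit 0x10000c) (nat_lit 2) (by decide +kernel) (ClAll.succ (ClAll.succ ClAll.zero n26) s35)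

def n47 : Cl (O (nat_lit 3)) (R (nat_lit 102673))
    (p (nat_lit 0x89) (nat_lit 0) (p (nat_lit 0x41) (nat_lit 0) (p (nat_lit 0x109) (nat_lit 1) (p (nat_lit 0xb0014) (nat_lit 0) (p (nat_lit 0x20000c) (nat_lit 0) (p (nat_lit 0x200004) (nat_lit 0) (p (nat_lit 0xc9) (nat_lit 1) (p (nat_lit 0xc1) (nat_lit 0) (p (nat_lit 0x81) (nat_lit 1) (p (nat_lit 0x101) (nat_lit 1) (p (nat_lit 0x119) (nat_lit 0) (p (nat_lit 0xd1) (nat_lit 0) (p (nat_lit 0x89) (nat_lit 0) (p (nat_lit 0x41) (nat_lit 0) (p (nat_lit 0x898a0b090a9a) (nat_lit 0) (p (nat_lit 0x9098a888a1a) (nat_lit 0) (p (nat_lit 0x88890a08079a) (nat_lit 0) (p (nat_lit 0x8088987871a) (nat_lit 0) (p (nat_lit 0x80000800078907088a) (nat_lit 0) (p (nat_lit 0x80000800070886860a) (nat_lit 0) (p (nat_lit 0x8708060782) (nat_lit 0) (p (nat_lit 0x687858702) (nat_lit 0) (p (nat_lit 0x8607050482) (nat_lit 0) (p (nat_lit 0x586848402) (nat_lit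 0) (p (nat_lit 0x160014) (nat_lit 0) (p (nat_lit 0x50612) (nat_lit 0) (p (nat_lit 0x40592) (nat_lit 0) (p (nat_lit 0x40492) (nat_lit 0) (p (nat_lit 0x30412) (nat_lit 0) (p (nat_lit 0x30212) (nat_lit 0) (p (nat_lit 0x20192) (nat_lit 0) (p (nat_lit 0x20092) (nat_lit 0) (p (nat_lit 0x10012) (nat_lit 0) pn))))))))))))))))))))))))))))))))) :=
  Cl.node (nat_lit 0x100004) (nat_lit 2) (by decide +kernel) (ClAll.succ (ClAll.succ ClAll.zero s37) s38)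

def n48 : Cl (O (nat_lit 3)) (R (nat_lit 102673))
    (p (nat_lit 0x100004) (nat_lit 0) (p (nat_lit 0x41) (nat_lit 1) (p (nat_lit 0x109) (nat_lit 1) (p (nat_lit 0xb0014) (nat_lit 0) (p (nat_lit 0x20000c) (nat_lit 0) (p (nat_lit 0x200004) (nat_lit 0) (p (nat_lit 0xc9) (nat_lit 1) (p (nat_lit 0xc1) (nat_lit 0) (p (nat_lit 0x81) (nat_lit 1) (p (nat_lit 0x101) (nat_lit 1) (p (nat_lit 0x119) (nat_lit 0) (p (nat_lit 0xd1) (nat_lit 0) (p (nat_lit 0x89) (nat_lit 0) (p (nat_lit 0x41) (nat_lit 0) (p (nat_lit 0x898a0b090a9a) (nat_lit 0) (p (nat_lit 0x9098a888a1a) (nat_lit 0) (p (nat_lit 0x88890a08079a) (nat_lit 0) (p (nat_lit 0x8088987871a) (nat_lit 0) (p (nat_lit 0x80000800078907088a) (nat_lit 0) (p (nat_lit 0x80000800070886860a) (nat_lit 0) (p (nat_lit 0x8708060782) (nat_lit 0) (p (nat_lit 0x687858702) (nat_lit 0) (p (nat_lit 0x8607050482) (nat_lit 0) (p (nat_lit 0x586848402) (nat_lit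 0) (p (nat_lit 0x160014) (nat_lit 0) (p (nat_lit 0x50612) (nat_lit 0) (p (nat_lit 0x40592) (nat_lit 0) (p (nat_lit 0x40492) (nat_lit 0) (p (nat_lit 0x30412) (nat_lit 0) (p (nat_lit 0x30212) (nat_lit 0) (p (nat_lit 0x20192) (nat_lit 0) (p (nat_lit 0x20092) (nat_lit 0) (p (nat_lit 0x10012) (nat_lit 0) pn))))))))))))))))))))))))))))))))) :=
  Cl.node (nat_lit 0x10000c) (nat_lit 2) (by decide +kernel) (ClAll.succ (ClAll.succ ClAll.zero s40) s41)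

def n49 : Cl (O (nat_lit 3)) (R (nat_lit 102673))
    (p (nat_lit 0xb0b8c8a8a1a) (nat_lit 0) (p (nat_lit 0x2a825aa8258a8c0a0b8a) (nat_lit 0) (p (nat_lit 0x2a825aa8258a0b89890a) (nat_lit 0) (p (nat_lit 0xb0014) (nat_lit 1) (p (nat_lit 0x20000c) (nat_lit 0) (p (nat_lit 0x200004) (nat_lit 0) (p (nat_lit 0xc9) (nat_lit 1) (p (nat_lit 0xc1) (nat_lit 0) (p (nat_lit 0x81) (nat_lit 1) (p (nat_lit 0x101) (nat_lit 1) (p (nat_lit 0x119) (nat_lit 0) (p (nat_lit 0xd1) (nat_lit 0) (p (nat_lit 0x89) (nat_lit 0) (p (nat_lit 0x41) (nat_lit 0) (p (nat_lit 0x898a0b090a9a) (nat_lit 0) (p (nat_lit 0x9098a888a1a) (nat_lit 0) (p (nat_lit 0x88890a08079a) (nat_lit 0) (p (nat_lit 0x8088987871a) (nat_lit 0) (p (nat_lit 0x80000800078907088a) (nat_lit 0) (p (nat_lit 0x80000800070886860a) (nat_lit 0) (p (nat_lit 0x8708060782) (nat_lit 0) (p (nat_lit 0x687858702) (nat_lit 0) (p (nat_lit 0x8607050482)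 (nat_lit 0) (p (nat_lit 0x586848402) (nat_lit 0) (p (nat_lit 0x160014) (nat_lit 0) (p (nat_lit 0x50612) (nat_lit 0) (p (nat_lit 0x40592) (nat_lit 0) (p (nat_lit 0x40492) (nat_lit 0) (p (nat_lit 0x30412) (nat_lit 0) (p (nat_lit 0x30212) (nat_lit 0) (p (nat_lit 0x20192) (nat_lit 0) (p (nat_lit 0x20092) (nat_lit 0) (p (nat_lit 0x10012) (nat_lit 0) pn))))))))))))))))))))))))))))))))) :=
  Cl.node (nat_lit 0x8b8c0d0b0a9a) (nat_lit 1) (by decide +kernel) (ClAll.succ ClAll.zero n27)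

def n50 : Cl (O (nat_lit 3)) (R (nat_lit 102673))
    (p (nat_lit 0xb0b8c8a8a1a) (nat_lit 0) (p (nat_lit 0x2a825aa8258a8c0a0b8a) (nat_lit 0) (p (nat_lit 0x2a825aa8258a0b89890a) (nat_lit 0) (p (nat_lit 0xb0014) (nat_lit 1) (p (nat_lit 0x20000c) (nat_lit 0) (p (nat_lit 0x200004) (nat_lit 0) (p (nat_lit 0x109) (nat_lit 1) (p (nat_lit 0x101) (nat_lit 0) (p (nat_lit 0x81) (nat_lit 1) (p (nat_lit 0xc1) (nat_lit 1) (p (nat_lit 0x119) (nat_lit 1) (p (nat_lit 0xd1) (nat_lit 0) (p (nat_lit 0x89) (nat_lit 0) (p (nat_lit 0x41) (nat_lit 0) (p (nat_lit 0x898a0b090a9a) (nat_lit 0) (p (nat_lit 0x9098a888a1a) (nat_lit 0) (p (nat_lit 0x88890a08079a) (nat_lit 0) (p (nat_lit 0x8088987871a) (nat_lit 0) (p (nat_lit 0x80000800078907088a) (nat_lit 0) (p (nat_lit 0x80000800070886860a) (nat_lit 0) (p (nat_lit 0x8708060782) (nat_lit 0) (p (nat_lit 0x687858702) (nat_lit 0) (p (nat_lit 0x8607050482)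 (nat_lit 0) (p (nat_lit 0x586848402) (nat_lit 0) (p (nat_lit 0x160014) (nat_lit 0) (p (nat_lit 0x50612) (nat_lit 0) (p (nat_lit 0x40592) (nat_lit 0) (p (nat_lit 0x40492) (nat_lit 0) (p (nat_lit 0x30412) (nat_lit 0) (p (nat_lit 0x30212) (nat_lit 0) (p (nat_lit 0x20192) (nat_lit 0) (p (nat_lit 0x20092) (nat_lit 0) (p (nat_lit 0x10012) (nat_lit 0) pn))))))))))))))))))))))))))))))))) :=
  Cl.node (nat_lit 0x8b8c0d0b0a9a) (nat_lit 1) (by decide +kernel) (ClAll.succ ClAll.zero n28)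

def n51 : Cl (O (nat_lit 3)) (R (nat_lit 102673))
    (p (nat_lit 0x100004) (nat_lit 0) (p (nat_lit 0x101) (nat_lit 1) (p (nat_lit 0x109) (nat_lit 0) (p (nat_lit 0xb0014) (nat_lit 0) (p (nat_lit 0x119) (nat_lit 0) (p (nat_lit 0x20000c) (nat_lit 0) (p (nat_lit 0x200004) (nat_lit 0) (p (nat_lit 0xc1) (nat_lit 0) (p (nat_lit 0x81) (nat_lit 1) (p (nat_lit 0x101) (nat_lit 1) (p (nat_lit 0x111) (nat_lit 0) (p (nat_lit 0xd1) (nat_lit 1) (p (nat_lit 0x89) (nat_lit 0) (p (nat_lit 0x41) (nat_lit 0) (p (nat_lit 0x898a0b090a9a) (nat_lit 0) (p (nat_lit 0x9098a888a1a) (nat_lit 0) (p (nat_lit 0x88890a08079a) (nat_lit 0) (p (nat_lit 0x8088987871a) (nat_lit 0) (p (nat_lit 0x80000800078907088a) (nat_lit 0) (p (nat_lit 0x80000800070886860a) (nat_lit 0) (p (nat_lit 0x8708060782) (nat_lit 0) (p (nat_lit 0x687858702) (nat_lit 0) (p (nat_lit 0x8607050482) (nat_lit 0) (p (nat_lit 0x586848402) (nat_lit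 0) (p (nat_lit 0x160014) (nat_lit 0) (p (nat_lit 0x50612) (nat_lit 0) (p (nat_lit 0x40592) (nat_lit 0) (p (nat_lit 0x40492) (nat_lit 0) (p (nat_lit 0x30412) (nat_lit 0) (p (nat_lit 0x30212) (nat_lit 0) (p (nat_lit 0x20192) (nat_lit 0) (p (nat_lit 0x20092) (nat_lit 0) (p (nat_lit 0x10012) (nat_lit 0) pn))))))))))))))))))))))))))))))))) :=
  Cl.node (nat_lit 0x10000c) (nat_lit 2) (by decide +kernel) (ClAll.succ (ClAll.succ ClAll.zero n29) s89)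

def n52 : Cl (O (nat_lit 3)) (R (nat_lit 102673))
    (p (nat_lit 0x100004) (nat_lit 0) (p (nat_lit 0xc9) (nat_lit 0) (p (nat_lit 0x109) (nat_lit 1) (p (nat_lit 0xb0014) (nat_lit 0) (p (nat_lit 0x119) (nat_lit 0) (p (nat_lit 0x20000c) (nat_lit 0) (p (nat_lit 0x200004) (nat_lit 0) (p (nat_lit 0xc1) (nat_lit 0) (p (nat_lit 0x81) (nat_lit 1) (p (nat_lit 0x101) (nat_lit 1) (p (nat_lit 0x111) (nat_lit 0) (p (nat_lit 0xd1) (nat_lit 1) (p (nat_lit 0x89) (nat_lit 0) (p (nat_lit 0x41) (nat_lit 0) (p (nat_lit 0x898a0b090a9a) (nat_lit 0) (p (nat_lit 0x9098a888a1a) (nat_lit 0) (p (nat_lit 0x88890a08079a) (nat_lit 0) (p (nat_lit 0x8088987871a) (nat_lit 0) (p (nat_lit 0x80000800078907088a) (nat_lit 0) (p (nat_lit 0x80000800070886860a) (nat_lit 0) (p (nat_lit 0x8708060782) (nat_lit 0) (p (nat_lit 0x687858702) (nat_lit 0) (p (nat_lit 0x8607050482) (nat_lit 0) (p (nat_lit 0x586848402) (nat_lit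 0) (p (nat_lit 0x160014) (nat_lit 0) (p (nat_lit 0x50612) (nat_lit 0) (p (nat_lit 0x40592) (nat_lit 0) (p (nat_lit 0x40492) (nat_lit 0) (p (nat_lit 0x30412) (nat_lit 0) (p (nat_lit 0x30212) (nat_lit 0) (p (nat_lit 0x20192) (nat_lit 0) (p (nat_lit 0x20092) (nat_lit 0) (p (nat_lit 0x10012) (nat_lit 0) pn))))))))))))))))))))))))))))))))) :=
  Cl.node (nat_lit 0x10000c) (nat_lit 2) (by decide +kernel) (ClAll.succ (ClAll.succ ClAll.zero n30) s93)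

def n53 : Cl (O (nat_lit 3)) (R (nat_lit 102673))
    (p (nat_lit 0xd1) (nat_lit 1) (p (nat_lit 0x109) (nat_lit 0) (p (nat_lit 0xc9) (nat_lit 1) (p (nat_lit 0xb0014) (nat_lit 0) (p (nat_lit 0x119) (nat_lit 1) (p (nat_lit 0x20000c) (nat_lit 0) (p (nat_lit 0x200004) (nat_lit 0) (p (nat_lit 0xc1) (nat_lit 0) (p (nat_lit 0x81) (nat_lit 1) (p (nat_lit 0x101) (nat_lit 1) (p (nat_lit 0x111) (nat_lit 0) (p (nat_lit 0xd1) (nat_lit 1) (p (nat_lit 0x89) (nat_lit 0) (p (nat_lit 0x41) (nat_lit 0) (p (nat_lit 0x898a0b090a9a) (nat_lit 0) (p (nat_lit 0x9098a888a1a) (nat_lit 0) (p (nat_lit 0x88890a08079a) (nat_lit 0) (p (nat_lit 0x8088987871a) (nat_lit 0) (p (nat_lit 0x80000800078907088a) (nat_lit 0) (p (nat_lit 0x80000800070886860a) (nat_lit 0) (p (nat_lit 0x8708060782) (nat_lit 0) (p (nat_lit 0x687858702) (nat_lit 0) (p (nat_lit 0x8607050482) (nat_lit 0) (p (nat_lit 0x586848402) (nat_lit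 0) (p (nat_lit 0x160014) (nat_lit 0) (p (nat_lit 0x50612) (nat_lit 0) (p (nat_lit 0x40592) (nat_lit 0) (p (nat_lit 0x40492) (nat_lit 0) (p (nat_lit 0x30412) (nat_lit 0) (p (nat_lit 0x30212) (nat_lit 0) (p (nat_lit 0x20192) (nat_lit 0) (p (nat_lit 0x20092) (nat_lit 0) (p (nat_lit 0x10012) (nat_lit 0) pn))))))))))))))))))))))))))))))))) :=
  Cl.node (nat_lit 0x100004) (nat_lit 2) (by decide +kernel) (ClAll.succ (ClAll.succ ClAll.zero s101) s102)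

def n54 : Cl (O (nat_lit 3)) (R (nat_lit 102673))
    (p (nat_lit 0xb0b8c8a8a1a) (nat_lit 0) (p (nat_lit 0x2a825aa8258a8c0a0b8a) (nat_lit 0) (p (nat_lit 0x2a825aa8258a0b89890a) (nat_lit 0) (p (nat_lit 0xb0014) (nat_lit 1) (p (nat_lit 0x119) (nat_lit 1) (p (nat_lit 0x20000c) (nat_lit 0) (p (nat_lit 0x200004) (nat_lit 0) (p (nat_lit 0xc1) (nat_lit 0) (p (nat_lit 0x81) (nat_lit 1) (p (nat_lit 0x101) (nat_lit 1) (p (nat_lit 0x111) (nat_lit 0) (p (nat_lit 0xd1) (nat_lit 1) (p (nat_lit 0x89) (nat_lit 0) (p (nat_lit 0x41) (nat_lit 0) (p (nat_lit 0x898a0b090a9a) (nat_lit 0) (p (nat_lit 0x9098a888a1a) (nat_lit 0) (p (nat_lit 0x88890a08079a) (nat_lit 0) (p (nat_lit 0x8088987871a) (nat_lit 0) (p (nat_lit 0x80000800078907088a) (nat_lit 0) (p (nat_lit 0x80000800070886860a) (nat_lit 0) (p (nat_lit 0x8708060782) (nat_lit 0) (p (nat_lit 0x687858702) (nat_lit 0) (p (nat_lit 0x8607050482)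 (nat_lit 0) (p (nat_lit 0x586848402) (nat_lit 0) (p (nat_lit 0x160014) (nat_lit 0) (p (nat_lit 0x50612) (nat_lit 0) (p (nat_lit 0x40592) (nat_lit 0) (p (nat_lit 0x40492) (nat_lit 0) (p (nat_lit 0x30412) (nat_lit 0) (p (nat_lit 0x30212) (nat_lit 0) (p (nat_lit 0x20192) (nat_lit 0) (p (nat_lit 0x20092) (nat_lit 0) (p (nat_lit 0x10012) (nat_lit 0) pn))))))))))))))))))))))))))))))))) :=
  Cl.node (nat_lit 0x8b8c0d0b0a9a) (nat_lit 1) (by decide +kernel) (ClAll.succ ClAll.zero n31)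

def n55 : Cl (O (nat_lit 3)) (R (nat_lit 102673))
    (p (nat_lit 0x8b8c0d0b0a9a) (nat_lit 0) (p (nat_lit 0xb0b8c8a8a1a) (nat_lit 0) (p (nat_lit 0x2a825aa8258a8c0a0b8a) (nat_lit 0) (p (nat_lit 0x2a825aa8258a0b89890a) (nat_lit 0) (p (nat_lit 0xb0014) (nat_lit 1) (p (nat_lit 0x20000c) (nat_lit 0) (p (nat_lit 0x200004) (nat_lit 0) (p (nat_lit 0x101) (nat_lit 0) (p (nat_lit 0xc1) (nat_lit 1) (p (nat_lit 0x81) (nat_lit 1) (p (nat_lit 0x111) (nat_lit 1) (p (nat_lit 0xd1) (nat_lit 1) (p (nat_lit 0x89) (nat_lit 0) (p (nat_lit 0x41) (nat_lit 0) (p (nat_lit 0x898a0b090a9a) (nat_lit 0) (p (nat_lit 0x9098a888a1a) (nat_lit 0) (p (nat_lit 0x88890a08079a) (nat_lit 0) (p (nat_lit 0x8088987871a) (nat_lit 0) (p (nat_lit 0x80000800078907088a) (nat_lit 0) (p (nat_lit 0x80000800070886860a) (nat_lit 0) (p (nat_lit 0x8708060782) (nat_lit 0) (p (nat_lit 0x687858702) (nat_lit 0) (p (nat_lit 0x8607050482)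 (nat_lit 0) (p (nat_lit 0x586848402) (nat_lit 0) (p (nat_lit 0x160014) (nat_lit 0) (p (nat_lit 0x50612) (nat_lit 0) (p (nat_lit 0x40592) (nat_lit 0) (p (nat_lit 0x40492) (nat_lit 0) (p (nat_lit 0x30412) (nat_lit 0) (p (nat_lit 0x30212) (nat_lit 0) (p (nat_lit 0x20192) (nat_lit 0) (p (nat_lit 0x20092) (nat_lit 0) (p (nat_lit 0x10012) (nat_lit 0) pn))))))))))))))))))))))))))))))))) :=
  Cl.node (nat_lit 0xc0c8d8b8d1a) (nat_lit 1) (by decide +kernel) (ClAll.succ ClAll.zero n32)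

def n56 : Cl (O (nat_lit 3)) (R (nat_lit 102673))
    (p (nat_lit 0x8b8c0d0b0a9a) (nat_lit 0) (p (nat_lit 0xb0b8c8a8a1a) (nat_lit 0) (p (nat_lit 0x2a825aa8258a8c0a0b8a) (nat_lit 0) (p (nat_lit 0x2a825aa8258a0b89890a) (nat_lit 0) (p (nat_lit 0xb0014) (nat_lit 1) (p (nat_lit 0x20000c) (nat_lit 0) (p (nat_lit 0x200004) (nat_lit 0) (p (nat_lit 0xd1) (nat_lit 1) (p (nat_lit 0x109) (nat_lit 1) (p (nat_lit 0x101) (nat_lit 0) (p (nat_lit 0x119) (nat_lit 0) (p (nat_lit 0xc9) (nat_lit 0) (p (nat_lit 0x89) (nat_lit 1) (p (nat_lit 0x41) (nat_lit 0) (p (nat_lit 0x898a0b090a9a) (nat_lit 0) (p (nat_lit 0x9098a888a1a) (nat_lit 0) (p (nat_lit 0x88890a08079a) (nat_lit 0) (p (nat_lit 0x8088987871a) (nat_lit 0) (p (nat_lit 0x80000800078907088a) (nat_lit 0) (p (nat_lit 0x80000800070886860a) (nat_lit 0) (p (nat_lit 0x8708060782) (nat_lit 0) (p (nat_lit 0x687858702) (nat_lit 0) (p (nat_lit 0x8607050482)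 (nat_lit 0) (p (nat_lit 0x586848402) (nat_lit 0) (p (nat_lit 0x160014) (nat_lit 0) (p (nat_lit 0x50612) (nat_lit 0) (p (nat_lit 0x40592) (nat_lit 0) (p (nat_lit 0x40492) (nat_lit 0) (p (nat_lit 0x30412) (nat_lit 0) (p (nat_lit 0x30212) (nat_lit 0) (p (nat_lit 0x20192) (nat_lit 0) (p (nat_lit 0x20092) (nat_lit 0) (p (nat_lit 0x10012) (nat_lit 0) pn))))))))))))))))))))))))))))))))) :=
  Cl.node (nat_lit 0xc0c8d8b8d1a) (nat_lit 1) (by decide +kernel) (ClAll.succ ClAll.zero n33)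

def n57 : Cl (O (nat_lit 3)) (R (nat_lit 102673))
    (p (nat_lit 0x8b8c0d0b0a9a) (nat_lit 0) (p (nat_lit 0xb0b8c8a8a1a) (nat_lit 0) (p (nat_lit 0x2a825aa8258a8c0a0b8a) (nat_lit 0) (p (nat_lit 0x2a825aa8258a0b89890a) (nat_lit 0) (p (nat_lit 0xb0014) (nat_lit 1) (p (nat_lit 0x20000c) (nat_lit 0) (p (nat_lit 0x200004) (nat_lit 0) (p (nat_lit 0xd1) (nat_lit 1) (p (nat_lit 0xc1) (nat_lit 0) (p (nat_lit 0x101) (nat_lit 1) (p (nat_lit 0x119) (nat_lit 0) (p (nat_lit 0xc9) (nat_lit 0) (p (nat_lit 0x89) (nat_lit 1) (p (nat_lit 0x41) (nat_lit 0) (p (nat_lit 0x898a0b090a9a) (nat_lit 0) (p (nat_lit 0x9098a888a1a) (nat_lit 0) (p (nat_lit 0x88890a08079a) (nat_lit 0) (p (nat_lit 0x8088987871a) (nat_lit 0) (p (nat_lit 0x80000800078907088a) (nat_lit 0) (p (nat_lit 0x80000800070886860a) (nat_lit 0) (p (nat_lit 0x8708060782) (nat_lit 0) (p (nat_lit 0x687858702) (nat_lit 0) (p (nat_lit 0x8607050482)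 (nat_lit 0) (p (nat_lit 0x586848402) (nat_lit 0) (p (nat_lit 0x160014) (nat_lit 0) (p (nat_lit 0x50612) (nat_lit 0) (p (nat_lit 0x40592) (nat_lit 0) (p (nat_lit 0x40492) (nat_lit 0) (p (nat_lit 0x30412) (nat_lit 0) (p (nat_lit 0x30212) (nat_lit 0) (p (nat_lit 0x20192) (nat_lit 0) (p (nat_lit 0x20092) (nat_lit 0) (p (nat_lit 0x10012) (nat_lit 0) pn))))))))))))))))))))))))))))))))) :=
  Cl.node (nat_lit 0xc0c8d8b8d1a) (nat_lit 1) (by decide +kernel) (ClAll.succ ClAll.zero n34)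

def n58 : Cl (O (nat_lit 3)) (R (nat_lit 102673))
    (p (nat_lit 0x8b8c0d0b0a9a) (nat_lit 0) (p (nat_lit 0xb0b8c8a8a1a) (nat_lit 0) (p (nat_lit 0x2a825aa8258a8c0a0b8a) (nat_lit 0) (p (nat_lit 0x2a825aa8258a0b89890a) (nat_lit 0) (p (nat_lit 0xb0014) (nat_lit 1) (p (nat_lit 0x20000c) (nat_lit 0) (p (nat_lit 0x200004) (nat_lit 0) (p (nat_lit 0x111) (nat_lit 1) (p (nat_lit 0x101) (nat_lit 0) (p (nat_lit 0xc1) (nat_lit 1) (p (nat_lit 0x119) (nat_lit 1) (p (nat_lit 0xc9) (nat_lit 0) (p (nat_lit 0x89) (nat_lit 1) (p (nat_lit 0x41) (nat_lit 0) (p (nat_lit 0x898a0b090a9a) (nat_lit 0) (p (nat_lit 0x9098a888a1a) (nat_lit 0) (p (nat_lit 0x88890a08079a) (nat_lit 0) (p (nat_lit 0x8088987871a) (nat_lit 0) (p (nat_lit 0x80000800078907088a) (nat_lit 0) (p (nat_lit 0x80000800070886860a) (nat_lit 0) (p (nat_lit 0x8708060782) (nat_lit 0) (p (nat_lit 0x687858702) (nat_lit 0) (p (nat_lit 0x8607050482)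 (nat_lit 0) (p (nat_lit 0x586848402) (nat_lit 0) (p (nat_lit 0x160014) (nat_lit 0) (p (nat_lit 0x50612) (nat_lit 0) (p (nat_lit 0x40592) (nat_lit 0) (p (nat_lit 0x40492) (nat_lit 0) (p (nat_lit 0x30412) (nat_lit 0) (p (nat_lit 0x30212) (nat_lit 0) (p (nat_lit 0x20192) (nat_lit 0) (p (nat_lit 0x20092) (nat_lit 0) (p (nat_lit 0x10012) (nat_lit 0) pn))))))))))))))))))))))))))))))))) :=
  Cl.node (nat_lit 0xc0c8d8b8d1a) (nat_lit 1) (by decide +kernel) (ClAll.succ ClAll.zero n35)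

def n59 : Cl (O (nat_lit 3)) (R (nat_lit 102673))
    (p (nat_lit 0x100004) (nat_lit 0) (p (nat_lit 0x111) (nat_lit 1) (p (nat_lit 0x101) (nat_lit 0) (p (nat_lit 0x109) (nat_lit 0) (p (nat_lit 0xb0014) (nat_lit 0) (p (nat_lit 0x20000c) (nat_lit 0) (p (nat_lit 0x200004) (nat_lit 0) (p (nat_lit 0x89) (nat_lit 1) (p (nat_lit 0xc1) (nat_lit 1) (p (nat_lit 0x101) (nat_lit 1) (p (nat_lit 0x119) (nat_lit 0) (p (nat_lit 0xd1) (nat_lit 0) (p (nat_lit 0x81) (nat_lit 0) (p (nat_lit 0x41) (nat_lit 1) (p (nat_lit 0x898a0b090a9a) (nat_lit 0) (p (nat_lit 0x9098a888a1a) (nat_lit 0) (p (nat_lit 0x88890a08079a) (nat_lit 0) (p (nat_lit 0x8088987871a) (nat_lit 0) (p (nat_lit 0x80000800078907088a) (nat_lit 0) (p (nat_lit 0x80000800070886860a) (nat_lit 0) (p (nat_lit 0x8708060782) (nat_lit 0) (p (nat_lit 0x687858702) (nat_lit 0) (p (nat_lit 0x8607050482) (nat_lit 0) (p (nat_lit 0x586848402) (nat_lit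 0) (p (nat_lit 0x160014) (nat_lit 0) (p (nat_lit 0x50612) (nat_lit 0) (p (nat_lit 0x40592) (nat_lit 0) (p (nat_lit 0x40492) (nat_lit 0) (p (nat_lit 0x30412) (nat_lit 0) (p (nat_lit 0x30212) (nat_lit 0) (p (nat_lit 0x20192) (nat_lit 0) (p (nat_lit 0x20092) (nat_lit 0) (p (nat_lit 0x10012) (nat_lit 0) pn))))))))))))))))))))))))))))))))) :=
  Cl.node (nat_lit 0x10000c) (nat_lit 2) (by decide +kernel) (ClAll.succ (ClAll.succ ClAll.zero s216) s217)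

def n60 : Cl (O (nat_lit 3)) (R (nat_lit 102673))
    (p (nat_lit 0x100004) (nat_lit 0) (p (nat_lit 0x41) (nat_lit 0) (p (nat_lit 0x101) (nat_lit 1) (p (nat_lit 0x109) (nat_lit 0) (p (nat_lit 0xb0014) (nat_lit 0) (p (nat_lit 0x20000c) (nat_lit 0) (p (nat_lit 0x200004) (nat_lit 0) (p (nat_lit 0x89) (nat_lit 1) (p (nat_lit 0xc1) (nat_lit 1) (p (nat_lit 0x101) (nat_lit 1) (p (nat_lit 0x119) (nat_lit 0) (p (nat_lit 0xd1) (nat_lit 0) (p (nat_lit 0x81) (nat_lit 0) (p (nat_lit 0x41) (nat_lit 1) (p (nat_lit 0x898a0b090a9a) (nat_lit 0) (p (nat_lit 0x9098a888a1a) (nat_lit 0) (p (nat_lit 0x88890a08079a) (nat_lit 0) (p (nat_lit 0x8088987871a) (nat_lit 0) (p (nat_lit 0x80000800078907088a) (nat_lit 0) (p (nat_lit 0x80000800070886860a) (nat_lit 0) (p (nat_lit 0x8708060782) (nat_lit 0) (p (nat_lit 0x687858702) (nat_lit 0) (p (nat_lit 0x8607050482) (nat_lit 0) (p (nat_lit 0x586848402) (nat_lit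 0) (p (nat_lit 0x160014) (nat_lit 0) (p (nat_lit 0x50612) (nat_lit 0) (p (nat_lit 0x40592) (nat_lit 0) (p (nat_lit 0x40492) (nat_lit 0) (p (nat_lit 0x30412) (nat_lit 0) (p (nat_lit 0x30212) (nat_lit 0) (p (nat_lit 0x20192) (nat_lit 0) (p (nat_lit 0x20092) (nat_lit 0) (p (nat_lit 0x10012) (nat_lit 0) pn))))))))))))))))))))))))))))))))) :=
  Cl.node (nat_lit 0x10000c) (nat_lit 2) (by decide +kernel) (ClAll.succ (ClAll.succ ClAll.zero s219) s220)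

def n61 : Cl (O (nat_lit 3)) (R (nat_lit 102673))
    (p (nat_lit 0xc9) (nat_lit 0) (p (nat_lit 0x101) (nat_lit 0) (p (nat_lit 0x41) (nat_lit 1) (p (nat_lit 0x109) (nat_lit 1) (p (nat_lit 0xb0014) (nat_lit 0) (p (nat_lit 0x20000c) (nat_lit 0) (p (nat_lit 0x200004) (nat_lit 0) (p (nat_lit 0x89) (nat_lit 1) (p (nat_lit 0xc1) (nat_lit 1) (p (nat_lit 0x101) (nat_lit 1) (p (nat_lit 0x119) (nat_lit 0) (p (nat_lit 0xd1) (nat_lit 0) (p (nat_lit 0x81) (nat_lit 0) (p (nat_lit 0x41) (nat_lit 1) (p (nat_lit 0x898a0b090a9a) (nat_lit 0) (p (nat_lit 0x9098a888a1a) (nat_lit 0) (p (nat_lit 0x88890a08079a) (nat_lit 0) (p (nat_lit 0x8088987871a) (nat_lit 0) (p (nat_lit 0x80000800078907088a) (nat_lit 0) (p (nat_lit 0x80000800070886860a) (nat_lit 0) (p (nat_lit 0x8708060782) (nat_lit 0) (p (nat_lit 0x687858702) (nat_lit 0) (p (nat_lit 0x8607050482) (nat_lit 0) (p (nat_lit 0x586848402) (nat_lit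 0) (p (nat_lit 0x160014) (nat_lit 0) (p (nat_lit 0x50612) (nat_lit 0) (p (nat_lit 0x40592) (nat_lit 0) (p (nat_lit 0x40492) (nat_lit 0) (p (nat_lit 0x30412) (nat_lit 0) (p (nat_lit 0x30212) (nat_lit 0) (p (nat_lit 0x20192) (nat_lit 0) (p (nat_lit 0x20092) (nat_lit 0) (p (nat_lit 0x10012) (nat_lit 0) pn))))))))))))))))))))))))))))))))) :=
  Cl.node (nat_lit 0x100004) (nat_lit 2) (by decide +kernel) (ClAll.succ (ClAll.succ ClAll.zero s225) s226)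

def n62 : Cl (O (nat_lit 3)) (R (nat_lit 102673))
    (p (nat_lit 0x8b8c0d0b0a9a) (nat_lit 0) (p (nat_lit 0xb0b8c8a8a1a) (nat_lit 0) (p (nat_lit 0x2a825aa8258a8c0a0b8a) (nat_lit 0) (p (nat_lit 0x2a825aa8258a0b89890a) (nat_lit 0) (p (nat_lit 0xb0014) (nat_lit 1) (p (nat_lit 0x20000c) (nat_lit 0) (p (nat_lit 0x200004) (nat_lit 0) (p (nat_lit 0x89) (nat_lit 1) (p (nat_lit 0xc1) (nat_lit 1) (p (nat_lit 0x101) (nat_lit 1) (p (nat_lit 0x119) (nat_lit 0) (p (nat_lit 0xd1) (nat_lit 0) (p (nat_lit 0x81) (nat_lit 0) (p (nat_lit 0x41) (nat_lit 1) (p (nat_lit 0x898a0b090a9a) (nat_lit 0) (p (nat_lit 0x9098a888a1a) (nat_lit 0) (p (nat_lit 0x88890a08079a) (nat_lit 0) (p (nat_lit 0x8088987871a) (nat_lit 0) (p (nat_lit 0x80000800078907088a) (nat_lit 0) (p (nat_lit 0x80000800070886860a) (nat_lit 0) (p (nat_lit 0x8708060782) (nat_lit 0) (p (nat_lit 0x687858702) (nat_lit 0) (p (nat_lit 0x8607050482)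 (nat_lit 0) (p (nat_lit 0x586848402) (nat_lit 0) (p (nat_lit 0x160014) (nat_lit 0) (p (nat_lit 0x50612) (nat_lit 0) (p (nat_lit 0x40592) (nat_lit 0) (p (nat_lit 0x40492) (nat_lit 0) (p (nat_lit 0x30412) (nat_lit 0) (p (nat_lit 0x30212) (nat_lit 0) (p (nat_lit 0x20192) (nat_lit 0) (p (nat_lit 0x20092) (nat_lit 0) (p (nat_lit 0x10012) (nat_lit 0) pn))))))))))))))))))))))))))))))))) :=
  Cl.node (nat_lit 0xc0c8d8b8d1a) (nat_lit 1) (by decide +kernel) (ClAll.succ ClAll.zero n36)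

def n63 : Cl (O (nat_lit 3)) (R (nat_lit 102673))
    (p (nat_lit 0x8b8c0d0b0a9a) (nat_lit 0) (p (nat_lit 0xb0b8c8a8a1a) (nat_lit 0) (p (nat_lit 0x2a825aa8258a8c0a0b8a) (nat_lit 0) (p (nat_lit 0x2a825aa8258a0b89890a) (nat_lit 0) (p (nat_lit 0xb0014) (nat_lit 1) (p (nat_lit 0x20000c) (nat_lit 0) (p (nat_lit 0x200004) (nat_lit 0) (p (nat_lit 0x89) (nat_lit 1) (p (nat_lit 0x101) (nat_lit 1) (p (nat_lit 0xc1) (nat_lit 1) (p (nat_lit 0x119) (nat_lit 1) (p (nat_lit 0xd1) (nat_lit 0) (p (nat_lit 0x81) (nat_lit 0) (p (nat_lit 0x41) (nat_lit 1) (p (nat_lit 0x898a0b090a9a) (nat_lit 0) (p (nat_lit 0x9098a888a1a) (nat_lit 0) (p (nat_lit 0x88890a08079a) (nat_lit 0) (p (nat_lit 0x8088987871a) (nat_lit 0) (p (nat_lit 0x80000800078907088a) (nat_lit 0) (p (nat_lit 0x80000800070886860a) (nat_lit 0) (p (nat_lit 0x8708060782) (nat_lit 0) (p (nat_lit 0x687858702) (nat_lit 0) (p (nat_lit 0x8607050482)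 (nat_lit 0) (p (nat_lit 0x586848402) (nat_lit 0) (p (nat_lit 0x160014) (nat_lit 0) (p (nat_lit 0x50612) (nat_lit 0) (p (nat_lit 0x40592) (nat_lit 0) (p (nat_lit 0x40492) (nat_lit 0) (p (nat_lit 0x30412) (nat_lit 0) (p (nat_lit 0x30212) (nat_lit 0) (p (nat_lit 0x20192) (nat_lit 0) (p (nat_lit 0x20092) (nat_lit 0) (p (nat_lit 0x10012) (nat_lit 0) pn))))))))))))))))))))))))))))))))) :=
  Cl.node (nat_lit 0xc0c8d8b8d1a) (nat_lit 1) (by decide +kernel) (ClAll.succ ClAll.zero n37)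

def n64 : Cl (O (nat_lit 3)) (R (nat_lit 102673))
    (p (nat_lit 0x109) (nat_lit 1) (p (nat_lit 0x41) (nat_lit 0) (p (nat_lit 0xb0014) (nat_lit 0) (p (nat_lit 0x119) (nat_lit 0) (p (nat_lit 0x20000c) (nat_lit 0) (p (nat_lit 0x200004) (nat_lit 0) (p (nat_lit 0xc9) (nat_lit 0) (p (nat_lit 0x89) (nat_lit 1) (p (nat_lit 0x109) (nat_lit 1) (p (nat_lit 0x101) (nat_lit 0) (p (nat_lit 0x111) (nat_lit 0) (p (nat_lit 0xd1) (nat_lit 1) (p (nat_lit 0x81) (nat_lit 0) (p (nat_lit 0x41) (nat_lit 1) (p (nat_lit 0x898a0b090a9a) (nat_lit 0) (p (nat_lit 0x9098a888a1a) (nat_lit 0) (p (nat_lit 0x88890a08079a) (nat_lit 0) (p (nat_lit 0x8088987871a) (nat_lit 0) (p (nat_lit 0x80000800078907088a) (nat_lit 0) (p (nat_lit 0x80000800070886860a) (nat_lit 0) (p (nat_lit 0x8708060782) (nat_lit 0) (p (nat_lit 0x687858702) (nat_lit 0) (p (nat_lit 0x8607050482) (nat_lit 0) (p (nat_lit 0x586848402) (nat_lit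 0) (p (nat_lit 0x160014) (nat_lit 0) (p (nat_lit 0x50612) (nat_lit 0) (p (nat_lit 0x40592) (nat_lit 0) (p (nat_lit 0x40492) (nat_lit 0) (p (nat_lit 0x30412) (nat_lit 0) (p (nat_lit 0x30212) (nat_lit 0) (p (nat_lit 0x20192) (nat_lit 0) (p (nat_lit 0x20092) (nat_lit 0) (p (nat_lit 0x10012) (nat_lit 0) pn))))))))))))))))))))))))))))))))) :=
  Cl.node (nat_lit 0x100004) (nat_lit 2) (by decide +kernel) (ClAll.succ (ClAll.succ ClAll.zero s264) s265)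

def n65 : Cl (O (nat_lit 3)) (R (nat_lit 102673))
    (p (nat_lit 0xd1) (nat_lit 1) (p (nat_lit 0xc1) (nat_lit 0) (p (nat_lit 0xb0014) (nat_lit 0) (p (nat_lit 0x119) (nat_lit 1) (p (nat_lit 0x20000c) (nat_lit 0) (p (nat_lit 0x200004) (nat_lit 0) (p (nat_lit 0xc9) (nat_lit 0) (p (nat_lit 0x89) (nat_lit 1) (p (nat_lit 0x109) (nat_lit 1) (p (nat_lit 0x101) (nat_lit 0) (p (nat_lit 0x111) (nat_lit 0) (p (nat_lit 0xd1) (nat_lit 1) (p (nat_lit 0x81) (nat_lit 0) (p (nat_lit 0x41) (nat_lit 1) (p (nat_lit 0x898a0b090a9a) (nat_lit 0) (p (nat_lit 0x9098a888a1a) (nat_lit 0) (p (nat_lit 0x88890a08079a) (nat_lit 0) (p (nat_lit 0x8088987871a) (nat_lit 0) (p (nat_lit 0x80000800078907088a) (nat_lit 0) (p (nat_lit 0x80000800070886860a) (nat_lit 0) (p (nat_lit 0x8708060782) (nat_lit 0) (p (nat_lit 0x687858702) (nat_lit 0) (p (nat_lit 0x8607050482) (nat_lit 0) (p (nat_lit 0x586848402) (nat_lit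 0) (p (nat_lit 0x160014) (nat_lit 0) (p (nat_lit 0x50612) (nat_lit 0) (p (nat_lit 0x40592) (nat_lit 0) (p (nat_lit 0x40492) (nat_lit 0) (p (nat_lit 0x30412) (nat_lit 0) (p (nat_lit 0x30212) (nat_lit 0) (p (nat_lit 0x20192) (nat_lit 0) (p (nat_lit 0x20092) (nat_lit 0) (p (nat_lit 0x10012) (nat_lit 0) pn))))))))))))))))))))))))))))))))) :=
  Cl.node (nat_lit 0x100004) (nat_lit 2) (by decide +kernel) (ClAll.succ (ClAll.succ ClAll.zero n38) s271)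

def n66 : Cl (O (nat_lit 3)) (R (nat_lit 102673))
    (p (nat_lit 0x41) (nat_lit 0) (p (nat_lit 0xc1) (nat_lit 1) (p (nat_lit 0xb0014) (nat_lit 0) (p (nat_lit 0x119) (nat_lit 1) (p (nat_lit 0x20000c) (nat_lit 0) (p (nat_lit 0x200004) (nat_lit 0) (p (nat_lit 0xc9) (nat_lit 0) (p (nat_lit 0x89) (nat_lit 1) (p (nat_lit 0x109) (nat_lit 1) (p (nat_lit 0x101) (nat_lit 0) (p (nat_lit 0x111) (nat_lit 0) (p (nat_lit 0xd1) (nat_lit 1) (p (nat_lit 0x81) (nat_lit 0) (p (nat_lit 0x41) (nat_lit 1) (p (nat_lit 0x898a0b090a9a) (nat_lit 0) (p (nat_lit 0x9098a888a1a) (nat_lit 0) (p (nat_lit 0x88890a08079a) (nat_lit 0) (p (nat_lit 0x8088987871a) (nat_lit 0) (p (nat_lit 0x80000800078907088a) (nat_lit 0) (p (nat_lit 0x80000800070886860a) (nat_lit 0) (p (nat_lit 0x8708060782) (nat_lit 0) (p (nat_lit 0x687858702) (nat_lit 0) (p (nat_lit 0x8607050482) (nat_lit 0) (p (nat_lit 0x586848402) (nat_lit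 0) (p (nat_lit 0x160014) (nat_lit 0) (p (nat_lit 0x50612) (nat_lit 0) (p (nat_lit 0x40592) (nat_lit 0) (p (nat_lit 0x40492) (nat_lit 0) (p (nat_lit 0x30412) (nat_lit 0) (p (nat_lit 0x30212) (nat_lit 0) (p (nat_lit 0x20192) (nat_lit 0) (p (nat_lit 0x20092) (nat_lit 0) (p (nat_lit 0x10012) (nat_lit 0) pn))))))))))))))))))))))))))))))))) :=
  Cl.node (nat_lit 0x100004) (nat_lit 2) (by decide +kernel) (ClAll.succ (ClAll.succ ClAll.zero n39) s274)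

def n67 : Cl (O (nat_lit 3)) (R (nat_lit 102673))
    (p (nat_lit 0xc0c8d8b8d1a) (nat_lit 0) (p (nat_lit 0x8b8c0d0b0a9a) (nat_lit 0) (p (nat_lit 0xb0b8c8a8a1a) (nat_lit 0) (p (nat_lit 0x2a825aa8258a8c0a0b8a) (nat_lit 0) (p (nat_lit 0x2a825aa8258a0b89890a) (nat_lit 0) (p (nat_lit 0xb0014) (nat_lit 1) (p (nat_lit 0x20000c) (nat_lit 0) (p (nat_lit 0x200004) (nat_lit 0) (p (nat_lit 0x89) (nat_lit 0) (p (nat_lit 0x101) (nat_lit 1) (p (nat_lit 0x111) (nat_lit 0) (p (nat_lit 0xd1) (nat_lit 1) (p (nat_lit 0x81) (nat_lit 0) (p (nat_lit 0x41) (nat_lit 1) (p (nat_lit 0x898a0b090a9a) (nat_lit 0) (p (nat_lit 0x9098a888a1a) (nat_lit 0) (p (nat_lit 0x88890a08079a) (nat_lit 0) (p (nat_lit 0x8088987871a) (nat_lit 0) (p (nat_lit 0x80000800078907088a) (nat_lit 0) (p (nat_lit 0x80000800070886860a) (nat_lit 0) (p (nat_lit 0x8708060782) (nat_lit 0) (p (nat_lit 0x687858702) (nat_lit 0) (p (nat_lit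 0x8607050482) (nat_lit 0) (p (nat_lit 0x586848402) (nat_lit 0) (p (nat_lit 0x160014) (nat_lit 0) (p (nat_lit 0x50612) (nat_lit 0) (p (nat_lit 0x40592) (nat_lit 0) (p (nat_lit 0x40492) (nat_lit 0) (p (nat_lit 0x30412) (nat_lit 0) (p (nat_lit 0x30212) (nat_lit 0) (p (nat_lit 0x20192) (nat_lit 0) (p (nat_lit 0x20092) (nat_lit 0) (p (nat_lit 0x10012) (nat_lit 0) pn))))))))))))))))))))))))))))))))) :=
  Cl.node (nat_lit 0x8c8d0e0c0d9a) (nat_lit 1) (by decide +kernel) (ClAll.succ ClAll.zero n40)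

def n68 : Cl (O (nat_lit 3)) (R (nat_lit 102673))
    (p (nat_lit 0x100004) (nat_lit 0) (p (nat_lit 0x109) (nat_lit 1) (p (nat_lit 0x101) (nat_lit 0) (p (nat_lit 0x119) (nat_lit 0) (p (nat_lit 0xb0014) (nat_lit 0) (p (nat_lit 0x20000c) (nat_lit 0) (p (nat_lit 0x200004) (nat_lit 0) (p (nat_lit 0xc9) (nat_lit 0) (p (nat_lit 0x89) (nat_lit 1) (p (nat_lit 0x101) (nat_lit 1) (p (nat_lit 0x111) (nat_lit 0) (p (nat_lit 0xd1) (nat_lit 1) (p (nat_lit 0x81) (nat_lit 0) (p (nat_lit 0x41) (nat_lit 1) (p (nat_lit 0x898a0b090a9a) (nat_lit 0) (p (nat_lit 0x9098a888a1a) (nat_lit 0) (p (nat_lit 0x88890a08079a) (nat_lit 0) (p (nat_lit 0x8088987871a) (nat_lit 0) (p (nat_lit 0x80000800078907088a) (nat_lit 0) (p (nat_lit 0x80000800070886860a) (nat_lit 0) (p (nat_lit 0x8708060782) (nat_lit 0) (p (nat_lit 0x687858702) (nat_lit 0) (p (nat_lit 0x8607050482) (nat_lit 0) (p (nat_lit 0x586848402) (nat_lit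 0) (p (nat_lit 0x160014) (nat_lit 0) (p (nat_lit 0x50612) (nat_lit 0) (p (nat_lit 0x40592) (nat_lit 0) (p (nat_lit 0x40492) (nat_lit 0) (p (nat_lit 0x30412) (nat_lit 0) (p (nat_lit 0x30212) (nat_lit 0) (p (nat_lit 0x20192) (nat_lit 0) (p (nat_lit 0x20092) (nat_lit 0) (p (nat_lit 0x10012) (nat_lit 0) pn))))))))))))))))))))))))))))))))) :=
  Cl.node (nat_lit 0x10000c) (nat_lit 2) (by decide +kernel) (ClAll.succ (ClAll.succ ClAll.zero s291) s292)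

def n69 : Cl (O (nat_lit 3)) (R (nat_lit 102673))
    (p (nat_lit 0xd1) (nat_lit 1) (p (nat_lit 0x101) (nat_lit 0) (p (nat_lit 0xc1) (nat_lit 1) (p (nat_lit 0x119) (nat_lit 1) (p (nat_lit 0xb0014) (nat_lit 0) (p (nat_lit 0x20000c) (nat_lit 0) (p (nat_lit 0x200004) (nat_lit 0) (p (nat_lit 0xc9) (nat_lit 0) (p (nat_lit 0x89) (nat_lit 1) (p (nat_lit 0x101) (nat_lit 1) (p (nat_lit 0x111) (nat_lit 0) (p (nat_lit 0xd1) (nat_lit 1) (p (nat_lit 0x81) (nat_lit 0) (p (nat_lit 0x41) (nat_lit 1) (p (nat_lit 0x898a0b090a9a) (nat_lit 0) (p (nat_lit 0x9098a888a1a) (nat_lit 0) (p (nat_lit 0x88890a08079a) (nat_lit 0) (p (nat_lit 0x8088987871a) (nat_lit 0) (p (nat_lit 0x80000800078907088a) (nat_lit 0) (p (nat_lit 0x80000800070886860a) (nat_lit 0) (p (nat_lit 0x8708060782) (nat_lit 0) (p (nat_lit 0x687858702) (nat_lit 0) (p (nat_lit 0x8607050482) (nat_lit 0) (p (nat_lit 0x586848402) (nat_lit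 0) (p (nat_lit 0x160014) (nat_lit 0) (p (nat_lit 0x50612) (nat_lit 0) (p (nat_lit 0x40592) (nat_lit 0) (p (nat_lit 0x40492) (nat_lit 0) (p (nat_lit 0x30412) (nat_lit 0) (p (nat_lit 0x30212) (nat_lit 0) (p (nat_lit 0x20192) (nat_lit 0) (p (nat_lit 0x20092) (nat_lit 0) (p (nat_lit 0x10012) (nat_lit 0) pn))))))))))))))))))))))))))))))))) :=
  Cl.node (nat_lit 0x100004) (nat_lit 2) (by decide +kernel) (ClAll.succ (ClAll.succ ClAll.zero s301) s302)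

def n70 : Cl (O (nat_lit 3)) (R (nat_lit 102673))
    (p (nat_lit 0x8b8c0d0b0a9a) (nat_lit 0) (p (nat_lit 0xb0b8c8a8a1a) (nat_lit 0) (p (nat_lit 0x2a825aa8258a8c0a0b8a) (nat_lit 0) (p (nat_lit 0x2a825aa8258a0b89890a) (nat_lit 0) (p (nat_lit 0xb0014) (nat_lit 1) (p (nat_lit 0x20000c) (nat_lit 0) (p (nat_lit 0x200004) (nat_lit 0) (p (nat_lit 0xc9) (nat_lit 0) (p (nat_lit 0x89) (nat_lit 1) (p (nat_lit 0x101) (nat_lit 1) (p (nat_lit 0x111) (nat_lit 0) (p (nat_lit 0xd1) (nat_lit 1) (p (nat_lit 0x81) (nat_lit 0) (p (nat_lit 0x41) (nat_lit 1) (p (nat_lit 0x898a0b090a9a) (nat_lit 0) (p (nat_lit 0x9098a888a1a) (nat_lit 0) (p (nat_lit 0x88890a08079a) (nat_lit 0) (p (nat_lit 0x8088987871a) (nat_lit 0) (p (nat_lit 0x80000800078907088a) (nat_lit 0) (p (nat_lit 0x80000800070886860a) (nat_lit 0) (p (nat_lit 0x8708060782) (nat_lit 0) (p (nat_lit 0x687858702) (nat_lit 0) (p (nat_lit 0x8607050482)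 (nat_lit 0) (p (nat_lit 0x586848402) (nat_lit 0) (p (nat_lit 0x160014) (nat_lit 0) (p (nat_lit 0x50612) (nat_lit 0) (p (nat_lit 0x40592) (nat_lit 0) (p (nat_lit 0x40492) (nat_lit 0) (p (nat_lit 0x30412) (nat_lit 0) (p (nat_lit 0x30212) (nat_lit 0) (p (nat_lit 0x20192) (nat_lit 0) (p (nat_lit 0x20092) (nat_lit 0) (p (nat_lit 0x10012) (nat_lit 0) pn))))))))))))))))))))))))))))))))) :=
  Cl.node (nat_lit 0xc0c8d8b8d1a) (nat_lit 1) (by decide +kernel) (ClAll.succ ClAll.zero n41)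

def n71 : Cl (O (nat_lit 3)) (R (nat_lit 102673))
    (p (nat_lit 0x101) (nat_lit 1) (p (nat_lit 0x109) (nat_lit 0) (p (nat_lit 0xb0014) (nat_lit 0) (p (nat_lit 0x111) (nat_lit 0) (p (nat_lit 0x20000c) (nat_lit 0) (p (nat_lit 0x200004) (nat_lit 0) (p (nat_lit 0xc9) (nat_lit 1) (p (nat_lit 0x81) (nat_lit 0) (p (nat_lit 0x101) (nat_lit 1) (p (nat_lit 0x119) (nat_lit 0) (p (nat_lit 0xd1) (nat_lit 0) (p (nat_lit 0x89) (nat_lit 0) (p (nat_lit 0x41) (nat_lit 0) (p (nat_lit 0x898a0b090a9a) (nat_lit 0) (p (nat_lit 0x9098a888a1a) (nat_lit 0) (p (nat_lit 0x88890a08079a) (nat_lit 0) (p (nat_lit 0x8088987871a) (nat_lit 0) (p (nat_lit 0x80000800078907088a) (nat_lit 0) (p (nat_lit 0x80000800070886860a) (nat_lit 0) (p (nat_lit 0x8708060782) (nat_lit 0) (p (nat_lit 0x687858702) (nat_lit 0) (p (nat_lit 0x8607050482) (nat_lit 0) (p (nat_lit 0x586848402) (nat_lit 0) (p (nat_lit 0x160014) (nat_lit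 0) (p (nat_lit 0x50612) (nat_lit 0) (p (nat_lit 0x40592) (nat_lit 0) (p (nat_lit 0x40492) (nat_lit 0) (p (nat_lit 0x30412) (nat_lit 0) (p (nat_lit 0x30212) (nat_lit 0) (p (nat_lit 0x20192) (nat_lit 0) (p (nat_lit 0x20092) (nat_lit 0) (p (nat_lit 0x10012) (nat_lit 0) pn)))))))))))))))))))))))))))))))) :=
  Cl.node (nat_lit 0x100004) (nat_lit 2) (by decide +kernel) (ClAll.succ (ClAll.succ ClAll.zero n42) s15)

def n72 : Cl (O (nat_lit 3)) (R (nat_lit 102673))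
    (p (nat_lit 0x89) (nat_lit 0) (p (nat_lit 0x109) (nat_lit 1) (p (nat_lit 0xb0014) (nat_lit 0) (p (nat_lit 0x111) (nat_lit 0) (p (nat_lit 0x20000c) (nat_lit 0) (p (nat_lit 0x200004) (nat_lit 0) (p (nat_lit 0xc9) (nat_lit 1) (p (nat_lit 0x81) (nat_lit 0) (p (nat_lit 0x101) (nat_lit 1) (p (nat_lit 0x119) (nat_lit 0) (p (nat_lit 0xd1) (nat_lit 0) (p (nat_lit 0x89) (nat_lit 0) (p (nat_lit 0x41) (nat_lit 0) (p (nat_lit 0x898a0b090a9a) (nat_lit 0) (p (nat_lit 0x9098a888a1a) (nat_lit 0) (p (nat_lit 0x88890a08079a) (nat_lit 0) (p (nat_lit 0x8088987871a) (nat_lit 0) (p (nat_lit 0x80000800078907088a) (nat_lit 0) (p (nat_lit 0x80000800070886860a) (nat_lit 0) (p (nat_lit 0x8708060782) (nat_lit 0) (p (nat_lit 0x687858702) (nat_lit 0) (p (nat_lit 0x8607050482) (nat_lit 0) (p (nat_lit 0x586848402) (nat_lit 0) (p (nat_lit 0x160014) (nat_lit 0) (p (nat_lit 0x50612) (nat_lit 0) (p (nat_lit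 0x40592) (nat_lit 0) (p (nat_lit 0x40492) (nat_lit 0) (p (nat_lit 0x30412) (nat_lit 0) (p (nat_lit 0x30212) (nat_lit 0) (p (nat_lit 0x20192) (nat_lit 0) (p (nat_lit 0x20092) (nat_lit 0) (p (nat_lit 0x10012) (nat_lit 0) pn)))))))))))))))))))))))))))))))) :=
  Cl.node (nat_lit 0x100004) (nat_lit 2) (by decide +kernel) (ClAll.succ (ClAll.succ ClAll.zero n43) s18)

def n73 : Cl (O (nat_lit 3)) (R (nat_lit 102673))
    (p (nat_lit 0x89) (nat_lit 1) (p (nat_lit 0x109) (nat_lit 1) (p (nat_lit 0xb0014) (nat_lit 0) (p (nat_lit 0x111) (nat_lit 0) (p (nat_lit 0x20000c) (nat_lit 0) (p (nat_lit 0x200004) (nat_lit 0) (p (nat_lit 0xc9) (nat_lit 1) (p (nat_lit 0x81) (nat_lit 0) (p (nat_lit 0x101) (nat_lit 1) (p (nat_lit 0x119) (nat_lit 0) (p (nat_lit 0xd1) (nat_lit 0) (p (nat_lit 0x89) (nat_lit 0) (p (nat_lit 0x41) (nat_lit 0) (p (nat_lit 0x898a0b090a9a) (nat_lit 0) (p (nat_lit 0x9098a888a1a)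 (nat_lit 0) (p (nat_lit 0x88890a08079a) (nat_lit 0) (p (nat_lit 0x8088987871a) (nat_lit 0) (p (nat_lit 0x80000800078907088a) (nat_lit 0) (p (nat_lit 0x80000800070886860a) (nat_lit 0) (p (nat_lit 0x8708060782) (nat_lit 0) (p (nat_lit 0x687858702) (nat_lit 0) (p (nat_lit 0x8607050482) (nat_lit 0) (p (nat_lit 0x586848402) (nat_lit 0) (p (nat_lit 0x160014) (nat_lit 0) (p (nat_lit 0x50612) (nat_lit 0) (p (nat_lit 0x40592) (nat_lit 0) (p (nat_lit 0x40492) (nat_lit 0) (p (nat_lit 0x30412) (nat_lit 0) (p (nat_lit 0x30212) (nat_lit 0) (p (nat_lit 0x20192) (nat_lit 0) (p (nat_lit 0x20092) (nat_lit 0) (p (nat_lit 0x10012) (nat_lit 0) pn)))))))))))))))))))))))))))))))) :=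
  Cl.node (nat_lit 0x41) (nat_lit 2) (by decide +kernel) (ClAll.succ (ClAll.succ ClAll.zero s19) n44)

def n74 : Cl (O (nat_lit 3)) (R (nat_lit 102673))
    (p (nat_lit 0x2a825aa8258a8c0a0b8a) (nat_lit 0) (p (nat_lit 0x2a825aa8258a0b89890a) (nat_lit 0) (p (nat_lit 0xb0014) (nat_lit 1) (p (nat_lit 0x111) (nat_lit 0) (p (nat_lit 0x20000c) (nat_lit 0) (p (nat_lit 0x200004) (nat_lit 0) (p (nat_lit 0xc9) (nat_lit 1) (p (nat_lit 0x81) (nat_lit 0) (p (nat_lit 0x101) (nat_lit 1) (p (nat_lit 0x119) (nat_lit 0) (p (nat_lit 0xd1) (nat_lit 0) (p (nat_lit 0x89) (nat_lit 0) (p (nat_lit 0x41) (nat_lit 0) (p (nat_lit 0x898a0b090a9a) (nat_lit 0) (p (nat_lit 0x9098a888a1a) (nat_lit 0) (p (nat_lit 0x88890a08079a) (nat_lit 0) (p (nat_lit 0x8088987871a) (nat_lit 0) (p (nat_lit 0x80000800078907088a) (nat_lit 0) (p (nat_lit 0x80000800070886860a) (nat_lit 0) (p (nat_lit 0x8708060782) (nat_lit 0)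 (p (nat_lit 0x687858702) (nat_lit 0) (p (nat_lit 0x8607050482) (nat_lit 0) (p (nat_lit 0x586848402) (nat_lit 0) (p (nat_lit 0x160014) (nat_lit 0) (p (nat_lit 0x50612) (nat_lit 0) (p (nat_lit 0x40592) (nat_lit 0) (p (nat_lit 0x40492) (nat_lit 0) (p (nat_lit 0x30412) (nat_lit 0) (p (nat_lit 0x30212) (nat_lit 0) (p (nat_lit 0x20192) (nat_lit 0) (p (nat_lit 0x20092) (nat_lit 0) (p (nat_lit 0x10012) (nat_lit 0) pn)))))))))))))))))))))))))))))))) :=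
  Cl.node (nat_lit 0xb0b8c8a8a1a) (nat_lit 1) (by decide +kernel) (ClAll.succ ClAll.zero n45)

def n75 : Cl (O (nat_lit 3)) (R (nat_lit 102673))
    (p (nat_lit 0x111) (nat_lit 1) (p (nat_lit 0x109) (nat_lit 0) (p (nat_lit 0xb0014) (nat_lit 0) (p (nat_lit 0x20000c) (nat_lit 0) (p (nat_lit 0x200004) (nat_lit 0) (p (nat_lit 0xc9) (nat_lit 1) (p (nat_lit 0xc1) (nat_lit 0) (p (nat_lit 0x81) (nat_lit 1) (p (nat_lit 0x101) (nat_lit 1) (p (nat_lit 0x119) (nat_lit 0) (p (nat_lit 0xd1) (nat_lit 0) (p (nat_lit 0x89) (nat_lit 0) (p (nat_lit 0x41) (nat_lit 0) (p (nat_lit 0x898a0b090a9a) (nat_lit 0) (p (nat_lit 0x9098a888a1a) (nat_lit 0) (p (nat_lit 0x88890a08079a) (nat_lit 0) (p (nat_lit 0x8088987871a) (nat_lit 0) (p (nat_lit 0x80000800078907088a) (nat_lit 0) (p (nat_lit 0x80000800070886860a) (nat_lit 0) (p (nat_lit 0x8708060782) (nat_lit 0) (p (nat_lit 0x687858702) (nat_lit 0) (p (nat_lit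 0x8607050482) (nat_lit 0) (p (nat_lit 0x586848402) (nat_lit 0) (p (nat_lit 0x160014) (nat_lit 0) (p (nat_lit 0x50612) (nat_lit 0) (p (nat_lit 0x40592) (nat_lit 0) (p (nat_lit 0x40492) (nat_lit 0) (p (nat_lit 0x30412) (nat_lit 0) (p (nat_lit 0x30212) (nat_lit 0) (p (nat_lit 0x20192) (nat_lit 0) (p (nat_lit 0x20092) (nat_lit 0) (p (nat_lit 0x10012) (nat_lit 0) pn)))))))))))))))))))))))))))))))) :=
  Cl.node (nat_lit 0x100004) (nat_lit 2) (by decide +kernel) (ClAll.succ (ClAll.succ ClAll.zero n46) s36)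

def n76 : Cl (O (nat_lit 3)) (R (nat_lit 102673))
    (p (nat_lit 0x41) (nat_lit 0) (p (nat_lit 0x109) (nat_lit 1) (p (nat_lit 0xb0014) (nat_lit 0) (p (nat_lit 0x20000c) (nat_lit 0) (p (nat_lit 0x200004) (nat_lit 0) (p (nat_lit 0xc9) (nat_lit 1) (p (nat_lit 0xc1) (nat_lit 0) (p (nat_lit 0x81) (nat_lit 1) (p (nat_lit 0x101) (nat_lit 1) (p (nat_lit 0x119) (nat_lit 0) (p (nat_lit 0xd1) (nat_lit 0) (p (nat_lit 0x89) (nat_lit 0) (p (nat_lit 0x41) (nat_lit 0) (p (nat_lit 0x898a0b090a9a) (nat_lit 0) (p (nat_lit 0x9098a888a1a) (nat_lit 0) (p (nat_lit 0x88890a08079a) (nat_lit 0) (p (nat_lit 0x8088987871a) (nat_lit 0) (p (nat_lit 0x80000800078907088a) (nat_lit 0) (p (nat_lit 0x80000800070886860a) (nat_lit 0) (p (nat_lit 0x8708060782) (nat_lit 0) (p (nat_lit 0x687858702) (nat_lit 0) (p (nat_lit 0x8607050482) (nat_lit 0) (p (nat_lit 0x586848402) (nat_lit 0) (p (nat_lit 0x160014) (nat_lit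 0) (p (nat_lit 0x50612) (nat_lit 0) (p (nat_lit 0x40592) (nat_lit 0) (p (nat_lit 0x40492) (nat_lit 0) (p (nat_lit 0x30412) (nat_lit 0) (p (nat_lit 0x30212) (nat_lit 0) (p (nat_lit 0x20192) (nat_lit 0) (p (nat_lit 0x20092) (nat_lit 0) (p (nat_lit 0x10012) (nat_lit 0) pn)))))))))))))))))))))))))))))))) :=
  Cl.node (nat_lit 0x89) (nat_lit 2) (by decide +kernel) (ClAll.succ (ClAll.succ ClAll.zero n47) s39)

def n77 : Cl (O (nat_lit 3)) (R (nat_lit 102673))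
    (p (nat_lit 0x41) (nat_lit 1) (p (nat_lit 0x109) (nat_lit 1) (p (nat_lit 0xb0014) (nat_lit 0) (p (nat_lit 0x20000c) (nat_lit 0) (p (nat_lit 0x200004) (nat_lit 0) (p (nat_lit 0xc9) (nat_lit 1) (p (nat_lit 0xc1) (nat_lit 0) (p (nat_lit 0x81) (nat_lit 1) (p (nat_lit 0x101) (nat_lit 1) (p (nat_lit 0x119) (nat_lit 0) (p (nat_lit 0xd1) (nat_lit 0) (p (nat_lit 0x89) (nat_lit 0) (p (nat_lit 0x41) (nat_lit 0) (p (nat_lit 0x898a0b090a9a) (nat_lit 0) (p (nat_lit 0x9098a888a1a) (nat_lit 0) (p (nat_lit 0x88890a08079a) (nat_lit 0) (p (nat_lit 0x8088987871a) (nat_lit 0) (p (nat_lit 0x80000800078907088a) (nat_lit 0) (p (nat_lit 0x80000800070886860a) (nat_lit 0) (p (nat_lit 0x8708060782) (nat_lit 0) (p (nat_lit 0x687858702) (nat_lit 0) (p (nat_lit 0x8607050482) (nat_lit 0) (p (nat_lit 0x586848402) (nat_lit 0) (p (nat_lit 0x160014) (nat_lit 0) (p (nat_lit 0x50612) (nat_lit 0) (p (nat_lit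 0x40592) (nat_lit 0) (p (nat_lit 0x40492) (nat_lit 0) (p (nat_lit 0x30412) (nat_lit 0) (p (nat_lit 0x30212) (nat_lit 0) (p (nat_lit 0x20192) (nat_lit 0) (p (nat_lit 0x20092) (nat_lit 0) (p (nat_lit 0x10012) (nat_lit 0) pn)))))))))))))))))))))))))))))))) :=
  Cl.node (nat_lit 0x100004) (nat_lit 2) (by decide +kernel) (ClAll.succ (ClAll.succ ClAll.zero n48) s42)

def n78 : Cl (O (nat_lit 3)) (R (nat_lit 102673))
    (p (nat_lit 0x2a825aa8258a8c0a0b8a) (nat_lit 0) (p (nat_lit 0x2a825aa8258a0b89890a) (nat_lit 0) (p (nat_lit 0xb0014) (nat_lit 1) (p (nat_lit 0x20000c) (nat_lit 0) (p (nat_lit 0x200004) (nat_lit 0) (p (nat_lit 0xc9) (nat_lit 1) (p (nat_lit 0xc1) (nat_lit 0) (p (nat_lit 0x81) (nat_lit 1) (p (nat_lit 0x101) (nat_lit 1) (p (nat_lit 0x119) (nat_lit 0) (p (nat_lit 0xd1) (nat_lit 0) (p (nat_lit 0x89) (nat_lit 0) (p (nat_lit 0x41) (nat_lit 0) (p (nat_lit 0x898a0b090a9a)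 (nat_lit 0) (p (nat_lit 0x9098a888a1a) (nat_lit 0) (p (nat_lit 0x88890a08079a) (nat_lit 0) (p (nat_lit 0x8088987871a) (nat_lit 0) (p (nat_lit 0x80000800078907088a) (nat_lit 0) (p (nat_lit 0x80000800070886860a) (nat_lit 0) (p (nat_lit 0x8708060782) (nat_lit 0) (p (nat_lit 0x687858702) (nat_lit 0) (p (nat_lit 0x8607050482) (nat_lit 0) (p (nat_lit 0x586848402) (nat_lit 0) (p (nat_lit 0x160014) (nat_lit 0) (p (nat_lit 0x50612) (nat_lit 0) (p (nat_lit 0x40592) (nat_lit 0) (p (nat_lit 0x40492) (nat_lit 0) (p (nat_lit 0x30412) (nat_lit 0) (p (nat_lit 0x30212) (nat_lit 0) (p (nat_lit 0x20192) (nat_lit 0) (p (nat_lit 0x20092) (nat_lit 0) (p (nat_lit 0x10012) (nat_lit 0) pn)))))))))))))))))))))))))))))))) :=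
  Cl.node (nat_lit 0xb0b8c8a8a1a) (nat_lit 1) (by decide +kernel) (ClAll.succ ClAll.zero n49)

def n79 : Cl (O (nat_lit 3)) (R (nat_lit 102673))
    (p (nat_lit 0x2a825aa8258a8c0a0b8a) (nat_lit 0) (p (nat_lit 0x2a825aa8258a0b89890a) (nat_lit 0) (p (nat_lit 0xb0014) (nat_lit 1) (p (nat_lit 0x20000c) (nat_lit 0) (p (nat_lit 0x200004) (nat_lit 0) (p (nat_lit 0x109) (nat_lit 1) (p (nat_lit 0x101) (nat_lit 0) (p (nat_lit 0x81) (nat_lit 1) (p (nat_lit 0xc1) (nat_lit 1) (p (nat_lit 0x119) (nat_lit 1) (p (nat_lit 0xd1) (nat_lit 0) (p (nat_lit 0x89) (nat_lit 0) (p (nat_lit 0x41) (nat_lit 0) (p (nat_lit 0x898a0b090a9a) (nat_lit 0) (p (nat_lit 0x9098a888a1a) (nat_lit 0) (p (nat_lit 0x88890a08079a) (nat_lit 0) (p (nat_lit 0x8088987871a) (nat_lit 0) (p (nat_lit 0x80000800078907088a) (nat_lit 0) (p (nat_lit 0x80000800070886860a) (nat_lit 0) (p (nat_lit 0x8708060782) (nat_lit 0) (p (nat_lit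 0x687858702) (nat_lit 0) (p (nat_lit 0x8607050482) (nat_lit 0) (p (nat_lit 0x586848402) (nat_lit 0) (p (nat_lit 0x160014) (nat_lit 0) (p (nat_lit 0x50612) (nat_lit 0) (p (nat_lit 0x40592) (nat_lit 0) (p (nat_lit 0x40492) (nat_lit 0) (p (nat_lit 0x30412) (nat_lit 0) (p (nat_lit 0x30212) (nat_lit 0) (p (nat_lit 0x20192) (nat_lit 0) (p (nat_lit 0x20092) (nat_lit 0) (p (nat_lit 0x10012) (nat_lit 0) pn)))))))))))))))))))))))))))))))) :=
  Cl.node (nat_lit 0xb0b8c8a8a1a) (nat_lit 1) (by decide +kernel) (ClAll.succ ClAll.zero n50)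

def n80 : Cl (O (nat_lit 3)) (R (nat_lit 102673))
    (p (nat_lit 0x101) (nat_lit 1) (p (nat_lit 0x109) (nat_lit 0) (p (nat_lit 0xb0014) (nat_lit 0) (p (nat_lit 0x119) (nat_lit 0) (p (nat_lit 0x20000c) (nat_lit 0) (p (nat_lit 0x200004) (nat_lit 0) (p (nat_lit 0xc1) (nat_lit 0) (p (nat_lit 0x81) (nat_lit 1) (p (nat_lit 0x101) (nat_lit 1) (p (nat_lit 0x111) (nat_lit 0) (p (nat_lit 0xd1) (nat_lit 1) (p (nat_lit 0x89) (nat_lit 0) (p (nat_lit 0x41) (nat_lit 0) (p (nat_lit 0x898a0b090a9a) (nat_lit 0) (p (nat_lit 0x9098a888a1a) (nat_lit 0) (p (nat_lit 0x88890a08079a) (nat_lit 0) (p (nat_lit 0x8088987871a) (nat_lit 0) (p (nat_lit 0x80000800078907088a) (nat_lit 0) (p (nat_lit 0x80000800070886860a) (nat_lit 0) (p (nat_lit 0x8708060782) (nat_lit 0) (p (nat_lit 0x687858702) (nat_lit 0) (p (nat_lit 0x8607050482) (nat_lit 0) (p (nat_lit 0x586848402) (nat_lit 0) (p (nat_lit 0x160014) (nat_lit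 0) (p (nat_lit 0x50612) (nat_lit 0) (p (nat_lit 0x40592) (nat_lit 0) (p (nat_lit 0x40492) (nat_lit 0) (p (nat_lit 0x30412) (nat_lit 0) (p (nat_lit 0x30212) (nat_lit 0) (p (nat_lit 0x20192) (nat_lit 0) (p (nat_lit 0x20092) (nat_lit 0) (p (nat_lit 0x10012) (nat_lit 0) pn)))))))))))))))))))))))))))))))) :=
  Cl.node (nat_lit 0x100004) (nat_lit 2) (by decide +kernel) (ClAll.succ (ClAll.succ ClAll.zero n51) s90)

def n81 : Cl (O (nat_lit 3)) (R (nat_lit 102673))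
    (p (nat_lit 0xc9) (nat_lit 0) (p (nat_lit 0x109) (nat_lit 1) (p (nat_lit 0xb0014) (nat_lit 0) (p (nat_lit 0x119) (nat_lit 0) (p (nat_lit 0x20000c) (nat_lit 0) (p (nat_lit 0x200004) (nat_lit 0) (p (nat_lit 0xc1) (nat_lit 0) (p (nat_lit 0x81) (nat_lit 1) (p (nat_lit 0x101) (nat_lit 1) (p (nat_lit 0x111) (nat_lit 0) (p (nat_lit 0xd1) (nat_lit 1) (p (nat_lit 0x89) (nat_lit 0) (p (nat_lit 0x41) (nat_lit 0) (p (nat_lit 0x898a0b090a9a) (nat_lit 0) (p (nat_lit 0x9098a888a1a) (nat_lit 0) (p (nat_lit 0x88890a08079a) (nat_lit 0) (p (nat_lit 0x8088987871a) (nat_lit 0) (p (nat_lit 0x80000800078907088a) (nat_lit 0) (p (nat_lit 0x80000800070886860a) (nat_lit 0) (p (nat_lit 0x8708060782) (nat_lit 0) (p (nat_lit 0x687858702) (nat_lit 0) (p (nat_lit 0x8607050482) (nat_lit 0) (p (nat_lit 0x586848402) (nat_lit 0) (p (nat_lit 0x160014) (nat_lit 0) (p (nat_lit 0x50612) (nat_lit 0) (p (nat_lit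 0x40592) (nat_lit 0) (p (nat_lit 0x40492) (nat_lit 0) (p (nat_lit 0x30412) (nat_lit 0) (p (nat_lit 0x30212) (nat_lit 0) (p (nat_lit 0x20192) (nat_lit 0) (p (nat_lit 0x20092) (nat_lit 0) (p (nat_lit 0x10012) (nat_lit 0) pn)))))))))))))))))))))))))))))))) :=
  Cl.node (nat_lit 0x100004) (nat_lit 2) (by decide +kernel) (ClAll.succ (ClAll.succ ClAll.zero n52) s94)

def n82 : Cl (O (nat_lit 3)) (R (nat_lit 102673))
    (p (nat_lit 0xd1) (nat_lit 1) (p (nat_lit 0xc9) (nat_lit 0) (p (nat_lit 0xb0014) (nat_lit 0) (p (nat_lit 0x119) (nat_lit 1) (p (nat_lit 0x20000c) (nat_lit 0) (p (nat_lit 0x200004) (nat_lit 0) (p (nat_lit 0xc1) (nat_lit 0) (p (nat_lit 0x81) (nat_lit 1) (p (nat_lit 0x101) (nat_lit 1) (p (nat_lit 0x111) (nat_lit 0) (p (nat_lit 0xd1) (nat_lit 1) (p (nat_lit 0x89) (nat_lit 0) (p (nat_lit 0x41) (nat_lit 0) (p (nat_lit 0x898a0b090a9a) (nat_lit 0) (p (nat_lit 0x9098a888a1a)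 (nat_lit 0) (p (nat_lit 0x88890a08079a) (nat_lit 0) (p (nat_lit 0x8088987871a) (nat_lit 0) (p (nat_lit 0x80000800078907088a) (nat_lit 0) (p (nat_lit 0x80000800070886860a) (nat_lit 0) (p (nat_lit 0x8708060782) (nat_lit 0) (p (nat_lit 0x687858702) (nat_lit 0) (p (nat_lit 0x8607050482) (nat_lit 0) (p (nat_lit 0x586848402) (nat_lit 0) (p (nat_lit 0x160014) (nat_lit 0) (p (nat_lit 0x50612) (nat_lit 0) (p (nat_lit 0x40592) (nat_lit 0) (p (nat_lit 0x40492) (nat_lit 0) (p (nat_lit 0x30412) (nat_lit 0) (p (nat_lit 0x30212) (nat_lit 0) (p (nat_lit 0x20192) (nat_lit 0) (p (nat_lit 0x20092) (nat_lit 0) (p (nat_lit 0x10012) (nat_lit 0) pn)))))))))))))))))))))))))))))))) :=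
  Cl.node (nat_lit 0x89) (nat_lit 2) (by decide +kernel) (ClAll.succ (ClAll.succ ClAll.zero s98) s99)

def n83 : Cl (O (nat_lit 3)) (R (nat_lit 102673))
    (p (nat_lit 0x109) (nat_lit 0) (p (nat_lit 0xc9) (nat_lit 1) (p (nat_lit 0xb0014) (nat_lit 0) (p (nat_lit 0x119) (nat_lit 1) (p (nat_lit 0x20000c) (nat_lit 0) (p (nat_lit 0x200004) (nat_lit 0) (p (nat_lit 0xc1) (nat_lit 0) (p (nat_lit 0x81) (nat_lit 1) (p (nat_lit 0x101) (nat_lit 1) (p (nat_lit 0x111) (nat_lit 0) (p (nat_lit 0xd1) (nat_lit 1) (p (nat_lit 0x89) (nat_lit 0) (p (nat_lit 0x41) (nat_lit 0) (p (nat_lit 0x898a0b090a9a) (nat_lit 0) (p (nat_lit 0x9098a888a1a) (nat_lit 0) (p (nat_lit 0x88890a08079a) (nat_lit 0) (p (nat_lit 0x8088987871a) (nat_lit 0) (p (nat_lit 0x80000800078907088a) (nat_lit 0) (p (nat_lit 0x80000800070886860a) (nat_lit 0) (p (nat_lit 0x8708060782) (nat_lit 0) (p (nat_lit 0x687858702) (nat_lit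 0) (p (nat_lit 0x8607050482) (nat_lit 0) (p (nat_lit 0x586848402) (nat_lit 0) (p (nat_lit 0x160014) (nat_lit 0) (p (nat_lit 0x50612) (nat_lit 0) (p (nat_lit 0x40592) (nat_lit 0) (p (nat_lit 0x40492) (nat_lit 0) (p (nat_lit 0x30412) (nat_lit 0) (p (nat_lit 0x30212) (nat_lit 0) (p (nat_lit 0x20192) (nat_lit 0) (p (nat_lit 0x20092) (nat_lit 0) (p (nat_lit 0x10012) (nat_lit 0) pn)))))))))))))))))))))))))))))))) :=
  Cl.node (nat_lit 0xd1) (nat_lit 2) (by decide +kernel) (ClAll.succ (ClAll.succ ClAll.zero s100) n53)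

def n84 : Cl (O (nat_lit 3)) (R (nat_lit 102673))
    (p (nat_lit 0x2a825aa8258a8c0a0b8a) (nat_lit 0) (p (nat_lit 0x2a825aa8258a0b89890a) (nat_lit 0) (p (nat_lit 0xb0014) (nat_lit 1) (p (nat_lit 0x119) (nat_lit 1) (p (nat_lit 0x20000c) (nat_lit 0) (p (nat_lit 0x200004) (nat_lit 0) (p (nat_lit 0xc1) (nat_lit 0) (p (nat_lit 0x81) (nat_lit 1) (p (nat_lit 0x101) (nat_lit 1) (p (nat_lit 0x111) (nat_lit 0) (p (nat_lit 0xd1) (nat_lit 1) (p (nat_lit 0x89) (nat_lit 0) (p (nat_lit 0x41) (nat_lit 0) (p (nat_lit 0x898a0b090a9a) (nat_lit 0) (p (nat_lit 0x9098a888a1a) (nat_lit 0) (p (nat_lit 0x88890a08079a) (nat_lit 0) (p (nat_lit 0x8088987871a) (nat_lit 0) (p (nat_lit 0x80000800078907088a) (nat_lit 0) (p (nat_lit 0x80000800070886860a) (nat_lit 0) (p (nat_lit 0x8708060782) (nat_lit 0) (p (nat_lit 0x687858702) (nat_lit 0) (p (nat_lit 0x8607050482) (nat_lit 0) (p (nat_lit 0x586848402) (nat_lit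 0) (p (nat_lit 0x160014) (nat_lit 0) (p (nat_lit 0x50612) (nat_lit 0) (p (nat_lit 0x40592) (nat_lit 0) (p (nat_lit 0x40492) (nat_lit 0) (p (nat_lit 0x30412) (nat_lit 0) (p (nat_lit 0x30212) (nat_lit 0) (p (nat_lit 0x20192) (nat_lit 0) (p (nat_lit 0x20092) (nat_lit 0) (p (nat_lit 0x10012) (nat_lit 0) pn)))))))))))))))))))))))))))))))) :=
  Cl.node (nat_lit 0xb0b8c8a8a1a) (nat_lit 1) (by decide +kernel) (ClAll.succ ClAll.zero n54)

def n85 : Cl (O (nat_lit 3)) (R (nat_lit 102673))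
    (p (nat_lit 0xb0b8c8a8a1a) (nat_lit 0) (p (nat_lit 0x2a825aa8258a8c0a0b8a) (nat_lit 0) (p (nat_lit 0x2a825aa8258a0b89890a) (nat_lit 0) (p (nat_lit 0xb0014) (nat_lit 1) (p (nat_lit 0x20000c) (nat_lit 0) (p (nat_lit 0x200004) (nat_lit 0) (p (nat_lit 0x101) (nat_lit 0) (p (nat_lit 0xc1) (nat_lit 1) (p (nat_lit 0x81) (nat_lit 1) (p (nat_lit 0x111) (nat_lit 1) (p (nat_lit 0xd1) (nat_lit 1) (p (nat_lit 0x89) (nat_lit 0) (p (nat_lit 0x41) (nat_lit 0) (p (nat_lit 0x898a0b090a9a) (nat_lit 0) (p (nat_lit 0x9098a888a1a) (nat_lit 0) (p (nat_lit 0x88890a08079a) (nat_lit 0) (p (nat_lit 0x8088987871a) (nat_lit 0) (p (nat_lit 0x80000800078907088a) (nat_lit 0) (p (nat_lit 0x80000800070886860a) (nat_lit 0) (p (nat_lit 0x8708060782) (nat_lit 0) (p (nat_lit 0x687858702) (nat_lit 0) (p (nat_lit 0x8607050482) (nat_lit 0) (p (nat_lit 0x586848402) (nat_lit 0) (p (nat_lit 0x160014) (nat_lit 0)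 (p (nat_lit 0x50612) (nat_lit 0) (p (nat_lit 0x40592) (nat_lit 0) (p (nat_lit 0x40492) (nat_lit 0) (p (nat_lit 0x30412) (nat_lit 0) (p (nat_lit 0x30212) (nat_lit 0) (p (nat_lit 0x20192) (nat_lit 0) (p (nat_lit 0x20092) (nat_lit 0) (p (nat_lit 0x10012) (nat_lit 0) pn)))))))))))))))))))))))))))))))) :=
  Cl.node (nat_lit 0x8b8c0d0b0a9a) (nat_lit 1) (by decide +kernel) (ClAll.succ ClAll.zero n55)

def n86 : Cl (O (nat_lit 3)) (R (nat_lit 102673))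
    (p (nat_lit 0xb0b8c8a8a1a) (nat_lit 0) (p (nat_lit 0x2a825aa8258a8c0a0b8a) (nat_lit 0) (p (nat_lit 0x2a825aa8258a0b89890a) (nat_lit 0) (p (nat_lit 0xb0014) (nat_lit 1) (p (nat_lit 0x20000c) (nat_lit 0) (p (nat_lit 0x200004) (nat_lit 0) (p (nat_lit 0xd1) (nat_lit 1) (p (nat_lit 0x109) (nat_lit 1) (p (nat_lit 0x101) (nat_lit 0) (p (nat_lit 0x119) (nat_lit 0) (p (nat_lit 0xc9) (nat_lit 0) (p (nat_lit 0x89) (nat_lit 1) (p (nat_lit 0x41) (nat_lit 0) (p (nat_lit 0x898a0b090a9a) (nat_lit 0) (p (nat_lit 0x9098a888a1a) (nat_lit 0) (p (nat_lit 0x88890a08079a) (nat_lit 0) (p (nat_lit 0x8088987871a) (nat_lit 0) (p (nat_lit 0x80000800078907088a) (nat_lit 0) (p (nat_lit 0x80000800070886860a) (nat_lit 0) (p (nat_lit 0x8708060782) (nat_lit 0) (p (nat_lit 0x687858702) (nat_lit 0) (p (nat_lit 0x8607050482) (nat_lit 0) (p (nat_lit 0x586848402) (nat_lit 0) (p (nat_lit 0x160014) (nat_lit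 0) (p (nat_lit 0x50612) (nat_lit 0) (p (nat_lit 0x40592) (nat_lit 0) (p (nat_lit 0x40492) (nat_lit 0) (p (nat_lit 0x30412) (nat_lit 0) (p (nat_lit 0x30212) (nat_lit 0) (p (nat_lit 0x20192) (nat_lit 0) (p (nat_lit 0x20092) (nat_lit 0) (p (nat_lit 0x10012) (nat_lit 0) pn)))))))))))))))))))))))))))))))) :=
  Cl.node (nat_lit 0x8b8c0d0b0a9a) (nat_lit 1) (by decide +kernel) (ClAll.succ ClAll.zero n56)

def n87 : Cl (O (nat_lit 3)) (R (nat_lit 102673))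
    (p (nat_lit 0xb0b8c8a8a1a) (nat_lit 0) (p (nat_lit 0x2a825aa8258a8c0a0b8a) (nat_lit 0) (p (nat_lit 0x2a825aa8258a0b89890a) (nat_lit 0) (p (nat_lit 0xb0014) (nat_lit 1) (p (nat_lit 0x20000c) (nat_lit 0) (p (nat_lit 0x200004) (nat_lit 0) (p (nat_lit 0xd1) (nat_lit 1) (p (nat_lit 0xc1) (nat_lit 0) (p (nat_lit 0x101) (nat_lit 1) (p (nat_lit 0x119) (nat_lit 0) (p (nat_lit 0xc9) (nat_lit 0) (p (nat_lit 0x89) (nat_lit 1) (p (nat_lit 0x41) (nat_lit 0) (p (nat_lit 0x898a0b090a9a) (nat_lit 0) (p (nat_lit 0x9098a888a1a) (nat_lit 0) (p (nat_lit 0x88890a08079a) (nat_lit 0) (p (nat_lit 0x8088987871a) (nat_lit 0) (p (nat_lit 0x80000800078907088a) (nat_lit 0) (p (nat_lit 0x80000800070886860a) (nat_lit 0) (p (nat_lit 0x8708060782) (nat_lit 0) (p (nat_lit 0x687858702) (nat_lit 0) (p (nat_lit 0x8607050482) (nat_lit 0) (p (nat_lit 0x586848402) (nat_lit 0) (p (nat_lit 0x160014) (nat_lit 0)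 (p (nat_lit 0x50612) (nat_lit 0) (p (nat_lit 0x40592) (nat_lit 0) (p (nat_lit 0x40492) (nat_lit 0) (p (nat_lit 0x30412) (nat_lit 0) (p (nat_lit 0x30212) (nat_lit 0) (p (nat_lit 0x20192) (nat_lit 0) (p (nat_lit 0x20092) (nat_lit 0) (p (nat_lit 0x10012) (nat_lit 0) pn)))))))))))))))))))))))))))))))) :=
  Cl.node (nat_lit 0x8b8c0d0b0a9a) (nat_lit 1) (by decide +kernel) (ClAll.succ ClAll.zero n57)

def n88 : Cl (O (nat_lit 3)) (R (nat_lit 102673))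
    (p (nat_lit 0xb0b8c8a8a1a) (nat_lit 0) (p (nat_lit 0x2a825aa8258a8c0a0b8a) (nat_lit 0) (p (nat_lit 0x2a825aa8258a0b89890a) (nat_lit 0) (p (nat_lit 0xb0014) (nat_lit 1) (p (nat_lit 0x20000c) (nat_lit 0) (p (nat_lit 0x200004) (nat_lit 0) (p (nat_lit 0x111) (nat_lit 1) (p (nat_lit 0x101) (nat_lit 0) (p (nat_lit 0xc1) (nat_lit 1) (p (nat_lit 0x119) (nat_lit 1) (p (nat_lit 0xc9) (nat_lit 0) (p (nat_lit 0x89) (nat_lit 1) (p (nat_lit 0x41) (nat_lit 0) (p (nat_lit 0x898a0b090a9a) (nat_lit 0) (p (nat_lit 0x9098a888a1a) (nat_lit 0) (p (nat_lit 0x88890a08079a) (nat_lit 0) (p (nat_lit 0x8088987871a) (nat_lit 0) (p (nat_lit 0x80000800078907088a) (nat_lit 0) (p (nat_lit 0x80000800070886860a) (nat_lit 0) (p (nat_lit 0x8708060782) (nat_lit 0) (p (nat_lit 0x687858702) (nat_lit 0) (p (nat_lit 0x8607050482) (nat_lit 0) (p (nat_lit 0x586848402) (nat_lit 0) (p (nat_lit 0x160014) (nat_lit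 0) (p (nat_lit 0x50612) (nat_lit 0) (p (nat_lit 0x40592) (nat_lit 0) (p (nat_lit 0x40492) (nat_lit 0) (p (nat_lit 0x30412) (nat_lit 0) (p (nat_lit 0x30212) (nat_lit 0) (p (nat_lit 0x20192) (nat_lit 0) (p (nat_lit 0x20092) (nat_lit 0) (p (nat_lit 0x10012) (nat_lit 0) pn)))))))))))))))))))))))))))))))) :=
  Cl.node (nat_lit 0x8b8c0d0b0a9a) (nat_lit 1) (by decide +kernel) (ClAll.succ ClAll.zero n58)

def n89 : Cl (O (nat_lit 3)) (R (nat_lit 102673))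
    (p (nat_lit 0x111) (nat_lit 1) (p (nat_lit 0x101) (nat_lit 0) (p (nat_lit 0x109) (nat_lit 0) (p (nat_lit 0xb0014) (nat_lit 0) (p (nat_lit 0x20000c) (nat_lit 0) (p (nat_lit 0x200004) (nat_lit 0) (p (nat_lit 0x89) (nat_lit 1) (p (nat_lit 0xc1) (nat_lit 1) (p (nat_lit 0x101) (nat_lit 1) (p (nat_lit 0x119) (nat_lit 0) (p (nat_lit 0xd1) (nat_lit 0) (p (nat_lit 0x81) (nat_lit 0) (p (nat_lit 0x41) (nat_lit 1) (p (nat_lit 0x898a0b090a9a) (nat_lit 0) (p (nat_lit 0x9098a888a1a) (nat_lit 0) (p (nat_lit 0x88890a08079a) (nat_lit 0) (p (nat_lit 0x8088987871a) (nat_lit 0) (p (nat_lit 0x80000800078907088a) (nat_lit 0) (p (nat_lit 0x80000800070886860a) (nat_lit 0) (p (nat_lit 0x8708060782) (nat_lit 0) (p (nat_lit 0x687858702) (nat_lit 0) (p (nat_lit 0x8607050482) (nat_lit 0) (p (nat_lit 0x586848402) (nat_lit 0) (p (nat_lit 0x160014) (nat_lit 0) (p (nat_lit 0x50612) (nat_lit 0) (p (nat_lit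 0x40592) (nat_lit 0) (p (nat_lit 0x40492) (nat_lit 0) (p (nat_lit 0x30412) (nat_lit 0) (p (nat_lit 0x30212) (nat_lit 0) (p (nat_lit 0x20192) (nat_lit 0) (p (nat_lit 0x20092) (nat_lit 0) (p (nat_lit 0x10012) (nat_lit 0) pn)))))))))))))))))))))))))))))))) :=
  Cl.node (nat_lit 0x100004) (nat_lit 2) (by decide +kernel) (ClAll.succ (ClAll.succ ClAll.zero n59) s218)

def n90 : Cl (O (nat_lit 3)) (R (nat_lit 102673))
    (p (nat_lit 0x41) (nat_lit 0) (p (nat_lit 0x101) (nat_lit 1) (p (nat_lit 0x109) (nat_lit 0) (p (nat_lit 0xb0014) (nat_lit 0) (p (nat_lit 0x20000c) (nat_lit 0) (p (nat_lit 0x200004) (nat_lit 0) (p (nat_lit 0x89) (nat_lit 1) (p (nat_lit 0xc1) (nat_lit 1) (p (nat_lit 0x101) (nat_lit 1) (p (nat_lit 0x119) (nat_lit 0) (p (nat_lit 0xd1) (nat_lit 0) (p (nat_lit 0x81) (nat_lit 0) (p (nat_lit 0x41) (nat_lit 1) (p (nat_lit 0x898a0b090a9a) (nat_lit 0) (p (nat_lit 0x9098a888a1a)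 (nat_lit 0) (p (nat_lit 0x88890a08079a) (nat_lit 0) (p (nat_lit 0x8088987871a) (nat_lit 0) (p (nat_lit 0x80000800078907088a) (nat_lit 0) (p (nat_lit 0x80000800070886860a) (nat_lit 0) (p (nat_lit 0x8708060782) (nat_lit 0) (p (nat_lit 0x687858702) (nat_lit 0) (p (nat_lit 0x8607050482) (nat_lit 0) (p (nat_lit 0x586848402) (nat_lit 0) (p (nat_lit 0x160014) (nat_lit 0) (p (nat_lit 0x50612) (nat_lit 0) (p (nat_lit 0x40592) (nat_lit 0) (p (nat_lit 0x40492) (nat_lit 0) (p (nat_lit 0x30412) (nat_lit 0) (p (nat_lit 0x30212) (nat_lit 0) (p (nat_lit 0x20192) (nat_lit 0) (p (nat_lit 0x20092) (nat_lit 0) (p (nat_lit 0x10012) (nat_lit 0) pn)))))))))))))))))))))))))))))))) :=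
  Cl.node (nat_lit 0x100004) (nat_lit 2) (by decide +kernel) (ClAll.succ (ClAll.succ ClAll.zero n60) s221)

def n91 : Cl (O (nat_lit 3)) (R (nat_lit 102673))
    (p (nat_lit 0x101) (nat_lit 0) (p (nat_lit 0x41) (nat_lit 1) (p (nat_lit 0x109) (nat_lit 1) (p (nat_lit 0xb0014) (nat_lit 0) (p (nat_lit 0x20000c) (nat_lit 0) (p (nat_lit 0x200004) (nat_lit 0) (p (nat_lit 0x89) (nat_lit 1) (p (nat_lit 0xc1) (nat_lit 1) (p (nat_lit 0x101) (nat_lit 1) (p (nat_lit 0x119) (nat_lit 0) (p (nat_lit 0xd1) (nat_lit 0) (p (nat_lit 0x81) (nat_lit 0) (p (nat_lit 0x41) (nat_lit 1) (p (nat_lit 0x898a0b090a9a) (nat_lit 0) (p (nat_lit 0x9098a888a1a) (nat_lit 0) (p (nat_lit 0x88890a08079a) (nat_lit 0) (p (nat_lit 0x8088987871a) (nat_lit 0) (p (nat_lit 0x80000800078907088a) (nat_lit 0) (p (nat_lit 0x80000800070886860a) (nat_lit 0) (p (nat_lit 0x8708060782) (nat_lit 0) (p (nat_lit 0x687858702) (nat_lit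 0) (p (nat_lit 0x8607050482) (nat_lit 0) (p (nat_lit 0x586848402) (nat_lit 0) (p (nat_lit 0x160014) (nat_lit 0) (p (nat_lit 0x50612) (nat_lit 0) (p (nat_lit 0x40592) (nat_lit 0) (p (nat_lit 0x40492) (nat_lit 0) (p (nat_lit 0x30412) (nat_lit 0) (p (nat_lit 0x30212) (nat_lit 0) (p (nat_lit 0x20192) (nat_lit 0) (p (nat_lit 0x20092) (nat_lit 0) (p (nat_lit 0x10012) (nat_lit 0) pn)))))))))))))))))))))))))))))))) :=
  Cl.node (nat_lit 0xc9) (nat_lit 2) (by decide +kernel) (ClAll.succ (ClAll.succ ClAll.zero n61) s227)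

def n92 : Cl (O (nat_lit 3)) (R (nat_lit 102673))
    (p (nat_lit 0xb0b8c8a8a1a) (nat_lit 0) (p (nat_lit 0x2a825aa8258a8c0a0b8a) (nat_lit 0) (p (nat_lit 0x2a825aa8258a0b89890a) (nat_lit 0) (p (nat_lit 0xb0014) (nat_lit 1) (p (nat_lit 0x20000c) (nat_lit 0) (p (nat_lit 0x200004) (nat_lit 0) (p (nat_lit 0x89) (nat_lit 1) (p (nat_lit 0xc1) (nat_lit 1) (p (nat_lit 0x101) (nat_lit 1) (p (nat_lit 0x119) (nat_lit 0) (p (nat_lit 0xd1) (nat_lit 0) (p (nat_lit 0x81) (nat_lit 0) (p (nat_lit 0x41) (nat_lit 1) (p (nat_lit 0x898a0b090a9a) (nat_lit 0) (p (nat_lit 0x9098a888a1a) (nat_lit 0) (p (nat_lit 0x88890a08079a) (nat_lit 0) (p (nat_lit 0x8088987871a) (nat_lit 0) (p (nat_lit 0x80000800078907088a) (nat_lit 0) (p (nat_lit 0x80000800070886860a) (nat_lit 0) (p (nat_lit 0x8708060782) (nat_lit 0) (p (nat_lit 0x687858702) (nat_lit 0) (p (nat_lit 0x8607050482) (nat_lit 0) (p (nat_lit 0x586848402)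 (nat_lit 0) (p (nat_lit 0x160014) (nat_lit 0) (p (nat_lit 0x50612) (nat_lit 0) (p (nat_lit 0x40592) (nat_lit 0) (p (nat_lit 0x40492) (nat_lit 0) (p (nat_lit 0x30412) (nat_lit 0) (p (nat_lit 0x30212) (nat_lit 0) (p (nat_lit 0x20192) (nat_lit 0) (p (nat_lit 0x20092) (nat_lit 0) (p (nat_lit 0x10012) (nat_lit 0) pn)))))))))))))))))))))))))))))))) :=
  Cl.node (nat_lit 0x8b8c0d0b0a9a) (nat_lit 1) (by decide +kernel) (ClAll.succ ClAll.zero n62)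

def n93 : Cl (O (nat_lit 3)) (R (nat_lit 102673))
    (p (nat_lit 0xb0b8c8a8a1a) (nat_lit 0) (p (nat_lit 0x2a825aa8258a8c0a0b8a) (nat_lit 0) (p (nat_lit 0x2a825aa8258a0b89890a) (nat_lit 0) (p (nat_lit 0xb0014) (nat_lit 1) (p (nat_lit 0x20000c) (nat_lit 0) (p (nat_lit 0x200004) (nat_lit 0) (p (nat_lit 0x89) (nat_lit 1) (p (nat_lit 0x101) (nat_lit 1) (p (nat_lit 0xc1) (nat_lit 1) (p (nat_lit 0x119) (nat_lit 1) (p (nat_lit 0xd1) (nat_lit 0) (p (nat_lit 0x81) (nat_lit 0) (p (nat_lit 0x41) (nat_lit 1) (p (nat_lit 0x898a0b090a9a) (nat_lit 0) (p (nat_lit 0x9098a888a1a) (nat_lit 0) (p (nat_lit 0x88890a08079a) (nat_lit 0) (p (nat_lit 0x8088987871a) (nat_lit 0) (p (nat_lit 0x80000800078907088a) (nat_lit 0) (p (nat_lit 0x80000800070886860a) (nat_lit 0) (p (nat_lit 0x8708060782) (nat_lit 0) (p (nat_lit 0x687858702) (nat_lit 0) (p (nat_lit 0x8607050482) (nat_lit 0) (p (nat_lit 0x586848402)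 (nat_lit 0) (p (nat_lit 0x160014) (nat_lit 0) (p (nat_lit 0x50612) (nat_lit 0) (p (nat_lit 0x40592) (nat_lit 0) (p (nat_lit 0x40492) (nat_lit 0) (p (nat_lit 0x30412) (nat_lit 0) (p (nat_lit 0x30212) (nat_lit 0) (p (nat_lit 0x20192) (nat_lit 0) (p (nat_lit 0x20092) (nat_lit 0) (p (nat_lit 0x10012) (nat_lit 0) pn)))))))))))))))))))))))))))))))) :=
  Cl.node (nat_lit 0x8b8c0d0b0a9a) (nat_lit 1) (by decide +kernel) (ClAll.succ ClAll.zero n63)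

def n94 : Cl (O (nat_lit 3)) (R (nat_lit 102673))
    (p (nat_lit 0x41) (nat_lit 0) (p (nat_lit 0xb0014) (nat_lit 0) (p (nat_lit 0x119) (nat_lit 0) (p (nat_lit 0x20000c) (nat_lit 0) (p (nat_lit 0x200004) (nat_lit 0) (p (nat_lit 0xc9) (nat_lit 0) (p (nat_lit 0x89) (nat_lit 1) (p (nat_lit 0x109) (nat_lit 1) (p (nat_lit 0x101) (nat_lit 0) (p (nat_lit 0x111) (nat_lit 0) (p (nat_lit 0xd1) (nat_lit 1) (p (nat_lit 0x81) (nat_lit 0) (p (nat_lit 0x41) (nat_lit 1) (p (nat_lit 0x898a0b090a9a) (nat_lit 0) (p (nat_lit 0x9098a888a1a) (nat_lit 0) (p (nat_lit 0x88890a08079a) (nat_lit 0) (p (nat_lit 0x8088987871a) (nat_lit 0) (p (nat_lit 0x80000800078907088a) (nat_lit 0) (p (nat_lit 0x80000800070886860a) (nat_lit 0) (p (nat_lit 0x8708060782) (nat_lit 0) (p (nat_lit 0x687858702) (nat_lit 0) (p (nat_lit 0x8607050482) (nat_lit 0) (p (nat_lit 0x586848402) (nat_lit 0) (p (nat_lit 0x160014) (nat_lit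 0) (p (nat_lit 0x50612) (nat_lit 0) (p (nat_lit 0x40592) (nat_lit 0) (p (nat_lit 0x40492) (nat_lit 0) (p (nat_lit 0x30412) (nat_lit 0) (p (nat_lit 0x30212) (nat_lit 0) (p (nat_lit 0x20192) (nat_lit 0) (p (nat_lit 0x20092) (nat_lit 0) (p (nat_lit 0x10012) (nat_lit 0) pn)))))))))))))))))))))))))))))))) :=
  Cl.node (nat_lit 0x109) (nat_lit 2) (by decide +kernel) (ClAll.succ (ClAll.succ ClAll.zero s263) n64)

def n95 : Cl (O (nat_lit 3)) (R (nat_lit 102673))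
    (p (nat_lit 0xc1) (nat_lit 0) (p (nat_lit 0xb0014) (nat_lit 0) (p (nat_lit 0x119) (nat_lit 1) (p (nat_lit 0x20000c) (nat_lit 0) (p (nat_lit 0x200004) (nat_lit 0) (p (nat_lit 0xc9) (nat_lit 0) (p (nat_lit 0x89) (nat_lit 1) (p (nat_lit 0x109) (nat_lit 1) (p (nat_lit 0x101) (nat_lit 0) (p (nat_lit 0x111) (nat_lit 0) (p (nat_lit 0xd1) (nat_lit 1) (p (nat_lit 0x81) (nat_lit 0) (p (nat_lit 0x41) (nat_lit 1) (p (nat_lit 0x898a0b090a9a) (nat_lit 0) (p (nat_lit 0x9098a888a1a) (nat_lit 0) (p (nat_lit 0x88890a08079a) (nat_lit 0) (p (nat_lit 0x8088987871a) (nat_lit 0) (p (nat_lit 0x80000800078907088a) (nat_lit 0) (p (nat_lit 0x80000800070886860a) (nat_lit 0) (p (nat_lit 0x8708060782) (nat_lit 0) (p (nat_lit 0x687858702) (nat_lit 0) (p (nat_lit 0x8607050482) (nat_lit 0) (p (nat_lit 0x586848402) (nat_lit 0) (p (nat_lit 0x160014) (nat_lit 0) (p (nat_lit 0x50612) (nat_lit 0) (p (nat_lit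 0x40592) (nat_lit 0) (p (nat_lit 0x40492) (nat_lit 0) (p (nat_lit 0x30412) (nat_lit 0) (p (nat_lit 0x30212) (nat_lit 0) (p (nat_lit 0x20192) (nat_lit 0) (p (nat_lit 0x20092) (nat_lit 0) (p (nat_lit 0x10012) (nat_lit 0) pn)))))))))))))))))))))))))))))))) :=
  Cl.node (nat_lit 0xd1) (nat_lit 2) (by decide +kernel) (ClAll.succ (ClAll.succ ClAll.zero s268) n65)

def n96 : Cl (O (nat_lit 3)) (R (nat_lit 102673))
    (p (nat_lit 0xc1) (nat_lit 1) (p (nat_lit 0xb0014) (nat_lit 0) (p (nat_lit 0x119) (nat_lit 1) (p (nat_lit 0x20000c) (nat_lit 0) (p (nat_lit 0x200004) (nat_lit 0) (p (nat_lit 0xc9) (nat_lit 0) (p (nat_lit 0x89) (nat_lit 1) (p (nat_lit 0x109) (nat_lit 1) (p (nat_lit 0x101) (nat_lit 0) (p (nat_lit 0x111) (nat_lit 0) (p (nat_lit 0xd1) (nat_lit 1) (p (nat_lit 0x81) (nat_lit 0) (p (nat_lit 0x41) (nat_lit 1) (p (nat_lit 0x898a0b090a9a) (nat_lit 0) (p (nat_lit 0x9098a888a1a)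 (nat_lit 0) (p (nat_lit 0x88890a08079a) (nat_lit 0) (p (nat_lit 0x8088987871a) (nat_lit 0) (p (nat_lit 0x80000800078907088a) (nat_lit 0) (p (nat_lit 0x80000800070886860a) (nat_lit 0) (p (nat_lit 0x8708060782) (nat_lit 0) (p (nat_lit 0x687858702) (nat_lit 0) (p (nat_lit 0x8607050482) (nat_lit 0) (p (nat_lit 0x586848402) (nat_lit 0) (p (nat_lit 0x160014) (nat_lit 0) (p (nat_lit 0x50612) (nat_lit 0) (p (nat_lit 0x40592) (nat_lit 0) (p (nat_lit 0x40492) (nat_lit 0) (p (nat_lit 0x30412) (nat_lit 0) (p (nat_lit 0x30212) (nat_lit 0) (p (nat_lit 0x20192) (nat_lit 0) (p (nat_lit 0x20092) (nat_lit 0) (p (nat_lit 0x10012) (nat_lit 0) pn)))))))))))))))))))))))))))))))) :=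
  Cl.node (nat_lit 0x41) (nat_lit 2) (by decide +kernel) (ClAll.succ (ClAll.succ ClAll.zero n66) s275)

def n97 : Cl (O (nat_lit 3)) (R (nat_lit 102673))
    (p (nat_lit 0x8b8c0d0b0a9a) (nat_lit 0) (p (nat_lit 0xb0b8c8a8a1a) (nat_lit 0) (p (nat_lit 0x2a825aa8258a8c0a0b8a) (nat_lit 0) (p (nat_lit 0x2a825aa8258a0b89890a) (nat_lit 0) (p (nat_lit 0xb0014) (nat_lit 1) (p (nat_lit 0x20000c) (nat_lit 0) (p (nat_lit 0x200004) (nat_lit 0) (p (nat_lit 0x89) (nat_lit 0) (p (nat_lit 0x101) (nat_lit 1) (p (nat_lit 0x111) (nat_lit 0) (p (nat_lit 0xd1) (nat_lit 1) (p (nat_lit 0x81) (nat_lit 0) (p (nat_lit 0x41) (nat_lit 1) (p (nat_lit 0x898a0b090a9a) (nat_lit 0) (p (nat_lit 0x9098a888a1a) (nat_lit 0) (p (nat_lit 0x88890a08079a) (nat_lit 0) (p (nat_lit 0x8088987871a) (nat_lit 0) (p (nat_lit 0x80000800078907088a) (nat_lit 0) (p (nat_lit 0x80000800070886860a) (nat_lit 0) (p (nat_lit 0x8708060782)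 (nat_lit 0) (p (nat_lit 0x687858702) (nat_lit 0) (p (nat_lit 0x8607050482) (nat_lit 0) (p (nat_lit 0x586848402) (nat_lit 0) (p (nat_lit 0x160014) (nat_lit 0) (p (nat_lit 0x50612) (nat_lit 0) (p (nat_lit 0x40592) (nat_lit 0) (p (nat_lit 0x40492) (nat_lit 0) (p (nat_lit 0x30412) (nat_lit 0) (p (nat_lit 0x30212) (nat_lit 0) (p (nat_lit 0x20192) (nat_lit 0) (p (nat_lit 0x20092) (nat_lit 0) (p (nat_lit 0x10012) (nat_lit 0) pn)))))))))))))))))))))))))))))))) :=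
  Cl.node (nat_lit 0xc0c8d8b8d1a) (nat_lit 1) (by decide +kernel) (ClAll.succ ClAll.zero n67)

def n98 : Cl (O (nat_lit 3)) (R (nat_lit 102673))
    (p (nat_lit 0x109) (nat_lit 1) (p (nat_lit 0x101) (nat_lit 0) (p (nat_lit 0x119) (nat_lit 0) (p (nat_lit 0xb0014) (nat_lit 0) (p (nat_lit 0x20000c) (nat_lit 0) (p (nat_lit 0x200004) (nat_lit 0) (p (nat_lit 0xc9) (nat_lit 0) (p (nat_lit 0x89) (nat_lit 1) (p (nat_lit 0x101) (nat_lit 1) (p (nat_lit 0x111) (nat_lit 0) (p (nat_lit 0xd1) (nat_lit 1) (p (nat_lit 0x81) (nat_lit 0) (p (nat_lit 0x41) (nat_lit 1) (p (nat_lit 0x898a0b090a9a) (nat_lit 0) (p (nat_lit 0x9098a888a1a) (nat_lit 0) (p (nat_lit 0x88890a08079a) (nat_lit 0) (p (nat_lit 0x8088987871a) (nat_lit 0) (p (nat_lit 0x80000800078907088a) (nat_lit 0) (p (nat_lit 0x80000800070886860a) (nat_lit 0) (p (nat_lit 0x8708060782) (nat_lit 0) (p (nat_lit 0x687858702) (nat_lit 0) (p (nat_lit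 0x8607050482) (nat_lit 0) (p (nat_lit 0x586848402) (nat_lit 0) (p (nat_lit 0x160014) (nat_lit 0) (p (nat_lit 0x50612) (nat_lit 0) (p (nat_lit 0x40592) (nat_lit 0) (p (nat_lit 0x40492) (nat_lit 0) (p (nat_lit 0x30412) (nat_lit 0) (p (nat_lit 0x30212) (nat_lit 0) (p (nat_lit 0x20192) (nat_lit 0) (p (nat_lit 0x20092) (nat_lit 0) (p (nat_lit 0x10012) (nat_lit 0) pn)))))))))))))))))))))))))))))))) :=
  Cl.node (nat_lit 0x100004) (nat_lit 2) (by decide +kernel) (ClAll.succ (ClAll.succ ClAll.zero n68) s293)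

def n99 : Cl (O (nat_lit 3)) (R (nat_lit 102673))
    (p (nat_lit 0xc1) (nat_lit 0) (p (nat_lit 0x101) (nat_lit 1) (p (nat_lit 0x119) (nat_lit 0) (p (nat_lit 0xb0014) (nat_lit 0) (p (nat_lit 0x20000c) (nat_lit 0) (p (nat_lit 0x200004) (nat_lit 0) (p (nat_lit 0xc9) (nat_lit 0) (p (nat_lit 0x89) (nat_lit 1) (p (nat_lit 0x101) (nat_lit 1) (p (nat_lit 0x111) (nat_lit 0) (p (nat_lit 0xd1) (nat_lit 1) (p (nat_lit 0x81) (nat_lit 0) (p (nat_lit 0x41) (nat_lit 1) (p (nat_lit 0x898a0b090a9a) (nat_lit 0) (p (nat_lit 0x9098a888a1a) (nat_lit 0) (p (nat_lit 0x88890a08079a) (nat_lit 0) (p (nat_lit 0x8088987871a) (nat_lit 0) (p (nat_lit 0x80000800078907088a) (nat_lit 0) (p (nat_lit 0x80000800070886860a) (nat_lit 0) (p (nat_lit 0x8708060782) (nat_lit 0) (p (nat_lit 0x687858702) (nat_lit 0) (p (nat_lit 0x8607050482) (nat_lit 0) (p (nat_lit 0x586848402) (nat_lit 0) (p (nat_lit 0x160014) (nat_lit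 0) (p (nat_lit 0x50612) (nat_lit 0) (p (nat_lit 0x40592) (nat_lit 0) (p (nat_lit 0x40492) (nat_lit 0) (p (nat_lit 0x30412) (nat_lit 0) (p (nat_lit 0x30212) (nat_lit 0) (p (nat_lit 0x20192) (nat_lit 0) (p (nat_lit 0x20092) (nat_lit 0) (p (nat_lit 0x10012) (nat_lit 0) pn)))))))))))))))))))))))))))))))) :=
  Cl.node (nat_lit 0x100004) (nat_lit 2) (by decide +kernel) (ClAll.succ (ClAll.succ ClAll.zero s294) s295)

def n100 : Cl (O (nat_lit 3)) (R (nat_lit 102673))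
    (p (nat_lit 0xd1) (nat_lit 1) (p (nat_lit 0xc1) (nat_lit 0) (p (nat_lit 0x119) (nat_lit 1) (p (nat_lit 0xb0014) (nat_lit 0) (p (nat_lit 0x20000c) (nat_lit 0) (p (nat_lit 0x200004) (nat_lit 0) (p (nat_lit 0xc9) (nat_lit 0) (p (nat_lit 0x89) (nat_lit 1) (p (nat_lit 0x101) (nat_lit 1) (p (nat_lit 0x111) (nat_lit 0) (p (nat_lit 0xd1) (nat_lit 1) (p (nat_lit 0x81) (nat_lit 0) (p (nat_lit 0x41) (nat_lit 1) (p (nat_lit 0x898a0b090a9a) (nat_lit 0) (p (nat_lit 0x9098a888a1a) (nat_lit 0) (p (nat_lit 0x88890a08079a) (nat_lit 0) (p (nat_lit 0x8088987871a) (nat_lit 0) (p (nat_lit 0x80000800078907088a) (nat_lit 0) (p (nat_lit 0x80000800070886860a) (nat_lit 0) (p (nat_lit 0x8708060782) (nat_lit 0) (p (nat_lit 0x687858702) (nat_lit 0) (p (nat_lit 0x8607050482) (nat_lit 0) (p (nat_lit 0x586848402) (nat_lit 0) (p (nat_lit 0x160014) (nat_lit 0) (p (nat_lit 0x50612) (nat_lit 0) (p (nat_lit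 0x40592) (nat_lit 0) (p (nat_lit 0x40492) (nat_lit 0) (p (nat_lit 0x30412) (nat_lit 0) (p (nat_lit 0x30212) (nat_lit 0) (p (nat_lit 0x20192) (nat_lit 0) (p (nat_lit 0x20092) (nat_lit 0) (p (nat_lit 0x10012) (nat_lit 0) pn)))))))))))))))))))))))))))))))) :=
  Cl.node (nat_lit 0x81) (nat_lit 2) (by decide +kernel) (ClAll.succ (ClAll.succ ClAll.zero s298) s299)

def n101 : Cl (O (nat_lit 3)) (R (nat_lit 102673))
    (p (nat_lit 0x101) (nat_lit 0) (p (nat_lit 0xc1) (nat_lit 1) (p (nat_lit 0x119) (nat_lit 1) (p (nat_lit 0xb0014) (nat_lit 0) (p (nat_lit 0x20000c) (nat_lit 0) (p (nat_lit 0x200004) (nat_lit 0) (p (nat_lit 0xc9) (nat_lit 0) (p (nat_lit 0x89) (nat_lit 1) (p (nat_lit 0x101) (nat_lit 1) (p (nat_lit 0x111) (nat_lit 0) (p (nat_lit 0xd1) (nat_lit 1) (p (nat_lit 0x81) (nat_lit 0) (p (nat_lit 0x41) (nat_lit 1) (p (nat_lit 0x898a0b090a9a) (nat_lit 0) (p (nat_lit 0x9098a888a1a)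 (nat_lit 0) (p (nat_lit 0x88890a08079a) (nat_lit 0) (p (nat_lit 0x8088987871a) (nat_lit 0) (p (nat_lit 0x80000800078907088a) (nat_lit 0) (p (nat_lit 0x80000800070886860a) (nat_lit 0) (p (nat_lit 0x8708060782) (nat_lit 0) (p (nat_lit 0x687858702) (nat_lit 0) (p (nat_lit 0x8607050482) (nat_lit 0) (p (nat_lit 0x586848402) (nat_lit 0) (p (nat_lit 0x160014) (nat_lit 0) (p (nat_lit 0x50612) (nat_lit 0) (p (nat_lit 0x40592) (nat_lit 0) (p (nat_lit 0x40492) (nat_lit 0) (p (nat_lit 0x30412) (nat_lit 0) (p (nat_lit 0x30212) (nat_lit 0) (p (nat_lit 0x20192) (nat_lit 0) (p (nat_lit 0x20092) (nat_lit 0) (p (nat_lit 0x10012) (nat_lit 0) pn)))))))))))))))))))))))))))))))) :=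
  Cl.node (nat_lit 0xd1) (nat_lit 2) (by decide +kernel) (ClAll.succ (ClAll.succ ClAll.zero s300) n69)

def n102 : Cl (O (nat_lit 3)) (R (nat_lit 102673))
    (p (nat_lit 0xb0b8c8a8a1a) (nat_lit 0) (p (nat_lit 0x2a825aa8258a8c0a0b8a) (nat_lit 0) (p (nat_lit 0x2a825aa8258a0b89890a) (nat_lit 0) (p (nat_lit 0xb0014) (nat_lit 1) (p (nat_lit 0x20000c) (nat_lit 0) (p (nat_lit 0x200004) (nat_lit 0) (p (nat_lit 0xc9) (nat_lit 0) (p (nat_lit 0x89) (nat_lit 1) (p (nat_lit 0x101) (nat_lit 1) (p (nat_lit 0x111) (nat_lit 0) (p (nat_lit 0xd1) (nat_lit 1) (p (nat_lit 0x81) (nat_lit 0) (p (nat_lit 0x41) (nat_lit 1) (p (nat_lit 0x898a0b090a9a) (nat_lit 0) (p (nat_lit 0x9098a888a1a) (nat_lit 0) (p (nat_lit 0x88890a08079a) (nat_lit 0) (p (nat_lit 0x8088987871a) (nat_lit 0) (p (nat_lit 0x80000800078907088a) (nat_lit 0) (p (nat_lit 0x80000800070886860a) (nat_lit 0) (p (nat_lit 0x8708060782) (nat_lit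 0) (p (nat_lit 0x687858702) (nat_lit 0) (p (nat_lit 0x8607050482) (nat_lit 0) (p (nat_lit 0x586848402) (nat_lit 0) (p (nat_lit 0x160014) (nat_lit 0) (p (nat_lit 0x50612) (nat_lit 0) (p (nat_lit 0x40592) (nat_lit 0) (p (nat_lit 0x40492) (nat_lit 0) (p (nat_lit 0x30412) (nat_lit 0) (p (nat_lit 0x30212) (nat_lit 0) (p (nat_lit 0x20192) (nat_lit 0) (p (nat_lit 0x20092) (nat_lit 0) (p (nat_lit 0x10012) (nat_lit 0) pn)))))))))))))))))))))))))))))))) :=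
  Cl.node (nat_lit 0x8b8c0d0b0a9a) (nat_lit 1) (by decide +kernel) (ClAll.succ ClAll.zero n70)

def n103 : Cl (O (nat_lit 3)) (R (nat_lit 102673))
    (p (nat_lit 0x109) (nat_lit 0) (p (nat_lit 0xb0014) (nat_lit 0) (p (nat_lit 0x111) (nat_lit 0) (p (nat_lit 0x20000c) (nat_lit 0) (p (nat_lit 0x200004) (nat_lit 0) (p (nat_lit 0xc9) (nat_lit 1) (p (nat_lit 0x81) (nat_lit 0) (p (nat_lit 0x101) (nat_lit 1) (p (nat_lit 0x119) (nat_lit 0) (p (nat_lit 0xd1) (nat_lit 0) (p (nat_lit 0x89) (nat_lit 0) (p (nat_lit 0x41) (nat_lit 0) (p (nat_lit 0x898a0b090a9a) (nat_lit 0) (p (nat_lit 0x9098a888a1a) (nat_lit 0) (p (nat_lit 0x88890a08079a) (nat_lit 0) (p (nat_lit 0x8088987871a) (nat_lit 0) (p (nat_lit 0x80000800078907088a) (nat_lit 0) (p (nat_lit 0x80000800070886860a) (nat_lit 0) (p (nat_lit 0x8708060782) (nat_lit 0) (p (nat_lit 0x687858702) (nat_lit 0) (p (nat_lit 0x8607050482) (nat_lit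 0) (p (nat_lit 0x586848402) (nat_lit 0) (p (nat_lit 0x160014) (nat_lit 0) (p (nat_lit 0x50612) (nat_lit 0) (p (nat_lit 0x40592) (nat_lit 0) (p (nat_lit 0x40492) (nat_lit 0) (p (nat_lit 0x30412) (nat_lit 0) (p (nat_lit 0x30212) (nat_lit 0) (p (nat_lit 0x20192) (nat_lit 0) (p (nat_lit 0x20092) (nat_lit 0) (p (nat_lit 0x10012) (nat_lit 0) pn))))))))))))))))))))))))))))))) :=
  Cl.node (nat_lit 0x101) (nat_lit 2) (by decide +kernel) (ClAll.succ (ClAll.succ ClAll.zero s12) n71)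

def n104 : Cl (O (nat_lit 3)) (R (nat_lit 102673))
    (p (nat_lit 0x109) (nat_lit 1) (p (nat_lit 0xb0014) (nat_lit 0) (p (nat_lit 0x111) (nat_lit 0) (p (nat_lit 0x20000c) (nat_lit 0) (p (nat_lit 0x200004) (nat_lit 0) (p (nat_lit 0xc9) (nat_lit 1) (p (nat_lit 0x81) (nat_lit 0) (p (nat_lit 0x101) (nat_lit 1) (p (nat_lit 0x119) (nat_lit 0) (p (nat_lit 0xd1) (nat_lit 0) (p (nat_lit 0x89) (nat_lit 0) (p (nat_lit 0x41) (nat_lit 0) (p (nat_lit 0x898a0b090a9a) (nat_lit 0) (p (nat_lit 0x9098a888a1a) (nat_lit 0) (p (nat_lit 0x88890a08079a) (nat_lit 0) (p (nat_lit 0x8088987871a) (nat_lit 0) (p (nat_lit 0x80000800078907088a) (nat_lit 0) (p (nat_lit 0x80000800070886860a) (nat_lit 0) (p (nat_lit 0x8708060782) (nat_lit 0) (p (nat_lit 0x687858702) (nat_lit 0) (p (nat_lit 0x8607050482) (nat_lit 0) (p (nat_lit 0x586848402) (nat_lit 0) (p (nat_lit 0x160014) (nat_lit 0) (p (nat_lit 0x50612)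 (nat_lit 0) (p (nat_lit 0x40592) (nat_lit 0) (p (nat_lit 0x40492) (nat_lit 0) (p (nat_lit 0x30412) (nat_lit 0) (p (nat_lit 0x30212) (nat_lit 0) (p (nat_lit 0x20192) (nat_lit 0) (p (nat_lit 0x20092) (nat_lit 0) (p (nat_lit 0x10012) (nat_lit 0) pn))))))))))))))))))))))))))))))) :=
  Cl.node (nat_lit 0x89) (nat_lit 2) (by decide +kernel) (ClAll.succ (ClAll.succ ClAll.zero n72) n73)

def n105 : Cl (O (nat_lit 3)) (R (nat_lit 102673))
    (p (nat_lit 0x2a825aa8258a0b89890a) (nat_lit 0) (p (nat_lit 0xb0014) (nat_lit 1) (p (nat_lit 0x111) (nat_lit 0) (p (nat_lit 0x20000c) (nat_lit 0) (p (nat_lit 0x200004) (nat_lit 0) (p (nat_lit 0xc9) (nat_lit 1) (p (nat_lit 0x81) (nat_lit 0) (p (nat_lit 0x101) (nat_lit 1) (p (nat_lit 0x119) (nat_lit 0) (p (nat_lit 0xd1) (nat_lit 0) (p (nat_lit 0x89) (nat_lit 0) (p (nat_lit 0x41) (nat_lit 0) (p (nat_lit 0x898a0b090a9a) (nat_lit 0) (p (nat_lit 0x9098a888a1a)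 (nat_lit 0) (p (nat_lit 0x88890a08079a) (nat_lit 0) (p (nat_lit 0x8088987871a) (nat_lit 0) (p (nat_lit 0x80000800078907088a) (nat_lit 0) (p (nat_lit 0x80000800070886860a) (nat_lit 0) (p (nat_lit 0x8708060782) (nat_lit 0) (p (nat_lit 0x687858702) (nat_lit 0) (p (nat_lit 0x8607050482) (nat_lit 0) (p (nat_lit 0x586848402) (nat_lit 0) (p (nat_lit 0x160014) (nat_lit 0) (p (nat_lit 0x50612) (nat_lit 0) (p (nat_lit 0x40592) (nat_lit 0) (p (nat_lit 0x40492) (nat_lit 0) (p (nat_lit 0x30412) (nat_lit 0) (p (nat_lit 0x30212) (nat_lit 0) (p (nat_lit 0x20192) (nat_lit 0) (p (nat_lit 0x20092) (nat_lit 0) (p (nat_lit 0x10012) (nat_lit 0) pn))))))))))))))))))))))))))))))) :=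
  Cl.node (nat_lit 0x2a825aa8258a8c0a0b8a) (nat_lit 1) (by decide +kernel) (ClAll.succ ClAll.zero n74)

def n106 : Cl (O (nat_lit 3)) (R (nat_lit 102673))
    (p (nat_lit 0x109) (nat_lit 0) (p (nat_lit 0xb0014) (nat_lit 0) (p (nat_lit 0x20000c) (nat_lit 0) (p (nat_lit 0x200004) (nat_lit 0) (p (nat_lit 0xc9) (nat_lit 1) (p (nat_lit 0xc1) (nat_lit 0) (p (nat_lit 0x81) (nat_lit 1) (p (nat_lit 0x101) (nat_lit 1) (p (nat_lit 0x119) (nat_lit 0) (p (nat_lit 0xd1) (nat_lit 0) (p (nat_lit 0x89) (nat_lit 0) (p (nat_lit 0x41) (nat_lit 0) (p (nat_lit 0x898a0b090a9a) (nat_lit 0) (p (nat_lit 0x9098a888a1a) (nat_lit 0) (p (nat_lit 0x88890a08079a) (nat_lit 0) (p (nat_lit 0x8088987871a) (nat_lit 0) (p (nat_lit 0x80000800078907088a) (nat_lit 0) (p (nat_lit 0x80000800070886860a) (nat_lit 0) (p (nat_lit 0x8708060782) (nat_lit 0) (p (nat_lit 0x687858702) (nat_lit 0) (p (nat_lit 0x8607050482)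 (nat_lit 0) (p (nat_lit 0x586848402) (nat_lit 0) (p (nat_lit 0x160014) (nat_lit 0) (p (nat_lit 0x50612) (nat_lit 0) (p (nat_lit 0x40592) (nat_lit 0) (p (nat_lit 0x40492) (nat_lit 0) (p (nat_lit 0x30412) (nat_lit 0) (p (nat_lit 0x30212) (nat_lit 0) (p (nat_lit 0x20192) (nat_lit 0) (p (nat_lit 0x20092) (nat_lit 0) (p (nat_lit 0x10012) (nat_lit 0) pn))))))))))))))))))))))))))))))) :=
  Cl.node (nat_lit 0x111) (nat_lit 2) (by decide +kernel) (ClAll.succ (ClAll.succ ClAll.zero s32) n75)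

def n107 : Cl (O (nat_lit 3)) (R (nat_lit 102673))
    (p (nat_lit 0x109) (nat_lit 1) (p (nat_lit 0xb0014) (nat_lit 0) (p (nat_lit 0x20000c) (nat_lit 0) (p (nat_lit 0x200004) (nat_lit 0) (p (nat_lit 0xc9) (nat_lit 1) (p (nat_lit 0xc1) (nat_lit 0) (p (nat_lit 0x81) (nat_lit 1) (p (nat_lit 0x101) (nat_lit 1) (p (nat_lit 0x119) (nat_lit 0) (p (nat_lit 0xd1) (nat_lit 0) (p (nat_lit 0x89) (nat_lit 0) (p (nat_lit 0x41) (nat_lit 0) (p (nat_lit 0x898a0b090a9a) (nat_lit 0) (p (nat_lit 0x9098a888a1a) (nat_lit 0) (p (nat_lit 0x88890a08079a) (nat_lit 0) (p (nat_lit 0x8088987871a) (nat_lit 0) (p (nat_lit 0x80000800078907088a) (nat_lit 0) (p (nat_lit 0x80000800070886860a) (nat_lit 0) (p (nat_lit 0x8708060782) (nat_lit 0) (p (nat_lit 0x687858702) (nat_lit 0) (p (nat_lit 0x8607050482) (nat_lit 0) (p (nat_lit 0x586848402) (nat_lit 0) (p (nat_lit 0x160014) (nat_lit 0) (p (nat_lit 0x50612)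 (nat_lit 0) (p (nat_lit 0x40592) (nat_lit 0) (p (nat_lit 0x40492) (nat_lit 0) (p (nat_lit 0x30412) (nat_lit 0) (p (nat_lit 0x30212) (nat_lit 0) (p (nat_lit 0x20192) (nat_lit 0) (p (nat_lit 0x20092) (nat_lit 0) (p (nat_lit 0x10012) (nat_lit 0) pn))))))))))))))))))))))))))))))) :=
  Cl.node (nat_lit 0x41) (nat_lit 2) (by decide +kernel) (ClAll.succ (ClAll.succ ClAll.zero n76) n77)

def n108 : Cl (O (nat_lit 3)) (R (nat_lit 102673))
    (p (nat_lit 0x2a825aa8258a0b89890a) (nat_lit 0) (p (nat_lit 0xb0014) (nat_lit 1) (p (nat_lit 0x20000c) (nat_lit 0) (p (nat_lit 0x200004) (nat_lit 0) (p (nat_lit 0xc9) (nat_lit 1) (p (nat_lit 0xc1) (nat_lit 0) (p (nat_lit 0x81) (nat_lit 1) (p (nat_lit 0x101) (nat_lit 1) (p (nat_lit 0x119) (nat_lit 0) (p (nat_lit 0xd1) (nat_lit 0) (p (nat_lit 0x89) (nat_lit 0) (p (nat_lit 0x41) (nat_lit 0) (p (nat_lit 0x898a0b090a9a) (nat_lit 0) (p (nat_lit 0x9098a888a1a)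 (nat_lit 0) (p (nat_lit 0x88890a08079a) (nat_lit 0) (p (nat_lit 0x8088987871a) (nat_lit 0) (p (nat_lit 0x80000800078907088a) (nat_lit 0) (p (nat_lit 0x80000800070886860a) (nat_lit 0) (p (nat_lit 0x8708060782) (nat_lit 0) (p (nat_lit 0x687858702) (nat_lit 0) (p (nat_lit 0x8607050482) (nat_lit 0) (p (nat_lit 0x586848402) (nat_lit 0) (p (nat_lit 0x160014) (nat_lit 0) (p (nat_lit 0x50612) (nat_lit 0) (p (nat_lit 0x40592) (nat_lit 0) (p (nat_lit 0x40492) (nat_lit 0) (p (nat_lit 0x30412) (nat_lit 0) (p (nat_lit 0x30212) (nat_lit 0) (p (nat_lit 0x20192) (nat_lit 0) (p (nat_lit 0x20092) (nat_lit 0) (p (nat_lit 0x10012) (nat_lit 0) pn))))))))))))))))))))))))))))))) :=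
  Cl.node (nat_lit 0x2a825aa8258a8c0a0b8a) (nat_lit 1) (by decide +kernel) (ClAll.succ ClAll.zero n78)

def n109 : Cl (O (nat_lit 3)) (R (nat_lit 102673))
    (p (nat_lit 0xc9) (nat_lit 1) (p (nat_lit 0xb0014) (nat_lit 0) (p (nat_lit 0x20000c) (nat_lit 0) (p (nat_lit 0x200004) (nat_lit 0) (p (nat_lit 0x109) (nat_lit 1) (p (nat_lit 0x101) (nat_lit 0) (p (nat_lit 0x81) (nat_lit 1) (p (nat_lit 0xc1) (nat_lit 1) (p (nat_lit 0x119) (nat_lit 1) (p (nat_lit 0xd1) (nat_lit 0) (p (nat_lit 0x89) (nat_lit 0) (p (nat_lit 0x41) (nat_lit 0) (p (nat_lit 0x898a0b090a9a) (nat_lit 0) (p (nat_lit 0x9098a888a1a) (nat_lit 0) (p (nat_lit 0x88890a08079a) (nat_lit 0) (p (nat_lit 0x8088987871a) (nat_lit 0) (p (nat_lit 0x80000800078907088a) (nat_lit 0) (p (nat_lit 0x80000800070886860a) (nat_lit 0) (p (nat_lit 0x8708060782) (nat_lit 0) (p (nat_lit 0x687858702) (nat_lit 0) (p (nat_lit 0x8607050482)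 (nat_lit 0) (p (nat_lit 0x586848402) (nat_lit 0) (p (nat_lit 0x160014) (nat_lit 0) (p (nat_lit 0x50612) (nat_lit 0) (p (nat_lit 0x40592) (nat_lit 0) (p (nat_lit 0x40492) (nat_lit 0) (p (nat_lit 0x30412) (nat_lit 0) (p (nat_lit 0x30212) (nat_lit 0) (p (nat_lit 0x20192) (nat_lit 0) (p (nat_lit 0x20092) (nat_lit 0) (p (nat_lit 0x10012) (nat_lit 0) pn))))))))))))))))))))))))))))))) :=
  Cl.node (nat_lit 0x41) (nat_lit 2) (by decide +kernel) (ClAll.succ (ClAll.succ ClAll.zero s63) s64)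

def n110 : Cl (O (nat_lit 3)) (R (nat_lit 102673))
    (p (nat_lit 0x2a825aa8258a0b89890a) (nat_lit 0) (p (nat_lit 0xb0014) (nat_lit 1) (p (nat_lit 0x20000c) (nat_lit 0) (p (nat_lit 0x200004) (nat_lit 0) (p (nat_lit 0x109) (nat_lit 1) (p (nat_lit 0x101) (nat_lit 0) (p (nat_lit 0x81) (nat_lit 1) (p (nat_lit 0xc1) (nat_lit 1) (p (nat_lit 0x119) (nat_lit 1) (p (nat_lit 0xd1) (nat_lit 0) (p (nat_lit 0x89) (nat_lit 0) (p (nat_lit 0x41) (nat_lit 0) (p (nat_lit 0x898a0b090a9a) (nat_lit 0) (p (nat_lit 0x9098a888a1a) (nat_lit 0) (p (nat_lit 0x88890a08079a) (nat_lit 0) (p (nat_lit 0x8088987871a) (nat_lit 0) (p (nat_lit 0x80000800078907088a) (nat_lit 0) (p (nat_lit 0x80000800070886860a) (nat_lit 0) (p (nat_lit 0x8708060782) (nat_lit 0) (p (nat_lit 0x687858702) (nat_lit 0) (p (nat_lit 0x8607050482) (nat_lit 0) (p (nat_lit 0x586848402) (nat_lit 0) (p (nat_lit 0x160014) (nat_lit 0) (p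 (nat_lit 0x50612) (nat_lit 0) (p (nat_lit 0x40592) (nat_lit 0) (p (nat_lit 0x40492) (nat_lit 0) (p (nat_lit 0x30412) (nat_lit 0) (p (nat_lit 0x30212) (nat_lit 0) (p (nat_lit 0x20192) (nat_lit 0) (p (nat_lit 0x20092) (nat_lit 0) (p (nat_lit 0x10012) (nat_lit 0) pn))))))))))))))))))))))))))))))) :=
  Cl.node (nat_lit 0x2a825aa8258a8c0a0b8a) (nat_lit 1) (by decide +kernel) (ClAll.succ ClAll.zero n79)

def n111 : Cl (O (nat_lit 3)) (R (nat_lit 102673))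
    (p (nat_lit 0x109) (nat_lit 0) (p (nat_lit 0xb0014) (nat_lit 0) (p (nat_lit 0x119) (nat_lit 0) (p (nat_lit 0x20000c) (nat_lit 0) (p (nat_lit 0x200004) (nat_lit 0) (p (nat_lit 0xc1) (nat_lit 0) (p (nat_lit 0x81) (nat_lit 1) (p (nat_lit 0x101) (nat_lit 1) (p (nat_lit 0x111) (nat_lit 0) (p (nat_lit 0xd1) (nat_lit 1) (p (nat_lit 0x89) (nat_lit 0) (p (nat_lit 0x41) (nat_lit 0) (p (nat_lit 0x898a0b090a9a) (nat_lit 0) (p (nat_lit 0x9098a888a1a) (nat_lit 0) (p (nat_lit 0x88890a08079a) (nat_lit 0) (p (nat_lit 0x8088987871a) (nat_lit 0) (p (nat_lit 0x80000800078907088a) (nat_lit 0) (p (nat_lit 0x80000800070886860a) (nat_lit 0) (p (nat_lit 0x8708060782) (nat_lit 0) (p (nat_lit 0x687858702) (nat_lit 0) (p (nat_lit 0x8607050482) (nat_lit 0) (p (nat_lit 0x586848402) (nat_lit 0) (p (nat_lit 0x160014) (nat_lit 0) (p (nat_lit 0x50612) (nat_lit 0) (p (nat_lit 0x40592) (nat_lit 0) (p (nat_lit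 0x40492) (nat_lit 0) (p (nat_lit 0x30412) (nat_lit 0) (p (nat_lit 0x30212) (nat_lit 0) (p (nat_lit 0x20192) (nat_lit 0) (p (nat_lit 0x20092) (nat_lit 0) (p (nat_lit 0x10012) (nat_lit 0) pn))))))))))))))))))))))))))))))) :=
  Cl.node (nat_lit 0x101) (nat_lit 2) (by decide +kernel) (ClAll.succ (ClAll.succ ClAll.zero s85) n80)

def n112 : Cl (O (nat_lit 3)) (R (nat_lit 102673))
    (p (nat_lit 0x109) (nat_lit 1) (p (nat_lit 0xb0014) (nat_lit 0) (p (nat_lit 0x119) (nat_lit 0) (p (nat_lit 0x20000c) (nat_lit 0) (p (nat_lit 0x200004) (nat_lit 0) (p (nat_lit 0xc1) (nat_lit 0) (p (nat_lit 0x81) (nat_lit 1) (p (nat_lit 0x101) (nat_lit 1) (p (nat_lit 0x111) (nat_lit 0) (p (nat_lit 0xd1) (nat_lit 1) (p (nat_lit 0x89) (nat_lit 0) (p (nat_lit 0x41) (nat_lit 0) (p (nat_lit 0x898a0b090a9a) (nat_lit 0) (p (nat_lit 0x9098a888a1a) (nat_lit 0) (p (nat_lit 0x88890a08079a) (nat_lit 0) (p (nat_lit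 0x8088987871a) (nat_lit 0) (p (nat_lit 0x80000800078907088a) (nat_lit 0) (p (nat_lit 0x80000800070886860a) (nat_lit 0) (p (nat_lit 0x8708060782) (nat_lit 0) (p (nat_lit 0x687858702) (nat_lit 0) (p (nat_lit 0x8607050482) (nat_lit 0) (p (nat_lit 0x586848402) (nat_lit 0) (p (nat_lit 0x160014) (nat_lit 0) (p (nat_lit 0x50612) (nat_lit 0) (p (nat_lit 0x40592) (nat_lit 0) (p (nat_lit 0x40492) (nat_lit 0) (p (nat_lit 0x30412) (nat_lit 0) (p (nat_lit 0x30212) (nat_lit 0) (p (nat_lit 0x20192) (nat_lit 0) (p (nat_lit 0x20092) (nat_lit 0) (p (nat_lit 0x10012) (nat_lit 0) pn))))))))))))))))))))))))))))))) :=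
  Cl.node (nat_lit 0xc9) (nat_lit 2) (by decide +kernel) (ClAll.succ (ClAll.succ ClAll.zero n81) s95)

def n113 : Cl (O (nat_lit 3)) (R (nat_lit 102673))
    (p (nat_lit 0xc9) (nat_lit 0) (p (nat_lit 0xb0014) (nat_lit 0) (p (nat_lit 0x119) (nat_lit 1) (p (nat_lit 0x20000c) (nat_lit 0) (p (nat_lit 0x200004) (nat_lit 0) (p (nat_lit 0xc1) (nat_lit 0) (p (nat_lit 0x81) (nat_lit 1) (p (nat_lit 0x101) (nat_lit 1) (p (nat_lit 0x111) (nat_lit 0) (p (nat_lit 0xd1) (nat_lit 1) (p (nat_lit 0x89) (nat_lit 0) (p (nat_lit 0x41) (nat_lit 0) (p (nat_lit 0x898a0b090a9a) (nat_lit 0) (p (nat_lit 0x9098a888a1a) (nat_lit 0) (p (nat_lit 0x88890a08079a) (nat_lit 0) (p (nat_lit 0x8088987871a) (nat_lit 0) (p (nat_lit 0x80000800078907088a) (nat_lit 0) (p (nat_lit 0x80000800070886860a) (nat_lit 0) (p (nat_lit 0x8708060782) (nat_lit 0) (p (nat_lit 0x687858702) (nat_lit 0) (p (nat_lit 0x8607050482) (nat_lit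 0) (p (nat_lit 0x586848402) (nat_lit 0) (p (nat_lit 0x160014) (nat_lit 0) (p (nat_lit 0x50612) (nat_lit 0) (p (nat_lit 0x40592) (nat_lit 0) (p (nat_lit 0x40492) (nat_lit 0) (p (nat_lit 0x30412) (nat_lit 0) (p (nat_lit 0x30212) (nat_lit 0) (p (nat_lit 0x20192) (nat_lit 0) (p (nat_lit 0x20092) (nat_lit 0) (p (nat_lit 0x10012) (nat_lit 0) pn))))))))))))))))))))))))))))))) :=
  Cl.node (nat_lit 0xd1) (nat_lit 2) (by decide +kernel) (ClAll.succ (ClAll.succ ClAll.zero s97) n82)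

def n114 : Cl (O (nat_lit 3)) (R (nat_lit 102673))
    (p (nat_lit 0xc9) (nat_lit 1) (p (nat_lit 0xb0014) (nat_lit 0) (p (nat_lit 0x119) (nat_lit 1) (p (nat_lit 0x20000c) (nat_lit 0) (p (nat_lit 0x200004) (nat_lit 0) (p (nat_lit 0xc1) (nat_lit 0) (p (nat_lit 0x81) (nat_lit 1) (p (nat_lit 0x101) (nat_lit 1) (p (nat_lit 0x111) (nat_lit 0) (p (nat_lit 0xd1) (nat_lit 1) (p (nat_lit 0x89) (nat_lit 0) (p (nat_lit 0x41) (nat_lit 0) (p (nat_lit 0x898a0b090a9a) (nat_lit 0) (p (nat_lit 0x9098a888a1a) (nat_lit 0) (p (nat_lit 0x88890a08079a) (nat_lit 0) (p (nat_lit 0x8088987871a) (nat_lit 0) (p (nat_lit 0x80000800078907088a) (nat_lit 0) (p (nat_lit 0x80000800070886860a) (nat_lit 0) (p (nat_lit 0x8708060782) (nat_lit 0) (p (nat_lit 0x687858702) (nat_lit 0) (p (nat_lit 0x8607050482) (nat_lit 0) (p (nat_lit 0x586848402) (nat_lit 0) (p (nat_lit 0x160014) (nat_lit 0) (p (nat_lit 0x50612)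 (nat_lit 0) (p (nat_lit 0x40592) (nat_lit 0) (p (nat_lit 0x40492) (nat_lit 0) (p (nat_lit 0x30412) (nat_lit 0) (p (nat_lit 0x30212) (nat_lit 0) (p (nat_lit 0x20192) (nat_lit 0) (p (nat_lit 0x20092) (nat_lit 0) (p (nat_lit 0x10012) (nat_lit 0) pn))))))))))))))))))))))))))))))) :=
  Cl.node (nat_lit 0x109) (nat_lit 2) (by decide +kernel) (ClAll.succ (ClAll.succ ClAll.zero n83) s103)

def n115 : Cl (O (nat_lit 3)) (R (nat_lit 102673))
    (p (nat_lit 0x2a825aa8258a0b89890a) (nat_lit 0) (p (nat_lit 0xb0014) (nat_lit 1) (p (nat_lit 0x119) (nat_lit 1) (p (nat_lit 0x20000c) (nat_lit 0) (p (nat_lit 0x200004) (nat_lit 0) (p (nat_lit 0xc1) (nat_lit 0) (p (nat_lit 0x81) (nat_lit 1) (p (nat_lit 0x101) (nat_lit 1) (p (nat_lit 0x111) (nat_lit 0) (p (nat_lit 0xd1) (nat_lit 1) (p (nat_lit 0x89) (nat_lit 0) (p (nat_lit 0x41) (nat_lit 0) (p (nat_lit 0x898a0b090a9a) (nat_lit 0) (p (nat_lit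 0x9098a888a1a) (nat_lit 0) (p (nat_lit 0x88890a08079a) (nat_lit 0) (p (nat_lit 0x8088987871a) (nat_lit 0) (p (nat_lit 0x80000800078907088a) (nat_lit 0) (p (nat_lit 0x80000800070886860a) (nat_lit 0) (p (nat_lit 0x8708060782) (nat_lit 0) (p (nat_lit 0x687858702) (nat_lit 0) (p (nat_lit 0x8607050482) (nat_lit 0) (p (nat_lit 0x586848402) (nat_lit 0) (p (nat_lit 0x160014) (nat_lit 0) (p (nat_lit 0x50612) (nat_lit 0) (p (nat_lit 0x40592) (nat_lit 0) (p (nat_lit 0x40492) (nat_lit 0) (p (nat_lit 0x30412) (nat_lit 0) (p (nat_lit 0x30212) (nat_lit 0) (p (nat_lit 0x20192) (nat_lit 0) (p (nat_lit 0x20092) (nat_lit 0) (p (nat_lit 0x10012) (nat_lit 0) pn))))))))))))))))))))))))))))))) :=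
  Cl.node (nat_lit 0x2a825aa8258a8c0a0b8a) (nat_lit 1) (by decide +kernel) (ClAll.succ ClAll.zero n84)

def n116 : Cl (O (nat_lit 3)) (R (nat_lit 102673))
    (p (nat_lit 0x119) (nat_lit 1) (p (nat_lit 0x109) (nat_lit 0) (p (nat_lit 0xb0014) (nat_lit 0) (p (nat_lit 0x20000c) (nat_lit 0) (p (nat_lit 0x200004) (nat_lit 0) (p (nat_lit 0x101) (nat_lit 0) (p (nat_lit 0xc1) (nat_lit 1) (p (nat_lit 0x81) (nat_lit 1) (p (nat_lit 0x111) (nat_lit 1) (p (nat_lit 0xd1) (nat_lit 1) (p (nat_lit 0x89) (nat_lit 0) (p (nat_lit 0x41) (nat_lit 0) (p (nat_lit 0x898a0b090a9a) (nat_lit 0) (p (nat_lit 0x9098a888a1a) (nat_lit 0) (p (nat_lit 0x88890a08079a) (nat_lit 0) (p (nat_lit 0x8088987871a) (nat_lit 0) (p (nat_lit 0x80000800078907088a) (nat_lit 0) (p (nat_lit 0x80000800070886860a) (nat_lit 0) (p (nat_lit 0x8708060782) (nat_lit 0) (p (nat_lit 0x687858702) (nat_lit 0) (p (nat_lit 0x8607050482)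 (nat_lit 0) (p (nat_lit 0x586848402) (nat_lit 0) (p (nat_lit 0x160014) (nat_lit 0) (p (nat_lit 0x50612) (nat_lit 0) (p (nat_lit 0x40592) (nat_lit 0) (p (nat_lit 0x40492) (nat_lit 0) (p (nat_lit 0x30412) (nat_lit 0) (p (nat_lit 0x30212) (nat_lit 0) (p (nat_lit 0x20192) (nat_lit 0) (p (nat_lit 0x20092) (nat_lit 0) (p (nat_lit 0x10012) (nat_lit 0) pn))))))))))))))))))))))))))))))) :=
  Cl.node (nat_lit 0xc9) (nat_lit 2) (by decide +kernel) (ClAll.succ (ClAll.succ ClAll.zero s114) s115)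

def n117 : Cl (O (nat_lit 3)) (R (nat_lit 102673))
    (p (nat_lit 0x2a825aa8258a8c0a0b8a) (nat_lit 0) (p (nat_lit 0x2a825aa8258a0b89890a) (nat_lit 0) (p (nat_lit 0xb0014) (nat_lit 1) (p (nat_lit 0x20000c) (nat_lit 0) (p (nat_lit 0x200004) (nat_lit 0) (p (nat_lit 0x101) (nat_lit 0) (p (nat_lit 0xc1) (nat_lit 1) (p (nat_lit 0x81) (nat_lit 1) (p (nat_lit 0x111) (nat_lit 1) (p (nat_lit 0xd1) (nat_lit 1) (p (nat_lit 0x89) (nat_lit 0) (p (nat_lit 0x41) (nat_lit 0) (p (nat_lit 0x898a0b090a9a) (nat_lit 0) (p (nat_lit 0x9098a888a1a) (nat_lit 0) (p (nat_lit 0x88890a08079a) (nat_lit 0) (p (nat_lit 0x8088987871a) (nat_lit 0) (p (nat_lit 0x80000800078907088a) (nat_lit 0) (p (nat_lit 0x80000800070886860a) (nat_lit 0) (p (nat_lit 0x8708060782) (nat_lit 0) (p (nat_lit 0x687858702) (nat_lit 0) (p (nat_lit 0x8607050482) (nat_lit 0) (p (nat_lit 0x586848402) (nat_lit 0) (p (nat_lit 0x160014)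 (nat_lit 0) (p (nat_lit 0x50612) (nat_lit 0) (p (nat_lit 0x40592) (nat_lit 0) (p (nat_lit 0x40492) (nat_lit 0) (p (nat_lit 0x30412) (nat_lit 0) (p (nat_lit 0x30212) (nat_lit 0) (p (nat_lit 0x20192) (nat_lit 0) (p (nat_lit 0x20092) (nat_lit 0) (p (nat_lit 0x10012) (nat_lit 0) pn))))))))))))))))))))))))))))))) :=
  Cl.node (nat_lit 0xb0b8c8a8a1a) (nat_lit 1) (by decide +kernel) (ClAll.succ ClAll.zero n85)

def n118 : Cl (O (nat_lit 3)) (R (nat_lit 102673))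
    (p (nat_lit 0x111) (nat_lit 0) (p (nat_lit 0x41) (nat_lit 0) (p (nat_lit 0xb0014) (nat_lit 0) (p (nat_lit 0x20000c) (nat_lit 0) (p (nat_lit 0x200004) (nat_lit 0) (p (nat_lit 0xd1) (nat_lit 1) (p (nat_lit 0x109) (nat_lit 1) (p (nat_lit 0x101) (nat_lit 0) (p (nat_lit 0x119) (nat_lit 0) (p (nat_lit 0xc9) (nat_lit 0) (p (nat_lit 0x89) (nat_lit 1) (p (nat_lit 0x41) (nat_lit 0) (p (nat_lit 0x898a0b090a9a) (nat_lit 0) (p (nat_lit 0x9098a888a1a) (nat_lit 0) (p (nat_lit 0x88890a08079a) (nat_lit 0) (p (nat_lit 0x8088987871a) (nat_lit 0) (p (nat_lit 0x80000800078907088a) (nat_lit 0) (p (nat_lit 0x80000800070886860a) (nat_lit 0) (p (nat_lit 0x8708060782) (nat_lit 0) (p (nat_lit 0x687858702) (nat_lit 0) (p (nat_lit 0x8607050482) (nat_lit 0) (p (nat_lit 0x586848402) (nat_lit 0) (p (nat_lit 0x160014) (nat_lit 0) (p (nat_lit 0x50612) (nat_lit 0) (p (nat_lit 0x40592) (nat_lit 0) (p (nat_lit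 0x40492) (nat_lit 0) (p (nat_lit 0x30412) (nat_lit 0) (p (nat_lit 0x30212) (nat_lit 0) (p (nat_lit 0x20192) (nat_lit 0) (p (nat_lit 0x20092) (nat_lit 0) (p (nat_lit 0x10012) (nat_lit 0) pn))))))))))))))))))))))))))))))) :=
  Cl.node (nat_lit 0x109) (nat_lit 2) (by decide +kernel) (ClAll.succ (ClAll.succ ClAll.zero s136) s137)

def n119 : Cl (O (nat_lit 3)) (R (nat_lit 102673))
    (p (nat_lit 0x111) (nat_lit 1) (p (nat_lit 0x41) (nat_lit 0) (p (nat_lit 0xb0014) (nat_lit 0) (p (nat_lit 0x20000c) (nat_lit 0) (p (nat_lit 0x200004) (nat_lit 0) (p (nat_lit 0xd1) (nat_lit 1) (p (nat_lit 0x109) (nat_lit 1) (p (nat_lit 0x101) (nat_lit 0) (p (nat_lit 0x119) (nat_lit 0) (p (nat_lit 0xc9) (nat_lit 0) (p (nat_lit 0x89) (nat_lit 1) (p (nat_lit 0x41) (nat_lit 0) (p (nat_lit 0x898a0b090a9a) (nat_lit 0) (p (nat_lit 0x9098a888a1a) (nat_lit 0) (p (nat_lit 0x88890a08079a) (nat_lit 0) (p (nat_lit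 0x8088987871a) (nat_lit 0) (p (nat_lit 0x80000800078907088a) (nat_lit 0) (p (nat_lit 0x80000800070886860a) (nat_lit 0) (p (nat_lit 0x8708060782) (nat_lit 0) (p (nat_lit 0x687858702) (nat_lit 0) (p (nat_lit 0x8607050482) (nat_lit 0) (p (nat_lit 0x586848402) (nat_lit 0) (p (nat_lit 0x160014) (nat_lit 0) (p (nat_lit 0x50612) (nat_lit 0) (p (nat_lit 0x40592) (nat_lit 0) (p (nat_lit 0x40492) (nat_lit 0) (p (nat_lit 0x30412) (nat_lit 0) (p (nat_lit 0x30212) (nat_lit 0) (p (nat_lit 0x20192) (nat_lit 0) (p (nat_lit 0x20092) (nat_lit 0) (p (nat_lit 0x10012) (nat_lit 0) pn))))))))))))))))))))))))))))))) :=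
  Cl.node (nat_lit 0x89) (nat_lit 2) (by decide +kernel) (ClAll.succ (ClAll.succ ClAll.zero s138) s139)

def n120 : Cl (O (nat_lit 3)) (R (nat_lit 102673))
    (p (nat_lit 0x2a825aa8258a8c0a0b8a) (nat_lit 0) (p (nat_lit 0x2a825aa8258a0b89890a) (nat_lit 0) (p (nat_lit 0xb0014) (nat_lit 1) (p (nat_lit 0x20000c) (nat_lit 0) (p (nat_lit 0x200004) (nat_lit 0) (p (nat_lit 0xd1) (nat_lit 1) (p (nat_lit 0x109) (nat_lit 1) (p (nat_lit 0x101) (nat_lit 0) (p (nat_lit 0x119) (nat_lit 0) (p (nat_lit 0xc9) (nat_lit 0) (p (nat_lit 0x89) (nat_lit 1) (p (nat_lit 0x41) (nat_lit 0) (p (nat_lit 0x898a0b090a9a) (nat_lit 0) (p (nat_lit 0x9098a888a1a) (nat_lit 0) (p (nat_lit 0x88890a08079a) (nat_lit 0) (p (nat_lit 0x8088987871a) (nat_lit 0) (p (nat_lit 0x80000800078907088a) (nat_lit 0) (p (nat_lit 0x80000800070886860a) (nat_lit 0) (p (nat_lit 0x8708060782) (nat_lit 0) (p (nat_lit 0x687858702) (nat_lit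 0) (p (nat_lit 0x8607050482) (nat_lit 0) (p (nat_lit 0x586848402) (nat_lit 0) (p (nat_lit 0x160014) (nat_lit 0) (p (nat_lit 0x50612) (nat_lit 0) (p (nat_lit 0x40592) (nat_lit 0) (p (nat_lit 0x40492) (nat_lit 0) (p (nat_lit 0x30412) (nat_lit 0) (p (nat_lit 0x30212) (nat_lit 0) (p (nat_lit 0x20192) (nat_lit 0) (p (nat_lit 0x20092) (nat_lit 0) (p (nat_lit 0x10012) (nat_lit 0) pn))))))))))))))))))))))))))))))) :=
  Cl.node (nat_lit 0xb0b8c8a8a1a) (nat_lit 1) (by decide +kernel) (ClAll.succ ClAll.zero n86)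

def n121 : Cl (O (nat_lit 3)) (R (nat_lit 102673))
    (p (nat_lit 0x81) (nat_lit 0) (p (nat_lit 0x109) (nat_lit 1) (p (nat_lit 0xb0014) (nat_lit 0) (p (nat_lit 0x20000c) (nat_lit 0) (p (nat_lit 0x200004) (nat_lit 0) (p (nat_lit 0xd1) (nat_lit 1) (p (nat_lit 0xc1) (nat_lit 0) (p (nat_lit 0x101) (nat_lit 1) (p (nat_lit 0x119) (nat_lit 0) (p (nat_lit 0xc9) (nat_lit 0) (p (nat_lit 0x89) (nat_lit 1) (p (nat_lit 0x41) (nat_lit 0) (p (nat_lit 0x898a0b090a9a) (nat_lit 0) (p (nat_lit 0x9098a888a1a) (nat_lit 0) (p (nat_lit 0x88890a08079a) (nat_lit 0) (p (nat_lit 0x8088987871a) (nat_lit 0) (p (nat_lit 0x80000800078907088a) (nat_lit 0) (p (nat_lit 0x80000800070886860a) (nat_lit 0) (p (nat_lit 0x8708060782) (nat_lit 0) (p (nat_lit 0x687858702) (nat_lit 0) (p (nat_lit 0x8607050482) (nat_lit 0) (p (nat_lit 0x586848402) (nat_lit 0) (p (nat_lit 0x160014) (nat_lit 0) (p (nat_lit 0x50612)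 (nat_lit 0) (p (nat_lit 0x40592) (nat_lit 0) (p (nat_lit 0x40492) (nat_lit 0) (p (nat_lit 0x30412) (nat_lit 0) (p (nat_lit 0x30212) (nat_lit 0) (p (nat_lit 0x20192) (nat_lit 0) (p (nat_lit 0x20092) (nat_lit 0) (p (nat_lit 0x10012) (nat_lit 0) pn))))))))))))))))))))))))))))))) :=
  Cl.node (nat_lit 0x89) (nat_lit 2) (by decide +kernel) (ClAll.succ (ClAll.succ ClAll.zero s153) s154)

def n122 : Cl (O (nat_lit 3)) (R (nat_lit 102673))
    (p (nat_lit 0x2a825aa8258a8c0a0b8a) (nat_lit 0) (p (nat_lit 0x2a825aa8258a0b89890a) (nat_lit 0) (p (nat_lit 0xb0014) (nat_lit 1) (p (nat_lit 0x20000c) (nat_lit 0) (p (nat_lit 0x200004) (nat_lit 0) (p (nat_lit 0xd1) (nat_lit 1) (p (nat_lit 0xc1) (nat_lit 0) (p (nat_lit 0x101) (nat_lit 1) (p (nat_lit 0x119) (nat_lit 0) (p (nat_lit 0xc9) (nat_lit 0) (p (nat_lit 0x89) (nat_lit 1) (p (nat_lit 0x41) (nat_lit 0) (p (nat_lit 0x898a0b090a9a) (nat_lit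 0) (p (nat_lit 0x9098a888a1a) (nat_lit 0) (p (nat_lit 0x88890a08079a) (nat_lit 0) (p (nat_lit 0x8088987871a) (nat_lit 0) (p (nat_lit 0x80000800078907088a) (nat_lit 0) (p (nat_lit 0x80000800070886860a) (nat_lit 0) (p (nat_lit 0x8708060782) (nat_lit 0) (p (nat_lit 0x687858702) (nat_lit 0) (p (nat_lit 0x8607050482) (nat_lit 0) (p (nat_lit 0x586848402) (nat_lit 0) (p (nat_lit 0x160014) (nat_lit 0) (p (nat_lit 0x50612) (nat_lit 0) (p (nat_lit 0x40592) (nat_lit 0) (p (nat_lit 0x40492) (nat_lit 0) (p (nat_lit 0x30412) (nat_lit 0) (p (nat_lit 0x30212) (nat_lit 0) (p (nat_lit 0x20192) (nat_lit 0) (p (nat_lit 0x20092) (nat_lit 0) (p (nat_lit 0x10012) (nat_lit 0) pn))))))))))))))))))))))))))))))) :=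
  Cl.node (nat_lit 0xb0b8c8a8a1a) (nat_lit 1) (by decide +kernel) (ClAll.succ ClAll.zero n87)

def n123 : Cl (O (nat_lit 3)) (R (nat_lit 102673))
    (p (nat_lit 0x2a825aa8258a8c0a0b8a) (nat_lit 0) (p (nat_lit 0x2a825aa8258a0b89890a) (nat_lit 0) (p (nat_lit 0xb0014) (nat_lit 1) (p (nat_lit 0x20000c) (nat_lit 0) (p (nat_lit 0x200004) (nat_lit 0) (p (nat_lit 0x111) (nat_lit 1) (p (nat_lit 0x101) (nat_lit 0) (p (nat_lit 0xc1) (nat_lit 1) (p (nat_lit 0x119) (nat_lit 1) (p (nat_lit 0xc9) (nat_lit 0) (p (nat_lit 0x89) (nat_lit 1) (p (nat_lit 0x41) (nat_lit 0) (p (nat_lit 0x898a0b090a9a) (nat_lit 0) (p (nat_lit 0x9098a888a1a) (nat_lit 0) (p (nat_lit 0x88890a08079a) (nat_lit 0) (p (nat_lit 0x8088987871a) (nat_lit 0) (p (nat_lit 0x80000800078907088a) (nat_lit 0) (p (nat_lit 0x80000800070886860a) (nat_lit 0) (p (nat_lit 0x8708060782) (nat_lit 0) (p (nat_lit 0x687858702) (nat_lit 0)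 (p (nat_lit 0x8607050482) (nat_lit 0) (p (nat_lit 0x586848402) (nat_lit 0) (p (nat_lit 0x160014) (nat_lit 0) (p (nat_lit 0x50612) (nat_lit 0) (p (nat_lit 0x40592) (nat_lit 0) (p (nat_lit 0x40492) (nat_lit 0) (p (nat_lit 0x30412) (nat_lit 0) (p (nat_lit 0x30212) (nat_lit 0) (p (nat_lit 0x20192) (nat_lit 0) (p (nat_lit 0x20092) (nat_lit 0) (p (nat_lit 0x10012) (nat_lit 0) pn))))))))))))))))))))))))))))))) :=
  Cl.node (nat_lit 0xb0b8c8a8a1a) (nat_lit 1) (by decide +kernel) (ClAll.succ ClAll.zero n88)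

def n124 : Cl (O (nat_lit 3)) (R (nat_lit 102673))
    (p (nat_lit 0x101) (nat_lit 0) (p (nat_lit 0x109) (nat_lit 0) (p (nat_lit 0xb0014) (nat_lit 0) (p (nat_lit 0x20000c) (nat_lit 0) (p (nat_lit 0x200004) (nat_lit 0) (p (nat_lit 0x89) (nat_lit 1) (p (nat_lit 0xc1) (nat_lit 1) (p (nat_lit 0x101) (nat_lit 1) (p (nat_lit 0x119) (nat_lit 0) (p (nat_lit 0xd1) (nat_lit 0) (p (nat_lit 0x81) (nat_lit 0) (p (nat_lit 0x41) (nat_lit 1) (p (nat_lit 0x898a0b090a9a) (nat_lit 0) (p (nat_lit 0x9098a888a1a) (nat_lit 0) (p (nat_lit 0x88890a08079a) (nat_lit 0) (p (nat_lit 0x8088987871a) (nat_lit 0) (p (nat_lit 0x80000800078907088a) (nat_lit 0) (p (nat_lit 0x80000800070886860a) (nat_lit 0) (p (nat_lit 0x8708060782) (nat_lit 0) (p (nat_lit 0x687858702) (nat_lit 0) (p (nat_lit 0x8607050482) (nat_lit 0) (p (nat_lit 0x586848402) (nat_lit 0) (p (nat_lit 0x160014) (nat_lit 0) (p (nat_lit 0x50612)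 (nat_lit 0) (p (nat_lit 0x40592) (nat_lit 0) (p (nat_lit 0x40492) (nat_lit 0) (p (nat_lit 0x30412) (nat_lit 0) (p (nat_lit 0x30212) (nat_lit 0) (p (nat_lit 0x20192) (nat_lit 0) (p (nat_lit 0x20092) (nat_lit 0) (p (nat_lit 0x10012) (nat_lit 0) pn))))))))))))))))))))))))))))))) :=
  Cl.node (nat_lit 0x111) (nat_lit 2) (by decide +kernel) (ClAll.succ (ClAll.succ ClAll.zero s215) n89)

def n125 : Cl (O (nat_lit 3)) (R (nat_lit 102673))
    (p (nat_lit 0x101) (nat_lit 1) (p (nat_lit 0x109) (nat_lit 0) (p (nat_lit 0xb0014) (nat_lit 0) (p (nat_lit 0x20000c) (nat_lit 0) (p (nat_lit 0x200004) (nat_lit 0) (p (nat_lit 0x89) (nat_lit 1) (p (nat_lit 0xc1) (nat_lit 1) (p (nat_lit 0x101) (nat_lit 1) (p (nat_lit 0x119) (nat_lit 0) (p (nat_lit 0xd1) (nat_lit 0) (p (nat_lit 0x81) (nat_lit 0) (p (nat_lit 0x41) (nat_lit 1) (p (nat_lit 0x898a0b090a9a) (nat_lit 0) (p (nat_lit 0x9098a888a1a) (nat_lit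 0) (p (nat_lit 0x88890a08079a) (nat_lit 0) (p (nat_lit 0x8088987871a) (nat_lit 0) (p (nat_lit 0x80000800078907088a) (nat_lit 0) (p (nat_lit 0x80000800070886860a) (nat_lit 0) (p (nat_lit 0x8708060782) (nat_lit 0) (p (nat_lit 0x687858702) (nat_lit 0) (p (nat_lit 0x8607050482) (nat_lit 0) (p (nat_lit 0x586848402) (nat_lit 0) (p (nat_lit 0x160014) (nat_lit 0) (p (nat_lit 0x50612) (nat_lit 0) (p (nat_lit 0x40592) (nat_lit 0) (p (nat_lit 0x40492) (nat_lit 0) (p (nat_lit 0x30412) (nat_lit 0) (p (nat_lit 0x30212) (nat_lit 0) (p (nat_lit 0x20192) (nat_lit 0) (p (nat_lit 0x20092) (nat_lit 0) (p (nat_lit 0x10012) (nat_lit 0) pn))))))))))))))))))))))))))))))) :=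
  Cl.node (nat_lit 0x41) (nat_lit 2) (by decide +kernel) (ClAll.succ (ClAll.succ ClAll.zero n90) s222)

def n126 : Cl (O (nat_lit 3)) (R (nat_lit 102673))
    (p (nat_lit 0x41) (nat_lit 0) (p (nat_lit 0x109) (nat_lit 1) (p (nat_lit 0xb0014) (nat_lit 0) (p (nat_lit 0x20000c) (nat_lit 0) (p (nat_lit 0x200004) (nat_lit 0) (p (nat_lit 0x89) (nat_lit 1) (p (nat_lit 0xc1) (nat_lit 1) (p (nat_lit 0x101) (nat_lit 1) (p (nat_lit 0x119) (nat_lit 0) (p (nat_lit 0xd1) (nat_lit 0) (p (nat_lit 0x81) (nat_lit 0) (p (nat_lit 0x41) (nat_lit 1) (p (nat_lit 0x898a0b090a9a) (nat_lit 0) (p (nat_lit 0x9098a888a1a) (nat_lit 0) (p (nat_lit 0x88890a08079a) (nat_lit 0) (p (nat_lit 0x8088987871a) (nat_lit 0) (p (nat_lit 0x80000800078907088a) (nat_lit 0) (p (nat_lit 0x80000800070886860a) (nat_lit 0) (p (nat_lit 0x8708060782) (nat_lit 0) (p (nat_lit 0x687858702) (nat_lit 0) (p (nat_lit 0x8607050482)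 (nat_lit 0) (p (nat_lit 0x586848402) (nat_lit 0) (p (nat_lit 0x160014) (nat_lit 0) (p (nat_lit 0x50612) (nat_lit 0) (p (nat_lit 0x40592) (nat_lit 0) (p (nat_lit 0x40492) (nat_lit 0) (p (nat_lit 0x30412) (nat_lit 0) (p (nat_lit 0x30212) (nat_lit 0) (p (nat_lit 0x20192) (nat_lit 0) (p (nat_lit 0x20092) (nat_lit 0) (p (nat_lit 0x10012) (nat_lit 0) pn))))))))))))))))))))))))))))))) :=
  Cl.node (nat_lit 0xc9) (nat_lit 2) (by decide +kernel) (ClAll.succ (ClAll.succ ClAll.zero s223) s224)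

def n127 : Cl (O (nat_lit 3)) (R (nat_lit 102673))
    (p (nat_lit 0x41) (nat_lit 1) (p (nat_lit 0x109) (nat_lit 1) (p (nat_lit 0xb0014) (nat_lit 0) (p (nat_lit 0x20000c) (nat_lit 0) (p (nat_lit 0x200004) (nat_lit 0) (p (nat_lit 0x89) (nat_lit 1) (p (nat_lit 0xc1) (nat_lit 1) (p (nat_lit 0x101) (nat_lit 1) (p (nat_lit 0x119) (nat_lit 0) (p (nat_lit 0xd1) (nat_lit 0) (p (nat_lit 0x81) (nat_lit 0) (p (nat_lit 0x41) (nat_lit 1) (p (nat_lit 0x898a0b090a9a) (nat_lit 0) (p (nat_lit 0x9098a888a1a) (nat_lit 0) (p (nat_lit 0x88890a08079a) (nat_lit 0) (p (nat_lit 0x8088987871a) (nat_lit 0) (p (nat_lit 0x80000800078907088a) (nat_lit 0) (p (nat_lit 0x80000800070886860a) (nat_lit 0) (p (nat_lit 0x8708060782) (nat_lit 0) (p (nat_lit 0x687858702) (nat_lit 0) (p (nat_lit 0x8607050482) (nat_lit 0) (p (nat_lit 0x586848402) (nat_lit 0) (p (nat_lit 0x160014) (nat_lit 0) (p (nat_lit 0x50612)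 (nat_lit 0) (p (nat_lit 0x40592) (nat_lit 0) (p (nat_lit 0x40492) (nat_lit 0) (p (nat_lit 0x30412) (nat_lit 0) (p (nat_lit 0x30212) (nat_lit 0) (p (nat_lit 0x20192) (nat_lit 0) (p (nat_lit 0x20092) (nat_lit 0) (p (nat_lit 0x10012) (nat_lit 0) pn))))))))))))))))))))))))))))))) :=
  Cl.node (nat_lit 0x101) (nat_lit 2) (by decide +kernel) (ClAll.succ (ClAll.succ ClAll.zero n91) s228)

def n128 : Cl (O (nat_lit 3)) (R (nat_lit 102673))
    (p (nat_lit 0x2a825aa8258a8c0a0b8a) (nat_lit 0) (p (nat_lit 0x2a825aa8258a0b89890a) (nat_lit 0) (p (nat_lit 0xb0014) (nat_lit 1) (p (nat_lit 0x20000c) (nat_lit 0) (p (nat_lit 0x200004) (nat_lit 0) (p (nat_lit 0x89) (nat_lit 1) (p (nat_lit 0xc1) (nat_lit 1) (p (nat_lit 0x101) (nat_lit 1) (p (nat_lit 0x119) (nat_lit 0) (p (nat_lit 0xd1) (nat_lit 0) (p (nat_lit 0x81) (nat_lit 0) (p (nat_lit 0x41) (nat_lit 1) (p (nat_lit 0x898a0b090a9a) (nat_lit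 0) (p (nat_lit 0x9098a888a1a) (nat_lit 0) (p (nat_lit 0x88890a08079a) (nat_lit 0) (p (nat_lit 0x8088987871a) (nat_lit 0) (p (nat_lit 0x80000800078907088a) (nat_lit 0) (p (nat_lit 0x80000800070886860a) (nat_lit 0) (p (nat_lit 0x8708060782) (nat_lit 0) (p (nat_lit 0x687858702) (nat_lit 0) (p (nat_lit 0x8607050482) (nat_lit 0) (p (nat_lit 0x586848402) (nat_lit 0) (p (nat_lit 0x160014) (nat_lit 0) (p (nat_lit 0x50612) (nat_lit 0) (p (nat_lit 0x40592) (nat_lit 0) (p (nat_lit 0x40492) (nat_lit 0) (p (nat_lit 0x30412) (nat_lit 0) (p (nat_lit 0x30212) (nat_lit 0) (p (nat_lit 0x20192) (nat_lit 0) (p (nat_lit 0x20092) (nat_lit 0) (p (nat_lit 0x10012) (nat_lit 0) pn))))))))))))))))))))))))))))))) :=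
  Cl.node (nat_lit 0xb0b8c8a8a1a) (nat_lit 1) (by decide +kernel) (ClAll.succ ClAll.zero n92)

def n129 : Cl (O (nat_lit 3)) (R (nat_lit 102673))
    (p (nat_lit 0x2a825aa8258a8c0a0b8a) (nat_lit 0) (p (nat_lit 0x2a825aa8258a0b89890a) (nat_lit 0) (p (nat_lit 0xb0014) (nat_lit 1) (p (nat_lit 0x20000c) (nat_lit 0) (p (nat_lit 0x200004) (nat_lit 0) (p (nat_lit 0x89) (nat_lit 1) (p (nat_lit 0x101) (nat_lit 1) (p (nat_lit 0xc1) (nat_lit 1) (p (nat_lit 0x119) (nat_lit 1) (p (nat_lit 0xd1) (nat_lit 0) (p (nat_lit 0x81) (nat_lit 0) (p (nat_lit 0x41) (nat_lit 1) (p (nat_lit 0x898a0b090a9a) (nat_lit 0) (p (nat_lit 0x9098a888a1a) (nat_lit 0) (p (nat_lit 0x88890a08079a) (nat_lit 0) (p (nat_lit 0x8088987871a) (nat_lit 0) (p (nat_lit 0x80000800078907088a) (nat_lit 0) (p (nat_lit 0x80000800070886860a) (nat_lit 0) (p (nat_lit 0x8708060782) (nat_lit 0) (p (nat_lit 0x687858702) (nat_lit 0)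 (p (nat_lit 0x8607050482) (nat_lit 0) (p (nat_lit 0x586848402) (nat_lit 0) (p (nat_lit 0x160014) (nat_lit 0) (p (nat_lit 0x50612) (nat_lit 0) (p (nat_lit 0x40592) (nat_lit 0) (p (nat_lit 0x40492) (nat_lit 0) (p (nat_lit 0x30412) (nat_lit 0) (p (nat_lit 0x30212) (nat_lit 0) (p (nat_lit 0x20192) (nat_lit 0) (p (nat_lit 0x20092) (nat_lit 0) (p (nat_lit 0x10012) (nat_lit 0) pn))))))))))))))))))))))))))))))) :=
  Cl.node (nat_lit 0xb0b8c8a8a1a) (nat_lit 1) (by decide +kernel) (ClAll.succ ClAll.zero n93)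

def n130 : Cl (O (nat_lit 3)) (R (nat_lit 102673))
    (p (nat_lit 0xb0014) (nat_lit 0) (p (nat_lit 0x119) (nat_lit 0) (p (nat_lit 0x20000c) (nat_lit 0) (p (nat_lit 0x200004) (nat_lit 0) (p (nat_lit 0xc9) (nat_lit 0) (p (nat_lit 0x89) (nat_lit 1) (p (nat_lit 0x109) (nat_lit 1) (p (nat_lit 0x101) (nat_lit 0) (p (nat_lit 0x111) (nat_lit 0) (p (nat_lit 0xd1) (nat_lit 1) (p (nat_lit 0x81) (nat_lit 0) (p (nat_lit 0x41) (nat_lit 1) (p (nat_lit 0x898a0b090a9a) (nat_lit 0) (p (nat_lit 0x9098a888a1a) (nat_lit 0) (p (nat_lit 0x88890a08079a) (nat_lit 0) (p (nat_lit 0x8088987871a) (nat_lit 0) (p (nat_lit 0x80000800078907088a) (nat_lit 0) (p (nat_lit 0x80000800070886860a) (nat_lit 0) (p (nat_lit 0x8708060782) (nat_lit 0) (p (nat_lit 0x687858702) (nat_lit 0) (p (nat_lit 0x8607050482) (nat_lit 0) (p (nat_lit 0x586848402) (nat_lit 0) (p (nat_lit 0x160014) (nat_lit 0) (p (nat_lit 0x50612)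 (nat_lit 0) (p (nat_lit 0x40592) (nat_lit 0) (p (nat_lit 0x40492) (nat_lit 0) (p (nat_lit 0x30412) (nat_lit 0) (p (nat_lit 0x30212) (nat_lit 0) (p (nat_lit 0x20192) (nat_lit 0) (p (nat_lit 0x20092) (nat_lit 0) (p (nat_lit 0x10012) (nat_lit 0) pn))))))))))))))))))))))))))))))) :=
  Cl.node (nat_lit 0x41) (nat_lit 2) (by decide +kernel) (ClAll.succ (ClAll.succ ClAll.zero n94) s266)

def n131 : Cl (O (nat_lit 3)) (R (nat_lit 102673))
    (p (nat_lit 0xb0014) (nat_lit 0) (p (nat_lit 0x119) (nat_lit 1) (p (nat_lit 0x20000c) (nat_lit 0) (p (nat_lit 0x200004) (nat_lit 0) (p (nat_lit 0xc9) (nat_lit 0) (p (nat_lit 0x89) (nat_lit 1) (p (nat_lit 0x109) (nat_lit 1) (p (nat_lit 0x101) (nat_lit 0) (p (nat_lit 0x111) (nat_lit 0) (p (nat_lit 0xd1) (nat_lit 1) (p (nat_lit 0x81) (nat_lit 0) (p (nat_lit 0x41) (nat_lit 1) (p (nat_lit 0x898a0b090a9a) (nat_lit 0) (p (nat_lit 0x9098a888a1a) (nat_lit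 0) (p (nat_lit 0x88890a08079a) (nat_lit 0) (p (nat_lit 0x8088987871a) (nat_lit 0) (p (nat_lit 0x80000800078907088a) (nat_lit 0) (p (nat_lit 0x80000800070886860a) (nat_lit 0) (p (nat_lit 0x8708060782) (nat_lit 0) (p (nat_lit 0x687858702) (nat_lit 0) (p (nat_lit 0x8607050482) (nat_lit 0) (p (nat_lit 0x586848402) (nat_lit 0) (p (nat_lit 0x160014) (nat_lit 0) (p (nat_lit 0x50612) (nat_lit 0) (p (nat_lit 0x40592) (nat_lit 0) (p (nat_lit 0x40492) (nat_lit 0) (p (nat_lit 0x30412) (nat_lit 0) (p (nat_lit 0x30212) (nat_lit 0) (p (nat_lit 0x20192) (nat_lit 0) (p (nat_lit 0x20092) (nat_lit 0) (p (nat_lit 0x10012) (nat_lit 0) pn))))))))))))))))))))))))))))))) :=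
  Cl.node (nat_lit 0xc1) (nat_lit 2) (by decide +kernel) (ClAll.succ (ClAll.succ ClAll.zero n95) n96)

def n132 : Cl (O (nat_lit 3)) (R (nat_lit 102673))
    (p (nat_lit 0xb0b8c8a8a1a) (nat_lit 0) (p (nat_lit 0x2a825aa8258a8c0a0b8a) (nat_lit 0) (p (nat_lit 0x2a825aa8258a0b89890a) (nat_lit 0) (p (nat_lit 0xb0014) (nat_lit 1) (p (nat_lit 0x20000c) (nat_lit 0) (p (nat_lit 0x200004) (nat_lit 0) (p (nat_lit 0x89) (nat_lit 0) (p (nat_lit 0x101) (nat_lit 1) (p (nat_lit 0x111) (nat_lit 0) (p (nat_lit 0xd1) (nat_lit 1) (p (nat_lit 0x81) (nat_lit 0) (p (nat_lit 0x41) (nat_lit 1) (p (nat_lit 0x898a0b090a9a) (nat_lit 0) (p (nat_lit 0x9098a888a1a) (nat_lit 0) (p (nat_lit 0x88890a08079a) (nat_lit 0) (p (nat_lit 0x8088987871a) (nat_lit 0) (p (nat_lit 0x80000800078907088a) (nat_lit 0) (p (nat_lit 0x80000800070886860a) (nat_lit 0) (p (nat_lit 0x8708060782) (nat_lit 0) (p (nat_lit 0x687858702)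 (nat_lit 0) (p (nat_lit 0x8607050482) (nat_lit 0) (p (nat_lit 0x586848402) (nat_lit 0) (p (nat_lit 0x160014) (nat_lit 0) (p (nat_lit 0x50612) (nat_lit 0) (p (nat_lit 0x40592) (nat_lit 0) (p (nat_lit 0x40492) (nat_lit 0) (p (nat_lit 0x30412) (nat_lit 0) (p (nat_lit 0x30212) (nat_lit 0) (p (nat_lit 0x20192) (nat_lit 0) (p (nat_lit 0x20092) (nat_lit 0) (p (nat_lit 0x10012) (nat_lit 0) pn))))))))))))))))))))))))))))))) :=
  Cl.node (nat_lit 0x8b8c0d0b0a9a) (nat_lit 1) (by decide +kernel) (ClAll.succ ClAll.zero n97)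

def n133 : Cl (O (nat_lit 3)) (R (nat_lit 102673))
    (p (nat_lit 0x101) (nat_lit 0) (p (nat_lit 0x119) (nat_lit 0) (p (nat_lit 0xb0014) (nat_lit 0) (p (nat_lit 0x20000c) (nat_lit 0) (p (nat_lit 0x200004) (nat_lit 0) (p (nat_lit 0xc9) (nat_lit 0) (p (nat_lit 0x89) (nat_lit 1) (p (nat_lit 0x101) (nat_lit 1) (p (nat_lit 0x111) (nat_lit 0) (p (nat_lit 0xd1) (nat_lit 1) (p (nat_lit 0x81) (nat_lit 0) (p (nat_lit 0x41) (nat_lit 1) (p (nat_lit 0x898a0b090a9a) (nat_lit 0) (p (nat_lit 0x9098a888a1a) (nat_lit 0) (p (nat_lit 0x88890a08079a) (nat_lit 0) (p (nat_lit 0x8088987871a) (nat_lit 0) (p (nat_lit 0x80000800078907088a) (nat_lit 0) (p (nat_lit 0x80000800070886860a) (nat_lit 0) (p (nat_lit 0x8708060782) (nat_lit 0) (p (nat_lit 0x687858702) (nat_lit 0) (p (nat_lit 0x8607050482) (nat_lit 0) (p (nat_lit 0x586848402) (nat_lit 0) (p (nat_lit 0x160014) (nat_lit 0) (p (nat_lit 0x50612)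 (nat_lit 0) (p (nat_lit 0x40592) (nat_lit 0) (p (nat_lit 0x40492) (nat_lit 0) (p (nat_lit 0x30412) (nat_lit 0) (p (nat_lit 0x30212) (nat_lit 0) (p (nat_lit 0x20192) (nat_lit 0) (p (nat_lit 0x20092) (nat_lit 0) (p (nat_lit 0x10012) (nat_lit 0) pn))))))))))))))))))))))))))))))) :=
  Cl.node (nat_lit 0x109) (nat_lit 2) (by decide +kernel) (ClAll.succ (ClAll.succ ClAll.zero s290) n98)

def n134 : Cl (O (nat_lit 3)) (R (nat_lit 102673))
    (p (nat_lit 0x101) (nat_lit 1) (p (nat_lit 0x119) (nat_lit 0) (p (nat_lit 0xb0014) (nat_lit 0) (p (nat_lit 0x20000c) (nat_lit 0) (p (nat_lit 0x200004) (nat_lit 0) (p (nat_lit 0xc9) (nat_lit 0) (p (nat_lit 0x89) (nat_lit 1) (p (nat_lit 0x101) (nat_lit 1) (p (nat_lit 0x111) (nat_lit 0) (p (nat_lit 0xd1) (nat_lit 1) (p (nat_lit 0x81) (nat_lit 0) (p (nat_lit 0x41) (nat_lit 1) (p (nat_lit 0x898a0b090a9a) (nat_lit 0) (p (nat_lit 0x9098a888a1a) (nat_lit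 0) (p (nat_lit 0x88890a08079a) (nat_lit 0) (p (nat_lit 0x8088987871a) (nat_lit 0) (p (nat_lit 0x80000800078907088a) (nat_lit 0) (p (nat_lit 0x80000800070886860a) (nat_lit 0) (p (nat_lit 0x8708060782) (nat_lit 0) (p (nat_lit 0x687858702) (nat_lit 0) (p (nat_lit 0x8607050482) (nat_lit 0) (p (nat_lit 0x586848402) (nat_lit 0) (p (nat_lit 0x160014) (nat_lit 0) (p (nat_lit 0x50612) (nat_lit 0) (p (nat_lit 0x40592) (nat_lit 0) (p (nat_lit 0x40492) (nat_lit 0) (p (nat_lit 0x30412) (nat_lit 0) (p (nat_lit 0x30212) (nat_lit 0) (p (nat_lit 0x20192) (nat_lit 0) (p (nat_lit 0x20092) (nat_lit 0) (p (nat_lit 0x10012) (nat_lit 0) pn))))))))))))))))))))))))))))))) :=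
  Cl.node (nat_lit 0xc1) (nat_lit 2) (by decide +kernel) (ClAll.succ (ClAll.succ ClAll.zero n99) s296)

def n135 : Cl (O (nat_lit 3)) (R (nat_lit 102673))
    (p (nat_lit 0xc1) (nat_lit 0) (p (nat_lit 0x119) (nat_lit 1) (p (nat_lit 0xb0014) (nat_lit 0) (p (nat_lit 0x20000c) (nat_lit 0) (p (nat_lit 0x200004) (nat_lit 0) (p (nat_lit 0xc9) (nat_lit 0) (p (nat_lit 0x89) (nat_lit 1) (p (nat_lit 0x101) (nat_lit 1) (p (nat_lit 0x111) (nat_lit 0) (p (nat_lit 0xd1) (nat_lit 1) (p (nat_lit 0x81) (nat_lit 0) (p (nat_lit 0x41) (nat_lit 1) (p (nat_lit 0x898a0b090a9a) (nat_lit 0) (p (nat_lit 0x9098a888a1a) (nat_lit 0) (p (nat_lit 0x88890a08079a) (nat_lit 0) (p (nat_lit 0x8088987871a) (nat_lit 0) (p (nat_lit 0x80000800078907088a) (nat_lit 0) (p (nat_lit 0x80000800070886860a) (nat_lit 0) (p (nat_lit 0x8708060782) (nat_lit 0) (p (nat_lit 0x687858702) (nat_lit 0) (p (nat_lit 0x8607050482)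 (nat_lit 0) (p (nat_lit 0x586848402) (nat_lit 0) (p (nat_lit 0x160014) (nat_lit 0) (p (nat_lit 0x50612) (nat_lit 0) (p (nat_lit 0x40592) (nat_lit 0) (p (nat_lit 0x40492) (nat_lit 0) (p (nat_lit 0x30412) (nat_lit 0) (p (nat_lit 0x30212) (nat_lit 0) (p (nat_lit 0x20192) (nat_lit 0) (p (nat_lit 0x20092) (nat_lit 0) (p (nat_lit 0x10012) (nat_lit 0) pn))))))))))))))))))))))))))))))) :=
  Cl.node (nat_lit 0xd1) (nat_lit 2) (by decide +kernel) (ClAll.succ (ClAll.succ ClAll.zero s297) n100)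

def n136 : Cl (O (nat_lit 3)) (R (nat_lit 102673))
    (p (nat_lit 0xc1) (nat_lit 1) (p (nat_lit 0x119) (nat_lit 1) (p (nat_lit 0xb0014) (nat_lit 0) (p (nat_lit 0x20000c) (nat_lit 0) (p (nat_lit 0x200004) (nat_lit 0) (p (nat_lit 0xc9) (nat_lit 0) (p (nat_lit 0x89) (nat_lit 1) (p (nat_lit 0x101) (nat_lit 1) (p (nat_lit 0x111) (nat_lit 0) (p (nat_lit 0xd1) (nat_lit 1) (p (nat_lit 0x81) (nat_lit 0) (p (nat_lit 0x41) (nat_lit 1) (p (nat_lit 0x898a0b090a9a) (nat_lit 0) (p (nat_lit 0x9098a888a1a) (nat_lit 0) (p (nat_lit 0x88890a08079a) (nat_lit 0) (p (nat_lit 0x8088987871a) (nat_lit 0) (p (nat_lit 0x80000800078907088a) (nat_lit 0) (p (nat_lit 0x80000800070886860a) (nat_lit 0) (p (nat_lit 0x8708060782) (nat_lit 0) (p (nat_lit 0x687858702) (nat_lit 0) (p (nat_lit 0x8607050482) (nat_lit 0) (p (nat_lit 0x586848402) (nat_lit 0) (p (nat_lit 0x160014) (nat_lit 0) (p (nat_lit 0x50612)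 (nat_lit 0) (p (nat_lit 0x40592) (nat_lit 0) (p (nat_lit 0x40492) (nat_lit 0) (p (nat_lit 0x30412) (nat_lit 0) (p (nat_lit 0x30212) (nat_lit 0) (p (nat_lit 0x20192) (nat_lit 0) (p (nat_lit 0x20092) (nat_lit 0) (p (nat_lit 0x10012) (nat_lit 0) pn))))))))))))))))))))))))))))))) :=
  Cl.node (nat_lit 0x101) (nat_lit 2) (by decide +kernel) (ClAll.succ (ClAll.succ ClAll.zero n101) s303)

def n137 : Cl (O (nat_lit 3)) (R (nat_lit 102673))
    (p (nat_lit 0x2a825aa8258a8c0a0b8a) (nat_lit 0) (p (nat_lit 0x2a825aa8258a0b89890a) (nat_lit 0) (p (nat_lit 0xb0014) (nat_lit 1) (p (nat_lit 0x20000c) (nat_lit 0) (p (nat_lit 0x200004) (nat_lit 0) (p (nat_lit 0xc9) (nat_lit 0) (p (nat_lit 0x89) (nat_lit 1) (p (nat_lit 0x101) (nat_lit 1) (p (nat_lit 0x111) (nat_lit 0) (p (nat_lit 0xd1) (nat_lit 1) (p (nat_lit 0x81) (nat_lit 0) (p (nat_lit 0x41) (nat_lit 1) (p (nat_lit 0x898a0b090a9a) (nat_lit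 0) (p (nat_lit 0x9098a888a1a) (nat_lit 0) (p (nat_lit 0x88890a08079a) (nat_lit 0) (p (nat_lit 0x8088987871a) (nat_lit 0) (p (nat_lit 0x80000800078907088a) (nat_lit 0) (p (nat_lit 0x80000800070886860a) (nat_lit 0) (p (nat_lit 0x8708060782) (nat_lit 0) (p (nat_lit 0x687858702) (nat_lit 0) (p (nat_lit 0x8607050482) (nat_lit 0) (p (nat_lit 0x586848402) (nat_lit 0) (p (nat_lit 0x160014) (nat_lit 0) (p (nat_lit 0x50612) (nat_lit 0) (p (nat_lit 0x40592) (nat_lit 0) (p (nat_lit 0x40492) (nat_lit 0) (p (nat_lit 0x30412) (nat_lit 0) (p (nat_lit 0x30212) (nat_lit 0) (p (nat_lit 0x20192) (nat_lit 0) (p (nat_lit 0x20092) (nat_lit 0) (p (nat_lit 0x10012) (nat_lit 0) pn))))))))))))))))))))))))))))))) :=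
  Cl.node (nat_lit 0xb0b8c8a8a1a) (nat_lit 1) (by decide +kernel) (ClAll.succ ClAll.zero n102)

def n138 : Cl (O (nat_lit 3)) (R (nat_lit 102673))
    (p (nat_lit 0xb0014) (nat_lit 0) (p (nat_lit 0x111) (nat_lit 0) (p (nat_lit 0x20000c) (nat_lit 0) (p (nat_lit 0x200004) (nat_lit 0) (p (nat_lit 0xc9) (nat_lit 1) (p (nat_lit 0x81) (nat_lit 0) (p (nat_lit 0x101) (nat_lit 1) (p (nat_lit 0x119) (nat_lit 0) (p (nat_lit 0xd1) (nat_lit 0) (p (nat_lit 0x89) (nat_lit 0) (p (nat_lit 0x41) (nat_lit 0) (p (nat_lit 0x898a0b090a9a) (nat_lit 0) (p (nat_lit 0x9098a888a1a) (nat_lit 0) (p (nat_lit 0x88890a08079a) (nat_lit 0) (p (nat_lit 0x8088987871a) (nat_lit 0) (p (nat_lit 0x80000800078907088a) (nat_lit 0) (p (nat_lit 0x80000800070886860a) (nat_lit 0) (p (nat_lit 0x8708060782) (nat_lit 0) (p (nat_lit 0x687858702) (nat_lit 0) (p (nat_lit 0x8607050482) (nat_lit 0) (p (nat_lit 0x586848402) (nat_lit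 0) (p (nat_lit 0x160014) (nat_lit 0) (p (nat_lit 0x50612) (nat_lit 0) (p (nat_lit 0x40592) (nat_lit 0) (p (nat_lit 0x40492) (nat_lit 0) (p (nat_lit 0x30412) (nat_lit 0) (p (nat_lit 0x30212) (nat_lit 0) (p (nat_lit 0x20192) (nat_lit 0) (p (nat_lit 0x20092) (nat_lit 0) (p (nat_lit 0x10012) (nat_lit 0) pn)))))))))))))))))))))))))))))) :=
  Cl.node (nat_lit 0x109) (nat_lit 2) (by decide +kernel) (ClAll.succ (ClAll.succ ClAll.zero n103) n104)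

def n139 : Cl (O (nat_lit 3)) (R (nat_lit 102673))
    (p (nat_lit 0xb0014) (nat_lit 1) (p (nat_lit 0x111) (nat_lit 0) (p (nat_lit 0x20000c) (nat_lit 0) (p (nat_lit 0x200004) (nat_lit 0) (p (nat_lit 0xc9) (nat_lit 1) (p (nat_lit 0x81) (nat_lit 0) (p (nat_lit 0x101) (nat_lit 1) (p (nat_lit 0x119) (nat_lit 0) (p (nat_lit 0xd1) (nat_lit 0) (p (nat_lit 0x89) (nat_lit 0) (p (nat_lit 0x41) (nat_lit 0) (p (nat_lit 0x898a0b090a9a) (nat_lit 0) (p (nat_lit 0x9098a888a1a) (nat_lit 0) (p (nat_lit 0x88890a08079a) (nat_lit 0) (p (nat_lit 0x8088987871a) (nat_lit 0) (p (nat_lit 0x80000800078907088a) (nat_lit 0) (p (nat_lit 0x80000800070886860a) (nat_lit 0) (p (nat_lit 0x8708060782) (nat_lit 0) (p (nat_lit 0x687858702) (nat_lit 0) (p (nat_lit 0x8607050482) (nat_lit 0) (p (nat_lit 0x586848402) (nat_lit 0) (p (nat_lit 0x160014) (nat_lit 0) (p (nat_lit 0x50612) (nat_lit 0) (p (nat_lit 0x40592)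 (nat_lit 0) (p (nat_lit 0x40492) (nat_lit 0) (p (nat_lit 0x30412) (nat_lit 0) (p (nat_lit 0x30212) (nat_lit 0) (p (nat_lit 0x20192) (nat_lit 0) (p (nat_lit 0x20092) (nat_lit 0) (p (nat_lit 0x10012) (nat_lit 0) pn)))))))))))))))))))))))))))))) :=
  Cl.node (nat_lit 0x2a825aa8258a0b89890a) (nat_lit 1) (by decide +kernel) (ClAll.succ ClAll.zero n105)

def n140 : Cl (O (nat_lit 3)) (R (nat_lit 102673))
    (p (nat_lit 0xb0014) (nat_lit 0) (p (nat_lit 0x20000c) (nat_lit 0) (p (nat_lit 0x200004) (nat_lit 0) (p (nat_lit 0xc9) (nat_lit 1) (p (nat_lit 0xc1) (nat_lit 0) (p (nat_lit 0x81) (nat_lit 1) (p (nat_lit 0x101) (nat_lit 1) (p (nat_lit 0x119) (nat_lit 0) (p (nat_lit 0xd1) (nat_lit 0) (p (nat_lit 0x89) (nat_lit 0) (p (nat_lit 0x41) (nat_lit 0) (p (nat_lit 0x898a0b090a9a) (nat_lit 0) (p (nat_lit 0x9098a888a1a) (nat_lit 0) (p (nat_lit 0x88890a08079a) (nat_lit 0) (p (nat_lit 0x8088987871a)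 (nat_lit 0) (p (nat_lit 0x80000800078907088a) (nat_lit 0) (p (nat_lit 0x80000800070886860a) (nat_lit 0) (p (nat_lit 0x8708060782) (nat_lit 0) (p (nat_lit 0x687858702) (nat_lit 0) (p (nat_lit 0x8607050482) (nat_lit 0) (p (nat_lit 0x586848402) (nat_lit 0) (p (nat_lit 0x160014) (nat_lit 0) (p (nat_lit 0x50612) (nat_lit 0) (p (nat_lit 0x40592) (nat_lit 0) (p (nat_lit 0x40492) (nat_lit 0) (p (nat_lit 0x30412) (nat_lit 0) (p (nat_lit 0x30212) (nat_lit 0) (p (nat_lit 0x20192) (nat_lit 0) (p (nat_lit 0x20092) (nat_lit 0) (p (nat_lit 0x10012) (nat_lit 0) pn)))))))))))))))))))))))))))))) :=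
  Cl.node (nat_lit 0x109) (nat_lit 2) (by decide +kernel) (ClAll.succ (ClAll.succ ClAll.zero n106) n107)

def n141 : Cl (O (nat_lit 3)) (R (nat_lit 102673))
    (p (nat_lit 0xb0014) (nat_lit 1) (p (nat_lit 0x20000c) (nat_lit 0) (p (nat_lit 0x200004) (nat_lit 0) (p (nat_lit 0xc9) (nat_lit 1) (p (nat_lit 0xc1) (nat_lit 0) (p (nat_lit 0x81) (nat_lit 1) (p (nat_lit 0x101) (nat_lit 1) (p (nat_lit 0x119) (nat_lit 0) (p (nat_lit 0xd1) (nat_lit 0) (p (nat_lit 0x89) (nat_lit 0) (p (nat_lit 0x41) (nat_lit 0) (p (nat_lit 0x898a0b090a9a) (nat_lit 0) (p (nat_lit 0x9098a888a1a) (nat_lit 0) (p (nat_lit 0x88890a08079a) (nat_lit 0) (p (nat_lit 0x8088987871a) (nat_lit 0) (p (nat_lit 0x80000800078907088a) (nat_lit 0) (p (nat_lit 0x80000800070886860a) (nat_lit 0) (p (nat_lit 0x8708060782) (nat_lit 0) (p (nat_lit 0x687858702) (nat_lit 0) (p (nat_lit 0x8607050482) (nat_lit 0) (p (nat_lit 0x586848402)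 (nat_lit 0) (p (nat_lit 0x160014) (nat_lit 0) (p (nat_lit 0x50612) (nat_lit 0) (p (nat_lit 0x40592) (nat_lit 0) (p (nat_lit 0x40492) (nat_lit 0) (p (nat_lit 0x30412) (nat_lit 0) (p (nat_lit 0x30212) (nat_lit 0) (p (nat_lit 0x20192) (nat_lit 0) (p (nat_lit 0x20092) (nat_lit 0) (p (nat_lit 0x10012) (nat_lit 0) pn)))))))))))))))))))))))))))))) :=
  Cl.node (nat_lit 0x2a825aa8258a0b89890a) (nat_lit 1) (by decide +kernel) (ClAll.succ ClAll.zero n108)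

def n142 : Cl (O (nat_lit 3)) (R (nat_lit 102673))
    (p (nat_lit 0xb0014) (nat_lit 0) (p (nat_lit 0x20000c) (nat_lit 0) (p (nat_lit 0x200004) (nat_lit 0) (p (nat_lit 0x109) (nat_lit 1) (p (nat_lit 0x101) (nat_lit 0) (p (nat_lit 0x81) (nat_lit 1) (p (nat_lit 0xc1) (nat_lit 1) (p (nat_lit 0x119) (nat_lit 1) (p (nat_lit 0xd1) (nat_lit 0) (p (nat_lit 0x89) (nat_lit 0) (p (nat_lit 0x41) (nat_lit 0) (p (nat_lit 0x898a0b090a9a) (nat_lit 0) (p (nat_lit 0x9098a888a1a) (nat_lit 0) (p (nat_lit 0x88890a08079a) (nat_lit 0) (p (nat_lit 0x8088987871a) (nat_lit 0) (p (nat_lit 0x80000800078907088a) (nat_lit 0) (p (nat_lit 0x80000800070886860a) (nat_lit 0) (p (nat_lit 0x8708060782) (nat_lit 0) (p (nat_lit 0x687858702) (nat_lit 0) (p (nat_lit 0x8607050482) (nat_lit 0) (p (nat_lit 0x586848402) (nat_lit 0) (p (nat_lit 0x160014) (nat_lit 0) (p (nat_lit 0x50612) (nat_lit 0) (p (nat_lit 0x40592)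 (nat_lit 0) (p (nat_lit 0x40492) (nat_lit 0) (p (nat_lit 0x30412) (nat_lit 0) (p (nat_lit 0x30212) (nat_lit 0) (p (nat_lit 0x20192) (nat_lit 0) (p (nat_lit 0x20092) (nat_lit 0) (p (nat_lit 0x10012) (nat_lit 0) pn)))))))))))))))))))))))))))))) :=
  Cl.node (nat_lit 0xc9) (nat_lit 2) (by decide +kernel) (ClAll.succ (ClAll.succ ClAll.zero s62) n109)

def n143 : Cl (O (nat_lit 3)) (R (nat_lit 102673))
    (p (nat_lit 0xb0014) (nat_lit 1) (p (nat_lit 0x20000c) (nat_lit 0) (p (nat_lit 0x200004) (nat_lit 0) (p (nat_lit 0x109) (nat_lit 1) (p (nat_lit 0x101) (nat_lit 0) (p (nat_lit 0x81) (nat_lit 1) (p (nat_lit 0xc1) (nat_lit 1) (p (nat_lit 0x119) (nat_lit 1) (p (nat_lit 0xd1) (nat_lit 0) (p (nat_lit 0x89) (nat_lit 0) (p (nat_lit 0x41) (nat_lit 0) (p (nat_lit 0x898a0b090a9a) (nat_lit 0) (p (nat_lit 0x9098a888a1a) (nat_lit 0) (p (nat_lit 0x88890a08079a) (nat_lit 0) (p (nat_lit 0x8088987871a)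 (nat_lit 0) (p (nat_lit 0x80000800078907088a) (nat_lit 0) (p (nat_lit 0x80000800070886860a) (nat_lit 0) (p (nat_lit 0x8708060782) (nat_lit 0) (p (nat_lit 0x687858702) (nat_lit 0) (p (nat_lit 0x8607050482) (nat_lit 0) (p (nat_lit 0x586848402) (nat_lit 0) (p (nat_lit 0x160014) (nat_lit 0) (p (nat_lit 0x50612) (nat_lit 0) (p (nat_lit 0x40592) (nat_lit 0) (p (nat_lit 0x40492) (nat_lit 0) (p (nat_lit 0x30412) (nat_lit 0) (p (nat_lit 0x30212) (nat_lit 0) (p (nat_lit 0x20192) (nat_lit 0) (p (nat_lit 0x20092) (nat_lit 0) (p (nat_lit 0x10012) (nat_lit 0) pn)))))))))))))))))))))))))))))) :=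
  Cl.node (nat_lit 0x2a825aa8258a0b89890a) (nat_lit 1) (by decide +kernel) (ClAll.succ ClAll.zero n110)

def n144 : Cl (O (nat_lit 3)) (R (nat_lit 102673))
    (p (nat_lit 0xb0014) (nat_lit 0) (p (nat_lit 0x119) (nat_lit 0) (p (nat_lit 0x20000c) (nat_lit 0) (p (nat_lit 0x200004) (nat_lit 0) (p (nat_lit 0xc1) (nat_lit 0) (p (nat_lit 0x81) (nat_lit 1) (p (nat_lit 0x101) (nat_lit 1) (p (nat_lit 0x111) (nat_lit 0) (p (nat_lit 0xd1) (nat_lit 1) (p (nat_lit 0x89) (nat_lit 0) (p (nat_lit 0x41) (nat_lit 0) (p (nat_lit 0x898a0b090a9a) (nat_lit 0) (p (nat_lit 0x9098a888a1a) (nat_lit 0) (p (nat_lit 0x88890a08079a) (nat_lit 0) (p (nat_lit 0x8088987871a) (nat_lit 0) (p (nat_lit 0x80000800078907088a) (nat_lit 0) (p (nat_lit 0x80000800070886860a) (nat_lit 0) (p (nat_lit 0x8708060782) (nat_lit 0) (p (nat_lit 0x687858702) (nat_lit 0) (p (nat_lit 0x8607050482) (nat_lit 0) (p (nat_lit 0x586848402)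 (nat_lit 0) (p (nat_lit 0x160014) (nat_lit 0) (p (nat_lit 0x50612) (nat_lit 0) (p (nat_lit 0x40592) (nat_lit 0) (p (nat_lit 0x40492) (nat_lit 0) (p (nat_lit 0x30412) (nat_lit 0) (p (nat_lit 0x30212) (nat_lit 0) (p (nat_lit 0x20192) (nat_lit 0) (p (nat_lit 0x20092) (nat_lit 0) (p (nat_lit 0x10012) (nat_lit 0) pn)))))))))))))))))))))))))))))) :=
  Cl.node (nat_lit 0x109) (nat_lit 2) (by decide +kernel) (ClAll.succ (ClAll.succ ClAll.zero n111) n112)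

def n145 : Cl (O (nat_lit 3)) (R (nat_lit 102673))
    (p (nat_lit 0xb0014) (nat_lit 0) (p (nat_lit 0x119) (nat_lit 1) (p (nat_lit 0x20000c) (nat_lit 0) (p (nat_lit 0x200004) (nat_lit 0) (p (nat_lit 0xc1) (nat_lit 0) (p (nat_lit 0x81) (nat_lit 1) (p (nat_lit 0x101) (nat_lit 1) (p (nat_lit 0x111) (nat_lit 0) (p (nat_lit 0xd1) (nat_lit 1) (p (nat_lit 0x89) (nat_lit 0) (p (nat_lit 0x41) (nat_lit 0) (p (nat_lit 0x898a0b090a9a) (nat_lit 0) (p (nat_lit 0x9098a888a1a) (nat_lit 0) (p (nat_lit 0x88890a08079a) (nat_lit 0) (p (nat_lit 0x8088987871a) (nat_lit 0) (p (nat_lit 0x80000800078907088a) (nat_lit 0) (p (nat_lit 0x80000800070886860a) (nat_lit 0) (p (nat_lit 0x8708060782) (nat_lit 0) (p (nat_lit 0x687858702) (nat_lit 0) (p (nat_lit 0x8607050482) (nat_lit 0) (p (nat_lit 0x586848402) (nat_lit 0) (p (nat_lit 0x160014) (nat_lit 0) (p (nat_lit 0x50612) (nat_lit 0) (p (nat_lit 0x40592)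 (nat_lit 0) (p (nat_lit 0x40492) (nat_lit 0) (p (nat_lit 0x30412) (nat_lit 0) (p (nat_lit 0x30212) (nat_lit 0) (p (nat_lit 0x20192) (nat_lit 0) (p (nat_lit 0x20092) (nat_lit 0) (p (nat_lit 0x10012) (nat_lit 0) pn)))))))))))))))))))))))))))))) :=
  Cl.node (nat_lit 0xc9) (nat_lit 2) (by decide +kernel) (ClAll.succ (ClAll.succ ClAll.zero n113) n114)

def n146 : Cl (O (nat_lit 3)) (R (nat_lit 102673))
    (p (nat_lit 0xb0014) (nat_lit 1) (p (nat_lit 0x119) (nat_lit 1) (p (nat_lit 0x20000c) (nat_lit 0) (p (nat_lit 0x200004) (nat_lit 0) (p (nat_lit 0xc1) (nat_lit 0) (p (nat_lit 0x81) (nat_lit 1) (p (nat_lit 0x101) (nat_lit 1) (p (nat_lit 0x111) (nat_lit 0) (p (nat_lit 0xd1) (nat_lit 1) (p (nat_lit 0x89) (nat_lit 0) (p (nat_lit 0x41) (nat_lit 0) (p (nat_lit 0x898a0b090a9a) (nat_lit 0) (p (nat_lit 0x9098a888a1a) (nat_lit 0) (p (nat_lit 0x88890a08079a) (nat_lit 0) (p (nat_lit 0x8088987871a)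 (nat_lit 0) (p (nat_lit 0x80000800078907088a) (nat_lit 0) (p (nat_lit 0x80000800070886860a) (nat_lit 0) (p (nat_lit 0x8708060782) (nat_lit 0) (p (nat_lit 0x687858702) (nat_lit 0) (p (nat_lit 0x8607050482) (nat_lit 0) (p (nat_lit 0x586848402) (nat_lit 0) (p (nat_lit 0x160014) (nat_lit 0) (p (nat_lit 0x50612) (nat_lit 0) (p (nat_lit 0x40592) (nat_lit 0) (p (nat_lit 0x40492) (nat_lit 0) (p (nat_lit 0x30412) (nat_lit 0) (p (nat_lit 0x30212) (nat_lit 0) (p (nat_lit 0x20192) (nat_lit 0) (p (nat_lit 0x20092) (nat_lit 0) (p (nat_lit 0x10012) (nat_lit 0) pn)))))))))))))))))))))))))))))) :=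
  Cl.node (nat_lit 0x2a825aa8258a0b89890a) (nat_lit 1) (by decide +kernel) (ClAll.succ ClAll.zero n115)

def n147 : Cl (O (nat_lit 3)) (R (nat_lit 102673))
    (p (nat_lit 0x109) (nat_lit 0) (p (nat_lit 0xb0014) (nat_lit 0) (p (nat_lit 0x20000c) (nat_lit 0) (p (nat_lit 0x200004) (nat_lit 0) (p (nat_lit 0x101) (nat_lit 0) (p (nat_lit 0xc1) (nat_lit 1) (p (nat_lit 0x81) (nat_lit 1) (p (nat_lit 0x111) (nat_lit 1) (p (nat_lit 0xd1) (nat_lit 1) (p (nat_lit 0x89) (nat_lit 0) (p (nat_lit 0x41) (nat_lit 0) (p (nat_lit 0x898a0b090a9a) (nat_lit 0) (p (nat_lit 0x9098a888a1a) (nat_lit 0) (p (nat_lit 0x88890a08079a) (nat_lit 0) (p (nat_lit 0x8088987871a) (nat_lit 0) (p (nat_lit 0x80000800078907088a) (nat_lit 0) (p (nat_lit 0x80000800070886860a) (nat_lit 0) (p (nat_lit 0x8708060782) (nat_lit 0) (p (nat_lit 0x687858702) (nat_lit 0) (p (nat_lit 0x8607050482) (nat_lit 0) (p (nat_lit 0x586848402)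 (nat_lit 0) (p (nat_lit 0x160014) (nat_lit 0) (p (nat_lit 0x50612) (nat_lit 0) (p (nat_lit 0x40592) (nat_lit 0) (p (nat_lit 0x40492) (nat_lit 0) (p (nat_lit 0x30412) (nat_lit 0) (p (nat_lit 0x30212) (nat_lit 0) (p (nat_lit 0x20192) (nat_lit 0) (p (nat_lit 0x20092) (nat_lit 0) (p (nat_lit 0x10012) (nat_lit 0) pn)))))))))))))))))))))))))))))) :=
  Cl.node (nat_lit 0x119) (nat_lit 2) (by decide +kernel) (ClAll.succ (ClAll.succ ClAll.zero s113) n116)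

def n148 : Cl (O (nat_lit 3)) (R (nat_lit 102673))
    (p (nat_lit 0x2a825aa8258a0b89890a) (nat_lit 0) (p (nat_lit 0xb0014) (nat_lit 1) (p (nat_lit 0x20000c) (nat_lit 0) (p (nat_lit 0x200004) (nat_lit 0) (p (nat_lit 0x101) (nat_lit 0) (p (nat_lit 0xc1) (nat_lit 1) (p (nat_lit 0x81) (nat_lit 1) (p (nat_lit 0x111) (nat_lit 1) (p (nat_lit 0xd1) (nat_lit 1) (p (nat_lit 0x89) (nat_lit 0) (p (nat_lit 0x41) (nat_lit 0) (p (nat_lit 0x898a0b090a9a) (nat_lit 0) (p (nat_lit 0x9098a888a1a) (nat_lit 0) (p (nat_lit 0x88890a08079a) (nat_lit 0) (p (nat_lit 0x8088987871a) (nat_lit 0) (p (nat_lit 0x80000800078907088a) (nat_lit 0) (p (nat_lit 0x80000800070886860a) (nat_lit 0) (p (nat_lit 0x8708060782) (nat_lit 0) (p (nat_lit 0x687858702) (nat_lit 0) (p (nat_lit 0x8607050482) (nat_lit 0) (p (nat_lit 0x586848402) (nat_lit 0) (p (nat_lit 0x160014) (nat_lit 0) (p (nat_lit 0x50612) (nat_lit 0)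 (p (nat_lit 0x40592) (nat_lit 0) (p (nat_lit 0x40492) (nat_lit 0) (p (nat_lit 0x30412) (nat_lit 0) (p (nat_lit 0x30212) (nat_lit 0) (p (nat_lit 0x20192) (nat_lit 0) (p (nat_lit 0x20092) (nat_lit 0) (p (nat_lit 0x10012) (nat_lit 0) pn)))))))))))))))))))))))))))))) :=
  Cl.node (nat_lit 0x2a825aa8258a8c0a0b8a) (nat_lit 1) (by decide +kernel) (ClAll.succ ClAll.zero n117)

def n149 : Cl (O (nat_lit 3)) (R (nat_lit 102673))
    (p (nat_lit 0x41) (nat_lit 0) (p (nat_lit 0xb0014) (nat_lit 0) (p (nat_lit 0x20000c) (nat_lit 0) (p (nat_lit 0x200004) (nat_lit 0) (p (nat_lit 0xd1) (nat_lit 1) (p (nat_lit 0x109) (nat_lit 1) (p (nat_lit 0x101) (nat_lit 0) (p (nat_lit 0x119) (nat_lit 0) (p (nat_lit 0xc9) (nat_lit 0) (p (nat_lit 0x89) (nat_lit 1) (p (nat_lit 0x41) (nat_lit 0) (p (nat_lit 0x898a0b090a9a) (nat_lit 0) (p (nat_lit 0x9098a888a1a) (nat_lit 0) (p (nat_lit 0x88890a08079a) (nat_lit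 0) (p (nat_lit 0x8088987871a) (nat_lit 0) (p (nat_lit 0x80000800078907088a) (nat_lit 0) (p (nat_lit 0x80000800070886860a) (nat_lit 0) (p (nat_lit 0x8708060782) (nat_lit 0) (p (nat_lit 0x687858702) (nat_lit 0) (p (nat_lit 0x8607050482) (nat_lit 0) (p (nat_lit 0x586848402) (nat_lit 0) (p (nat_lit 0x160014) (nat_lit 0) (p (nat_lit 0x50612) (nat_lit 0) (p (nat_lit 0x40592) (nat_lit 0) (p (nat_lit 0x40492) (nat_lit 0) (p (nat_lit 0x30412) (nat_lit 0) (p (nat_lit 0x30212) (nat_lit 0) (p (nat_lit 0x20192) (nat_lit 0) (p (nat_lit 0x20092) (nat_lit 0) (p (nat_lit 0x10012) (nat_lit 0) pn)))))))))))))))))))))))))))))) :=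
  Cl.node (nat_lit 0x111) (nat_lit 2) (by decide +kernel) (ClAll.succ (ClAll.succ ClAll.zero n118) n119)

def n150 : Cl (O (nat_lit 3)) (R (nat_lit 102673))
    (p (nat_lit 0x2a825aa8258a0b89890a) (nat_lit 0) (p (nat_lit 0xb0014) (nat_lit 1) (p (nat_lit 0x20000c) (nat_lit 0) (p (nat_lit 0x200004) (nat_lit 0) (p (nat_lit 0xd1) (nat_lit 1) (p (nat_lit 0x109) (nat_lit 1) (p (nat_lit 0x101) (nat_lit 0) (p (nat_lit 0x119) (nat_lit 0) (p (nat_lit 0xc9) (nat_lit 0) (p (nat_lit 0x89) (nat_lit 1) (p (nat_lit 0x41) (nat_lit 0) (p (nat_lit 0x898a0b090a9a) (nat_lit 0) (p (nat_lit 0x9098a888a1a) (nat_lit 0) (p (nat_lit 0x88890a08079a) (nat_lit 0) (p (nat_lit 0x8088987871a) (nat_lit 0) (p (nat_lit 0x80000800078907088a) (nat_lit 0) (p (nat_lit 0x80000800070886860a) (nat_lit 0) (p (nat_lit 0x8708060782) (nat_lit 0) (p (nat_lit 0x687858702) (nat_lit 0) (p (nat_lit 0x8607050482) (nat_lit 0)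 (p (nat_lit 0x586848402) (nat_lit 0) (p (nat_lit 0x160014) (nat_lit 0) (p (nat_lit 0x50612) (nat_lit 0) (p (nat_lit 0x40592) (nat_lit 0) (p (nat_lit 0x40492) (nat_lit 0) (p (nat_lit 0x30412) (nat_lit 0) (p (nat_lit 0x30212) (nat_lit 0) (p (nat_lit 0x20192) (nat_lit 0) (p (nat_lit 0x20092) (nat_lit 0) (p (nat_lit 0x10012) (nat_lit 0) pn)))))))))))))))))))))))))))))) :=
  Cl.node (nat_lit 0x2a825aa8258a8c0a0b8a) (nat_lit 1) (by decide +kernel) (ClAll.succ ClAll.zero n120)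

def n151 : Cl (O (nat_lit 3)) (R (nat_lit 102673))
    (p (nat_lit 0x109) (nat_lit 0) (p (nat_lit 0xb0014) (nat_lit 0) (p (nat_lit 0x20000c) (nat_lit 0) (p (nat_lit 0x200004) (nat_lit 0) (p (nat_lit 0xd1) (nat_lit 1) (p (nat_lit 0xc1) (nat_lit 0) (p (nat_lit 0x101) (nat_lit 1) (p (nat_lit 0x119) (nat_lit 0) (p (nat_lit 0xc9) (nat_lit 0) (p (nat_lit 0x89) (nat_lit 1) (p (nat_lit 0x41) (nat_lit 0) (p (nat_lit 0x898a0b090a9a) (nat_lit 0) (p (nat_lit 0x9098a888a1a) (nat_lit 0) (p (nat_lit 0x88890a08079a) (nat_lit 0) (p (nat_lit 0x8088987871a) (nat_lit 0) (p (nat_lit 0x80000800078907088a) (nat_lit 0) (p (nat_lit 0x80000800070886860a) (nat_lit 0) (p (nat_lit 0x8708060782) (nat_lit 0) (p (nat_lit 0x687858702) (nat_lit 0) (p (nat_lit 0x8607050482) (nat_lit 0) (p (nat_lit 0x586848402) (nat_lit 0) (p (nat_lit 0x160014) (nat_lit 0) (p (nat_lit 0x50612) (nat_lit 0) (p (nat_lit 0x40592)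 (nat_lit 0) (p (nat_lit 0x40492) (nat_lit 0) (p (nat_lit 0x30412) (nat_lit 0) (p (nat_lit 0x30212) (nat_lit 0) (p (nat_lit 0x20192) (nat_lit 0) (p (nat_lit 0x20092) (nat_lit 0) (p (nat_lit 0x10012) (nat_lit 0) pn)))))))))))))))))))))))))))))) :=
  Cl.node (nat_lit 0x111) (nat_lit 2) (by decide +kernel) (ClAll.succ (ClAll.succ ClAll.zero s151) s152)

def n152 : Cl (O (nat_lit 3)) (R (nat_lit 102673))
    (p (nat_lit 0x109) (nat_lit 1) (p (nat_lit 0xb0014) (nat_lit 0) (p (nat_lit 0x20000c) (nat_lit 0) (p (nat_lit 0x200004) (nat_lit 0) (p (nat_lit 0xd1) (nat_lit 1) (p (nat_lit 0xc1) (nat_lit 0) (p (nat_lit 0x101) (nat_lit 1) (p (nat_lit 0x119) (nat_lit 0) (p (nat_lit 0xc9) (nat_lit 0) (p (nat_lit 0x89) (nat_lit 1) (p (nat_lit 0x41) (nat_lit 0) (p (nat_lit 0x898a0b090a9a) (nat_lit 0) (p (nat_lit 0x9098a888a1a) (nat_lit 0) (p (nat_lit 0x88890a08079a) (nat_lit 0) (p (nat_lit 0x8088987871a)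 (nat_lit 0) (p (nat_lit 0x80000800078907088a) (nat_lit 0) (p (nat_lit 0x80000800070886860a) (nat_lit 0) (p (nat_lit 0x8708060782) (nat_lit 0) (p (nat_lit 0x687858702) (nat_lit 0) (p (nat_lit 0x8607050482) (nat_lit 0) (p (nat_lit 0x586848402) (nat_lit 0) (p (nat_lit 0x160014) (nat_lit 0) (p (nat_lit 0x50612) (nat_lit 0) (p (nat_lit 0x40592) (nat_lit 0) (p (nat_lit 0x40492) (nat_lit 0) (p (nat_lit 0x30412) (nat_lit 0) (p (nat_lit 0x30212) (nat_lit 0) (p (nat_lit 0x20192) (nat_lit 0) (p (nat_lit 0x20092) (nat_lit 0) (p (nat_lit 0x10012) (nat_lit 0) pn)))))))))))))))))))))))))))))) :=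
  Cl.node (nat_lit 0x81) (nat_lit 2) (by decide +kernel) (ClAll.succ (ClAll.succ ClAll.zero n121) s155)

def n153 : Cl (O (nat_lit 3)) (R (nat_lit 102673))
    (p (nat_lit 0x2a825aa8258a0b89890a) (nat_lit 0) (p (nat_lit 0xb0014) (nat_lit 1) (p (nat_lit 0x20000c) (nat_lit 0) (p (nat_lit 0x200004) (nat_lit 0) (p (nat_lit 0xd1) (nat_lit 1) (p (nat_lit 0xc1) (nat_lit 0) (p (nat_lit 0x101) (nat_lit 1) (p (nat_lit 0x119) (nat_lit 0) (p (nat_lit 0xc9) (nat_lit 0) (p (nat_lit 0x89) (nat_lit 1) (p (nat_lit 0x41) (nat_lit 0) (p (nat_lit 0x898a0b090a9a) (nat_lit 0) (p (nat_lit 0x9098a888a1a) (nat_lit 0) (p (nat_lit 0x88890a08079a) (nat_lit 0) (p (nat_lit 0x8088987871a) (nat_lit 0) (p (nat_lit 0x80000800078907088a) (nat_lit 0) (p (nat_lit 0x80000800070886860a) (nat_lit 0) (p (nat_lit 0x8708060782) (nat_lit 0) (p (nat_lit 0x687858702) (nat_lit 0) (p (nat_lit 0x8607050482) (nat_lit 0)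 (p (nat_lit 0x586848402) (nat_lit 0) (p (nat_lit 0x160014) (nat_lit 0) (p (nat_lit 0x50612) (nat_lit 0) (p (nat_lit 0x40592) (nat_lit 0) (p (nat_lit 0x40492) (nat_lit 0) (p (nat_lit 0x30412) (nat_lit 0) (p (nat_lit 0x30212) (nat_lit 0) (p (nat_lit 0x20192) (nat_lit 0) (p (nat_lit 0x20092) (nat_lit 0) (p (nat_lit 0x10012) (nat_lit 0) pn)))))))))))))))))))))))))))))) :=
  Cl.node (nat_lit 0x2a825aa8258a8c0a0b8a) (nat_lit 1) (by decide +kernel) (ClAll.succ ClAll.zero n122)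

def n154 : Cl (O (nat_lit 3)) (R (nat_lit 102673))
    (p (nat_lit 0xd1) (nat_lit 1) (p (nat_lit 0xb0014) (nat_lit 0) (p (nat_lit 0x20000c) (nat_lit 0) (p (nat_lit 0x200004) (nat_lit 0) (p (nat_lit 0x111) (nat_lit 1) (p (nat_lit 0x101) (nat_lit 0) (p (nat_lit 0xc1) (nat_lit 1) (p (nat_lit 0x119) (nat_lit 1) (p (nat_lit 0xc9) (nat_lit 0) (p (nat_lit 0x89) (nat_lit 1) (p (nat_lit 0x41) (nat_lit 0) (p (nat_lit 0x898a0b090a9a) (nat_lit 0) (p (nat_lit 0x9098a888a1a) (nat_lit 0) (p (nat_lit 0x88890a08079a) (nat_lit 0) (p (nat_lit 0x8088987871a) (nat_lit 0) (p (nat_lit 0x80000800078907088a) (nat_lit 0) (p (nat_lit 0x80000800070886860a) (nat_lit 0) (p (nat_lit 0x8708060782) (nat_lit 0) (p (nat_lit 0x687858702) (nat_lit 0) (p (nat_lit 0x8607050482) (nat_lit 0) (p (nat_lit 0x586848402) (nat_lit 0) (p (nat_lit 0x160014) (nat_lit 0) (p (nat_lit 0x50612) (nat_lit 0) (p (nat_lit 0x40592)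 (nat_lit 0) (p (nat_lit 0x40492) (nat_lit 0) (p (nat_lit 0x30412) (nat_lit 0) (p (nat_lit 0x30212) (nat_lit 0) (p (nat_lit 0x20192) (nat_lit 0) (p (nat_lit 0x20092) (nat_lit 0) (p (nat_lit 0x10012) (nat_lit 0) pn)))))))))))))))))))))))))))))) :=
  Cl.node (nat_lit 0x81) (nat_lit 2) (by decide +kernel) (ClAll.succ (ClAll.succ ClAll.zero s174) s175)

def n155 : Cl (O (nat_lit 3)) (R (nat_lit 102673))
    (p (nat_lit 0x2a825aa8258a0b89890a) (nat_lit 0) (p (nat_lit 0xb0014) (nat_lit 1) (p (nat_lit 0x20000c) (nat_lit 0) (p (nat_lit 0x200004) (nat_lit 0) (p (nat_lit 0x111) (nat_lit 1) (p (nat_lit 0x101) (nat_lit 0) (p (nat_lit 0xc1) (nat_lit 1) (p (nat_lit 0x119) (nat_lit 1) (p (nat_lit 0xc9) (nat_lit 0) (p (nat_lit 0x89) (nat_lit 1) (p (nat_lit 0x41) (nat_lit 0) (p (nat_lit 0x898a0b090a9a) (nat_lit 0) (p (nat_lit 0x9098a888a1a) (nat_lit 0) (p (nat_lit 0x88890a08079a) (nat_lit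 0) (p (nat_lit 0x8088987871a) (nat_lit 0) (p (nat_lit 0x80000800078907088a) (nat_lit 0) (p (nat_lit 0x80000800070886860a) (nat_lit 0) (p (nat_lit 0x8708060782) (nat_lit 0) (p (nat_lit 0x687858702) (nat_lit 0) (p (nat_lit 0x8607050482) (nat_lit 0) (p (nat_lit 0x586848402) (nat_lit 0) (p (nat_lit 0x160014) (nat_lit 0) (p (nat_lit 0x50612) (nat_lit 0) (p (nat_lit 0x40592) (nat_lit 0) (p (nat_lit 0x40492) (nat_lit 0) (p (nat_lit 0x30412) (nat_lit 0) (p (nat_lit 0x30212) (nat_lit 0) (p (nat_lit 0x20192) (nat_lit 0) (p (nat_lit 0x20092) (nat_lit 0) (p (nat_lit 0x10012) (nat_lit 0) pn)))))))))))))))))))))))))))))) :=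
  Cl.node (nat_lit 0x2a825aa8258a8c0a0b8a) (nat_lit 1) (by decide +kernel) (ClAll.succ ClAll.zero n123)

def n156 : Cl (O (nat_lit 3)) (R (nat_lit 102673))
    (p (nat_lit 0xb0014) (nat_lit 0) (p (nat_lit 0x20000c) (nat_lit 0) (p (nat_lit 0x200004) (nat_lit 0) (p (nat_lit 0xc9) (nat_lit 1) (p (nat_lit 0x89) (nat_lit 1) (p (nat_lit 0xc1) (nat_lit 0) (p (nat_lit 0x101) (nat_lit 1) (p (nat_lit 0x119) (nat_lit 0) (p (nat_lit 0xd1) (nat_lit 0) (p (nat_lit 0x81) (nat_lit 0) (p (nat_lit 0x41) (nat_lit 1) (p (nat_lit 0x898a0b090a9a) (nat_lit 0) (p (nat_lit 0x9098a888a1a) (nat_lit 0) (p (nat_lit 0x88890a08079a) (nat_lit 0) (p (nat_lit 0x8088987871a) (nat_lit 0) (p (nat_lit 0x80000800078907088a) (nat_lit 0) (p (nat_lit 0x80000800070886860a) (nat_lit 0) (p (nat_lit 0x8708060782) (nat_lit 0) (p (nat_lit 0x687858702) (nat_lit 0) (p (nat_lit 0x8607050482) (nat_lit 0) (p (nat_lit 0x586848402)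 (nat_lit 0) (p (nat_lit 0x160014) (nat_lit 0) (p (nat_lit 0x50612) (nat_lit 0) (p (nat_lit 0x40592) (nat_lit 0) (p (nat_lit 0x40492) (nat_lit 0) (p (nat_lit 0x30412) (nat_lit 0) (p (nat_lit 0x30212) (nat_lit 0) (p (nat_lit 0x20192) (nat_lit 0) (p (nat_lit 0x20092) (nat_lit 0) (p (nat_lit 0x10012) (nat_lit 0) pn)))))))))))))))))))))))))))))) :=
  Cl.node (nat_lit 0x109) (nat_lit 2) (by decide +kernel) (ClAll.succ (ClAll.succ ClAll.zero s205) s206)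

def n157 : Cl (O (nat_lit 3)) (R (nat_lit 102673))
    (p (nat_lit 0x109) (nat_lit 0) (p (nat_lit 0xb0014) (nat_lit 0) (p (nat_lit 0x20000c) (nat_lit 0) (p (nat_lit 0x200004) (nat_lit 0) (p (nat_lit 0x89) (nat_lit 1) (p (nat_lit 0xc1) (nat_lit 1) (p (nat_lit 0x101) (nat_lit 1) (p (nat_lit 0x119) (nat_lit 0) (p (nat_lit 0xd1) (nat_lit 0) (p (nat_lit 0x81) (nat_lit 0) (p (nat_lit 0x41) (nat_lit 1) (p (nat_lit 0x898a0b090a9a) (nat_lit 0) (p (nat_lit 0x9098a888a1a) (nat_lit 0) (p (nat_lit 0x88890a08079a) (nat_lit 0) (p (nat_lit 0x8088987871a) (nat_lit 0) (p (nat_lit 0x80000800078907088a) (nat_lit 0) (p (nat_lit 0x80000800070886860a) (nat_lit 0) (p (nat_lit 0x8708060782) (nat_lit 0) (p (nat_lit 0x687858702) (nat_lit 0) (p (nat_lit 0x8607050482) (nat_lit 0) (p (nat_lit 0x586848402) (nat_lit 0) (p (nat_lit 0x160014) (nat_lit 0) (p (nat_lit 0x50612) (nat_lit 0) (p (nat_lit 0x40592)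 (nat_lit 0) (p (nat_lit 0x40492) (nat_lit 0) (p (nat_lit 0x30412) (nat_lit 0) (p (nat_lit 0x30212) (nat_lit 0) (p (nat_lit 0x20192) (nat_lit 0) (p (nat_lit 0x20092) (nat_lit 0) (p (nat_lit 0x10012) (nat_lit 0) pn)))))))))))))))))))))))))))))) :=
  Cl.node (nat_lit 0x101) (nat_lit 2) (by decide +kernel) (ClAll.succ (ClAll.succ ClAll.zero n124) n125)

def n158 : Cl (O (nat_lit 3)) (R (nat_lit 102673))
    (p (nat_lit 0x109) (nat_lit 1) (p (nat_lit 0xb0014) (nat_lit 0) (p (nat_lit 0x20000c) (nat_lit 0) (p (nat_lit 0x200004) (nat_lit 0) (p (nat_lit 0x89) (nat_lit 1) (p (nat_lit 0xc1) (nat_lit 1) (p (nat_lit 0x101) (nat_lit 1) (p (nat_lit 0x119) (nat_lit 0) (p (nat_lit 0xd1) (nat_lit 0) (p (nat_lit 0x81) (nat_lit 0) (p (nat_lit 0x41) (nat_lit 1) (p (nat_lit 0x898a0b090a9a) (nat_lit 0) (p (nat_lit 0x9098a888a1a) (nat_lit 0) (p (nat_lit 0x88890a08079a) (nat_lit 0) (p (nat_lit 0x8088987871a)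 (nat_lit 0) (p (nat_lit 0x80000800078907088a) (nat_lit 0) (p (nat_lit 0x80000800070886860a) (nat_lit 0) (p (nat_lit 0x8708060782) (nat_lit 0) (p (nat_lit 0x687858702) (nat_lit 0) (p (nat_lit 0x8607050482) (nat_lit 0) (p (nat_lit 0x586848402) (nat_lit 0) (p (nat_lit 0x160014) (nat_lit 0) (p (nat_lit 0x50612) (nat_lit 0) (p (nat_lit 0x40592) (nat_lit 0) (p (nat_lit 0x40492) (nat_lit 0) (p (nat_lit 0x30412) (nat_lit 0) (p (nat_lit 0x30212) (nat_lit 0) (p (nat_lit 0x20192) (nat_lit 0) (p (nat_lit 0x20092) (nat_lit 0) (p (nat_lit 0x10012) (nat_lit 0) pn)))))))))))))))))))))))))))))) :=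
  Cl.node (nat_lit 0x41) (nat_lit 2) (by decide +kernel) (ClAll.succ (ClAll.succ ClAll.zero n126) n127)

def n159 : Cl (O (nat_lit 3)) (R (nat_lit 102673))
    (p (nat_lit 0x2a825aa8258a0b89890a) (nat_lit 0) (p (nat_lit 0xb0014) (nat_lit 1) (p (nat_lit 0x20000c) (nat_lit 0) (p (nat_lit 0x200004) (nat_lit 0) (p (nat_lit 0x89) (nat_lit 1) (p (nat_lit 0xc1) (nat_lit 1) (p (nat_lit 0x101) (nat_lit 1) (p (nat_lit 0x119) (nat_lit 0) (p (nat_lit 0xd1) (nat_lit 0) (p (nat_lit 0x81) (nat_lit 0) (p (nat_lit 0x41) (nat_lit 1) (p (nat_lit 0x898a0b090a9a) (nat_lit 0) (p (nat_lit 0x9098a888a1a) (nat_lit 0) (p (nat_lit 0x88890a08079a) (nat_lit 0) (p (nat_lit 0x8088987871a) (nat_lit 0) (p (nat_lit 0x80000800078907088a) (nat_lit 0) (p (nat_lit 0x80000800070886860a) (nat_lit 0) (p (nat_lit 0x8708060782) (nat_lit 0) (p (nat_lit 0x687858702) (nat_lit 0) (p (nat_lit 0x8607050482) (nat_lit 0)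 (p (nat_lit 0x586848402) (nat_lit 0) (p (nat_lit 0x160014) (nat_lit 0) (p (nat_lit 0x50612) (nat_lit 0) (p (nat_lit 0x40592) (nat_lit 0) (p (nat_lit 0x40492) (nat_lit 0) (p (nat_lit 0x30412) (nat_lit 0) (p (nat_lit 0x30212) (nat_lit 0) (p (nat_lit 0x20192) (nat_lit 0) (p (nat_lit 0x20092) (nat_lit 0) (p (nat_lit 0x10012) (nat_lit 0) pn)))))))))))))))))))))))))))))) :=
  Cl.node (nat_lit 0x2a825aa8258a8c0a0b8a) (nat_lit 1) (by decide +kernel) (ClAll.succ ClAll.zero n128)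

def n160 : Cl (O (nat_lit 3)) (R (nat_lit 102673))
    (p (nat_lit 0xc9) (nat_lit 1) (p (nat_lit 0xb0014) (nat_lit 0) (p (nat_lit 0x20000c) (nat_lit 0) (p (nat_lit 0x200004) (nat_lit 0) (p (nat_lit 0x89) (nat_lit 1) (p (nat_lit 0x101) (nat_lit 1) (p (nat_lit 0xc1) (nat_lit 1) (p (nat_lit 0x119) (nat_lit 1) (p (nat_lit 0xd1) (nat_lit 0) (p (nat_lit 0x81) (nat_lit 0) (p (nat_lit 0x41) (nat_lit 1) (p (nat_lit 0x898a0b090a9a) (nat_lit 0) (p (nat_lit 0x9098a888a1a) (nat_lit 0) (p (nat_lit 0x88890a08079a) (nat_lit 0) (p (nat_lit 0x8088987871a) (nat_lit 0) (p (nat_lit 0x80000800078907088a) (nat_lit 0) (p (nat_lit 0x80000800070886860a) (nat_lit 0) (p (nat_lit 0x8708060782) (nat_lit 0) (p (nat_lit 0x687858702) (nat_lit 0) (p (nat_lit 0x8607050482) (nat_lit 0) (p (nat_lit 0x586848402) (nat_lit 0) (p (nat_lit 0x160014) (nat_lit 0) (p (nat_lit 0x50612) (nat_lit 0) (p (nat_lit 0x40592)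 (nat_lit 0) (p (nat_lit 0x40492) (nat_lit 0) (p (nat_lit 0x30412) (nat_lit 0) (p (nat_lit 0x30212) (nat_lit 0) (p (nat_lit 0x20192) (nat_lit 0) (p (nat_lit 0x20092) (nat_lit 0) (p (nat_lit 0x10012) (nat_lit 0) pn)))))))))))))))))))))))))))))) :=
  Cl.node (nat_lit 0x41) (nat_lit 2) (by decide +kernel) (ClAll.succ (ClAll.succ ClAll.zero s253) s254)

def n161 : Cl (O (nat_lit 3)) (R (nat_lit 102673))
    (p (nat_lit 0x2a825aa8258a0b89890a) (nat_lit 0) (p (nat_lit 0xb0014) (nat_lit 1) (p (nat_lit 0x20000c) (nat_lit 0) (p (nat_lit 0x200004) (nat_lit 0) (p (nat_lit 0x89) (nat_lit 1) (p (nat_lit 0x101) (nat_lit 1) (p (nat_lit 0xc1) (nat_lit 1) (p (nat_lit 0x119) (nat_lit 1) (p (nat_lit 0xd1) (nat_lit 0) (p (nat_lit 0x81) (nat_lit 0) (p (nat_lit 0x41) (nat_lit 1) (p (nat_lit 0x898a0b090a9a) (nat_lit 0) (p (nat_lit 0x9098a888a1a) (nat_lit 0) (p (nat_lit 0x88890a08079a) (nat_lit 0)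 (p (nat_lit 0x8088987871a) (nat_lit 0) (p (nat_lit 0x80000800078907088a) (nat_lit 0) (p (nat_lit 0x80000800070886860a) (nat_lit 0) (p (nat_lit 0x8708060782) (nat_lit 0) (p (nat_lit 0x687858702) (nat_lit 0) (p (nat_lit 0x8607050482) (nat_lit 0) (p (nat_lit 0x586848402) (nat_lit 0) (p (nat_lit 0x160014) (nat_lit 0) (p (nat_lit 0x50612) (nat_lit 0) (p (nat_lit 0x40592) (nat_lit 0) (p (nat_lit 0x40492) (nat_lit 0) (p (nat_lit 0x30412) (nat_lit 0) (p (nat_lit 0x30212) (nat_lit 0) (p (nat_lit 0x20192) (nat_lit 0) (p (nat_lit 0x20092) (nat_lit 0) (p (nat_lit 0x10012) (nat_lit 0) pn)))))))))))))))))))))))))))))) :=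
  Cl.node (nat_lit 0x2a825aa8258a8c0a0b8a) (nat_lit 1) (by decide +kernel) (ClAll.succ ClAll.zero n129)

def n162 : Cl (O (nat_lit 3)) (R (nat_lit 102673))
    (p (nat_lit 0x119) (nat_lit 0) (p (nat_lit 0x20000c) (nat_lit 0) (p (nat_lit 0x200004) (nat_lit 0) (p (nat_lit 0xc9) (nat_lit 0) (p (nat_lit 0x89) (nat_lit 1) (p (nat_lit 0x109) (nat_lit 1) (p (nat_lit 0x101) (nat_lit 0) (p (nat_lit 0x111) (nat_lit 0) (p (nat_lit 0xd1) (nat_lit 1) (p (nat_lit 0x81) (nat_lit 0) (p (nat_lit 0x41) (nat_lit 1) (p (nat_lit 0x898a0b090a9a) (nat_lit 0) (p (nat_lit 0x9098a888a1a) (nat_lit 0) (p (nat_lit 0x88890a08079a) (nat_lit 0) (p (nat_lit 0x8088987871a) (nat_lit 0) (p (nat_lit 0x80000800078907088a) (nat_lit 0) (p (nat_lit 0x80000800070886860a) (nat_lit 0) (p (nat_lit 0x8708060782) (nat_lit 0) (p (nat_lit 0x687858702) (nat_lit 0) (p (nat_lit 0x8607050482) (nat_lit 0) (p (nat_lit 0x586848402)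 (nat_lit 0) (p (nat_lit 0x160014) (nat_lit 0) (p (nat_lit 0x50612) (nat_lit 0) (p (nat_lit 0x40592) (nat_lit 0) (p (nat_lit 0x40492) (nat_lit 0) (p (nat_lit 0x30412) (nat_lit 0) (p (nat_lit 0x30212) (nat_lit 0) (p (nat_lit 0x20192) (nat_lit 0) (p (nat_lit 0x20092) (nat_lit 0) (p (nat_lit 0x10012) (nat_lit 0) pn)))))))))))))))))))))))))))))) :=
  Cl.node (nat_lit 0xb0014) (nat_lit 2) (by decide +kernel) (ClAll.succ (ClAll.succ ClAll.zero n130) s267)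

def n163 : Cl (O (nat_lit 3)) (R (nat_lit 102673))
    (p (nat_lit 0x119) (nat_lit 1) (p (nat_lit 0x20000c) (nat_lit 0) (p (nat_lit 0x200004) (nat_lit 0) (p (nat_lit 0xc9) (nat_lit 0) (p (nat_lit 0x89) (nat_lit 1) (p (nat_lit 0x109) (nat_lit 1) (p (nat_lit 0x101) (nat_lit 0) (p (nat_lit 0x111) (nat_lit 0) (p (nat_lit 0xd1) (nat_lit 1) (p (nat_lit 0x81) (nat_lit 0) (p (nat_lit 0x41) (nat_lit 1) (p (nat_lit 0x898a0b090a9a) (nat_lit 0) (p (nat_lit 0x9098a888a1a) (nat_lit 0) (p (nat_lit 0x88890a08079a) (nat_lit 0) (p (nat_lit 0x8088987871a) (nat_lit 0) (p (nat_lit 0x80000800078907088a) (nat_lit 0) (p (nat_lit 0x80000800070886860a) (nat_lit 0) (p (nat_lit 0x8708060782) (nat_lit 0) (p (nat_lit 0x687858702) (nat_lit 0) (p (nat_lit 0x8607050482) (nat_lit 0) (p (nat_lit 0x586848402) (nat_lit 0) (p (nat_lit 0x160014) (nat_lit 0) (p (nat_lit 0x50612) (nat_lit 0) (p (nat_lit 0x40592)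 (nat_lit 0) (p (nat_lit 0x40492) (nat_lit 0) (p (nat_lit 0x30412) (nat_lit 0) (p (nat_lit 0x30212) (nat_lit 0) (p (nat_lit 0x20192) (nat_lit 0) (p (nat_lit 0x20092) (nat_lit 0) (p (nat_lit 0x10012) (nat_lit 0) pn)))))))))))))))))))))))))))))) :=
  Cl.node (nat_lit 0xb0014) (nat_lit 2) (by decide +kernel) (ClAll.succ (ClAll.succ ClAll.zero n131) s276)

def n164 : Cl (O (nat_lit 3)) (R (nat_lit 102673))
    (p (nat_lit 0xb0014) (nat_lit 0) (p (nat_lit 0x20000c) (nat_lit 1) (p (nat_lit 0x200004) (nat_lit 0) (p (nat_lit 0xc9) (nat_lit 0) (p (nat_lit 0x89) (nat_lit 1) (p (nat_lit 0x109) (nat_lit 1) (p (nat_lit 0x101) (nat_lit 0) (p (nat_lit 0x111) (nat_lit 0) (p (nat_lit 0xd1) (nat_lit 1) (p (nat_lit 0x81) (nat_lit 0) (p (nat_lit 0x41) (nat_lit 1) (p (nat_lit 0x898a0b090a9a) (nat_lit 0) (p (nat_lit 0x9098a888a1a) (nat_lit 0) (p (nat_lit 0x88890a08079a) (nat_lit 0) (p (nat_lit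 0x8088987871a) (nat_lit 0) (p (nat_lit 0x80000800078907088a) (nat_lit 0) (p (nat_lit 0x80000800070886860a) (nat_lit 0) (p (nat_lit 0x8708060782) (nat_lit 0) (p (nat_lit 0x687858702) (nat_lit 0) (p (nat_lit 0x8607050482) (nat_lit 0) (p (nat_lit 0x586848402) (nat_lit 0) (p (nat_lit 0x160014) (nat_lit 0) (p (nat_lit 0x50612) (nat_lit 0) (p (nat_lit 0x40592) (nat_lit 0) (p (nat_lit 0x40492) (nat_lit 0) (p (nat_lit 0x30412) (nat_lit 0) (p (nat_lit 0x30212) (nat_lit 0) (p (nat_lit 0x20192) (nat_lit 0) (p (nat_lit 0x20092) (nat_lit 0) (p (nat_lit 0x10012) (nat_lit 0) pn)))))))))))))))))))))))))))))) :=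
  Cl.node (nat_lit 0x119) (nat_lit 2) (by decide +kernel) (ClAll.succ (ClAll.succ ClAll.zero s277) s278)

def n165 : Cl (O (nat_lit 3)) (R (nat_lit 102673))
    (p (nat_lit 0x81) (nat_lit 1) (p (nat_lit 0x119) (nat_lit 0) (p (nat_lit 0xb0014) (nat_lit 0) (p (nat_lit 0x20000c) (nat_lit 0) (p (nat_lit 0x200004) (nat_lit 0) (p (nat_lit 0x89) (nat_lit 0) (p (nat_lit 0x101) (nat_lit 1) (p (nat_lit 0x111) (nat_lit 0) (p (nat_lit 0xd1) (nat_lit 1) (p (nat_lit 0x81) (nat_lit 0) (p (nat_lit 0x41) (nat_lit 1) (p (nat_lit 0x898a0b090a9a) (nat_lit 0) (p (nat_lit 0x9098a888a1a) (nat_lit 0) (p (nat_lit 0x88890a08079a) (nat_lit 0) (p (nat_lit 0x8088987871a) (nat_lit 0) (p (nat_lit 0x80000800078907088a) (nat_lit 0) (p (nat_lit 0x80000800070886860a) (nat_lit 0) (p (nat_lit 0x8708060782) (nat_lit 0) (p (nat_lit 0x687858702) (nat_lit 0) (p (nat_lit 0x8607050482) (nat_lit 0) (p (nat_lit 0x586848402)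 (nat_lit 0) (p (nat_lit 0x160014) (nat_lit 0) (p (nat_lit 0x50612) (nat_lit 0) (p (nat_lit 0x40592) (nat_lit 0) (p (nat_lit 0x40492) (nat_lit 0) (p (nat_lit 0x30412) (nat_lit 0) (p (nat_lit 0x30212) (nat_lit 0) (p (nat_lit 0x20192) (nat_lit 0) (p (nat_lit 0x20092) (nat_lit 0) (p (nat_lit 0x10012) (nat_lit 0) pn)))))))))))))))))))))))))))))) :=
  Cl.node (nat_lit 0x101) (nat_lit 2) (by decide +kernel) (ClAll.succ (ClAll.succ ClAll.zero s283) s284)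

def n166 : Cl (O (nat_lit 3)) (R (nat_lit 102673))
    (p (nat_lit 0x2a825aa8258a8c0a0b8a) (nat_lit 0) (p (nat_lit 0x2a825aa8258a0b89890a) (nat_lit 0) (p (nat_lit 0xb0014) (nat_lit 1) (p (nat_lit 0x20000c) (nat_lit 0) (p (nat_lit 0x200004) (nat_lit 0) (p (nat_lit 0x89) (nat_lit 0) (p (nat_lit 0x101) (nat_lit 1) (p (nat_lit 0x111) (nat_lit 0) (p (nat_lit 0xd1) (nat_lit 1) (p (nat_lit 0x81) (nat_lit 0) (p (nat_lit 0x41) (nat_lit 1) (p (nat_lit 0x898a0b090a9a) (nat_lit 0) (p (nat_lit 0x9098a888a1a) (nat_lit 0) (p (nat_lit 0x88890a08079a) (nat_lit 0) (p (nat_lit 0x8088987871a) (nat_lit 0) (p (nat_lit 0x80000800078907088a) (nat_lit 0) (p (nat_lit 0x80000800070886860a) (nat_lit 0) (p (nat_lit 0x8708060782) (nat_lit 0) (p (nat_lit 0x687858702) (nat_lit 0) (p (nat_lit 0x8607050482) (nat_lit 0) (p (nat_lit 0x586848402) (nat_lit 0) (p (nat_lit 0x160014) (nat_lit 0) (p (nat_lit 0x50612)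 (nat_lit 0) (p (nat_lit 0x40592) (nat_lit 0) (p (nat_lit 0x40492) (nat_lit 0) (p (nat_lit 0x30412) (nat_lit 0) (p (nat_lit 0x30212) (nat_lit 0) (p (nat_lit 0x20192) (nat_lit 0) (p (nat_lit 0x20092) (nat_lit 0) (p (nat_lit 0x10012) (nat_lit 0) pn)))))))))))))))))))))))))))))) :=
  Cl.node (nat_lit 0xb0b8c8a8a1a) (nat_lit 1) (by decide +kernel) (ClAll.succ ClAll.zero n132)

def n167 : Cl (O (nat_lit 3)) (R (nat_lit 102673))
    (p (nat_lit 0x119) (nat_lit 0) (p (nat_lit 0xb0014) (nat_lit 0) (p (nat_lit 0x20000c) (nat_lit 0) (p (nat_lit 0x200004) (nat_lit 0) (p (nat_lit 0xc9) (nat_lit 0) (p (nat_lit 0x89) (nat_lit 1) (p (nat_lit 0x101) (nat_lit 1) (p (nat_lit 0x111) (nat_lit 0) (p (nat_lit 0xd1) (nat_lit 1) (p (nat_lit 0x81) (nat_lit 0) (p (nat_lit 0x41) (nat_lit 1) (p (nat_lit 0x898a0b090a9a) (nat_lit 0) (p (nat_lit 0x9098a888a1a) (nat_lit 0) (p (nat_lit 0x88890a08079a) (nat_lit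 0) (p (nat_lit 0x8088987871a) (nat_lit 0) (p (nat_lit 0x80000800078907088a) (nat_lit 0) (p (nat_lit 0x80000800070886860a) (nat_lit 0) (p (nat_lit 0x8708060782) (nat_lit 0) (p (nat_lit 0x687858702) (nat_lit 0) (p (nat_lit 0x8607050482) (nat_lit 0) (p (nat_lit 0x586848402) (nat_lit 0) (p (nat_lit 0x160014) (nat_lit 0) (p (nat_lit 0x50612) (nat_lit 0) (p (nat_lit 0x40592) (nat_lit 0) (p (nat_lit 0x40492) (nat_lit 0) (p (nat_lit 0x30412) (nat_lit 0) (p (nat_lit 0x30212) (nat_lit 0) (p (nat_lit 0x20192) (nat_lit 0) (p (nat_lit 0x20092) (nat_lit 0) (p (nat_lit 0x10012) (nat_lit 0) pn)))))))))))))))))))))))))))))) :=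
  Cl.node (nat_lit 0x101) (nat_lit 2) (by decide +kernel) (ClAll.succ (ClAll.succ ClAll.zero n133) n134)

def n168 : Cl (O (nat_lit 3)) (R (nat_lit 102673))
    (p (nat_lit 0x119) (nat_lit 1) (p (nat_lit 0xb0014) (nat_lit 0) (p (nat_lit 0x20000c) (nat_lit 0) (p (nat_lit 0x200004) (nat_lit 0) (p (nat_lit 0xc9) (nat_lit 0) (p (nat_lit 0x89) (nat_lit 1) (p (nat_lit 0x101) (nat_lit 1) (p (nat_lit 0x111) (nat_lit 0) (p (nat_lit 0xd1) (nat_lit 1) (p (nat_lit 0x81) (nat_lit 0) (p (nat_lit 0x41) (nat_lit 1) (p (nat_lit 0x898a0b090a9a) (nat_lit 0) (p (nat_lit 0x9098a888a1a) (nat_lit 0) (p (nat_lit 0x88890a08079a) (nat_lit 0) (p (nat_lit 0x8088987871a) (nat_lit 0) (p (nat_lit 0x80000800078907088a) (nat_lit 0) (p (nat_lit 0x80000800070886860a) (nat_lit 0) (p (nat_lit 0x8708060782) (nat_lit 0) (p (nat_lit 0x687858702) (nat_lit 0) (p (nat_lit 0x8607050482) (nat_lit 0) (p (nat_lit 0x586848402)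 (nat_lit 0) (p (nat_lit 0x160014) (nat_lit 0) (p (nat_lit 0x50612) (nat_lit 0) (p (nat_lit 0x40592) (nat_lit 0) (p (nat_lit 0x40492) (nat_lit 0) (p (nat_lit 0x30412) (nat_lit 0) (p (nat_lit 0x30212) (nat_lit 0) (p (nat_lit 0x20192) (nat_lit 0) (p (nat_lit 0x20092) (nat_lit 0) (p (nat_lit 0x10012) (nat_lit 0) pn)))))))))))))))))))))))))))))) :=
  Cl.node (nat_lit 0xc1) (nat_lit 2) (by decide +kernel) (ClAll.succ (ClAll.succ ClAll.zero n135) n136)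

def n169 : Cl (O (nat_lit 3)) (R (nat_lit 102673))
    (p (nat_lit 0x2a825aa8258a0b89890a) (nat_lit 0) (p (nat_lit 0xb0014) (nat_lit 1) (p (nat_lit 0x20000c) (nat_lit 0) (p (nat_lit 0x200004) (nat_lit 0) (p (nat_lit 0xc9) (nat_lit 0) (p (nat_lit 0x89) (nat_lit 1) (p (nat_lit 0x101) (nat_lit 1) (p (nat_lit 0x111) (nat_lit 0) (p (nat_lit 0xd1) (nat_lit 1) (p (nat_lit 0x81) (nat_lit 0) (p (nat_lit 0x41) (nat_lit 1) (p (nat_lit 0x898a0b090a9a) (nat_lit 0) (p (nat_lit 0x9098a888a1a) (nat_lit 0) (p (nat_lit 0x88890a08079a) (nat_lit 0) (p (nat_lit 0x8088987871a) (nat_lit 0) (p (nat_lit 0x80000800078907088a) (nat_lit 0) (p (nat_lit 0x80000800070886860a) (nat_lit 0) (p (nat_lit 0x8708060782) (nat_lit 0) (p (nat_lit 0x687858702) (nat_lit 0) (p (nat_lit 0x8607050482) (nat_lit 0) (p (nat_lit 0x586848402) (nat_lit 0) (p (nat_lit 0x160014) (nat_lit 0) (p (nat_lit 0x50612) (nat_lit 0)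 (p (nat_lit 0x40592) (nat_lit 0) (p (nat_lit 0x40492) (nat_lit 0) (p (nat_lit 0x30412) (nat_lit 0) (p (nat_lit 0x30212) (nat_lit 0) (p (nat_lit 0x20192) (nat_lit 0) (p (nat_lit 0x20092) (nat_lit 0) (p (nat_lit 0x10012) (nat_lit 0) pn)))))))))))))))))))))))))))))) :=
  Cl.node (nat_lit 0x2a825aa8258a8c0a0b8a) (nat_lit 1) (by decide +kernel) (ClAll.succ ClAll.zero n137)

def n170 : Cl (O (nat_lit 3)) (R (nat_lit 102673))
    (p (nat_lit 0x101) (nat_lit 0) (p (nat_lit 0xb0014) (nat_lit 0) (p (nat_lit 0x20000c) (nat_lit 0) (p (nat_lit 0x200004) (nat_lit 0) (p (nat_lit 0x109) (nat_lit 0) (p (nat_lit 0xc9) (nat_lit 1) (p (nat_lit 0x89) (nat_lit 1) (p (nat_lit 0x111) (nat_lit 1) (p (nat_lit 0xd1) (nat_lit 1) (p (nat_lit 0x81) (nat_lit 0) (p (nat_lit 0x41) (nat_lit 1) (p (nat_lit 0x898a0b090a9a) (nat_lit 0) (p (nat_lit 0x9098a888a1a) (nat_lit 0) (p (nat_lit 0x88890a08079a) (nat_lit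 0) (p (nat_lit 0x8088987871a) (nat_lit 0) (p (nat_lit 0x80000800078907088a) (nat_lit 0) (p (nat_lit 0x80000800070886860a) (nat_lit 0) (p (nat_lit 0x8708060782) (nat_lit 0) (p (nat_lit 0x687858702) (nat_lit 0) (p (nat_lit 0x8607050482) (nat_lit 0) (p (nat_lit 0x586848402) (nat_lit 0) (p (nat_lit 0x160014) (nat_lit 0) (p (nat_lit 0x50612) (nat_lit 0) (p (nat_lit 0x40592) (nat_lit 0) (p (nat_lit 0x40492) (nat_lit 0) (p (nat_lit 0x30412) (nat_lit 0) (p (nat_lit 0x30212) (nat_lit 0) (p (nat_lit 0x20192) (nat_lit 0) (p (nat_lit 0x20092) (nat_lit 0) (p (nat_lit 0x10012) (nat_lit 0) pn)))))))))))))))))))))))))))))) :=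
  Cl.node (nat_lit 0x119) (nat_lit 2) (by decide +kernel) (ClAll.succ (ClAll.succ ClAll.zero s317) s318)

def n171 : Cl (O (nat_lit 3)) (R (nat_lit 102673))
    (p (nat_lit 0xb0014) (nat_lit 0) (p (nat_lit 0x20000c) (nat_lit 0) (p (nat_lit 0x200004) (nat_lit 0) (p (nat_lit 0xd1) (nat_lit 1) (p (nat_lit 0x111) (nat_lit 1) (p (nat_lit 0x109) (nat_lit 0) (p (nat_lit 0x101) (nat_lit 0) (p (nat_lit 0x119) (nat_lit 0) (p (nat_lit 0xc1) (nat_lit 0) (p (nat_lit 0x81) (nat_lit 1) (p (nat_lit 0x41) (nat_lit 1) (p (nat_lit 0x898a0b090a9a) (nat_lit 0) (p (nat_lit 0x9098a888a1a) (nat_lit 0) (p (nat_lit 0x88890a08079a) (nat_lit 0) (p (nat_lit 0x8088987871a) (nat_lit 0) (p (nat_lit 0x80000800078907088a) (nat_lit 0) (p (nat_lit 0x80000800070886860a) (nat_lit 0) (p (nat_lit 0x8708060782) (nat_lit 0) (p (nat_lit 0x687858702) (nat_lit 0) (p (nat_lit 0x8607050482) (nat_lit 0) (p (nat_lit 0x586848402)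 (nat_lit 0) (p (nat_lit 0x160014) (nat_lit 0) (p (nat_lit 0x50612) (nat_lit 0) (p (nat_lit 0x40592) (nat_lit 0) (p (nat_lit 0x40492) (nat_lit 0) (p (nat_lit 0x30412) (nat_lit 0) (p (nat_lit 0x30212) (nat_lit 0) (p (nat_lit 0x20192) (nat_lit 0) (p (nat_lit 0x20092) (nat_lit 0) (p (nat_lit 0x10012) (nat_lit 0) pn)))))))))))))))))))))))))))))) :=
  Cl.node (nat_lit 0x81) (nat_lit 2) (by decide +kernel) (ClAll.succ (ClAll.succ ClAll.zero s326) s327)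

def n172 : Cl (O (nat_lit 3)) (R (nat_lit 102673))
    (p (nat_lit 0x111) (nat_lit 1) (p (nat_lit 0xb0014) (nat_lit 0) (p (nat_lit 0x20000c) (nat_lit 0) (p (nat_lit 0x200004) (nat_lit 0) (p (nat_lit 0xd1) (nat_lit 1) (p (nat_lit 0xc9) (nat_lit 0) (p (nat_lit 0x101) (nat_lit 1) (p (nat_lit 0x119) (nat_lit 0) (p (nat_lit 0xc1) (nat_lit 0) (p (nat_lit 0x81) (nat_lit 1) (p (nat_lit 0x41) (nat_lit 1) (p (nat_lit 0x898a0b090a9a) (nat_lit 0) (p (nat_lit 0x9098a888a1a) (nat_lit 0) (p (nat_lit 0x88890a08079a) (nat_lit 0) (p (nat_lit 0x8088987871a) (nat_lit 0) (p (nat_lit 0x80000800078907088a) (nat_lit 0) (p (nat_lit 0x80000800070886860a) (nat_lit 0) (p (nat_lit 0x8708060782) (nat_lit 0) (p (nat_lit 0x687858702) (nat_lit 0) (p (nat_lit 0x8607050482) (nat_lit 0) (p (nat_lit 0x586848402) (nat_lit 0) (p (nat_lit 0x160014) (nat_lit 0) (p (nat_lit 0x50612) (nat_lit 0) (p (nat_lit 0x40592)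 (nat_lit 0) (p (nat_lit 0x40492) (nat_lit 0) (p (nat_lit 0x30412) (nat_lit 0) (p (nat_lit 0x30212) (nat_lit 0) (p (nat_lit 0x20192) (nat_lit 0) (p (nat_lit 0x20092) (nat_lit 0) (p (nat_lit 0x10012) (nat_lit 0) pn)))))))))))))))))))))))))))))) :=
  Cl.node (nat_lit 0x81) (nat_lit 2) (by decide +kernel) (ClAll.succ (ClAll.succ ClAll.zero s342) s343)

def n173 : Cl (O (nat_lit 3)) (R (nat_lit 102673))
    (p (nat_lit 0x81) (nat_lit 1) (p (nat_lit 0x20000c) (nat_lit 0) (p (nat_lit 0x200004) (nat_lit 0) (p (nat_lit 0xc9) (nat_lit 1) (p (nat_lit 0x109) (nat_lit 1) (p (nat_lit 0x101) (nat_lit 0) (p (nat_lit 0x119) (nat_lit 0) (p (nat_lit 0xd1) (nat_lit 0) (p (nat_lit 0x89) (nat_lit 0) (p (nat_lit 0x41) (nat_lit 0) (p (nat_lit 0x898a0b090a9a) (nat_lit 0) (p (nat_lit 0x9098a888a1a) (nat_lit 0) (p (nat_lit 0x88890a08079a) (nat_lit 0) (p (nat_lit 0x8088987871a) (nat_lit 0) (p (nat_lit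 0x80000800078907088a) (nat_lit 0) (p (nat_lit 0x80000800070886860a) (nat_lit 0) (p (nat_lit 0x8708060782) (nat_lit 0) (p (nat_lit 0x687858702) (nat_lit 0) (p (nat_lit 0x8607050482) (nat_lit 0) (p (nat_lit 0x586848402) (nat_lit 0) (p (nat_lit 0x160014) (nat_lit 0) (p (nat_lit 0x50612) (nat_lit 0) (p (nat_lit 0x40592) (nat_lit 0) (p (nat_lit 0x40492) (nat_lit 0) (p (nat_lit 0x30412) (nat_lit 0) (p (nat_lit 0x30212) (nat_lit 0) (p (nat_lit 0x20192) (nat_lit 0) (p (nat_lit 0x20092) (nat_lit 0) (p (nat_lit 0x10012) (nat_lit 0) pn))))))))))))))))))))))))))))) :=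
  Cl.node (nat_lit 0xb0014) (nat_lit 2) (by decide +kernel) (ClAll.succ (ClAll.succ ClAll.zero s3) s4)

def n174 : Cl (O (nat_lit 3)) (R (nat_lit 102673))
    (p (nat_lit 0x111) (nat_lit 0) (p (nat_lit 0x20000c) (nat_lit 0) (p (nat_lit 0x200004) (nat_lit 0) (p (nat_lit 0xc9) (nat_lit 0) (p (nat_lit 0x81) (nat_lit 0) (p (nat_lit 0x101) (nat_lit 1) (p (nat_lit 0x119) (nat_lit 0) (p (nat_lit 0xd1) (nat_lit 0) (p (nat_lit 0x89) (nat_lit 0) (p (nat_lit 0x41) (nat_lit 0) (p (nat_lit 0x898a0b090a9a) (nat_lit 0) (p (nat_lit 0x9098a888a1a) (nat_lit 0) (p (nat_lit 0x88890a08079a) (nat_lit 0) (p (nat_lit 0x8088987871a) (nat_lit 0) (p (nat_lit 0x80000800078907088a) (nat_lit 0) (p (nat_lit 0x80000800070886860a) (nat_lit 0) (p (nat_lit 0x8708060782) (nat_lit 0) (p (nat_lit 0x687858702) (nat_lit 0) (p (nat_lit 0x8607050482) (nat_lit 0) (p (nat_lit 0x586848402) (nat_lit 0) (p (nat_lit 0x160014)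 (nat_lit 0) (p (nat_lit 0x50612) (nat_lit 0) (p (nat_lit 0x40592) (nat_lit 0) (p (nat_lit 0x40492) (nat_lit 0) (p (nat_lit 0x30412) (nat_lit 0) (p (nat_lit 0x30212) (nat_lit 0) (p (nat_lit 0x20192) (nat_lit 0) (p (nat_lit 0x20092) (nat_lit 0) (p (nat_lit 0x10012) (nat_lit 0) pn))))))))))))))))))))))))))))) :=
  Cl.node (nat_lit 0xb0014) (nat_lit 2) (by decide +kernel) (ClAll.succ (ClAll.succ ClAll.zero s7) s8)

def n175 : Cl (O (nat_lit 3)) (R (nat_lit 102673))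
    (p (nat_lit 0x111) (nat_lit 0) (p (nat_lit 0x20000c) (nat_lit 0) (p (nat_lit 0x200004) (nat_lit 0) (p (nat_lit 0xc9) (nat_lit 1) (p (nat_lit 0x81) (nat_lit 0) (p (nat_lit 0x101) (nat_lit 1) (p (nat_lit 0x119) (nat_lit 0) (p (nat_lit 0xd1) (nat_lit 0) (p (nat_lit 0x89) (nat_lit 0) (p (nat_lit 0x41) (nat_lit 0) (p (nat_lit 0x898a0b090a9a) (nat_lit 0) (p (nat_lit 0x9098a888a1a) (nat_lit 0) (p (nat_lit 0x88890a08079a) (nat_lit 0) (p (nat_lit 0x8088987871a) (nat_lit 0) (p (nat_lit 0x80000800078907088a) (nat_lit 0) (p (nat_lit 0x80000800070886860a) (nat_lit 0) (p (nat_lit 0x8708060782) (nat_lit 0) (p (nat_lit 0x687858702) (nat_lit 0) (p (nat_lit 0x8607050482) (nat_lit 0) (p (nat_lit 0x586848402) (nat_lit 0) (p (nat_lit 0x160014) (nat_lit 0) (p (nat_lit 0x50612) (nat_lit 0) (p (nat_lit 0x40592) (nat_lit 0) (p (nat_lit 0x40492) (nat_lit 0) (p (nat_lit 0x30412) (nat_lit 0) (p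 (nat_lit 0x30212) (nat_lit 0) (p (nat_lit 0x20192) (nat_lit 0) (p (nat_lit 0x20092) (nat_lit 0) (p (nat_lit 0x10012) (nat_lit 0) pn))))))))))))))))))))))))))))) :=
  Cl.node (nat_lit 0xb0014) (nat_lit 2) (by decide +kernel) (ClAll.succ (ClAll.succ ClAll.zero n138) n139)

def n176 : Cl (O (nat_lit 3)) (R (nat_lit 102673))
    (p (nat_lit 0x20000c) (nat_lit 0) (p (nat_lit 0x200004) (nat_lit 0) (p (nat_lit 0xc9) (nat_lit 0) (p (nat_lit 0xc1) (nat_lit 0) (p (nat_lit 0x81) (nat_lit 1) (p (nat_lit 0x101) (nat_lit 1) (p (nat_lit 0x119) (nat_lit 0) (p (nat_lit 0xd1) (nat_lit 0) (p (nat_lit 0x89) (nat_lit 0) (p (nat_lit 0x41) (nat_lit 0) (p (nat_lit 0x898a0b090a9a) (nat_lit 0) (p (nat_lit 0x9098a888a1a) (nat_lit 0) (p (nat_lit 0x88890a08079a) (nat_lit 0) (p (nat_lit 0x8088987871a) (nat_lit 0) (p (nat_lit 0x80000800078907088a) (nat_lit 0) (p (nat_lit 0x80000800070886860a) (nat_lit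 0) (p (nat_lit 0x8708060782) (nat_lit 0) (p (nat_lit 0x687858702) (nat_lit 0) (p (nat_lit 0x8607050482) (nat_lit 0) (p (nat_lit 0x586848402) (nat_lit 0) (p (nat_lit 0x160014) (nat_lit 0) (p (nat_lit 0x50612) (nat_lit 0) (p (nat_lit 0x40592) (nat_lit 0) (p (nat_lit 0x40492) (nat_lit 0) (p (nat_lit 0x30412) (nat_lit 0) (p (nat_lit 0x30212) (nat_lit 0) (p (nat_lit 0x20192) (nat_lit 0) (p (nat_lit 0x20092) (nat_lit 0) (p (nat_lit 0x10012) (nat_lit 0) pn))))))))))))))))))))))))))))) :=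
  Cl.node (nat_lit 0xb0014) (nat_lit 2) (by decide +kernel) (ClAll.succ (ClAll.succ ClAll.zero s28) s29)

def n177 : Cl (O (nat_lit 3)) (R (nat_lit 102673))
    (p (nat_lit 0x20000c) (nat_lit 0) (p (nat_lit 0x200004) (nat_lit 0) (p (nat_lit 0xc9) (nat_lit 1) (p (nat_lit 0xc1) (nat_lit 0) (p (nat_lit 0x81) (nat_lit 1) (p (nat_lit 0x101) (nat_lit 1) (p (nat_lit 0x119) (nat_lit 0) (p (nat_lit 0xd1) (nat_lit 0) (p (nat_lit 0x89) (nat_lit 0) (p (nat_lit 0x41) (nat_lit 0) (p (nat_lit 0x898a0b090a9a) (nat_lit 0) (p (nat_lit 0x9098a888a1a) (nat_lit 0) (p (nat_lit 0x88890a08079a) (nat_lit 0) (p (nat_lit 0x8088987871a) (nat_lit 0) (p (nat_lit 0x80000800078907088a) (nat_lit 0) (p (nat_lit 0x80000800070886860a) (nat_lit 0) (p (nat_lit 0x8708060782) (nat_lit 0) (p (nat_lit 0x687858702) (nat_lit 0) (p (nat_lit 0x8607050482) (nat_lit 0) (p (nat_lit 0x586848402) (nat_lit 0) (p (nat_lit 0x160014)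 (nat_lit 0) (p (nat_lit 0x50612) (nat_lit 0) (p (nat_lit 0x40592) (nat_lit 0) (p (nat_lit 0x40492) (nat_lit 0) (p (nat_lit 0x30412) (nat_lit 0) (p (nat_lit 0x30212) (nat_lit 0) (p (nat_lit 0x20192) (nat_lit 0) (p (nat_lit 0x20092) (nat_lit 0) (p (nat_lit 0x10012) (nat_lit 0) pn))))))))))))))))))))))))))))) :=
  Cl.node (nat_lit 0xb0014) (nat_lit 2) (by decide +kernel) (ClAll.succ (ClAll.succ ClAll.zero n140) n141)

def n178 : Cl (O (nat_lit 3)) (R (nat_lit 102673))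
    (p (nat_lit 0x20000c) (nat_lit 0) (p (nat_lit 0x200004) (nat_lit 0) (p (nat_lit 0x109) (nat_lit 0) (p (nat_lit 0x101) (nat_lit 0) (p (nat_lit 0x81) (nat_lit 1) (p (nat_lit 0xc1) (nat_lit 1) (p (nat_lit 0x119) (nat_lit 1) (p (nat_lit 0xd1) (nat_lit 0) (p (nat_lit 0x89) (nat_lit 0) (p (nat_lit 0x41) (nat_lit 0) (p (nat_lit 0x898a0b090a9a) (nat_lit 0) (p (nat_lit 0x9098a888a1a) (nat_lit 0) (p (nat_lit 0x88890a08079a) (nat_lit 0) (p (nat_lit 0x8088987871a) (nat_lit 0) (p (nat_lit 0x80000800078907088a) (nat_lit 0) (p (nat_lit 0x80000800070886860a) (nat_lit 0) (p (nat_lit 0x8708060782) (nat_lit 0) (p (nat_lit 0x687858702) (nat_lit 0) (p (nat_lit 0x8607050482) (nat_lit 0) (p (nat_lit 0x586848402) (nat_lit 0) (p (nat_lit 0x160014) (nat_lit 0) (p (nat_lit 0x50612) (nat_lit 0) (p (nat_lit 0x40592) (nat_lit 0) (p (nat_lit 0x40492) (nat_lit 0) (p (nat_lit 0x30412) (nat_lit 0) (p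 (nat_lit 0x30212) (nat_lit 0) (p (nat_lit 0x20192) (nat_lit 0) (p (nat_lit 0x20092) (nat_lit 0) (p (nat_lit 0x10012) (nat_lit 0) pn))))))))))))))))))))))))))))) :=
  Cl.node (nat_lit 0xb0014) (nat_lit 2) (by decide +kernel) (ClAll.succ (ClAll.succ ClAll.zero s58) s59)

def n179 : Cl (O (nat_lit 3)) (R (nat_lit 102673))
    (p (nat_lit 0x20000c) (nat_lit 0) (p (nat_lit 0x200004) (nat_lit 0) (p (nat_lit 0x109) (nat_lit 1) (p (nat_lit 0x101) (nat_lit 0) (p (nat_lit 0x81) (nat_lit 1) (p (nat_lit 0xc1) (nat_lit 1) (p (nat_lit 0x119) (nat_lit 1) (p (nat_lit 0xd1) (nat_lit 0) (p (nat_lit 0x89) (nat_lit 0) (p (nat_lit 0x41) (nat_lit 0) (p (nat_lit 0x898a0b090a9a) (nat_lit 0) (p (nat_lit 0x9098a888a1a) (nat_lit 0) (p (nat_lit 0x88890a08079a) (nat_lit 0) (p (nat_lit 0x8088987871a) (nat_lit 0) (p (nat_lit 0x80000800078907088a) (nat_lit 0) (p (nat_lit 0x80000800070886860a) (nat_lit 0)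 (p (nat_lit 0x8708060782) (nat_lit 0) (p (nat_lit 0x687858702) (nat_lit 0) (p (nat_lit 0x8607050482) (nat_lit 0) (p (nat_lit 0x586848402) (nat_lit 0) (p (nat_lit 0x160014) (nat_lit 0) (p (nat_lit 0x50612) (nat_lit 0) (p (nat_lit 0x40592) (nat_lit 0) (p (nat_lit 0x40492) (nat_lit 0) (p (nat_lit 0x30412) (nat_lit 0) (p (nat_lit 0x30212) (nat_lit 0) (p (nat_lit 0x20192) (nat_lit 0) (p (nat_lit 0x20092) (nat_lit 0) (p (nat_lit 0x10012) (nat_lit 0) pn))))))))))))))))))))))))))))) :=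
  Cl.node (nat_lit 0xb0014) (nat_lit 2) (by decide +kernel) (ClAll.succ (ClAll.succ ClAll.zero n142) n143)

def n180 : Cl (O (nat_lit 3)) (R (nat_lit 102673))
    (p (nat_lit 0x119) (nat_lit 0) (p (nat_lit 0x20000c) (nat_lit 0) (p (nat_lit 0x200004) (nat_lit 0) (p (nat_lit 0xc1) (nat_lit 0) (p (nat_lit 0x81) (nat_lit 1) (p (nat_lit 0x101) (nat_lit 1) (p (nat_lit 0x111) (nat_lit 0) (p (nat_lit 0xd1) (nat_lit 1) (p (nat_lit 0x89) (nat_lit 0) (p (nat_lit 0x41) (nat_lit 0) (p (nat_lit 0x898a0b090a9a) (nat_lit 0) (p (nat_lit 0x9098a888a1a) (nat_lit 0) (p (nat_lit 0x88890a08079a) (nat_lit 0) (p (nat_lit 0x8088987871a) (nat_lit 0) (p (nat_lit 0x80000800078907088a) (nat_lit 0) (p (nat_lit 0x80000800070886860a) (nat_lit 0) (p (nat_lit 0x8708060782) (nat_lit 0) (p (nat_lit 0x687858702) (nat_lit 0) (p (nat_lit 0x8607050482) (nat_lit 0) (p (nat_lit 0x586848402) (nat_lit 0) (p (nat_lit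 0x160014) (nat_lit 0) (p (nat_lit 0x50612) (nat_lit 0) (p (nat_lit 0x40592) (nat_lit 0) (p (nat_lit 0x40492) (nat_lit 0) (p (nat_lit 0x30412) (nat_lit 0) (p (nat_lit 0x30212) (nat_lit 0) (p (nat_lit 0x20192) (nat_lit 0) (p (nat_lit 0x20092) (nat_lit 0) (p (nat_lit 0x10012) (nat_lit 0) pn))))))))))))))))))))))))))))) :=
  Cl.node (nat_lit 0xb0014) (nat_lit 2) (by decide +kernel) (ClAll.succ (ClAll.succ ClAll.zero n144) s96)

def n181 : Cl (O (nat_lit 3)) (R (nat_lit 102673))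
    (p (nat_lit 0x119) (nat_lit 1) (p (nat_lit 0x20000c) (nat_lit 0) (p (nat_lit 0x200004) (nat_lit 0) (p (nat_lit 0xc1) (nat_lit 0) (p (nat_lit 0x81) (nat_lit 1) (p (nat_lit 0x101) (nat_lit 1) (p (nat_lit 0x111) (nat_lit 0) (p (nat_lit 0xd1) (nat_lit 1) (p (nat_lit 0x89) (nat_lit 0) (p (nat_lit 0x41) (nat_lit 0) (p (nat_lit 0x898a0b090a9a) (nat_lit 0) (p (nat_lit 0x9098a888a1a) (nat_lit 0) (p (nat_lit 0x88890a08079a) (nat_lit 0) (p (nat_lit 0x8088987871a) (nat_lit 0) (p (nat_lit 0x80000800078907088a) (nat_lit 0) (p (nat_lit 0x80000800070886860a) (nat_lit 0) (p (nat_lit 0x8708060782) (nat_lit 0) (p (nat_lit 0x687858702) (nat_lit 0) (p (nat_lit 0x8607050482) (nat_lit 0) (p (nat_lit 0x586848402) (nat_lit 0) (p (nat_lit 0x160014) (nat_lit 0) (p (nat_lit 0x50612) (nat_lit 0) (p (nat_lit 0x40592) (nat_lit 0) (p (nat_lit 0x40492) (nat_lit 0) (p (nat_lit 0x30412) (nat_lit 0) (p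 (nat_lit 0x30212) (nat_lit 0) (p (nat_lit 0x20192) (nat_lit 0) (p (nat_lit 0x20092) (nat_lit 0) (p (nat_lit 0x10012) (nat_lit 0) pn))))))))))))))))))))))))))))) :=
  Cl.node (nat_lit 0xb0014) (nat_lit 2) (by decide +kernel) (ClAll.succ (ClAll.succ ClAll.zero n145) n146)

def n182 : Cl (O (nat_lit 3)) (R (nat_lit 102673))
    (p (nat_lit 0xb0014) (nat_lit 0) (p (nat_lit 0x20000c) (nat_lit 1) (p (nat_lit 0x200004) (nat_lit 0) (p (nat_lit 0xc1) (nat_lit 0) (p (nat_lit 0x81) (nat_lit 1) (p (nat_lit 0x101) (nat_lit 1) (p (nat_lit 0x111) (nat_lit 0) (p (nat_lit 0xd1) (nat_lit 1) (p (nat_lit 0x89) (nat_lit 0) (p (nat_lit 0x41) (nat_lit 0) (p (nat_lit 0x898a0b090a9a) (nat_lit 0) (p (nat_lit 0x9098a888a1a) (nat_lit 0) (p (nat_lit 0x88890a08079a) (nat_lit 0) (p (nat_lit 0x8088987871a) (nat_lit 0) (p (nat_lit 0x80000800078907088a) (nat_lit 0) (p (nat_lit 0x80000800070886860a) (nat_lit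 0) (p (nat_lit 0x8708060782) (nat_lit 0) (p (nat_lit 0x687858702) (nat_lit 0) (p (nat_lit 0x8607050482) (nat_lit 0) (p (nat_lit 0x586848402) (nat_lit 0) (p (nat_lit 0x160014) (nat_lit 0) (p (nat_lit 0x50612) (nat_lit 0) (p (nat_lit 0x40592) (nat_lit 0) (p (nat_lit 0x40492) (nat_lit 0) (p (nat_lit 0x30412) (nat_lit 0) (p (nat_lit 0x30212) (nat_lit 0) (p (nat_lit 0x20192) (nat_lit 0) (p (nat_lit 0x20092) (nat_lit 0) (p (nat_lit 0x10012) (nat_lit 0) pn))))))))))))))))))))))))))))) :=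
  Cl.node (nat_lit 0x119) (nat_lit 2) (by decide +kernel) (ClAll.succ (ClAll.succ ClAll.zero s106) s107)

def n183 : Cl (O (nat_lit 3)) (R (nat_lit 102673))
    (p (nat_lit 0xb0014) (nat_lit 0) (p (nat_lit 0x20000c) (nat_lit 0) (p (nat_lit 0x200004) (nat_lit 0) (p (nat_lit 0x101) (nat_lit 0) (p (nat_lit 0xc1) (nat_lit 1) (p (nat_lit 0x81) (nat_lit 1) (p (nat_lit 0x111) (nat_lit 1) (p (nat_lit 0xd1) (nat_lit 1) (p (nat_lit 0x89) (nat_lit 0) (p (nat_lit 0x41) (nat_lit 0) (p (nat_lit 0x898a0b090a9a) (nat_lit 0) (p (nat_lit 0x9098a888a1a) (nat_lit 0) (p (nat_lit 0x88890a08079a) (nat_lit 0) (p (nat_lit 0x8088987871a) (nat_lit 0) (p (nat_lit 0x80000800078907088a) (nat_lit 0) (p (nat_lit 0x80000800070886860a) (nat_lit 0) (p (nat_lit 0x8708060782) (nat_lit 0) (p (nat_lit 0x687858702) (nat_lit 0) (p (nat_lit 0x8607050482) (nat_lit 0) (p (nat_lit 0x586848402) (nat_lit 0) (p (nat_lit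 0x160014) (nat_lit 0) (p (nat_lit 0x50612) (nat_lit 0) (p (nat_lit 0x40592) (nat_lit 0) (p (nat_lit 0x40492) (nat_lit 0) (p (nat_lit 0x30412) (nat_lit 0) (p (nat_lit 0x30212) (nat_lit 0) (p (nat_lit 0x20192) (nat_lit 0) (p (nat_lit 0x20092) (nat_lit 0) (p (nat_lit 0x10012) (nat_lit 0) pn))))))))))))))))))))))))))))) :=
  Cl.node (nat_lit 0x109) (nat_lit 2) (by decide +kernel) (ClAll.succ (ClAll.succ ClAll.zero n147) s116)

def n184 : Cl (O (nat_lit 3)) (R (nat_lit 102673))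
    (p (nat_lit 0xb0014) (nat_lit 1) (p (nat_lit 0x20000c) (nat_lit 0) (p (nat_lit 0x200004) (nat_lit 0) (p (nat_lit 0x101) (nat_lit 0) (p (nat_lit 0xc1) (nat_lit 1) (p (nat_lit 0x81) (nat_lit 1) (p (nat_lit 0x111) (nat_lit 1) (p (nat_lit 0xd1) (nat_lit 1) (p (nat_lit 0x89) (nat_lit 0) (p (nat_lit 0x41) (nat_lit 0) (p (nat_lit 0x898a0b090a9a) (nat_lit 0) (p (nat_lit 0x9098a888a1a) (nat_lit 0) (p (nat_lit 0x88890a08079a) (nat_lit 0) (p (nat_lit 0x8088987871a) (nat_lit 0) (p (nat_lit 0x80000800078907088a) (nat_lit 0) (p (nat_lit 0x80000800070886860a) (nat_lit 0) (p (nat_lit 0x8708060782) (nat_lit 0) (p (nat_lit 0x687858702) (nat_lit 0) (p (nat_lit 0x8607050482) (nat_lit 0) (p (nat_lit 0x586848402) (nat_lit 0) (p (nat_lit 0x160014) (nat_lit 0) (p (nat_lit 0x50612) (nat_lit 0) (p (nat_lit 0x40592) (nat_lit 0) (p (nat_lit 0x40492) (nat_lit 0) (p (nat_lit 0x30412) (nat_lit 0) (p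 (nat_lit 0x30212) (nat_lit 0) (p (nat_lit 0x20192) (nat_lit 0) (p (nat_lit 0x20092) (nat_lit 0) (p (nat_lit 0x10012) (nat_lit 0) pn))))))))))))))))))))))))))))) :=
  Cl.node (nat_lit 0x2a825aa8258a0b89890a) (nat_lit 1) (by decide +kernel) (ClAll.succ ClAll.zero n148)

def n185 : Cl (O (nat_lit 3)) (R (nat_lit 102673))
    (p (nat_lit 0xb0014) (nat_lit 0) (p (nat_lit 0x20000c) (nat_lit 0) (p (nat_lit 0x200004) (nat_lit 0) (p (nat_lit 0x101) (nat_lit 1) (p (nat_lit 0xc1) (nat_lit 1) (p (nat_lit 0x81) (nat_lit 1) (p (nat_lit 0x111) (nat_lit 1) (p (nat_lit 0xd1) (nat_lit 1) (p (nat_lit 0x89) (nat_lit 0) (p (nat_lit 0x41) (nat_lit 0) (p (nat_lit 0x898a0b090a9a) (nat_lit 0) (p (nat_lit 0x9098a888a1a) (nat_lit 0) (p (nat_lit 0x88890a08079a) (nat_lit 0) (p (nat_lit 0x8088987871a) (nat_lit 0) (p (nat_lit 0x80000800078907088a) (nat_lit 0) (p (nat_lit 0x80000800070886860a) (nat_lit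 0) (p (nat_lit 0x8708060782) (nat_lit 0) (p (nat_lit 0x687858702) (nat_lit 0) (p (nat_lit 0x8607050482) (nat_lit 0) (p (nat_lit 0x586848402) (nat_lit 0) (p (nat_lit 0x160014) (nat_lit 0) (p (nat_lit 0x50612) (nat_lit 0) (p (nat_lit 0x40592) (nat_lit 0) (p (nat_lit 0x40492) (nat_lit 0) (p (nat_lit 0x30412) (nat_lit 0) (p (nat_lit 0x30212) (nat_lit 0) (p (nat_lit 0x20192) (nat_lit 0) (p (nat_lit 0x20092) (nat_lit 0) (p (nat_lit 0x10012) (nat_lit 0) pn))))))))))))))))))))))))))))) :=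
  Cl.node (nat_lit 0x41) (nat_lit 2) (by decide +kernel) (ClAll.succ (ClAll.succ ClAll.zero s121) s122)

def n186 : Cl (O (nat_lit 3)) (R (nat_lit 102673))
    (p (nat_lit 0x20000c) (nat_lit 0) (p (nat_lit 0x200004) (nat_lit 0) (p (nat_lit 0xd1) (nat_lit 1) (p (nat_lit 0x111) (nat_lit 1) (p (nat_lit 0x109) (nat_lit 0) (p (nat_lit 0x101) (nat_lit 0) (p (nat_lit 0x119) (nat_lit 0) (p (nat_lit 0xc9) (nat_lit 0) (p (nat_lit 0x89) (nat_lit 1) (p (nat_lit 0x41) (nat_lit 0) (p (nat_lit 0x898a0b090a9a) (nat_lit 0) (p (nat_lit 0x9098a888a1a) (nat_lit 0) (p (nat_lit 0x88890a08079a) (nat_lit 0) (p (nat_lit 0x8088987871a) (nat_lit 0) (p (nat_lit 0x80000800078907088a) (nat_lit 0) (p (nat_lit 0x80000800070886860a) (nat_lit 0) (p (nat_lit 0x8708060782) (nat_lit 0) (p (nat_lit 0x687858702) (nat_lit 0) (p (nat_lit 0x8607050482) (nat_lit 0) (p (nat_lit 0x586848402) (nat_lit 0) (p (nat_lit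 0x160014) (nat_lit 0) (p (nat_lit 0x50612) (nat_lit 0) (p (nat_lit 0x40592) (nat_lit 0) (p (nat_lit 0x40492) (nat_lit 0) (p (nat_lit 0x30412) (nat_lit 0) (p (nat_lit 0x30212) (nat_lit 0) (p (nat_lit 0x20192) (nat_lit 0) (p (nat_lit 0x20092) (nat_lit 0) (p (nat_lit 0x10012) (nat_lit 0) pn))))))))))))))))))))))))))))) :=
  Cl.node (nat_lit 0xb0014) (nat_lit 2) (by decide +kernel) (ClAll.succ (ClAll.succ ClAll.zero s128) s129)

def n187 : Cl (O (nat_lit 3)) (R (nat_lit 102673))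
    (p (nat_lit 0xb0014) (nat_lit 0) (p (nat_lit 0x20000c) (nat_lit 0) (p (nat_lit 0x200004) (nat_lit 0) (p (nat_lit 0xd1) (nat_lit 1) (p (nat_lit 0x109) (nat_lit 1) (p (nat_lit 0x101) (nat_lit 0) (p (nat_lit 0x119) (nat_lit 0) (p (nat_lit 0xc9) (nat_lit 0) (p (nat_lit 0x89) (nat_lit 1) (p (nat_lit 0x41) (nat_lit 0) (p (nat_lit 0x898a0b090a9a) (nat_lit 0) (p (nat_lit 0x9098a888a1a) (nat_lit 0) (p (nat_lit 0x88890a08079a) (nat_lit 0) (p (nat_lit 0x8088987871a) (nat_lit 0) (p (nat_lit 0x80000800078907088a) (nat_lit 0) (p (nat_lit 0x80000800070886860a) (nat_lit 0) (p (nat_lit 0x8708060782) (nat_lit 0) (p (nat_lit 0x687858702) (nat_lit 0) (p (nat_lit 0x8607050482) (nat_lit 0) (p (nat_lit 0x586848402) (nat_lit 0) (p (nat_lit 0x160014) (nat_lit 0) (p (nat_lit 0x50612) (nat_lit 0) (p (nat_lit 0x40592) (nat_lit 0) (p (nat_lit 0x40492) (nat_lit 0) (p (nat_lit 0x30412) (nat_lit 0)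 (p (nat_lit 0x30212) (nat_lit 0) (p (nat_lit 0x20192) (nat_lit 0) (p (nat_lit 0x20092) (nat_lit 0) (p (nat_lit 0x10012) (nat_lit 0) pn))))))))))))))))))))))))))))) :=
  Cl.node (nat_lit 0x41) (nat_lit 2) (by decide +kernel) (ClAll.succ (ClAll.succ ClAll.zero n149) s140)

def n188 : Cl (O (nat_lit 3)) (R (nat_lit 102673))
    (p (nat_lit 0xb0014) (nat_lit 1) (p (nat_lit 0x20000c) (nat_lit 0) (p (nat_lit 0x200004) (nat_lit 0) (p (nat_lit 0xd1) (nat_lit 1) (p (nat_lit 0x109) (nat_lit 1) (p (nat_lit 0x101) (nat_lit 0) (p (nat_lit 0x119) (nat_lit 0) (p (nat_lit 0xc9) (nat_lit 0) (p (nat_lit 0x89) (nat_lit 1) (p (nat_lit 0x41) (nat_lit 0) (p (nat_lit 0x898a0b090a9a) (nat_lit 0) (p (nat_lit 0x9098a888a1a) (nat_lit 0) (p (nat_lit 0x88890a08079a) (nat_lit 0) (p (nat_lit 0x8088987871a) (nat_lit 0) (p (nat_lit 0x80000800078907088a) (nat_lit 0) (p (nat_lit 0x80000800070886860a) (nat_lit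 0) (p (nat_lit 0x8708060782) (nat_lit 0) (p (nat_lit 0x687858702) (nat_lit 0) (p (nat_lit 0x8607050482) (nat_lit 0) (p (nat_lit 0x586848402) (nat_lit 0) (p (nat_lit 0x160014) (nat_lit 0) (p (nat_lit 0x50612) (nat_lit 0) (p (nat_lit 0x40592) (nat_lit 0) (p (nat_lit 0x40492) (nat_lit 0) (p (nat_lit 0x30412) (nat_lit 0) (p (nat_lit 0x30212) (nat_lit 0) (p (nat_lit 0x20192) (nat_lit 0) (p (nat_lit 0x20092) (nat_lit 0) (p (nat_lit 0x10012) (nat_lit 0) pn))))))))))))))))))))))))))))) :=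
  Cl.node (nat_lit 0x2a825aa8258a0b89890a) (nat_lit 1) (by decide +kernel) (ClAll.succ ClAll.zero n150)

def n189 : Cl (O (nat_lit 3)) (R (nat_lit 102673))
    (p (nat_lit 0xb0014) (nat_lit 0) (p (nat_lit 0x20000c) (nat_lit 0) (p (nat_lit 0x200004) (nat_lit 0) (p (nat_lit 0xd1) (nat_lit 1) (p (nat_lit 0xc1) (nat_lit 0) (p (nat_lit 0x101) (nat_lit 1) (p (nat_lit 0x119) (nat_lit 0) (p (nat_lit 0xc9) (nat_lit 0) (p (nat_lit 0x89) (nat_lit 1) (p (nat_lit 0x41) (nat_lit 0) (p (nat_lit 0x898a0b090a9a) (nat_lit 0) (p (nat_lit 0x9098a888a1a) (nat_lit 0) (p (nat_lit 0x88890a08079a) (nat_lit 0) (p (nat_lit 0x8088987871a) (nat_lit 0) (p (nat_lit 0x80000800078907088a) (nat_lit 0) (p (nat_lit 0x80000800070886860a) (nat_lit 0) (p (nat_lit 0x8708060782) (nat_lit 0) (p (nat_lit 0x687858702) (nat_lit 0) (p (nat_lit 0x8607050482) (nat_lit 0) (p (nat_lit 0x586848402) (nat_lit 0) (p (nat_lit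 0x160014) (nat_lit 0) (p (nat_lit 0x50612) (nat_lit 0) (p (nat_lit 0x40592) (nat_lit 0) (p (nat_lit 0x40492) (nat_lit 0) (p (nat_lit 0x30412) (nat_lit 0) (p (nat_lit 0x30212) (nat_lit 0) (p (nat_lit 0x20192) (nat_lit 0) (p (nat_lit 0x20092) (nat_lit 0) (p (nat_lit 0x10012) (nat_lit 0) pn))))))))))))))))))))))))))))) :=
  Cl.node (nat_lit 0x109) (nat_lit 2) (by decide +kernel) (ClAll.succ (ClAll.succ ClAll.zero n151) n152)

def n190 : Cl (O (nat_lit 3)) (R (nat_lit 102673))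
    (p (nat_lit 0xb0014) (nat_lit 1) (p (nat_lit 0x20000c) (nat_lit 0) (p (nat_lit 0x200004) (nat_lit 0) (p (nat_lit 0xd1) (nat_lit 1) (p (nat_lit 0xc1) (nat_lit 0) (p (nat_lit 0x101) (nat_lit 1) (p (nat_lit 0x119) (nat_lit 0) (p (nat_lit 0xc9) (nat_lit 0) (p (nat_lit 0x89) (nat_lit 1) (p (nat_lit 0x41) (nat_lit 0) (p (nat_lit 0x898a0b090a9a) (nat_lit 0) (p (nat_lit 0x9098a888a1a) (nat_lit 0) (p (nat_lit 0x88890a08079a) (nat_lit 0) (p (nat_lit 0x8088987871a) (nat_lit 0) (p (nat_lit 0x80000800078907088a) (nat_lit 0) (p (nat_lit 0x80000800070886860a) (nat_lit 0) (p (nat_lit 0x8708060782) (nat_lit 0) (p (nat_lit 0x687858702) (nat_lit 0) (p (nat_lit 0x8607050482) (nat_lit 0) (p (nat_lit 0x586848402) (nat_lit 0) (p (nat_lit 0x160014) (nat_lit 0) (p (nat_lit 0x50612) (nat_lit 0) (p (nat_lit 0x40592) (nat_lit 0) (p (nat_lit 0x40492) (nat_lit 0) (p (nat_lit 0x30412) (nat_lit 0) (p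 (nat_lit 0x30212) (nat_lit 0) (p (nat_lit 0x20192) (nat_lit 0) (p (nat_lit 0x20092) (nat_lit 0) (p (nat_lit 0x10012) (nat_lit 0) pn))))))))))))))))))))))))))))) :=
  Cl.node (nat_lit 0x2a825aa8258a0b89890a) (nat_lit 1) (by decide +kernel) (ClAll.succ ClAll.zero n153)

def n191 : Cl (O (nat_lit 3)) (R (nat_lit 102673))
    (p (nat_lit 0xb0014) (nat_lit 0) (p (nat_lit 0x20000c) (nat_lit 0) (p (nat_lit 0x200004) (nat_lit 0) (p (nat_lit 0x111) (nat_lit 1) (p (nat_lit 0x101) (nat_lit 0) (p (nat_lit 0xc1) (nat_lit 1) (p (nat_lit 0x119) (nat_lit 1) (p (nat_lit 0xc9) (nat_lit 0) (p (nat_lit 0x89) (nat_lit 1) (p (nat_lit 0x41) (nat_lit 0) (p (nat_lit 0x898a0b090a9a) (nat_lit 0) (p (nat_lit 0x9098a888a1a) (nat_lit 0) (p (nat_lit 0x88890a08079a) (nat_lit 0) (p (nat_lit 0x8088987871a) (nat_lit 0) (p (nat_lit 0x80000800078907088a) (nat_lit 0) (p (nat_lit 0x80000800070886860a) (nat_lit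 0) (p (nat_lit 0x8708060782) (nat_lit 0) (p (nat_lit 0x687858702) (nat_lit 0) (p (nat_lit 0x8607050482) (nat_lit 0) (p (nat_lit 0x586848402) (nat_lit 0) (p (nat_lit 0x160014) (nat_lit 0) (p (nat_lit 0x50612) (nat_lit 0) (p (nat_lit 0x40592) (nat_lit 0) (p (nat_lit 0x40492) (nat_lit 0) (p (nat_lit 0x30412) (nat_lit 0) (p (nat_lit 0x30212) (nat_lit 0) (p (nat_lit 0x20192) (nat_lit 0) (p (nat_lit 0x20092) (nat_lit 0) (p (nat_lit 0x10012) (nat_lit 0) pn))))))))))))))))))))))))))))) :=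
  Cl.node (nat_lit 0xd1) (nat_lit 2) (by decide +kernel) (ClAll.succ (ClAll.succ ClAll.zero s173) n154)

def n192 : Cl (O (nat_lit 3)) (R (nat_lit 102673))
    (p (nat_lit 0xb0014) (nat_lit 1) (p (nat_lit 0x20000c) (nat_lit 0) (p (nat_lit 0x200004) (nat_lit 0) (p (nat_lit 0x111) (nat_lit 1) (p (nat_lit 0x101) (nat_lit 0) (p (nat_lit 0xc1) (nat_lit 1) (p (nat_lit 0x119) (nat_lit 1) (p (nat_lit 0xc9) (nat_lit 0) (p (nat_lit 0x89) (nat_lit 1) (p (nat_lit 0x41) (nat_lit 0) (p (nat_lit 0x898a0b090a9a) (nat_lit 0) (p (nat_lit 0x9098a888a1a) (nat_lit 0) (p (nat_lit 0x88890a08079a) (nat_lit 0) (p (nat_lit 0x8088987871a) (nat_lit 0) (p (nat_lit 0x80000800078907088a) (nat_lit 0) (p (nat_lit 0x80000800070886860a) (nat_lit 0) (p (nat_lit 0x8708060782) (nat_lit 0) (p (nat_lit 0x687858702) (nat_lit 0) (p (nat_lit 0x8607050482) (nat_lit 0) (p (nat_lit 0x586848402) (nat_lit 0) (p (nat_lit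 0x160014) (nat_lit 0) (p (nat_lit 0x50612) (nat_lit 0) (p (nat_lit 0x40592) (nat_lit 0) (p (nat_lit 0x40492) (nat_lit 0) (p (nat_lit 0x30412) (nat_lit 0) (p (nat_lit 0x30212) (nat_lit 0) (p (nat_lit 0x20192) (nat_lit 0) (p (nat_lit 0x20092) (nat_lit 0) (p (nat_lit 0x10012) (nat_lit 0) pn))))))))))))))))))))))))))))) :=
  Cl.node (nat_lit 0x2a825aa8258a0b89890a) (nat_lit 1) (by decide +kernel) (ClAll.succ ClAll.zero n155)

def n193 : Cl (O (nat_lit 3)) (R (nat_lit 102673))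
    (p (nat_lit 0x20000c) (nat_lit 0) (p (nat_lit 0x200004) (nat_lit 0) (p (nat_lit 0xc9) (nat_lit 1) (p (nat_lit 0x89) (nat_lit 1) (p (nat_lit 0xc1) (nat_lit 0) (p (nat_lit 0x101) (nat_lit 1) (p (nat_lit 0x119) (nat_lit 0) (p (nat_lit 0xd1) (nat_lit 0) (p (nat_lit 0x81) (nat_lit 0) (p (nat_lit 0x41) (nat_lit 1) (p (nat_lit 0x898a0b090a9a) (nat_lit 0) (p (nat_lit 0x9098a888a1a) (nat_lit 0) (p (nat_lit 0x88890a08079a) (nat_lit 0) (p (nat_lit 0x8088987871a) (nat_lit 0) (p (nat_lit 0x80000800078907088a) (nat_lit 0) (p (nat_lit 0x80000800070886860a) (nat_lit 0) (p (nat_lit 0x8708060782) (nat_lit 0) (p (nat_lit 0x687858702) (nat_lit 0) (p (nat_lit 0x8607050482) (nat_lit 0) (p (nat_lit 0x586848402) (nat_lit 0) (p (nat_lit 0x160014) (nat_lit 0) (p (nat_lit 0x50612) (nat_lit 0) (p (nat_lit 0x40592) (nat_lit 0) (p (nat_lit 0x40492) (nat_lit 0) (p (nat_lit 0x30412) (nat_lit 0) (p (nat_lit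 0x30212) (nat_lit 0) (p (nat_lit 0x20192) (nat_lit 0) (p (nat_lit 0x20092) (nat_lit 0) (p (nat_lit 0x10012) (nat_lit 0) pn))))))))))))))))))))))))))))) :=
  Cl.node (nat_lit 0xb0014) (nat_lit 2) (by decide +kernel) (ClAll.succ (ClAll.succ ClAll.zero n156) s207)

def n194 : Cl (O (nat_lit 3)) (R (nat_lit 102673))
    (p (nat_lit 0xb0014) (nat_lit 0) (p (nat_lit 0x20000c) (nat_lit 0) (p (nat_lit 0x200004) (nat_lit 0) (p (nat_lit 0x89) (nat_lit 0) (p (nat_lit 0xc1) (nat_lit 1) (p (nat_lit 0x101) (nat_lit 1) (p (nat_lit 0x119) (nat_lit 0) (p (nat_lit 0xd1) (nat_lit 0) (p (nat_lit 0x81) (nat_lit 0) (p (nat_lit 0x41) (nat_lit 1) (p (nat_lit 0x898a0b090a9a) (nat_lit 0) (p (nat_lit 0x9098a888a1a) (nat_lit 0) (p (nat_lit 0x88890a08079a) (nat_lit 0) (p (nat_lit 0x8088987871a) (nat_lit 0) (p (nat_lit 0x80000800078907088a) (nat_lit 0) (p (nat_lit 0x80000800070886860a) (nat_lit 0) (p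 (nat_lit 0x8708060782) (nat_lit 0) (p (nat_lit 0x687858702) (nat_lit 0) (p (nat_lit 0x8607050482) (nat_lit 0) (p (nat_lit 0x586848402) (nat_lit 0) (p (nat_lit 0x160014) (nat_lit 0) (p (nat_lit 0x50612) (nat_lit 0) (p (nat_lit 0x40592) (nat_lit 0) (p (nat_lit 0x40492) (nat_lit 0) (p (nat_lit 0x30412) (nat_lit 0) (p (nat_lit 0x30212) (nat_lit 0) (p (nat_lit 0x20192) (nat_lit 0) (p (nat_lit 0x20092) (nat_lit 0) (p (nat_lit 0x10012) (nat_lit 0) pn))))))))))))))))))))))))))))) :=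
  Cl.node (nat_lit 0x111) (nat_lit 2) (by decide +kernel) (ClAll.succ (ClAll.succ ClAll.zero s210) s211)

def n195 : Cl (O (nat_lit 3)) (R (nat_lit 102673))
    (p (nat_lit 0xb0014) (nat_lit 0) (p (nat_lit 0x20000c) (nat_lit 0) (p (nat_lit 0x200004) (nat_lit 0) (p (nat_lit 0x89) (nat_lit 1) (p (nat_lit 0xc1) (nat_lit 1) (p (nat_lit 0x101) (nat_lit 1) (p (nat_lit 0x119) (nat_lit 0) (p (nat_lit 0xd1) (nat_lit 0) (p (nat_lit 0x81) (nat_lit 0) (p (nat_lit 0x41) (nat_lit 1) (p (nat_lit 0x898a0b090a9a) (nat_lit 0) (p (nat_lit 0x9098a888a1a) (nat_lit 0) (p (nat_lit 0x88890a08079a) (nat_lit 0) (p (nat_lit 0x8088987871a) (nat_lit 0) (p (nat_lit 0x80000800078907088a) (nat_lit 0) (p (nat_lit 0x80000800070886860a) (nat_lit 0) (p (nat_lit 0x8708060782) (nat_lit 0) (p (nat_lit 0x687858702) (nat_lit 0) (p (nat_lit 0x8607050482) (nat_lit 0) (p (nat_lit 0x586848402) (nat_lit 0) (p (nat_lit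 0x160014) (nat_lit 0) (p (nat_lit 0x50612) (nat_lit 0) (p (nat_lit 0x40592) (nat_lit 0) (p (nat_lit 0x40492) (nat_lit 0) (p (nat_lit 0x30412) (nat_lit 0) (p (nat_lit 0x30212) (nat_lit 0) (p (nat_lit 0x20192) (nat_lit 0) (p (nat_lit 0x20092) (nat_lit 0) (p (nat_lit 0x10012) (nat_lit 0) pn))))))))))))))))))))))))))))) :=
  Cl.node (nat_lit 0x109) (nat_lit 2) (by decide +kernel) (ClAll.succ (ClAll.succ ClAll.zero n157) n158)

def n196 : Cl (O (nat_lit 3)) (R (nat_lit 102673))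
    (p (nat_lit 0xb0014) (nat_lit 1) (p (nat_lit 0x20000c) (nat_lit 0) (p (nat_lit 0x200004) (nat_lit 0) (p (nat_lit 0x89) (nat_lit 1) (p (nat_lit 0xc1) (nat_lit 1) (p (nat_lit 0x101) (nat_lit 1) (p (nat_lit 0x119) (nat_lit 0) (p (nat_lit 0xd1) (nat_lit 0) (p (nat_lit 0x81) (nat_lit 0) (p (nat_lit 0x41) (nat_lit 1) (p (nat_lit 0x898a0b090a9a) (nat_lit 0) (p (nat_lit 0x9098a888a1a) (nat_lit 0) (p (nat_lit 0x88890a08079a) (nat_lit 0) (p (nat_lit 0x8088987871a) (nat_lit 0) (p (nat_lit 0x80000800078907088a) (nat_lit 0) (p (nat_lit 0x80000800070886860a) (nat_lit 0) (p (nat_lit 0x8708060782) (nat_lit 0) (p (nat_lit 0x687858702) (nat_lit 0) (p (nat_lit 0x8607050482) (nat_lit 0) (p (nat_lit 0x586848402) (nat_lit 0) (p (nat_lit 0x160014) (nat_lit 0) (p (nat_lit 0x50612) (nat_lit 0) (p (nat_lit 0x40592) (nat_lit 0) (p (nat_lit 0x40492) (nat_lit 0) (p (nat_lit 0x30412) (nat_lit 0) (p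 (nat_lit 0x30212) (nat_lit 0) (p (nat_lit 0x20192) (nat_lit 0) (p (nat_lit 0x20092) (nat_lit 0) (p (nat_lit 0x10012) (nat_lit 0) pn))))))))))))))))))))))))))))) :=
  Cl.node (nat_lit 0x2a825aa8258a0b89890a) (nat_lit 1) (by decide +kernel) (ClAll.succ ClAll.zero n159)

def n197 : Cl (O (nat_lit 3)) (R (nat_lit 102673))
    (p (nat_lit 0x20000c) (nat_lit 0) (p (nat_lit 0xb0014) (nat_lit 0) (p (nat_lit 0x200004) (nat_lit 1) (p (nat_lit 0x89) (nat_lit 1) (p (nat_lit 0xc1) (nat_lit 1) (p (nat_lit 0x101) (nat_lit 1) (p (nat_lit 0x119) (nat_lit 0) (p (nat_lit 0xd1) (nat_lit 0) (p (nat_lit 0x81) (nat_lit 0) (p (nat_lit 0x41) (nat_lit 1) (p (nat_lit 0x898a0b090a9a) (nat_lit 0) (p (nat_lit 0x9098a888a1a) (nat_lit 0) (p (nat_lit 0x88890a08079a) (nat_lit 0) (p (nat_lit 0x8088987871a) (nat_lit 0) (p (nat_lit 0x80000800078907088a) (nat_lit 0) (p (nat_lit 0x80000800070886860a) (nat_lit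 0) (p (nat_lit 0x8708060782) (nat_lit 0) (p (nat_lit 0x687858702) (nat_lit 0) (p (nat_lit 0x8607050482) (nat_lit 0) (p (nat_lit 0x586848402) (nat_lit 0) (p (nat_lit 0x160014) (nat_lit 0) (p (nat_lit 0x50612) (nat_lit 0) (p (nat_lit 0x40592) (nat_lit 0) (p (nat_lit 0x40492) (nat_lit 0) (p (nat_lit 0x30412) (nat_lit 0) (p (nat_lit 0x30212) (nat_lit 0) (p (nat_lit 0x20192) (nat_lit 0) (p (nat_lit 0x20092) (nat_lit 0) (p (nat_lit 0x10012) (nat_lit 0) pn))))))))))))))))))))))))))))) :=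
  Cl.node (nat_lit 0x109) (nat_lit 2) (by decide +kernel) (ClAll.succ (ClAll.succ ClAll.zero s232) s233)

def n198 : Cl (O (nat_lit 3)) (R (nat_lit 102673))
    (p (nat_lit 0x20000c) (nat_lit 0) (p (nat_lit 0x200004) (nat_lit 0) (p (nat_lit 0x109) (nat_lit 0) (p (nat_lit 0x89) (nat_lit 1) (p (nat_lit 0xc9) (nat_lit 1) (p (nat_lit 0xc1) (nat_lit 0) (p (nat_lit 0x119) (nat_lit 1) (p (nat_lit 0xd1) (nat_lit 0) (p (nat_lit 0x81) (nat_lit 0) (p (nat_lit 0x41) (nat_lit 1) (p (nat_lit 0x898a0b090a9a) (nat_lit 0) (p (nat_lit 0x9098a888a1a) (nat_lit 0) (p (nat_lit 0x88890a08079a) (nat_lit 0) (p (nat_lit 0x8088987871a) (nat_lit 0) (p (nat_lit 0x80000800078907088a) (nat_lit 0) (p (nat_lit 0x80000800070886860a) (nat_lit 0) (p (nat_lit 0x8708060782) (nat_lit 0) (p (nat_lit 0x687858702) (nat_lit 0) (p (nat_lit 0x8607050482) (nat_lit 0) (p (nat_lit 0x586848402) (nat_lit 0) (p (nat_lit 0x160014)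 (nat_lit 0) (p (nat_lit 0x50612) (nat_lit 0) (p (nat_lit 0x40592) (nat_lit 0) (p (nat_lit 0x40492) (nat_lit 0) (p (nat_lit 0x30412) (nat_lit 0) (p (nat_lit 0x30212) (nat_lit 0) (p (nat_lit 0x20192) (nat_lit 0) (p (nat_lit 0x20092) (nat_lit 0) (p (nat_lit 0x10012) (nat_lit 0) pn))))))))))))))))))))))))))))) :=
  Cl.node (nat_lit 0xb0014) (nat_lit 2) (by decide +kernel) (ClAll.succ (ClAll.succ ClAll.zero s238) s239)

def n199 : Cl (O (nat_lit 3)) (R (nat_lit 102673))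
    (p (nat_lit 0x20000c) (nat_lit 0) (p (nat_lit 0x200004) (nat_lit 0) (p (nat_lit 0x109) (nat_lit 1) (p (nat_lit 0x89) (nat_lit 1) (p (nat_lit 0x101) (nat_lit 0) (p (nat_lit 0xc1) (nat_lit 1) (p (nat_lit 0x119) (nat_lit 1) (p (nat_lit 0xd1) (nat_lit 0) (p (nat_lit 0x81) (nat_lit 0) (p (nat_lit 0x41) (nat_lit 1) (p (nat_lit 0x898a0b090a9a) (nat_lit 0) (p (nat_lit 0x9098a888a1a) (nat_lit 0) (p (nat_lit 0x88890a08079a) (nat_lit 0) (p (nat_lit 0x8088987871a) (nat_lit 0) (p (nat_lit 0x80000800078907088a) (nat_lit 0) (p (nat_lit 0x80000800070886860a) (nat_lit 0) (p (nat_lit 0x8708060782) (nat_lit 0) (p (nat_lit 0x687858702) (nat_lit 0) (p (nat_lit 0x8607050482) (nat_lit 0) (p (nat_lit 0x586848402) (nat_lit 0) (p (nat_lit 0x160014) (nat_lit 0) (p (nat_lit 0x50612) (nat_lit 0) (p (nat_lit 0x40592) (nat_lit 0) (p (nat_lit 0x40492) (nat_lit 0) (p (nat_lit 0x30412) (nat_lit 0) (p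 (nat_lit 0x30212) (nat_lit 0) (p (nat_lit 0x20192) (nat_lit 0) (p (nat_lit 0x20092) (nat_lit 0) (p (nat_lit 0x10012) (nat_lit 0) pn))))))))))))))))))))))))))))) :=
  Cl.node (nat_lit 0xb0014) (nat_lit 2) (by decide +kernel) (ClAll.succ (ClAll.succ ClAll.zero s246) s247)

def n200 : Cl (O (nat_lit 3)) (R (nat_lit 102673))
    (p (nat_lit 0xb0014) (nat_lit 0) (p (nat_lit 0x20000c) (nat_lit 0) (p (nat_lit 0x200004) (nat_lit 0) (p (nat_lit 0x89) (nat_lit 1) (p (nat_lit 0x101) (nat_lit 1) (p (nat_lit 0xc1) (nat_lit 1) (p (nat_lit 0x119) (nat_lit 1) (p (nat_lit 0xd1) (nat_lit 0) (p (nat_lit 0x81) (nat_lit 0) (p (nat_lit 0x41) (nat_lit 1) (p (nat_lit 0x898a0b090a9a) (nat_lit 0) (p (nat_lit 0x9098a888a1a) (nat_lit 0) (p (nat_lit 0x88890a08079a) (nat_lit 0) (p (nat_lit 0x8088987871a) (nat_lit 0) (p (nat_lit 0x80000800078907088a) (nat_lit 0) (p (nat_lit 0x80000800070886860a) (nat_lit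 0) (p (nat_lit 0x8708060782) (nat_lit 0) (p (nat_lit 0x687858702) (nat_lit 0) (p (nat_lit 0x8607050482) (nat_lit 0) (p (nat_lit 0x586848402) (nat_lit 0) (p (nat_lit 0x160014) (nat_lit 0) (p (nat_lit 0x50612) (nat_lit 0) (p (nat_lit 0x40592) (nat_lit 0) (p (nat_lit 0x40492) (nat_lit 0) (p (nat_lit 0x30412) (nat_lit 0) (p (nat_lit 0x30212) (nat_lit 0) (p (nat_lit 0x20192) (nat_lit 0) (p (nat_lit 0x20092) (nat_lit 0) (p (nat_lit 0x10012) (nat_lit 0) pn))))))))))))))))))))))))))))) :=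
  Cl.node (nat_lit 0xc9) (nat_lit 2) (by decide +kernel) (ClAll.succ (ClAll.succ ClAll.zero s252) n160)

def n201 : Cl (O (nat_lit 3)) (R (nat_lit 102673))
    (p (nat_lit 0xb0014) (nat_lit 1) (p (nat_lit 0x20000c) (nat_lit 0) (p (nat_lit 0x200004) (nat_lit 0) (p (nat_lit 0x89) (nat_lit 1) (p (nat_lit 0x101) (nat_lit 1) (p (nat_lit 0xc1) (nat_lit 1) (p (nat_lit 0x119) (nat_lit 1) (p (nat_lit 0xd1) (nat_lit 0) (p (nat_lit 0x81) (nat_lit 0) (p (nat_lit 0x41) (nat_lit 1) (p (nat_lit 0x898a0b090a9a) (nat_lit 0) (p (nat_lit 0x9098a888a1a) (nat_lit 0) (p (nat_lit 0x88890a08079a) (nat_lit 0) (p (nat_lit 0x8088987871a) (nat_lit 0) (p (nat_lit 0x80000800078907088a) (nat_lit 0) (p (nat_lit 0x80000800070886860a) (nat_lit 0) (p (nat_lit 0x8708060782) (nat_lit 0) (p (nat_lit 0x687858702) (nat_lit 0) (p (nat_lit 0x8607050482) (nat_lit 0) (p (nat_lit 0x586848402) (nat_lit 0) (p (nat_lit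 0x160014) (nat_lit 0) (p (nat_lit 0x50612) (nat_lit 0) (p (nat_lit 0x40592) (nat_lit 0) (p (nat_lit 0x40492) (nat_lit 0) (p (nat_lit 0x30412) (nat_lit 0) (p (nat_lit 0x30212) (nat_lit 0) (p (nat_lit 0x20192) (nat_lit 0) (p (nat_lit 0x20092) (nat_lit 0) (p (nat_lit 0x10012) (nat_lit 0) pn))))))))))))))))))))))))))))) :=
  Cl.node (nat_lit 0x2a825aa8258a0b89890a) (nat_lit 1) (by decide +kernel) (ClAll.succ ClAll.zero n161)

def n202 : Cl (O (nat_lit 3)) (R (nat_lit 102673))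
    (p (nat_lit 0x20000c) (nat_lit 0) (p (nat_lit 0x200004) (nat_lit 0) (p (nat_lit 0xc9) (nat_lit 0) (p (nat_lit 0x89) (nat_lit 1) (p (nat_lit 0x109) (nat_lit 1) (p (nat_lit 0x101) (nat_lit 0) (p (nat_lit 0x111) (nat_lit 0) (p (nat_lit 0xd1) (nat_lit 1) (p (nat_lit 0x81) (nat_lit 0) (p (nat_lit 0x41) (nat_lit 1) (p (nat_lit 0x898a0b090a9a) (nat_lit 0) (p (nat_lit 0x9098a888a1a) (nat_lit 0) (p (nat_lit 0x88890a08079a) (nat_lit 0) (p (nat_lit 0x8088987871a) (nat_lit 0) (p (nat_lit 0x80000800078907088a) (nat_lit 0) (p (nat_lit 0x80000800070886860a) (nat_lit 0) (p (nat_lit 0x8708060782) (nat_lit 0) (p (nat_lit 0x687858702) (nat_lit 0) (p (nat_lit 0x8607050482) (nat_lit 0) (p (nat_lit 0x586848402) (nat_lit 0) (p (nat_lit 0x160014) (nat_lit 0) (p (nat_lit 0x50612) (nat_lit 0) (p (nat_lit 0x40592) (nat_lit 0) (p (nat_lit 0x40492) (nat_lit 0) (p (nat_lit 0x30412) (nat_lit 0) (p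 (nat_lit 0x30212) (nat_lit 0) (p (nat_lit 0x20192) (nat_lit 0) (p (nat_lit 0x20092) (nat_lit 0) (p (nat_lit 0x10012) (nat_lit 0) pn))))))))))))))))))))))))))))) :=
  Cl.node (nat_lit 0x119) (nat_lit 2) (by decide +kernel) (ClAll.succ (ClAll.succ ClAll.zero n162) n163)

def n203 : Cl (O (nat_lit 3)) (R (nat_lit 102673))
    (p (nat_lit 0x20000c) (nat_lit 1) (p (nat_lit 0x200004) (nat_lit 0) (p (nat_lit 0xc9) (nat_lit 0) (p (nat_lit 0x89) (nat_lit 1) (p (nat_lit 0x109) (nat_lit 1) (p (nat_lit 0x101) (nat_lit 0) (p (nat_lit 0x111) (nat_lit 0) (p (nat_lit 0xd1) (nat_lit 1) (p (nat_lit 0x81) (nat_lit 0) (p (nat_lit 0x41) (nat_lit 1) (p (nat_lit 0x898a0b090a9a) (nat_lit 0) (p (nat_lit 0x9098a888a1a) (nat_lit 0) (p (nat_lit 0x88890a08079a) (nat_lit 0) (p (nat_lit 0x8088987871a) (nat_lit 0) (p (nat_lit 0x80000800078907088a) (nat_lit 0) (p (nat_lit 0x80000800070886860a) (nat_lit 0)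 (p (nat_lit 0x8708060782) (nat_lit 0) (p (nat_lit 0x687858702) (nat_lit 0) (p (nat_lit 0x8607050482) (nat_lit 0) (p (nat_lit 0x586848402) (nat_lit 0) (p (nat_lit 0x160014) (nat_lit 0) (p (nat_lit 0x50612) (nat_lit 0) (p (nat_lit 0x40592) (nat_lit 0) (p (nat_lit 0x40492) (nat_lit 0) (p (nat_lit 0x30412) (nat_lit 0) (p (nat_lit 0x30212) (nat_lit 0) (p (nat_lit 0x20192) (nat_lit 0) (p (nat_lit 0x20092) (nat_lit 0) (p (nat_lit 0x10012) (nat_lit 0) pn))))))))))))))))))))))))))))) :=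
  Cl.node (nat_lit 0xb0014) (nat_lit 2) (by decide +kernel) (ClAll.succ (ClAll.succ ClAll.zero n164) s279)

def n204 : Cl (O (nat_lit 3)) (R (nat_lit 102673))
    (p (nat_lit 0x119) (nat_lit 0) (p (nat_lit 0xb0014) (nat_lit 0) (p (nat_lit 0x20000c) (nat_lit 0) (p (nat_lit 0x200004) (nat_lit 0) (p (nat_lit 0x89) (nat_lit 0) (p (nat_lit 0x101) (nat_lit 1) (p (nat_lit 0x111) (nat_lit 0) (p (nat_lit 0xd1) (nat_lit 1) (p (nat_lit 0x81) (nat_lit 0) (p (nat_lit 0x41) (nat_lit 1) (p (nat_lit 0x898a0b090a9a) (nat_lit 0) (p (nat_lit 0x9098a888a1a) (nat_lit 0) (p (nat_lit 0x88890a08079a) (nat_lit 0) (p (nat_lit 0x8088987871a) (nat_lit 0) (p (nat_lit 0x80000800078907088a) (nat_lit 0) (p (nat_lit 0x80000800070886860a) (nat_lit 0) (p (nat_lit 0x8708060782) (nat_lit 0) (p (nat_lit 0x687858702) (nat_lit 0) (p (nat_lit 0x8607050482) (nat_lit 0) (p (nat_lit 0x586848402) (nat_lit 0) (p (nat_lit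 0x160014) (nat_lit 0) (p (nat_lit 0x50612) (nat_lit 0) (p (nat_lit 0x40592) (nat_lit 0) (p (nat_lit 0x40492) (nat_lit 0) (p (nat_lit 0x30412) (nat_lit 0) (p (nat_lit 0x30212) (nat_lit 0) (p (nat_lit 0x20192) (nat_lit 0) (p (nat_lit 0x20092) (nat_lit 0) (p (nat_lit 0x10012) (nat_lit 0) pn))))))))))))))))))))))))))))) :=
  Cl.node (nat_lit 0x81) (nat_lit 2) (by decide +kernel) (ClAll.succ (ClAll.succ ClAll.zero s282) n165)

def n205 : Cl (O (nat_lit 3)) (R (nat_lit 102673))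
    (p (nat_lit 0x2a825aa8258a0b89890a) (nat_lit 0) (p (nat_lit 0xb0014) (nat_lit 1) (p (nat_lit 0x20000c) (nat_lit 0) (p (nat_lit 0x200004) (nat_lit 0) (p (nat_lit 0x89) (nat_lit 0) (p (nat_lit 0x101) (nat_lit 1) (p (nat_lit 0x111) (nat_lit 0) (p (nat_lit 0xd1) (nat_lit 1) (p (nat_lit 0x81) (nat_lit 0) (p (nat_lit 0x41) (nat_lit 1) (p (nat_lit 0x898a0b090a9a) (nat_lit 0) (p (nat_lit 0x9098a888a1a) (nat_lit 0) (p (nat_lit 0x88890a08079a) (nat_lit 0) (p (nat_lit 0x8088987871a) (nat_lit 0) (p (nat_lit 0x80000800078907088a) (nat_lit 0) (p (nat_lit 0x80000800070886860a) (nat_lit 0) (p (nat_lit 0x8708060782) (nat_lit 0) (p (nat_lit 0x687858702) (nat_lit 0) (p (nat_lit 0x8607050482) (nat_lit 0) (p (nat_lit 0x586848402) (nat_lit 0) (p (nat_lit 0x160014) (nat_lit 0) (p (nat_lit 0x50612) (nat_lit 0) (p (nat_lit 0x40592) (nat_lit 0) (p (nat_lit 0x40492) (nat_lit 0) (p (nat_lit 0x30412)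 (nat_lit 0) (p (nat_lit 0x30212) (nat_lit 0) (p (nat_lit 0x20192) (nat_lit 0) (p (nat_lit 0x20092) (nat_lit 0) (p (nat_lit 0x10012) (nat_lit 0) pn))))))))))))))))))))))))))))) :=
  Cl.node (nat_lit 0x2a825aa8258a8c0a0b8a) (nat_lit 1) (by decide +kernel) (ClAll.succ ClAll.zero n166)

def n206 : Cl (O (nat_lit 3)) (R (nat_lit 102673))
    (p (nat_lit 0xb0014) (nat_lit 0) (p (nat_lit 0x20000c) (nat_lit 0) (p (nat_lit 0x200004) (nat_lit 0) (p (nat_lit 0xc9) (nat_lit 0) (p (nat_lit 0x89) (nat_lit 1) (p (nat_lit 0x101) (nat_lit 1) (p (nat_lit 0x111) (nat_lit 0) (p (nat_lit 0xd1) (nat_lit 1) (p (nat_lit 0x81) (nat_lit 0) (p (nat_lit 0x41) (nat_lit 1) (p (nat_lit 0x898a0b090a9a) (nat_lit 0) (p (nat_lit 0x9098a888a1a) (nat_lit 0) (p (nat_lit 0x88890a08079a) (nat_lit 0) (p (nat_lit 0x8088987871a) (nat_lit 0) (p (nat_lit 0x80000800078907088a) (nat_lit 0) (p (nat_lit 0x80000800070886860a)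 (nat_lit 0) (p (nat_lit 0x8708060782) (nat_lit 0) (p (nat_lit 0x687858702) (nat_lit 0) (p (nat_lit 0x8607050482) (nat_lit 0) (p (nat_lit 0x586848402) (nat_lit 0) (p (nat_lit 0x160014) (nat_lit 0) (p (nat_lit 0x50612) (nat_lit 0) (p (nat_lit 0x40592) (nat_lit 0) (p (nat_lit 0x40492) (nat_lit 0) (p (nat_lit 0x30412) (nat_lit 0) (p (nat_lit 0x30212) (nat_lit 0) (p (nat_lit 0x20192) (nat_lit 0) (p (nat_lit 0x20092) (nat_lit 0) (p (nat_lit 0x10012) (nat_lit 0) pn))))))))))))))))))))))))))))) :=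
  Cl.node (nat_lit 0x119) (nat_lit 2) (by decide +kernel) (ClAll.succ (ClAll.succ ClAll.zero n167) n168)

def n207 : Cl (O (nat_lit 3)) (R (nat_lit 102673))
    (p (nat_lit 0xb0014) (nat_lit 1) (p (nat_lit 0x20000c) (nat_lit 0) (p (nat_lit 0x200004) (nat_lit 0) (p (nat_lit 0xc9) (nat_lit 0) (p (nat_lit 0x89) (nat_lit 1) (p (nat_lit 0x101) (nat_lit 1) (p (nat_lit 0x111) (nat_lit 0) (p (nat_lit 0xd1) (nat_lit 1) (p (nat_lit 0x81) (nat_lit 0) (p (nat_lit 0x41) (nat_lit 1) (p (nat_lit 0x898a0b090a9a) (nat_lit 0) (p (nat_lit 0x9098a888a1a) (nat_lit 0) (p (nat_lit 0x88890a08079a) (nat_lit 0) (p (nat_lit 0x8088987871a) (nat_lit 0) (p (nat_lit 0x80000800078907088a) (nat_lit 0) (p (nat_lit 0x80000800070886860a) (nat_lit 0) (p (nat_lit 0x8708060782) (nat_lit 0) (p (nat_lit 0x687858702) (nat_lit 0) (p (nat_lit 0x8607050482) (nat_lit 0) (p (nat_lit 0x586848402) (nat_lit 0) (p (nat_lit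 0x160014) (nat_lit 0) (p (nat_lit 0x50612) (nat_lit 0) (p (nat_lit 0x40592) (nat_lit 0) (p (nat_lit 0x40492) (nat_lit 0) (p (nat_lit 0x30412) (nat_lit 0) (p (nat_lit 0x30212) (nat_lit 0) (p (nat_lit 0x20192) (nat_lit 0) (p (nat_lit 0x20092) (nat_lit 0) (p (nat_lit 0x10012) (nat_lit 0) pn))))))))))))))))))))))))))))) :=
  Cl.node (nat_lit 0x2a825aa8258a0b89890a) (nat_lit 1) (by decide +kernel) (ClAll.succ ClAll.zero n169)

def n208 : Cl (O (nat_lit 3)) (R (nat_lit 102673))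
    (p (nat_lit 0x20000c) (nat_lit 0) (p (nat_lit 0xb0014) (nat_lit 0) (p (nat_lit 0x200004) (nat_lit 1) (p (nat_lit 0xc9) (nat_lit 0) (p (nat_lit 0x89) (nat_lit 1) (p (nat_lit 0x101) (nat_lit 1) (p (nat_lit 0x111) (nat_lit 0) (p (nat_lit 0xd1) (nat_lit 1) (p (nat_lit 0x81) (nat_lit 0) (p (nat_lit 0x41) (nat_lit 1) (p (nat_lit 0x898a0b090a9a) (nat_lit 0) (p (nat_lit 0x9098a888a1a) (nat_lit 0) (p (nat_lit 0x88890a08079a) (nat_lit 0) (p (nat_lit 0x8088987871a) (nat_lit 0) (p (nat_lit 0x80000800078907088a) (nat_lit 0) (p (nat_lit 0x80000800070886860a) (nat_lit 0) (p (nat_lit 0x8708060782) (nat_lit 0) (p (nat_lit 0x687858702) (nat_lit 0) (p (nat_lit 0x8607050482) (nat_lit 0) (p (nat_lit 0x586848402) (nat_lit 0) (p (nat_lit 0x160014) (nat_lit 0) (p (nat_lit 0x50612) (nat_lit 0) (p (nat_lit 0x40592) (nat_lit 0) (p (nat_lit 0x40492) (nat_lit 0) (p (nat_lit 0x30412) (nat_lit 0) (p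 (nat_lit 0x30212) (nat_lit 0) (p (nat_lit 0x20192) (nat_lit 0) (p (nat_lit 0x20092) (nat_lit 0) (p (nat_lit 0x10012) (nat_lit 0) pn))))))))))))))))))))))))))))) :=
  Cl.node (nat_lit 0x119) (nat_lit 2) (by decide +kernel) (ClAll.succ (ClAll.succ ClAll.zero s309) s310)

def n209 : Cl (O (nat_lit 3)) (R (nat_lit 102673))
    (p (nat_lit 0xb0014) (nat_lit 0) (p (nat_lit 0x20000c) (nat_lit 0) (p (nat_lit 0x200004) (nat_lit 0) (p (nat_lit 0x109) (nat_lit 0) (p (nat_lit 0xc9) (nat_lit 1) (p (nat_lit 0x89) (nat_lit 1) (p (nat_lit 0x111) (nat_lit 1) (p (nat_lit 0xd1) (nat_lit 1) (p (nat_lit 0x81) (nat_lit 0) (p (nat_lit 0x41) (nat_lit 1) (p (nat_lit 0x898a0b090a9a) (nat_lit 0) (p (nat_lit 0x9098a888a1a) (nat_lit 0) (p (nat_lit 0x88890a08079a) (nat_lit 0) (p (nat_lit 0x8088987871a) (nat_lit 0) (p (nat_lit 0x80000800078907088a) (nat_lit 0) (p (nat_lit 0x80000800070886860a) (nat_lit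 0) (p (nat_lit 0x8708060782) (nat_lit 0) (p (nat_lit 0x687858702) (nat_lit 0) (p (nat_lit 0x8607050482) (nat_lit 0) (p (nat_lit 0x586848402) (nat_lit 0) (p (nat_lit 0x160014) (nat_lit 0) (p (nat_lit 0x50612) (nat_lit 0) (p (nat_lit 0x40592) (nat_lit 0) (p (nat_lit 0x40492) (nat_lit 0) (p (nat_lit 0x30412) (nat_lit 0) (p (nat_lit 0x30212) (nat_lit 0) (p (nat_lit 0x20192) (nat_lit 0) (p (nat_lit 0x20092) (nat_lit 0) (p (nat_lit 0x10012) (nat_lit 0) pn))))))))))))))))))))))))))))) :=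
  Cl.node (nat_lit 0x101) (nat_lit 2) (by decide +kernel) (ClAll.succ (ClAll.succ ClAll.zero n170) s319)

def n210 : Cl (O (nat_lit 3)) (R (nat_lit 102673))
    (p (nat_lit 0x20000c) (nat_lit 0) (p (nat_lit 0x200004) (nat_lit 0) (p (nat_lit 0xd1) (nat_lit 1) (p (nat_lit 0x111) (nat_lit 1) (p (nat_lit 0x109) (nat_lit 0) (p (nat_lit 0x101) (nat_lit 0) (p (nat_lit 0x119) (nat_lit 0) (p (nat_lit 0xc1) (nat_lit 0) (p (nat_lit 0x81) (nat_lit 1) (p (nat_lit 0x41) (nat_lit 1) (p (nat_lit 0x898a0b090a9a) (nat_lit 0) (p (nat_lit 0x9098a888a1a) (nat_lit 0) (p (nat_lit 0x88890a08079a) (nat_lit 0) (p (nat_lit 0x8088987871a) (nat_lit 0) (p (nat_lit 0x80000800078907088a) (nat_lit 0) (p (nat_lit 0x80000800070886860a) (nat_lit 0) (p (nat_lit 0x8708060782) (nat_lit 0) (p (nat_lit 0x687858702) (nat_lit 0) (p (nat_lit 0x8607050482) (nat_lit 0) (p (nat_lit 0x586848402) (nat_lit 0) (p (nat_lit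 0x160014) (nat_lit 0) (p (nat_lit 0x50612) (nat_lit 0) (p (nat_lit 0x40592) (nat_lit 0) (p (nat_lit 0x40492) (nat_lit 0) (p (nat_lit 0x30412) (nat_lit 0) (p (nat_lit 0x30212) (nat_lit 0) (p (nat_lit 0x20192) (nat_lit 0) (p (nat_lit 0x20092) (nat_lit 0) (p (nat_lit 0x10012) (nat_lit 0) pn))))))))))))))))))))))))))))) :=
  Cl.node (nat_lit 0xb0014) (nat_lit 2) (by decide +kernel) (ClAll.succ (ClAll.succ ClAll.zero n171) s328)

def n211 : Cl (O (nat_lit 3)) (R (nat_lit 102673))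
    (p (nat_lit 0x20000c) (nat_lit 0) (p (nat_lit 0x200004) (nat_lit 0) (p (nat_lit 0xd1) (nat_lit 1) (p (nat_lit 0xc9) (nat_lit 0) (p (nat_lit 0x109) (nat_lit 1) (p (nat_lit 0x101) (nat_lit 0) (p (nat_lit 0x119) (nat_lit 0) (p (nat_lit 0xc1) (nat_lit 0) (p (nat_lit 0x81) (nat_lit 1) (p (nat_lit 0x41) (nat_lit 1) (p (nat_lit 0x898a0b090a9a) (nat_lit 0) (p (nat_lit 0x9098a888a1a) (nat_lit 0) (p (nat_lit 0x88890a08079a) (nat_lit 0) (p (nat_lit 0x8088987871a) (nat_lit 0) (p (nat_lit 0x80000800078907088a) (nat_lit 0) (p (nat_lit 0x80000800070886860a) (nat_lit 0) (p (nat_lit 0x8708060782) (nat_lit 0) (p (nat_lit 0x687858702) (nat_lit 0) (p (nat_lit 0x8607050482) (nat_lit 0) (p (nat_lit 0x586848402) (nat_lit 0) (p (nat_lit 0x160014) (nat_lit 0) (p (nat_lit 0x50612) (nat_lit 0) (p (nat_lit 0x40592) (nat_lit 0) (p (nat_lit 0x40492) (nat_lit 0) (p (nat_lit 0x30412) (nat_lit 0) (p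 (nat_lit 0x30212) (nat_lit 0) (p (nat_lit 0x20192) (nat_lit 0) (p (nat_lit 0x20092) (nat_lit 0) (p (nat_lit 0x10012) (nat_lit 0) pn))))))))))))))))))))))))))))) :=
  Cl.node (nat_lit 0xb0014) (nat_lit 2) (by decide +kernel) (ClAll.succ (ClAll.succ ClAll.zero s332) s333)

def n212 : Cl (O (nat_lit 3)) (R (nat_lit 102673))
    (p (nat_lit 0xb0014) (nat_lit 0) (p (nat_lit 0x20000c) (nat_lit 0) (p (nat_lit 0x200004) (nat_lit 0) (p (nat_lit 0xd1) (nat_lit 1) (p (nat_lit 0xc9) (nat_lit 0) (p (nat_lit 0x101) (nat_lit 1) (p (nat_lit 0x119) (nat_lit 0) (p (nat_lit 0xc1) (nat_lit 0) (p (nat_lit 0x81) (nat_lit 1) (p (nat_lit 0x41) (nat_lit 1) (p (nat_lit 0x898a0b090a9a) (nat_lit 0) (p (nat_lit 0x9098a888a1a) (nat_lit 0) (p (nat_lit 0x88890a08079a) (nat_lit 0) (p (nat_lit 0x8088987871a) (nat_lit 0) (p (nat_lit 0x80000800078907088a) (nat_lit 0) (p (nat_lit 0x80000800070886860a) (nat_lit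 0) (p (nat_lit 0x8708060782) (nat_lit 0) (p (nat_lit 0x687858702) (nat_lit 0) (p (nat_lit 0x8607050482) (nat_lit 0) (p (nat_lit 0x586848402) (nat_lit 0) (p (nat_lit 0x160014) (nat_lit 0) (p (nat_lit 0x50612) (nat_lit 0) (p (nat_lit 0x40592) (nat_lit 0) (p (nat_lit 0x40492) (nat_lit 0) (p (nat_lit 0x30412) (nat_lit 0) (p (nat_lit 0x30212) (nat_lit 0) (p (nat_lit 0x20192) (nat_lit 0) (p (nat_lit 0x20092) (nat_lit 0) (p (nat_lit 0x10012) (nat_lit 0) pn))))))))))))))))))))))))))))) :=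
  Cl.node (nat_lit 0x111) (nat_lit 2) (by decide +kernel) (ClAll.succ (ClAll.succ ClAll.zero s341) n172)

def n213 : Cl (O (nat_lit 3)) (R (nat_lit 102673))
    (p (nat_lit 0x20000c) (nat_lit 0) (p (nat_lit 0x200004) (nat_lit 0) (p (nat_lit 0xc9) (nat_lit 1) (p (nat_lit 0x109) (nat_lit 1) (p (nat_lit 0x101) (nat_lit 0) (p (nat_lit 0x119) (nat_lit 0) (p (nat_lit 0xd1) (nat_lit 0) (p (nat_lit 0x89) (nat_lit 0) (p (nat_lit 0x41) (nat_lit 0) (p (nat_lit 0x898a0b090a9a) (nat_lit 0) (p (nat_lit 0x9098a888a1a) (nat_lit 0) (p (nat_lit 0x88890a08079a) (nat_lit 0) (p (nat_lit 0x8088987871a) (nat_lit 0) (p (nat_lit 0x80000800078907088a) (nat_lit 0) (p (nat_lit 0x80000800070886860a) (nat_lit 0) (p (nat_lit 0x8708060782) (nat_lit 0) (p (nat_lit 0x687858702) (nat_lit 0) (p (nat_lit 0x8607050482) (nat_lit 0) (p (nat_lit 0x586848402) (nat_lit 0) (p (nat_lit 0x160014) (nat_lit 0) (p (nat_lit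 0x50612) (nat_lit 0) (p (nat_lit 0x40592) (nat_lit 0) (p (nat_lit 0x40492) (nat_lit 0) (p (nat_lit 0x30412) (nat_lit 0) (p (nat_lit 0x30212) (nat_lit 0) (p (nat_lit 0x20192) (nat_lit 0) (p (nat_lit 0x20092) (nat_lit 0) (p (nat_lit 0x10012) (nat_lit 0) pn)))))))))))))))))))))))))))) :=
  Cl.node (nat_lit 0x81) (nat_lit 2) (by decide +kernel) (ClAll.succ (ClAll.succ ClAll.zero s2) n173)

def n214 : Cl (O (nat_lit 3)) (R (nat_lit 102673))
    (p (nat_lit 0x20000c) (nat_lit 0) (p (nat_lit 0x200004) (nat_lit 0) (p (nat_lit 0xc9) (nat_lit 0) (p (nat_lit 0x81) (nat_lit 0) (p (nat_lit 0x101) (nat_lit 1) (p (nat_lit 0x119) (nat_lit 0) (p (nat_lit 0xd1) (nat_lit 0) (p (nat_lit 0x89) (nat_lit 0) (p (nat_lit 0x41) (nat_lit 0) (p (nat_lit 0x898a0b090a9a) (nat_lit 0) (p (nat_lit 0x9098a888a1a) (nat_lit 0) (p (nat_lit 0x88890a08079a) (nat_lit 0) (p (nat_lit 0x8088987871a) (nat_lit 0) (p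 (nat_lit 0x80000800078907088a) (nat_lit 0) (p (nat_lit 0x80000800070886860a) (nat_lit 0) (p (nat_lit 0x8708060782) (nat_lit 0) (p (nat_lit 0x687858702) (nat_lit 0) (p (nat_lit 0x8607050482) (nat_lit 0) (p (nat_lit 0x586848402) (nat_lit 0) (p (nat_lit 0x160014) (nat_lit 0) (p (nat_lit 0x50612) (nat_lit 0) (p (nat_lit 0x40592) (nat_lit 0) (p (nat_lit 0x40492) (nat_lit 0) (p (nat_lit 0x30412) (nat_lit 0) (p (nat_lit 0x30212) (nat_lit 0) (p (nat_lit 0x20192) (nat_lit 0) (p (nat_lit 0x20092) (nat_lit 0) (p (nat_lit 0x10012) (nat_lit 0) pn)))))))))))))))))))))))))))) :=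
  Cl.node (nat_lit 0x111) (nat_lit 2) (by decide +kernel) (ClAll.succ (ClAll.succ ClAll.zero n174) s9)

def n215 : Cl (O (nat_lit 3)) (R (nat_lit 102673))
    (p (nat_lit 0x20000c) (nat_lit 0) (p (nat_lit 0x200004) (nat_lit 0) (p (nat_lit 0xc9) (nat_lit 1) (p (nat_lit 0x81) (nat_lit 0) (p (nat_lit 0x101) (nat_lit 1) (p (nat_lit 0x119) (nat_lit 0) (p (nat_lit 0xd1) (nat_lit 0) (p (nat_lit 0x89) (nat_lit 0) (p (nat_lit 0x41) (nat_lit 0) (p (nat_lit 0x898a0b090a9a) (nat_lit 0) (p (nat_lit 0x9098a888a1a) (nat_lit 0) (p (nat_lit 0x88890a08079a) (nat_lit 0) (p (nat_lit 0x8088987871a) (nat_lit 0) (p (nat_lit 0x80000800078907088a) (nat_lit 0) (p (nat_lit 0x80000800070886860a) (nat_lit 0) (p (nat_lit 0x8708060782) (nat_lit 0) (p (nat_lit 0x687858702) (nat_lit 0) (p (nat_lit 0x8607050482) (nat_lit 0) (p (nat_lit 0x586848402) (nat_lit 0) (p (nat_lit 0x160014) (nat_lit 0) (p (nat_lit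 0x50612) (nat_lit 0) (p (nat_lit 0x40592) (nat_lit 0) (p (nat_lit 0x40492) (nat_lit 0) (p (nat_lit 0x30412) (nat_lit 0) (p (nat_lit 0x30212) (nat_lit 0) (p (nat_lit 0x20192) (nat_lit 0) (p (nat_lit 0x20092) (nat_lit 0) (p (nat_lit 0x10012) (nat_lit 0) pn)))))))))))))))))))))))))))) :=
  Cl.node (nat_lit 0x111) (nat_lit 2) (by decide +kernel) (ClAll.succ (ClAll.succ ClAll.zero n175) s25)

def n216 : Cl (O (nat_lit 3)) (R (nat_lit 102673))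
    (p (nat_lit 0x200004) (nat_lit 0) (p (nat_lit 0xc9) (nat_lit 0) (p (nat_lit 0xc1) (nat_lit 0) (p (nat_lit 0x81) (nat_lit 1) (p (nat_lit 0x101) (nat_lit 1) (p (nat_lit 0x119) (nat_lit 0) (p (nat_lit 0xd1) (nat_lit 0) (p (nat_lit 0x89) (nat_lit 0) (p (nat_lit 0x41) (nat_lit 0) (p (nat_lit 0x898a0b090a9a) (nat_lit 0) (p (nat_lit 0x9098a888a1a) (nat_lit 0) (p (nat_lit 0x88890a08079a) (nat_lit 0) (p (nat_lit 0x8088987871a) (nat_lit 0) (p (nat_lit 0x80000800078907088a) (nat_lit 0) (p (nat_lit 0x80000800070886860a) (nat_lit 0) (p (nat_lit 0x8708060782) (nat_lit 0) (p (nat_lit 0x687858702) (nat_lit 0) (p (nat_lit 0x8607050482) (nat_lit 0) (p (nat_lit 0x586848402) (nat_lit 0) (p (nat_lit 0x160014) (nat_lit 0) (p (nat_lit 0x50612) (nat_lit 0) (p (nat_lit 0x40592) (nat_lit 0) (p (nat_lit 0x40492) (nat_lit 0) (p (nat_lit 0x30412) (nat_lit 0) (p (nat_lit 0x30212) (nat_lit 0) (p (nat_lit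 0x20192) (nat_lit 0) (p (nat_lit 0x20092) (nat_lit 0) (p (nat_lit 0x10012) (nat_lit 0) pn)))))))))))))))))))))))))))) :=
  Cl.node (nat_lit 0x20000c) (nat_lit 2) (by decide +kernel) (ClAll.succ (ClAll.succ ClAll.zero n176) s30)

def n217 : Cl (O (nat_lit 3)) (R (nat_lit 102673))
    (p (nat_lit 0x200004) (nat_lit 0) (p (nat_lit 0xc9) (nat_lit 1) (p (nat_lit 0xc1) (nat_lit 0) (p (nat_lit 0x81) (nat_lit 1) (p (nat_lit 0x101) (nat_lit 1) (p (nat_lit 0x119) (nat_lit 0) (p (nat_lit 0xd1) (nat_lit 0) (p (nat_lit 0x89) (nat_lit 0) (p (nat_lit 0x41) (nat_lit 0) (p (nat_lit 0x898a0b090a9a) (nat_lit 0) (p (nat_lit 0x9098a888a1a) (nat_lit 0) (p (nat_lit 0x88890a08079a) (nat_lit 0) (p (nat_lit 0x8088987871a) (nat_lit 0) (p (nat_lit 0x80000800078907088a) (nat_lit 0) (p (nat_lit 0x80000800070886860a) (nat_lit 0) (p (nat_lit 0x8708060782) (nat_lit 0) (p (nat_lit 0x687858702) (nat_lit 0)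 (p (nat_lit 0x8607050482) (nat_lit 0) (p (nat_lit 0x586848402) (nat_lit 0) (p (nat_lit 0x160014) (nat_lit 0) (p (nat_lit 0x50612) (nat_lit 0) (p (nat_lit 0x40592) (nat_lit 0) (p (nat_lit 0x40492) (nat_lit 0) (p (nat_lit 0x30412) (nat_lit 0) (p (nat_lit 0x30212) (nat_lit 0) (p (nat_lit 0x20192) (nat_lit 0) (p (nat_lit 0x20092) (nat_lit 0) (p (nat_lit 0x10012) (nat_lit 0) pn)))))))))))))))))))))))))))) :=
  Cl.node (nat_lit 0x20000c) (nat_lit 2) (by decide +kernel) (ClAll.succ (ClAll.succ ClAll.zero n177) s46)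

def n218 : Cl (O (nat_lit 3)) (R (nat_lit 102673))
    (p (nat_lit 0x200004) (nat_lit 0) (p (nat_lit 0x109) (nat_lit 0) (p (nat_lit 0x101) (nat_lit 0) (p (nat_lit 0x81) (nat_lit 1) (p (nat_lit 0xc1) (nat_lit 1) (p (nat_lit 0x119) (nat_lit 1) (p (nat_lit 0xd1) (nat_lit 0) (p (nat_lit 0x89) (nat_lit 0) (p (nat_lit 0x41) (nat_lit 0) (p (nat_lit 0x898a0b090a9a) (nat_lit 0) (p (nat_lit 0x9098a888a1a) (nat_lit 0) (p (nat_lit 0x88890a08079a) (nat_lit 0) (p (nat_lit 0x8088987871a) (nat_lit 0) (p (nat_lit 0x80000800078907088a) (nat_lit 0) (p (nat_lit 0x80000800070886860a) (nat_lit 0) (p (nat_lit 0x8708060782) (nat_lit 0) (p (nat_lit 0x687858702) (nat_lit 0) (p (nat_lit 0x8607050482) (nat_lit 0) (p (nat_lit 0x586848402) (nat_lit 0) (p (nat_lit 0x160014) (nat_lit 0) (p (nat_lit 0x50612) (nat_lit 0) (p (nat_lit 0x40592) (nat_lit 0) (p (nat_lit 0x40492) (nat_lit 0) (p (nat_lit 0x30412)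 (nat_lit 0) (p (nat_lit 0x30212) (nat_lit 0) (p (nat_lit 0x20192) (nat_lit 0) (p (nat_lit 0x20092) (nat_lit 0) (p (nat_lit 0x10012) (nat_lit 0) pn)))))))))))))))))))))))))))) :=
  Cl.node (nat_lit 0x20000c) (nat_lit 2) (by decide +kernel) (ClAll.succ (ClAll.succ ClAll.zero n178) s60)

def n219 : Cl (O (nat_lit 3)) (R (nat_lit 102673))
    (p (nat_lit 0x200004) (nat_lit 0) (p (nat_lit 0x109) (nat_lit 1) (p (nat_lit 0x101) (nat_lit 0) (p (nat_lit 0x81) (nat_lit 1) (p (nat_lit 0xc1) (nat_lit 1) (p (nat_lit 0x119) (nat_lit 1) (p (nat_lit 0xd1) (nat_lit 0) (p (nat_lit 0x89) (nat_lit 0) (p (nat_lit 0x41) (nat_lit 0) (p (nat_lit 0x898a0b090a9a) (nat_lit 0) (p (nat_lit 0x9098a888a1a) (nat_lit 0) (p (nat_lit 0x88890a08079a) (nat_lit 0) (p (nat_lit 0x8088987871a) (nat_lit 0) (p (nat_lit 0x80000800078907088a) (nat_lit 0) (p (nat_lit 0x80000800070886860a) (nat_lit 0) (p (nat_lit 0x8708060782)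 (nat_lit 0) (p (nat_lit 0x687858702) (nat_lit 0) (p (nat_lit 0x8607050482) (nat_lit 0) (p (nat_lit 0x586848402) (nat_lit 0) (p (nat_lit 0x160014) (nat_lit 0) (p (nat_lit 0x50612) (nat_lit 0) (p (nat_lit 0x40592) (nat_lit 0) (p (nat_lit 0x40492) (nat_lit 0) (p (nat_lit 0x30412) (nat_lit 0) (p (nat_lit 0x30212) (nat_lit 0) (p (nat_lit 0x20192) (nat_lit 0) (p (nat_lit 0x20092) (nat_lit 0) (p (nat_lit 0x10012) (nat_lit 0) pn)))))))))))))))))))))))))))) :=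
  Cl.node (nat_lit 0x20000c) (nat_lit 2) (by decide +kernel) (ClAll.succ (ClAll.succ ClAll.zero n179) s68)

def n220 : Cl (O (nat_lit 3)) (R (nat_lit 102673))
    (p (nat_lit 0xc1) (nat_lit 1) (p (nat_lit 0x20000c) (nat_lit 0) (p (nat_lit 0x200004) (nat_lit 0) (p (nat_lit 0x109) (nat_lit 1) (p (nat_lit 0x101) (nat_lit 0) (p (nat_lit 0x111) (nat_lit 0) (p (nat_lit 0xd1) (nat_lit 1) (p (nat_lit 0x89) (nat_lit 0) (p (nat_lit 0x41) (nat_lit 0) (p (nat_lit 0x898a0b090a9a) (nat_lit 0) (p (nat_lit 0x9098a888a1a) (nat_lit 0) (p (nat_lit 0x88890a08079a) (nat_lit 0) (p (nat_lit 0x8088987871a) (nat_lit 0) (p (nat_lit 0x80000800078907088a) (nat_lit 0) (p (nat_lit 0x80000800070886860a) (nat_lit 0) (p (nat_lit 0x8708060782) (nat_lit 0) (p (nat_lit 0x687858702) (nat_lit 0) (p (nat_lit 0x8607050482) (nat_lit 0) (p (nat_lit 0x586848402) (nat_lit 0) (p (nat_lit 0x160014) (nat_lit 0) (p (nat_lit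 0x50612) (nat_lit 0) (p (nat_lit 0x40592) (nat_lit 0) (p (nat_lit 0x40492) (nat_lit 0) (p (nat_lit 0x30412) (nat_lit 0) (p (nat_lit 0x30212) (nat_lit 0) (p (nat_lit 0x20192) (nat_lit 0) (p (nat_lit 0x20092) (nat_lit 0) (p (nat_lit 0x10012) (nat_lit 0) pn)))))))))))))))))))))))))))) :=
  Cl.node (nat_lit 0xb0014) (nat_lit 2) (by decide +kernel) (ClAll.succ (ClAll.succ ClAll.zero s75) s76)

def n221 : Cl (O (nat_lit 3)) (R (nat_lit 102673))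
    (p (nat_lit 0x119) (nat_lit 0) (p (nat_lit 0x20000c) (nat_lit 0) (p (nat_lit 0x200004) (nat_lit 0) (p (nat_lit 0x81) (nat_lit 0) (p (nat_lit 0x101) (nat_lit 1) (p (nat_lit 0x111) (nat_lit 0) (p (nat_lit 0xd1) (nat_lit 1) (p (nat_lit 0x89) (nat_lit 0) (p (nat_lit 0x41) (nat_lit 0) (p (nat_lit 0x898a0b090a9a) (nat_lit 0) (p (nat_lit 0x9098a888a1a) (nat_lit 0) (p (nat_lit 0x88890a08079a) (nat_lit 0) (p (nat_lit 0x8088987871a) (nat_lit 0) (p (nat_lit 0x80000800078907088a) (nat_lit 0) (p (nat_lit 0x80000800070886860a) (nat_lit 0) (p (nat_lit 0x8708060782) (nat_lit 0) (p (nat_lit 0x687858702) (nat_lit 0) (p (nat_lit 0x8607050482) (nat_lit 0) (p (nat_lit 0x586848402) (nat_lit 0) (p (nat_lit 0x160014) (nat_lit 0) (p (nat_lit 0x50612) (nat_lit 0) (p (nat_lit 0x40592) (nat_lit 0) (p (nat_lit 0x40492) (nat_lit 0) (p (nat_lit 0x30412) (nat_lit 0) (p (nat_lit 0x30212) (nat_lit 0)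 (p (nat_lit 0x20192) (nat_lit 0) (p (nat_lit 0x20092) (nat_lit 0) (p (nat_lit 0x10012) (nat_lit 0) pn)))))))))))))))))))))))))))) :=
  Cl.node (nat_lit 0xb0014) (nat_lit 2) (by decide +kernel) (ClAll.succ (ClAll.succ ClAll.zero s79) s80)

def n222 : Cl (O (nat_lit 3)) (R (nat_lit 102673))
    (p (nat_lit 0x119) (nat_lit 1) (p (nat_lit 0x20000c) (nat_lit 0) (p (nat_lit 0x200004) (nat_lit 0) (p (nat_lit 0x81) (nat_lit 0) (p (nat_lit 0x101) (nat_lit 1) (p (nat_lit 0x111) (nat_lit 0) (p (nat_lit 0xd1) (nat_lit 1) (p (nat_lit 0x89) (nat_lit 0) (p (nat_lit 0x41) (nat_lit 0) (p (nat_lit 0x898a0b090a9a) (nat_lit 0) (p (nat_lit 0x9098a888a1a) (nat_lit 0) (p (nat_lit 0x88890a08079a) (nat_lit 0) (p (nat_lit 0x8088987871a) (nat_lit 0) (p (nat_lit 0x80000800078907088a) (nat_lit 0) (p (nat_lit 0x80000800070886860a) (nat_lit 0) (p (nat_lit 0x8708060782) (nat_lit 0) (p (nat_lit 0x687858702)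 (nat_lit 0) (p (nat_lit 0x8607050482) (nat_lit 0) (p (nat_lit 0x586848402) (nat_lit 0) (p (nat_lit 0x160014) (nat_lit 0) (p (nat_lit 0x50612) (nat_lit 0) (p (nat_lit 0x40592) (nat_lit 0) (p (nat_lit 0x40492) (nat_lit 0) (p (nat_lit 0x30412) (nat_lit 0) (p (nat_lit 0x30212) (nat_lit 0) (p (nat_lit 0x20192) (nat_lit 0) (p (nat_lit 0x20092) (nat_lit 0) (p (nat_lit 0x10012) (nat_lit 0) pn)))))))))))))))))))))))))))) :=
  Cl.node (nat_lit 0xb0014) (nat_lit 2) (by decide +kernel) (ClAll.succ (ClAll.succ ClAll.zero s81) s82)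

def n223 : Cl (O (nat_lit 3)) (R (nat_lit 102673))
    (p (nat_lit 0x20000c) (nat_lit 0) (p (nat_lit 0x200004) (nat_lit 0) (p (nat_lit 0xc1) (nat_lit 0) (p (nat_lit 0x81) (nat_lit 1) (p (nat_lit 0x101) (nat_lit 1) (p (nat_lit 0x111) (nat_lit 0) (p (nat_lit 0xd1) (nat_lit 1) (p (nat_lit 0x89) (nat_lit 0) (p (nat_lit 0x41) (nat_lit 0) (p (nat_lit 0x898a0b090a9a) (nat_lit 0) (p (nat_lit 0x9098a888a1a) (nat_lit 0) (p (nat_lit 0x88890a08079a) (nat_lit 0) (p (nat_lit 0x8088987871a) (nat_lit 0) (p (nat_lit 0x80000800078907088a) (nat_lit 0) (p (nat_lit 0x80000800070886860a) (nat_lit 0) (p (nat_lit 0x8708060782) (nat_lit 0) (p (nat_lit 0x687858702) (nat_lit 0) (p (nat_lit 0x8607050482) (nat_lit 0) (p (nat_lit 0x586848402) (nat_lit 0) (p (nat_lit 0x160014) (nat_lit 0) (p (nat_lit 0x50612) (nat_lit 0) (p (nat_lit 0x40592) (nat_lit 0) (p (nat_lit 0x40492) (nat_lit 0) (p (nat_lit 0x30412)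 (nat_lit 0) (p (nat_lit 0x30212) (nat_lit 0) (p (nat_lit 0x20192) (nat_lit 0) (p (nat_lit 0x20092) (nat_lit 0) (p (nat_lit 0x10012) (nat_lit 0) pn)))))))))))))))))))))))))))) :=
  Cl.node (nat_lit 0x119) (nat_lit 2) (by decide +kernel) (ClAll.succ (ClAll.succ ClAll.zero n180) n181)

def n224 : Cl (O (nat_lit 3)) (R (nat_lit 102673))
    (p (nat_lit 0x20000c) (nat_lit 1) (p (nat_lit 0x200004) (nat_lit 0) (p (nat_lit 0xc1) (nat_lit 0) (p (nat_lit 0x81) (nat_lit 1) (p (nat_lit 0x101) (nat_lit 1) (p (nat_lit 0x111) (nat_lit 0) (p (nat_lit 0xd1) (nat_lit 1) (p (nat_lit 0x89) (nat_lit 0) (p (nat_lit 0x41) (nat_lit 0) (p (nat_lit 0x898a0b090a9a) (nat_lit 0) (p (nat_lit 0x9098a888a1a) (nat_lit 0) (p (nat_lit 0x88890a08079a) (nat_lit 0) (p (nat_lit 0x8088987871a) (nat_lit 0) (p (nat_lit 0x80000800078907088a) (nat_lit 0) (p (nat_lit 0x80000800070886860a) (nat_lit 0) (p (nat_lit 0x8708060782)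 (nat_lit 0) (p (nat_lit 0x687858702) (nat_lit 0) (p (nat_lit 0x8607050482) (nat_lit 0) (p (nat_lit 0x586848402) (nat_lit 0) (p (nat_lit 0x160014) (nat_lit 0) (p (nat_lit 0x50612) (nat_lit 0) (p (nat_lit 0x40592) (nat_lit 0) (p (nat_lit 0x40492) (nat_lit 0) (p (nat_lit 0x30412) (nat_lit 0) (p (nat_lit 0x30212) (nat_lit 0) (p (nat_lit 0x20192) (nat_lit 0) (p (nat_lit 0x20092) (nat_lit 0) (p (nat_lit 0x10012) (nat_lit 0) pn)))))))))))))))))))))))))))) :=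
  Cl.node (nat_lit 0xb0014) (nat_lit 2) (by decide +kernel) (ClAll.succ (ClAll.succ ClAll.zero n182) s108)

def n225 : Cl (O (nat_lit 3)) (R (nat_lit 102673))
    (p (nat_lit 0x20000c) (nat_lit 0) (p (nat_lit 0x200004) (nat_lit 0) (p (nat_lit 0x101) (nat_lit 0) (p (nat_lit 0xc1) (nat_lit 1) (p (nat_lit 0x81) (nat_lit 1) (p (nat_lit 0x111) (nat_lit 1) (p (nat_lit 0xd1) (nat_lit 1) (p (nat_lit 0x89) (nat_lit 0) (p (nat_lit 0x41) (nat_lit 0) (p (nat_lit 0x898a0b090a9a) (nat_lit 0) (p (nat_lit 0x9098a888a1a) (nat_lit 0) (p (nat_lit 0x88890a08079a) (nat_lit 0) (p (nat_lit 0x8088987871a) (nat_lit 0) (p (nat_lit 0x80000800078907088a) (nat_lit 0) (p (nat_lit 0x80000800070886860a) (nat_lit 0) (p (nat_lit 0x8708060782) (nat_lit 0) (p (nat_lit 0x687858702) (nat_lit 0) (p (nat_lit 0x8607050482) (nat_lit 0) (p (nat_lit 0x586848402) (nat_lit 0) (p (nat_lit 0x160014) (nat_lit 0) (p (nat_lit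 0x50612) (nat_lit 0) (p (nat_lit 0x40592) (nat_lit 0) (p (nat_lit 0x40492) (nat_lit 0) (p (nat_lit 0x30412) (nat_lit 0) (p (nat_lit 0x30212) (nat_lit 0) (p (nat_lit 0x20192) (nat_lit 0) (p (nat_lit 0x20092) (nat_lit 0) (p (nat_lit 0x10012) (nat_lit 0) pn)))))))))))))))))))))))))))) :=
  Cl.node (nat_lit 0xb0014) (nat_lit 2) (by decide +kernel) (ClAll.succ (ClAll.succ ClAll.zero n183) n184)

def n226 : Cl (O (nat_lit 3)) (R (nat_lit 102673))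
    (p (nat_lit 0x20000c) (nat_lit 0) (p (nat_lit 0x200004) (nat_lit 0) (p (nat_lit 0x101) (nat_lit 1) (p (nat_lit 0xc1) (nat_lit 1) (p (nat_lit 0x81) (nat_lit 1) (p (nat_lit 0x111) (nat_lit 1) (p (nat_lit 0xd1) (nat_lit 1) (p (nat_lit 0x89) (nat_lit 0) (p (nat_lit 0x41) (nat_lit 0) (p (nat_lit 0x898a0b090a9a) (nat_lit 0) (p (nat_lit 0x9098a888a1a) (nat_lit 0) (p (nat_lit 0x88890a08079a) (nat_lit 0) (p (nat_lit 0x8088987871a) (nat_lit 0) (p (nat_lit 0x80000800078907088a) (nat_lit 0) (p (nat_lit 0x80000800070886860a) (nat_lit 0) (p (nat_lit 0x8708060782) (nat_lit 0) (p (nat_lit 0x687858702) (nat_lit 0) (p (nat_lit 0x8607050482) (nat_lit 0) (p (nat_lit 0x586848402) (nat_lit 0) (p (nat_lit 0x160014) (nat_lit 0) (p (nat_lit 0x50612) (nat_lit 0) (p (nat_lit 0x40592) (nat_lit 0) (p (nat_lit 0x40492) (nat_lit 0) (p (nat_lit 0x30412) (nat_lit 0) (p (nat_lit 0x30212) (nat_lit 0) (p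 (nat_lit 0x20192) (nat_lit 0) (p (nat_lit 0x20092) (nat_lit 0) (p (nat_lit 0x10012) (nat_lit 0) pn)))))))))))))))))))))))))))) :=
  Cl.node (nat_lit 0xb0014) (nat_lit 2) (by decide +kernel) (ClAll.succ (ClAll.succ ClAll.zero n185) s123)

def n227 : Cl (O (nat_lit 3)) (R (nat_lit 102673))
    (p (nat_lit 0x200004) (nat_lit 0) (p (nat_lit 0xd1) (nat_lit 1) (p (nat_lit 0x111) (nat_lit 1) (p (nat_lit 0x109) (nat_lit 0) (p (nat_lit 0x101) (nat_lit 0) (p (nat_lit 0x119) (nat_lit 0) (p (nat_lit 0xc9) (nat_lit 0) (p (nat_lit 0x89) (nat_lit 1) (p (nat_lit 0x41) (nat_lit 0) (p (nat_lit 0x898a0b090a9a) (nat_lit 0) (p (nat_lit 0x9098a888a1a) (nat_lit 0) (p (nat_lit 0x88890a08079a) (nat_lit 0) (p (nat_lit 0x8088987871a) (nat_lit 0) (p (nat_lit 0x80000800078907088a) (nat_lit 0) (p (nat_lit 0x80000800070886860a) (nat_lit 0) (p (nat_lit 0x8708060782) (nat_lit 0) (p (nat_lit 0x687858702)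 (nat_lit 0) (p (nat_lit 0x8607050482) (nat_lit 0) (p (nat_lit 0x586848402) (nat_lit 0) (p (nat_lit 0x160014) (nat_lit 0) (p (nat_lit 0x50612) (nat_lit 0) (p (nat_lit 0x40592) (nat_lit 0) (p (nat_lit 0x40492) (nat_lit 0) (p (nat_lit 0x30412) (nat_lit 0) (p (nat_lit 0x30212) (nat_lit 0) (p (nat_lit 0x20192) (nat_lit 0) (p (nat_lit 0x20092) (nat_lit 0) (p (nat_lit 0x10012) (nat_lit 0) pn)))))))))))))))))))))))))))) :=
  Cl.node (nat_lit 0x20000c) (nat_lit 2) (by decide +kernel) (ClAll.succ (ClAll.succ ClAll.zero n186) s130)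

def n228 : Cl (O (nat_lit 3)) (R (nat_lit 102673))
    (p (nat_lit 0x20000c) (nat_lit 0) (p (nat_lit 0x200004) (nat_lit 0) (p (nat_lit 0xd1) (nat_lit 0) (p (nat_lit 0x109) (nat_lit 1) (p (nat_lit 0x101) (nat_lit 0) (p (nat_lit 0x119) (nat_lit 0) (p (nat_lit 0xc9) (nat_lit 0) (p (nat_lit 0x89) (nat_lit 1) (p (nat_lit 0x41) (nat_lit 0) (p (nat_lit 0x898a0b090a9a) (nat_lit 0) (p (nat_lit 0x9098a888a1a) (nat_lit 0) (p (nat_lit 0x88890a08079a) (nat_lit 0) (p (nat_lit 0x8088987871a) (nat_lit 0) (p (nat_lit 0x80000800078907088a) (nat_lit 0) (p (nat_lit 0x80000800070886860a) (nat_lit 0) (p (nat_lit 0x8708060782) (nat_lit 0) (p (nat_lit 0x687858702) (nat_lit 0) (p (nat_lit 0x8607050482) (nat_lit 0) (p (nat_lit 0x586848402) (nat_lit 0) (p (nat_lit 0x160014) (nat_lit 0) (p (nat_lit 0x50612) (nat_lit 0) (p (nat_lit 0x40592) (nat_lit 0) (p (nat_lit 0x40492) (nat_lit 0) (p (nat_lit 0x30412)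 (nat_lit 0) (p (nat_lit 0x30212) (nat_lit 0) (p (nat_lit 0x20192) (nat_lit 0) (p (nat_lit 0x20092) (nat_lit 0) (p (nat_lit 0x10012) (nat_lit 0) pn)))))))))))))))))))))))))))) :=
  Cl.node (nat_lit 0xb0014) (nat_lit 2) (by decide +kernel) (ClAll.succ (ClAll.succ ClAll.zero s132) s133)

def n229 : Cl (O (nat_lit 3)) (R (nat_lit 102673))
    (p (nat_lit 0x20000c) (nat_lit 0) (p (nat_lit 0x200004) (nat_lit 0) (p (nat_lit 0xd1) (nat_lit 1) (p (nat_lit 0x109) (nat_lit 1) (p (nat_lit 0x101) (nat_lit 0) (p (nat_lit 0x119) (nat_lit 0) (p (nat_lit 0xc9) (nat_lit 0) (p (nat_lit 0x89) (nat_lit 1) (p (nat_lit 0x41) (nat_lit 0) (p (nat_lit 0x898a0b090a9a) (nat_lit 0) (p (nat_lit 0x9098a888a1a) (nat_lit 0) (p (nat_lit 0x88890a08079a) (nat_lit 0) (p (nat_lit 0x8088987871a) (nat_lit 0) (p (nat_lit 0x80000800078907088a) (nat_lit 0) (p (nat_lit 0x80000800070886860a) (nat_lit 0) (p (nat_lit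 0x8708060782) (nat_lit 0) (p (nat_lit 0x687858702) (nat_lit 0) (p (nat_lit 0x8607050482) (nat_lit 0) (p (nat_lit 0x586848402) (nat_lit 0) (p (nat_lit 0x160014) (nat_lit 0) (p (nat_lit 0x50612) (nat_lit 0) (p (nat_lit 0x40592) (nat_lit 0) (p (nat_lit 0x40492) (nat_lit 0) (p (nat_lit 0x30412) (nat_lit 0) (p (nat_lit 0x30212) (nat_lit 0) (p (nat_lit 0x20192) (nat_lit 0) (p (nat_lit 0x20092) (nat_lit 0) (p (nat_lit 0x10012) (nat_lit 0) pn)))))))))))))))))))))))))))) :=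
  Cl.node (nat_lit 0xb0014) (nat_lit 2) (by decide +kernel) (ClAll.succ (ClAll.succ ClAll.zero n187) n188)

def n230 : Cl (O (nat_lit 3)) (R (nat_lit 102673))
    (p (nat_lit 0x20000c) (nat_lit 0) (p (nat_lit 0x200004) (nat_lit 0) (p (nat_lit 0xd1) (nat_lit 0) (p (nat_lit 0xc1) (nat_lit 0) (p (nat_lit 0x101) (nat_lit 1) (p (nat_lit 0x119) (nat_lit 0) (p (nat_lit 0xc9) (nat_lit 0) (p (nat_lit 0x89) (nat_lit 1) (p (nat_lit 0x41) (nat_lit 0) (p (nat_lit 0x898a0b090a9a) (nat_lit 0) (p (nat_lit 0x9098a888a1a) (nat_lit 0) (p (nat_lit 0x88890a08079a) (nat_lit 0) (p (nat_lit 0x8088987871a) (nat_lit 0) (p (nat_lit 0x80000800078907088a) (nat_lit 0) (p (nat_lit 0x80000800070886860a) (nat_lit 0) (p (nat_lit 0x8708060782) (nat_lit 0) (p (nat_lit 0x687858702) (nat_lit 0) (p (nat_lit 0x8607050482) (nat_lit 0) (p (nat_lit 0x586848402) (nat_lit 0) (p (nat_lit 0x160014) (nat_lit 0) (p (nat_lit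 0x50612) (nat_lit 0) (p (nat_lit 0x40592) (nat_lit 0) (p (nat_lit 0x40492) (nat_lit 0) (p (nat_lit 0x30412) (nat_lit 0) (p (nat_lit 0x30212) (nat_lit 0) (p (nat_lit 0x20192) (nat_lit 0) (p (nat_lit 0x20092) (nat_lit 0) (p (nat_lit 0x10012) (nat_lit 0) pn)))))))))))))))))))))))))))) :=
  Cl.node (nat_lit 0xb0014) (nat_lit 2) (by decide +kernel) (ClAll.succ (ClAll.succ ClAll.zero s147) s148)

def n231 : Cl (O (nat_lit 3)) (R (nat_lit 102673))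
    (p (nat_lit 0x20000c) (nat_lit 0) (p (nat_lit 0x200004) (nat_lit 0) (p (nat_lit 0xd1) (nat_lit 1) (p (nat_lit 0xc1) (nat_lit 0) (p (nat_lit 0x101) (nat_lit 1) (p (nat_lit 0x119) (nat_lit 0) (p (nat_lit 0xc9) (nat_lit 0) (p (nat_lit 0x89) (nat_lit 1) (p (nat_lit 0x41) (nat_lit 0) (p (nat_lit 0x898a0b090a9a) (nat_lit 0) (p (nat_lit 0x9098a888a1a) (nat_lit 0) (p (nat_lit 0x88890a08079a) (nat_lit 0) (p (nat_lit 0x8088987871a) (nat_lit 0) (p (nat_lit 0x80000800078907088a) (nat_lit 0) (p (nat_lit 0x80000800070886860a) (nat_lit 0) (p (nat_lit 0x8708060782) (nat_lit 0) (p (nat_lit 0x687858702) (nat_lit 0) (p (nat_lit 0x8607050482) (nat_lit 0) (p (nat_lit 0x586848402) (nat_lit 0) (p (nat_lit 0x160014) (nat_lit 0) (p (nat_lit 0x50612) (nat_lit 0) (p (nat_lit 0x40592) (nat_lit 0) (p (nat_lit 0x40492) (nat_lit 0) (p (nat_lit 0x30412) (nat_lit 0) (p (nat_lit 0x30212) (nat_lit 0) (p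 (nat_lit 0x20192) (nat_lit 0) (p (nat_lit 0x20092) (nat_lit 0) (p (nat_lit 0x10012) (nat_lit 0) pn)))))))))))))))))))))))))))) :=
  Cl.node (nat_lit 0xb0014) (nat_lit 2) (by decide +kernel) (ClAll.succ (ClAll.succ ClAll.zero n189) n190)

def n232 : Cl (O (nat_lit 3)) (R (nat_lit 102673))
    (p (nat_lit 0x20000c) (nat_lit 0) (p (nat_lit 0x200004) (nat_lit 0) (p (nat_lit 0x111) (nat_lit 1) (p (nat_lit 0xd1) (nat_lit 1) (p (nat_lit 0xc1) (nat_lit 0) (p (nat_lit 0x119) (nat_lit 1) (p (nat_lit 0xc9) (nat_lit 0) (p (nat_lit 0x89) (nat_lit 1) (p (nat_lit 0x41) (nat_lit 0) (p (nat_lit 0x898a0b090a9a) (nat_lit 0) (p (nat_lit 0x9098a888a1a) (nat_lit 0) (p (nat_lit 0x88890a08079a) (nat_lit 0) (p (nat_lit 0x8088987871a) (nat_lit 0) (p (nat_lit 0x80000800078907088a) (nat_lit 0) (p (nat_lit 0x80000800070886860a) (nat_lit 0) (p (nat_lit 0x8708060782) (nat_lit 0) (p (nat_lit 0x687858702)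 (nat_lit 0) (p (nat_lit 0x8607050482) (nat_lit 0) (p (nat_lit 0x586848402) (nat_lit 0) (p (nat_lit 0x160014) (nat_lit 0) (p (nat_lit 0x50612) (nat_lit 0) (p (nat_lit 0x40592) (nat_lit 0) (p (nat_lit 0x40492) (nat_lit 0) (p (nat_lit 0x30412) (nat_lit 0) (p (nat_lit 0x30212) (nat_lit 0) (p (nat_lit 0x20192) (nat_lit 0) (p (nat_lit 0x20092) (nat_lit 0) (p (nat_lit 0x10012) (nat_lit 0) pn)))))))))))))))))))))))))))) :=
  Cl.node (nat_lit 0xb0014) (nat_lit 2) (by decide +kernel) (ClAll.succ (ClAll.succ ClAll.zero s165) s166)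

def n233 : Cl (O (nat_lit 3)) (R (nat_lit 102673))
    (p (nat_lit 0x20000c) (nat_lit 0) (p (nat_lit 0x200004) (nat_lit 0) (p (nat_lit 0x111) (nat_lit 0) (p (nat_lit 0x101) (nat_lit 0) (p (nat_lit 0xc1) (nat_lit 1) (p (nat_lit 0x119) (nat_lit 1) (p (nat_lit 0xc9) (nat_lit 0) (p (nat_lit 0x89) (nat_lit 1) (p (nat_lit 0x41) (nat_lit 0) (p (nat_lit 0x898a0b090a9a) (nat_lit 0) (p (nat_lit 0x9098a888a1a) (nat_lit 0) (p (nat_lit 0x88890a08079a) (nat_lit 0) (p (nat_lit 0x8088987871a) (nat_lit 0) (p (nat_lit 0x80000800078907088a) (nat_lit 0) (p (nat_lit 0x80000800070886860a) (nat_lit 0) (p (nat_lit 0x8708060782) (nat_lit 0) (p (nat_lit 0x687858702) (nat_lit 0) (p (nat_lit 0x8607050482) (nat_lit 0) (p (nat_lit 0x586848402) (nat_lit 0) (p (nat_lit 0x160014) (nat_lit 0) (p (nat_lit 0x50612) (nat_lit 0) (p (nat_lit 0x40592) (nat_lit 0) (p (nat_lit 0x40492) (nat_lit 0) (p (nat_lit 0x30412)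 (nat_lit 0) (p (nat_lit 0x30212) (nat_lit 0) (p (nat_lit 0x20192) (nat_lit 0) (p (nat_lit 0x20092) (nat_lit 0) (p (nat_lit 0x10012) (nat_lit 0) pn)))))))))))))))))))))))))))) :=
  Cl.node (nat_lit 0xb0014) (nat_lit 2) (by decide +kernel) (ClAll.succ (ClAll.succ ClAll.zero s169) s170)

def n234 : Cl (O (nat_lit 3)) (R (nat_lit 102673))
    (p (nat_lit 0x20000c) (nat_lit 0) (p (nat_lit 0x200004) (nat_lit 0) (p (nat_lit 0x111) (nat_lit 1) (p (nat_lit 0x101) (nat_lit 0) (p (nat_lit 0xc1) (nat_lit 1) (p (nat_lit 0x119) (nat_lit 1) (p (nat_lit 0xc9) (nat_lit 0) (p (nat_lit 0x89) (nat_lit 1) (p (nat_lit 0x41) (nat_lit 0) (p (nat_lit 0x898a0b090a9a) (nat_lit 0) (p (nat_lit 0x9098a888a1a) (nat_lit 0) (p (nat_lit 0x88890a08079a) (nat_lit 0) (p (nat_lit 0x8088987871a) (nat_lit 0) (p (nat_lit 0x80000800078907088a) (nat_lit 0) (p (nat_lit 0x80000800070886860a) (nat_lit 0) (p (nat_lit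 0x8708060782) (nat_lit 0) (p (nat_lit 0x687858702) (nat_lit 0) (p (nat_lit 0x8607050482) (nat_lit 0) (p (nat_lit 0x586848402) (nat_lit 0) (p (nat_lit 0x160014) (nat_lit 0) (p (nat_lit 0x50612) (nat_lit 0) (p (nat_lit 0x40592) (nat_lit 0) (p (nat_lit 0x40492) (nat_lit 0) (p (nat_lit 0x30412) (nat_lit 0) (p (nat_lit 0x30212) (nat_lit 0) (p (nat_lit 0x20192) (nat_lit 0) (p (nat_lit 0x20092) (nat_lit 0) (p (nat_lit 0x10012) (nat_lit 0) pn)))))))))))))))))))))))))))) :=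
  Cl.node (nat_lit 0xb0014) (nat_lit 2) (by decide +kernel) (ClAll.succ (ClAll.succ ClAll.zero n191) n192)

def n235 : Cl (O (nat_lit 3)) (R (nat_lit 102673))
    (p (nat_lit 0x20000c) (nat_lit 0) (p (nat_lit 0x200004) (nat_lit 0) (p (nat_lit 0x119) (nat_lit 1) (p (nat_lit 0x111) (nat_lit 0) (p (nat_lit 0x101) (nat_lit 0) (p (nat_lit 0x109) (nat_lit 0) (p (nat_lit 0xc9) (nat_lit 1) (p (nat_lit 0x89) (nat_lit 1) (p (nat_lit 0x41) (nat_lit 0) (p (nat_lit 0x898a0b090a9a) (nat_lit 0) (p (nat_lit 0x9098a888a1a) (nat_lit 0) (p (nat_lit 0x88890a08079a) (nat_lit 0) (p (nat_lit 0x8088987871a) (nat_lit 0) (p (nat_lit 0x80000800078907088a) (nat_lit 0) (p (nat_lit 0x80000800070886860a) (nat_lit 0) (p (nat_lit 0x8708060782) (nat_lit 0) (p (nat_lit 0x687858702) (nat_lit 0) (p (nat_lit 0x8607050482) (nat_lit 0) (p (nat_lit 0x586848402) (nat_lit 0) (p (nat_lit 0x160014) (nat_lit 0) (p (nat_lit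 0x50612) (nat_lit 0) (p (nat_lit 0x40592) (nat_lit 0) (p (nat_lit 0x40492) (nat_lit 0) (p (nat_lit 0x30412) (nat_lit 0) (p (nat_lit 0x30212) (nat_lit 0) (p (nat_lit 0x20192) (nat_lit 0) (p (nat_lit 0x20092) (nat_lit 0) (p (nat_lit 0x10012) (nat_lit 0) pn)))))))))))))))))))))))))))) :=
  Cl.node (nat_lit 0xb0014) (nat_lit 2) (by decide +kernel) (ClAll.succ (ClAll.succ ClAll.zero s182) s183)

def n236 : Cl (O (nat_lit 3)) (R (nat_lit 102673))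
    (p (nat_lit 0x20000c) (nat_lit 0) (p (nat_lit 0x200004) (nat_lit 0) (p (nat_lit 0x89) (nat_lit 0) (p (nat_lit 0x109) (nat_lit 1) (p (nat_lit 0x101) (nat_lit 0) (p (nat_lit 0x119) (nat_lit 0) (p (nat_lit 0xd1) (nat_lit 0) (p (nat_lit 0x81) (nat_lit 0) (p (nat_lit 0x41) (nat_lit 1) (p (nat_lit 0x898a0b090a9a) (nat_lit 0) (p (nat_lit 0x9098a888a1a) (nat_lit 0) (p (nat_lit 0x88890a08079a) (nat_lit 0) (p (nat_lit 0x8088987871a) (nat_lit 0) (p (nat_lit 0x80000800078907088a) (nat_lit 0) (p (nat_lit 0x80000800070886860a) (nat_lit 0) (p (nat_lit 0x8708060782) (nat_lit 0) (p (nat_lit 0x687858702) (nat_lit 0) (p (nat_lit 0x8607050482) (nat_lit 0) (p (nat_lit 0x586848402) (nat_lit 0) (p (nat_lit 0x160014) (nat_lit 0) (p (nat_lit 0x50612) (nat_lit 0) (p (nat_lit 0x40592) (nat_lit 0) (p (nat_lit 0x40492) (nat_lit 0) (p (nat_lit 0x30412) (nat_lit 0) (p (nat_lit 0x30212) (nat_lit 0)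 (p (nat_lit 0x20192) (nat_lit 0) (p (nat_lit 0x20092) (nat_lit 0) (p (nat_lit 0x10012) (nat_lit 0) pn)))))))))))))))))))))))))))) :=
  Cl.node (nat_lit 0x111) (nat_lit 2) (by decide +kernel) (ClAll.succ (ClAll.succ ClAll.zero s191) s192)

def n237 : Cl (O (nat_lit 3)) (R (nat_lit 102673))
    (p (nat_lit 0x200004) (nat_lit 0) (p (nat_lit 0xc9) (nat_lit 0) (p (nat_lit 0x89) (nat_lit 1) (p (nat_lit 0x109) (nat_lit 1) (p (nat_lit 0x101) (nat_lit 0) (p (nat_lit 0x119) (nat_lit 0) (p (nat_lit 0xd1) (nat_lit 0) (p (nat_lit 0x81) (nat_lit 0) (p (nat_lit 0x41) (nat_lit 1) (p (nat_lit 0x898a0b090a9a) (nat_lit 0) (p (nat_lit 0x9098a888a1a) (nat_lit 0) (p (nat_lit 0x88890a08079a) (nat_lit 0) (p (nat_lit 0x8088987871a) (nat_lit 0) (p (nat_lit 0x80000800078907088a) (nat_lit 0) (p (nat_lit 0x80000800070886860a) (nat_lit 0) (p (nat_lit 0x8708060782) (nat_lit 0) (p (nat_lit 0x687858702)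 (nat_lit 0) (p (nat_lit 0x8607050482) (nat_lit 0) (p (nat_lit 0x586848402) (nat_lit 0) (p (nat_lit 0x160014) (nat_lit 0) (p (nat_lit 0x50612) (nat_lit 0) (p (nat_lit 0x40592) (nat_lit 0) (p (nat_lit 0x40492) (nat_lit 0) (p (nat_lit 0x30412) (nat_lit 0) (p (nat_lit 0x30212) (nat_lit 0) (p (nat_lit 0x20192) (nat_lit 0) (p (nat_lit 0x20092) (nat_lit 0) (p (nat_lit 0x10012) (nat_lit 0) pn)))))))))))))))))))))))))))) :=
  Cl.node (nat_lit 0x20000c) (nat_lit 2) (by decide +kernel) (ClAll.succ (ClAll.succ ClAll.zero s195) s196)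

def n238 : Cl (O (nat_lit 3)) (R (nat_lit 102673))
    (p (nat_lit 0x200004) (nat_lit 0) (p (nat_lit 0xc9) (nat_lit 0) (p (nat_lit 0x89) (nat_lit 1) (p (nat_lit 0xc1) (nat_lit 0) (p (nat_lit 0x101) (nat_lit 1) (p (nat_lit 0x119) (nat_lit 0) (p (nat_lit 0xd1) (nat_lit 0) (p (nat_lit 0x81) (nat_lit 0) (p (nat_lit 0x41) (nat_lit 1) (p (nat_lit 0x898a0b090a9a) (nat_lit 0) (p (nat_lit 0x9098a888a1a) (nat_lit 0) (p (nat_lit 0x88890a08079a) (nat_lit 0) (p (nat_lit 0x8088987871a) (nat_lit 0) (p (nat_lit 0x80000800078907088a) (nat_lit 0) (p (nat_lit 0x80000800070886860a) (nat_lit 0) (p (nat_lit 0x8708060782) (nat_lit 0) (p (nat_lit 0x687858702) (nat_lit 0) (p (nat_lit 0x8607050482) (nat_lit 0) (p (nat_lit 0x586848402) (nat_lit 0) (p (nat_lit 0x160014) (nat_lit 0) (p (nat_lit 0x50612) (nat_lit 0) (p (nat_lit 0x40592) (nat_lit 0) (p (nat_lit 0x40492) (nat_lit 0) (p (nat_lit 0x30412)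 (nat_lit 0) (p (nat_lit 0x30212) (nat_lit 0) (p (nat_lit 0x20192) (nat_lit 0) (p (nat_lit 0x20092) (nat_lit 0) (p (nat_lit 0x10012) (nat_lit 0) pn)))))))))))))))))))))))))))) :=
  Cl.node (nat_lit 0x20000c) (nat_lit 2) (by decide +kernel) (ClAll.succ (ClAll.succ ClAll.zero s202) s203)

def n239 : Cl (O (nat_lit 3)) (R (nat_lit 102673))
    (p (nat_lit 0x200004) (nat_lit 0) (p (nat_lit 0xc9) (nat_lit 1) (p (nat_lit 0x89) (nat_lit 1) (p (nat_lit 0xc1) (nat_lit 0) (p (nat_lit 0x101) (nat_lit 1) (p (nat_lit 0x119) (nat_lit 0) (p (nat_lit 0xd1) (nat_lit 0) (p (nat_lit 0x81) (nat_lit 0) (p (nat_lit 0x41) (nat_lit 1) (p (nat_lit 0x898a0b090a9a) (nat_lit 0) (p (nat_lit 0x9098a888a1a) (nat_lit 0) (p (nat_lit 0x88890a08079a) (nat_lit 0) (p (nat_lit 0x8088987871a) (nat_lit 0) (p (nat_lit 0x80000800078907088a) (nat_lit 0) (p (nat_lit 0x80000800070886860a) (nat_lit 0) (p (nat_lit 0x8708060782)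 (nat_lit 0) (p (nat_lit 0x687858702) (nat_lit 0) (p (nat_lit 0x8607050482) (nat_lit 0) (p (nat_lit 0x586848402) (nat_lit 0) (p (nat_lit 0x160014) (nat_lit 0) (p (nat_lit 0x50612) (nat_lit 0) (p (nat_lit 0x40592) (nat_lit 0) (p (nat_lit 0x40492) (nat_lit 0) (p (nat_lit 0x30412) (nat_lit 0) (p (nat_lit 0x30212) (nat_lit 0) (p (nat_lit 0x20192) (nat_lit 0) (p (nat_lit 0x20092) (nat_lit 0) (p (nat_lit 0x10012) (nat_lit 0) pn)))))))))))))))))))))))))))) :=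
  Cl.node (nat_lit 0x20000c) (nat_lit 2) (by decide +kernel) (ClAll.succ (ClAll.succ ClAll.zero n193) s208)

def n240 : Cl (O (nat_lit 3)) (R (nat_lit 102673))
    (p (nat_lit 0x20000c) (nat_lit 0) (p (nat_lit 0x200004) (nat_lit 0) (p (nat_lit 0x89) (nat_lit 0) (p (nat_lit 0xc1) (nat_lit 1) (p (nat_lit 0x101) (nat_lit 1) (p (nat_lit 0x119) (nat_lit 0) (p (nat_lit 0xd1) (nat_lit 0) (p (nat_lit 0x81) (nat_lit 0) (p (nat_lit 0x41) (nat_lit 1) (p (nat_lit 0x898a0b090a9a) (nat_lit 0) (p (nat_lit 0x9098a888a1a) (nat_lit 0) (p (nat_lit 0x88890a08079a) (nat_lit 0) (p (nat_lit 0x8088987871a) (nat_lit 0) (p (nat_lit 0x80000800078907088a) (nat_lit 0) (p (nat_lit 0x80000800070886860a) (nat_lit 0) (p (nat_lit 0x8708060782) (nat_lit 0) (p (nat_lit 0x687858702) (nat_lit 0) (p (nat_lit 0x8607050482) (nat_lit 0) (p (nat_lit 0x586848402) (nat_lit 0) (p (nat_lit 0x160014) (nat_lit 0) (p (nat_lit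 0x50612) (nat_lit 0) (p (nat_lit 0x40592) (nat_lit 0) (p (nat_lit 0x40492) (nat_lit 0) (p (nat_lit 0x30412) (nat_lit 0) (p (nat_lit 0x30212) (nat_lit 0) (p (nat_lit 0x20192) (nat_lit 0) (p (nat_lit 0x20092) (nat_lit 0) (p (nat_lit 0x10012) (nat_lit 0) pn)))))))))))))))))))))))))))) :=
  Cl.node (nat_lit 0xb0014) (nat_lit 2) (by decide +kernel) (ClAll.succ (ClAll.succ ClAll.zero n194) s212)

def n241 : Cl (O (nat_lit 3)) (R (nat_lit 102673))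
    (p (nat_lit 0x20000c) (nat_lit 0) (p (nat_lit 0x200004) (nat_lit 0) (p (nat_lit 0x89) (nat_lit 1) (p (nat_lit 0xc1) (nat_lit 1) (p (nat_lit 0x101) (nat_lit 1) (p (nat_lit 0x119) (nat_lit 0) (p (nat_lit 0xd1) (nat_lit 0) (p (nat_lit 0x81) (nat_lit 0) (p (nat_lit 0x41) (nat_lit 1) (p (nat_lit 0x898a0b090a9a) (nat_lit 0) (p (nat_lit 0x9098a888a1a) (nat_lit 0) (p (nat_lit 0x88890a08079a) (nat_lit 0) (p (nat_lit 0x8088987871a) (nat_lit 0) (p (nat_lit 0x80000800078907088a) (nat_lit 0) (p (nat_lit 0x80000800070886860a) (nat_lit 0) (p (nat_lit 0x8708060782) (nat_lit 0) (p (nat_lit 0x687858702) (nat_lit 0) (p (nat_lit 0x8607050482) (nat_lit 0) (p (nat_lit 0x586848402) (nat_lit 0) (p (nat_lit 0x160014) (nat_lit 0) (p (nat_lit 0x50612) (nat_lit 0) (p (nat_lit 0x40592) (nat_lit 0) (p (nat_lit 0x40492) (nat_lit 0) (p (nat_lit 0x30412) (nat_lit 0) (p (nat_lit 0x30212) (nat_lit 0) (p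 (nat_lit 0x20192) (nat_lit 0) (p (nat_lit 0x20092) (nat_lit 0) (p (nat_lit 0x10012) (nat_lit 0) pn)))))))))))))))))))))))))))) :=
  Cl.node (nat_lit 0xb0014) (nat_lit 2) (by decide +kernel) (ClAll.succ (ClAll.succ ClAll.zero n195) n196)

def n242 : Cl (O (nat_lit 3)) (R (nat_lit 102673))
    (p (nat_lit 0xb0014) (nat_lit 0) (p (nat_lit 0x200004) (nat_lit 1) (p (nat_lit 0x89) (nat_lit 1) (p (nat_lit 0xc1) (nat_lit 1) (p (nat_lit 0x101) (nat_lit 1) (p (nat_lit 0x119) (nat_lit 0) (p (nat_lit 0xd1) (nat_lit 0) (p (nat_lit 0x81) (nat_lit 0) (p (nat_lit 0x41) (nat_lit 1) (p (nat_lit 0x898a0b090a9a) (nat_lit 0) (p (nat_lit 0x9098a888a1a) (nat_lit 0) (p (nat_lit 0x88890a08079a) (nat_lit 0) (p (nat_lit 0x8088987871a) (nat_lit 0) (p (nat_lit 0x80000800078907088a) (nat_lit 0) (p (nat_lit 0x80000800070886860a) (nat_lit 0) (p (nat_lit 0x8708060782) (nat_lit 0) (p (nat_lit 0x687858702)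 (nat_lit 0) (p (nat_lit 0x8607050482) (nat_lit 0) (p (nat_lit 0x586848402) (nat_lit 0) (p (nat_lit 0x160014) (nat_lit 0) (p (nat_lit 0x50612) (nat_lit 0) (p (nat_lit 0x40592) (nat_lit 0) (p (nat_lit 0x40492) (nat_lit 0) (p (nat_lit 0x30412) (nat_lit 0) (p (nat_lit 0x30212) (nat_lit 0) (p (nat_lit 0x20192) (nat_lit 0) (p (nat_lit 0x20092) (nat_lit 0) (p (nat_lit 0x10012) (nat_lit 0) pn)))))))))))))))))))))))))))) :=
  Cl.node (nat_lit 0x20000c) (nat_lit 2) (by decide +kernel) (ClAll.succ (ClAll.succ ClAll.zero n197) s234)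

def n243 : Cl (O (nat_lit 3)) (R (nat_lit 102673))
    (p (nat_lit 0x200004) (nat_lit 0) (p (nat_lit 0x109) (nat_lit 0) (p (nat_lit 0x89) (nat_lit 1) (p (nat_lit 0xc9) (nat_lit 1) (p (nat_lit 0xc1) (nat_lit 0) (p (nat_lit 0x119) (nat_lit 1) (p (nat_lit 0xd1) (nat_lit 0) (p (nat_lit 0x81) (nat_lit 0) (p (nat_lit 0x41) (nat_lit 1) (p (nat_lit 0x898a0b090a9a) (nat_lit 0) (p (nat_lit 0x9098a888a1a) (nat_lit 0) (p (nat_lit 0x88890a08079a) (nat_lit 0) (p (nat_lit 0x8088987871a) (nat_lit 0) (p (nat_lit 0x80000800078907088a) (nat_lit 0) (p (nat_lit 0x80000800070886860a) (nat_lit 0) (p (nat_lit 0x8708060782) (nat_lit 0) (p (nat_lit 0x687858702) (nat_lit 0) (p (nat_lit 0x8607050482) (nat_lit 0) (p (nat_lit 0x586848402) (nat_lit 0) (p (nat_lit 0x160014) (nat_lit 0) (p (nat_lit 0x50612) (nat_lit 0) (p (nat_lit 0x40592) (nat_lit 0) (p (nat_lit 0x40492) (nat_lit 0) (p (nat_lit 0x30412)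 (nat_lit 0) (p (nat_lit 0x30212) (nat_lit 0) (p (nat_lit 0x20192) (nat_lit 0) (p (nat_lit 0x20092) (nat_lit 0) (p (nat_lit 0x10012) (nat_lit 0) pn)))))))))))))))))))))))))))) :=
  Cl.node (nat_lit 0x20000c) (nat_lit 2) (by decide +kernel) (ClAll.succ (ClAll.succ ClAll.zero n198) s240)

def n244 : Cl (O (nat_lit 3)) (R (nat_lit 102673))
    (p (nat_lit 0x200004) (nat_lit 0) (p (nat_lit 0x109) (nat_lit 1) (p (nat_lit 0x89) (nat_lit 1) (p (nat_lit 0x101) (nat_lit 0) (p (nat_lit 0xc1) (nat_lit 1) (p (nat_lit 0x119) (nat_lit 1) (p (nat_lit 0xd1) (nat_lit 0) (p (nat_lit 0x81) (nat_lit 0) (p (nat_lit 0x41) (nat_lit 1) (p (nat_lit 0x898a0b090a9a) (nat_lit 0) (p (nat_lit 0x9098a888a1a) (nat_lit 0) (p (nat_lit 0x88890a08079a) (nat_lit 0) (p (nat_lit 0x8088987871a) (nat_lit 0) (p (nat_lit 0x80000800078907088a) (nat_lit 0) (p (nat_lit 0x80000800070886860a) (nat_lit 0) (p (nat_lit 0x8708060782)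 (nat_lit 0) (p (nat_lit 0x687858702) (nat_lit 0) (p (nat_lit 0x8607050482) (nat_lit 0) (p (nat_lit 0x586848402) (nat_lit 0) (p (nat_lit 0x160014) (nat_lit 0) (p (nat_lit 0x50612) (nat_lit 0) (p (nat_lit 0x40592) (nat_lit 0) (p (nat_lit 0x40492) (nat_lit 0) (p (nat_lit 0x30412) (nat_lit 0) (p (nat_lit 0x30212) (nat_lit 0) (p (nat_lit 0x20192) (nat_lit 0) (p (nat_lit 0x20092) (nat_lit 0) (p (nat_lit 0x10012) (nat_lit 0) pn)))))))))))))))))))))))))))) :=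
  Cl.node (nat_lit 0x20000c) (nat_lit 2) (by decide +kernel) (ClAll.succ (ClAll.succ ClAll.zero n199) s248)

def n245 : Cl (O (nat_lit 3)) (R (nat_lit 102673))
    (p (nat_lit 0x20000c) (nat_lit 0) (p (nat_lit 0x200004) (nat_lit 0) (p (nat_lit 0x89) (nat_lit 1) (p (nat_lit 0x101) (nat_lit 1) (p (nat_lit 0xc1) (nat_lit 1) (p (nat_lit 0x119) (nat_lit 1) (p (nat_lit 0xd1) (nat_lit 0) (p (nat_lit 0x81) (nat_lit 0) (p (nat_lit 0x41) (nat_lit 1) (p (nat_lit 0x898a0b090a9a) (nat_lit 0) (p (nat_lit 0x9098a888a1a) (nat_lit 0) (p (nat_lit 0x88890a08079a) (nat_lit 0) (p (nat_lit 0x8088987871a) (nat_lit 0) (p (nat_lit 0x80000800078907088a) (nat_lit 0) (p (nat_lit 0x80000800070886860a) (nat_lit 0) (p (nat_lit 0x8708060782) (nat_lit 0) (p (nat_lit 0x687858702) (nat_lit 0) (p (nat_lit 0x8607050482) (nat_lit 0) (p (nat_lit 0x586848402) (nat_lit 0) (p (nat_lit 0x160014) (nat_lit 0) (p (nat_lit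 0x50612) (nat_lit 0) (p (nat_lit 0x40592) (nat_lit 0) (p (nat_lit 0x40492) (nat_lit 0) (p (nat_lit 0x30412) (nat_lit 0) (p (nat_lit 0x30212) (nat_lit 0) (p (nat_lit 0x20192) (nat_lit 0) (p (nat_lit 0x20092) (nat_lit 0) (p (nat_lit 0x10012) (nat_lit 0) pn)))))))))))))))))))))))))))) :=
  Cl.node (nat_lit 0xb0014) (nat_lit 2) (by decide +kernel) (ClAll.succ (ClAll.succ ClAll.zero n200) n201)

def n246 : Cl (O (nat_lit 3)) (R (nat_lit 102673))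
    (p (nat_lit 0xb0014) (nat_lit 0) (p (nat_lit 0x200004) (nat_lit 1) (p (nat_lit 0x89) (nat_lit 1) (p (nat_lit 0x101) (nat_lit 1) (p (nat_lit 0xc1) (nat_lit 1) (p (nat_lit 0x119) (nat_lit 1) (p (nat_lit 0xd1) (nat_lit 0) (p (nat_lit 0x81) (nat_lit 0) (p (nat_lit 0x41) (nat_lit 1) (p (nat_lit 0x898a0b090a9a) (nat_lit 0) (p (nat_lit 0x9098a888a1a) (nat_lit 0) (p (nat_lit 0x88890a08079a) (nat_lit 0) (p (nat_lit 0x8088987871a) (nat_lit 0) (p (nat_lit 0x80000800078907088a) (nat_lit 0) (p (nat_lit 0x80000800070886860a) (nat_lit 0) (p (nat_lit 0x8708060782) (nat_lit 0) (p (nat_lit 0x687858702) (nat_lit 0) (p (nat_lit 0x8607050482) (nat_lit 0) (p (nat_lit 0x586848402) (nat_lit 0) (p (nat_lit 0x160014) (nat_lit 0) (p (nat_lit 0x50612) (nat_lit 0) (p (nat_lit 0x40592) (nat_lit 0) (p (nat_lit 0x40492) (nat_lit 0) (p (nat_lit 0x30412) (nat_lit 0) (p (nat_lit 0x30212) (nat_lit 0) (p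 (nat_lit 0x20192) (nat_lit 0) (p (nat_lit 0x20092) (nat_lit 0) (p (nat_lit 0x10012) (nat_lit 0) pn)))))))))))))))))))))))))))) :=
  Cl.node (nat_lit 0x20000c) (nat_lit 2) (by decide +kernel) (ClAll.succ (ClAll.succ ClAll.zero s258) s259)

def n247 : Cl (O (nat_lit 3)) (R (nat_lit 102673))
    (p (nat_lit 0x200004) (nat_lit 0) (p (nat_lit 0xc9) (nat_lit 0) (p (nat_lit 0x89) (nat_lit 1) (p (nat_lit 0x109) (nat_lit 1) (p (nat_lit 0x101) (nat_lit 0) (p (nat_lit 0x111) (nat_lit 0) (p (nat_lit 0xd1) (nat_lit 1) (p (nat_lit 0x81) (nat_lit 0) (p (nat_lit 0x41) (nat_lit 1) (p (nat_lit 0x898a0b090a9a) (nat_lit 0) (p (nat_lit 0x9098a888a1a) (nat_lit 0) (p (nat_lit 0x88890a08079a) (nat_lit 0) (p (nat_lit 0x8088987871a) (nat_lit 0) (p (nat_lit 0x80000800078907088a) (nat_lit 0) (p (nat_lit 0x80000800070886860a) (nat_lit 0) (p (nat_lit 0x8708060782) (nat_lit 0) (p (nat_lit 0x687858702)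 (nat_lit 0) (p (nat_lit 0x8607050482) (nat_lit 0) (p (nat_lit 0x586848402) (nat_lit 0) (p (nat_lit 0x160014) (nat_lit 0) (p (nat_lit 0x50612) (nat_lit 0) (p (nat_lit 0x40592) (nat_lit 0) (p (nat_lit 0x40492) (nat_lit 0) (p (nat_lit 0x30412) (nat_lit 0) (p (nat_lit 0x30212) (nat_lit 0) (p (nat_lit 0x20192) (nat_lit 0) (p (nat_lit 0x20092) (nat_lit 0) (p (nat_lit 0x10012) (nat_lit 0) pn)))))))))))))))))))))))))))) :=
  Cl.node (nat_lit 0x20000c) (nat_lit 2) (by decide +kernel) (ClAll.succ (ClAll.succ ClAll.zero n202) n203)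

def n248 : Cl (O (nat_lit 3)) (R (nat_lit 102673))
    (p (nat_lit 0xb0014) (nat_lit 0) (p (nat_lit 0x20000c) (nat_lit 0) (p (nat_lit 0x200004) (nat_lit 0) (p (nat_lit 0x89) (nat_lit 0) (p (nat_lit 0x101) (nat_lit 1) (p (nat_lit 0x111) (nat_lit 0) (p (nat_lit 0xd1) (nat_lit 1) (p (nat_lit 0x81) (nat_lit 0) (p (nat_lit 0x41) (nat_lit 1) (p (nat_lit 0x898a0b090a9a) (nat_lit 0) (p (nat_lit 0x9098a888a1a) (nat_lit 0) (p (nat_lit 0x88890a08079a) (nat_lit 0) (p (nat_lit 0x8088987871a) (nat_lit 0) (p (nat_lit 0x80000800078907088a) (nat_lit 0) (p (nat_lit 0x80000800070886860a) (nat_lit 0) (p (nat_lit 0x8708060782) (nat_lit 0) (p (nat_lit 0x687858702) (nat_lit 0) (p (nat_lit 0x8607050482) (nat_lit 0) (p (nat_lit 0x586848402) (nat_lit 0) (p (nat_lit 0x160014) (nat_lit 0) (p (nat_lit 0x50612) (nat_lit 0) (p (nat_lit 0x40592) (nat_lit 0) (p (nat_lit 0x40492) (nat_lit 0) (p (nat_lit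 0x30412) (nat_lit 0) (p (nat_lit 0x30212) (nat_lit 0) (p (nat_lit 0x20192) (nat_lit 0) (p (nat_lit 0x20092) (nat_lit 0) (p (nat_lit 0x10012) (nat_lit 0) pn)))))))))))))))))))))))))))) :=
  Cl.node (nat_lit 0x119) (nat_lit 2) (by decide +kernel) (ClAll.succ (ClAll.succ ClAll.zero n204) s285)

def n249 : Cl (O (nat_lit 3)) (R (nat_lit 102673))
    (p (nat_lit 0xb0014) (nat_lit 1) (p (nat_lit 0x20000c) (nat_lit 0) (p (nat_lit 0x200004) (nat_lit 0) (p (nat_lit 0x89) (nat_lit 0) (p (nat_lit 0x101) (nat_lit 1) (p (nat_lit 0x111) (nat_lit 0) (p (nat_lit 0xd1) (nat_lit 1) (p (nat_lit 0x81) (nat_lit 0) (p (nat_lit 0x41) (nat_lit 1) (p (nat_lit 0x898a0b090a9a) (nat_lit 0) (p (nat_lit 0x9098a888a1a) (nat_lit 0) (p (nat_lit 0x88890a08079a) (nat_lit 0) (p (nat_lit 0x8088987871a) (nat_lit 0) (p (nat_lit 0x80000800078907088a) (nat_lit 0) (p (nat_lit 0x80000800070886860a) (nat_lit 0) (p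 (nat_lit 0x8708060782) (nat_lit 0) (p (nat_lit 0x687858702) (nat_lit 0) (p (nat_lit 0x8607050482) (nat_lit 0) (p (nat_lit 0x586848402) (nat_lit 0) (p (nat_lit 0x160014) (nat_lit 0) (p (nat_lit 0x50612) (nat_lit 0) (p (nat_lit 0x40592) (nat_lit 0) (p (nat_lit 0x40492) (nat_lit 0) (p (nat_lit 0x30412) (nat_lit 0) (p (nat_lit 0x30212) (nat_lit 0) (p (nat_lit 0x20192) (nat_lit 0) (p (nat_lit 0x20092) (nat_lit 0) (p (nat_lit 0x10012) (nat_lit 0) pn)))))))))))))))))))))))))))) :=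
  Cl.node (nat_lit 0x2a825aa8258a0b89890a) (nat_lit 1) (by decide +kernel) (ClAll.succ ClAll.zero n205)

def n250 : Cl (O (nat_lit 3)) (R (nat_lit 102673))
    (p (nat_lit 0x20000c) (nat_lit 0) (p (nat_lit 0x200004) (nat_lit 0) (p (nat_lit 0xc9) (nat_lit 0) (p (nat_lit 0x89) (nat_lit 1) (p (nat_lit 0x101) (nat_lit 1) (p (nat_lit 0x111) (nat_lit 0) (p (nat_lit 0xd1) (nat_lit 1) (p (nat_lit 0x81) (nat_lit 0) (p (nat_lit 0x41) (nat_lit 1) (p (nat_lit 0x898a0b090a9a) (nat_lit 0) (p (nat_lit 0x9098a888a1a) (nat_lit 0) (p (nat_lit 0x88890a08079a) (nat_lit 0) (p (nat_lit 0x8088987871a) (nat_lit 0) (p (nat_lit 0x80000800078907088a) (nat_lit 0) (p (nat_lit 0x80000800070886860a) (nat_lit 0) (p (nat_lit 0x8708060782) (nat_lit 0) (p (nat_lit 0x687858702) (nat_lit 0) (p (nat_lit 0x8607050482) (nat_lit 0) (p (nat_lit 0x586848402) (nat_lit 0) (p (nat_lit 0x160014) (nat_lit 0) (p (nat_lit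 0x50612) (nat_lit 0) (p (nat_lit 0x40592) (nat_lit 0) (p (nat_lit 0x40492) (nat_lit 0) (p (nat_lit 0x30412) (nat_lit 0) (p (nat_lit 0x30212) (nat_lit 0) (p (nat_lit 0x20192) (nat_lit 0) (p (nat_lit 0x20092) (nat_lit 0) (p (nat_lit 0x10012) (nat_lit 0) pn)))))))))))))))))))))))))))) :=
  Cl.node (nat_lit 0xb0014) (nat_lit 2) (by decide +kernel) (ClAll.succ (ClAll.succ ClAll.zero n206) n207)

def n251 : Cl (O (nat_lit 3)) (R (nat_lit 102673))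
    (p (nat_lit 0xb0014) (nat_lit 0) (p (nat_lit 0x200004) (nat_lit 1) (p (nat_lit 0xc9) (nat_lit 0) (p (nat_lit 0x89) (nat_lit 1) (p (nat_lit 0x101) (nat_lit 1) (p (nat_lit 0x111) (nat_lit 0) (p (nat_lit 0xd1) (nat_lit 1) (p (nat_lit 0x81) (nat_lit 0) (p (nat_lit 0x41) (nat_lit 1) (p (nat_lit 0x898a0b090a9a) (nat_lit 0) (p (nat_lit 0x9098a888a1a) (nat_lit 0) (p (nat_lit 0x88890a08079a) (nat_lit 0) (p (nat_lit 0x8088987871a) (nat_lit 0) (p (nat_lit 0x80000800078907088a) (nat_lit 0) (p (nat_lit 0x80000800070886860a) (nat_lit 0) (p (nat_lit 0x8708060782) (nat_lit 0) (p (nat_lit 0x687858702) (nat_lit 0) (p (nat_lit 0x8607050482) (nat_lit 0) (p (nat_lit 0x586848402) (nat_lit 0) (p (nat_lit 0x160014) (nat_lit 0) (p (nat_lit 0x50612) (nat_lit 0) (p (nat_lit 0x40592) (nat_lit 0) (p (nat_lit 0x40492) (nat_lit 0) (p (nat_lit 0x30412) (nat_lit 0) (p (nat_lit 0x30212) (nat_lit 0) (p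 (nat_lit 0x20192) (nat_lit 0) (p (nat_lit 0x20092) (nat_lit 0) (p (nat_lit 0x10012) (nat_lit 0) pn)))))))))))))))))))))))))))) :=
  Cl.node (nat_lit 0x20000c) (nat_lit 2) (by decide +kernel) (ClAll.succ (ClAll.succ ClAll.zero n208) s311)

def n252 : Cl (O (nat_lit 3)) (R (nat_lit 102673))
    (p (nat_lit 0x20000c) (nat_lit 0) (p (nat_lit 0x200004) (nat_lit 0) (p (nat_lit 0x109) (nat_lit 0) (p (nat_lit 0xc9) (nat_lit 1) (p (nat_lit 0x89) (nat_lit 1) (p (nat_lit 0x111) (nat_lit 1) (p (nat_lit 0xd1) (nat_lit 1) (p (nat_lit 0x81) (nat_lit 0) (p (nat_lit 0x41) (nat_lit 1) (p (nat_lit 0x898a0b090a9a) (nat_lit 0) (p (nat_lit 0x9098a888a1a) (nat_lit 0) (p (nat_lit 0x88890a08079a) (nat_lit 0) (p (nat_lit 0x8088987871a) (nat_lit 0) (p (nat_lit 0x80000800078907088a) (nat_lit 0) (p (nat_lit 0x80000800070886860a) (nat_lit 0) (p (nat_lit 0x8708060782) (nat_lit 0) (p (nat_lit 0x687858702)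 (nat_lit 0) (p (nat_lit 0x8607050482) (nat_lit 0) (p (nat_lit 0x586848402) (nat_lit 0) (p (nat_lit 0x160014) (nat_lit 0) (p (nat_lit 0x50612) (nat_lit 0) (p (nat_lit 0x40592) (nat_lit 0) (p (nat_lit 0x40492) (nat_lit 0) (p (nat_lit 0x30412) (nat_lit 0) (p (nat_lit 0x30212) (nat_lit 0) (p (nat_lit 0x20192) (nat_lit 0) (p (nat_lit 0x20092) (nat_lit 0) (p (nat_lit 0x10012) (nat_lit 0) pn)))))))))))))))))))))))))))) :=
  Cl.node (nat_lit 0xb0014) (nat_lit 2) (by decide +kernel) (ClAll.succ (ClAll.succ ClAll.zero n209) s320)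

def n253 : Cl (O (nat_lit 3)) (R (nat_lit 102673))
    (p (nat_lit 0x200004) (nat_lit 0) (p (nat_lit 0xd1) (nat_lit 1) (p (nat_lit 0x111) (nat_lit 1) (p (nat_lit 0x109) (nat_lit 0) (p (nat_lit 0x101) (nat_lit 0) (p (nat_lit 0x119) (nat_lit 0) (p (nat_lit 0xc1) (nat_lit 0) (p (nat_lit 0x81) (nat_lit 1) (p (nat_lit 0x41) (nat_lit 1) (p (nat_lit 0x898a0b090a9a) (nat_lit 0) (p (nat_lit 0x9098a888a1a) (nat_lit 0) (p (nat_lit 0x88890a08079a) (nat_lit 0) (p (nat_lit 0x8088987871a) (nat_lit 0) (p (nat_lit 0x80000800078907088a) (nat_lit 0) (p (nat_lit 0x80000800070886860a) (nat_lit 0) (p (nat_lit 0x8708060782) (nat_lit 0) (p (nat_lit 0x687858702) (nat_lit 0) (p (nat_lit 0x8607050482) (nat_lit 0) (p (nat_lit 0x586848402) (nat_lit 0) (p (nat_lit 0x160014) (nat_lit 0) (p (nat_lit 0x50612) (nat_lit 0) (p (nat_lit 0x40592) (nat_lit 0) (p (nat_lit 0x40492) (nat_lit 0) (p (nat_lit 0x30412)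 (nat_lit 0) (p (nat_lit 0x30212) (nat_lit 0) (p (nat_lit 0x20192) (nat_lit 0) (p (nat_lit 0x20092) (nat_lit 0) (p (nat_lit 0x10012) (nat_lit 0) pn)))))))))))))))))))))))))))) :=
  Cl.node (nat_lit 0x20000c) (nat_lit 2) (by decide +kernel) (ClAll.succ (ClAll.succ ClAll.zero n210) s329)

def n254 : Cl (O (nat_lit 3)) (R (nat_lit 102673))
    (p (nat_lit 0x200004) (nat_lit 0) (p (nat_lit 0xd1) (nat_lit 1) (p (nat_lit 0xc9) (nat_lit 0) (p (nat_lit 0x109) (nat_lit 1) (p (nat_lit 0x101) (nat_lit 0) (p (nat_lit 0x119) (nat_lit 0) (p (nat_lit 0xc1) (nat_lit 0) (p (nat_lit 0x81) (nat_lit 1) (p (nat_lit 0x41) (nat_lit 1) (p (nat_lit 0x898a0b090a9a) (nat_lit 0) (p (nat_lit 0x9098a888a1a) (nat_lit 0) (p (nat_lit 0x88890a08079a) (nat_lit 0) (p (nat_lit 0x8088987871a) (nat_lit 0) (p (nat_lit 0x80000800078907088a) (nat_lit 0) (p (nat_lit 0x80000800070886860a) (nat_lit 0) (p (nat_lit 0x8708060782)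 (nat_lit 0) (p (nat_lit 0x687858702) (nat_lit 0) (p (nat_lit 0x8607050482) (nat_lit 0) (p (nat_lit 0x586848402) (nat_lit 0) (p (nat_lit 0x160014) (nat_lit 0) (p (nat_lit 0x50612) (nat_lit 0) (p (nat_lit 0x40592) (nat_lit 0) (p (nat_lit 0x40492) (nat_lit 0) (p (nat_lit 0x30412) (nat_lit 0) (p (nat_lit 0x30212) (nat_lit 0) (p (nat_lit 0x20192) (nat_lit 0) (p (nat_lit 0x20092) (nat_lit 0) (p (nat_lit 0x10012) (nat_lit 0) pn)))))))))))))))))))))))))))) :=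
  Cl.node (nat_lit 0x20000c) (nat_lit 2) (by decide +kernel) (ClAll.succ (ClAll.succ ClAll.zero n211) s334)

def n255 : Cl (O (nat_lit 3)) (R (nat_lit 102673))
    (p (nat_lit 0x20000c) (nat_lit 0) (p (nat_lit 0x200004) (nat_lit 0) (p (nat_lit 0xd1) (nat_lit 0) (p (nat_lit 0xc9) (nat_lit 0) (p (nat_lit 0x101) (nat_lit 1) (p (nat_lit 0x119) (nat_lit 0) (p (nat_lit 0xc1) (nat_lit 0) (p (nat_lit 0x81) (nat_lit 1) (p (nat_lit 0x41) (nat_lit 1) (p (nat_lit 0x898a0b090a9a) (nat_lit 0) (p (nat_lit 0x9098a888a1a) (nat_lit 0) (p (nat_lit 0x88890a08079a) (nat_lit 0) (p (nat_lit 0x8088987871a) (nat_lit 0) (p (nat_lit 0x80000800078907088a) (nat_lit 0) (p (nat_lit 0x80000800070886860a) (nat_lit 0) (p (nat_lit 0x8708060782) (nat_lit 0) (p (nat_lit 0x687858702) (nat_lit 0) (p (nat_lit 0x8607050482) (nat_lit 0) (p (nat_lit 0x586848402) (nat_lit 0) (p (nat_lit 0x160014) (nat_lit 0) (p (nat_lit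 0x50612) (nat_lit 0) (p (nat_lit 0x40592) (nat_lit 0) (p (nat_lit 0x40492) (nat_lit 0) (p (nat_lit 0x30412) (nat_lit 0) (p (nat_lit 0x30212) (nat_lit 0) (p (nat_lit 0x20192) (nat_lit 0) (p (nat_lit 0x20092) (nat_lit 0) (p (nat_lit 0x10012) (nat_lit 0) pn)))))))))))))))))))))))))))) :=
  Cl.node (nat_lit 0xb0014) (nat_lit 2) (by decide +kernel) (ClAll.succ (ClAll.succ ClAll.zero s337) s338)

def n256 : Cl (O (nat_lit 3)) (R (nat_lit 102673))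
    (p (nat_lit 0x20000c) (nat_lit 0) (p (nat_lit 0x200004) (nat_lit 0) (p (nat_lit 0xd1) (nat_lit 1) (p (nat_lit 0xc9) (nat_lit 0) (p (nat_lit 0x101) (nat_lit 1) (p (nat_lit 0x119) (nat_lit 0) (p (nat_lit 0xc1) (nat_lit 0) (p (nat_lit 0x81) (nat_lit 1) (p (nat_lit 0x41) (nat_lit 1) (p (nat_lit 0x898a0b090a9a) (nat_lit 0) (p (nat_lit 0x9098a888a1a) (nat_lit 0) (p (nat_lit 0x88890a08079a) (nat_lit 0) (p (nat_lit 0x8088987871a) (nat_lit 0) (p (nat_lit 0x80000800078907088a) (nat_lit 0) (p (nat_lit 0x80000800070886860a) (nat_lit 0) (p (nat_lit 0x8708060782) (nat_lit 0) (p (nat_lit 0x687858702) (nat_lit 0) (p (nat_lit 0x8607050482) (nat_lit 0) (p (nat_lit 0x586848402) (nat_lit 0) (p (nat_lit 0x160014) (nat_lit 0) (p (nat_lit 0x50612) (nat_lit 0) (p (nat_lit 0x40592) (nat_lit 0) (p (nat_lit 0x40492) (nat_lit 0) (p (nat_lit 0x30412) (nat_lit 0) (p (nat_lit 0x30212) (nat_lit 0) (p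 (nat_lit 0x20192) (nat_lit 0) (p (nat_lit 0x20092) (nat_lit 0) (p (nat_lit 0x10012) (nat_lit 0) pn)))))))))))))))))))))))))))) :=
  Cl.node (nat_lit 0xb0014) (nat_lit 2) (by decide +kernel) (ClAll.succ (ClAll.succ ClAll.zero n212) s344)

def n257 : Cl (O (nat_lit 3)) (R (nat_lit 102673))
    (p (nat_lit 0x20000c) (nat_lit 0) (p (nat_lit 0x200004) (nat_lit 0) (p (nat_lit 0x111) (nat_lit 1) (p (nat_lit 0xd1) (nat_lit 1) (p (nat_lit 0xc9) (nat_lit 0) (p (nat_lit 0x119) (nat_lit 1) (p (nat_lit 0xc1) (nat_lit 0) (p (nat_lit 0x81) (nat_lit 1) (p (nat_lit 0x41) (nat_lit 1) (p (nat_lit 0x898a0b090a9a) (nat_lit 0) (p (nat_lit 0x9098a888a1a) (nat_lit 0) (p (nat_lit 0x88890a08079a) (nat_lit 0) (p (nat_lit 0x8088987871a) (nat_lit 0) (p (nat_lit 0x80000800078907088a) (nat_lit 0) (p (nat_lit 0x80000800070886860a) (nat_lit 0) (p (nat_lit 0x8708060782) (nat_lit 0) (p (nat_lit 0x687858702)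 (nat_lit 0) (p (nat_lit 0x8607050482) (nat_lit 0) (p (nat_lit 0x586848402) (nat_lit 0) (p (nat_lit 0x160014) (nat_lit 0) (p (nat_lit 0x50612) (nat_lit 0) (p (nat_lit 0x40592) (nat_lit 0) (p (nat_lit 0x40492) (nat_lit 0) (p (nat_lit 0x30412) (nat_lit 0) (p (nat_lit 0x30212) (nat_lit 0) (p (nat_lit 0x20192) (nat_lit 0) (p (nat_lit 0x20092) (nat_lit 0) (p (nat_lit 0x10012) (nat_lit 0) pn)))))))))))))))))))))))))))) :=
  Cl.node (nat_lit 0xb0014) (nat_lit 2) (by decide +kernel) (ClAll.succ (ClAll.succ ClAll.zero s351) s352)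

def n258 : Cl (O (nat_lit 3)) (R (nat_lit 102673))
    (p (nat_lit 0x20000c) (nat_lit 0) (p (nat_lit 0x200004) (nat_lit 0) (p (nat_lit 0x111) (nat_lit 0) (p (nat_lit 0x109) (nat_lit 0) (p (nat_lit 0xc9) (nat_lit 1) (p (nat_lit 0x119) (nat_lit 1) (p (nat_lit 0xc1) (nat_lit 0) (p (nat_lit 0x81) (nat_lit 1) (p (nat_lit 0x41) (nat_lit 1) (p (nat_lit 0x898a0b090a9a) (nat_lit 0) (p (nat_lit 0x9098a888a1a) (nat_lit 0) (p (nat_lit 0x88890a08079a) (nat_lit 0) (p (nat_lit 0x8088987871a) (nat_lit 0) (p (nat_lit 0x80000800078907088a) (nat_lit 0) (p (nat_lit 0x80000800070886860a) (nat_lit 0) (p (nat_lit 0x8708060782) (nat_lit 0) (p (nat_lit 0x687858702) (nat_lit 0) (p (nat_lit 0x8607050482) (nat_lit 0) (p (nat_lit 0x586848402) (nat_lit 0) (p (nat_lit 0x160014) (nat_lit 0) (p (nat_lit 0x50612) (nat_lit 0) (p (nat_lit 0x40592) (nat_lit 0) (p (nat_lit 0x40492) (nat_lit 0) (p (nat_lit 0x30412)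 (nat_lit 0) (p (nat_lit 0x30212) (nat_lit 0) (p (nat_lit 0x20192) (nat_lit 0) (p (nat_lit 0x20092) (nat_lit 0) (p (nat_lit 0x10012) (nat_lit 0) pn)))))))))))))))))))))))))))) :=
  Cl.node (nat_lit 0xb0014) (nat_lit 2) (by decide +kernel) (ClAll.succ (ClAll.succ ClAll.zero s355) s356)

def n259 : Cl (O (nat_lit 3)) (R (nat_lit 102673))
    (p (nat_lit 0x20000c) (nat_lit 0) (p (nat_lit 0x200004) (nat_lit 0) (p (nat_lit 0x111) (nat_lit 1) (p (nat_lit 0x109) (nat_lit 0) (p (nat_lit 0xc9) (nat_lit 1) (p (nat_lit 0x119) (nat_lit 1) (p (nat_lit 0xc1) (nat_lit 0) (p (nat_lit 0x81) (nat_lit 1) (p (nat_lit 0x41) (nat_lit 1) (p (nat_lit 0x898a0b090a9a) (nat_lit 0) (p (nat_lit 0x9098a888a1a) (nat_lit 0) (p (nat_lit 0x88890a08079a) (nat_lit 0) (p (nat_lit 0x8088987871a) (nat_lit 0) (p (nat_lit 0x80000800078907088a) (nat_lit 0) (p (nat_lit 0x80000800070886860a) (nat_lit 0) (p (nat_lit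 0x8708060782) (nat_lit 0) (p (nat_lit 0x687858702) (nat_lit 0) (p (nat_lit 0x8607050482) (nat_lit 0) (p (nat_lit 0x586848402) (nat_lit 0) (p (nat_lit 0x160014) (nat_lit 0) (p (nat_lit 0x50612) (nat_lit 0) (p (nat_lit 0x40592) (nat_lit 0) (p (nat_lit 0x40492) (nat_lit 0) (p (nat_lit 0x30412) (nat_lit 0) (p (nat_lit 0x30212) (nat_lit 0) (p (nat_lit 0x20192) (nat_lit 0) (p (nat_lit 0x20092) (nat_lit 0) (p (nat_lit 0x10012) (nat_lit 0) pn)))))))))))))))))))))))))))) :=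
  Cl.node (nat_lit 0xb0014) (nat_lit 2) (by decide +kernel) (ClAll.succ (ClAll.succ ClAll.zero s359) s360)

def n260 : Cl (O (nat_lit 3)) (R (nat_lit 102673))
    (p (nat_lit 0x200004) (nat_lit 0) (p (nat_lit 0xc9) (nat_lit 1) (p (nat_lit 0x109) (nat_lit 1) (p (nat_lit 0x101) (nat_lit 0) (p (nat_lit 0x119) (nat_lit 0) (p (nat_lit 0xd1) (nat_lit 0) (p (nat_lit 0x89) (nat_lit 0) (p (nat_lit 0x41) (nat_lit 0) (p (nat_lit 0x898a0b090a9a) (nat_lit 0) (p (nat_lit 0x9098a888a1a) (nat_lit 0) (p (nat_lit 0x88890a08079a) (nat_lit 0) (p (nat_lit 0x8088987871a) (nat_lit 0) (p (nat_lit 0x80000800078907088a) (nat_lit 0) (p (nat_lit 0x80000800070886860a) (nat_lit 0) (p (nat_lit 0x8708060782) (nat_lit 0) (p (nat_lit 0x687858702) (nat_lit 0) (p (nat_lit 0x8607050482) (nat_lit 0) (p (nat_lit 0x586848402) (nat_lit 0) (p (nat_lit 0x160014) (nat_lit 0) (p (nat_lit 0x50612) (nat_lit 0) (p (nat_lit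 0x40592) (nat_lit 0) (p (nat_lit 0x40492) (nat_lit 0) (p (nat_lit 0x30412) (nat_lit 0) (p (nat_lit 0x30212) (nat_lit 0) (p (nat_lit 0x20192) (nat_lit 0) (p (nat_lit 0x20092) (nat_lit 0) (p (nat_lit 0x10012) (nat_lit 0) pn))))))))))))))))))))))))))) :=
  Cl.node (nat_lit 0x20000c) (nat_lit 2) (by decide +kernel) (ClAll.succ (ClAll.succ ClAll.zero n213) s5)

def n261 : Cl (O (nat_lit 3)) (R (nat_lit 102673))
    (p (nat_lit 0x200004) (nat_lit 0) (p (nat_lit 0xc9) (nat_lit 0) (p (nat_lit 0x81) (nat_lit 0) (p (nat_lit 0x101) (nat_lit 1) (p (nat_lit 0x119) (nat_lit 0) (p (nat_lit 0xd1) (nat_lit 0) (p (nat_lit 0x89) (nat_lit 0) (p (nat_lit 0x41) (nat_lit 0) (p (nat_lit 0x898a0b090a9a) (nat_lit 0) (p (nat_lit 0x9098a888a1a) (nat_lit 0) (p (nat_lit 0x88890a08079a) (nat_lit 0) (p (nat_lit 0x8088987871a) (nat_lit 0) (p (nat_lit 0x80000800078907088a) (nat_lit 0) (p (nat_lit 0x80000800070886860a)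 (nat_lit 0) (p (nat_lit 0x8708060782) (nat_lit 0) (p (nat_lit 0x687858702) (nat_lit 0) (p (nat_lit 0x8607050482) (nat_lit 0) (p (nat_lit 0x586848402) (nat_lit 0) (p (nat_lit 0x160014) (nat_lit 0) (p (nat_lit 0x50612) (nat_lit 0) (p (nat_lit 0x40592) (nat_lit 0) (p (nat_lit 0x40492) (nat_lit 0) (p (nat_lit 0x30412) (nat_lit 0) (p (nat_lit 0x30212) (nat_lit 0) (p (nat_lit 0x20192) (nat_lit 0) (p (nat_lit 0x20092) (nat_lit 0) (p (nat_lit 0x10012) (nat_lit 0) pn))))))))))))))))))))))))))) :=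
  Cl.node (nat_lit 0x20000c) (nat_lit 2) (by decide +kernel) (ClAll.succ (ClAll.succ ClAll.zero n214) s10)

def n262 : Cl (O (nat_lit 3)) (R (nat_lit 102673))
    (p (nat_lit 0x200004) (nat_lit 0) (p (nat_lit 0xc9) (nat_lit 1) (p (nat_lit 0x81) (nat_lit 0) (p (nat_lit 0x101) (nat_lit 1) (p (nat_lit 0x119) (nat_lit 0) (p (nat_lit 0xd1) (nat_lit 0) (p (nat_lit 0x89) (nat_lit 0) (p (nat_lit 0x41) (nat_lit 0) (p (nat_lit 0x898a0b090a9a) (nat_lit 0) (p (nat_lit 0x9098a888a1a) (nat_lit 0) (p (nat_lit 0x88890a08079a) (nat_lit 0) (p (nat_lit 0x8088987871a) (nat_lit 0) (p (nat_lit 0x80000800078907088a) (nat_lit 0) (p (nat_lit 0x80000800070886860a) (nat_lit 0) (p (nat_lit 0x8708060782) (nat_lit 0) (p (nat_lit 0x687858702) (nat_lit 0) (p (nat_lit 0x8607050482) (nat_lit 0) (p (nat_lit 0x586848402) (nat_lit 0) (p (nat_lit 0x160014) (nat_lit 0) (p (nat_lit 0x50612) (nat_lit 0) (p (nat_lit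 0x40592) (nat_lit 0) (p (nat_lit 0x40492) (nat_lit 0) (p (nat_lit 0x30412) (nat_lit 0) (p (nat_lit 0x30212) (nat_lit 0) (p (nat_lit 0x20192) (nat_lit 0) (p (nat_lit 0x20092) (nat_lit 0) (p (nat_lit 0x10012) (nat_lit 0) pn))))))))))))))))))))))))))) :=
  Cl.node (nat_lit 0x20000c) (nat_lit 2) (by decide +kernel) (ClAll.succ (ClAll.succ ClAll.zero n215) s26)

def n263 : Cl (O (nat_lit 3)) (R (nat_lit 102673))
    (p (nat_lit 0xc9) (nat_lit 0) (p (nat_lit 0xc1) (nat_lit 0) (p (nat_lit 0x81) (nat_lit 1) (p (nat_lit 0x101) (nat_lit 1) (p (nat_lit 0x119) (nat_lit 0) (p (nat_lit 0xd1) (nat_lit 0) (p (nat_lit 0x89) (nat_lit 0) (p (nat_lit 0x41) (nat_lit 0) (p (nat_lit 0x898a0b090a9a) (nat_lit 0) (p (nat_lit 0x9098a888a1a) (nat_lit 0) (p (nat_lit 0x88890a08079a) (nat_lit 0) (p (nat_lit 0x8088987871a) (nat_lit 0) (p (nat_lit 0x80000800078907088a) (nat_lit 0) (p (nat_lit 0x80000800070886860a)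 (nat_lit 0) (p (nat_lit 0x8708060782) (nat_lit 0) (p (nat_lit 0x687858702) (nat_lit 0) (p (nat_lit 0x8607050482) (nat_lit 0) (p (nat_lit 0x586848402) (nat_lit 0) (p (nat_lit 0x160014) (nat_lit 0) (p (nat_lit 0x50612) (nat_lit 0) (p (nat_lit 0x40592) (nat_lit 0) (p (nat_lit 0x40492) (nat_lit 0) (p (nat_lit 0x30412) (nat_lit 0) (p (nat_lit 0x30212) (nat_lit 0) (p (nat_lit 0x20192) (nat_lit 0) (p (nat_lit 0x20092) (nat_lit 0) (p (nat_lit 0x10012) (nat_lit 0) pn))))))))))))))))))))))))))) :=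
  Cl.node (nat_lit 0x200004) (nat_lit 2) (by decide +kernel) (ClAll.succ (ClAll.succ ClAll.zero n216) s31)

def n264 : Cl (O (nat_lit 3)) (R (nat_lit 102673))
    (p (nat_lit 0xc9) (nat_lit 1) (p (nat_lit 0xc1) (nat_lit 0) (p (nat_lit 0x81) (nat_lit 1) (p (nat_lit 0x101) (nat_lit 1) (p (nat_lit 0x119) (nat_lit 0) (p (nat_lit 0xd1) (nat_lit 0) (p (nat_lit 0x89) (nat_lit 0) (p (nat_lit 0x41) (nat_lit 0) (p (nat_lit 0x898a0b090a9a) (nat_lit 0) (p (nat_lit 0x9098a888a1a) (nat_lit 0) (p (nat_lit 0x88890a08079a) (nat_lit 0) (p (nat_lit 0x8088987871a) (nat_lit 0) (p (nat_lit 0x80000800078907088a) (nat_lit 0) (p (nat_lit 0x80000800070886860a) (nat_lit 0) (p (nat_lit 0x8708060782) (nat_lit 0) (p (nat_lit 0x687858702) (nat_lit 0) (p (nat_lit 0x8607050482) (nat_lit 0) (p (nat_lit 0x586848402) (nat_lit 0) (p (nat_lit 0x160014) (nat_lit 0) (p (nat_lit 0x50612) (nat_lit 0) (p (nat_lit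 0x40592) (nat_lit 0) (p (nat_lit 0x40492) (nat_lit 0) (p (nat_lit 0x30412) (nat_lit 0) (p (nat_lit 0x30212) (nat_lit 0) (p (nat_lit 0x20192) (nat_lit 0) (p (nat_lit 0x20092) (nat_lit 0) (p (nat_lit 0x10012) (nat_lit 0) pn))))))))))))))))))))))))))) :=
  Cl.node (nat_lit 0x200004) (nat_lit 2) (by decide +kernel) (ClAll.succ (ClAll.succ ClAll.zero n217) s47)

def n265 : Cl (O (nat_lit 3)) (R (nat_lit 102673))
    (p (nat_lit 0x200004) (nat_lit 0) (p (nat_lit 0x109) (nat_lit 1) (p (nat_lit 0xc9) (nat_lit 1) (p (nat_lit 0xc1) (nat_lit 0) (p (nat_lit 0x119) (nat_lit 1) (p (nat_lit 0xd1) (nat_lit 0) (p (nat_lit 0x89) (nat_lit 0) (p (nat_lit 0x41) (nat_lit 0) (p (nat_lit 0x898a0b090a9a) (nat_lit 0) (p (nat_lit 0x9098a888a1a) (nat_lit 0) (p (nat_lit 0x88890a08079a) (nat_lit 0) (p (nat_lit 0x8088987871a) (nat_lit 0) (p (nat_lit 0x80000800078907088a) (nat_lit 0) (p (nat_lit 0x80000800070886860a)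 (nat_lit 0) (p (nat_lit 0x8708060782) (nat_lit 0) (p (nat_lit 0x687858702) (nat_lit 0) (p (nat_lit 0x8607050482) (nat_lit 0) (p (nat_lit 0x586848402) (nat_lit 0) (p (nat_lit 0x160014) (nat_lit 0) (p (nat_lit 0x50612) (nat_lit 0) (p (nat_lit 0x40592) (nat_lit 0) (p (nat_lit 0x40492) (nat_lit 0) (p (nat_lit 0x30412) (nat_lit 0) (p (nat_lit 0x30212) (nat_lit 0) (p (nat_lit 0x20192) (nat_lit 0) (p (nat_lit 0x20092) (nat_lit 0) (p (nat_lit 0x10012) (nat_lit 0) pn))))))))))))))))))))))))))) :=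
  Cl.node (nat_lit 0x20000c) (nat_lit 2) (by decide +kernel) (ClAll.succ (ClAll.succ ClAll.zero s51) s52)

def n266 : Cl (O (nat_lit 3)) (R (nat_lit 102673))
    (p (nat_lit 0x200004) (nat_lit 0) (p (nat_lit 0x109) (nat_lit 1) (p (nat_lit 0x81) (nat_lit 0) (p (nat_lit 0xc1) (nat_lit 1) (p (nat_lit 0x119) (nat_lit 1) (p (nat_lit 0xd1) (nat_lit 0) (p (nat_lit 0x89) (nat_lit 0) (p (nat_lit 0x41) (nat_lit 0) (p (nat_lit 0x898a0b090a9a) (nat_lit 0) (p (nat_lit 0x9098a888a1a) (nat_lit 0) (p (nat_lit 0x88890a08079a) (nat_lit 0) (p (nat_lit 0x8088987871a) (nat_lit 0) (p (nat_lit 0x80000800078907088a) (nat_lit 0) (p (nat_lit 0x80000800070886860a) (nat_lit 0) (p (nat_lit 0x8708060782) (nat_lit 0) (p (nat_lit 0x687858702) (nat_lit 0) (p (nat_lit 0x8607050482) (nat_lit 0) (p (nat_lit 0x586848402) (nat_lit 0) (p (nat_lit 0x160014) (nat_lit 0) (p (nat_lit 0x50612) (nat_lit 0) (p (nat_lit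 0x40592) (nat_lit 0) (p (nat_lit 0x40492) (nat_lit 0) (p (nat_lit 0x30412) (nat_lit 0) (p (nat_lit 0x30212) (nat_lit 0) (p (nat_lit 0x20192) (nat_lit 0) (p (nat_lit 0x20092) (nat_lit 0) (p (nat_lit 0x10012) (nat_lit 0) pn))))))))))))))))))))))))))) :=
  Cl.node (nat_lit 0x20000c) (nat_lit 2) (by decide +kernel) (ClAll.succ (ClAll.succ ClAll.zero s55) s56)

def n267 : Cl (O (nat_lit 3)) (R (nat_lit 102673))
    (p (nat_lit 0x109) (nat_lit 0) (p (nat_lit 0x101) (nat_lit 0) (p (nat_lit 0x81) (nat_lit 1) (p (nat_lit 0xc1) (nat_lit 1) (p (nat_lit 0x119) (nat_lit 1) (p (nat_lit 0xd1) (nat_lit 0) (p (nat_lit 0x89) (nat_lit 0) (p (nat_lit 0x41) (nat_lit 0) (p (nat_lit 0x898a0b090a9a) (nat_lit 0) (p (nat_lit 0x9098a888a1a) (nat_lit 0) (p (nat_lit 0x88890a08079a) (nat_lit 0) (p (nat_lit 0x8088987871a) (nat_lit 0) (p (nat_lit 0x80000800078907088a) (nat_lit 0) (p (nat_lit 0x80000800070886860a)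 (nat_lit 0) (p (nat_lit 0x8708060782) (nat_lit 0) (p (nat_lit 0x687858702) (nat_lit 0) (p (nat_lit 0x8607050482) (nat_lit 0) (p (nat_lit 0x586848402) (nat_lit 0) (p (nat_lit 0x160014) (nat_lit 0) (p (nat_lit 0x50612) (nat_lit 0) (p (nat_lit 0x40592) (nat_lit 0) (p (nat_lit 0x40492) (nat_lit 0) (p (nat_lit 0x30412) (nat_lit 0) (p (nat_lit 0x30212) (nat_lit 0) (p (nat_lit 0x20192) (nat_lit 0) (p (nat_lit 0x20092) (nat_lit 0) (p (nat_lit 0x10012) (nat_lit 0) pn))))))))))))))))))))))))))) :=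
  Cl.node (nat_lit 0x200004) (nat_lit 2) (by decide +kernel) (ClAll.succ (ClAll.succ ClAll.zero n218) s61)

def n268 : Cl (O (nat_lit 3)) (R (nat_lit 102673))
    (p (nat_lit 0x109) (nat_lit 1) (p (nat_lit 0x101) (nat_lit 0) (p (nat_lit 0x81) (nat_lit 1) (p (nat_lit 0xc1) (nat_lit 1) (p (nat_lit 0x119) (nat_lit 1) (p (nat_lit 0xd1) (nat_lit 0) (p (nat_lit 0x89) (nat_lit 0) (p (nat_lit 0x41) (nat_lit 0) (p (nat_lit 0x898a0b090a9a) (nat_lit 0) (p (nat_lit 0x9098a888a1a) (nat_lit 0) (p (nat_lit 0x88890a08079a) (nat_lit 0) (p (nat_lit 0x8088987871a) (nat_lit 0) (p (nat_lit 0x80000800078907088a) (nat_lit 0) (p (nat_lit 0x80000800070886860a) (nat_lit 0) (p (nat_lit 0x8708060782) (nat_lit 0) (p (nat_lit 0x687858702) (nat_lit 0) (p (nat_lit 0x8607050482) (nat_lit 0) (p (nat_lit 0x586848402) (nat_lit 0) (p (nat_lit 0x160014) (nat_lit 0) (p (nat_lit 0x50612) (nat_lit 0) (p (nat_lit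 0x40592) (nat_lit 0) (p (nat_lit 0x40492) (nat_lit 0) (p (nat_lit 0x30412) (nat_lit 0) (p (nat_lit 0x30212) (nat_lit 0) (p (nat_lit 0x20192) (nat_lit 0) (p (nat_lit 0x20092) (nat_lit 0) (p (nat_lit 0x10012) (nat_lit 0) pn))))))))))))))))))))))))))) :=
  Cl.node (nat_lit 0x200004) (nat_lit 2) (by decide +kernel) (ClAll.succ (ClAll.succ ClAll.zero n219) s69)

def n269 : Cl (O (nat_lit 3)) (R (nat_lit 102673))
    (p (nat_lit 0x200004) (nat_lit 0) (p (nat_lit 0x101) (nat_lit 1) (p (nat_lit 0x81) (nat_lit 1) (p (nat_lit 0xc1) (nat_lit 1) (p (nat_lit 0x119) (nat_lit 1) (p (nat_lit 0xd1) (nat_lit 0) (p (nat_lit 0x89) (nat_lit 0) (p (nat_lit 0x41) (nat_lit 0) (p (nat_lit 0x898a0b090a9a) (nat_lit 0) (p (nat_lit 0x9098a888a1a) (nat_lit 0) (p (nat_lit 0x88890a08079a) (nat_lit 0) (p (nat_lit 0x8088987871a) (nat_lit 0) (p (nat_lit 0x80000800078907088a) (nat_lit 0) (p (nat_lit 0x80000800070886860a)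 (nat_lit 0) (p (nat_lit 0x8708060782) (nat_lit 0) (p (nat_lit 0x687858702) (nat_lit 0) (p (nat_lit 0x8607050482) (nat_lit 0) (p (nat_lit 0x586848402) (nat_lit 0) (p (nat_lit 0x160014) (nat_lit 0) (p (nat_lit 0x50612) (nat_lit 0) (p (nat_lit 0x40592) (nat_lit 0) (p (nat_lit 0x40492) (nat_lit 0) (p (nat_lit 0x30412) (nat_lit 0) (p (nat_lit 0x30212) (nat_lit 0) (p (nat_lit 0x20192) (nat_lit 0) (p (nat_lit 0x20092) (nat_lit 0) (p (nat_lit 0x10012) (nat_lit 0) pn))))))))))))))))))))))))))) :=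
  Cl.node (nat_lit 0x20000c) (nat_lit 2) (by decide +kernel) (ClAll.succ (ClAll.succ ClAll.zero s70) s71)

def n270 : Cl (O (nat_lit 3)) (R (nat_lit 102673))
    (p (nat_lit 0x20000c) (nat_lit 0) (p (nat_lit 0x200004) (nat_lit 0) (p (nat_lit 0x109) (nat_lit 1) (p (nat_lit 0x101) (nat_lit 0) (p (nat_lit 0x111) (nat_lit 0) (p (nat_lit 0xd1) (nat_lit 1) (p (nat_lit 0x89) (nat_lit 0) (p (nat_lit 0x41) (nat_lit 0) (p (nat_lit 0x898a0b090a9a) (nat_lit 0) (p (nat_lit 0x9098a888a1a) (nat_lit 0) (p (nat_lit 0x88890a08079a) (nat_lit 0) (p (nat_lit 0x8088987871a) (nat_lit 0) (p (nat_lit 0x80000800078907088a) (nat_lit 0) (p (nat_lit 0x80000800070886860a) (nat_lit 0) (p (nat_lit 0x8708060782) (nat_lit 0) (p (nat_lit 0x687858702) (nat_lit 0) (p (nat_lit 0x8607050482) (nat_lit 0) (p (nat_lit 0x586848402) (nat_lit 0) (p (nat_lit 0x160014) (nat_lit 0) (p (nat_lit 0x50612) (nat_lit 0) (p (nat_lit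 0x40592) (nat_lit 0) (p (nat_lit 0x40492) (nat_lit 0) (p (nat_lit 0x30412) (nat_lit 0) (p (nat_lit 0x30212) (nat_lit 0) (p (nat_lit 0x20192) (nat_lit 0) (p (nat_lit 0x20092) (nat_lit 0) (p (nat_lit 0x10012) (nat_lit 0) pn))))))))))))))))))))))))))) :=
  Cl.node (nat_lit 0xc1) (nat_lit 2) (by decide +kernel) (ClAll.succ (ClAll.succ ClAll.zero s74) n220)

def n271 : Cl (O (nat_lit 3)) (R (nat_lit 102673))
    (p (nat_lit 0x20000c) (nat_lit 0) (p (nat_lit 0x200004) (nat_lit 0) (p (nat_lit 0x81) (nat_lit 0) (p (nat_lit 0x101) (nat_lit 1) (p (nat_lit 0x111) (nat_lit 0) (p (nat_lit 0xd1) (nat_lit 1) (p (nat_lit 0x89) (nat_lit 0) (p (nat_lit 0x41) (nat_lit 0) (p (nat_lit 0x898a0b090a9a) (nat_lit 0) (p (nat_lit 0x9098a888a1a) (nat_lit 0) (p (nat_lit 0x88890a08079a) (nat_lit 0) (p (nat_lit 0x8088987871a) (nat_lit 0) (p (nat_lit 0x80000800078907088a) (nat_lit 0) (p (nat_lit 0x80000800070886860a)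 (nat_lit 0) (p (nat_lit 0x8708060782) (nat_lit 0) (p (nat_lit 0x687858702) (nat_lit 0) (p (nat_lit 0x8607050482) (nat_lit 0) (p (nat_lit 0x586848402) (nat_lit 0) (p (nat_lit 0x160014) (nat_lit 0) (p (nat_lit 0x50612) (nat_lit 0) (p (nat_lit 0x40592) (nat_lit 0) (p (nat_lit 0x40492) (nat_lit 0) (p (nat_lit 0x30412) (nat_lit 0) (p (nat_lit 0x30212) (nat_lit 0) (p (nat_lit 0x20192) (nat_lit 0) (p (nat_lit 0x20092) (nat_lit 0) (p (nat_lit 0x10012) (nat_lit 0) pn))))))))))))))))))))))))))) :=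
  Cl.node (nat_lit 0x119) (nat_lit 2) (by decide +kernel) (ClAll.succ (ClAll.succ ClAll.zero n221) n222)

def n272 : Cl (O (nat_lit 3)) (R (nat_lit 102673))
    (p (nat_lit 0x200004) (nat_lit 0) (p (nat_lit 0xc1) (nat_lit 0) (p (nat_lit 0x81) (nat_lit 1) (p (nat_lit 0x101) (nat_lit 1) (p (nat_lit 0x111) (nat_lit 0) (p (nat_lit 0xd1) (nat_lit 1) (p (nat_lit 0x89) (nat_lit 0) (p (nat_lit 0x41) (nat_lit 0) (p (nat_lit 0x898a0b090a9a) (nat_lit 0) (p (nat_lit 0x9098a888a1a) (nat_lit 0) (p (nat_lit 0x88890a08079a) (nat_lit 0) (p (nat_lit 0x8088987871a) (nat_lit 0) (p (nat_lit 0x80000800078907088a) (nat_lit 0) (p (nat_lit 0x80000800070886860a) (nat_lit 0) (p (nat_lit 0x8708060782) (nat_lit 0) (p (nat_lit 0x687858702) (nat_lit 0) (p (nat_lit 0x8607050482) (nat_lit 0) (p (nat_lit 0x586848402) (nat_lit 0) (p (nat_lit 0x160014) (nat_lit 0) (p (nat_lit 0x50612) (nat_lit 0) (p (nat_lit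 0x40592) (nat_lit 0) (p (nat_lit 0x40492) (nat_lit 0) (p (nat_lit 0x30412) (nat_lit 0) (p (nat_lit 0x30212) (nat_lit 0) (p (nat_lit 0x20192) (nat_lit 0) (p (nat_lit 0x20092) (nat_lit 0) (p (nat_lit 0x10012) (nat_lit 0) pn))))))))))))))))))))))))))) :=
  Cl.node (nat_lit 0x20000c) (nat_lit 2) (by decide +kernel) (ClAll.succ (ClAll.succ ClAll.zero n223) n224)

def n273 : Cl (O (nat_lit 3)) (R (nat_lit 102673))
    (p (nat_lit 0x200004) (nat_lit 0) (p (nat_lit 0x101) (nat_lit 0) (p (nat_lit 0xc1) (nat_lit 1) (p (nat_lit 0x81) (nat_lit 1) (p (nat_lit 0x111) (nat_lit 1) (p (nat_lit 0xd1) (nat_lit 1) (p (nat_lit 0x89) (nat_lit 0) (p (nat_lit 0x41) (nat_lit 0) (p (nat_lit 0x898a0b090a9a) (nat_lit 0) (p (nat_lit 0x9098a888a1a) (nat_lit 0) (p (nat_lit 0x88890a08079a) (nat_lit 0) (p (nat_lit 0x8088987871a) (nat_lit 0) (p (nat_lit 0x80000800078907088a) (nat_lit 0) (p (nat_lit 0x80000800070886860a)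 (nat_lit 0) (p (nat_lit 0x8708060782) (nat_lit 0) (p (nat_lit 0x687858702) (nat_lit 0) (p (nat_lit 0x8607050482) (nat_lit 0) (p (nat_lit 0x586848402) (nat_lit 0) (p (nat_lit 0x160014) (nat_lit 0) (p (nat_lit 0x50612) (nat_lit 0) (p (nat_lit 0x40592) (nat_lit 0) (p (nat_lit 0x40492) (nat_lit 0) (p (nat_lit 0x30412) (nat_lit 0) (p (nat_lit 0x30212) (nat_lit 0) (p (nat_lit 0x20192) (nat_lit 0) (p (nat_lit 0x20092) (nat_lit 0) (p (nat_lit 0x10012) (nat_lit 0) pn))))))))))))))))))))))))))) :=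
  Cl.node (nat_lit 0x20000c) (nat_lit 2) (by decide +kernel) (ClAll.succ (ClAll.succ ClAll.zero n225) s119)

def n274 : Cl (O (nat_lit 3)) (R (nat_lit 102673))
    (p (nat_lit 0x200004) (nat_lit 0) (p (nat_lit 0x101) (nat_lit 1) (p (nat_lit 0xc1) (nat_lit 1) (p (nat_lit 0x81) (nat_lit 1) (p (nat_lit 0x111) (nat_lit 1) (p (nat_lit 0xd1) (nat_lit 1) (p (nat_lit 0x89) (nat_lit 0) (p (nat_lit 0x41) (nat_lit 0) (p (nat_lit 0x898a0b090a9a) (nat_lit 0) (p (nat_lit 0x9098a888a1a) (nat_lit 0) (p (nat_lit 0x88890a08079a) (nat_lit 0) (p (nat_lit 0x8088987871a) (nat_lit 0) (p (nat_lit 0x80000800078907088a) (nat_lit 0) (p (nat_lit 0x80000800070886860a) (nat_lit 0) (p (nat_lit 0x8708060782) (nat_lit 0) (p (nat_lit 0x687858702) (nat_lit 0) (p (nat_lit 0x8607050482) (nat_lit 0) (p (nat_lit 0x586848402) (nat_lit 0) (p (nat_lit 0x160014) (nat_lit 0) (p (nat_lit 0x50612) (nat_lit 0) (p (nat_lit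 0x40592) (nat_lit 0) (p (nat_lit 0x40492) (nat_lit 0) (p (nat_lit 0x30412) (nat_lit 0) (p (nat_lit 0x30212) (nat_lit 0) (p (nat_lit 0x20192) (nat_lit 0) (p (nat_lit 0x20092) (nat_lit 0) (p (nat_lit 0x10012) (nat_lit 0) pn))))))))))))))))))))))))))) :=
  Cl.node (nat_lit 0x20000c) (nat_lit 2) (by decide +kernel) (ClAll.succ (ClAll.succ ClAll.zero n226) s124)

def n275 : Cl (O (nat_lit 3)) (R (nat_lit 102673))
    (p (nat_lit 0xd1) (nat_lit 1) (p (nat_lit 0x111) (nat_lit 1) (p (nat_lit 0x109) (nat_lit 0) (p (nat_lit 0x101) (nat_lit 0) (p (nat_lit 0x119) (nat_lit 0) (p (nat_lit 0xc9) (nat_lit 0) (p (nat_lit 0x89) (nat_lit 1) (p (nat_lit 0x41) (nat_lit 0) (p (nat_lit 0x898a0b090a9a) (nat_lit 0) (p (nat_lit 0x9098a888a1a) (nat_lit 0) (p (nat_lit 0x88890a08079a) (nat_lit 0) (p (nat_lit 0x8088987871a) (nat_lit 0) (p (nat_lit 0x80000800078907088a) (nat_lit 0) (p (nat_lit 0x80000800070886860a)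 (nat_lit 0) (p (nat_lit 0x8708060782) (nat_lit 0) (p (nat_lit 0x687858702) (nat_lit 0) (p (nat_lit 0x8607050482) (nat_lit 0) (p (nat_lit 0x586848402) (nat_lit 0) (p (nat_lit 0x160014) (nat_lit 0) (p (nat_lit 0x50612) (nat_lit 0) (p (nat_lit 0x40592) (nat_lit 0) (p (nat_lit 0x40492) (nat_lit 0) (p (nat_lit 0x30412) (nat_lit 0) (p (nat_lit 0x30212) (nat_lit 0) (p (nat_lit 0x20192) (nat_lit 0) (p (nat_lit 0x20092) (nat_lit 0) (p (nat_lit 0x10012) (nat_lit 0) pn))))))))))))))))))))))))))) :=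
  Cl.node (nat_lit 0x200004) (nat_lit 2) (by decide +kernel) (ClAll.succ (ClAll.succ ClAll.zero n227) s131)

def n276 : Cl (O (nat_lit 3)) (R (nat_lit 102673))
    (p (nat_lit 0x200004) (nat_lit 0) (p (nat_lit 0xd1) (nat_lit 0) (p (nat_lit 0x109) (nat_lit 1) (p (nat_lit 0x101) (nat_lit 0) (p (nat_lit 0x119) (nat_lit 0) (p (nat_lit 0xc9) (nat_lit 0) (p (nat_lit 0x89) (nat_lit 1) (p (nat_lit 0x41) (nat_lit 0) (p (nat_lit 0x898a0b090a9a) (nat_lit 0) (p (nat_lit 0x9098a888a1a) (nat_lit 0) (p (nat_lit 0x88890a08079a) (nat_lit 0) (p (nat_lit 0x8088987871a) (nat_lit 0) (p (nat_lit 0x80000800078907088a) (nat_lit 0) (p (nat_lit 0x80000800070886860a) (nat_lit 0) (p (nat_lit 0x8708060782) (nat_lit 0) (p (nat_lit 0x687858702) (nat_lit 0) (p (nat_lit 0x8607050482) (nat_lit 0) (p (nat_lit 0x586848402) (nat_lit 0) (p (nat_lit 0x160014) (nat_lit 0) (p (nat_lit 0x50612) (nat_lit 0) (p (nat_lit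 0x40592) (nat_lit 0) (p (nat_lit 0x40492) (nat_lit 0) (p (nat_lit 0x30412) (nat_lit 0) (p (nat_lit 0x30212) (nat_lit 0) (p (nat_lit 0x20192) (nat_lit 0) (p (nat_lit 0x20092) (nat_lit 0) (p (nat_lit 0x10012) (nat_lit 0) pn))))))))))))))))))))))))))) :=
  Cl.node (nat_lit 0x20000c) (nat_lit 2) (by decide +kernel) (ClAll.succ (ClAll.succ ClAll.zero n228) s134)

def n277 : Cl (O (nat_lit 3)) (R (nat_lit 102673))
    (p (nat_lit 0x200004) (nat_lit 0) (p (nat_lit 0xd1) (nat_lit 1) (p (nat_lit 0x109) (nat_lit 1) (p (nat_lit 0x101) (nat_lit 0) (p (nat_lit 0x119) (nat_lit 0) (p (nat_lit 0xc9) (nat_lit 0) (p (nat_lit 0x89) (nat_lit 1) (p (nat_lit 0x41) (nat_lit 0) (p (nat_lit 0x898a0b090a9a) (nat_lit 0) (p (nat_lit 0x9098a888a1a) (nat_lit 0) (p (nat_lit 0x88890a08079a) (nat_lit 0) (p (nat_lit 0x8088987871a) (nat_lit 0) (p (nat_lit 0x80000800078907088a) (nat_lit 0) (p (nat_lit 0x80000800070886860a)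 (nat_lit 0) (p (nat_lit 0x8708060782) (nat_lit 0) (p (nat_lit 0x687858702) (nat_lit 0) (p (nat_lit 0x8607050482) (nat_lit 0) (p (nat_lit 0x586848402) (nat_lit 0) (p (nat_lit 0x160014) (nat_lit 0) (p (nat_lit 0x50612) (nat_lit 0) (p (nat_lit 0x40592) (nat_lit 0) (p (nat_lit 0x40492) (nat_lit 0) (p (nat_lit 0x30412) (nat_lit 0) (p (nat_lit 0x30212) (nat_lit 0) (p (nat_lit 0x20192) (nat_lit 0) (p (nat_lit 0x20092) (nat_lit 0) (p (nat_lit 0x10012) (nat_lit 0) pn))))))))))))))))))))))))))) :=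
  Cl.node (nat_lit 0x20000c) (nat_lit 2) (by decide +kernel) (ClAll.succ (ClAll.succ ClAll.zero n229) s145)

def n278 : Cl (O (nat_lit 3)) (R (nat_lit 102673))
    (p (nat_lit 0x200004) (nat_lit 0) (p (nat_lit 0xd1) (nat_lit 0) (p (nat_lit 0xc1) (nat_lit 0) (p (nat_lit 0x101) (nat_lit 1) (p (nat_lit 0x119) (nat_lit 0) (p (nat_lit 0xc9) (nat_lit 0) (p (nat_lit 0x89) (nat_lit 1) (p (nat_lit 0x41) (nat_lit 0) (p (nat_lit 0x898a0b090a9a) (nat_lit 0) (p (nat_lit 0x9098a888a1a) (nat_lit 0) (p (nat_lit 0x88890a08079a) (nat_lit 0) (p (nat_lit 0x8088987871a) (nat_lit 0) (p (nat_lit 0x80000800078907088a) (nat_lit 0) (p (nat_lit 0x80000800070886860a) (nat_lit 0) (p (nat_lit 0x8708060782) (nat_lit 0) (p (nat_lit 0x687858702) (nat_lit 0) (p (nat_lit 0x8607050482) (nat_lit 0) (p (nat_lit 0x586848402) (nat_lit 0) (p (nat_lit 0x160014) (nat_lit 0) (p (nat_lit 0x50612) (nat_lit 0) (p (nat_lit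 0x40592) (nat_lit 0) (p (nat_lit 0x40492) (nat_lit 0) (p (nat_lit 0x30412) (nat_lit 0) (p (nat_lit 0x30212) (nat_lit 0) (p (nat_lit 0x20192) (nat_lit 0) (p (nat_lit 0x20092) (nat_lit 0) (p (nat_lit 0x10012) (nat_lit 0) pn))))))))))))))))))))))))))) :=
  Cl.node (nat_lit 0x20000c) (nat_lit 2) (by decide +kernel) (ClAll.succ (ClAll.succ ClAll.zero n230) s149)

def n279 : Cl (O (nat_lit 3)) (R (nat_lit 102673))
    (p (nat_lit 0x200004) (nat_lit 0) (p (nat_lit 0xd1) (nat_lit 1) (p (nat_lit 0xc1) (nat_lit 0) (p (nat_lit 0x101) (nat_lit 1) (p (nat_lit 0x119) (nat_lit 0) (p (nat_lit 0xc9) (nat_lit 0) (p (nat_lit 0x89) (nat_lit 1) (p (nat_lit 0x41) (nat_lit 0) (p (nat_lit 0x898a0b090a9a) (nat_lit 0) (p (nat_lit 0x9098a888a1a) (nat_lit 0) (p (nat_lit 0x88890a08079a) (nat_lit 0) (p (nat_lit 0x8088987871a) (nat_lit 0) (p (nat_lit 0x80000800078907088a) (nat_lit 0) (p (nat_lit 0x80000800070886860a)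 (nat_lit 0) (p (nat_lit 0x8708060782) (nat_lit 0) (p (nat_lit 0x687858702) (nat_lit 0) (p (nat_lit 0x8607050482) (nat_lit 0) (p (nat_lit 0x586848402) (nat_lit 0) (p (nat_lit 0x160014) (nat_lit 0) (p (nat_lit 0x50612) (nat_lit 0) (p (nat_lit 0x40592) (nat_lit 0) (p (nat_lit 0x40492) (nat_lit 0) (p (nat_lit 0x30412) (nat_lit 0) (p (nat_lit 0x30212) (nat_lit 0) (p (nat_lit 0x20192) (nat_lit 0) (p (nat_lit 0x20092) (nat_lit 0) (p (nat_lit 0x10012) (nat_lit 0) pn))))))))))))))))))))))))))) :=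
  Cl.node (nat_lit 0x20000c) (nat_lit 2) (by decide +kernel) (ClAll.succ (ClAll.succ ClAll.zero n231) s160)

def n280 : Cl (O (nat_lit 3)) (R (nat_lit 102673))
    (p (nat_lit 0x200004) (nat_lit 0) (p (nat_lit 0x111) (nat_lit 1) (p (nat_lit 0xd1) (nat_lit 1) (p (nat_lit 0xc1) (nat_lit 0) (p (nat_lit 0x119) (nat_lit 1) (p (nat_lit 0xc9) (nat_lit 0) (p (nat_lit 0x89) (nat_lit 1) (p (nat_lit 0x41) (nat_lit 0) (p (nat_lit 0x898a0b090a9a) (nat_lit 0) (p (nat_lit 0x9098a888a1a) (nat_lit 0) (p (nat_lit 0x88890a08079a) (nat_lit 0) (p (nat_lit 0x8088987871a) (nat_lit 0) (p (nat_lit 0x80000800078907088a) (nat_lit 0) (p (nat_lit 0x80000800070886860a) (nat_lit 0) (p (nat_lit 0x8708060782) (nat_lit 0) (p (nat_lit 0x687858702) (nat_lit 0) (p (nat_lit 0x8607050482) (nat_lit 0) (p (nat_lit 0x586848402) (nat_lit 0) (p (nat_lit 0x160014) (nat_lit 0) (p (nat_lit 0x50612) (nat_lit 0) (p (nat_lit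 0x40592) (nat_lit 0) (p (nat_lit 0x40492) (nat_lit 0) (p (nat_lit 0x30412) (nat_lit 0) (p (nat_lit 0x30212) (nat_lit 0) (p (nat_lit 0x20192) (nat_lit 0) (p (nat_lit 0x20092) (nat_lit 0) (p (nat_lit 0x10012) (nat_lit 0) pn))))))))))))))))))))))))))) :=
  Cl.node (nat_lit 0x20000c) (nat_lit 2) (by decide +kernel) (ClAll.succ (ClAll.succ ClAll.zero n232) s167)

def n281 : Cl (O (nat_lit 3)) (R (nat_lit 102673))
    (p (nat_lit 0x200004) (nat_lit 0) (p (nat_lit 0x111) (nat_lit 0) (p (nat_lit 0x101) (nat_lit 0) (p (nat_lit 0xc1) (nat_lit 1) (p (nat_lit 0x119) (nat_lit 1) (p (nat_lit 0xc9) (nat_lit 0) (p (nat_lit 0x89) (nat_lit 1) (p (nat_lit 0x41) (nat_lit 0) (p (nat_lit 0x898a0b090a9a) (nat_lit 0) (p (nat_lit 0x9098a888a1a) (nat_lit 0) (p (nat_lit 0x88890a08079a) (nat_lit 0) (p (nat_lit 0x8088987871a) (nat_lit 0) (p (nat_lit 0x80000800078907088a) (nat_lit 0) (p (nat_lit 0x80000800070886860a)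 (nat_lit 0) (p (nat_lit 0x8708060782) (nat_lit 0) (p (nat_lit 0x687858702) (nat_lit 0) (p (nat_lit 0x8607050482) (nat_lit 0) (p (nat_lit 0x586848402) (nat_lit 0) (p (nat_lit 0x160014) (nat_lit 0) (p (nat_lit 0x50612) (nat_lit 0) (p (nat_lit 0x40592) (nat_lit 0) (p (nat_lit 0x40492) (nat_lit 0) (p (nat_lit 0x30412) (nat_lit 0) (p (nat_lit 0x30212) (nat_lit 0) (p (nat_lit 0x20192) (nat_lit 0) (p (nat_lit 0x20092) (nat_lit 0) (p (nat_lit 0x10012) (nat_lit 0) pn))))))))))))))))))))))))))) :=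
  Cl.node (nat_lit 0x20000c) (nat_lit 2) (by decide +kernel) (ClAll.succ (ClAll.succ ClAll.zero n233) s171)

def n282 : Cl (O (nat_lit 3)) (R (nat_lit 102673))
    (p (nat_lit 0x200004) (nat_lit 0) (p (nat_lit 0x111) (nat_lit 1) (p (nat_lit 0x101) (nat_lit 0) (p (nat_lit 0xc1) (nat_lit 1) (p (nat_lit 0x119) (nat_lit 1) (p (nat_lit 0xc9) (nat_lit 0) (p (nat_lit 0x89) (nat_lit 1) (p (nat_lit 0x41) (nat_lit 0) (p (nat_lit 0x898a0b090a9a) (nat_lit 0) (p (nat_lit 0x9098a888a1a) (nat_lit 0) (p (nat_lit 0x88890a08079a) (nat_lit 0) (p (nat_lit 0x8088987871a) (nat_lit 0) (p (nat_lit 0x80000800078907088a) (nat_lit 0) (p (nat_lit 0x80000800070886860a) (nat_lit 0) (p (nat_lit 0x8708060782) (nat_lit 0) (p (nat_lit 0x687858702) (nat_lit 0) (p (nat_lit 0x8607050482) (nat_lit 0) (p (nat_lit 0x586848402) (nat_lit 0) (p (nat_lit 0x160014) (nat_lit 0) (p (nat_lit 0x50612) (nat_lit 0) (p (nat_lit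 0x40592) (nat_lit 0) (p (nat_lit 0x40492) (nat_lit 0) (p (nat_lit 0x30412) (nat_lit 0) (p (nat_lit 0x30212) (nat_lit 0) (p (nat_lit 0x20192) (nat_lit 0) (p (nat_lit 0x20092) (nat_lit 0) (p (nat_lit 0x10012) (nat_lit 0) pn))))))))))))))))))))))))))) :=
  Cl.node (nat_lit 0x20000c) (nat_lit 2) (by decide +kernel) (ClAll.succ (ClAll.succ ClAll.zero n234) s178)

def n283 : Cl (O (nat_lit 3)) (R (nat_lit 102673))
    (p (nat_lit 0x200004) (nat_lit 0) (p (nat_lit 0x119) (nat_lit 1) (p (nat_lit 0x111) (nat_lit 0) (p (nat_lit 0x101) (nat_lit 0) (p (nat_lit 0x109) (nat_lit 0) (p (nat_lit 0xc9) (nat_lit 1) (p (nat_lit 0x89) (nat_lit 1) (p (nat_lit 0x41) (nat_lit 0) (p (nat_lit 0x898a0b090a9a) (nat_lit 0) (p (nat_lit 0x9098a888a1a) (nat_lit 0) (p (nat_lit 0x88890a08079a) (nat_lit 0) (p (nat_lit 0x8088987871a) (nat_lit 0) (p (nat_lit 0x80000800078907088a) (nat_lit 0) (p (nat_lit 0x80000800070886860a)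 (nat_lit 0) (p (nat_lit 0x8708060782) (nat_lit 0) (p (nat_lit 0x687858702) (nat_lit 0) (p (nat_lit 0x8607050482) (nat_lit 0) (p (nat_lit 0x586848402) (nat_lit 0) (p (nat_lit 0x160014) (nat_lit 0) (p (nat_lit 0x50612) (nat_lit 0) (p (nat_lit 0x40592) (nat_lit 0) (p (nat_lit 0x40492) (nat_lit 0) (p (nat_lit 0x30412) (nat_lit 0) (p (nat_lit 0x30212) (nat_lit 0) (p (nat_lit 0x20192) (nat_lit 0) (p (nat_lit 0x20092) (nat_lit 0) (p (nat_lit 0x10012) (nat_lit 0) pn))))))))))))))))))))))))))) :=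
  Cl.node (nat_lit 0x20000c) (nat_lit 2) (by decide +kernel) (ClAll.succ (ClAll.succ ClAll.zero n235) s184)

def n284 : Cl (O (nat_lit 3)) (R (nat_lit 102673))
    (p (nat_lit 0x200004) (nat_lit 0) (p (nat_lit 0x89) (nat_lit 0) (p (nat_lit 0x109) (nat_lit 1) (p (nat_lit 0x101) (nat_lit 0) (p (nat_lit 0x119) (nat_lit 0) (p (nat_lit 0xd1) (nat_lit 0) (p (nat_lit 0x81) (nat_lit 0) (p (nat_lit 0x41) (nat_lit 1) (p (nat_lit 0x898a0b090a9a) (nat_lit 0) (p (nat_lit 0x9098a888a1a) (nat_lit 0) (p (nat_lit 0x88890a08079a) (nat_lit 0) (p (nat_lit 0x8088987871a) (nat_lit 0) (p (nat_lit 0x80000800078907088a) (nat_lit 0) (p (nat_lit 0x80000800070886860a) (nat_lit 0) (p (nat_lit 0x8708060782) (nat_lit 0) (p (nat_lit 0x687858702) (nat_lit 0) (p (nat_lit 0x8607050482) (nat_lit 0) (p (nat_lit 0x586848402) (nat_lit 0) (p (nat_lit 0x160014) (nat_lit 0) (p (nat_lit 0x50612) (nat_lit 0) (p (nat_lit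 0x40592) (nat_lit 0) (p (nat_lit 0x40492) (nat_lit 0) (p (nat_lit 0x30412) (nat_lit 0) (p (nat_lit 0x30212) (nat_lit 0) (p (nat_lit 0x20192) (nat_lit 0) (p (nat_lit 0x20092) (nat_lit 0) (p (nat_lit 0x10012) (nat_lit 0) pn))))))))))))))))))))))))))) :=
  Cl.node (nat_lit 0x20000c) (nat_lit 2) (by decide +kernel) (ClAll.succ (ClAll.succ ClAll.zero n236) s193)

def n285 : Cl (O (nat_lit 3)) (R (nat_lit 102673))
    (p (nat_lit 0xc9) (nat_lit 0) (p (nat_lit 0x89) (nat_lit 1) (p (nat_lit 0x109) (nat_lit 1) (p (nat_lit 0x101) (nat_lit 0) (p (nat_lit 0x119) (nat_lit 0) (p (nat_lit 0xd1) (nat_lit 0) (p (nat_lit 0x81) (nat_lit 0) (p (nat_lit 0x41) (nat_lit 1) (p (nat_lit 0x898a0b090a9a) (nat_lit 0) (p (nat_lit 0x9098a888a1a) (nat_lit 0) (p (nat_lit 0x88890a08079a) (nat_lit 0) (p (nat_lit 0x8088987871a) (nat_lit 0) (p (nat_lit 0x80000800078907088a) (nat_lit 0) (p (nat_lit 0x80000800070886860a)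 (nat_lit 0) (p (nat_lit 0x8708060782) (nat_lit 0) (p (nat_lit 0x687858702) (nat_lit 0) (p (nat_lit 0x8607050482) (nat_lit 0) (p (nat_lit 0x586848402) (nat_lit 0) (p (nat_lit 0x160014) (nat_lit 0) (p (nat_lit 0x50612) (nat_lit 0) (p (nat_lit 0x40592) (nat_lit 0) (p (nat_lit 0x40492) (nat_lit 0) (p (nat_lit 0x30412) (nat_lit 0) (p (nat_lit 0x30212) (nat_lit 0) (p (nat_lit 0x20192) (nat_lit 0) (p (nat_lit 0x20092) (nat_lit 0) (p (nat_lit 0x10012) (nat_lit 0) pn))))))))))))))))))))))))))) :=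
  Cl.node (nat_lit 0x200004) (nat_lit 2) (by decide +kernel) (ClAll.succ (ClAll.succ ClAll.zero n237) s197)

def n286 : Cl (O (nat_lit 3)) (R (nat_lit 102673))
    (p (nat_lit 0x200004) (nat_lit 0) (p (nat_lit 0x89) (nat_lit 0) (p (nat_lit 0xc1) (nat_lit 0) (p (nat_lit 0x101) (nat_lit 1) (p (nat_lit 0x119) (nat_lit 0) (p (nat_lit 0xd1) (nat_lit 0) (p (nat_lit 0x81) (nat_lit 0) (p (nat_lit 0x41) (nat_lit 1) (p (nat_lit 0x898a0b090a9a) (nat_lit 0) (p (nat_lit 0x9098a888a1a) (nat_lit 0) (p (nat_lit 0x88890a08079a) (nat_lit 0) (p (nat_lit 0x8088987871a) (nat_lit 0) (p (nat_lit 0x80000800078907088a) (nat_lit 0) (p (nat_lit 0x80000800070886860a) (nat_lit 0) (p (nat_lit 0x8708060782) (nat_lit 0) (p (nat_lit 0x687858702) (nat_lit 0) (p (nat_lit 0x8607050482) (nat_lit 0) (p (nat_lit 0x586848402) (nat_lit 0) (p (nat_lit 0x160014) (nat_lit 0) (p (nat_lit 0x50612) (nat_lit 0) (p (nat_lit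 0x40592) (nat_lit 0) (p (nat_lit 0x40492) (nat_lit 0) (p (nat_lit 0x30412) (nat_lit 0) (p (nat_lit 0x30212) (nat_lit 0) (p (nat_lit 0x20192) (nat_lit 0) (p (nat_lit 0x20092) (nat_lit 0) (p (nat_lit 0x10012) (nat_lit 0) pn))))))))))))))))))))))))))) :=
  Cl.node (nat_lit 0x20000c) (nat_lit 2) (by decide +kernel) (ClAll.succ (ClAll.succ ClAll.zero s199) s200)

def n287 : Cl (O (nat_lit 3)) (R (nat_lit 102673))
    (p (nat_lit 0xc9) (nat_lit 0) (p (nat_lit 0x89) (nat_lit 1) (p (nat_lit 0xc1) (nat_lit 0) (p (nat_lit 0x101) (nat_lit 1) (p (nat_lit 0x119) (nat_lit 0) (p (nat_lit 0xd1) (nat_lit 0) (p (nat_lit 0x81) (nat_lit 0) (p (nat_lit 0x41) (nat_lit 1) (p (nat_lit 0x898a0b090a9a) (nat_lit 0) (p (nat_lit 0x9098a888a1a) (nat_lit 0) (p (nat_lit 0x88890a08079a) (nat_lit 0) (p (nat_lit 0x8088987871a) (nat_lit 0) (p (nat_lit 0x80000800078907088a) (nat_lit 0) (p (nat_lit 0x80000800070886860a)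 (nat_lit 0) (p (nat_lit 0x8708060782) (nat_lit 0) (p (nat_lit 0x687858702) (nat_lit 0) (p (nat_lit 0x8607050482) (nat_lit 0) (p (nat_lit 0x586848402) (nat_lit 0) (p (nat_lit 0x160014) (nat_lit 0) (p (nat_lit 0x50612) (nat_lit 0) (p (nat_lit 0x40592) (nat_lit 0) (p (nat_lit 0x40492) (nat_lit 0) (p (nat_lit 0x30412) (nat_lit 0) (p (nat_lit 0x30212) (nat_lit 0) (p (nat_lit 0x20192) (nat_lit 0) (p (nat_lit 0x20092) (nat_lit 0) (p (nat_lit 0x10012) (nat_lit 0) pn))))))))))))))))))))))))))) :=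
  Cl.node (nat_lit 0x200004) (nat_lit 2) (by decide +kernel) (ClAll.succ (ClAll.succ ClAll.zero n238) s204)

def n288 : Cl (O (nat_lit 3)) (R (nat_lit 102673))
    (p (nat_lit 0xc9) (nat_lit 1) (p (nat_lit 0x89) (nat_lit 1) (p (nat_lit 0xc1) (nat_lit 0) (p (nat_lit 0x101) (nat_lit 1) (p (nat_lit 0x119) (nat_lit 0) (p (nat_lit 0xd1) (nat_lit 0) (p (nat_lit 0x81) (nat_lit 0) (p (nat_lit 0x41) (nat_lit 1) (p (nat_lit 0x898a0b090a9a) (nat_lit 0) (p (nat_lit 0x9098a888a1a) (nat_lit 0) (p (nat_lit 0x88890a08079a) (nat_lit 0) (p (nat_lit 0x8088987871a) (nat_lit 0) (p (nat_lit 0x80000800078907088a) (nat_lit 0) (p (nat_lit 0x80000800070886860a) (nat_lit 0) (p (nat_lit 0x8708060782) (nat_lit 0) (p (nat_lit 0x687858702) (nat_lit 0) (p (nat_lit 0x8607050482) (nat_lit 0) (p (nat_lit 0x586848402) (nat_lit 0) (p (nat_lit 0x160014) (nat_lit 0) (p (nat_lit 0x50612) (nat_lit 0) (p (nat_lit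 0x40592) (nat_lit 0) (p (nat_lit 0x40492) (nat_lit 0) (p (nat_lit 0x30412) (nat_lit 0) (p (nat_lit 0x30212) (nat_lit 0) (p (nat_lit 0x20192) (nat_lit 0) (p (nat_lit 0x20092) (nat_lit 0) (p (nat_lit 0x10012) (nat_lit 0) pn))))))))))))))))))))))))))) :=
  Cl.node (nat_lit 0x200004) (nat_lit 2) (by decide +kernel) (ClAll.succ (ClAll.succ ClAll.zero n239) s209)

def n289 : Cl (O (nat_lit 3)) (R (nat_lit 102673))
    (p (nat_lit 0x200004) (nat_lit 0) (p (nat_lit 0x89) (nat_lit 0) (p (nat_lit 0xc1) (nat_lit 1) (p (nat_lit 0x101) (nat_lit 1) (p (nat_lit 0x119) (nat_lit 0) (p (nat_lit 0xd1) (nat_lit 0) (p (nat_lit 0x81) (nat_lit 0) (p (nat_lit 0x41) (nat_lit 1) (p (nat_lit 0x898a0b090a9a) (nat_lit 0) (p (nat_lit 0x9098a888a1a) (nat_lit 0) (p (nat_lit 0x88890a08079a) (nat_lit 0) (p (nat_lit 0x8088987871a) (nat_lit 0) (p (nat_lit 0x80000800078907088a) (nat_lit 0) (p (nat_lit 0x80000800070886860a)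 (nat_lit 0) (p (nat_lit 0x8708060782) (nat_lit 0) (p (nat_lit 0x687858702) (nat_lit 0) (p (nat_lit 0x8607050482) (nat_lit 0) (p (nat_lit 0x586848402) (nat_lit 0) (p (nat_lit 0x160014) (nat_lit 0) (p (nat_lit 0x50612) (nat_lit 0) (p (nat_lit 0x40592) (nat_lit 0) (p (nat_lit 0x40492) (nat_lit 0) (p (nat_lit 0x30412) (nat_lit 0) (p (nat_lit 0x30212) (nat_lit 0) (p (nat_lit 0x20192) (nat_lit 0) (p (nat_lit 0x20092) (nat_lit 0) (p (nat_lit 0x10012) (nat_lit 0) pn))))))))))))))))))))))))))) :=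
  Cl.node (nat_lit 0x20000c) (nat_lit 2) (by decide +kernel) (ClAll.succ (ClAll.succ ClAll.zero n240) s213)

def n290 : Cl (O (nat_lit 3)) (R (nat_lit 102673))
    (p (nat_lit 0x200004) (nat_lit 0) (p (nat_lit 0x89) (nat_lit 1) (p (nat_lit 0xc1) (nat_lit 1) (p (nat_lit 0x101) (nat_lit 1) (p (nat_lit 0x119) (nat_lit 0) (p (nat_lit 0xd1) (nat_lit 0) (p (nat_lit 0x81) (nat_lit 0) (p (nat_lit 0x41) (nat_lit 1) (p (nat_lit 0x898a0b090a9a) (nat_lit 0) (p (nat_lit 0x9098a888a1a) (nat_lit 0) (p (nat_lit 0x88890a08079a) (nat_lit 0) (p (nat_lit 0x8088987871a) (nat_lit 0) (p (nat_lit 0x80000800078907088a) (nat_lit 0) (p (nat_lit 0x80000800070886860a) (nat_lit 0) (p (nat_lit 0x8708060782) (nat_lit 0) (p (nat_lit 0x687858702) (nat_lit 0) (p (nat_lit 0x8607050482) (nat_lit 0) (p (nat_lit 0x586848402) (nat_lit 0) (p (nat_lit 0x160014) (nat_lit 0) (p (nat_lit 0x50612) (nat_lit 0) (p (nat_lit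 0x40592) (nat_lit 0) (p (nat_lit 0x40492) (nat_lit 0) (p (nat_lit 0x30412) (nat_lit 0) (p (nat_lit 0x30212) (nat_lit 0) (p (nat_lit 0x20192) (nat_lit 0) (p (nat_lit 0x20092) (nat_lit 0) (p (nat_lit 0x10012) (nat_lit 0) pn))))))))))))))))))))))))))) :=
  Cl.node (nat_lit 0x20000c) (nat_lit 2) (by decide +kernel) (ClAll.succ (ClAll.succ ClAll.zero n241) s231)

def n291 : Cl (O (nat_lit 3)) (R (nat_lit 102673))
    (p (nat_lit 0x200004) (nat_lit 1) (p (nat_lit 0x89) (nat_lit 1) (p (nat_lit 0xc1) (nat_lit 1) (p (nat_lit 0x101) (nat_lit 1) (p (nat_lit 0x119) (nat_lit 0) (p (nat_lit 0xd1) (nat_lit 0) (p (nat_lit 0x81) (nat_lit 0) (p (nat_lit 0x41) (nat_lit 1) (p (nat_lit 0x898a0b090a9a) (nat_lit 0) (p (nat_lit 0x9098a888a1a) (nat_lit 0) (p (nat_lit 0x88890a08079a) (nat_lit 0) (p (nat_lit 0x8088987871a) (nat_lit 0) (p (nat_lit 0x80000800078907088a) (nat_lit 0) (p (nat_lit 0x80000800070886860a)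 (nat_lit 0) (p (nat_lit 0x8708060782) (nat_lit 0) (p (nat_lit 0x687858702) (nat_lit 0) (p (nat_lit 0x8607050482) (nat_lit 0) (p (nat_lit 0x586848402) (nat_lit 0) (p (nat_lit 0x160014) (nat_lit 0) (p (nat_lit 0x50612) (nat_lit 0) (p (nat_lit 0x40592) (nat_lit 0) (p (nat_lit 0x40492) (nat_lit 0) (p (nat_lit 0x30412) (nat_lit 0) (p (nat_lit 0x30212) (nat_lit 0) (p (nat_lit 0x20192) (nat_lit 0) (p (nat_lit 0x20092) (nat_lit 0) (p (nat_lit 0x10012) (nat_lit 0) pn))))))))))))))))))))))))))) :=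
  Cl.node (nat_lit 0xb0014) (nat_lit 2) (by decide +kernel) (ClAll.succ (ClAll.succ ClAll.zero n242) s235)

def n292 : Cl (O (nat_lit 3)) (R (nat_lit 102673))
    (p (nat_lit 0x109) (nat_lit 0) (p (nat_lit 0x89) (nat_lit 1) (p (nat_lit 0xc9) (nat_lit 1) (p (nat_lit 0xc1) (nat_lit 0) (p (nat_lit 0x119) (nat_lit 1) (p (nat_lit 0xd1) (nat_lit 0) (p (nat_lit 0x81) (nat_lit 0) (p (nat_lit 0x41) (nat_lit 1) (p (nat_lit 0x898a0b090a9a) (nat_lit 0) (p (nat_lit 0x9098a888a1a) (nat_lit 0) (p (nat_lit 0x88890a08079a) (nat_lit 0) (p (nat_lit 0x8088987871a) (nat_lit 0) (p (nat_lit 0x80000800078907088a) (nat_lit 0) (p (nat_lit 0x80000800070886860a) (nat_lit 0) (p (nat_lit 0x8708060782) (nat_lit 0) (p (nat_lit 0x687858702) (nat_lit 0) (p (nat_lit 0x8607050482) (nat_lit 0) (p (nat_lit 0x586848402) (nat_lit 0) (p (nat_lit 0x160014) (nat_lit 0) (p (nat_lit 0x50612) (nat_lit 0) (p (nat_lit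 0x40592) (nat_lit 0) (p (nat_lit 0x40492) (nat_lit 0) (p (nat_lit 0x30412) (nat_lit 0) (p (nat_lit 0x30212) (nat_lit 0) (p (nat_lit 0x20192) (nat_lit 0) (p (nat_lit 0x20092) (nat_lit 0) (p (nat_lit 0x10012) (nat_lit 0) pn))))))))))))))))))))))))))) :=
  Cl.node (nat_lit 0x200004) (nat_lit 2) (by decide +kernel) (ClAll.succ (ClAll.succ ClAll.zero n243) s241)

def n293 : Cl (O (nat_lit 3)) (R (nat_lit 102673))
    (p (nat_lit 0x109) (nat_lit 1) (p (nat_lit 0x89) (nat_lit 1) (p (nat_lit 0xc9) (nat_lit 1) (p (nat_lit 0xc1) (nat_lit 0) (p (nat_lit 0x119) (nat_lit 1) (p (nat_lit 0xd1) (nat_lit 0) (p (nat_lit 0x81) (nat_lit 0) (p (nat_lit 0x41) (nat_lit 1) (p (nat_lit 0x898a0b090a9a) (nat_lit 0) (p (nat_lit 0x9098a888a1a) (nat_lit 0) (p (nat_lit 0x88890a08079a) (nat_lit 0) (p (nat_lit 0x8088987871a) (nat_lit 0) (p (nat_lit 0x80000800078907088a) (nat_lit 0) (p (nat_lit 0x80000800070886860a)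 (nat_lit 0) (p (nat_lit 0x8708060782) (nat_lit 0) (p (nat_lit 0x687858702) (nat_lit 0) (p (nat_lit 0x8607050482) (nat_lit 0) (p (nat_lit 0x586848402) (nat_lit 0) (p (nat_lit 0x160014) (nat_lit 0) (p (nat_lit 0x50612) (nat_lit 0) (p (nat_lit 0x40592) (nat_lit 0) (p (nat_lit 0x40492) (nat_lit 0) (p (nat_lit 0x30412) (nat_lit 0) (p (nat_lit 0x30212) (nat_lit 0) (p (nat_lit 0x20192) (nat_lit 0) (p (nat_lit 0x20092) (nat_lit 0) (p (nat_lit 0x10012) (nat_lit 0) pn))))))))))))))))))))))))))) :=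
  Cl.node (nat_lit 0x200004) (nat_lit 2) (by decide +kernel) (ClAll.succ (ClAll.succ ClAll.zero s242) s243)

def n294 : Cl (O (nat_lit 3)) (R (nat_lit 102673))
    (p (nat_lit 0x109) (nat_lit 1) (p (nat_lit 0x89) (nat_lit 1) (p (nat_lit 0x101) (nat_lit 0) (p (nat_lit 0xc1) (nat_lit 1) (p (nat_lit 0x119) (nat_lit 1) (p (nat_lit 0xd1) (nat_lit 0) (p (nat_lit 0x81) (nat_lit 0) (p (nat_lit 0x41) (nat_lit 1) (p (nat_lit 0x898a0b090a9a) (nat_lit 0) (p (nat_lit 0x9098a888a1a) (nat_lit 0) (p (nat_lit 0x88890a08079a) (nat_lit 0) (p (nat_lit 0x8088987871a) (nat_lit 0) (p (nat_lit 0x80000800078907088a) (nat_lit 0) (p (nat_lit 0x80000800070886860a) (nat_lit 0) (p (nat_lit 0x8708060782) (nat_lit 0) (p (nat_lit 0x687858702) (nat_lit 0) (p (nat_lit 0x8607050482) (nat_lit 0) (p (nat_lit 0x586848402) (nat_lit 0) (p (nat_lit 0x160014) (nat_lit 0) (p (nat_lit 0x50612) (nat_lit 0) (p (nat_lit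 0x40592) (nat_lit 0) (p (nat_lit 0x40492) (nat_lit 0) (p (nat_lit 0x30412) (nat_lit 0) (p (nat_lit 0x30212) (nat_lit 0) (p (nat_lit 0x20192) (nat_lit 0) (p (nat_lit 0x20092) (nat_lit 0) (p (nat_lit 0x10012) (nat_lit 0) pn))))))))))))))))))))))))))) :=
  Cl.node (nat_lit 0x200004) (nat_lit 2) (by decide +kernel) (ClAll.succ (ClAll.succ ClAll.zero n244) s249)

def n295 : Cl (O (nat_lit 3)) (R (nat_lit 102673))
    (p (nat_lit 0x200004) (nat_lit 0) (p (nat_lit 0x89) (nat_lit 1) (p (nat_lit 0x101) (nat_lit 1) (p (nat_lit 0xc1) (nat_lit 1) (p (nat_lit 0x119) (nat_lit 1) (p (nat_lit 0xd1) (nat_lit 0) (p (nat_lit 0x81) (nat_lit 0) (p (nat_lit 0x41) (nat_lit 1) (p (nat_lit 0x898a0b090a9a) (nat_lit 0) (p (nat_lit 0x9098a888a1a) (nat_lit 0) (p (nat_lit 0x88890a08079a) (nat_lit 0) (p (nat_lit 0x8088987871a) (nat_lit 0) (p (nat_lit 0x80000800078907088a) (nat_lit 0) (p (nat_lit 0x80000800070886860a)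 (nat_lit 0) (p (nat_lit 0x8708060782) (nat_lit 0) (p (nat_lit 0x687858702) (nat_lit 0) (p (nat_lit 0x8607050482) (nat_lit 0) (p (nat_lit 0x586848402) (nat_lit 0) (p (nat_lit 0x160014) (nat_lit 0) (p (nat_lit 0x50612) (nat_lit 0) (p (nat_lit 0x40592) (nat_lit 0) (p (nat_lit 0x40492) (nat_lit 0) (p (nat_lit 0x30412) (nat_lit 0) (p (nat_lit 0x30212) (nat_lit 0) (p (nat_lit 0x20192) (nat_lit 0) (p (nat_lit 0x20092) (nat_lit 0) (p (nat_lit 0x10012) (nat_lit 0) pn))))))))))))))))))))))))))) :=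
  Cl.node (nat_lit 0x20000c) (nat_lit 2) (by decide +kernel) (ClAll.succ (ClAll.succ ClAll.zero n245) s257)

def n296 : Cl (O (nat_lit 3)) (R (nat_lit 102673))
    (p (nat_lit 0x200004) (nat_lit 1) (p (nat_lit 0x89) (nat_lit 1) (p (nat_lit 0x101) (nat_lit 1) (p (nat_lit 0xc1) (nat_lit 1) (p (nat_lit 0x119) (nat_lit 1) (p (nat_lit 0xd1) (nat_lit 0) (p (nat_lit 0x81) (nat_lit 0) (p (nat_lit 0x41) (nat_lit 1) (p (nat_lit 0x898a0b090a9a) (nat_lit 0) (p (nat_lit 0x9098a888a1a) (nat_lit 0) (p (nat_lit 0x88890a08079a) (nat_lit 0) (p (nat_lit 0x8088987871a) (nat_lit 0) (p (nat_lit 0x80000800078907088a) (nat_lit 0) (p (nat_lit 0x80000800070886860a) (nat_lit 0) (p (nat_lit 0x8708060782) (nat_lit 0) (p (nat_lit 0x687858702) (nat_lit 0) (p (nat_lit 0x8607050482) (nat_lit 0) (p (nat_lit 0x586848402) (nat_lit 0) (p (nat_lit 0x160014) (nat_lit 0) (p (nat_lit 0x50612) (nat_lit 0) (p (nat_lit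 0x40592) (nat_lit 0) (p (nat_lit 0x40492) (nat_lit 0) (p (nat_lit 0x30412) (nat_lit 0) (p (nat_lit 0x30212) (nat_lit 0) (p (nat_lit 0x20192) (nat_lit 0) (p (nat_lit 0x20092) (nat_lit 0) (p (nat_lit 0x10012) (nat_lit 0) pn))))))))))))))))))))))))))) :=
  Cl.node (nat_lit 0xb0014) (nat_lit 2) (by decide +kernel) (ClAll.succ (ClAll.succ ClAll.zero n246) s260)

def n297 : Cl (O (nat_lit 3)) (R (nat_lit 102673))
    (p (nat_lit 0xc9) (nat_lit 0) (p (nat_lit 0x89) (nat_lit 1) (p (nat_lit 0x109) (nat_lit 1) (p (nat_lit 0x101) (nat_lit 0) (p (nat_lit 0x111) (nat_lit 0) (p (nat_lit 0xd1) (nat_lit 1) (p (nat_lit 0x81) (nat_lit 0) (p (nat_lit 0x41) (nat_lit 1) (p (nat_lit 0x898a0b090a9a) (nat_lit 0) (p (nat_lit 0x9098a888a1a) (nat_lit 0) (p (nat_lit 0x88890a08079a) (nat_lit 0) (p (nat_lit 0x8088987871a) (nat_lit 0) (p (nat_lit 0x80000800078907088a) (nat_lit 0) (p (nat_lit 0x80000800070886860a)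 (nat_lit 0) (p (nat_lit 0x8708060782) (nat_lit 0) (p (nat_lit 0x687858702) (nat_lit 0) (p (nat_lit 0x8607050482) (nat_lit 0) (p (nat_lit 0x586848402) (nat_lit 0) (p (nat_lit 0x160014) (nat_lit 0) (p (nat_lit 0x50612) (nat_lit 0) (p (nat_lit 0x40592) (nat_lit 0) (p (nat_lit 0x40492) (nat_lit 0) (p (nat_lit 0x30412) (nat_lit 0) (p (nat_lit 0x30212) (nat_lit 0) (p (nat_lit 0x20192) (nat_lit 0) (p (nat_lit 0x20092) (nat_lit 0) (p (nat_lit 0x10012) (nat_lit 0) pn))))))))))))))))))))))))))) :=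
  Cl.node (nat_lit 0x200004) (nat_lit 2) (by decide +kernel) (ClAll.succ (ClAll.succ ClAll.zero n247) s280)

def n298 : Cl (O (nat_lit 3)) (R (nat_lit 102673))
    (p (nat_lit 0x20000c) (nat_lit 0) (p (nat_lit 0x200004) (nat_lit 0) (p (nat_lit 0x89) (nat_lit 0) (p (nat_lit 0x101) (nat_lit 1) (p (nat_lit 0x111) (nat_lit 0) (p (nat_lit 0xd1) (nat_lit 1) (p (nat_lit 0x81) (nat_lit 0) (p (nat_lit 0x41) (nat_lit 1) (p (nat_lit 0x898a0b090a9a) (nat_lit 0) (p (nat_lit 0x9098a888a1a) (nat_lit 0) (p (nat_lit 0x88890a08079a) (nat_lit 0) (p (nat_lit 0x8088987871a) (nat_lit 0) (p (nat_lit 0x80000800078907088a) (nat_lit 0) (p (nat_lit 0x80000800070886860a) (nat_lit 0) (p (nat_lit 0x8708060782) (nat_lit 0) (p (nat_lit 0x687858702) (nat_lit 0) (p (nat_lit 0x8607050482) (nat_lit 0) (p (nat_lit 0x586848402) (nat_lit 0) (p (nat_lit 0x160014) (nat_lit 0) (p (nat_lit 0x50612) (nat_lit 0) (p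 (nat_lit 0x40592) (nat_lit 0) (p (nat_lit 0x40492) (nat_lit 0) (p (nat_lit 0x30412) (nat_lit 0) (p (nat_lit 0x30212) (nat_lit 0) (p (nat_lit 0x20192) (nat_lit 0) (p (nat_lit 0x20092) (nat_lit 0) (p (nat_lit 0x10012) (nat_lit 0) pn))))))))))))))))))))))))))) :=
  Cl.node (nat_lit 0xb0014) (nat_lit 2) (by decide +kernel) (ClAll.succ (ClAll.succ ClAll.zero n248) n249)

def n299 : Cl (O (nat_lit 3)) (R (nat_lit 102673))
    (p (nat_lit 0x200004) (nat_lit 0) (p (nat_lit 0xc9) (nat_lit 0) (p (nat_lit 0x89) (nat_lit 1) (p (nat_lit 0x101) (nat_lit 1) (p (nat_lit 0x111) (nat_lit 0) (p (nat_lit 0xd1) (nat_lit 1) (p (nat_lit 0x81) (nat_lit 0) (p (nat_lit 0x41) (nat_lit 1) (p (nat_lit 0x898a0b090a9a) (nat_lit 0) (p (nat_lit 0x9098a888a1a) (nat_lit 0) (p (nat_lit 0x88890a08079a) (nat_lit 0) (p (nat_lit 0x8088987871a) (nat_lit 0) (p (nat_lit 0x80000800078907088a) (nat_lit 0) (p (nat_lit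 0x80000800070886860a) (nat_lit 0) (p (nat_lit 0x8708060782) (nat_lit 0) (p (nat_lit 0x687858702) (nat_lit 0) (p (nat_lit 0x8607050482) (nat_lit 0) (p (nat_lit 0x586848402) (nat_lit 0) (p (nat_lit 0x160014) (nat_lit 0) (p (nat_lit 0x50612) (nat_lit 0) (p (nat_lit 0x40592) (nat_lit 0) (p (nat_lit 0x40492) (nat_lit 0) (p (nat_lit 0x30412) (nat_lit 0) (p (nat_lit 0x30212) (nat_lit 0) (p (nat_lit 0x20192) (nat_lit 0) (p (nat_lit 0x20092) (nat_lit 0) (p (nat_lit 0x10012) (nat_lit 0) pn))))))))))))))))))))))))))) :=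
  Cl.node (nat_lit 0x20000c) (nat_lit 2) (by decide +kernel) (ClAll.succ (ClAll.succ ClAll.zero n250) s308)

def n300 : Cl (O (nat_lit 3)) (R (nat_lit 102673))
    (p (nat_lit 0x200004) (nat_lit 1) (p (nat_lit 0xc9) (nat_lit 0) (p (nat_lit 0x89) (nat_lit 1) (p (nat_lit 0x101) (nat_lit 1) (p (nat_lit 0x111) (nat_lit 0) (p (nat_lit 0xd1) (nat_lit 1) (p (nat_lit 0x81) (nat_lit 0) (p (nat_lit 0x41) (nat_lit 1) (p (nat_lit 0x898a0b090a9a) (nat_lit 0) (p (nat_lit 0x9098a888a1a) (nat_lit 0) (p (nat_lit 0x88890a08079a) (nat_lit 0) (p (nat_lit 0x8088987871a) (nat_lit 0) (p (nat_lit 0x80000800078907088a) (nat_lit 0) (p (nat_lit 0x80000800070886860a) (nat_lit 0) (p (nat_lit 0x8708060782) (nat_lit 0) (p (nat_lit 0x687858702) (nat_lit 0) (p (nat_lit 0x8607050482) (nat_lit 0) (p (nat_lit 0x586848402) (nat_lit 0) (p (nat_lit 0x160014) (nat_lit 0) (p (nat_lit 0x50612) (nat_lit 0) (p (nat_lit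 0x40592) (nat_lit 0) (p (nat_lit 0x40492) (nat_lit 0) (p (nat_lit 0x30412) (nat_lit 0) (p (nat_lit 0x30212) (nat_lit 0) (p (nat_lit 0x20192) (nat_lit 0) (p (nat_lit 0x20092) (nat_lit 0) (p (nat_lit 0x10012) (nat_lit 0) pn))))))))))))))))))))))))))) :=
  Cl.node (nat_lit 0xb0014) (nat_lit 2) (by decide +kernel) (ClAll.succ (ClAll.succ ClAll.zero n251) s312)

def n301 : Cl (O (nat_lit 3)) (R (nat_lit 102673))
    (p (nat_lit 0x200004) (nat_lit 0) (p (nat_lit 0x109) (nat_lit 0) (p (nat_lit 0xc9) (nat_lit 1) (p (nat_lit 0x89) (nat_lit 1) (p (nat_lit 0x111) (nat_lit 1) (p (nat_lit 0xd1) (nat_lit 1) (p (nat_lit 0x81) (nat_lit 0) (p (nat_lit 0x41) (nat_lit 1) (p (nat_lit 0x898a0b090a9a) (nat_lit 0) (p (nat_lit 0x9098a888a1a) (nat_lit 0) (p (nat_lit 0x88890a08079a) (nat_lit 0) (p (nat_lit 0x8088987871a) (nat_lit 0) (p (nat_lit 0x80000800078907088a) (nat_lit 0) (p (nat_lit 0x80000800070886860a)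 (nat_lit 0) (p (nat_lit 0x8708060782) (nat_lit 0) (p (nat_lit 0x687858702) (nat_lit 0) (p (nat_lit 0x8607050482) (nat_lit 0) (p (nat_lit 0x586848402) (nat_lit 0) (p (nat_lit 0x160014) (nat_lit 0) (p (nat_lit 0x50612) (nat_lit 0) (p (nat_lit 0x40592) (nat_lit 0) (p (nat_lit 0x40492) (nat_lit 0) (p (nat_lit 0x30412) (nat_lit 0) (p (nat_lit 0x30212) (nat_lit 0) (p (nat_lit 0x20192) (nat_lit 0) (p (nat_lit 0x20092) (nat_lit 0) (p (nat_lit 0x10012) (nat_lit 0) pn))))))))))))))))))))))))))) :=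
  Cl.node (nat_lit 0x20000c) (nat_lit 2) (by decide +kernel) (ClAll.succ (ClAll.succ ClAll.zero n252) s321)

def n302 : Cl (O (nat_lit 3)) (R (nat_lit 102673))
    (p (nat_lit 0xd1) (nat_lit 1) (p (nat_lit 0x111) (nat_lit 1) (p (nat_lit 0x109) (nat_lit 0) (p (nat_lit 0x101) (nat_lit 0) (p (nat_lit 0x119) (nat_lit 0) (p (nat_lit 0xc1) (nat_lit 0) (p (nat_lit 0x81) (nat_lit 1) (p (nat_lit 0x41) (nat_lit 1) (p (nat_lit 0x898a0b090a9a) (nat_lit 0) (p (nat_lit 0x9098a888a1a) (nat_lit 0) (p (nat_lit 0x88890a08079a) (nat_lit 0) (p (nat_lit 0x8088987871a) (nat_lit 0) (p (nat_lit 0x80000800078907088a) (nat_lit 0) (p (nat_lit 0x80000800070886860a) (nat_lit 0) (p (nat_lit 0x8708060782) (nat_lit 0) (p (nat_lit 0x687858702) (nat_lit 0) (p (nat_lit 0x8607050482) (nat_lit 0) (p (nat_lit 0x586848402) (nat_lit 0) (p (nat_lit 0x160014) (nat_lit 0) (p (nat_lit 0x50612) (nat_lit 0) (p (nat_lit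 0x40592) (nat_lit 0) (p (nat_lit 0x40492) (nat_lit 0) (p (nat_lit 0x30412) (nat_lit 0) (p (nat_lit 0x30212) (nat_lit 0) (p (nat_lit 0x20192) (nat_lit 0) (p (nat_lit 0x20092) (nat_lit 0) (p (nat_lit 0x10012) (nat_lit 0) pn))))))))))))))))))))))))))) :=
  Cl.node (nat_lit 0x200004) (nat_lit 2) (by decide +kernel) (ClAll.succ (ClAll.succ ClAll.zero n253) s330)

def n303 : Cl (O (nat_lit 3)) (R (nat_lit 102673))
    (p (nat_lit 0xd1) (nat_lit 1) (p (nat_lit 0xc9) (nat_lit 0) (p (nat_lit 0x109) (nat_lit 1) (p (nat_lit 0x101) (nat_lit 0) (p (nat_lit 0x119) (nat_lit 0) (p (nat_lit 0xc1) (nat_lit 0) (p (nat_lit 0x81) (nat_lit 1) (p (nat_lit 0x41) (nat_lit 1) (p (nat_lit 0x898a0b090a9a) (nat_lit 0) (p (nat_lit 0x9098a888a1a) (nat_lit 0) (p (nat_lit 0x88890a08079a) (nat_lit 0) (p (nat_lit 0x8088987871a) (nat_lit 0) (p (nat_lit 0x80000800078907088a) (nat_lit 0) (p (nat_lit 0x80000800070886860a)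 (nat_lit 0) (p (nat_lit 0x8708060782) (nat_lit 0) (p (nat_lit 0x687858702) (nat_lit 0) (p (nat_lit 0x8607050482) (nat_lit 0) (p (nat_lit 0x586848402) (nat_lit 0) (p (nat_lit 0x160014) (nat_lit 0) (p (nat_lit 0x50612) (nat_lit 0) (p (nat_lit 0x40592) (nat_lit 0) (p (nat_lit 0x40492) (nat_lit 0) (p (nat_lit 0x30412) (nat_lit 0) (p (nat_lit 0x30212) (nat_lit 0) (p (nat_lit 0x20192) (nat_lit 0) (p (nat_lit 0x20092) (nat_lit 0) (p (nat_lit 0x10012) (nat_lit 0) pn))))))))))))))))))))))))))) :=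
  Cl.node (nat_lit 0x200004) (nat_lit 2) (by decide +kernel) (ClAll.succ (ClAll.succ ClAll.zero n254) s335)

def n304 : Cl (O (nat_lit 3)) (R (nat_lit 102673))
    (p (nat_lit 0x200004) (nat_lit 0) (p (nat_lit 0xd1) (nat_lit 0) (p (nat_lit 0xc9) (nat_lit 0) (p (nat_lit 0x101) (nat_lit 1) (p (nat_lit 0x119) (nat_lit 0) (p (nat_lit 0xc1) (nat_lit 0) (p (nat_lit 0x81) (nat_lit 1) (p (nat_lit 0x41) (nat_lit 1) (p (nat_lit 0x898a0b090a9a) (nat_lit 0) (p (nat_lit 0x9098a888a1a) (nat_lit 0) (p (nat_lit 0x88890a08079a) (nat_lit 0) (p (nat_lit 0x8088987871a) (nat_lit 0) (p (nat_lit 0x80000800078907088a) (nat_lit 0) (p (nat_lit 0x80000800070886860a) (nat_lit 0) (p (nat_lit 0x8708060782) (nat_lit 0) (p (nat_lit 0x687858702) (nat_lit 0) (p (nat_lit 0x8607050482) (nat_lit 0) (p (nat_lit 0x586848402) (nat_lit 0) (p (nat_lit 0x160014) (nat_lit 0) (p (nat_lit 0x50612) (nat_lit 0) (p (nat_lit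 0x40592) (nat_lit 0) (p (nat_lit 0x40492) (nat_lit 0) (p (nat_lit 0x30412) (nat_lit 0) (p (nat_lit 0x30212) (nat_lit 0) (p (nat_lit 0x20192) (nat_lit 0) (p (nat_lit 0x20092) (nat_lit 0) (p (nat_lit 0x10012) (nat_lit 0) pn))))))))))))))))))))))))))) :=
  Cl.node (nat_lit 0x20000c) (nat_lit 2) (by decide +kernel) (ClAll.succ (ClAll.succ ClAll.zero n255) s339)

def n305 : Cl (O (nat_lit 3)) (R (nat_lit 102673))
    (p (nat_lit 0x200004) (nat_lit 0) (p (nat_lit 0xd1) (nat_lit 1) (p (nat_lit 0xc9) (nat_lit 0) (p (nat_lit 0x101) (nat_lit 1) (p (nat_lit 0x119) (nat_lit 0) (p (nat_lit 0xc1) (nat_lit 0) (p (nat_lit 0x81) (nat_lit 1) (p (nat_lit 0x41) (nat_lit 1) (p (nat_lit 0x898a0b090a9a) (nat_lit 0) (p (nat_lit 0x9098a888a1a) (nat_lit 0) (p (nat_lit 0x88890a08079a) (nat_lit 0) (p (nat_lit 0x8088987871a) (nat_lit 0) (p (nat_lit 0x80000800078907088a) (nat_lit 0) (p (nat_lit 0x80000800070886860a)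 (nat_lit 0) (p (nat_lit 0x8708060782) (nat_lit 0) (p (nat_lit 0x687858702) (nat_lit 0) (p (nat_lit 0x8607050482) (nat_lit 0) (p (nat_lit 0x586848402) (nat_lit 0) (p (nat_lit 0x160014) (nat_lit 0) (p (nat_lit 0x50612) (nat_lit 0) (p (nat_lit 0x40592) (nat_lit 0) (p (nat_lit 0x40492) (nat_lit 0) (p (nat_lit 0x30412) (nat_lit 0) (p (nat_lit 0x30212) (nat_lit 0) (p (nat_lit 0x20192) (nat_lit 0) (p (nat_lit 0x20092) (nat_lit 0) (p (nat_lit 0x10012) (nat_lit 0) pn))))))))))))))))))))))))))) :=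
  Cl.node (nat_lit 0x20000c) (nat_lit 2) (by decide +kernel) (ClAll.succ (ClAll.succ ClAll.zero n256) s345)

def n306 : Cl (O (nat_lit 3)) (R (nat_lit 102673))
    (p (nat_lit 0x200004) (nat_lit 0) (p (nat_lit 0x111) (nat_lit 1) (p (nat_lit 0xd1) (nat_lit 1) (p (nat_lit 0xc9) (nat_lit 0) (p (nat_lit 0x119) (nat_lit 1) (p (nat_lit 0xc1) (nat_lit 0) (p (nat_lit 0x81) (nat_lit 1) (p (nat_lit 0x41) (nat_lit 1) (p (nat_lit 0x898a0b090a9a) (nat_lit 0) (p (nat_lit 0x9098a888a1a) (nat_lit 0) (p (nat_lit 0x88890a08079a) (nat_lit 0) (p (nat_lit 0x8088987871a) (nat_lit 0) (p (nat_lit 0x80000800078907088a) (nat_lit 0) (p (nat_lit 0x80000800070886860a) (nat_lit 0) (p (nat_lit 0x8708060782) (nat_lit 0) (p (nat_lit 0x687858702) (nat_lit 0) (p (nat_lit 0x8607050482) (nat_lit 0) (p (nat_lit 0x586848402) (nat_lit 0) (p (nat_lit 0x160014) (nat_lit 0) (p (nat_lit 0x50612) (nat_lit 0) (p (nat_lit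 0x40592) (nat_lit 0) (p (nat_lit 0x40492) (nat_lit 0) (p (nat_lit 0x30412) (nat_lit 0) (p (nat_lit 0x30212) (nat_lit 0) (p (nat_lit 0x20192) (nat_lit 0) (p (nat_lit 0x20092) (nat_lit 0) (p (nat_lit 0x10012) (nat_lit 0) pn))))))))))))))))))))))))))) :=
  Cl.node (nat_lit 0x20000c) (nat_lit 2) (by decide +kernel) (ClAll.succ (ClAll.succ ClAll.zero n257) s353)

def n307 : Cl (O (nat_lit 3)) (R (nat_lit 102673))
    (p (nat_lit 0x200004) (nat_lit 0) (p (nat_lit 0x111) (nat_lit 0) (p (nat_lit 0x109) (nat_lit 0) (p (nat_lit 0xc9) (nat_lit 1) (p (nat_lit 0x119) (nat_lit 1) (p (nat_lit 0xc1) (nat_lit 0) (p (nat_lit 0x81) (nat_lit 1) (p (nat_lit 0x41) (nat_lit 1) (p (nat_lit 0x898a0b090a9a) (nat_lit 0) (p (nat_lit 0x9098a888a1a) (nat_lit 0) (p (nat_lit 0x88890a08079a) (nat_lit 0) (p (nat_lit 0x8088987871a) (nat_lit 0) (p (nat_lit 0x80000800078907088a) (nat_lit 0) (p (nat_lit 0x80000800070886860a)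 (nat_lit 0) (p (nat_lit 0x8708060782) (nat_lit 0) (p (nat_lit 0x687858702) (nat_lit 0) (p (nat_lit 0x8607050482) (nat_lit 0) (p (nat_lit 0x586848402) (nat_lit 0) (p (nat_lit 0x160014) (nat_lit 0) (p (nat_lit 0x50612) (nat_lit 0) (p (nat_lit 0x40592) (nat_lit 0) (p (nat_lit 0x40492) (nat_lit 0) (p (nat_lit 0x30412) (nat_lit 0) (p (nat_lit 0x30212) (nat_lit 0) (p (nat_lit 0x20192) (nat_lit 0) (p (nat_lit 0x20092) (nat_lit 0) (p (nat_lit 0x10012) (nat_lit 0) pn))))))))))))))))))))))))))) :=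
  Cl.node (nat_lit 0x20000c) (nat_lit 2) (by decide +kernel) (ClAll.succ (ClAll.succ ClAll.zero n258) s357)

def n308 : Cl (O (nat_lit 3)) (R (nat_lit 102673))
    (p (nat_lit 0x200004) (nat_lit 0) (p (nat_lit 0x111) (nat_lit 1) (p (nat_lit 0x109) (nat_lit 0) (p (nat_lit 0xc9) (nat_lit 1) (p (nat_lit 0x119) (nat_lit 1) (p (nat_lit 0xc1) (nat_lit 0) (p (nat_lit 0x81) (nat_lit 1) (p (nat_lit 0x41) (nat_lit 1) (p (nat_lit 0x898a0b090a9a) (nat_lit 0) (p (nat_lit 0x9098a888a1a) (nat_lit 0) (p (nat_lit 0x88890a08079a) (nat_lit 0) (p (nat_lit 0x8088987871a) (nat_lit 0) (p (nat_lit 0x80000800078907088a) (nat_lit 0) (p (nat_lit 0x80000800070886860a) (nat_lit 0) (p (nat_lit 0x8708060782) (nat_lit 0) (p (nat_lit 0x687858702) (nat_lit 0) (p (nat_lit 0x8607050482) (nat_lit 0) (p (nat_lit 0x586848402) (nat_lit 0) (p (nat_lit 0x160014) (nat_lit 0) (p (nat_lit 0x50612) (nat_lit 0) (p (nat_lit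 0x40592) (nat_lit 0) (p (nat_lit 0x40492) (nat_lit 0) (p (nat_lit 0x30412) (nat_lit 0) (p (nat_lit 0x30212) (nat_lit 0) (p (nat_lit 0x20192) (nat_lit 0) (p (nat_lit 0x20092) (nat_lit 0) (p (nat_lit 0x10012) (nat_lit 0) pn))))))))))))))))))))))))))) :=
  Cl.node (nat_lit 0x20000c) (nat_lit 2) (by decide +kernel) (ClAll.succ (ClAll.succ ClAll.zero n259) s361)

def n309 : Cl (O (nat_lit 3)) (R (nat_lit 102673))
    (p (nat_lit 0xc9) (nat_lit 1) (p (nat_lit 0x109) (nat_lit 1) (p (nat_lit 0x101) (nat_lit 0) (p (nat_lit 0x119) (nat_lit 0) (p (nat_lit 0xd1) (nat_lit 0) (p (nat_lit 0x89) (nat_lit 0) (p (nat_lit 0x41) (nat_lit 0) (p (nat_lit 0x898a0b090a9a) (nat_lit 0) (p (nat_lit 0x9098a888a1a) (nat_lit 0) (p (nat_lit 0x88890a08079a) (nat_lit 0) (p (nat_lit 0x8088987871a) (nat_lit 0) (p (nat_lit 0x80000800078907088a) (nat_lit 0) (p (nat_lit 0x80000800070886860a) (nat_lit 0) (p (nat_lit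 0x8708060782) (nat_lit 0) (p (nat_lit 0x687858702) (nat_lit 0) (p (nat_lit 0x8607050482) (nat_lit 0) (p (nat_lit 0x586848402) (nat_lit 0) (p (nat_lit 0x160014) (nat_lit 0) (p (nat_lit 0x50612) (nat_lit 0) (p (nat_lit 0x40592) (nat_lit 0) (p (nat_lit 0x40492) (nat_lit 0) (p (nat_lit 0x30412) (nat_lit 0) (p (nat_lit 0x30212) (nat_lit 0) (p (nat_lit 0x20192) (nat_lit 0) (p (nat_lit 0x20092) (nat_lit 0) (p (nat_lit 0x10012) (nat_lit 0) pn)))))))))))))))))))))))))) :=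
  Cl.node (nat_lit 0x200004) (nat_lit 2) (by decide +kernel) (ClAll.succ (ClAll.succ ClAll.zero n260) s6)

def n310 : Cl (O (nat_lit 3)) (R (nat_lit 102673))
    (p (nat_lit 0xc9) (nat_lit 0) (p (nat_lit 0x81) (nat_lit 0) (p (nat_lit 0x101) (nat_lit 1) (p (nat_lit 0x119) (nat_lit 0) (p (nat_lit 0xd1) (nat_lit 0) (p (nat_lit 0x89) (nat_lit 0) (p (nat_lit 0x41) (nat_lit 0) (p (nat_lit 0x898a0b090a9a) (nat_lit 0) (p (nat_lit 0x9098a888a1a) (nat_lit 0) (p (nat_lit 0x88890a08079a) (nat_lit 0) (p (nat_lit 0x8088987871a) (nat_lit 0) (p (nat_lit 0x80000800078907088a) (nat_lit 0) (p (nat_lit 0x80000800070886860a) (nat_lit 0) (p (nat_lit 0x8708060782) (nat_lit 0) (p (nat_lit 0x687858702) (nat_lit 0) (p (nat_lit 0x8607050482) (nat_lit 0) (p (nat_lit 0x586848402) (nat_lit 0) (p (nat_lit 0x160014) (nat_lit 0) (p (nat_lit 0x50612) (nat_lit 0) (p (nat_lit 0x40592) (nat_lit 0) (p (nat_lit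 0x40492) (nat_lit 0) (p (nat_lit 0x30412) (nat_lit 0) (p (nat_lit 0x30212) (nat_lit 0) (p (nat_lit 0x20192) (nat_lit 0) (p (nat_lit 0x20092) (nat_lit 0) (p (nat_lit 0x10012) (nat_lit 0) pn)))))))))))))))))))))))))) :=
  Cl.node (nat_lit 0x200004) (nat_lit 2) (by decide +kernel) (ClAll.succ (ClAll.succ ClAll.zero n261) s11)

def n311 : Cl (O (nat_lit 3)) (R (nat_lit 102673))
    (p (nat_lit 0xc9) (nat_lit 1) (p (nat_lit 0x81) (nat_lit 0) (p (nat_lit 0x101) (nat_lit 1) (p (nat_lit 0x119) (nat_lit 0) (p (nat_lit 0xd1) (nat_lit 0) (p (nat_lit 0x89) (nat_lit 0) (p (nat_lit 0x41) (nat_lit 0) (p (nat_lit 0x898a0b090a9a) (nat_lit 0) (p (nat_lit 0x9098a888a1a) (nat_lit 0) (p (nat_lit 0x88890a08079a) (nat_lit 0) (p (nat_lit 0x8088987871a) (nat_lit 0) (p (nat_lit 0x80000800078907088a) (nat_lit 0) (p (nat_lit 0x80000800070886860a) (nat_lit 0) (p (nat_lit 0x8708060782) (nat_lit 0) (p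 (nat_lit 0x687858702) (nat_lit 0) (p (nat_lit 0x8607050482) (nat_lit 0) (p (nat_lit 0x586848402) (nat_lit 0) (p (nat_lit 0x160014) (nat_lit 0) (p (nat_lit 0x50612) (nat_lit 0) (p (nat_lit 0x40592) (nat_lit 0) (p (nat_lit 0x40492) (nat_lit 0) (p (nat_lit 0x30412) (nat_lit 0) (p (nat_lit 0x30212) (nat_lit 0) (p (nat_lit 0x20192) (nat_lit 0) (p (nat_lit 0x20092) (nat_lit 0) (p (nat_lit 0x10012) (nat_lit 0) pn)))))))))))))))))))))))))) :=
  Cl.node (nat_lit 0x200004) (nat_lit 2) (by decide +kernel) (ClAll.succ (ClAll.succ ClAll.zero n262) s27)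

def n312 : Cl (O (nat_lit 3)) (R (nat_lit 102673))
    (p (nat_lit 0xc1) (nat_lit 0) (p (nat_lit 0x81) (nat_lit 1) (p (nat_lit 0x101) (nat_lit 1) (p (nat_lit 0x119) (nat_lit 0) (p (nat_lit 0xd1) (nat_lit 0) (p (nat_lit 0x89) (nat_lit 0) (p (nat_lit 0x41) (nat_lit 0) (p (nat_lit 0x898a0b090a9a) (nat_lit 0) (p (nat_lit 0x9098a888a1a) (nat_lit 0) (p (nat_lit 0x88890a08079a) (nat_lit 0) (p (nat_lit 0x8088987871a) (nat_lit 0) (p (nat_lit 0x80000800078907088a) (nat_lit 0) (p (nat_lit 0x80000800070886860a) (nat_lit 0) (p (nat_lit 0x8708060782) (nat_lit 0) (p (nat_lit 0x687858702) (nat_lit 0) (p (nat_lit 0x8607050482) (nat_lit 0) (p (nat_lit 0x586848402) (nat_lit 0) (p (nat_lit 0x160014) (nat_lit 0) (p (nat_lit 0x50612) (nat_lit 0) (p (nat_lit 0x40592) (nat_lit 0) (p (nat_lit 0x40492) (nat_lit 0) (p (nat_lit 0x30412) (nat_lit 0) (p (nat_lit 0x30212) (nat_lit 0) (p (nat_lit 0x20192)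 (nat_lit 0) (p (nat_lit 0x20092) (nat_lit 0) (p (nat_lit 0x10012) (nat_lit 0) pn)))))))))))))))))))))))))) :=
  Cl.node (nat_lit 0xc9) (nat_lit 2) (by decide +kernel) (ClAll.succ (ClAll.succ ClAll.zero n263) n264)

def n313 : Cl (O (nat_lit 3)) (R (nat_lit 102673))
    (p (nat_lit 0x109) (nat_lit 1) (p (nat_lit 0xc9) (nat_lit 1) (p (nat_lit 0xc1) (nat_lit 0) (p (nat_lit 0x119) (nat_lit 1) (p (nat_lit 0xd1) (nat_lit 0) (p (nat_lit 0x89) (nat_lit 0) (p (nat_lit 0x41) (nat_lit 0) (p (nat_lit 0x898a0b090a9a) (nat_lit 0) (p (nat_lit 0x9098a888a1a) (nat_lit 0) (p (nat_lit 0x88890a08079a) (nat_lit 0) (p (nat_lit 0x8088987871a) (nat_lit 0) (p (nat_lit 0x80000800078907088a) (nat_lit 0) (p (nat_lit 0x80000800070886860a) (nat_lit 0) (p (nat_lit 0x8708060782) (nat_lit 0) (p (nat_lit 0x687858702) (nat_lit 0) (p (nat_lit 0x8607050482) (nat_lit 0) (p (nat_lit 0x586848402) (nat_lit 0) (p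 (nat_lit 0x160014) (nat_lit 0) (p (nat_lit 0x50612) (nat_lit 0) (p (nat_lit 0x40592) (nat_lit 0) (p (nat_lit 0x40492) (nat_lit 0) (p (nat_lit 0x30412) (nat_lit 0) (p (nat_lit 0x30212) (nat_lit 0) (p (nat_lit 0x20192) (nat_lit 0) (p (nat_lit 0x20092) (nat_lit 0) (p (nat_lit 0x10012) (nat_lit 0) pn)))))))))))))))))))))))))) :=
  Cl.node (nat_lit 0x200004) (nat_lit 2) (by decide +kernel) (ClAll.succ (ClAll.succ ClAll.zero n265) s53)

def n314 : Cl (O (nat_lit 3)) (R (nat_lit 102673))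
    (p (nat_lit 0x109) (nat_lit 1) (p (nat_lit 0x81) (nat_lit 0) (p (nat_lit 0xc1) (nat_lit 1) (p (nat_lit 0x119) (nat_lit 1) (p (nat_lit 0xd1) (nat_lit 0) (p (nat_lit 0x89) (nat_lit 0) (p (nat_lit 0x41) (nat_lit 0) (p (nat_lit 0x898a0b090a9a) (nat_lit 0) (p (nat_lit 0x9098a888a1a) (nat_lit 0) (p (nat_lit 0x88890a08079a) (nat_lit 0) (p (nat_lit 0x8088987871a) (nat_lit 0) (p (nat_lit 0x80000800078907088a) (nat_lit 0) (p (nat_lit 0x80000800070886860a) (nat_lit 0) (p (nat_lit 0x8708060782) (nat_lit 0) (p (nat_lit 0x687858702) (nat_lit 0) (p (nat_lit 0x8607050482) (nat_lit 0) (p (nat_lit 0x586848402) (nat_lit 0) (p (nat_lit 0x160014) (nat_lit 0) (p (nat_lit 0x50612) (nat_lit 0) (p (nat_lit 0x40592) (nat_lit 0) (p (nat_lit 0x40492) (nat_lit 0) (p (nat_lit 0x30412) (nat_lit 0) (p (nat_lit 0x30212) (nat_lit 0) (p (nat_lit 0x20192) (nat_lit 0) (p (nat_lit 0x20092) (nat_lit 0) (p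 (nat_lit 0x10012) (nat_lit 0) pn)))))))))))))))))))))))))) :=
  Cl.node (nat_lit 0x200004) (nat_lit 2) (by decide +kernel) (ClAll.succ (ClAll.succ ClAll.zero n266) s57)

def n315 : Cl (O (nat_lit 3)) (R (nat_lit 102673))
    (p (nat_lit 0x101) (nat_lit 0) (p (nat_lit 0x81) (nat_lit 1) (p (nat_lit 0xc1) (nat_lit 1) (p (nat_lit 0x119) (nat_lit 1) (p (nat_lit 0xd1) (nat_lit 0) (p (nat_lit 0x89) (nat_lit 0) (p (nat_lit 0x41) (nat_lit 0) (p (nat_lit 0x898a0b090a9a) (nat_lit 0) (p (nat_lit 0x9098a888a1a) (nat_lit 0) (p (nat_lit 0x88890a08079a) (nat_lit 0) (p (nat_lit 0x8088987871a) (nat_lit 0) (p (nat_lit 0x80000800078907088a) (nat_lit 0) (p (nat_lit 0x80000800070886860a) (nat_lit 0) (p (nat_lit 0x8708060782) (nat_lit 0) (p (nat_lit 0x687858702) (nat_lit 0) (p (nat_lit 0x8607050482) (nat_lit 0) (p (nat_lit 0x586848402) (nat_lit 0) (p (nat_lit 0x160014) (nat_lit 0) (p (nat_lit 0x50612)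 (nat_lit 0) (p (nat_lit 0x40592) (nat_lit 0) (p (nat_lit 0x40492) (nat_lit 0) (p (nat_lit 0x30412) (nat_lit 0) (p (nat_lit 0x30212) (nat_lit 0) (p (nat_lit 0x20192) (nat_lit 0) (p (nat_lit 0x20092) (nat_lit 0) (p (nat_lit 0x10012) (nat_lit 0) pn)))))))))))))))))))))))))) :=
  Cl.node (nat_lit 0x109) (nat_lit 2) (by decide +kernel) (ClAll.succ (ClAll.succ ClAll.zero n267) n268)

def n316 : Cl (O (nat_lit 3)) (R (nat_lit 102673))
    (p (nat_lit 0x101) (nat_lit 1) (p (nat_lit 0x81) (nat_lit 1) (p (nat_lit 0xc1) (nat_lit 1) (p (nat_lit 0x119) (nat_lit 1) (p (nat_lit 0xd1) (nat_lit 0) (p (nat_lit 0x89) (nat_lit 0) (p (nat_lit 0x41) (nat_lit 0) (p (nat_lit 0x898a0b090a9a) (nat_lit 0) (p (nat_lit 0x9098a888a1a) (nat_lit 0) (p (nat_lit 0x88890a08079a) (nat_lit 0) (p (nat_lit 0x8088987871a) (nat_lit 0) (p (nat_lit 0x80000800078907088a) (nat_lit 0) (p (nat_lit 0x80000800070886860a)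 (nat_lit 0) (p (nat_lit 0x8708060782) (nat_lit 0) (p (nat_lit 0x687858702) (nat_lit 0) (p (nat_lit 0x8607050482) (nat_lit 0) (p (nat_lit 0x586848402) (nat_lit 0) (p (nat_lit 0x160014) (nat_lit 0) (p (nat_lit 0x50612) (nat_lit 0) (p (nat_lit 0x40592) (nat_lit 0) (p (nat_lit 0x40492) (nat_lit 0) (p (nat_lit 0x30412) (nat_lit 0) (p (nat_lit 0x30212) (nat_lit 0) (p (nat_lit 0x20192) (nat_lit 0) (p (nat_lit 0x20092) (nat_lit 0) (p (nat_lit 0x10012) (nat_lit 0) pn)))))))))))))))))))))))))) :=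
  Cl.node (nat_lit 0x200004) (nat_lit 2) (by decide +kernel) (ClAll.succ (ClAll.succ ClAll.zero n269) s72)

def n317 : Cl (O (nat_lit 3)) (R (nat_lit 102673))
    (p (nat_lit 0x200004) (nat_lit 0) (p (nat_lit 0x109) (nat_lit 1) (p (nat_lit 0x101) (nat_lit 0) (p (nat_lit 0x111) (nat_lit 0) (p (nat_lit 0xd1) (nat_lit 1) (p (nat_lit 0x89) (nat_lit 0) (p (nat_lit 0x41) (nat_lit 0) (p (nat_lit 0x898a0b090a9a) (nat_lit 0) (p (nat_lit 0x9098a888a1a) (nat_lit 0) (p (nat_lit 0x88890a08079a) (nat_lit 0) (p (nat_lit 0x8088987871a) (nat_lit 0) (p (nat_lit 0x80000800078907088a) (nat_lit 0) (p (nat_lit 0x80000800070886860a) (nat_lit 0) (p (nat_lit 0x8708060782) (nat_lit 0) (p (nat_lit 0x687858702) (nat_lit 0) (p (nat_lit 0x8607050482) (nat_lit 0) (p (nat_lit 0x586848402) (nat_lit 0) (p (nat_lit 0x160014) (nat_lit 0) (p (nat_lit 0x50612) (nat_lit 0) (p (nat_lit 0x40592) (nat_lit 0) (p (nat_lit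 0x40492) (nat_lit 0) (p (nat_lit 0x30412) (nat_lit 0) (p (nat_lit 0x30212) (nat_lit 0) (p (nat_lit 0x20192) (nat_lit 0) (p (nat_lit 0x20092) (nat_lit 0) (p (nat_lit 0x10012) (nat_lit 0) pn)))))))))))))))))))))))))) :=
  Cl.node (nat_lit 0x20000c) (nat_lit 2) (by decide +kernel) (ClAll.succ (ClAll.succ ClAll.zero n270) s77)

def n318 : Cl (O (nat_lit 3)) (R (nat_lit 102673))
    (p (nat_lit 0x200004) (nat_lit 0) (p (nat_lit 0x81) (nat_lit 0) (p (nat_lit 0x101) (nat_lit 1) (p (nat_lit 0x111) (nat_lit 0) (p (nat_lit 0xd1) (nat_lit 1) (p (nat_lit 0x89) (nat_lit 0) (p (nat_lit 0x41) (nat_lit 0) (p (nat_lit 0x898a0b090a9a) (nat_lit 0) (p (nat_lit 0x9098a888a1a) (nat_lit 0) (p (nat_lit 0x88890a08079a) (nat_lit 0) (p (nat_lit 0x8088987871a) (nat_lit 0) (p (nat_lit 0x80000800078907088a) (nat_lit 0) (p (nat_lit 0x80000800070886860a) (nat_lit 0) (p (nat_lit 0x8708060782) (nat_lit 0)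 (p (nat_lit 0x687858702) (nat_lit 0) (p (nat_lit 0x8607050482) (nat_lit 0) (p (nat_lit 0x586848402) (nat_lit 0) (p (nat_lit 0x160014) (nat_lit 0) (p (nat_lit 0x50612) (nat_lit 0) (p (nat_lit 0x40592) (nat_lit 0) (p (nat_lit 0x40492) (nat_lit 0) (p (nat_lit 0x30412) (nat_lit 0) (p (nat_lit 0x30212) (nat_lit 0) (p (nat_lit 0x20192) (nat_lit 0) (p (nat_lit 0x20092) (nat_lit 0) (p (nat_lit 0x10012) (nat_lit 0) pn)))))))))))))))))))))))))) :=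
  Cl.node (nat_lit 0x20000c) (nat_lit 2) (by decide +kernel) (ClAll.succ (ClAll.succ ClAll.zero n271) s83)

def n319 : Cl (O (nat_lit 3)) (R (nat_lit 102673))
    (p (nat_lit 0xc1) (nat_lit 0) (p (nat_lit 0x81) (nat_lit 1) (p (nat_lit 0x101) (nat_lit 1) (p (nat_lit 0x111) (nat_lit 0) (p (nat_lit 0xd1) (nat_lit 1) (p (nat_lit 0x89) (nat_lit 0) (p (nat_lit 0x41) (nat_lit 0) (p (nat_lit 0x898a0b090a9a) (nat_lit 0) (p (nat_lit 0x9098a888a1a) (nat_lit 0) (p (nat_lit 0x88890a08079a) (nat_lit 0) (p (nat_lit 0x8088987871a) (nat_lit 0) (p (nat_lit 0x80000800078907088a) (nat_lit 0) (p (nat_lit 0x80000800070886860a) (nat_lit 0) (p (nat_lit 0x8708060782) (nat_lit 0) (p (nat_lit 0x687858702) (nat_lit 0) (p (nat_lit 0x8607050482) (nat_lit 0) (p (nat_lit 0x586848402) (nat_lit 0) (p (nat_lit 0x160014) (nat_lit 0) (p (nat_lit 0x50612) (nat_lit 0) (p (nat_lit 0x40592) (nat_lit 0) (p (nat_lit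 0x40492) (nat_lit 0) (p (nat_lit 0x30412) (nat_lit 0) (p (nat_lit 0x30212) (nat_lit 0) (p (nat_lit 0x20192) (nat_lit 0) (p (nat_lit 0x20092) (nat_lit 0) (p (nat_lit 0x10012) (nat_lit 0) pn)))))))))))))))))))))))))) :=
  Cl.node (nat_lit 0x200004) (nat_lit 2) (by decide +kernel) (ClAll.succ (ClAll.succ ClAll.zero n272) s109)

def n320 : Cl (O (nat_lit 3)) (R (nat_lit 102673))
    (p (nat_lit 0x101) (nat_lit 0) (p (nat_lit 0xc1) (nat_lit 1) (p (nat_lit 0x81) (nat_lit 1) (p (nat_lit 0x111) (nat_lit 1) (p (nat_lit 0xd1) (nat_lit 1) (p (nat_lit 0x89) (nat_lit 0) (p (nat_lit 0x41) (nat_lit 0) (p (nat_lit 0x898a0b090a9a) (nat_lit 0) (p (nat_lit 0x9098a888a1a) (nat_lit 0) (p (nat_lit 0x88890a08079a) (nat_lit 0) (p (nat_lit 0x8088987871a) (nat_lit 0) (p (nat_lit 0x80000800078907088a) (nat_lit 0) (p (nat_lit 0x80000800070886860a) (nat_lit 0) (p (nat_lit 0x8708060782) (nat_lit 0) (p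 (nat_lit 0x687858702) (nat_lit 0) (p (nat_lit 0x8607050482) (nat_lit 0) (p (nat_lit 0x586848402) (nat_lit 0) (p (nat_lit 0x160014) (nat_lit 0) (p (nat_lit 0x50612) (nat_lit 0) (p (nat_lit 0x40592) (nat_lit 0) (p (nat_lit 0x40492) (nat_lit 0) (p (nat_lit 0x30412) (nat_lit 0) (p (nat_lit 0x30212) (nat_lit 0) (p (nat_lit 0x20192) (nat_lit 0) (p (nat_lit 0x20092) (nat_lit 0) (p (nat_lit 0x10012) (nat_lit 0) pn)))))))))))))))))))))))))) :=
  Cl.node (nat_lit 0x200004) (nat_lit 2) (by decide +kernel) (ClAll.succ (ClAll.succ ClAll.zero n273) s120)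

def n321 : Cl (O (nat_lit 3)) (R (nat_lit 102673))
    (p (nat_lit 0x101) (nat_lit 1) (p (nat_lit 0xc1) (nat_lit 1) (p (nat_lit 0x81) (nat_lit 1) (p (nat_lit 0x111) (nat_lit 1) (p (nat_lit 0xd1) (nat_lit 1) (p (nat_lit 0x89) (nat_lit 0) (p (nat_lit 0x41) (nat_lit 0) (p (nat_lit 0x898a0b090a9a) (nat_lit 0) (p (nat_lit 0x9098a888a1a) (nat_lit 0) (p (nat_lit 0x88890a08079a) (nat_lit 0) (p (nat_lit 0x8088987871a) (nat_lit 0) (p (nat_lit 0x80000800078907088a) (nat_lit 0) (p (nat_lit 0x80000800070886860a) (nat_lit 0) (p (nat_lit 0x8708060782) (nat_lit 0) (p (nat_lit 0x687858702) (nat_lit 0) (p (nat_lit 0x8607050482) (nat_lit 0) (p (nat_lit 0x586848402) (nat_lit 0) (p (nat_lit 0x160014) (nat_lit 0) (p (nat_lit 0x50612) (nat_lit 0) (p (nat_lit 0x40592) (nat_lit 0) (p (nat_lit 0x40492) (nat_lit 0) (p (nat_lit 0x30412) (nat_lit 0) (p (nat_lit 0x30212) (nat_lit 0) (p (nat_lit 0x20192)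 (nat_lit 0) (p (nat_lit 0x20092) (nat_lit 0) (p (nat_lit 0x10012) (nat_lit 0) pn)))))))))))))))))))))))))) :=
  Cl.node (nat_lit 0x200004) (nat_lit 2) (by decide +kernel) (ClAll.succ (ClAll.succ ClAll.zero n274) s125)

def n322 : Cl (O (nat_lit 3)) (R (nat_lit 102673))
    (p (nat_lit 0x111) (nat_lit 1) (p (nat_lit 0x109) (nat_lit 0) (p (nat_lit 0x101) (nat_lit 0) (p (nat_lit 0x119) (nat_lit 0) (p (nat_lit 0xc9) (nat_lit 0) (p (nat_lit 0x89) (nat_lit 1) (p (nat_lit 0x41) (nat_lit 0) (p (nat_lit 0x898a0b090a9a) (nat_lit 0) (p (nat_lit 0x9098a888a1a) (nat_lit 0) (p (nat_lit 0x88890a08079a) (nat_lit 0) (p (nat_lit 0x8088987871a) (nat_lit 0) (p (nat_lit 0x80000800078907088a) (nat_lit 0) (p (nat_lit 0x80000800070886860a) (nat_lit 0) (p (nat_lit 0x8708060782) (nat_lit 0) (p (nat_lit 0x687858702) (nat_lit 0) (p (nat_lit 0x8607050482) (nat_lit 0) (p (nat_lit 0x586848402) (nat_lit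 0) (p (nat_lit 0x160014) (nat_lit 0) (p (nat_lit 0x50612) (nat_lit 0) (p (nat_lit 0x40592) (nat_lit 0) (p (nat_lit 0x40492) (nat_lit 0) (p (nat_lit 0x30412) (nat_lit 0) (p (nat_lit 0x30212) (nat_lit 0) (p (nat_lit 0x20192) (nat_lit 0) (p (nat_lit 0x20092) (nat_lit 0) (p (nat_lit 0x10012) (nat_lit 0) pn)))))))))))))))))))))))))) :=
  Cl.node (nat_lit 0xd1) (nat_lit 2) (by decide +kernel) (ClAll.succ (ClAll.succ ClAll.zero s127) n275)

def n323 : Cl (O (nat_lit 3)) (R (nat_lit 102673))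
    (p (nat_lit 0xd1) (nat_lit 0) (p (nat_lit 0x109) (nat_lit 1) (p (nat_lit 0x101) (nat_lit 0) (p (nat_lit 0x119) (nat_lit 0) (p (nat_lit 0xc9) (nat_lit 0) (p (nat_lit 0x89) (nat_lit 1) (p (nat_lit 0x41) (nat_lit 0) (p (nat_lit 0x898a0b090a9a) (nat_lit 0) (p (nat_lit 0x9098a888a1a) (nat_lit 0) (p (nat_lit 0x88890a08079a) (nat_lit 0) (p (nat_lit 0x8088987871a) (nat_lit 0) (p (nat_lit 0x80000800078907088a) (nat_lit 0) (p (nat_lit 0x80000800070886860a) (nat_lit 0) (p (nat_lit 0x8708060782) (nat_lit 0) (p (nat_lit 0x687858702) (nat_lit 0) (p (nat_lit 0x8607050482) (nat_lit 0) (p (nat_lit 0x586848402) (nat_lit 0) (p (nat_lit 0x160014) (nat_lit 0) (p (nat_lit 0x50612) (nat_lit 0) (p (nat_lit 0x40592) (nat_lit 0) (p (nat_lit 0x40492) (nat_lit 0) (p (nat_lit 0x30412) (nat_lit 0) (p (nat_lit 0x30212) (nat_lit 0) (p (nat_lit 0x20192) (nat_lit 0) (p (nat_lit 0x20092) (nat_lit 0) (p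 (nat_lit 0x10012) (nat_lit 0) pn)))))))))))))))))))))))))) :=
  Cl.node (nat_lit 0x200004) (nat_lit 2) (by decide +kernel) (ClAll.succ (ClAll.succ ClAll.zero n276) s135)

def n324 : Cl (O (nat_lit 3)) (R (nat_lit 102673))
    (p (nat_lit 0xd1) (nat_lit 1) (p (nat_lit 0x109) (nat_lit 1) (p (nat_lit 0x101) (nat_lit 0) (p (nat_lit 0x119) (nat_lit 0) (p (nat_lit 0xc9) (nat_lit 0) (p (nat_lit 0x89) (nat_lit 1) (p (nat_lit 0x41) (nat_lit 0) (p (nat_lit 0x898a0b090a9a) (nat_lit 0) (p (nat_lit 0x9098a888a1a) (nat_lit 0) (p (nat_lit 0x88890a08079a) (nat_lit 0) (p (nat_lit 0x8088987871a) (nat_lit 0) (p (nat_lit 0x80000800078907088a) (nat_lit 0) (p (nat_lit 0x80000800070886860a) (nat_lit 0) (p (nat_lit 0x8708060782) (nat_lit 0) (p (nat_lit 0x687858702) (nat_lit 0) (p (nat_lit 0x8607050482) (nat_lit 0) (p (nat_lit 0x586848402) (nat_lit 0) (p (nat_lit 0x160014) (nat_lit 0) (p (nat_lit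 0x50612) (nat_lit 0) (p (nat_lit 0x40592) (nat_lit 0) (p (nat_lit 0x40492) (nat_lit 0) (p (nat_lit 0x30412) (nat_lit 0) (p (nat_lit 0x30212) (nat_lit 0) (p (nat_lit 0x20192) (nat_lit 0) (p (nat_lit 0x20092) (nat_lit 0) (p (nat_lit 0x10012) (nat_lit 0) pn)))))))))))))))))))))))))) :=
  Cl.node (nat_lit 0x200004) (nat_lit 2) (by decide +kernel) (ClAll.succ (ClAll.succ ClAll.zero n277) s146)

def n325 : Cl (O (nat_lit 3)) (R (nat_lit 102673))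
    (p (nat_lit 0xd1) (nat_lit 0) (p (nat_lit 0xc1) (nat_lit 0) (p (nat_lit 0x101) (nat_lit 1) (p (nat_lit 0x119) (nat_lit 0) (p (nat_lit 0xc9) (nat_lit 0) (p (nat_lit 0x89) (nat_lit 1) (p (nat_lit 0x41) (nat_lit 0) (p (nat_lit 0x898a0b090a9a) (nat_lit 0) (p (nat_lit 0x9098a888a1a) (nat_lit 0) (p (nat_lit 0x88890a08079a) (nat_lit 0) (p (nat_lit 0x8088987871a) (nat_lit 0) (p (nat_lit 0x80000800078907088a) (nat_lit 0) (p (nat_lit 0x80000800070886860a) (nat_lit 0) (p (nat_lit 0x8708060782) (nat_lit 0) (p (nat_lit 0x687858702) (nat_lit 0) (p (nat_lit 0x8607050482) (nat_lit 0) (p (nat_lit 0x586848402) (nat_lit 0) (p (nat_lit 0x160014) (nat_lit 0) (p (nat_lit 0x50612) (nat_lit 0) (p (nat_lit 0x40592) (nat_lit 0) (p (nat_lit 0x40492) (nat_lit 0) (p (nat_lit 0x30412) (nat_lit 0) (p (nat_lit 0x30212) (nat_lit 0) (p (nat_lit 0x20192) (nat_lit 0) (p (nat_lit 0x20092) (nat_lit 0) (p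 (nat_lit 0x10012) (nat_lit 0) pn)))))))))))))))))))))))))) :=
  Cl.node (nat_lit 0x200004) (nat_lit 2) (by decide +kernel) (ClAll.succ (ClAll.succ ClAll.zero n278) s150)

def n326 : Cl (O (nat_lit 3)) (R (nat_lit 102673))
    (p (nat_lit 0xd1) (nat_lit 1) (p (nat_lit 0xc1) (nat_lit 0) (p (nat_lit 0x101) (nat_lit 1) (p (nat_lit 0x119) (nat_lit 0) (p (nat_lit 0xc9) (nat_lit 0) (p (nat_lit 0x89) (nat_lit 1) (p (nat_lit 0x41) (nat_lit 0) (p (nat_lit 0x898a0b090a9a) (nat_lit 0) (p (nat_lit 0x9098a888a1a) (nat_lit 0) (p (nat_lit 0x88890a08079a) (nat_lit 0) (p (nat_lit 0x8088987871a) (nat_lit 0) (p (nat_lit 0x80000800078907088a) (nat_lit 0) (p (nat_lit 0x80000800070886860a) (nat_lit 0) (p (nat_lit 0x8708060782) (nat_lit 0) (p (nat_lit 0x687858702) (nat_lit 0) (p (nat_lit 0x8607050482) (nat_lit 0) (p (nat_lit 0x586848402) (nat_lit 0) (p (nat_lit 0x160014) (nat_lit 0) (p (nat_lit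 0x50612) (nat_lit 0) (p (nat_lit 0x40592) (nat_lit 0) (p (nat_lit 0x40492) (nat_lit 0) (p (nat_lit 0x30412) (nat_lit 0) (p (nat_lit 0x30212) (nat_lit 0) (p (nat_lit 0x20192) (nat_lit 0) (p (nat_lit 0x20092) (nat_lit 0) (p (nat_lit 0x10012) (nat_lit 0) pn)))))))))))))))))))))))))) :=
  Cl.node (nat_lit 0x200004) (nat_lit 2) (by decide +kernel) (ClAll.succ (ClAll.succ ClAll.zero n279) s161)

def n327 : Cl (O (nat_lit 3)) (R (nat_lit 102673))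
    (p (nat_lit 0x111) (nat_lit 1) (p (nat_lit 0xd1) (nat_lit 1) (p (nat_lit 0xc1) (nat_lit 0) (p (nat_lit 0x119) (nat_lit 1) (p (nat_lit 0xc9) (nat_lit 0) (p (nat_lit 0x89) (nat_lit 1) (p (nat_lit 0x41) (nat_lit 0) (p (nat_lit 0x898a0b090a9a) (nat_lit 0) (p (nat_lit 0x9098a888a1a) (nat_lit 0) (p (nat_lit 0x88890a08079a) (nat_lit 0) (p (nat_lit 0x8088987871a) (nat_lit 0) (p (nat_lit 0x80000800078907088a) (nat_lit 0) (p (nat_lit 0x80000800070886860a) (nat_lit 0) (p (nat_lit 0x8708060782) (nat_lit 0) (p (nat_lit 0x687858702) (nat_lit 0) (p (nat_lit 0x8607050482) (nat_lit 0) (p (nat_lit 0x586848402) (nat_lit 0) (p (nat_lit 0x160014) (nat_lit 0) (p (nat_lit 0x50612) (nat_lit 0) (p (nat_lit 0x40592) (nat_lit 0) (p (nat_lit 0x40492) (nat_lit 0) (p (nat_lit 0x30412) (nat_lit 0) (p (nat_lit 0x30212) (nat_lit 0) (p (nat_lit 0x20192) (nat_lit 0) (p (nat_lit 0x20092) (nat_lit 0) (p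 (nat_lit 0x10012) (nat_lit 0) pn)))))))))))))))))))))))))) :=
  Cl.node (nat_lit 0x200004) (nat_lit 2) (by decide +kernel) (ClAll.succ (ClAll.succ ClAll.zero n280) s168)

def n328 : Cl (O (nat_lit 3)) (R (nat_lit 102673))
    (p (nat_lit 0x111) (nat_lit 0) (p (nat_lit 0x101) (nat_lit 0) (p (nat_lit 0xc1) (nat_lit 1) (p (nat_lit 0x119) (nat_lit 1) (p (nat_lit 0xc9) (nat_lit 0) (p (nat_lit 0x89) (nat_lit 1) (p (nat_lit 0x41) (nat_lit 0) (p (nat_lit 0x898a0b090a9a) (nat_lit 0) (p (nat_lit 0x9098a888a1a) (nat_lit 0) (p (nat_lit 0x88890a08079a) (nat_lit 0) (p (nat_lit 0x8088987871a) (nat_lit 0) (p (nat_lit 0x80000800078907088a) (nat_lit 0) (p (nat_lit 0x80000800070886860a) (nat_lit 0) (p (nat_lit 0x8708060782) (nat_lit 0) (p (nat_lit 0x687858702) (nat_lit 0) (p (nat_lit 0x8607050482) (nat_lit 0) (p (nat_lit 0x586848402) (nat_lit 0) (p (nat_lit 0x160014) (nat_lit 0) (p (nat_lit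 0x50612) (nat_lit 0) (p (nat_lit 0x40592) (nat_lit 0) (p (nat_lit 0x40492) (nat_lit 0) (p (nat_lit 0x30412) (nat_lit 0) (p (nat_lit 0x30212) (nat_lit 0) (p (nat_lit 0x20192) (nat_lit 0) (p (nat_lit 0x20092) (nat_lit 0) (p (nat_lit 0x10012) (nat_lit 0) pn)))))))))))))))))))))))))) :=
  Cl.node (nat_lit 0x200004) (nat_lit 2) (by decide +kernel) (ClAll.succ (ClAll.succ ClAll.zero n281) s172)

def n329 : Cl (O (nat_lit 3)) (R (nat_lit 102673))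
    (p (nat_lit 0x111) (nat_lit 1) (p (nat_lit 0x101) (nat_lit 0) (p (nat_lit 0xc1) (nat_lit 1) (p (nat_lit 0x119) (nat_lit 1) (p (nat_lit 0xc9) (nat_lit 0) (p (nat_lit 0x89) (nat_lit 1) (p (nat_lit 0x41) (nat_lit 0) (p (nat_lit 0x898a0b090a9a) (nat_lit 0) (p (nat_lit 0x9098a888a1a) (nat_lit 0) (p (nat_lit 0x88890a08079a) (nat_lit 0) (p (nat_lit 0x8088987871a) (nat_lit 0) (p (nat_lit 0x80000800078907088a) (nat_lit 0) (p (nat_lit 0x80000800070886860a) (nat_lit 0) (p (nat_lit 0x8708060782) (nat_lit 0) (p (nat_lit 0x687858702) (nat_lit 0) (p (nat_lit 0x8607050482) (nat_lit 0) (p (nat_lit 0x586848402) (nat_lit 0) (p (nat_lit 0x160014) (nat_lit 0) (p (nat_lit 0x50612) (nat_lit 0) (p (nat_lit 0x40592) (nat_lit 0) (p (nat_lit 0x40492) (nat_lit 0) (p (nat_lit 0x30412) (nat_lit 0) (p (nat_lit 0x30212) (nat_lit 0) (p (nat_lit 0x20192) (nat_lit 0) (p (nat_lit 0x20092) (nat_lit 0) (p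 (nat_lit 0x10012) (nat_lit 0) pn)))))))))))))))))))))))))) :=
  Cl.node (nat_lit 0x200004) (nat_lit 2) (by decide +kernel) (ClAll.succ (ClAll.succ ClAll.zero n282) s179)

def n330 : Cl (O (nat_lit 3)) (R (nat_lit 102673))
    (p (nat_lit 0x119) (nat_lit 1) (p (nat_lit 0x111) (nat_lit 0) (p (nat_lit 0x101) (nat_lit 0) (p (nat_lit 0x109) (nat_lit 0) (p (nat_lit 0xc9) (nat_lit 1) (p (nat_lit 0x89) (nat_lit 1) (p (nat_lit 0x41) (nat_lit 0) (p (nat_lit 0x898a0b090a9a) (nat_lit 0) (p (nat_lit 0x9098a888a1a) (nat_lit 0) (p (nat_lit 0x88890a08079a) (nat_lit 0) (p (nat_lit 0x8088987871a) (nat_lit 0) (p (nat_lit 0x80000800078907088a) (nat_lit 0) (p (nat_lit 0x80000800070886860a) (nat_lit 0) (p (nat_lit 0x8708060782) (nat_lit 0) (p (nat_lit 0x687858702) (nat_lit 0) (p (nat_lit 0x8607050482) (nat_lit 0) (p (nat_lit 0x586848402) (nat_lit 0) (p (nat_lit 0x160014) (nat_lit 0) (p (nat_lit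 0x50612) (nat_lit 0) (p (nat_lit 0x40592) (nat_lit 0) (p (nat_lit 0x40492) (nat_lit 0) (p (nat_lit 0x30412) (nat_lit 0) (p (nat_lit 0x30212) (nat_lit 0) (p (nat_lit 0x20192) (nat_lit 0) (p (nat_lit 0x20092) (nat_lit 0) (p (nat_lit 0x10012) (nat_lit 0) pn)))))))))))))))))))))))))) :=
  Cl.node (nat_lit 0x200004) (nat_lit 2) (by decide +kernel) (ClAll.succ (ClAll.succ ClAll.zero n283) s185)

def n331 : Cl (O (nat_lit 3)) (R (nat_lit 102673))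
    (p (nat_lit 0x89) (nat_lit 0) (p (nat_lit 0x109) (nat_lit 1) (p (nat_lit 0x101) (nat_lit 0) (p (nat_lit 0x119) (nat_lit 0) (p (nat_lit 0xd1) (nat_lit 0) (p (nat_lit 0x81) (nat_lit 0) (p (nat_lit 0x41) (nat_lit 1) (p (nat_lit 0x898a0b090a9a) (nat_lit 0) (p (nat_lit 0x9098a888a1a) (nat_lit 0) (p (nat_lit 0x88890a08079a) (nat_lit 0) (p (nat_lit 0x8088987871a) (nat_lit 0) (p (nat_lit 0x80000800078907088a) (nat_lit 0) (p (nat_lit 0x80000800070886860a) (nat_lit 0) (p (nat_lit 0x8708060782) (nat_lit 0) (p (nat_lit 0x687858702) (nat_lit 0) (p (nat_lit 0x8607050482) (nat_lit 0) (p (nat_lit 0x586848402) (nat_lit 0) (p (nat_lit 0x160014) (nat_lit 0) (p (nat_lit 0x50612) (nat_lit 0) (p (nat_lit 0x40592) (nat_lit 0) (p (nat_lit 0x40492) (nat_lit 0) (p (nat_lit 0x30412) (nat_lit 0) (p (nat_lit 0x30212) (nat_lit 0) (p (nat_lit 0x20192) (nat_lit 0) (p (nat_lit 0x20092) (nat_lit 0) (p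 (nat_lit 0x10012) (nat_lit 0) pn)))))))))))))))))))))))))) :=
  Cl.node (nat_lit 0x200004) (nat_lit 2) (by decide +kernel) (ClAll.succ (ClAll.succ ClAll.zero n284) s194)

def n332 : Cl (O (nat_lit 3)) (R (nat_lit 102673))
    (p (nat_lit 0x89) (nat_lit 1) (p (nat_lit 0x109) (nat_lit 1) (p (nat_lit 0x101) (nat_lit 0) (p (nat_lit 0x119) (nat_lit 0) (p (nat_lit 0xd1) (nat_lit 0) (p (nat_lit 0x81) (nat_lit 0) (p (nat_lit 0x41) (nat_lit 1) (p (nat_lit 0x898a0b090a9a) (nat_lit 0) (p (nat_lit 0x9098a888a1a) (nat_lit 0) (p (nat_lit 0x88890a08079a) (nat_lit 0) (p (nat_lit 0x8088987871a) (nat_lit 0) (p (nat_lit 0x80000800078907088a) (nat_lit 0) (p (nat_lit 0x80000800070886860a) (nat_lit 0) (p (nat_lit 0x8708060782) (nat_lit 0) (p (nat_lit 0x687858702) (nat_lit 0) (p (nat_lit 0x8607050482) (nat_lit 0) (p (nat_lit 0x586848402) (nat_lit 0) (p (nat_lit 0x160014) (nat_lit 0) (p (nat_lit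 0x50612) (nat_lit 0) (p (nat_lit 0x40592) (nat_lit 0) (p (nat_lit 0x40492) (nat_lit 0) (p (nat_lit 0x30412) (nat_lit 0) (p (nat_lit 0x30212) (nat_lit 0) (p (nat_lit 0x20192) (nat_lit 0) (p (nat_lit 0x20092) (nat_lit 0) (p (nat_lit 0x10012) (nat_lit 0) pn)))))))))))))))))))))))))) :=
  Cl.node (nat_lit 0xc9) (nat_lit 2) (by decide +kernel) (ClAll.succ (ClAll.succ ClAll.zero n285) s198)

def n333 : Cl (O (nat_lit 3)) (R (nat_lit 102673))
    (p (nat_lit 0x89) (nat_lit 0) (p (nat_lit 0xc1) (nat_lit 0) (p (nat_lit 0x101) (nat_lit 1) (p (nat_lit 0x119) (nat_lit 0) (p (nat_lit 0xd1) (nat_lit 0) (p (nat_lit 0x81) (nat_lit 0) (p (nat_lit 0x41) (nat_lit 1) (p (nat_lit 0x898a0b090a9a) (nat_lit 0) (p (nat_lit 0x9098a888a1a) (nat_lit 0) (p (nat_lit 0x88890a08079a) (nat_lit 0) (p (nat_lit 0x8088987871a) (nat_lit 0) (p (nat_lit 0x80000800078907088a) (nat_lit 0) (p (nat_lit 0x80000800070886860a)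 (nat_lit 0) (p (nat_lit 0x8708060782) (nat_lit 0) (p (nat_lit 0x687858702) (nat_lit 0) (p (nat_lit 0x8607050482) (nat_lit 0) (p (nat_lit 0x586848402) (nat_lit 0) (p (nat_lit 0x160014) (nat_lit 0) (p (nat_lit 0x50612) (nat_lit 0) (p (nat_lit 0x40592) (nat_lit 0) (p (nat_lit 0x40492) (nat_lit 0) (p (nat_lit 0x30412) (nat_lit 0) (p (nat_lit 0x30212) (nat_lit 0) (p (nat_lit 0x20192) (nat_lit 0) (p (nat_lit 0x20092) (nat_lit 0) (p (nat_lit 0x10012) (nat_lit 0) pn)))))))))))))))))))))))))) :=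
  Cl.node (nat_lit 0x200004) (nat_lit 2) (by decide +kernel) (ClAll.succ (ClAll.succ ClAll.zero n286) s201)

def n334 : Cl (O (nat_lit 3)) (R (nat_lit 102673))
    (p (nat_lit 0x89) (nat_lit 1) (p (nat_lit 0xc1) (nat_lit 0) (p (nat_lit 0x101) (nat_lit 1) (p (nat_lit 0x119) (nat_lit 0) (p (nat_lit 0xd1) (nat_lit 0) (p (nat_lit 0x81) (nat_lit 0) (p (nat_lit 0x41) (nat_lit 1) (p (nat_lit 0x898a0b090a9a) (nat_lit 0) (p (nat_lit 0x9098a888a1a) (nat_lit 0) (p (nat_lit 0x88890a08079a) (nat_lit 0) (p (nat_lit 0x8088987871a) (nat_lit 0) (p (nat_lit 0x80000800078907088a) (nat_lit 0) (p (nat_lit 0x80000800070886860a) (nat_lit 0) (p (nat_lit 0x8708060782) (nat_lit 0) (p (nat_lit 0x687858702) (nat_lit 0) (p (nat_lit 0x8607050482) (nat_lit 0) (p (nat_lit 0x586848402) (nat_lit 0) (p (nat_lit 0x160014) (nat_lit 0) (p (nat_lit 0x50612) (nat_lit 0) (p (nat_lit 0x40592) (nat_lit 0) (p (nat_lit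 0x40492) (nat_lit 0) (p (nat_lit 0x30412) (nat_lit 0) (p (nat_lit 0x30212) (nat_lit 0) (p (nat_lit 0x20192) (nat_lit 0) (p (nat_lit 0x20092) (nat_lit 0) (p (nat_lit 0x10012) (nat_lit 0) pn)))))))))))))))))))))))))) :=
  Cl.node (nat_lit 0xc9) (nat_lit 2) (by decide +kernel) (ClAll.succ (ClAll.succ ClAll.zero n287) n288)

def n335 : Cl (O (nat_lit 3)) (R (nat_lit 102673))
    (p (nat_lit 0x89) (nat_lit 0) (p (nat_lit 0xc1) (nat_lit 1) (p (nat_lit 0x101) (nat_lit 1) (p (nat_lit 0x119) (nat_lit 0) (p (nat_lit 0xd1) (nat_lit 0) (p (nat_lit 0x81) (nat_lit 0) (p (nat_lit 0x41) (nat_lit 1) (p (nat_lit 0x898a0b090a9a) (nat_lit 0) (p (nat_lit 0x9098a888a1a) (nat_lit 0) (p (nat_lit 0x88890a08079a) (nat_lit 0) (p (nat_lit 0x8088987871a) (nat_lit 0) (p (nat_lit 0x80000800078907088a) (nat_lit 0) (p (nat_lit 0x80000800070886860a) (nat_lit 0) (p (nat_lit 0x8708060782) (nat_lit 0) (p (nat_lit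 0x687858702) (nat_lit 0) (p (nat_lit 0x8607050482) (nat_lit 0) (p (nat_lit 0x586848402) (nat_lit 0) (p (nat_lit 0x160014) (nat_lit 0) (p (nat_lit 0x50612) (nat_lit 0) (p (nat_lit 0x40592) (nat_lit 0) (p (nat_lit 0x40492) (nat_lit 0) (p (nat_lit 0x30412) (nat_lit 0) (p (nat_lit 0x30212) (nat_lit 0) (p (nat_lit 0x20192) (nat_lit 0) (p (nat_lit 0x20092) (nat_lit 0) (p (nat_lit 0x10012) (nat_lit 0) pn)))))))))))))))))))))))))) :=
  Cl.node (nat_lit 0x200004) (nat_lit 2) (by decide +kernel) (ClAll.succ (ClAll.succ ClAll.zero n289) s214)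

def n336 : Cl (O (nat_lit 3)) (R (nat_lit 102673))
    (p (nat_lit 0x89) (nat_lit 1) (p (nat_lit 0xc1) (nat_lit 1) (p (nat_lit 0x101) (nat_lit 1) (p (nat_lit 0x119) (nat_lit 0) (p (nat_lit 0xd1) (nat_lit 0) (p (nat_lit 0x81) (nat_lit 0) (p (nat_lit 0x41) (nat_lit 1) (p (nat_lit 0x898a0b090a9a) (nat_lit 0) (p (nat_lit 0x9098a888a1a) (nat_lit 0) (p (nat_lit 0x88890a08079a) (nat_lit 0) (p (nat_lit 0x8088987871a) (nat_lit 0) (p (nat_lit 0x80000800078907088a) (nat_lit 0) (p (nat_lit 0x80000800070886860a) (nat_lit 0) (p (nat_lit 0x8708060782) (nat_lit 0) (p (nat_lit 0x687858702) (nat_lit 0) (p (nat_lit 0x8607050482) (nat_lit 0) (p (nat_lit 0x586848402) (nat_lit 0) (p (nat_lit 0x160014) (nat_lit 0) (p (nat_lit 0x50612) (nat_lit 0) (p (nat_lit 0x40592) (nat_lit 0) (p (nat_lit 0x40492) (nat_lit 0) (p (nat_lit 0x30412) (nat_lit 0) (p (nat_lit 0x30212) (nat_lit 0) (p (nat_lit 0x20192)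 (nat_lit 0) (p (nat_lit 0x20092) (nat_lit 0) (p (nat_lit 0x10012) (nat_lit 0) pn)))))))))))))))))))))))))) :=
  Cl.node (nat_lit 0x200004) (nat_lit 2) (by decide +kernel) (ClAll.succ (ClAll.succ ClAll.zero n290) n291)

def n337 : Cl (O (nat_lit 3)) (R (nat_lit 102673))
    (p (nat_lit 0x89) (nat_lit 1) (p (nat_lit 0xc9) (nat_lit 1) (p (nat_lit 0xc1) (nat_lit 0) (p (nat_lit 0x119) (nat_lit 1) (p (nat_lit 0xd1) (nat_lit 0) (p (nat_lit 0x81) (nat_lit 0) (p (nat_lit 0x41) (nat_lit 1) (p (nat_lit 0x898a0b090a9a) (nat_lit 0) (p (nat_lit 0x9098a888a1a) (nat_lit 0) (p (nat_lit 0x88890a08079a) (nat_lit 0) (p (nat_lit 0x8088987871a) (nat_lit 0) (p (nat_lit 0x80000800078907088a) (nat_lit 0) (p (nat_lit 0x80000800070886860a) (nat_lit 0) (p (nat_lit 0x8708060782) (nat_lit 0) (p (nat_lit 0x687858702) (nat_lit 0) (p (nat_lit 0x8607050482) (nat_lit 0) (p (nat_lit 0x586848402) (nat_lit 0)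 (p (nat_lit 0x160014) (nat_lit 0) (p (nat_lit 0x50612) (nat_lit 0) (p (nat_lit 0x40592) (nat_lit 0) (p (nat_lit 0x40492) (nat_lit 0) (p (nat_lit 0x30412) (nat_lit 0) (p (nat_lit 0x30212) (nat_lit 0) (p (nat_lit 0x20192) (nat_lit 0) (p (nat_lit 0x20092) (nat_lit 0) (p (nat_lit 0x10012) (nat_lit 0) pn)))))))))))))))))))))))))) :=
  Cl.node (nat_lit 0x109) (nat_lit 2) (by decide +kernel) (ClAll.succ (ClAll.succ ClAll.zero n292) n293)

def n338 : Cl (O (nat_lit 3)) (R (nat_lit 102673))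
    (p (nat_lit 0x89) (nat_lit 1) (p (nat_lit 0x101) (nat_lit 0) (p (nat_lit 0xc1) (nat_lit 1) (p (nat_lit 0x119) (nat_lit 1) (p (nat_lit 0xd1) (nat_lit 0) (p (nat_lit 0x81) (nat_lit 0) (p (nat_lit 0x41) (nat_lit 1) (p (nat_lit 0x898a0b090a9a) (nat_lit 0) (p (nat_lit 0x9098a888a1a) (nat_lit 0) (p (nat_lit 0x88890a08079a) (nat_lit 0) (p (nat_lit 0x8088987871a) (nat_lit 0) (p (nat_lit 0x80000800078907088a) (nat_lit 0) (p (nat_lit 0x80000800070886860a) (nat_lit 0) (p (nat_lit 0x8708060782) (nat_lit 0) (p (nat_lit 0x687858702) (nat_lit 0) (p (nat_lit 0x8607050482) (nat_lit 0) (p (nat_lit 0x586848402) (nat_lit 0) (p (nat_lit 0x160014) (nat_lit 0) (p (nat_lit 0x50612) (nat_lit 0) (p (nat_lit 0x40592) (nat_lit 0) (p (nat_lit 0x40492) (nat_lit 0) (p (nat_lit 0x30412) (nat_lit 0) (p (nat_lit 0x30212) (nat_lit 0) (p (nat_lit 0x20192) (nat_lit 0) (p (nat_lit 0x20092) (nat_lit 0) (p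 (nat_lit 0x10012) (nat_lit 0) pn)))))))))))))))))))))))))) :=
  Cl.node (nat_lit 0x109) (nat_lit 2) (by decide +kernel) (ClAll.succ (ClAll.succ ClAll.zero s245) n294)

def n339 : Cl (O (nat_lit 3)) (R (nat_lit 102673))
    (p (nat_lit 0x89) (nat_lit 0) (p (nat_lit 0x101) (nat_lit 1) (p (nat_lit 0xc1) (nat_lit 1) (p (nat_lit 0x119) (nat_lit 1) (p (nat_lit 0xd1) (nat_lit 0) (p (nat_lit 0x81) (nat_lit 0) (p (nat_lit 0x41) (nat_lit 1) (p (nat_lit 0x898a0b090a9a) (nat_lit 0) (p (nat_lit 0x9098a888a1a) (nat_lit 0) (p (nat_lit 0x88890a08079a) (nat_lit 0) (p (nat_lit 0x8088987871a) (nat_lit 0) (p (nat_lit 0x80000800078907088a) (nat_lit 0) (p (nat_lit 0x80000800070886860a) (nat_lit 0) (p (nat_lit 0x8708060782) (nat_lit 0) (p (nat_lit 0x687858702) (nat_lit 0) (p (nat_lit 0x8607050482) (nat_lit 0) (p (nat_lit 0x586848402) (nat_lit 0) (p (nat_lit 0x160014) (nat_lit 0) (p (nat_lit 0x50612)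 (nat_lit 0) (p (nat_lit 0x40592) (nat_lit 0) (p (nat_lit 0x40492) (nat_lit 0) (p (nat_lit 0x30412) (nat_lit 0) (p (nat_lit 0x30212) (nat_lit 0) (p (nat_lit 0x20192) (nat_lit 0) (p (nat_lit 0x20092) (nat_lit 0) (p (nat_lit 0x10012) (nat_lit 0) pn)))))))))))))))))))))))))) :=
  Cl.node (nat_lit 0x200004) (nat_lit 2) (by decide +kernel) (ClAll.succ (ClAll.succ ClAll.zero s250) s251)

def n340 : Cl (O (nat_lit 3)) (R (nat_lit 102673))
    (p (nat_lit 0x89) (nat_lit 1) (p (nat_lit 0x101) (nat_lit 1) (p (nat_lit 0xc1) (nat_lit 1) (p (nat_lit 0x119) (nat_lit 1) (p (nat_lit 0xd1) (nat_lit 0) (p (nat_lit 0x81) (nat_lit 0) (p (nat_lit 0x41) (nat_lit 1) (p (nat_lit 0x898a0b090a9a) (nat_lit 0) (p (nat_lit 0x9098a888a1a) (nat_lit 0) (p (nat_lit 0x88890a08079a) (nat_lit 0) (p (nat_lit 0x8088987871a) (nat_lit 0) (p (nat_lit 0x80000800078907088a) (nat_lit 0) (p (nat_lit 0x80000800070886860a)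 (nat_lit 0) (p (nat_lit 0x8708060782) (nat_lit 0) (p (nat_lit 0x687858702) (nat_lit 0) (p (nat_lit 0x8607050482) (nat_lit 0) (p (nat_lit 0x586848402) (nat_lit 0) (p (nat_lit 0x160014) (nat_lit 0) (p (nat_lit 0x50612) (nat_lit 0) (p (nat_lit 0x40592) (nat_lit 0) (p (nat_lit 0x40492) (nat_lit 0) (p (nat_lit 0x30412) (nat_lit 0) (p (nat_lit 0x30212) (nat_lit 0) (p (nat_lit 0x20192) (nat_lit 0) (p (nat_lit 0x20092) (nat_lit 0) (p (nat_lit 0x10012) (nat_lit 0) pn)))))))))))))))))))))))))) :=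
  Cl.node (nat_lit 0x200004) (nat_lit 2) (by decide +kernel) (ClAll.succ (ClAll.succ ClAll.zero n295) n296)

def n341 : Cl (O (nat_lit 3)) (R (nat_lit 102673))
    (p (nat_lit 0x89) (nat_lit 1) (p (nat_lit 0x109) (nat_lit 1) (p (nat_lit 0x101) (nat_lit 0) (p (nat_lit 0x111) (nat_lit 0) (p (nat_lit 0xd1) (nat_lit 1) (p (nat_lit 0x81) (nat_lit 0) (p (nat_lit 0x41) (nat_lit 1) (p (nat_lit 0x898a0b090a9a) (nat_lit 0) (p (nat_lit 0x9098a888a1a) (nat_lit 0) (p (nat_lit 0x88890a08079a) (nat_lit 0) (p (nat_lit 0x8088987871a) (nat_lit 0) (p (nat_lit 0x80000800078907088a) (nat_lit 0) (p (nat_lit 0x80000800070886860a) (nat_lit 0) (p (nat_lit 0x8708060782) (nat_lit 0) (p (nat_lit 0x687858702) (nat_lit 0) (p (nat_lit 0x8607050482) (nat_lit 0) (p (nat_lit 0x586848402) (nat_lit 0) (p (nat_lit 0x160014) (nat_lit 0) (p (nat_lit 0x50612) (nat_lit 0) (p (nat_lit 0x40592) (nat_lit 0) (p (nat_lit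 0x40492) (nat_lit 0) (p (nat_lit 0x30412) (nat_lit 0) (p (nat_lit 0x30212) (nat_lit 0) (p (nat_lit 0x20192) (nat_lit 0) (p (nat_lit 0x20092) (nat_lit 0) (p (nat_lit 0x10012) (nat_lit 0) pn)))))))))))))))))))))))))) :=
  Cl.node (nat_lit 0xc9) (nat_lit 2) (by decide +kernel) (ClAll.succ (ClAll.succ ClAll.zero n297) s281)

def n342 : Cl (O (nat_lit 3)) (R (nat_lit 102673))
    (p (nat_lit 0x200004) (nat_lit 0) (p (nat_lit 0x89) (nat_lit 0) (p (nat_lit 0x101) (nat_lit 1) (p (nat_lit 0x111) (nat_lit 0) (p (nat_lit 0xd1) (nat_lit 1) (p (nat_lit 0x81) (nat_lit 0) (p (nat_lit 0x41) (nat_lit 1) (p (nat_lit 0x898a0b090a9a) (nat_lit 0) (p (nat_lit 0x9098a888a1a) (nat_lit 0) (p (nat_lit 0x88890a08079a) (nat_lit 0) (p (nat_lit 0x8088987871a) (nat_lit 0) (p (nat_lit 0x80000800078907088a) (nat_lit 0) (p (nat_lit 0x80000800070886860a) (nat_lit 0) (p (nat_lit 0x8708060782) (nat_lit 0) (p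 (nat_lit 0x687858702) (nat_lit 0) (p (nat_lit 0x8607050482) (nat_lit 0) (p (nat_lit 0x586848402) (nat_lit 0) (p (nat_lit 0x160014) (nat_lit 0) (p (nat_lit 0x50612) (nat_lit 0) (p (nat_lit 0x40592) (nat_lit 0) (p (nat_lit 0x40492) (nat_lit 0) (p (nat_lit 0x30412) (nat_lit 0) (p (nat_lit 0x30212) (nat_lit 0) (p (nat_lit 0x20192) (nat_lit 0) (p (nat_lit 0x20092) (nat_lit 0) (p (nat_lit 0x10012) (nat_lit 0) pn)))))))))))))))))))))))))) :=
  Cl.node (nat_lit 0x20000c) (nat_lit 2) (by decide +kernel) (ClAll.succ (ClAll.succ ClAll.zero n298) s288)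

def n343 : Cl (O (nat_lit 3)) (R (nat_lit 102673))
    (p (nat_lit 0xc9) (nat_lit 0) (p (nat_lit 0x89) (nat_lit 1) (p (nat_lit 0x101) (nat_lit 1) (p (nat_lit 0x111) (nat_lit 0) (p (nat_lit 0xd1) (nat_lit 1) (p (nat_lit 0x81) (nat_lit 0) (p (nat_lit 0x41) (nat_lit 1) (p (nat_lit 0x898a0b090a9a) (nat_lit 0) (p (nat_lit 0x9098a888a1a) (nat_lit 0) (p (nat_lit 0x88890a08079a) (nat_lit 0) (p (nat_lit 0x8088987871a) (nat_lit 0) (p (nat_lit 0x80000800078907088a) (nat_lit 0) (p (nat_lit 0x80000800070886860a) (nat_lit 0) (p (nat_lit 0x8708060782) (nat_lit 0) (p (nat_lit 0x687858702) (nat_lit 0) (p (nat_lit 0x8607050482) (nat_lit 0) (p (nat_lit 0x586848402) (nat_lit 0) (p (nat_lit 0x160014) (nat_lit 0) (p (nat_lit 0x50612) (nat_lit 0) (p (nat_lit 0x40592) (nat_lit 0) (p (nat_lit 0x40492) (nat_lit 0) (p (nat_lit 0x30412) (nat_lit 0) (p (nat_lit 0x30212) (nat_lit 0) (p (nat_lit 0x20192)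 (nat_lit 0) (p (nat_lit 0x20092) (nat_lit 0) (p (nat_lit 0x10012) (nat_lit 0) pn)))))))))))))))))))))))))) :=
  Cl.node (nat_lit 0x200004) (nat_lit 2) (by decide +kernel) (ClAll.succ (ClAll.succ ClAll.zero n299) n300)

def n344 : Cl (O (nat_lit 3)) (R (nat_lit 102673))
    (p (nat_lit 0xc9) (nat_lit 1) (p (nat_lit 0x89) (nat_lit 1) (p (nat_lit 0x101) (nat_lit 1) (p (nat_lit 0x111) (nat_lit 0) (p (nat_lit 0xd1) (nat_lit 1) (p (nat_lit 0x81) (nat_lit 0) (p (nat_lit 0x41) (nat_lit 1) (p (nat_lit 0x898a0b090a9a) (nat_lit 0) (p (nat_lit 0x9098a888a1a) (nat_lit 0) (p (nat_lit 0x88890a08079a) (nat_lit 0) (p (nat_lit 0x8088987871a) (nat_lit 0) (p (nat_lit 0x80000800078907088a) (nat_lit 0) (p (nat_lit 0x80000800070886860a) (nat_lit 0) (p (nat_lit 0x8708060782) (nat_lit 0) (p (nat_lit 0x687858702) (nat_lit 0) (p (nat_lit 0x8607050482) (nat_lit 0) (p (nat_lit 0x586848402) (nat_lit 0)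 (p (nat_lit 0x160014) (nat_lit 0) (p (nat_lit 0x50612) (nat_lit 0) (p (nat_lit 0x40592) (nat_lit 0) (p (nat_lit 0x40492) (nat_lit 0) (p (nat_lit 0x30412) (nat_lit 0) (p (nat_lit 0x30212) (nat_lit 0) (p (nat_lit 0x20192) (nat_lit 0) (p (nat_lit 0x20092) (nat_lit 0) (p (nat_lit 0x10012) (nat_lit 0) pn)))))))))))))))))))))))))) :=
  Cl.node (nat_lit 0x200004) (nat_lit 2) (by decide +kernel) (ClAll.succ (ClAll.succ ClAll.zero s313) s314)

def n345 : Cl (O (nat_lit 3)) (R (nat_lit 102673))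
    (p (nat_lit 0x109) (nat_lit 0) (p (nat_lit 0xc9) (nat_lit 1) (p (nat_lit 0x89) (nat_lit 1) (p (nat_lit 0x111) (nat_lit 1) (p (nat_lit 0xd1) (nat_lit 1) (p (nat_lit 0x81) (nat_lit 0) (p (nat_lit 0x41) (nat_lit 1) (p (nat_lit 0x898a0b090a9a) (nat_lit 0) (p (nat_lit 0x9098a888a1a) (nat_lit 0) (p (nat_lit 0x88890a08079a) (nat_lit 0) (p (nat_lit 0x8088987871a) (nat_lit 0) (p (nat_lit 0x80000800078907088a) (nat_lit 0) (p (nat_lit 0x80000800070886860a) (nat_lit 0) (p (nat_lit 0x8708060782) (nat_lit 0) (p (nat_lit 0x687858702) (nat_lit 0) (p (nat_lit 0x8607050482) (nat_lit 0) (p (nat_lit 0x586848402) (nat_lit 0) (p (nat_lit 0x160014) (nat_lit 0) (p (nat_lit 0x50612) (nat_lit 0) (p (nat_lit 0x40592) (nat_lit 0) (p (nat_lit 0x40492) (nat_lit 0) (p (nat_lit 0x30412) (nat_lit 0) (p (nat_lit 0x30212) (nat_lit 0) (p (nat_lit 0x20192) (nat_lit 0) (p (nat_lit 0x20092) (nat_lit 0) (p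 (nat_lit 0x10012) (nat_lit 0) pn)))))))))))))))))))))))))) :=
  Cl.node (nat_lit 0x200004) (nat_lit 2) (by decide +kernel) (ClAll.succ (ClAll.succ ClAll.zero n301) s322)

def n346 : Cl (O (nat_lit 3)) (R (nat_lit 102673))
    (p (nat_lit 0x111) (nat_lit 1) (p (nat_lit 0x109) (nat_lit 0) (p (nat_lit 0x101) (nat_lit 0) (p (nat_lit 0x119) (nat_lit 0) (p (nat_lit 0xc1) (nat_lit 0) (p (nat_lit 0x81) (nat_lit 1) (p (nat_lit 0x41) (nat_lit 1) (p (nat_lit 0x898a0b090a9a) (nat_lit 0) (p (nat_lit 0x9098a888a1a) (nat_lit 0) (p (nat_lit 0x88890a08079a) (nat_lit 0) (p (nat_lit 0x8088987871a) (nat_lit 0) (p (nat_lit 0x80000800078907088a) (nat_lit 0) (p (nat_lit 0x80000800070886860a) (nat_lit 0) (p (nat_lit 0x8708060782) (nat_lit 0) (p (nat_lit 0x687858702) (nat_lit 0) (p (nat_lit 0x8607050482) (nat_lit 0) (p (nat_lit 0x586848402) (nat_lit 0) (p (nat_lit 0x160014) (nat_lit 0) (p (nat_lit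 0x50612) (nat_lit 0) (p (nat_lit 0x40592) (nat_lit 0) (p (nat_lit 0x40492) (nat_lit 0) (p (nat_lit 0x30412) (nat_lit 0) (p (nat_lit 0x30212) (nat_lit 0) (p (nat_lit 0x20192) (nat_lit 0) (p (nat_lit 0x20092) (nat_lit 0) (p (nat_lit 0x10012) (nat_lit 0) pn)))))))))))))))))))))))))) :=
  Cl.node (nat_lit 0xd1) (nat_lit 2) (by decide +kernel) (ClAll.succ (ClAll.succ ClAll.zero s325) n302)

def n347 : Cl (O (nat_lit 3)) (R (nat_lit 102673))
    (p (nat_lit 0xc9) (nat_lit 0) (p (nat_lit 0x109) (nat_lit 1) (p (nat_lit 0x101) (nat_lit 0) (p (nat_lit 0x119) (nat_lit 0) (p (nat_lit 0xc1) (nat_lit 0) (p (nat_lit 0x81) (nat_lit 1) (p (nat_lit 0x41) (nat_lit 1) (p (nat_lit 0x898a0b090a9a) (nat_lit 0) (p (nat_lit 0x9098a888a1a) (nat_lit 0) (p (nat_lit 0x88890a08079a) (nat_lit 0) (p (nat_lit 0x8088987871a) (nat_lit 0) (p (nat_lit 0x80000800078907088a) (nat_lit 0) (p (nat_lit 0x80000800070886860a)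 (nat_lit 0) (p (nat_lit 0x8708060782) (nat_lit 0) (p (nat_lit 0x687858702) (nat_lit 0) (p (nat_lit 0x8607050482) (nat_lit 0) (p (nat_lit 0x586848402) (nat_lit 0) (p (nat_lit 0x160014) (nat_lit 0) (p (nat_lit 0x50612) (nat_lit 0) (p (nat_lit 0x40592) (nat_lit 0) (p (nat_lit 0x40492) (nat_lit 0) (p (nat_lit 0x30412) (nat_lit 0) (p (nat_lit 0x30212) (nat_lit 0) (p (nat_lit 0x20192) (nat_lit 0) (p (nat_lit 0x20092) (nat_lit 0) (p (nat_lit 0x10012) (nat_lit 0) pn)))))))))))))))))))))))))) :=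
  Cl.node (nat_lit 0xd1) (nat_lit 2) (by decide +kernel) (ClAll.succ (ClAll.succ ClAll.zero s331) n303)

def n348 : Cl (O (nat_lit 3)) (R (nat_lit 102673))
    (p (nat_lit 0xd1) (nat_lit 0) (p (nat_lit 0xc9) (nat_lit 0) (p (nat_lit 0x101) (nat_lit 1) (p (nat_lit 0x119) (nat_lit 0) (p (nat_lit 0xc1) (nat_lit 0) (p (nat_lit 0x81) (nat_lit 1) (p (nat_lit 0x41) (nat_lit 1) (p (nat_lit 0x898a0b090a9a) (nat_lit 0) (p (nat_lit 0x9098a888a1a) (nat_lit 0) (p (nat_lit 0x88890a08079a) (nat_lit 0) (p (nat_lit 0x8088987871a) (nat_lit 0) (p (nat_lit 0x80000800078907088a) (nat_lit 0) (p (nat_lit 0x80000800070886860a) (nat_lit 0) (p (nat_lit 0x8708060782) (nat_lit 0) (p (nat_lit 0x687858702) (nat_lit 0) (p (nat_lit 0x8607050482) (nat_lit 0) (p (nat_lit 0x586848402) (nat_lit 0) (p (nat_lit 0x160014) (nat_lit 0) (p (nat_lit 0x50612) (nat_lit 0) (p (nat_lit 0x40592) (nat_lit 0) (p (nat_lit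 0x40492) (nat_lit 0) (p (nat_lit 0x30412) (nat_lit 0) (p (nat_lit 0x30212) (nat_lit 0) (p (nat_lit 0x20192) (nat_lit 0) (p (nat_lit 0x20092) (nat_lit 0) (p (nat_lit 0x10012) (nat_lit 0) pn)))))))))))))))))))))))))) :=
  Cl.node (nat_lit 0x200004) (nat_lit 2) (by decide +kernel) (ClAll.succ (ClAll.succ ClAll.zero n304) s340)

def n349 : Cl (O (nat_lit 3)) (R (nat_lit 102673))
    (p (nat_lit 0xd1) (nat_lit 1) (p (nat_lit 0xc9) (nat_lit 0) (p (nat_lit 0x101) (nat_lit 1) (p (nat_lit 0x119) (nat_lit 0) (p (nat_lit 0xc1) (nat_lit 0) (p (nat_lit 0x81) (nat_lit 1) (p (nat_lit 0x41) (nat_lit 1) (p (nat_lit 0x898a0b090a9a) (nat_lit 0) (p (nat_lit 0x9098a888a1a) (nat_lit 0) (p (nat_lit 0x88890a08079a) (nat_lit 0) (p (nat_lit 0x8088987871a) (nat_lit 0) (p (nat_lit 0x80000800078907088a) (nat_lit 0) (p (nat_lit 0x80000800070886860a) (nat_lit 0) (p (nat_lit 0x8708060782) (nat_lit 0) (p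 (nat_lit 0x687858702) (nat_lit 0) (p (nat_lit 0x8607050482) (nat_lit 0) (p (nat_lit 0x586848402) (nat_lit 0) (p (nat_lit 0x160014) (nat_lit 0) (p (nat_lit 0x50612) (nat_lit 0) (p (nat_lit 0x40592) (nat_lit 0) (p (nat_lit 0x40492) (nat_lit 0) (p (nat_lit 0x30412) (nat_lit 0) (p (nat_lit 0x30212) (nat_lit 0) (p (nat_lit 0x20192) (nat_lit 0) (p (nat_lit 0x20092) (nat_lit 0) (p (nat_lit 0x10012) (nat_lit 0) pn)))))))))))))))))))))))))) :=
  Cl.node (nat_lit 0x200004) (nat_lit 2) (by decide +kernel) (ClAll.succ (ClAll.succ ClAll.zero n305) s346)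

def n350 : Cl (O (nat_lit 3)) (R (nat_lit 102673))
    (p (nat_lit 0x111) (nat_lit 1) (p (nat_lit 0xd1) (nat_lit 1) (p (nat_lit 0xc9) (nat_lit 0) (p (nat_lit 0x119) (nat_lit 1) (p (nat_lit 0xc1) (nat_lit 0) (p (nat_lit 0x81) (nat_lit 1) (p (nat_lit 0x41) (nat_lit 1) (p (nat_lit 0x898a0b090a9a) (nat_lit 0) (p (nat_lit 0x9098a888a1a) (nat_lit 0) (p (nat_lit 0x88890a08079a) (nat_lit 0) (p (nat_lit 0x8088987871a) (nat_lit 0) (p (nat_lit 0x80000800078907088a) (nat_lit 0) (p (nat_lit 0x80000800070886860a) (nat_lit 0) (p (nat_lit 0x8708060782) (nat_lit 0) (p (nat_lit 0x687858702) (nat_lit 0) (p (nat_lit 0x8607050482) (nat_lit 0) (p (nat_lit 0x586848402) (nat_lit 0) (p (nat_lit 0x160014) (nat_lit 0) (p (nat_lit 0x50612) (nat_lit 0) (p (nat_lit 0x40592) (nat_lit 0) (p (nat_lit 0x40492) (nat_lit 0) (p (nat_lit 0x30412) (nat_lit 0) (p (nat_lit 0x30212) (nat_lit 0) (p (nat_lit 0x20192)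 (nat_lit 0) (p (nat_lit 0x20092) (nat_lit 0) (p (nat_lit 0x10012) (nat_lit 0) pn)))))))))))))))))))))))))) :=
  Cl.node (nat_lit 0x200004) (nat_lit 2) (by decide +kernel) (ClAll.succ (ClAll.succ ClAll.zero n306) s354)

def n351 : Cl (O (nat_lit 3)) (R (nat_lit 102673))
    (p (nat_lit 0x111) (nat_lit 0) (p (nat_lit 0x109) (nat_lit 0) (p (nat_lit 0xc9) (nat_lit 1) (p (nat_lit 0x119) (nat_lit 1) (p (nat_lit 0xc1) (nat_lit 0) (p (nat_lit 0x81) (nat_lit 1) (p (nat_lit 0x41) (nat_lit 1) (p (nat_lit 0x898a0b090a9a) (nat_lit 0) (p (nat_lit 0x9098a888a1a) (nat_lit 0) (p (nat_lit 0x88890a08079a) (nat_lit 0) (p (nat_lit 0x8088987871a) (nat_lit 0) (p (nat_lit 0x80000800078907088a) (nat_lit 0) (p (nat_lit 0x80000800070886860a) (nat_lit 0) (p (nat_lit 0x8708060782) (nat_lit 0) (p (nat_lit 0x687858702) (nat_lit 0) (p (nat_lit 0x8607050482) (nat_lit 0) (p (nat_lit 0x586848402) (nat_lit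 0) (p (nat_lit 0x160014) (nat_lit 0) (p (nat_lit 0x50612) (nat_lit 0) (p (nat_lit 0x40592) (nat_lit 0) (p (nat_lit 0x40492) (nat_lit 0) (p (nat_lit 0x30412) (nat_lit 0) (p (nat_lit 0x30212) (nat_lit 0) (p (nat_lit 0x20192) (nat_lit 0) (p (nat_lit 0x20092) (nat_lit 0) (p (nat_lit 0x10012) (nat_lit 0) pn)))))))))))))))))))))))))) :=
  Cl.node (nat_lit 0x200004) (nat_lit 2) (by decide +kernel) (ClAll.succ (ClAll.succ ClAll.zero n307) s358)

def n352 : Cl (O (nat_lit 3)) (R (nat_lit 102673))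
    (p (nat_lit 0x111) (nat_lit 1) (p (nat_lit 0x109) (nat_lit 0) (p (nat_lit 0xc9) (nat_lit 1) (p (nat_lit 0x119) (nat_lit 1) (p (nat_lit 0xc1) (nat_lit 0) (p (nat_lit 0x81) (nat_lit 1) (p (nat_lit 0x41) (nat_lit 1) (p (nat_lit 0x898a0b090a9a) (nat_lit 0) (p (nat_lit 0x9098a888a1a) (nat_lit 0) (p (nat_lit 0x88890a08079a) (nat_lit 0) (p (nat_lit 0x8088987871a) (nat_lit 0) (p (nat_lit 0x80000800078907088a) (nat_lit 0) (p (nat_lit 0x80000800070886860a) (nat_lit 0) (p (nat_lit 0x8708060782) (nat_lit 0) (p (nat_lit 0x687858702) (nat_lit 0) (p (nat_lit 0x8607050482) (nat_lit 0) (p (nat_lit 0x586848402) (nat_lit 0) (p (nat_lit 0x160014) (nat_lit 0) (p (nat_lit 0x50612) (nat_lit 0) (p (nat_lit 0x40592) (nat_lit 0) (p (nat_lit 0x40492) (nat_lit 0) (p (nat_lit 0x30412) (nat_lit 0) (p (nat_lit 0x30212) (nat_lit 0) (p (nat_lit 0x20192) (nat_lit 0) (p (nat_lit 0x20092) (nat_lit 0) (p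 (nat_lit 0x10012) (nat_lit 0) pn)))))))))))))))))))))))))) :=
  Cl.node (nat_lit 0x200004) (nat_lit 2) (by decide +kernel) (ClAll.succ (ClAll.succ ClAll.zero n308) s362)

def n353 : Cl (O (nat_lit 3)) (R (nat_lit 102673))
    (p (nat_lit 0x119) (nat_lit 1) (p (nat_lit 0x111) (nat_lit 0) (p (nat_lit 0x109) (nat_lit 0) (p (nat_lit 0x101) (nat_lit 0) (p (nat_lit 0xc1) (nat_lit 1) (p (nat_lit 0x81) (nat_lit 1) (p (nat_lit 0x41) (nat_lit 1) (p (nat_lit 0x898a0b090a9a) (nat_lit 0) (p (nat_lit 0x9098a888a1a) (nat_lit 0) (p (nat_lit 0x88890a08079a) (nat_lit 0) (p (nat_lit 0x8088987871a) (nat_lit 0) (p (nat_lit 0x80000800078907088a) (nat_lit 0) (p (nat_lit 0x80000800070886860a) (nat_lit 0) (p (nat_lit 0x8708060782) (nat_lit 0) (p (nat_lit 0x687858702) (nat_lit 0) (p (nat_lit 0x8607050482) (nat_lit 0) (p (nat_lit 0x586848402) (nat_lit 0) (p (nat_lit 0x160014) (nat_lit 0) (p (nat_lit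 0x50612) (nat_lit 0) (p (nat_lit 0x40592) (nat_lit 0) (p (nat_lit 0x40492) (nat_lit 0) (p (nat_lit 0x30412) (nat_lit 0) (p (nat_lit 0x30212) (nat_lit 0) (p (nat_lit 0x20192) (nat_lit 0) (p (nat_lit 0x20092) (nat_lit 0) (p (nat_lit 0x10012) (nat_lit 0) pn)))))))))))))))))))))))))) :=
  Cl.node (nat_lit 0x200004) (nat_lit 2) (by decide +kernel) (ClAll.succ (ClAll.succ ClAll.zero s365) s366)

def n354 : Cl (O (nat_lit 3)) (R (nat_lit 102673))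
    (p (nat_lit 0x109) (nat_lit 1) (p (nat_lit 0x101) (nat_lit 0) (p (nat_lit 0x119) (nat_lit 0) (p (nat_lit 0xd1) (nat_lit 0) (p (nat_lit 0x89) (nat_lit 0) (p (nat_lit 0x41) (nat_lit 0) (p (nat_lit 0x898a0b090a9a) (nat_lit 0) (p (nat_lit 0x9098a888a1a) (nat_lit 0) (p (nat_lit 0x88890a08079a) (nat_lit 0) (p (nat_lit 0x8088987871a) (nat_lit 0) (p (nat_lit 0x80000800078907088a) (nat_lit 0) (p (nat_lit 0x80000800070886860a) (nat_lit 0) (p (nat_lit 0x8708060782) (nat_lit 0) (p (nat_lit 0x687858702) (nat_lit 0) (p (nat_lit 0x8607050482) (nat_lit 0) (p (nat_lit 0x586848402) (nat_lit 0) (p (nat_lit 0x160014) (nat_lit 0) (p (nat_lit 0x50612) (nat_lit 0) (p (nat_lit 0x40592) (nat_lit 0) (p (nat_lit 0x40492) (nat_lit 0) (p (nat_lit 0x30412) (nat_lit 0) (p (nat_lit 0x30212) (nat_lit 0) (p (nat_lit 0x20192) (nat_lit 0) (p (nat_lit 0x20092) (nat_lit 0) (p (nat_lit 0x10012) (nat_lit 0)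 pn))))))))))))))))))))))))) :=
  Cl.node (nat_lit 0xc9) (nat_lit 2) (by decide +kernel) (ClAll.succ (ClAll.succ ClAll.zero s1) n309)

def n355 : Cl (O (nat_lit 3)) (R (nat_lit 102673))
    (p (nat_lit 0x81) (nat_lit 0) (p (nat_lit 0x101) (nat_lit 1) (p (nat_lit 0x119) (nat_lit 0) (p (nat_lit 0xd1) (nat_lit 0) (p (nat_lit 0x89) (nat_lit 0) (p (nat_lit 0x41) (nat_lit 0) (p (nat_lit 0x898a0b090a9a) (nat_lit 0) (p (nat_lit 0x9098a888a1a) (nat_lit 0) (p (nat_lit 0x88890a08079a) (nat_lit 0) (p (nat_lit 0x8088987871a) (nat_lit 0) (p (nat_lit 0x80000800078907088a) (nat_lit 0) (p (nat_lit 0x80000800070886860a) (nat_lit 0) (p (nat_lit 0x8708060782) (nat_lit 0) (p (nat_lit 0x687858702) (nat_lit 0) (p (nat_lit 0x8607050482) (nat_lit 0) (p (nat_lit 0x586848402) (nat_lit 0) (p (nat_lit 0x160014) (nat_lit 0) (p (nat_lit 0x50612) (nat_lit 0) (p (nat_lit 0x40592) (nat_lit 0) (p (nat_lit 0x40492)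 (nat_lit 0) (p (nat_lit 0x30412) (nat_lit 0) (p (nat_lit 0x30212) (nat_lit 0) (p (nat_lit 0x20192) (nat_lit 0) (p (nat_lit 0x20092) (nat_lit 0) (p (nat_lit 0x10012) (nat_lit 0) pn))))))))))))))))))))))))) :=
  Cl.node (nat_lit 0xc9) (nat_lit 2) (by decide +kernel) (ClAll.succ (ClAll.succ ClAll.zero n310) n311)

def n356 : Cl (O (nat_lit 3)) (R (nat_lit 102673))
    (p (nat_lit 0x81) (nat_lit 1) (p (nat_lit 0x101) (nat_lit 1) (p (nat_lit 0x119) (nat_lit 0) (p (nat_lit 0xd1) (nat_lit 0) (p (nat_lit 0x89) (nat_lit 0) (p (nat_lit 0x41) (nat_lit 0) (p (nat_lit 0x898a0b090a9a) (nat_lit 0) (p (nat_lit 0x9098a888a1a) (nat_lit 0) (p (nat_lit 0x88890a08079a) (nat_lit 0) (p (nat_lit 0x8088987871a) (nat_lit 0) (p (nat_lit 0x80000800078907088a) (nat_lit 0) (p (nat_lit 0x80000800070886860a) (nat_lit 0) (p (nat_lit 0x8708060782) (nat_lit 0) (p (nat_lit 0x687858702) (nat_lit 0) (p (nat_lit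 0x8607050482) (nat_lit 0) (p (nat_lit 0x586848402) (nat_lit 0) (p (nat_lit 0x160014) (nat_lit 0) (p (nat_lit 0x50612) (nat_lit 0) (p (nat_lit 0x40592) (nat_lit 0) (p (nat_lit 0x40492) (nat_lit 0) (p (nat_lit 0x30412) (nat_lit 0) (p (nat_lit 0x30212) (nat_lit 0) (p (nat_lit 0x20192) (nat_lit 0) (p (nat_lit 0x20092) (nat_lit 0) (p (nat_lit 0x10012) (nat_lit 0) pn))))))))))))))))))))))))) :=
  Cl.node (nat_lit 0xc1) (nat_lit 2) (by decide +kernel) (ClAll.succ (ClAll.succ ClAll.zero n312) s48)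

def n357 : Cl (O (nat_lit 3)) (R (nat_lit 102673))
    (p (nat_lit 0xc9) (nat_lit 1) (p (nat_lit 0xc1) (nat_lit 0) (p (nat_lit 0x119) (nat_lit 1) (p (nat_lit 0xd1) (nat_lit 0) (p (nat_lit 0x89) (nat_lit 0) (p (nat_lit 0x41) (nat_lit 0) (p (nat_lit 0x898a0b090a9a) (nat_lit 0) (p (nat_lit 0x9098a888a1a) (nat_lit 0) (p (nat_lit 0x88890a08079a) (nat_lit 0) (p (nat_lit 0x8088987871a) (nat_lit 0) (p (nat_lit 0x80000800078907088a) (nat_lit 0) (p (nat_lit 0x80000800070886860a) (nat_lit 0) (p (nat_lit 0x8708060782) (nat_lit 0) (p (nat_lit 0x687858702) (nat_lit 0) (p (nat_lit 0x8607050482) (nat_lit 0) (p (nat_lit 0x586848402) (nat_lit 0) (p (nat_lit 0x160014) (nat_lit 0) (p (nat_lit 0x50612) (nat_lit 0) (p (nat_lit 0x40592) (nat_lit 0) (p (nat_lit 0x40492) (nat_lit 0) (p (nat_lit 0x30412) (nat_lit 0) (p (nat_lit 0x30212) (nat_lit 0) (p (nat_lit 0x20192) (nat_lit 0) (p (nat_lit 0x20092)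 (nat_lit 0) (p (nat_lit 0x10012) (nat_lit 0) pn))))))))))))))))))))))))) :=
  Cl.node (nat_lit 0x109) (nat_lit 2) (by decide +kernel) (ClAll.succ (ClAll.succ ClAll.zero s50) n313)

def n358 : Cl (O (nat_lit 3)) (R (nat_lit 102673))
    (p (nat_lit 0x81) (nat_lit 0) (p (nat_lit 0xc1) (nat_lit 1) (p (nat_lit 0x119) (nat_lit 1) (p (nat_lit 0xd1) (nat_lit 0) (p (nat_lit 0x89) (nat_lit 0) (p (nat_lit 0x41) (nat_lit 0) (p (nat_lit 0x898a0b090a9a) (nat_lit 0) (p (nat_lit 0x9098a888a1a) (nat_lit 0) (p (nat_lit 0x88890a08079a) (nat_lit 0) (p (nat_lit 0x8088987871a) (nat_lit 0) (p (nat_lit 0x80000800078907088a) (nat_lit 0) (p (nat_lit 0x80000800070886860a) (nat_lit 0) (p (nat_lit 0x8708060782) (nat_lit 0) (p (nat_lit 0x687858702) (nat_lit 0) (p (nat_lit 0x8607050482) (nat_lit 0) (p (nat_lit 0x586848402) (nat_lit 0) (p (nat_lit 0x160014) (nat_lit 0) (p (nat_lit 0x50612) (nat_lit 0)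 (p (nat_lit 0x40592) (nat_lit 0) (p (nat_lit 0x40492) (nat_lit 0) (p (nat_lit 0x30412) (nat_lit 0) (p (nat_lit 0x30212) (nat_lit 0) (p (nat_lit 0x20192) (nat_lit 0) (p (nat_lit 0x20092) (nat_lit 0) (p (nat_lit 0x10012) (nat_lit 0) pn))))))))))))))))))))))))) :=
  Cl.node (nat_lit 0x109) (nat_lit 2) (by decide +kernel) (ClAll.succ (ClAll.succ ClAll.zero s54) n314)

def n359 : Cl (O (nat_lit 3)) (R (nat_lit 102673))
    (p (nat_lit 0x81) (nat_lit 1) (p (nat_lit 0xc1) (nat_lit 1) (p (nat_lit 0x119) (nat_lit 1) (p (nat_lit 0xd1) (nat_lit 0) (p (nat_lit 0x89) (nat_lit 0) (p (nat_lit 0x41) (nat_lit 0) (p (nat_lit 0x898a0b090a9a) (nat_lit 0) (p (nat_lit 0x9098a888a1a) (nat_lit 0) (p (nat_lit 0x88890a08079a) (nat_lit 0) (p (nat_lit 0x8088987871a) (nat_lit 0) (p (nat_lit 0x80000800078907088a) (nat_lit 0) (p (nat_lit 0x80000800070886860a) (nat_lit 0) (p (nat_lit 0x8708060782) (nat_lit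 0) (p (nat_lit 0x687858702) (nat_lit 0) (p (nat_lit 0x8607050482) (nat_lit 0) (p (nat_lit 0x586848402) (nat_lit 0) (p (nat_lit 0x160014) (nat_lit 0) (p (nat_lit 0x50612) (nat_lit 0) (p (nat_lit 0x40592) (nat_lit 0) (p (nat_lit 0x40492) (nat_lit 0) (p (nat_lit 0x30412) (nat_lit 0) (p (nat_lit 0x30212) (nat_lit 0) (p (nat_lit 0x20192) (nat_lit 0) (p (nat_lit 0x20092) (nat_lit 0) (p (nat_lit 0x10012) (nat_lit 0) pn))))))))))))))))))))))))) :=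
  Cl.node (nat_lit 0x101) (nat_lit 2) (by decide +kernel) (ClAll.succ (ClAll.succ ClAll.zero n315) n316)

def n360 : Cl (O (nat_lit 3)) (R (nat_lit 102673))
    (p (nat_lit 0x109) (nat_lit 1) (p (nat_lit 0x101) (nat_lit 0) (p (nat_lit 0x111) (nat_lit 0) (p (nat_lit 0xd1) (nat_lit 1) (p (nat_lit 0x89) (nat_lit 0) (p (nat_lit 0x41) (nat_lit 0) (p (nat_lit 0x898a0b090a9a) (nat_lit 0) (p (nat_lit 0x9098a888a1a) (nat_lit 0) (p (nat_lit 0x88890a08079a) (nat_lit 0) (p (nat_lit 0x8088987871a) (nat_lit 0) (p (nat_lit 0x80000800078907088a) (nat_lit 0) (p (nat_lit 0x80000800070886860a) (nat_lit 0) (p (nat_lit 0x8708060782) (nat_lit 0) (p (nat_lit 0x687858702) (nat_lit 0) (p (nat_lit 0x8607050482) (nat_lit 0) (p (nat_lit 0x586848402) (nat_lit 0) (p (nat_lit 0x160014) (nat_lit 0) (p (nat_lit 0x50612) (nat_lit 0) (p (nat_lit 0x40592) (nat_lit 0) (p (nat_lit 0x40492) (nat_lit 0) (p (nat_lit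 0x30412) (nat_lit 0) (p (nat_lit 0x30212) (nat_lit 0) (p (nat_lit 0x20192) (nat_lit 0) (p (nat_lit 0x20092) (nat_lit 0) (p (nat_lit 0x10012) (nat_lit 0) pn))))))))))))))))))))))))) :=
  Cl.node (nat_lit 0x200004) (nat_lit 2) (by decide +kernel) (ClAll.succ (ClAll.succ ClAll.zero n317) s78)

def n361 : Cl (O (nat_lit 3)) (R (nat_lit 102673))
    (p (nat_lit 0x81) (nat_lit 0) (p (nat_lit 0x101) (nat_lit 1) (p (nat_lit 0x111) (nat_lit 0) (p (nat_lit 0xd1) (nat_lit 1) (p (nat_lit 0x89) (nat_lit 0) (p (nat_lit 0x41) (nat_lit 0) (p (nat_lit 0x898a0b090a9a) (nat_lit 0) (p (nat_lit 0x9098a888a1a) (nat_lit 0) (p (nat_lit 0x88890a08079a) (nat_lit 0) (p (nat_lit 0x8088987871a) (nat_lit 0) (p (nat_lit 0x80000800078907088a) (nat_lit 0) (p (nat_lit 0x80000800070886860a) (nat_lit 0) (p (nat_lit 0x8708060782) (nat_lit 0) (p (nat_lit 0x687858702) (nat_lit 0) (p (nat_lit 0x8607050482) (nat_lit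 0) (p (nat_lit 0x586848402) (nat_lit 0) (p (nat_lit 0x160014) (nat_lit 0) (p (nat_lit 0x50612) (nat_lit 0) (p (nat_lit 0x40592) (nat_lit 0) (p (nat_lit 0x40492) (nat_lit 0) (p (nat_lit 0x30412) (nat_lit 0) (p (nat_lit 0x30212) (nat_lit 0) (p (nat_lit 0x20192) (nat_lit 0) (p (nat_lit 0x20092) (nat_lit 0) (p (nat_lit 0x10012) (nat_lit 0) pn))))))))))))))))))))))))) :=
  Cl.node (nat_lit 0x200004) (nat_lit 2) (by decide +kernel) (ClAll.succ (ClAll.succ ClAll.zero n318) s84)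

def n362 : Cl (O (nat_lit 3)) (R (nat_lit 102673))
    (p (nat_lit 0x81) (nat_lit 1) (p (nat_lit 0x101) (nat_lit 1) (p (nat_lit 0x111) (nat_lit 0) (p (nat_lit 0xd1) (nat_lit 1) (p (nat_lit 0x89) (nat_lit 0) (p (nat_lit 0x41) (nat_lit 0) (p (nat_lit 0x898a0b090a9a) (nat_lit 0) (p (nat_lit 0x9098a888a1a) (nat_lit 0) (p (nat_lit 0x88890a08079a) (nat_lit 0) (p (nat_lit 0x8088987871a) (nat_lit 0) (p (nat_lit 0x80000800078907088a) (nat_lit 0) (p (nat_lit 0x80000800070886860a) (nat_lit 0) (p (nat_lit 0x8708060782) (nat_lit 0) (p (nat_lit 0x687858702) (nat_lit 0) (p (nat_lit 0x8607050482) (nat_lit 0) (p (nat_lit 0x586848402) (nat_lit 0) (p (nat_lit 0x160014) (nat_lit 0) (p (nat_lit 0x50612) (nat_lit 0) (p (nat_lit 0x40592) (nat_lit 0) (p (nat_lit 0x40492) (nat_lit 0) (p (nat_lit 0x30412) (nat_lit 0) (p (nat_lit 0x30212) (nat_lit 0) (p (nat_lit 0x20192) (nat_lit 0) (p (nat_lit 0x20092)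 (nat_lit 0) (p (nat_lit 0x10012) (nat_lit 0) pn))))))))))))))))))))))))) :=
  Cl.node (nat_lit 0xc1) (nat_lit 2) (by decide +kernel) (ClAll.succ (ClAll.succ ClAll.zero n319) s110)

def n363 : Cl (O (nat_lit 3)) (R (nat_lit 102673))
    (p (nat_lit 0xc1) (nat_lit 1) (p (nat_lit 0x81) (nat_lit 1) (p (nat_lit 0x111) (nat_lit 1) (p (nat_lit 0xd1) (nat_lit 1) (p (nat_lit 0x89) (nat_lit 0) (p (nat_lit 0x41) (nat_lit 0) (p (nat_lit 0x898a0b090a9a) (nat_lit 0) (p (nat_lit 0x9098a888a1a) (nat_lit 0) (p (nat_lit 0x88890a08079a) (nat_lit 0) (p (nat_lit 0x8088987871a) (nat_lit 0) (p (nat_lit 0x80000800078907088a) (nat_lit 0) (p (nat_lit 0x80000800070886860a) (nat_lit 0) (p (nat_lit 0x8708060782) (nat_lit 0) (p (nat_lit 0x687858702) (nat_lit 0) (p (nat_lit 0x8607050482) (nat_lit 0) (p (nat_lit 0x586848402) (nat_lit 0) (p (nat_lit 0x160014) (nat_lit 0) (p (nat_lit 0x50612) (nat_lit 0)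 (p (nat_lit 0x40592) (nat_lit 0) (p (nat_lit 0x40492) (nat_lit 0) (p (nat_lit 0x30412) (nat_lit 0) (p (nat_lit 0x30212) (nat_lit 0) (p (nat_lit 0x20192) (nat_lit 0) (p (nat_lit 0x20092) (nat_lit 0) (p (nat_lit 0x10012) (nat_lit 0) pn))))))))))))))))))))))))) :=
  Cl.node (nat_lit 0x101) (nat_lit 2) (by decide +kernel) (ClAll.succ (ClAll.succ ClAll.zero n320) n321)

def n364 : Cl (O (nat_lit 3)) (R (nat_lit 102673))
    (p (nat_lit 0x109) (nat_lit 0) (p (nat_lit 0x101) (nat_lit 0) (p (nat_lit 0x119) (nat_lit 0) (p (nat_lit 0xc9) (nat_lit 0) (p (nat_lit 0x89) (nat_lit 1) (p (nat_lit 0x41) (nat_lit 0) (p (nat_lit 0x898a0b090a9a) (nat_lit 0) (p (nat_lit 0x9098a888a1a) (nat_lit 0) (p (nat_lit 0x88890a08079a) (nat_lit 0) (p (nat_lit 0x8088987871a) (nat_lit 0) (p (nat_lit 0x80000800078907088a) (nat_lit 0) (p (nat_lit 0x80000800070886860a) (nat_lit 0) (p (nat_lit 0x8708060782) (nat_lit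 0) (p (nat_lit 0x687858702) (nat_lit 0) (p (nat_lit 0x8607050482) (nat_lit 0) (p (nat_lit 0x586848402) (nat_lit 0) (p (nat_lit 0x160014) (nat_lit 0) (p (nat_lit 0x50612) (nat_lit 0) (p (nat_lit 0x40592) (nat_lit 0) (p (nat_lit 0x40492) (nat_lit 0) (p (nat_lit 0x30412) (nat_lit 0) (p (nat_lit 0x30212) (nat_lit 0) (p (nat_lit 0x20192) (nat_lit 0) (p (nat_lit 0x20092) (nat_lit 0) (p (nat_lit 0x10012) (nat_lit 0) pn))))))))))))))))))))))))) :=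
  Cl.node (nat_lit 0x111) (nat_lit 2) (by decide +kernel) (ClAll.succ (ClAll.succ ClAll.zero s126) n322)

def n365 : Cl (O (nat_lit 3)) (R (nat_lit 102673))
    (p (nat_lit 0x109) (nat_lit 1) (p (nat_lit 0x101) (nat_lit 0) (p (nat_lit 0x119) (nat_lit 0) (p (nat_lit 0xc9) (nat_lit 0) (p (nat_lit 0x89) (nat_lit 1) (p (nat_lit 0x41) (nat_lit 0) (p (nat_lit 0x898a0b090a9a) (nat_lit 0) (p (nat_lit 0x9098a888a1a) (nat_lit 0) (p (nat_lit 0x88890a08079a) (nat_lit 0) (p (nat_lit 0x8088987871a) (nat_lit 0) (p (nat_lit 0x80000800078907088a) (nat_lit 0) (p (nat_lit 0x80000800070886860a) (nat_lit 0) (p (nat_lit 0x8708060782) (nat_lit 0) (p (nat_lit 0x687858702) (nat_lit 0) (p (nat_lit 0x8607050482) (nat_lit 0) (p (nat_lit 0x586848402) (nat_lit 0) (p (nat_lit 0x160014) (nat_lit 0) (p (nat_lit 0x50612) (nat_lit 0) (p (nat_lit 0x40592) (nat_lit 0) (p (nat_lit 0x40492) (nat_lit 0) (p (nat_lit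 0x30412) (nat_lit 0) (p (nat_lit 0x30212) (nat_lit 0) (p (nat_lit 0x20192) (nat_lit 0) (p (nat_lit 0x20092) (nat_lit 0) (p (nat_lit 0x10012) (nat_lit 0) pn))))))))))))))))))))))))) :=
  Cl.node (nat_lit 0xd1) (nat_lit 2) (by decide +kernel) (ClAll.succ (ClAll.succ ClAll.zero n323) n324)

def n366 : Cl (O (nat_lit 3)) (R (nat_lit 102673))
    (p (nat_lit 0xc1) (nat_lit 0) (p (nat_lit 0x101) (nat_lit 1) (p (nat_lit 0x119) (nat_lit 0) (p (nat_lit 0xc9) (nat_lit 0) (p (nat_lit 0x89) (nat_lit 1) (p (nat_lit 0x41) (nat_lit 0) (p (nat_lit 0x898a0b090a9a) (nat_lit 0) (p (nat_lit 0x9098a888a1a) (nat_lit 0) (p (nat_lit 0x88890a08079a) (nat_lit 0) (p (nat_lit 0x8088987871a) (nat_lit 0) (p (nat_lit 0x80000800078907088a) (nat_lit 0) (p (nat_lit 0x80000800070886860a) (nat_lit 0) (p (nat_lit 0x8708060782) (nat_lit 0) (p (nat_lit 0x687858702) (nat_lit 0) (p (nat_lit 0x8607050482) (nat_lit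 0) (p (nat_lit 0x586848402) (nat_lit 0) (p (nat_lit 0x160014) (nat_lit 0) (p (nat_lit 0x50612) (nat_lit 0) (p (nat_lit 0x40592) (nat_lit 0) (p (nat_lit 0x40492) (nat_lit 0) (p (nat_lit 0x30412) (nat_lit 0) (p (nat_lit 0x30212) (nat_lit 0) (p (nat_lit 0x20192) (nat_lit 0) (p (nat_lit 0x20092) (nat_lit 0) (p (nat_lit 0x10012) (nat_lit 0) pn))))))))))))))))))))))))) :=
  Cl.node (nat_lit 0xd1) (nat_lit 2) (by decide +kernel) (ClAll.succ (ClAll.succ ClAll.zero n325) n326)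

def n367 : Cl (O (nat_lit 3)) (R (nat_lit 102673))
    (p (nat_lit 0xd1) (nat_lit 1) (p (nat_lit 0xc1) (nat_lit 0) (p (nat_lit 0x119) (nat_lit 1) (p (nat_lit 0xc9) (nat_lit 0) (p (nat_lit 0x89) (nat_lit 1) (p (nat_lit 0x41) (nat_lit 0) (p (nat_lit 0x898a0b090a9a) (nat_lit 0) (p (nat_lit 0x9098a888a1a) (nat_lit 0) (p (nat_lit 0x88890a08079a) (nat_lit 0) (p (nat_lit 0x8088987871a) (nat_lit 0) (p (nat_lit 0x80000800078907088a) (nat_lit 0) (p (nat_lit 0x80000800070886860a) (nat_lit 0) (p (nat_lit 0x8708060782) (nat_lit 0) (p (nat_lit 0x687858702) (nat_lit 0) (p (nat_lit 0x8607050482) (nat_lit 0) (p (nat_lit 0x586848402) (nat_lit 0) (p (nat_lit 0x160014) (nat_lit 0) (p (nat_lit 0x50612) (nat_lit 0) (p (nat_lit 0x40592) (nat_lit 0) (p (nat_lit 0x40492) (nat_lit 0) (p (nat_lit 0x30412) (nat_lit 0) (p (nat_lit 0x30212) (nat_lit 0) (p (nat_lit 0x20192) (nat_lit 0) (p (nat_lit 0x20092)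 (nat_lit 0) (p (nat_lit 0x10012) (nat_lit 0) pn))))))))))))))))))))))))) :=
  Cl.node (nat_lit 0x111) (nat_lit 2) (by decide +kernel) (ClAll.succ (ClAll.succ ClAll.zero s164) n327)

def n368 : Cl (O (nat_lit 3)) (R (nat_lit 102673))
    (p (nat_lit 0x101) (nat_lit 0) (p (nat_lit 0xc1) (nat_lit 1) (p (nat_lit 0x119) (nat_lit 1) (p (nat_lit 0xc9) (nat_lit 0) (p (nat_lit 0x89) (nat_lit 1) (p (nat_lit 0x41) (nat_lit 0) (p (nat_lit 0x898a0b090a9a) (nat_lit 0) (p (nat_lit 0x9098a888a1a) (nat_lit 0) (p (nat_lit 0x88890a08079a) (nat_lit 0) (p (nat_lit 0x8088987871a) (nat_lit 0) (p (nat_lit 0x80000800078907088a) (nat_lit 0) (p (nat_lit 0x80000800070886860a) (nat_lit 0) (p (nat_lit 0x8708060782) (nat_lit 0) (p (nat_lit 0x687858702) (nat_lit 0) (p (nat_lit 0x8607050482) (nat_lit 0) (p (nat_lit 0x586848402) (nat_lit 0) (p (nat_lit 0x160014) (nat_lit 0) (p (nat_lit 0x50612) (nat_lit 0)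 (p (nat_lit 0x40592) (nat_lit 0) (p (nat_lit 0x40492) (nat_lit 0) (p (nat_lit 0x30412) (nat_lit 0) (p (nat_lit 0x30212) (nat_lit 0) (p (nat_lit 0x20192) (nat_lit 0) (p (nat_lit 0x20092) (nat_lit 0) (p (nat_lit 0x10012) (nat_lit 0) pn))))))))))))))))))))))))) :=
  Cl.node (nat_lit 0x111) (nat_lit 2) (by decide +kernel) (ClAll.succ (ClAll.succ ClAll.zero n328) n329)

def n369 : Cl (O (nat_lit 3)) (R (nat_lit 102673))
    (p (nat_lit 0x111) (nat_lit 0) (p (nat_lit 0x101) (nat_lit 0) (p (nat_lit 0x109) (nat_lit 0) (p (nat_lit 0xc9) (nat_lit 1) (p (nat_lit 0x89) (nat_lit 1) (p (nat_lit 0x41) (nat_lit 0) (p (nat_lit 0x898a0b090a9a) (nat_lit 0) (p (nat_lit 0x9098a888a1a) (nat_lit 0) (p (nat_lit 0x88890a08079a) (nat_lit 0) (p (nat_lit 0x8088987871a) (nat_lit 0) (p (nat_lit 0x80000800078907088a) (nat_lit 0) (p (nat_lit 0x80000800070886860a) (nat_lit 0) (p (nat_lit 0x8708060782) (nat_lit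 0) (p (nat_lit 0x687858702) (nat_lit 0) (p (nat_lit 0x8607050482) (nat_lit 0) (p (nat_lit 0x586848402) (nat_lit 0) (p (nat_lit 0x160014) (nat_lit 0) (p (nat_lit 0x50612) (nat_lit 0) (p (nat_lit 0x40592) (nat_lit 0) (p (nat_lit 0x40492) (nat_lit 0) (p (nat_lit 0x30412) (nat_lit 0) (p (nat_lit 0x30212) (nat_lit 0) (p (nat_lit 0x20192) (nat_lit 0) (p (nat_lit 0x20092) (nat_lit 0) (p (nat_lit 0x10012) (nat_lit 0) pn))))))))))))))))))))))))) :=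
  Cl.node (nat_lit 0x119) (nat_lit 2) (by decide +kernel) (ClAll.succ (ClAll.succ ClAll.zero s181) n330)

def n370 : Cl (O (nat_lit 3)) (R (nat_lit 102673))
    (p (nat_lit 0x111) (nat_lit 1) (p (nat_lit 0x101) (nat_lit 0) (p (nat_lit 0x109) (nat_lit 0) (p (nat_lit 0xc9) (nat_lit 1) (p (nat_lit 0x89) (nat_lit 1) (p (nat_lit 0x41) (nat_lit 0) (p (nat_lit 0x898a0b090a9a) (nat_lit 0) (p (nat_lit 0x9098a888a1a) (nat_lit 0) (p (nat_lit 0x88890a08079a) (nat_lit 0) (p (nat_lit 0x8088987871a) (nat_lit 0) (p (nat_lit 0x80000800078907088a) (nat_lit 0) (p (nat_lit 0x80000800070886860a) (nat_lit 0) (p (nat_lit 0x8708060782) (nat_lit 0) (p (nat_lit 0x687858702) (nat_lit 0) (p (nat_lit 0x8607050482) (nat_lit 0) (p (nat_lit 0x586848402) (nat_lit 0) (p (nat_lit 0x160014) (nat_lit 0) (p (nat_lit 0x50612) (nat_lit 0) (p (nat_lit 0x40592) (nat_lit 0) (p (nat_lit 0x40492) (nat_lit 0) (p (nat_lit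 0x30412) (nat_lit 0) (p (nat_lit 0x30212) (nat_lit 0) (p (nat_lit 0x20192) (nat_lit 0) (p (nat_lit 0x20092) (nat_lit 0) (p (nat_lit 0x10012) (nat_lit 0) pn))))))))))))))))))))))))) :=
  Cl.node (nat_lit 0x200004) (nat_lit 2) (by decide +kernel) (ClAll.succ (ClAll.succ ClAll.zero s186) s187)

def n371 : Cl (O (nat_lit 3)) (R (nat_lit 102673))
    (p (nat_lit 0x109) (nat_lit 1) (p (nat_lit 0x101) (nat_lit 0) (p (nat_lit 0x119) (nat_lit 0) (p (nat_lit 0xd1) (nat_lit 0) (p (nat_lit 0x81) (nat_lit 0) (p (nat_lit 0x41) (nat_lit 1) (p (nat_lit 0x898a0b090a9a) (nat_lit 0) (p (nat_lit 0x9098a888a1a) (nat_lit 0) (p (nat_lit 0x88890a08079a) (nat_lit 0) (p (nat_lit 0x8088987871a) (nat_lit 0) (p (nat_lit 0x80000800078907088a) (nat_lit 0) (p (nat_lit 0x80000800070886860a) (nat_lit 0) (p (nat_lit 0x8708060782) (nat_lit 0) (p (nat_lit 0x687858702) (nat_lit 0) (p (nat_lit 0x8607050482) (nat_lit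 0) (p (nat_lit 0x586848402) (nat_lit 0) (p (nat_lit 0x160014) (nat_lit 0) (p (nat_lit 0x50612) (nat_lit 0) (p (nat_lit 0x40592) (nat_lit 0) (p (nat_lit 0x40492) (nat_lit 0) (p (nat_lit 0x30412) (nat_lit 0) (p (nat_lit 0x30212) (nat_lit 0) (p (nat_lit 0x20192) (nat_lit 0) (p (nat_lit 0x20092) (nat_lit 0) (p (nat_lit 0x10012) (nat_lit 0) pn))))))))))))))))))))))))) :=
  Cl.node (nat_lit 0x89) (nat_lit 2) (by decide +kernel) (ClAll.succ (ClAll.succ ClAll.zero n331) n332)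

def n372 : Cl (O (nat_lit 3)) (R (nat_lit 102673))
    (p (nat_lit 0xc1) (nat_lit 0) (p (nat_lit 0x101) (nat_lit 1) (p (nat_lit 0x119) (nat_lit 0) (p (nat_lit 0xd1) (nat_lit 0) (p (nat_lit 0x81) (nat_lit 0) (p (nat_lit 0x41) (nat_lit 1) (p (nat_lit 0x898a0b090a9a) (nat_lit 0) (p (nat_lit 0x9098a888a1a) (nat_lit 0) (p (nat_lit 0x88890a08079a) (nat_lit 0) (p (nat_lit 0x8088987871a) (nat_lit 0) (p (nat_lit 0x80000800078907088a) (nat_lit 0) (p (nat_lit 0x80000800070886860a) (nat_lit 0) (p (nat_lit 0x8708060782) (nat_lit 0) (p (nat_lit 0x687858702) (nat_lit 0) (p (nat_lit 0x8607050482) (nat_lit 0) (p (nat_lit 0x586848402) (nat_lit 0) (p (nat_lit 0x160014) (nat_lit 0) (p (nat_lit 0x50612) (nat_lit 0) (p (nat_lit 0x40592) (nat_lit 0) (p (nat_lit 0x40492) (nat_lit 0) (p (nat_lit 0x30412) (nat_lit 0) (p (nat_lit 0x30212) (nat_lit 0) (p (nat_lit 0x20192) (nat_lit 0) (p (nat_lit 0x20092)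 (nat_lit 0) (p (nat_lit 0x10012) (nat_lit 0) pn))))))))))))))))))))))))) :=
  Cl.node (nat_lit 0x89) (nat_lit 2) (by decide +kernel) (ClAll.succ (ClAll.succ ClAll.zero n333) n334)

def n373 : Cl (O (nat_lit 3)) (R (nat_lit 102673))
    (p (nat_lit 0xc1) (nat_lit 1) (p (nat_lit 0x101) (nat_lit 1) (p (nat_lit 0x119) (nat_lit 0) (p (nat_lit 0xd1) (nat_lit 0) (p (nat_lit 0x81) (nat_lit 0) (p (nat_lit 0x41) (nat_lit 1) (p (nat_lit 0x898a0b090a9a) (nat_lit 0) (p (nat_lit 0x9098a888a1a) (nat_lit 0) (p (nat_lit 0x88890a08079a) (nat_lit 0) (p (nat_lit 0x8088987871a) (nat_lit 0) (p (nat_lit 0x80000800078907088a) (nat_lit 0) (p (nat_lit 0x80000800070886860a) (nat_lit 0) (p (nat_lit 0x8708060782) (nat_lit 0) (p (nat_lit 0x687858702) (nat_lit 0) (p (nat_lit 0x8607050482) (nat_lit 0) (p (nat_lit 0x586848402) (nat_lit 0) (p (nat_lit 0x160014) (nat_lit 0) (p (nat_lit 0x50612) (nat_lit 0)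 (p (nat_lit 0x40592) (nat_lit 0) (p (nat_lit 0x40492) (nat_lit 0) (p (nat_lit 0x30412) (nat_lit 0) (p (nat_lit 0x30212) (nat_lit 0) (p (nat_lit 0x20192) (nat_lit 0) (p (nat_lit 0x20092) (nat_lit 0) (p (nat_lit 0x10012) (nat_lit 0) pn))))))))))))))))))))))))) :=
  Cl.node (nat_lit 0x89) (nat_lit 2) (by decide +kernel) (ClAll.succ (ClAll.succ ClAll.zero n335) n336)

def n374 : Cl (O (nat_lit 3)) (R (nat_lit 102673))
    (p (nat_lit 0xc9) (nat_lit 1) (p (nat_lit 0xc1) (nat_lit 0) (p (nat_lit 0x119) (nat_lit 1) (p (nat_lit 0xd1) (nat_lit 0) (p (nat_lit 0x81) (nat_lit 0) (p (nat_lit 0x41) (nat_lit 1) (p (nat_lit 0x898a0b090a9a) (nat_lit 0) (p (nat_lit 0x9098a888a1a) (nat_lit 0) (p (nat_lit 0x88890a08079a) (nat_lit 0) (p (nat_lit 0x8088987871a) (nat_lit 0) (p (nat_lit 0x80000800078907088a) (nat_lit 0) (p (nat_lit 0x80000800070886860a) (nat_lit 0) (p (nat_lit 0x8708060782) (nat_lit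 0) (p (nat_lit 0x687858702) (nat_lit 0) (p (nat_lit 0x8607050482) (nat_lit 0) (p (nat_lit 0x586848402) (nat_lit 0) (p (nat_lit 0x160014) (nat_lit 0) (p (nat_lit 0x50612) (nat_lit 0) (p (nat_lit 0x40592) (nat_lit 0) (p (nat_lit 0x40492) (nat_lit 0) (p (nat_lit 0x30412) (nat_lit 0) (p (nat_lit 0x30212) (nat_lit 0) (p (nat_lit 0x20192) (nat_lit 0) (p (nat_lit 0x20092) (nat_lit 0) (p (nat_lit 0x10012) (nat_lit 0) pn))))))))))))))))))))))))) :=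
  Cl.node (nat_lit 0x89) (nat_lit 2) (by decide +kernel) (ClAll.succ (ClAll.succ ClAll.zero s237) n337)

def n375 : Cl (O (nat_lit 3)) (R (nat_lit 102673))
    (p (nat_lit 0x101) (nat_lit 0) (p (nat_lit 0xc1) (nat_lit 1) (p (nat_lit 0x119) (nat_lit 1) (p (nat_lit 0xd1) (nat_lit 0) (p (nat_lit 0x81) (nat_lit 0) (p (nat_lit 0x41) (nat_lit 1) (p (nat_lit 0x898a0b090a9a) (nat_lit 0) (p (nat_lit 0x9098a888a1a) (nat_lit 0) (p (nat_lit 0x88890a08079a) (nat_lit 0) (p (nat_lit 0x8088987871a) (nat_lit 0) (p (nat_lit 0x80000800078907088a) (nat_lit 0) (p (nat_lit 0x80000800070886860a) (nat_lit 0) (p (nat_lit 0x8708060782) (nat_lit 0) (p (nat_lit 0x687858702) (nat_lit 0) (p (nat_lit 0x8607050482) (nat_lit 0) (p (nat_lit 0x586848402) (nat_lit 0) (p (nat_lit 0x160014) (nat_lit 0) (p (nat_lit 0x50612) (nat_lit 0) (p (nat_lit 0x40592) (nat_lit 0) (p (nat_lit 0x40492) (nat_lit 0) (p (nat_lit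 0x30412) (nat_lit 0) (p (nat_lit 0x30212) (nat_lit 0) (p (nat_lit 0x20192) (nat_lit 0) (p (nat_lit 0x20092) (nat_lit 0) (p (nat_lit 0x10012) (nat_lit 0) pn))))))))))))))))))))))))) :=
  Cl.node (nat_lit 0x89) (nat_lit 2) (by decide +kernel) (ClAll.succ (ClAll.succ ClAll.zero s244) n338)

def n376 : Cl (O (nat_lit 3)) (R (nat_lit 102673))
    (p (nat_lit 0x101) (nat_lit 1) (p (nat_lit 0xc1) (nat_lit 1) (p (nat_lit 0x119) (nat_lit 1) (p (nat_lit 0xd1) (nat_lit 0) (p (nat_lit 0x81) (nat_lit 0) (p (nat_lit 0x41) (nat_lit 1) (p (nat_lit 0x898a0b090a9a) (nat_lit 0) (p (nat_lit 0x9098a888a1a) (nat_lit 0) (p (nat_lit 0x88890a08079a) (nat_lit 0) (p (nat_lit 0x8088987871a) (nat_lit 0) (p (nat_lit 0x80000800078907088a) (nat_lit 0) (p (nat_lit 0x80000800070886860a) (nat_lit 0) (p (nat_lit 0x8708060782) (nat_lit 0) (p (nat_lit 0x687858702) (nat_lit 0) (p (nat_lit 0x8607050482) (nat_lit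 0) (p (nat_lit 0x586848402) (nat_lit 0) (p (nat_lit 0x160014) (nat_lit 0) (p (nat_lit 0x50612) (nat_lit 0) (p (nat_lit 0x40592) (nat_lit 0) (p (nat_lit 0x40492) (nat_lit 0) (p (nat_lit 0x30412) (nat_lit 0) (p (nat_lit 0x30212) (nat_lit 0) (p (nat_lit 0x20192) (nat_lit 0) (p (nat_lit 0x20092) (nat_lit 0) (p (nat_lit 0x10012) (nat_lit 0) pn))))))))))))))))))))))))) :=
  Cl.node (nat_lit 0x89) (nat_lit 2) (by decide +kernel) (ClAll.succ (ClAll.succ ClAll.zero n339) n340)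

def n377 : Cl (O (nat_lit 3)) (R (nat_lit 102673))
    (p (nat_lit 0x109) (nat_lit 1) (p (nat_lit 0x101) (nat_lit 0) (p (nat_lit 0x111) (nat_lit 0) (p (nat_lit 0xd1) (nat_lit 1) (p (nat_lit 0x81) (nat_lit 0) (p (nat_lit 0x41) (nat_lit 1) (p (nat_lit 0x898a0b090a9a) (nat_lit 0) (p (nat_lit 0x9098a888a1a) (nat_lit 0) (p (nat_lit 0x88890a08079a) (nat_lit 0) (p (nat_lit 0x8088987871a) (nat_lit 0) (p (nat_lit 0x80000800078907088a) (nat_lit 0) (p (nat_lit 0x80000800070886860a) (nat_lit 0) (p (nat_lit 0x8708060782) (nat_lit 0) (p (nat_lit 0x687858702) (nat_lit 0) (p (nat_lit 0x8607050482) (nat_lit 0) (p (nat_lit 0x586848402) (nat_lit 0) (p (nat_lit 0x160014) (nat_lit 0) (p (nat_lit 0x50612) (nat_lit 0) (p (nat_lit 0x40592) (nat_lit 0) (p (nat_lit 0x40492) (nat_lit 0) (p (nat_lit 0x30412) (nat_lit 0) (p (nat_lit 0x30212) (nat_lit 0) (p (nat_lit 0x20192) (nat_lit 0) (p (nat_lit 0x20092)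 (nat_lit 0) (p (nat_lit 0x10012) (nat_lit 0) pn))))))))))))))))))))))))) :=
  Cl.node (nat_lit 0x89) (nat_lit 2) (by decide +kernel) (ClAll.succ (ClAll.succ ClAll.zero s262) n341)

def n378 : Cl (O (nat_lit 3)) (R (nat_lit 102673))
    (p (nat_lit 0x89) (nat_lit 0) (p (nat_lit 0x101) (nat_lit 1) (p (nat_lit 0x111) (nat_lit 0) (p (nat_lit 0xd1) (nat_lit 1) (p (nat_lit 0x81) (nat_lit 0) (p (nat_lit 0x41) (nat_lit 1) (p (nat_lit 0x898a0b090a9a) (nat_lit 0) (p (nat_lit 0x9098a888a1a) (nat_lit 0) (p (nat_lit 0x88890a08079a) (nat_lit 0) (p (nat_lit 0x8088987871a) (nat_lit 0) (p (nat_lit 0x80000800078907088a) (nat_lit 0) (p (nat_lit 0x80000800070886860a) (nat_lit 0) (p (nat_lit 0x8708060782) (nat_lit 0) (p (nat_lit 0x687858702) (nat_lit 0) (p (nat_lit 0x8607050482) (nat_lit 0) (p (nat_lit 0x586848402) (nat_lit 0) (p (nat_lit 0x160014) (nat_lit 0) (p (nat_lit 0x50612) (nat_lit 0)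 (p (nat_lit 0x40592) (nat_lit 0) (p (nat_lit 0x40492) (nat_lit 0) (p (nat_lit 0x30412) (nat_lit 0) (p (nat_lit 0x30212) (nat_lit 0) (p (nat_lit 0x20192) (nat_lit 0) (p (nat_lit 0x20092) (nat_lit 0) (p (nat_lit 0x10012) (nat_lit 0) pn))))))))))))))))))))))))) :=
  Cl.node (nat_lit 0x200004) (nat_lit 2) (by decide +kernel) (ClAll.succ (ClAll.succ ClAll.zero n342) s289)

def n379 : Cl (O (nat_lit 3)) (R (nat_lit 102673))
    (p (nat_lit 0x89) (nat_lit 1) (p (nat_lit 0x101) (nat_lit 1) (p (nat_lit 0x111) (nat_lit 0) (p (nat_lit 0xd1) (nat_lit 1) (p (nat_lit 0x81) (nat_lit 0) (p (nat_lit 0x41) (nat_lit 1) (p (nat_lit 0x898a0b090a9a) (nat_lit 0) (p (nat_lit 0x9098a888a1a) (nat_lit 0) (p (nat_lit 0x88890a08079a) (nat_lit 0) (p (nat_lit 0x8088987871a) (nat_lit 0) (p (nat_lit 0x80000800078907088a) (nat_lit 0) (p (nat_lit 0x80000800070886860a) (nat_lit 0) (p (nat_lit 0x8708060782)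 (nat_lit 0) (p (nat_lit 0x687858702) (nat_lit 0) (p (nat_lit 0x8607050482) (nat_lit 0) (p (nat_lit 0x586848402) (nat_lit 0) (p (nat_lit 0x160014) (nat_lit 0) (p (nat_lit 0x50612) (nat_lit 0) (p (nat_lit 0x40592) (nat_lit 0) (p (nat_lit 0x40492) (nat_lit 0) (p (nat_lit 0x30412) (nat_lit 0) (p (nat_lit 0x30212) (nat_lit 0) (p (nat_lit 0x20192) (nat_lit 0) (p (nat_lit 0x20092) (nat_lit 0) (p (nat_lit 0x10012) (nat_lit 0) pn))))))))))))))))))))))))) :=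
  Cl.node (nat_lit 0xc9) (nat_lit 2) (by decide +kernel) (ClAll.succ (ClAll.succ ClAll.zero n343) n344)

def n380 : Cl (O (nat_lit 3)) (R (nat_lit 102673))
    (p (nat_lit 0xc9) (nat_lit 1) (p (nat_lit 0x89) (nat_lit 1) (p (nat_lit 0x111) (nat_lit 1) (p (nat_lit 0xd1) (nat_lit 1) (p (nat_lit 0x81) (nat_lit 0) (p (nat_lit 0x41) (nat_lit 1) (p (nat_lit 0x898a0b090a9a) (nat_lit 0) (p (nat_lit 0x9098a888a1a) (nat_lit 0) (p (nat_lit 0x88890a08079a) (nat_lit 0) (p (nat_lit 0x8088987871a) (nat_lit 0) (p (nat_lit 0x80000800078907088a) (nat_lit 0) (p (nat_lit 0x80000800070886860a) (nat_lit 0) (p (nat_lit 0x8708060782) (nat_lit 0) (p (nat_lit 0x687858702) (nat_lit 0) (p (nat_lit 0x8607050482) (nat_lit 0) (p (nat_lit 0x586848402) (nat_lit 0) (p (nat_lit 0x160014) (nat_lit 0) (p (nat_lit 0x50612) (nat_lit 0) (p (nat_lit 0x40592) (nat_lit 0) (p (nat_lit 0x40492) (nat_lit 0) (p (nat_lit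 0x30412) (nat_lit 0) (p (nat_lit 0x30212) (nat_lit 0) (p (nat_lit 0x20192) (nat_lit 0) (p (nat_lit 0x20092) (nat_lit 0) (p (nat_lit 0x10012) (nat_lit 0) pn))))))))))))))))))))))))) :=
  Cl.node (nat_lit 0x109) (nat_lit 2) (by decide +kernel) (ClAll.succ (ClAll.succ ClAll.zero n345) s323)

def n381 : Cl (O (nat_lit 3)) (R (nat_lit 102673))
    (p (nat_lit 0x109) (nat_lit 0) (p (nat_lit 0x101) (nat_lit 0) (p (nat_lit 0x119) (nat_lit 0) (p (nat_lit 0xc1) (nat_lit 0) (p (nat_lit 0x81) (nat_lit 1) (p (nat_lit 0x41) (nat_lit 1) (p (nat_lit 0x898a0b090a9a) (nat_lit 0) (p (nat_lit 0x9098a888a1a) (nat_lit 0) (p (nat_lit 0x88890a08079a) (nat_lit 0) (p (nat_lit 0x8088987871a) (nat_lit 0) (p (nat_lit 0x80000800078907088a) (nat_lit 0) (p (nat_lit 0x80000800070886860a) (nat_lit 0) (p (nat_lit 0x8708060782) (nat_lit 0) (p (nat_lit 0x687858702) (nat_lit 0) (p (nat_lit 0x8607050482) (nat_lit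 0) (p (nat_lit 0x586848402) (nat_lit 0) (p (nat_lit 0x160014) (nat_lit 0) (p (nat_lit 0x50612) (nat_lit 0) (p (nat_lit 0x40592) (nat_lit 0) (p (nat_lit 0x40492) (nat_lit 0) (p (nat_lit 0x30412) (nat_lit 0) (p (nat_lit 0x30212) (nat_lit 0) (p (nat_lit 0x20192) (nat_lit 0) (p (nat_lit 0x20092) (nat_lit 0) (p (nat_lit 0x10012) (nat_lit 0) pn))))))))))))))))))))))))) :=
  Cl.node (nat_lit 0x111) (nat_lit 2) (by decide +kernel) (ClAll.succ (ClAll.succ ClAll.zero s324) n346)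

def n382 : Cl (O (nat_lit 3)) (R (nat_lit 102673))
    (p (nat_lit 0x109) (nat_lit 1) (p (nat_lit 0x101) (nat_lit 0) (p (nat_lit 0x119) (nat_lit 0) (p (nat_lit 0xc1) (nat_lit 0) (p (nat_lit 0x81) (nat_lit 1) (p (nat_lit 0x41) (nat_lit 1) (p (nat_lit 0x898a0b090a9a) (nat_lit 0) (p (nat_lit 0x9098a888a1a) (nat_lit 0) (p (nat_lit 0x88890a08079a) (nat_lit 0) (p (nat_lit 0x8088987871a) (nat_lit 0) (p (nat_lit 0x80000800078907088a) (nat_lit 0) (p (nat_lit 0x80000800070886860a) (nat_lit 0) (p (nat_lit 0x8708060782) (nat_lit 0) (p (nat_lit 0x687858702) (nat_lit 0) (p (nat_lit 0x8607050482) (nat_lit 0) (p (nat_lit 0x586848402) (nat_lit 0) (p (nat_lit 0x160014) (nat_lit 0) (p (nat_lit 0x50612) (nat_lit 0) (p (nat_lit 0x40592) (nat_lit 0) (p (nat_lit 0x40492) (nat_lit 0) (p (nat_lit 0x30412) (nat_lit 0) (p (nat_lit 0x30212) (nat_lit 0) (p (nat_lit 0x20192) (nat_lit 0) (p (nat_lit 0x20092)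 (nat_lit 0) (p (nat_lit 0x10012) (nat_lit 0) pn))))))))))))))))))))))))) :=
  Cl.node (nat_lit 0xc9) (nat_lit 2) (by decide +kernel) (ClAll.succ (ClAll.succ ClAll.zero n347) s336)

def n383 : Cl (O (nat_lit 3)) (R (nat_lit 102673))
    (p (nat_lit 0xc9) (nat_lit 0) (p (nat_lit 0x101) (nat_lit 1) (p (nat_lit 0x119) (nat_lit 0) (p (nat_lit 0xc1) (nat_lit 0) (p (nat_lit 0x81) (nat_lit 1) (p (nat_lit 0x41) (nat_lit 1) (p (nat_lit 0x898a0b090a9a) (nat_lit 0) (p (nat_lit 0x9098a888a1a) (nat_lit 0) (p (nat_lit 0x88890a08079a) (nat_lit 0) (p (nat_lit 0x8088987871a) (nat_lit 0) (p (nat_lit 0x80000800078907088a) (nat_lit 0) (p (nat_lit 0x80000800070886860a) (nat_lit 0) (p (nat_lit 0x8708060782) (nat_lit 0) (p (nat_lit 0x687858702) (nat_lit 0) (p (nat_lit 0x8607050482) (nat_lit 0) (p (nat_lit 0x586848402) (nat_lit 0) (p (nat_lit 0x160014) (nat_lit 0) (p (nat_lit 0x50612) (nat_lit 0)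 (p (nat_lit 0x40592) (nat_lit 0) (p (nat_lit 0x40492) (nat_lit 0) (p (nat_lit 0x30412) (nat_lit 0) (p (nat_lit 0x30212) (nat_lit 0) (p (nat_lit 0x20192) (nat_lit 0) (p (nat_lit 0x20092) (nat_lit 0) (p (nat_lit 0x10012) (nat_lit 0) pn))))))))))))))))))))))))) :=
  Cl.node (nat_lit 0xd1) (nat_lit 2) (by decide +kernel) (ClAll.succ (ClAll.succ ClAll.zero n348) n349)

def n384 : Cl (O (nat_lit 3)) (R (nat_lit 102673))
    (p (nat_lit 0xc9) (nat_lit 1) (p (nat_lit 0x101) (nat_lit 1) (p (nat_lit 0x119) (nat_lit 0) (p (nat_lit 0xc1) (nat_lit 0) (p (nat_lit 0x81) (nat_lit 1) (p (nat_lit 0x41) (nat_lit 1) (p (nat_lit 0x898a0b090a9a) (nat_lit 0) (p (nat_lit 0x9098a888a1a) (nat_lit 0) (p (nat_lit 0x88890a08079a) (nat_lit 0) (p (nat_lit 0x8088987871a) (nat_lit 0) (p (nat_lit 0x80000800078907088a) (nat_lit 0) (p (nat_lit 0x80000800070886860a) (nat_lit 0) (p (nat_lit 0x8708060782) (nat_lit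 0) (p (nat_lit 0x687858702) (nat_lit 0) (p (nat_lit 0x8607050482) (nat_lit 0) (p (nat_lit 0x586848402) (nat_lit 0) (p (nat_lit 0x160014) (nat_lit 0) (p (nat_lit 0x50612) (nat_lit 0) (p (nat_lit 0x40592) (nat_lit 0) (p (nat_lit 0x40492) (nat_lit 0) (p (nat_lit 0x30412) (nat_lit 0) (p (nat_lit 0x30212) (nat_lit 0) (p (nat_lit 0x20192) (nat_lit 0) (p (nat_lit 0x20092) (nat_lit 0) (p (nat_lit 0x10012) (nat_lit 0) pn))))))))))))))))))))))))) :=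
  Cl.node (nat_lit 0x200004) (nat_lit 2) (by decide +kernel) (ClAll.succ (ClAll.succ ClAll.zero s347) s348)

def n385 : Cl (O (nat_lit 3)) (R (nat_lit 102673))
    (p (nat_lit 0xd1) (nat_lit 1) (p (nat_lit 0xc9) (nat_lit 0) (p (nat_lit 0x119) (nat_lit 1) (p (nat_lit 0xc1) (nat_lit 0) (p (nat_lit 0x81) (nat_lit 1) (p (nat_lit 0x41) (nat_lit 1) (p (nat_lit 0x898a0b090a9a) (nat_lit 0) (p (nat_lit 0x9098a888a1a) (nat_lit 0) (p (nat_lit 0x88890a08079a) (nat_lit 0) (p (nat_lit 0x8088987871a) (nat_lit 0) (p (nat_lit 0x80000800078907088a) (nat_lit 0) (p (nat_lit 0x80000800070886860a) (nat_lit 0) (p (nat_lit 0x8708060782) (nat_lit 0) (p (nat_lit 0x687858702) (nat_lit 0) (p (nat_lit 0x8607050482) (nat_lit 0) (p (nat_lit 0x586848402) (nat_lit 0) (p (nat_lit 0x160014) (nat_lit 0) (p (nat_lit 0x50612) (nat_lit 0) (p (nat_lit 0x40592) (nat_lit 0) (p (nat_lit 0x40492) (nat_lit 0) (p (nat_lit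 0x30412) (nat_lit 0) (p (nat_lit 0x30212) (nat_lit 0) (p (nat_lit 0x20192) (nat_lit 0) (p (nat_lit 0x20092) (nat_lit 0) (p (nat_lit 0x10012) (nat_lit 0) pn))))))))))))))))))))))))) :=
  Cl.node (nat_lit 0x111) (nat_lit 2) (by decide +kernel) (ClAll.succ (ClAll.succ ClAll.zero s350) n350)

def n386 : Cl (O (nat_lit 3)) (R (nat_lit 102673))
    (p (nat_lit 0x109) (nat_lit 0) (p (nat_lit 0xc9) (nat_lit 1) (p (nat_lit 0x119) (nat_lit 1) (p (nat_lit 0xc1) (nat_lit 0) (p (nat_lit 0x81) (nat_lit 1) (p (nat_lit 0x41) (nat_lit 1) (p (nat_lit 0x898a0b090a9a) (nat_lit 0) (p (nat_lit 0x9098a888a1a) (nat_lit 0) (p (nat_lit 0x88890a08079a) (nat_lit 0) (p (nat_lit 0x8088987871a) (nat_lit 0) (p (nat_lit 0x80000800078907088a) (nat_lit 0) (p (nat_lit 0x80000800070886860a) (nat_lit 0) (p (nat_lit 0x8708060782) (nat_lit 0) (p (nat_lit 0x687858702) (nat_lit 0) (p (nat_lit 0x8607050482) (nat_lit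 0) (p (nat_lit 0x586848402) (nat_lit 0) (p (nat_lit 0x160014) (nat_lit 0) (p (nat_lit 0x50612) (nat_lit 0) (p (nat_lit 0x40592) (nat_lit 0) (p (nat_lit 0x40492) (nat_lit 0) (p (nat_lit 0x30412) (nat_lit 0) (p (nat_lit 0x30212) (nat_lit 0) (p (nat_lit 0x20192) (nat_lit 0) (p (nat_lit 0x20092) (nat_lit 0) (p (nat_lit 0x10012) (nat_lit 0) pn))))))))))))))))))))))))) :=
  Cl.node (nat_lit 0x111) (nat_lit 2) (by decide +kernel) (ClAll.succ (ClAll.succ ClAll.zero n351) n352)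

def n387 : Cl (O (nat_lit 3)) (R (nat_lit 102673))
    (p (nat_lit 0x111) (nat_lit 0) (p (nat_lit 0x109) (nat_lit 0) (p (nat_lit 0x101) (nat_lit 0) (p (nat_lit 0xc1) (nat_lit 1) (p (nat_lit 0x81) (nat_lit 1) (p (nat_lit 0x41) (nat_lit 1) (p (nat_lit 0x898a0b090a9a) (nat_lit 0) (p (nat_lit 0x9098a888a1a) (nat_lit 0) (p (nat_lit 0x88890a08079a) (nat_lit 0) (p (nat_lit 0x8088987871a) (nat_lit 0) (p (nat_lit 0x80000800078907088a) (nat_lit 0) (p (nat_lit 0x80000800070886860a) (nat_lit 0) (p (nat_lit 0x8708060782) (nat_lit 0) (p (nat_lit 0x687858702) (nat_lit 0) (p (nat_lit 0x8607050482) (nat_lit 0) (p (nat_lit 0x586848402) (nat_lit 0) (p (nat_lit 0x160014) (nat_lit 0) (p (nat_lit 0x50612) (nat_lit 0) (p (nat_lit 0x40592) (nat_lit 0) (p (nat_lit 0x40492) (nat_lit 0) (p (nat_lit 0x30412) (nat_lit 0) (p (nat_lit 0x30212) (nat_lit 0) (p (nat_lit 0x20192) (nat_lit 0) (p (nat_lit 0x20092)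 (nat_lit 0) (p (nat_lit 0x10012) (nat_lit 0) pn))))))))))))))))))))))))) :=
  Cl.node (nat_lit 0x119) (nat_lit 2) (by decide +kernel) (ClAll.succ (ClAll.succ ClAll.zero s364) n353)

def n388 : Cl (O (nat_lit 3)) (R (nat_lit 102673))
    (p (nat_lit 0x101) (nat_lit 0) (p (nat_lit 0x119) (nat_lit 0) (p (nat_lit 0xd1) (nat_lit 0) (p (nat_lit 0x89) (nat_lit 0) (p (nat_lit 0x41) (nat_lit 0) (p (nat_lit 0x898a0b090a9a) (nat_lit 0) (p (nat_lit 0x9098a888a1a) (nat_lit 0) (p (nat_lit 0x88890a08079a) (nat_lit 0) (p (nat_lit 0x8088987871a) (nat_lit 0) (p (nat_lit 0x80000800078907088a) (nat_lit 0) (p (nat_lit 0x80000800070886860a) (nat_lit 0) (p (nat_lit 0x8708060782) (nat_lit 0) (p (nat_lit 0x687858702) (nat_lit 0) (p (nat_lit 0x8607050482) (nat_lit 0) (p (nat_lit 0x586848402) (nat_lit 0) (p (nat_lit 0x160014) (nat_lit 0) (p (nat_lit 0x50612) (nat_lit 0) (p (nat_lit 0x40592) (nat_lit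 0) (p (nat_lit 0x40492) (nat_lit 0) (p (nat_lit 0x30412) (nat_lit 0) (p (nat_lit 0x30212) (nat_lit 0) (p (nat_lit 0x20192) (nat_lit 0) (p (nat_lit 0x20092) (nat_lit 0) (p (nat_lit 0x10012) (nat_lit 0) pn)))))))))))))))))))))))) :=
  Cl.node (nat_lit 0x109) (nat_lit 2) (by decide +kernel) (ClAll.succ (ClAll.succ ClAll.zero s0) n354)

def n389 : Cl (O (nat_lit 3)) (R (nat_lit 102673))
    (p (nat_lit 0x101) (nat_lit 1) (p (nat_lit 0x119) (nat_lit 0) (p (nat_lit 0xd1) (nat_lit 0) (p (nat_lit 0x89) (nat_lit 0) (p (nat_lit 0x41) (nat_lit 0) (p (nat_lit 0x898a0b090a9a) (nat_lit 0) (p (nat_lit 0x9098a888a1a) (nat_lit 0) (p (nat_lit 0x88890a08079a) (nat_lit 0) (p (nat_lit 0x8088987871a) (nat_lit 0) (p (nat_lit 0x80000800078907088a) (nat_lit 0) (p (nat_lit 0x80000800070886860a) (nat_lit 0) (p (nat_lit 0x8708060782) (nat_lit 0) (p (nat_lit 0x687858702) (nat_lit 0) (p (nat_lit 0x8607050482)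 (nat_lit 0) (p (nat_lit 0x586848402) (nat_lit 0) (p (nat_lit 0x160014) (nat_lit 0) (p (nat_lit 0x50612) (nat_lit 0) (p (nat_lit 0x40592) (nat_lit 0) (p (nat_lit 0x40492) (nat_lit 0) (p (nat_lit 0x30412) (nat_lit 0) (p (nat_lit 0x30212) (nat_lit 0) (p (nat_lit 0x20192) (nat_lit 0) (p (nat_lit 0x20092) (nat_lit 0) (p (nat_lit 0x10012) (nat_lit 0) pn)))))))))))))))))))))))) :=
  Cl.node (nat_lit 0x81) (nat_lit 2) (by decide +kernel) (ClAll.succ (ClAll.succ ClAll.zero n355) n356)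

def n390 : Cl (O (nat_lit 3)) (R (nat_lit 102673))
    (p (nat_lit 0xc1) (nat_lit 0) (p (nat_lit 0x119) (nat_lit 1) (p (nat_lit 0xd1) (nat_lit 0) (p (nat_lit 0x89) (nat_lit 0) (p (nat_lit 0x41) (nat_lit 0) (p (nat_lit 0x898a0b090a9a) (nat_lit 0) (p (nat_lit 0x9098a888a1a) (nat_lit 0) (p (nat_lit 0x88890a08079a) (nat_lit 0) (p (nat_lit 0x8088987871a) (nat_lit 0) (p (nat_lit 0x80000800078907088a) (nat_lit 0) (p (nat_lit 0x80000800070886860a) (nat_lit 0) (p (nat_lit 0x8708060782) (nat_lit 0) (p (nat_lit 0x687858702) (nat_lit 0) (p (nat_lit 0x8607050482) (nat_lit 0) (p (nat_lit 0x586848402) (nat_lit 0) (p (nat_lit 0x160014) (nat_lit 0) (p (nat_lit 0x50612) (nat_lit 0) (p (nat_lit 0x40592) (nat_lit 0) (p (nat_lit 0x40492) (nat_lit 0) (p (nat_lit 0x30412) (nat_lit 0) (p (nat_lit 0x30212) (nat_lit 0) (p (nat_lit 0x20192) (nat_lit 0) (p (nat_lit 0x20092) (nat_lit 0) (p (nat_lit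 0x10012) (nat_lit 0) pn)))))))))))))))))))))))) :=
  Cl.node (nat_lit 0xc9) (nat_lit 2) (by decide +kernel) (ClAll.succ (ClAll.succ ClAll.zero s49) n357)

def n391 : Cl (O (nat_lit 3)) (R (nat_lit 102673))
    (p (nat_lit 0xc1) (nat_lit 1) (p (nat_lit 0x119) (nat_lit 1) (p (nat_lit 0xd1) (nat_lit 0) (p (nat_lit 0x89) (nat_lit 0) (p (nat_lit 0x41) (nat_lit 0) (p (nat_lit 0x898a0b090a9a) (nat_lit 0) (p (nat_lit 0x9098a888a1a) (nat_lit 0) (p (nat_lit 0x88890a08079a) (nat_lit 0) (p (nat_lit 0x8088987871a) (nat_lit 0) (p (nat_lit 0x80000800078907088a) (nat_lit 0) (p (nat_lit 0x80000800070886860a) (nat_lit 0) (p (nat_lit 0x8708060782) (nat_lit 0) (p (nat_lit 0x687858702) (nat_lit 0) (p (nat_lit 0x8607050482) (nat_lit 0) (p (nat_lit 0x586848402) (nat_lit 0) (p (nat_lit 0x160014) (nat_lit 0) (p (nat_lit 0x50612) (nat_lit 0) (p (nat_lit 0x40592) (nat_lit 0) (p (nat_lit 0x40492) (nat_lit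 0) (p (nat_lit 0x30412) (nat_lit 0) (p (nat_lit 0x30212) (nat_lit 0) (p (nat_lit 0x20192) (nat_lit 0) (p (nat_lit 0x20092) (nat_lit 0) (p (nat_lit 0x10012) (nat_lit 0) pn)))))))))))))))))))))))) :=
  Cl.node (nat_lit 0x81) (nat_lit 2) (by decide +kernel) (ClAll.succ (ClAll.succ ClAll.zero n358) n359)

def n392 : Cl (O (nat_lit 3)) (R (nat_lit 102673))
    (p (nat_lit 0x101) (nat_lit 0) (p (nat_lit 0x111) (nat_lit 0) (p (nat_lit 0xd1) (nat_lit 1) (p (nat_lit 0x89) (nat_lit 0) (p (nat_lit 0x41) (nat_lit 0) (p (nat_lit 0x898a0b090a9a) (nat_lit 0) (p (nat_lit 0x9098a888a1a) (nat_lit 0) (p (nat_lit 0x88890a08079a) (nat_lit 0) (p (nat_lit 0x8088987871a) (nat_lit 0) (p (nat_lit 0x80000800078907088a) (nat_lit 0) (p (nat_lit 0x80000800070886860a) (nat_lit 0) (p (nat_lit 0x8708060782) (nat_lit 0) (p (nat_lit 0x687858702) (nat_lit 0) (p (nat_lit 0x8607050482) (nat_lit 0) (p (nat_lit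 0x586848402) (nat_lit 0) (p (nat_lit 0x160014) (nat_lit 0) (p (nat_lit 0x50612) (nat_lit 0) (p (nat_lit 0x40592) (nat_lit 0) (p (nat_lit 0x40492) (nat_lit 0) (p (nat_lit 0x30412) (nat_lit 0) (p (nat_lit 0x30212) (nat_lit 0) (p (nat_lit 0x20192) (nat_lit 0) (p (nat_lit 0x20092) (nat_lit 0) (p (nat_lit 0x10012) (nat_lit 0) pn)))))))))))))))))))))))) :=
  Cl.node (nat_lit 0x109) (nat_lit 2) (by decide +kernel) (ClAll.succ (ClAll.succ ClAll.zero s73) n360)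

def n393 : Cl (O (nat_lit 3)) (R (nat_lit 102673))
    (p (nat_lit 0x101) (nat_lit 1) (p (nat_lit 0x111) (nat_lit 0) (p (nat_lit 0xd1) (nat_lit 1) (p (nat_lit 0x89) (nat_lit 0) (p (nat_lit 0x41) (nat_lit 0) (p (nat_lit 0x898a0b090a9a) (nat_lit 0) (p (nat_lit 0x9098a888a1a) (nat_lit 0) (p (nat_lit 0x88890a08079a) (nat_lit 0) (p (nat_lit 0x8088987871a) (nat_lit 0) (p (nat_lit 0x80000800078907088a) (nat_lit 0) (p (nat_lit 0x80000800070886860a) (nat_lit 0) (p (nat_lit 0x8708060782) (nat_lit 0) (p (nat_lit 0x687858702) (nat_lit 0) (p (nat_lit 0x8607050482) (nat_lit 0) (p (nat_lit 0x586848402) (nat_lit 0) (p (nat_lit 0x160014) (nat_lit 0) (p (nat_lit 0x50612) (nat_lit 0) (p (nat_lit 0x40592) (nat_lit 0) (p (nat_lit 0x40492) (nat_lit 0) (p (nat_lit 0x30412) (nat_lit 0) (p (nat_lit 0x30212) (nat_lit 0) (p (nat_lit 0x20192) (nat_lit 0) (p (nat_lit 0x20092) (nat_lit 0) (p (nat_lit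 0x10012) (nat_lit 0) pn)))))))))))))))))))))))) :=
  Cl.node (nat_lit 0x81) (nat_lit 2) (by decide +kernel) (ClAll.succ (ClAll.succ ClAll.zero n361) n362)

def n394 : Cl (O (nat_lit 3)) (R (nat_lit 102673))
    (p (nat_lit 0x81) (nat_lit 1) (p (nat_lit 0x111) (nat_lit 1) (p (nat_lit 0xd1) (nat_lit 1) (p (nat_lit 0x89) (nat_lit 0) (p (nat_lit 0x41) (nat_lit 0) (p (nat_lit 0x898a0b090a9a) (nat_lit 0) (p (nat_lit 0x9098a888a1a) (nat_lit 0) (p (nat_lit 0x88890a08079a) (nat_lit 0) (p (nat_lit 0x8088987871a) (nat_lit 0) (p (nat_lit 0x80000800078907088a) (nat_lit 0) (p (nat_lit 0x80000800070886860a) (nat_lit 0) (p (nat_lit 0x8708060782) (nat_lit 0) (p (nat_lit 0x687858702) (nat_lit 0) (p (nat_lit 0x8607050482) (nat_lit 0) (p (nat_lit 0x586848402) (nat_lit 0) (p (nat_lit 0x160014) (nat_lit 0) (p (nat_lit 0x50612) (nat_lit 0) (p (nat_lit 0x40592) (nat_lit 0) (p (nat_lit 0x40492) (nat_lit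 0) (p (nat_lit 0x30412) (nat_lit 0) (p (nat_lit 0x30212) (nat_lit 0) (p (nat_lit 0x20192) (nat_lit 0) (p (nat_lit 0x20092) (nat_lit 0) (p (nat_lit 0x10012) (nat_lit 0) pn)))))))))))))))))))))))) :=
  Cl.node (nat_lit 0xc1) (nat_lit 2) (by decide +kernel) (ClAll.succ (ClAll.succ ClAll.zero s112) n363)

def n395 : Cl (O (nat_lit 3)) (R (nat_lit 102673))
    (p (nat_lit 0x101) (nat_lit 0) (p (nat_lit 0x119) (nat_lit 0) (p (nat_lit 0xc9) (nat_lit 0) (p (nat_lit 0x89) (nat_lit 1) (p (nat_lit 0x41) (nat_lit 0) (p (nat_lit 0x898a0b090a9a) (nat_lit 0) (p (nat_lit 0x9098a888a1a) (nat_lit 0) (p (nat_lit 0x88890a08079a) (nat_lit 0) (p (nat_lit 0x8088987871a) (nat_lit 0) (p (nat_lit 0x80000800078907088a) (nat_lit 0) (p (nat_lit 0x80000800070886860a) (nat_lit 0) (p (nat_lit 0x8708060782) (nat_lit 0) (p (nat_lit 0x687858702) (nat_lit 0) (p (nat_lit 0x8607050482) (nat_lit 0) (p (nat_lit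 0x586848402) (nat_lit 0) (p (nat_lit 0x160014) (nat_lit 0) (p (nat_lit 0x50612) (nat_lit 0) (p (nat_lit 0x40592) (nat_lit 0) (p (nat_lit 0x40492) (nat_lit 0) (p (nat_lit 0x30412) (nat_lit 0) (p (nat_lit 0x30212) (nat_lit 0) (p (nat_lit 0x20192) (nat_lit 0) (p (nat_lit 0x20092) (nat_lit 0) (p (nat_lit 0x10012) (nat_lit 0) pn)))))))))))))))))))))))) :=
  Cl.node (nat_lit 0x109) (nat_lit 2) (by decide +kernel) (ClAll.succ (ClAll.succ ClAll.zero n364) n365)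

def n396 : Cl (O (nat_lit 3)) (R (nat_lit 102673))
    (p (nat_lit 0x101) (nat_lit 1) (p (nat_lit 0x119) (nat_lit 0) (p (nat_lit 0xc9) (nat_lit 0) (p (nat_lit 0x89) (nat_lit 1) (p (nat_lit 0x41) (nat_lit 0) (p (nat_lit 0x898a0b090a9a) (nat_lit 0) (p (nat_lit 0x9098a888a1a) (nat_lit 0) (p (nat_lit 0x88890a08079a) (nat_lit 0) (p (nat_lit 0x8088987871a) (nat_lit 0) (p (nat_lit 0x80000800078907088a) (nat_lit 0) (p (nat_lit 0x80000800070886860a) (nat_lit 0) (p (nat_lit 0x8708060782) (nat_lit 0) (p (nat_lit 0x687858702) (nat_lit 0) (p (nat_lit 0x8607050482) (nat_lit 0) (p (nat_lit 0x586848402) (nat_lit 0) (p (nat_lit 0x160014) (nat_lit 0) (p (nat_lit 0x50612) (nat_lit 0) (p (nat_lit 0x40592) (nat_lit 0) (p (nat_lit 0x40492) (nat_lit 0) (p (nat_lit 0x30412) (nat_lit 0) (p (nat_lit 0x30212) (nat_lit 0) (p (nat_lit 0x20192) (nat_lit 0) (p (nat_lit 0x20092) (nat_lit 0) (p (nat_lit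 0x10012) (nat_lit 0) pn)))))))))))))))))))))))) :=
  Cl.node (nat_lit 0xc1) (nat_lit 2) (by decide +kernel) (ClAll.succ (ClAll.succ ClAll.zero n366) s162)

def n397 : Cl (O (nat_lit 3)) (R (nat_lit 102673))
    (p (nat_lit 0xc1) (nat_lit 0) (p (nat_lit 0x119) (nat_lit 1) (p (nat_lit 0xc9) (nat_lit 0) (p (nat_lit 0x89) (nat_lit 1) (p (nat_lit 0x41) (nat_lit 0) (p (nat_lit 0x898a0b090a9a) (nat_lit 0) (p (nat_lit 0x9098a888a1a) (nat_lit 0) (p (nat_lit 0x88890a08079a) (nat_lit 0) (p (nat_lit 0x8088987871a) (nat_lit 0) (p (nat_lit 0x80000800078907088a) (nat_lit 0) (p (nat_lit 0x80000800070886860a) (nat_lit 0) (p (nat_lit 0x8708060782) (nat_lit 0) (p (nat_lit 0x687858702) (nat_lit 0) (p (nat_lit 0x8607050482) (nat_lit 0) (p (nat_lit 0x586848402) (nat_lit 0) (p (nat_lit 0x160014) (nat_lit 0) (p (nat_lit 0x50612) (nat_lit 0) (p (nat_lit 0x40592) (nat_lit 0) (p (nat_lit 0x40492) (nat_lit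 0) (p (nat_lit 0x30412) (nat_lit 0) (p (nat_lit 0x30212) (nat_lit 0) (p (nat_lit 0x20192) (nat_lit 0) (p (nat_lit 0x20092) (nat_lit 0) (p (nat_lit 0x10012) (nat_lit 0) pn)))))))))))))))))))))))) :=
  Cl.node (nat_lit 0xd1) (nat_lit 2) (by decide +kernel) (ClAll.succ (ClAll.succ ClAll.zero s163) n367)

def n398 : Cl (O (nat_lit 3)) (R (nat_lit 102673))
    (p (nat_lit 0xc1) (nat_lit 1) (p (nat_lit 0x119) (nat_lit 1) (p (nat_lit 0xc9) (nat_lit 0) (p (nat_lit 0x89) (nat_lit 1) (p (nat_lit 0x41) (nat_lit 0) (p (nat_lit 0x898a0b090a9a) (nat_lit 0) (p (nat_lit 0x9098a888a1a) (nat_lit 0) (p (nat_lit 0x88890a08079a) (nat_lit 0) (p (nat_lit 0x8088987871a) (nat_lit 0) (p (nat_lit 0x80000800078907088a) (nat_lit 0) (p (nat_lit 0x80000800070886860a) (nat_lit 0) (p (nat_lit 0x8708060782) (nat_lit 0) (p (nat_lit 0x687858702) (nat_lit 0) (p (nat_lit 0x8607050482) (nat_lit 0) (p (nat_lit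 0x586848402) (nat_lit 0) (p (nat_lit 0x160014) (nat_lit 0) (p (nat_lit 0x50612) (nat_lit 0) (p (nat_lit 0x40592) (nat_lit 0) (p (nat_lit 0x40492) (nat_lit 0) (p (nat_lit 0x30412) (nat_lit 0) (p (nat_lit 0x30212) (nat_lit 0) (p (nat_lit 0x20192) (nat_lit 0) (p (nat_lit 0x20092) (nat_lit 0) (p (nat_lit 0x10012) (nat_lit 0) pn)))))))))))))))))))))))) :=
  Cl.node (nat_lit 0x101) (nat_lit 2) (by decide +kernel) (ClAll.succ (ClAll.succ ClAll.zero n368) s180)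

def n399 : Cl (O (nat_lit 3)) (R (nat_lit 102673))
    (p (nat_lit 0x101) (nat_lit 0) (p (nat_lit 0x109) (nat_lit 0) (p (nat_lit 0xc9) (nat_lit 1) (p (nat_lit 0x89) (nat_lit 1) (p (nat_lit 0x41) (nat_lit 0) (p (nat_lit 0x898a0b090a9a) (nat_lit 0) (p (nat_lit 0x9098a888a1a) (nat_lit 0) (p (nat_lit 0x88890a08079a) (nat_lit 0) (p (nat_lit 0x8088987871a) (nat_lit 0) (p (nat_lit 0x80000800078907088a) (nat_lit 0) (p (nat_lit 0x80000800070886860a) (nat_lit 0) (p (nat_lit 0x8708060782) (nat_lit 0) (p (nat_lit 0x687858702) (nat_lit 0) (p (nat_lit 0x8607050482) (nat_lit 0) (p (nat_lit 0x586848402) (nat_lit 0) (p (nat_lit 0x160014) (nat_lit 0) (p (nat_lit 0x50612) (nat_lit 0) (p (nat_lit 0x40592) (nat_lit 0) (p (nat_lit 0x40492) (nat_lit 0) (p (nat_lit 0x30412) (nat_lit 0) (p (nat_lit 0x30212) (nat_lit 0) (p (nat_lit 0x20192) (nat_lit 0) (p (nat_lit 0x20092) (nat_lit 0) (p (nat_lit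 0x10012) (nat_lit 0) pn)))))))))))))))))))))))) :=
  Cl.node (nat_lit 0x111) (nat_lit 2) (by decide +kernel) (ClAll.succ (ClAll.succ ClAll.zero n369) n370)

def n400 : Cl (O (nat_lit 3)) (R (nat_lit 102673))
    (p (nat_lit 0x101) (nat_lit 0) (p (nat_lit 0x119) (nat_lit 0) (p (nat_lit 0xd1) (nat_lit 0) (p (nat_lit 0x81) (nat_lit 0) (p (nat_lit 0x41) (nat_lit 1) (p (nat_lit 0x898a0b090a9a) (nat_lit 0) (p (nat_lit 0x9098a888a1a) (nat_lit 0) (p (nat_lit 0x88890a08079a) (nat_lit 0) (p (nat_lit 0x8088987871a) (nat_lit 0) (p (nat_lit 0x80000800078907088a) (nat_lit 0) (p (nat_lit 0x80000800070886860a) (nat_lit 0) (p (nat_lit 0x8708060782) (nat_lit 0) (p (nat_lit 0x687858702) (nat_lit 0) (p (nat_lit 0x8607050482) (nat_lit 0) (p (nat_lit 0x586848402) (nat_lit 0) (p (nat_lit 0x160014) (nat_lit 0) (p (nat_lit 0x50612) (nat_lit 0) (p (nat_lit 0x40592) (nat_lit 0) (p (nat_lit 0x40492)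 (nat_lit 0) (p (nat_lit 0x30412) (nat_lit 0) (p (nat_lit 0x30212) (nat_lit 0) (p (nat_lit 0x20192) (nat_lit 0) (p (nat_lit 0x20092) (nat_lit 0) (p (nat_lit 0x10012) (nat_lit 0) pn)))))))))))))))))))))))) :=
  Cl.node (nat_lit 0x109) (nat_lit 2) (by decide +kernel) (ClAll.succ (ClAll.succ ClAll.zero s190) n371)

def n401 : Cl (O (nat_lit 3)) (R (nat_lit 102673))
    (p (nat_lit 0x101) (nat_lit 1) (p (nat_lit 0x119) (nat_lit 0) (p (nat_lit 0xd1) (nat_lit 0) (p (nat_lit 0x81) (nat_lit 0) (p (nat_lit 0x41) (nat_lit 1) (p (nat_lit 0x898a0b090a9a) (nat_lit 0) (p (nat_lit 0x9098a888a1a) (nat_lit 0) (p (nat_lit 0x88890a08079a) (nat_lit 0) (p (nat_lit 0x8088987871a) (nat_lit 0) (p (nat_lit 0x80000800078907088a) (nat_lit 0) (p (nat_lit 0x80000800070886860a) (nat_lit 0) (p (nat_lit 0x8708060782) (nat_lit 0) (p (nat_lit 0x687858702) (nat_lit 0) (p (nat_lit 0x8607050482) (nat_lit 0) (p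 (nat_lit 0x586848402) (nat_lit 0) (p (nat_lit 0x160014) (nat_lit 0) (p (nat_lit 0x50612) (nat_lit 0) (p (nat_lit 0x40592) (nat_lit 0) (p (nat_lit 0x40492) (nat_lit 0) (p (nat_lit 0x30412) (nat_lit 0) (p (nat_lit 0x30212) (nat_lit 0) (p (nat_lit 0x20192) (nat_lit 0) (p (nat_lit 0x20092) (nat_lit 0) (p (nat_lit 0x10012) (nat_lit 0) pn)))))))))))))))))))))))) :=
  Cl.node (nat_lit 0xc1) (nat_lit 2) (by decide +kernel) (ClAll.succ (ClAll.succ ClAll.zero n372) n373)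

def n402 : Cl (O (nat_lit 3)) (R (nat_lit 102673))
    (p (nat_lit 0xc1) (nat_lit 0) (p (nat_lit 0x119) (nat_lit 1) (p (nat_lit 0xd1) (nat_lit 0) (p (nat_lit 0x81) (nat_lit 0) (p (nat_lit 0x41) (nat_lit 1) (p (nat_lit 0x898a0b090a9a) (nat_lit 0) (p (nat_lit 0x9098a888a1a) (nat_lit 0) (p (nat_lit 0x88890a08079a) (nat_lit 0) (p (nat_lit 0x8088987871a) (nat_lit 0) (p (nat_lit 0x80000800078907088a) (nat_lit 0) (p (nat_lit 0x80000800070886860a) (nat_lit 0) (p (nat_lit 0x8708060782) (nat_lit 0) (p (nat_lit 0x687858702) (nat_lit 0) (p (nat_lit 0x8607050482) (nat_lit 0) (p (nat_lit 0x586848402) (nat_lit 0) (p (nat_lit 0x160014) (nat_lit 0) (p (nat_lit 0x50612) (nat_lit 0) (p (nat_lit 0x40592) (nat_lit 0) (p (nat_lit 0x40492) (nat_lit 0) (p (nat_lit 0x30412) (nat_lit 0) (p (nat_lit 0x30212) (nat_lit 0) (p (nat_lit 0x20192) (nat_lit 0) (p (nat_lit 0x20092) (nat_lit 0) (p (nat_lit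 0x10012) (nat_lit 0) pn)))))))))))))))))))))))) :=
  Cl.node (nat_lit 0xc9) (nat_lit 2) (by decide +kernel) (ClAll.succ (ClAll.succ ClAll.zero s236) n374)

def n403 : Cl (O (nat_lit 3)) (R (nat_lit 102673))
    (p (nat_lit 0xc1) (nat_lit 1) (p (nat_lit 0x119) (nat_lit 1) (p (nat_lit 0xd1) (nat_lit 0) (p (nat_lit 0x81) (nat_lit 0) (p (nat_lit 0x41) (nat_lit 1) (p (nat_lit 0x898a0b090a9a) (nat_lit 0) (p (nat_lit 0x9098a888a1a) (nat_lit 0) (p (nat_lit 0x88890a08079a) (nat_lit 0) (p (nat_lit 0x8088987871a) (nat_lit 0) (p (nat_lit 0x80000800078907088a) (nat_lit 0) (p (nat_lit 0x80000800070886860a) (nat_lit 0) (p (nat_lit 0x8708060782) (nat_lit 0) (p (nat_lit 0x687858702) (nat_lit 0) (p (nat_lit 0x8607050482) (nat_lit 0) (p (nat_lit 0x586848402) (nat_lit 0) (p (nat_lit 0x160014) (nat_lit 0) (p (nat_lit 0x50612) (nat_lit 0) (p (nat_lit 0x40592) (nat_lit 0) (p (nat_lit 0x40492) (nat_lit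 0) (p (nat_lit 0x30412) (nat_lit 0) (p (nat_lit 0x30212) (nat_lit 0) (p (nat_lit 0x20192) (nat_lit 0) (p (nat_lit 0x20092) (nat_lit 0) (p (nat_lit 0x10012) (nat_lit 0) pn)))))))))))))))))))))))) :=
  Cl.node (nat_lit 0x101) (nat_lit 2) (by decide +kernel) (ClAll.succ (ClAll.succ ClAll.zero n375) n376)

def n404 : Cl (O (nat_lit 3)) (R (nat_lit 102673))
    (p (nat_lit 0x101) (nat_lit 0) (p (nat_lit 0x111) (nat_lit 0) (p (nat_lit 0xd1) (nat_lit 1) (p (nat_lit 0x81) (nat_lit 0) (p (nat_lit 0x41) (nat_lit 1) (p (nat_lit 0x898a0b090a9a) (nat_lit 0) (p (nat_lit 0x9098a888a1a) (nat_lit 0) (p (nat_lit 0x88890a08079a) (nat_lit 0) (p (nat_lit 0x8088987871a) (nat_lit 0) (p (nat_lit 0x80000800078907088a) (nat_lit 0) (p (nat_lit 0x80000800070886860a) (nat_lit 0) (p (nat_lit 0x8708060782) (nat_lit 0) (p (nat_lit 0x687858702) (nat_lit 0) (p (nat_lit 0x8607050482) (nat_lit 0) (p (nat_lit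 0x586848402) (nat_lit 0) (p (nat_lit 0x160014) (nat_lit 0) (p (nat_lit 0x50612) (nat_lit 0) (p (nat_lit 0x40592) (nat_lit 0) (p (nat_lit 0x40492) (nat_lit 0) (p (nat_lit 0x30412) (nat_lit 0) (p (nat_lit 0x30212) (nat_lit 0) (p (nat_lit 0x20192) (nat_lit 0) (p (nat_lit 0x20092) (nat_lit 0) (p (nat_lit 0x10012) (nat_lit 0) pn)))))))))))))))))))))))) :=
  Cl.node (nat_lit 0x109) (nat_lit 2) (by decide +kernel) (ClAll.succ (ClAll.succ ClAll.zero s261) n377)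

def n405 : Cl (O (nat_lit 3)) (R (nat_lit 102673))
    (p (nat_lit 0x101) (nat_lit 1) (p (nat_lit 0x111) (nat_lit 0) (p (nat_lit 0xd1) (nat_lit 1) (p (nat_lit 0x81) (nat_lit 0) (p (nat_lit 0x41) (nat_lit 1) (p (nat_lit 0x898a0b090a9a) (nat_lit 0) (p (nat_lit 0x9098a888a1a) (nat_lit 0) (p (nat_lit 0x88890a08079a) (nat_lit 0) (p (nat_lit 0x8088987871a) (nat_lit 0) (p (nat_lit 0x80000800078907088a) (nat_lit 0) (p (nat_lit 0x80000800070886860a) (nat_lit 0) (p (nat_lit 0x8708060782) (nat_lit 0) (p (nat_lit 0x687858702) (nat_lit 0) (p (nat_lit 0x8607050482) (nat_lit 0) (p (nat_lit 0x586848402) (nat_lit 0) (p (nat_lit 0x160014) (nat_lit 0) (p (nat_lit 0x50612) (nat_lit 0) (p (nat_lit 0x40592) (nat_lit 0) (p (nat_lit 0x40492) (nat_lit 0) (p (nat_lit 0x30412) (nat_lit 0) (p (nat_lit 0x30212) (nat_lit 0) (p (nat_lit 0x20192) (nat_lit 0) (p (nat_lit 0x20092) (nat_lit 0) (p (nat_lit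 0x10012) (nat_lit 0) pn)))))))))))))))))))))))) :=
  Cl.node (nat_lit 0x89) (nat_lit 2) (by decide +kernel) (ClAll.succ (ClAll.succ ClAll.zero n378) n379)

def n406 : Cl (O (nat_lit 3)) (R (nat_lit 102673))
    (p (nat_lit 0x89) (nat_lit 1) (p (nat_lit 0x111) (nat_lit 1) (p (nat_lit 0xd1) (nat_lit 1) (p (nat_lit 0x81) (nat_lit 0) (p (nat_lit 0x41) (nat_lit 1) (p (nat_lit 0x898a0b090a9a) (nat_lit 0) (p (nat_lit 0x9098a888a1a) (nat_lit 0) (p (nat_lit 0x88890a08079a) (nat_lit 0) (p (nat_lit 0x8088987871a) (nat_lit 0) (p (nat_lit 0x80000800078907088a) (nat_lit 0) (p (nat_lit 0x80000800070886860a) (nat_lit 0) (p (nat_lit 0x8708060782) (nat_lit 0) (p (nat_lit 0x687858702) (nat_lit 0) (p (nat_lit 0x8607050482) (nat_lit 0) (p (nat_lit 0x586848402) (nat_lit 0) (p (nat_lit 0x160014) (nat_lit 0) (p (nat_lit 0x50612) (nat_lit 0) (p (nat_lit 0x40592) (nat_lit 0) (p (nat_lit 0x40492) (nat_lit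 0) (p (nat_lit 0x30412) (nat_lit 0) (p (nat_lit 0x30212) (nat_lit 0) (p (nat_lit 0x20192) (nat_lit 0) (p (nat_lit 0x20092) (nat_lit 0) (p (nat_lit 0x10012) (nat_lit 0) pn)))))))))))))))))))))))) :=
  Cl.node (nat_lit 0xc9) (nat_lit 2) (by decide +kernel) (ClAll.succ (ClAll.succ ClAll.zero s316) n380)

def n407 : Cl (O (nat_lit 3)) (R (nat_lit 102673))
    (p (nat_lit 0x101) (nat_lit 0) (p (nat_lit 0x119) (nat_lit 0) (p (nat_lit 0xc1) (nat_lit 0) (p (nat_lit 0x81) (nat_lit 1) (p (nat_lit 0x41) (nat_lit 1) (p (nat_lit 0x898a0b090a9a) (nat_lit 0) (p (nat_lit 0x9098a888a1a) (nat_lit 0) (p (nat_lit 0x88890a08079a) (nat_lit 0) (p (nat_lit 0x8088987871a) (nat_lit 0) (p (nat_lit 0x80000800078907088a) (nat_lit 0) (p (nat_lit 0x80000800070886860a) (nat_lit 0) (p (nat_lit 0x8708060782) (nat_lit 0) (p (nat_lit 0x687858702) (nat_lit 0) (p (nat_lit 0x8607050482) (nat_lit 0) (p (nat_lit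 0x586848402) (nat_lit 0) (p (nat_lit 0x160014) (nat_lit 0) (p (nat_lit 0x50612) (nat_lit 0) (p (nat_lit 0x40592) (nat_lit 0) (p (nat_lit 0x40492) (nat_lit 0) (p (nat_lit 0x30412) (nat_lit 0) (p (nat_lit 0x30212) (nat_lit 0) (p (nat_lit 0x20192) (nat_lit 0) (p (nat_lit 0x20092) (nat_lit 0) (p (nat_lit 0x10012) (nat_lit 0) pn)))))))))))))))))))))))) :=
  Cl.node (nat_lit 0x109) (nat_lit 2) (by decide +kernel) (ClAll.succ (ClAll.succ ClAll.zero n381) n382)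

def n408 : Cl (O (nat_lit 3)) (R (nat_lit 102673))
    (p (nat_lit 0x101) (nat_lit 1) (p (nat_lit 0x119) (nat_lit 0) (p (nat_lit 0xc1) (nat_lit 0) (p (nat_lit 0x81) (nat_lit 1) (p (nat_lit 0x41) (nat_lit 1) (p (nat_lit 0x898a0b090a9a) (nat_lit 0) (p (nat_lit 0x9098a888a1a) (nat_lit 0) (p (nat_lit 0x88890a08079a) (nat_lit 0) (p (nat_lit 0x8088987871a) (nat_lit 0) (p (nat_lit 0x80000800078907088a) (nat_lit 0) (p (nat_lit 0x80000800070886860a) (nat_lit 0) (p (nat_lit 0x8708060782) (nat_lit 0) (p (nat_lit 0x687858702) (nat_lit 0) (p (nat_lit 0x8607050482) (nat_lit 0) (p (nat_lit 0x586848402) (nat_lit 0) (p (nat_lit 0x160014) (nat_lit 0) (p (nat_lit 0x50612) (nat_lit 0) (p (nat_lit 0x40592) (nat_lit 0) (p (nat_lit 0x40492) (nat_lit 0) (p (nat_lit 0x30412) (nat_lit 0) (p (nat_lit 0x30212) (nat_lit 0) (p (nat_lit 0x20192) (nat_lit 0) (p (nat_lit 0x20092) (nat_lit 0) (p (nat_lit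 0x10012) (nat_lit 0) pn)))))))))))))))))))))))) :=
  Cl.node (nat_lit 0xc9) (nat_lit 2) (by decide +kernel) (ClAll.succ (ClAll.succ ClAll.zero n383) n384)

def n409 : Cl (O (nat_lit 3)) (R (nat_lit 102673))
    (p (nat_lit 0xc9) (nat_lit 0) (p (nat_lit 0x119) (nat_lit 1) (p (nat_lit 0xc1) (nat_lit 0) (p (nat_lit 0x81) (nat_lit 1) (p (nat_lit 0x41) (nat_lit 1) (p (nat_lit 0x898a0b090a9a) (nat_lit 0) (p (nat_lit 0x9098a888a1a) (nat_lit 0) (p (nat_lit 0x88890a08079a) (nat_lit 0) (p (nat_lit 0x8088987871a) (nat_lit 0) (p (nat_lit 0x80000800078907088a) (nat_lit 0) (p (nat_lit 0x80000800070886860a) (nat_lit 0) (p (nat_lit 0x8708060782) (nat_lit 0) (p (nat_lit 0x687858702) (nat_lit 0) (p (nat_lit 0x8607050482) (nat_lit 0) (p (nat_lit 0x586848402) (nat_lit 0) (p (nat_lit 0x160014) (nat_lit 0) (p (nat_lit 0x50612) (nat_lit 0) (p (nat_lit 0x40592) (nat_lit 0) (p (nat_lit 0x40492) (nat_lit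 0) (p (nat_lit 0x30412) (nat_lit 0) (p (nat_lit 0x30212) (nat_lit 0) (p (nat_lit 0x20192) (nat_lit 0) (p (nat_lit 0x20092) (nat_lit 0) (p (nat_lit 0x10012) (nat_lit 0) pn)))))))))))))))))))))))) :=
  Cl.node (nat_lit 0xd1) (nat_lit 2) (by decide +kernel) (ClAll.succ (ClAll.succ ClAll.zero s349) n385)

def n410 : Cl (O (nat_lit 3)) (R (nat_lit 102673))
    (p (nat_lit 0xc9) (nat_lit 1) (p (nat_lit 0x119) (nat_lit 1) (p (nat_lit 0xc1) (nat_lit 0) (p (nat_lit 0x81) (nat_lit 1) (p (nat_lit 0x41) (nat_lit 1) (p (nat_lit 0x898a0b090a9a) (nat_lit 0) (p (nat_lit 0x9098a888a1a) (nat_lit 0) (p (nat_lit 0x88890a08079a) (nat_lit 0) (p (nat_lit 0x8088987871a) (nat_lit 0) (p (nat_lit 0x80000800078907088a) (nat_lit 0) (p (nat_lit 0x80000800070886860a) (nat_lit 0) (p (nat_lit 0x8708060782) (nat_lit 0) (p (nat_lit 0x687858702) (nat_lit 0) (p (nat_lit 0x8607050482) (nat_lit 0) (p (nat_lit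 0x586848402) (nat_lit 0) (p (nat_lit 0x160014) (nat_lit 0) (p (nat_lit 0x50612) (nat_lit 0) (p (nat_lit 0x40592) (nat_lit 0) (p (nat_lit 0x40492) (nat_lit 0) (p (nat_lit 0x30412) (nat_lit 0) (p (nat_lit 0x30212) (nat_lit 0) (p (nat_lit 0x20192) (nat_lit 0) (p (nat_lit 0x20092) (nat_lit 0) (p (nat_lit 0x10012) (nat_lit 0) pn)))))))))))))))))))))))) :=
  Cl.node (nat_lit 0x109) (nat_lit 2) (by decide +kernel) (ClAll.succ (ClAll.succ ClAll.zero n386) s363)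

def n411 : Cl (O (nat_lit 3)) (R (nat_lit 102673))
    (p (nat_lit 0x109) (nat_lit 0) (p (nat_lit 0x101) (nat_lit 0) (p (nat_lit 0xc1) (nat_lit 1) (p (nat_lit 0x81) (nat_lit 1) (p (nat_lit 0x41) (nat_lit 1) (p (nat_lit 0x898a0b090a9a) (nat_lit 0) (p (nat_lit 0x9098a888a1a) (nat_lit 0) (p (nat_lit 0x88890a08079a) (nat_lit 0) (p (nat_lit 0x8088987871a) (nat_lit 0) (p (nat_lit 0x80000800078907088a) (nat_lit 0) (p (nat_lit 0x80000800070886860a) (nat_lit 0) (p (nat_lit 0x8708060782) (nat_lit 0) (p (nat_lit 0x687858702) (nat_lit 0) (p (nat_lit 0x8607050482) (nat_lit 0) (p (nat_lit 0x586848402) (nat_lit 0) (p (nat_lit 0x160014) (nat_lit 0) (p (nat_lit 0x50612) (nat_lit 0) (p (nat_lit 0x40592) (nat_lit 0) (p (nat_lit 0x40492) (nat_lit 0) (p (nat_lit 0x30412) (nat_lit 0) (p (nat_lit 0x30212) (nat_lit 0) (p (nat_lit 0x20192) (nat_lit 0) (p (nat_lit 0x20092) (nat_lit 0) (p (nat_lit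 0x10012) (nat_lit 0) pn)))))))))))))))))))))))) :=
  Cl.node (nat_lit 0x111) (nat_lit 2) (by decide +kernel) (ClAll.succ (ClAll.succ ClAll.zero n387) s367)

def n412 : Cl (O (nat_lit 3)) (R (nat_lit 102673))
    (p (nat_lit 0x119) (nat_lit 0) (p (nat_lit 0xd1) (nat_lit 0) (p (nat_lit 0x89) (nat_lit 0) (p (nat_lit 0x41) (nat_lit 0) (p (nat_lit 0x898a0b090a9a) (nat_lit 0) (p (nat_lit 0x9098a888a1a) (nat_lit 0) (p (nat_lit 0x88890a08079a) (nat_lit 0) (p (nat_lit 0x8088987871a) (nat_lit 0) (p (nat_lit 0x80000800078907088a) (nat_lit 0) (p (nat_lit 0x80000800070886860a) (nat_lit 0) (p (nat_lit 0x8708060782) (nat_lit 0) (p (nat_lit 0x687858702) (nat_lit 0) (p (nat_lit 0x8607050482) (nat_lit 0) (p (nat_lit 0x586848402) (nat_lit 0) (p (nat_lit 0x160014) (nat_lit 0) (p (nat_lit 0x50612) (nat_lit 0) (p (nat_lit 0x40592) (nat_lit 0) (p (nat_lit 0x40492) (nat_lit 0) (p (nat_lit 0x30412)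 (nat_lit 0) (p (nat_lit 0x30212) (nat_lit 0) (p (nat_lit 0x20192) (nat_lit 0) (p (nat_lit 0x20092) (nat_lit 0) (p (nat_lit 0x10012) (nat_lit 0) pn))))))))))))))))))))))) :=
  Cl.node (nat_lit 0x101) (nat_lit 2) (by decide +kernel) (ClAll.succ (ClAll.succ ClAll.zero n388) n389)

def n413 : Cl (O (nat_lit 3)) (R (nat_lit 102673))
    (p (nat_lit 0x119) (nat_lit 1) (p (nat_lit 0xd1) (nat_lit 0) (p (nat_lit 0x89) (nat_lit 0) (p (nat_lit 0x41) (nat_lit 0) (p (nat_lit 0x898a0b090a9a) (nat_lit 0) (p (nat_lit 0x9098a888a1a) (nat_lit 0) (p (nat_lit 0x88890a08079a) (nat_lit 0) (p (nat_lit 0x8088987871a) (nat_lit 0) (p (nat_lit 0x80000800078907088a) (nat_lit 0) (p (nat_lit 0x80000800070886860a) (nat_lit 0) (p (nat_lit 0x8708060782) (nat_lit 0) (p (nat_lit 0x687858702) (nat_lit 0) (p (nat_lit 0x8607050482) (nat_lit 0) (p (nat_lit 0x586848402) (nat_lit 0) (p (nat_lit 0x160014) (nat_lit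 0) (p (nat_lit 0x50612) (nat_lit 0) (p (nat_lit 0x40592) (nat_lit 0) (p (nat_lit 0x40492) (nat_lit 0) (p (nat_lit 0x30412) (nat_lit 0) (p (nat_lit 0x30212) (nat_lit 0) (p (nat_lit 0x20192) (nat_lit 0) (p (nat_lit 0x20092) (nat_lit 0) (p (nat_lit 0x10012) (nat_lit 0) pn))))))))))))))))))))))) :=
  Cl.node (nat_lit 0xc1) (nat_lit 2) (by decide +kernel) (ClAll.succ (ClAll.succ ClAll.zero n390) n391)

def n414 : Cl (O (nat_lit 3)) (R (nat_lit 102673))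
    (p (nat_lit 0x111) (nat_lit 0) (p (nat_lit 0xd1) (nat_lit 1) (p (nat_lit 0x89) (nat_lit 0) (p (nat_lit 0x41) (nat_lit 0) (p (nat_lit 0x898a0b090a9a) (nat_lit 0) (p (nat_lit 0x9098a888a1a) (nat_lit 0) (p (nat_lit 0x88890a08079a) (nat_lit 0) (p (nat_lit 0x8088987871a) (nat_lit 0) (p (nat_lit 0x80000800078907088a) (nat_lit 0) (p (nat_lit 0x80000800070886860a) (nat_lit 0) (p (nat_lit 0x8708060782) (nat_lit 0) (p (nat_lit 0x687858702) (nat_lit 0) (p (nat_lit 0x8607050482) (nat_lit 0) (p (nat_lit 0x586848402) (nat_lit 0) (p (nat_lit 0x160014) (nat_lit 0) (p (nat_lit 0x50612) (nat_lit 0) (p (nat_lit 0x40592) (nat_lit 0) (p (nat_lit 0x40492) (nat_lit 0) (p (nat_lit 0x30412) (nat_lit 0) (p (nat_lit 0x30212) (nat_lit 0) (p (nat_lit 0x20192) (nat_lit 0) (p (nat_lit 0x20092) (nat_lit 0) (p (nat_lit 0x10012) (nat_lit 0) pn))))))))))))))))))))))) :=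
  Cl.node (nat_lit 0x101) (nat_lit 2) (by decide +kernel) (ClAll.succ (ClAll.succ ClAll.zero n392) n393)

def n415 : Cl (O (nat_lit 3)) (R (nat_lit 102673))
    (p (nat_lit 0x111) (nat_lit 1) (p (nat_lit 0xd1) (nat_lit 1) (p (nat_lit 0x89) (nat_lit 0) (p (nat_lit 0x41) (nat_lit 0) (p (nat_lit 0x898a0b090a9a) (nat_lit 0) (p (nat_lit 0x9098a888a1a) (nat_lit 0) (p (nat_lit 0x88890a08079a) (nat_lit 0) (p (nat_lit 0x8088987871a) (nat_lit 0) (p (nat_lit 0x80000800078907088a) (nat_lit 0) (p (nat_lit 0x80000800070886860a) (nat_lit 0) (p (nat_lit 0x8708060782) (nat_lit 0) (p (nat_lit 0x687858702) (nat_lit 0) (p (nat_lit 0x8607050482) (nat_lit 0) (p (nat_lit 0x586848402) (nat_lit 0) (p (nat_lit 0x160014) (nat_lit 0) (p (nat_lit 0x50612) (nat_lit 0) (p (nat_lit 0x40592) (nat_lit 0) (p (nat_lit 0x40492) (nat_lit 0) (p (nat_lit 0x30412) (nat_lit 0) (p (nat_lit 0x30212) (nat_lit 0) (p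 (nat_lit 0x20192) (nat_lit 0) (p (nat_lit 0x20092) (nat_lit 0) (p (nat_lit 0x10012) (nat_lit 0) pn))))))))))))))))))))))) :=
  Cl.node (nat_lit 0x81) (nat_lit 2) (by decide +kernel) (ClAll.succ (ClAll.succ ClAll.zero s111) n394)

def n416 : Cl (O (nat_lit 3)) (R (nat_lit 102673))
    (p (nat_lit 0x119) (nat_lit 0) (p (nat_lit 0xc9) (nat_lit 0) (p (nat_lit 0x89) (nat_lit 1) (p (nat_lit 0x41) (nat_lit 0) (p (nat_lit 0x898a0b090a9a) (nat_lit 0) (p (nat_lit 0x9098a888a1a) (nat_lit 0) (p (nat_lit 0x88890a08079a) (nat_lit 0) (p (nat_lit 0x8088987871a) (nat_lit 0) (p (nat_lit 0x80000800078907088a) (nat_lit 0) (p (nat_lit 0x80000800070886860a) (nat_lit 0) (p (nat_lit 0x8708060782) (nat_lit 0) (p (nat_lit 0x687858702) (nat_lit 0) (p (nat_lit 0x8607050482) (nat_lit 0) (p (nat_lit 0x586848402) (nat_lit 0) (p (nat_lit 0x160014) (nat_lit 0) (p (nat_lit 0x50612) (nat_lit 0) (p (nat_lit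 0x40592) (nat_lit 0) (p (nat_lit 0x40492) (nat_lit 0) (p (nat_lit 0x30412) (nat_lit 0) (p (nat_lit 0x30212) (nat_lit 0) (p (nat_lit 0x20192) (nat_lit 0) (p (nat_lit 0x20092) (nat_lit 0) (p (nat_lit 0x10012) (nat_lit 0) pn))))))))))))))))))))))) :=
  Cl.node (nat_lit 0x101) (nat_lit 2) (by decide +kernel) (ClAll.succ (ClAll.succ ClAll.zero n395) n396)

def n417 : Cl (O (nat_lit 3)) (R (nat_lit 102673))
    (p (nat_lit 0x119) (nat_lit 1) (p (nat_lit 0xc9) (nat_lit 0) (p (nat_lit 0x89) (nat_lit 1) (p (nat_lit 0x41) (nat_lit 0) (p (nat_lit 0x898a0b090a9a) (nat_lit 0) (p (nat_lit 0x9098a888a1a) (nat_lit 0) (p (nat_lit 0x88890a08079a) (nat_lit 0) (p (nat_lit 0x8088987871a) (nat_lit 0) (p (nat_lit 0x80000800078907088a) (nat_lit 0) (p (nat_lit 0x80000800070886860a) (nat_lit 0) (p (nat_lit 0x8708060782) (nat_lit 0) (p (nat_lit 0x687858702) (nat_lit 0) (p (nat_lit 0x8607050482) (nat_lit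 0) (p (nat_lit 0x586848402) (nat_lit 0) (p (nat_lit 0x160014) (nat_lit 0) (p (nat_lit 0x50612) (nat_lit 0) (p (nat_lit 0x40592) (nat_lit 0) (p (nat_lit 0x40492) (nat_lit 0) (p (nat_lit 0x30412) (nat_lit 0) (p (nat_lit 0x30212) (nat_lit 0) (p (nat_lit 0x20192) (nat_lit 0) (p (nat_lit 0x20092) (nat_lit 0) (p (nat_lit 0x10012) (nat_lit 0) pn))))))))))))))))))))))) :=
  Cl.node (nat_lit 0xc1) (nat_lit 2) (by decide +kernel) (ClAll.succ (ClAll.succ ClAll.zero n397) n398)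

def n418 : Cl (O (nat_lit 3)) (R (nat_lit 102673))
    (p (nat_lit 0x109) (nat_lit 0) (p (nat_lit 0xc9) (nat_lit 1) (p (nat_lit 0x89) (nat_lit 1) (p (nat_lit 0x41) (nat_lit 0) (p (nat_lit 0x898a0b090a9a) (nat_lit 0) (p (nat_lit 0x9098a888a1a) (nat_lit 0) (p (nat_lit 0x88890a08079a) (nat_lit 0) (p (nat_lit 0x8088987871a) (nat_lit 0) (p (nat_lit 0x80000800078907088a) (nat_lit 0) (p (nat_lit 0x80000800070886860a) (nat_lit 0) (p (nat_lit 0x8708060782) (nat_lit 0) (p (nat_lit 0x687858702) (nat_lit 0) (p (nat_lit 0x8607050482) (nat_lit 0) (p (nat_lit 0x586848402) (nat_lit 0) (p (nat_lit 0x160014) (nat_lit 0) (p (nat_lit 0x50612) (nat_lit 0) (p (nat_lit 0x40592) (nat_lit 0) (p (nat_lit 0x40492) (nat_lit 0) (p (nat_lit 0x30412) (nat_lit 0) (p (nat_lit 0x30212) (nat_lit 0) (p (nat_lit 0x20192) (nat_lit 0) (p (nat_lit 0x20092) (nat_lit 0) (p (nat_lit 0x10012) (nat_lit 0) pn)))))))))))))))))))))))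 :=
  Cl.node (nat_lit 0x101) (nat_lit 2) (by decide +kernel) (ClAll.succ (ClAll.succ ClAll.zero n399) s188)

def n419 : Cl (O (nat_lit 3)) (R (nat_lit 102673))
    (p (nat_lit 0x119) (nat_lit 0) (p (nat_lit 0xd1) (nat_lit 0) (p (nat_lit 0x81) (nat_lit 0) (p (nat_lit 0x41) (nat_lit 1) (p (nat_lit 0x898a0b090a9a) (nat_lit 0) (p (nat_lit 0x9098a888a1a) (nat_lit 0) (p (nat_lit 0x88890a08079a) (nat_lit 0) (p (nat_lit 0x8088987871a) (nat_lit 0) (p (nat_lit 0x80000800078907088a) (nat_lit 0) (p (nat_lit 0x80000800070886860a) (nat_lit 0) (p (nat_lit 0x8708060782) (nat_lit 0) (p (nat_lit 0x687858702) (nat_lit 0) (p (nat_lit 0x8607050482) (nat_lit 0) (p (nat_lit 0x586848402) (nat_lit 0) (p (nat_lit 0x160014) (nat_lit 0) (p (nat_lit 0x50612) (nat_lit 0) (p (nat_lit 0x40592) (nat_lit 0) (p (nat_lit 0x40492) (nat_lit 0) (p (nat_lit 0x30412) (nat_lit 0) (p (nat_lit 0x30212) (nat_lit 0)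 (p (nat_lit 0x20192) (nat_lit 0) (p (nat_lit 0x20092) (nat_lit 0) (p (nat_lit 0x10012) (nat_lit 0) pn))))))))))))))))))))))) :=
  Cl.node (nat_lit 0x101) (nat_lit 2) (by decide +kernel) (ClAll.succ (ClAll.succ ClAll.zero n400) n401)

def n420 : Cl (O (nat_lit 3)) (R (nat_lit 102673))
    (p (nat_lit 0x119) (nat_lit 1) (p (nat_lit 0xd1) (nat_lit 0) (p (nat_lit 0x81) (nat_lit 0) (p (nat_lit 0x41) (nat_lit 1) (p (nat_lit 0x898a0b090a9a) (nat_lit 0) (p (nat_lit 0x9098a888a1a) (nat_lit 0) (p (nat_lit 0x88890a08079a) (nat_lit 0) (p (nat_lit 0x8088987871a) (nat_lit 0) (p (nat_lit 0x80000800078907088a) (nat_lit 0) (p (nat_lit 0x80000800070886860a) (nat_lit 0) (p (nat_lit 0x8708060782) (nat_lit 0) (p (nat_lit 0x687858702) (nat_lit 0) (p (nat_lit 0x8607050482) (nat_lit 0) (p (nat_lit 0x586848402) (nat_lit 0) (p (nat_lit 0x160014) (nat_lit 0) (p (nat_lit 0x50612) (nat_lit 0) (p (nat_lit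 0x40592) (nat_lit 0) (p (nat_lit 0x40492) (nat_lit 0) (p (nat_lit 0x30412) (nat_lit 0) (p (nat_lit 0x30212) (nat_lit 0) (p (nat_lit 0x20192) (nat_lit 0) (p (nat_lit 0x20092) (nat_lit 0) (p (nat_lit 0x10012) (nat_lit 0) pn))))))))))))))))))))))) :=
  Cl.node (nat_lit 0xc1) (nat_lit 2) (by decide +kernel) (ClAll.succ (ClAll.succ ClAll.zero n402) n403)

def n421 : Cl (O (nat_lit 3)) (R (nat_lit 102673))
    (p (nat_lit 0x111) (nat_lit 0) (p (nat_lit 0xd1) (nat_lit 1) (p (nat_lit 0x81) (nat_lit 0) (p (nat_lit 0x41) (nat_lit 1) (p (nat_lit 0x898a0b090a9a) (nat_lit 0) (p (nat_lit 0x9098a888a1a) (nat_lit 0) (p (nat_lit 0x88890a08079a) (nat_lit 0) (p (nat_lit 0x8088987871a) (nat_lit 0) (p (nat_lit 0x80000800078907088a) (nat_lit 0) (p (nat_lit 0x80000800070886860a) (nat_lit 0) (p (nat_lit 0x8708060782) (nat_lit 0) (p (nat_lit 0x687858702) (nat_lit 0) (p (nat_lit 0x8607050482) (nat_lit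 0) (p (nat_lit 0x586848402) (nat_lit 0) (p (nat_lit 0x160014) (nat_lit 0) (p (nat_lit 0x50612) (nat_lit 0) (p (nat_lit 0x40592) (nat_lit 0) (p (nat_lit 0x40492) (nat_lit 0) (p (nat_lit 0x30412) (nat_lit 0) (p (nat_lit 0x30212) (nat_lit 0) (p (nat_lit 0x20192) (nat_lit 0) (p (nat_lit 0x20092) (nat_lit 0) (p (nat_lit 0x10012) (nat_lit 0) pn))))))))))))))))))))))) :=
  Cl.node (nat_lit 0x101) (nat_lit 2) (by decide +kernel) (ClAll.succ (ClAll.succ ClAll.zero n404) n405)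

def n422 : Cl (O (nat_lit 3)) (R (nat_lit 102673))
    (p (nat_lit 0x111) (nat_lit 1) (p (nat_lit 0xd1) (nat_lit 1) (p (nat_lit 0x81) (nat_lit 0) (p (nat_lit 0x41) (nat_lit 1) (p (nat_lit 0x898a0b090a9a) (nat_lit 0) (p (nat_lit 0x9098a888a1a) (nat_lit 0) (p (nat_lit 0x88890a08079a) (nat_lit 0) (p (nat_lit 0x8088987871a) (nat_lit 0) (p (nat_lit 0x80000800078907088a) (nat_lit 0) (p (nat_lit 0x80000800070886860a) (nat_lit 0) (p (nat_lit 0x8708060782) (nat_lit 0) (p (nat_lit 0x687858702) (nat_lit 0) (p (nat_lit 0x8607050482) (nat_lit 0) (p (nat_lit 0x586848402) (nat_lit 0) (p (nat_lit 0x160014) (nat_lit 0) (p (nat_lit 0x50612) (nat_lit 0) (p (nat_lit 0x40592) (nat_lit 0) (p (nat_lit 0x40492) (nat_lit 0) (p (nat_lit 0x30412) (nat_lit 0) (p (nat_lit 0x30212) (nat_lit 0) (p (nat_lit 0x20192) (nat_lit 0) (p (nat_lit 0x20092) (nat_lit 0) (p (nat_lit 0x10012) (nat_lit 0) pn)))))))))))))))))))))))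 :=
  Cl.node (nat_lit 0x89) (nat_lit 2) (by decide +kernel) (ClAll.succ (ClAll.succ ClAll.zero s315) n406)

def n423 : Cl (O (nat_lit 3)) (R (nat_lit 102673))
    (p (nat_lit 0x119) (nat_lit 0) (p (nat_lit 0xc1) (nat_lit 0) (p (nat_lit 0x81) (nat_lit 1) (p (nat_lit 0x41) (nat_lit 1) (p (nat_lit 0x898a0b090a9a) (nat_lit 0) (p (nat_lit 0x9098a888a1a) (nat_lit 0) (p (nat_lit 0x88890a08079a) (nat_lit 0) (p (nat_lit 0x8088987871a) (nat_lit 0) (p (nat_lit 0x80000800078907088a) (nat_lit 0) (p (nat_lit 0x80000800070886860a) (nat_lit 0) (p (nat_lit 0x8708060782) (nat_lit 0) (p (nat_lit 0x687858702) (nat_lit 0) (p (nat_lit 0x8607050482) (nat_lit 0) (p (nat_lit 0x586848402) (nat_lit 0) (p (nat_lit 0x160014) (nat_lit 0) (p (nat_lit 0x50612) (nat_lit 0) (p (nat_lit 0x40592) (nat_lit 0) (p (nat_lit 0x40492) (nat_lit 0) (p (nat_lit 0x30412) (nat_lit 0) (p (nat_lit 0x30212) (nat_lit 0) (p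 (nat_lit 0x20192) (nat_lit 0) (p (nat_lit 0x20092) (nat_lit 0) (p (nat_lit 0x10012) (nat_lit 0) pn))))))))))))))))))))))) :=
  Cl.node (nat_lit 0x101) (nat_lit 2) (by decide +kernel) (ClAll.succ (ClAll.succ ClAll.zero n407) n408)

def n424 : Cl (O (nat_lit 3)) (R (nat_lit 102673))
    (p (nat_lit 0x119) (nat_lit 1) (p (nat_lit 0xc1) (nat_lit 0) (p (nat_lit 0x81) (nat_lit 1) (p (nat_lit 0x41) (nat_lit 1) (p (nat_lit 0x898a0b090a9a) (nat_lit 0) (p (nat_lit 0x9098a888a1a) (nat_lit 0) (p (nat_lit 0x88890a08079a) (nat_lit 0) (p (nat_lit 0x8088987871a) (nat_lit 0) (p (nat_lit 0x80000800078907088a) (nat_lit 0) (p (nat_lit 0x80000800070886860a) (nat_lit 0) (p (nat_lit 0x8708060782) (nat_lit 0) (p (nat_lit 0x687858702) (nat_lit 0) (p (nat_lit 0x8607050482) (nat_lit 0) (p (nat_lit 0x586848402) (nat_lit 0) (p (nat_lit 0x160014) (nat_lit 0) (p (nat_lit 0x50612) (nat_lit 0) (p (nat_lit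 0x40592) (nat_lit 0) (p (nat_lit 0x40492) (nat_lit 0) (p (nat_lit 0x30412) (nat_lit 0) (p (nat_lit 0x30212) (nat_lit 0) (p (nat_lit 0x20192) (nat_lit 0) (p (nat_lit 0x20092) (nat_lit 0) (p (nat_lit 0x10012) (nat_lit 0) pn))))))))))))))))))))))) :=
  Cl.node (nat_lit 0xc9) (nat_lit 2) (by decide +kernel) (ClAll.succ (ClAll.succ ClAll.zero n409) n410)

def n425 : Cl (O (nat_lit 3)) (R (nat_lit 102673))
    (p (nat_lit 0x101) (nat_lit 0) (p (nat_lit 0xc1) (nat_lit 1) (p (nat_lit 0x81) (nat_lit 1) (p (nat_lit 0x41) (nat_lit 1) (p (nat_lit 0x898a0b090a9a) (nat_lit 0) (p (nat_lit 0x9098a888a1a) (nat_lit 0) (p (nat_lit 0x88890a08079a) (nat_lit 0) (p (nat_lit 0x8088987871a) (nat_lit 0) (p (nat_lit 0x80000800078907088a) (nat_lit 0) (p (nat_lit 0x80000800070886860a) (nat_lit 0) (p (nat_lit 0x8708060782) (nat_lit 0) (p (nat_lit 0x687858702) (nat_lit 0) (p (nat_lit 0x8607050482) (nat_lit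 0) (p (nat_lit 0x586848402) (nat_lit 0) (p (nat_lit 0x160014) (nat_lit 0) (p (nat_lit 0x50612) (nat_lit 0) (p (nat_lit 0x40592) (nat_lit 0) (p (nat_lit 0x40492) (nat_lit 0) (p (nat_lit 0x30412) (nat_lit 0) (p (nat_lit 0x30212) (nat_lit 0) (p (nat_lit 0x20192) (nat_lit 0) (p (nat_lit 0x20092) (nat_lit 0) (p (nat_lit 0x10012) (nat_lit 0) pn))))))))))))))))))))))) :=
  Cl.node (nat_lit 0x109) (nat_lit 2) (by decide +kernel) (ClAll.succ (ClAll.succ ClAll.zero n411) s368)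

def n426 : Cl (O (nat_lit 3)) (R (nat_lit 102673))
    (p (nat_lit 0xd1) (nat_lit 0) (p (nat_lit 0x89) (nat_lit 0) (p (nat_lit 0x41) (nat_lit 0) (p (nat_lit 0x898a0b090a9a) (nat_lit 0) (p (nat_lit 0x9098a888a1a) (nat_lit 0) (p (nat_lit 0x88890a08079a) (nat_lit 0) (p (nat_lit 0x8088987871a) (nat_lit 0) (p (nat_lit 0x80000800078907088a) (nat_lit 0) (p (nat_lit 0x80000800070886860a) (nat_lit 0) (p (nat_lit 0x8708060782) (nat_lit 0) (p (nat_lit 0x687858702) (nat_lit 0) (p (nat_lit 0x8607050482) (nat_lit 0) (p (nat_lit 0x586848402) (nat_lit 0) (p (nat_lit 0x160014) (nat_lit 0) (p (nat_lit 0x50612) (nat_lit 0) (p (nat_lit 0x40592) (nat_lit 0) (p (nat_lit 0x40492) (nat_lit 0) (p (nat_lit 0x30412) (nat_lit 0) (p (nat_lit 0x30212) (nat_lit 0) (p (nat_lit 0x20192) (nat_lit 0) (p (nat_lit 0x20092) (nat_lit 0) (p (nat_lit 0x10012) (nat_lit 0) pn)))))))))))))))))))))) :=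
  Cl.node (nat_lit 0x119) (nat_lit 2) (by decide +kernel) (ClAll.succ (ClAll.succ ClAll.zero n412) n413)

def n427 : Cl (O (nat_lit 3)) (R (nat_lit 102673))
    (p (nat_lit 0xd1) (nat_lit 1) (p (nat_lit 0x89) (nat_lit 0) (p (nat_lit 0x41) (nat_lit 0) (p (nat_lit 0x898a0b090a9a) (nat_lit 0) (p (nat_lit 0x9098a888a1a) (nat_lit 0) (p (nat_lit 0x88890a08079a) (nat_lit 0) (p (nat_lit 0x8088987871a) (nat_lit 0) (p (nat_lit 0x80000800078907088a) (nat_lit 0) (p (nat_lit 0x80000800070886860a) (nat_lit 0) (p (nat_lit 0x8708060782) (nat_lit 0) (p (nat_lit 0x687858702) (nat_lit 0) (p (nat_lit 0x8607050482) (nat_lit 0) (p (nat_lit 0x586848402) (nat_lit 0) (p (nat_lit 0x160014) (nat_lit 0) (p (nat_lit 0x50612) (nat_lit 0) (p (nat_lit 0x40592) (nat_lit 0) (p (nat_lit 0x40492) (nat_lit 0) (p (nat_lit 0x30412) (nat_lit 0) (p (nat_lit 0x30212) (nat_lit 0) (p (nat_lit 0x20192) (nat_lit 0) (p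 (nat_lit 0x20092) (nat_lit 0) (p (nat_lit 0x10012) (nat_lit 0) pn)))))))))))))))))))))) :=
  Cl.node (nat_lit 0x111) (nat_lit 2) (by decide +kernel) (ClAll.succ (ClAll.succ ClAll.zero n414) n415)

def n428 : Cl (O (nat_lit 3)) (R (nat_lit 102673))
    (p (nat_lit 0xc9) (nat_lit 0) (p (nat_lit 0x89) (nat_lit 1) (p (nat_lit 0x41) (nat_lit 0) (p (nat_lit 0x898a0b090a9a) (nat_lit 0) (p (nat_lit 0x9098a888a1a) (nat_lit 0) (p (nat_lit 0x88890a08079a) (nat_lit 0) (p (nat_lit 0x8088987871a) (nat_lit 0) (p (nat_lit 0x80000800078907088a) (nat_lit 0) (p (nat_lit 0x80000800070886860a) (nat_lit 0) (p (nat_lit 0x8708060782) (nat_lit 0) (p (nat_lit 0x687858702) (nat_lit 0) (p (nat_lit 0x8607050482) (nat_lit 0) (p (nat_lit 0x586848402) (nat_lit 0) (p (nat_lit 0x160014) (nat_lit 0) (p (nat_lit 0x50612) (nat_lit 0) (p (nat_lit 0x40592) (nat_lit 0) (p (nat_lit 0x40492) (nat_lit 0) (p (nat_lit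 0x30412) (nat_lit 0) (p (nat_lit 0x30212) (nat_lit 0) (p (nat_lit 0x20192) (nat_lit 0) (p (nat_lit 0x20092) (nat_lit 0) (p (nat_lit 0x10012) (nat_lit 0) pn)))))))))))))))))))))) :=
  Cl.node (nat_lit 0x119) (nat_lit 2) (by decide +kernel) (ClAll.succ (ClAll.succ ClAll.zero n416) n417)

def n429 : Cl (O (nat_lit 3)) (R (nat_lit 102673))
    (p (nat_lit 0xc9) (nat_lit 1) (p (nat_lit 0x89) (nat_lit 1) (p (nat_lit 0x41) (nat_lit 0) (p (nat_lit 0x898a0b090a9a) (nat_lit 0) (p (nat_lit 0x9098a888a1a) (nat_lit 0) (p (nat_lit 0x88890a08079a) (nat_lit 0) (p (nat_lit 0x8088987871a) (nat_lit 0) (p (nat_lit 0x80000800078907088a) (nat_lit 0) (p (nat_lit 0x80000800070886860a) (nat_lit 0) (p (nat_lit 0x8708060782) (nat_lit 0) (p (nat_lit 0x687858702) (nat_lit 0) (p (nat_lit 0x8607050482) (nat_lit 0) (p (nat_lit 0x586848402) (nat_lit 0) (p (nat_lit 0x160014) (nat_lit 0) (p (nat_lit 0x50612)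 (nat_lit 0) (p (nat_lit 0x40592) (nat_lit 0) (p (nat_lit 0x40492) (nat_lit 0) (p (nat_lit 0x30412) (nat_lit 0) (p (nat_lit 0x30212) (nat_lit 0) (p (nat_lit 0x20192) (nat_lit 0) (p (nat_lit 0x20092) (nat_lit 0) (p (nat_lit 0x10012) (nat_lit 0) pn)))))))))))))))))))))) :=
  Cl.node (nat_lit 0x109) (nat_lit 2) (by decide +kernel) (ClAll.succ (ClAll.succ ClAll.zero n418) s189)

def n430 : Cl (O (nat_lit 3)) (R (nat_lit 102673))
    (p (nat_lit 0xd1) (nat_lit 0) (p (nat_lit 0x81) (nat_lit 0) (p (nat_lit 0x41) (nat_lit 1) (p (nat_lit 0x898a0b090a9a) (nat_lit 0) (p (nat_lit 0x9098a888a1a) (nat_lit 0) (p (nat_lit 0x88890a08079a) (nat_lit 0) (p (nat_lit 0x8088987871a) (nat_lit 0) (p (nat_lit 0x80000800078907088a) (nat_lit 0) (p (nat_lit 0x80000800070886860a) (nat_lit 0) (p (nat_lit 0x8708060782) (nat_lit 0) (p (nat_lit 0x687858702) (nat_lit 0) (p (nat_lit 0x8607050482) (nat_lit 0)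 (p (nat_lit 0x586848402) (nat_lit 0) (p (nat_lit 0x160014) (nat_lit 0) (p (nat_lit 0x50612) (nat_lit 0) (p (nat_lit 0x40592) (nat_lit 0) (p (nat_lit 0x40492) (nat_lit 0) (p (nat_lit 0x30412) (nat_lit 0) (p (nat_lit 0x30212) (nat_lit 0) (p (nat_lit 0x20192) (nat_lit 0) (p (nat_lit 0x20092) (nat_lit 0) (p (nat_lit 0x10012) (nat_lit 0) pn)))))))))))))))))))))) :=
  Cl.node (nat_lit 0x119) (nat_lit 2) (by decide +kernel) (ClAll.succ (ClAll.succ ClAll.zero n419) n420)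

def n431 : Cl (O (nat_lit 3)) (R (nat_lit 102673))
    (p (nat_lit 0xd1) (nat_lit 1) (p (nat_lit 0x81) (nat_lit 0) (p (nat_lit 0x41) (nat_lit 1) (p (nat_lit 0x898a0b090a9a) (nat_lit 0) (p (nat_lit 0x9098a888a1a) (nat_lit 0) (p (nat_lit 0x88890a08079a) (nat_lit 0) (p (nat_lit 0x8088987871a) (nat_lit 0) (p (nat_lit 0x80000800078907088a) (nat_lit 0) (p (nat_lit 0x80000800070886860a) (nat_lit 0) (p (nat_lit 0x8708060782) (nat_lit 0) (p (nat_lit 0x687858702) (nat_lit 0) (p (nat_lit 0x8607050482) (nat_lit 0) (p (nat_lit 0x586848402) (nat_lit 0) (p (nat_lit 0x160014) (nat_lit 0) (p (nat_lit 0x50612) (nat_lit 0) (p (nat_lit 0x40592) (nat_lit 0) (p (nat_lit 0x40492) (nat_lit 0) (p (nat_lit 0x30412) (nat_lit 0) (p (nat_lit 0x30212) (nat_lit 0) (p (nat_lit 0x20192) (nat_lit 0) (p (nat_lit 0x20092) (nat_lit 0) (p (nat_lit 0x10012) (nat_lit 0) pn)))))))))))))))))))))) :=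
  Cl.node (nat_lit 0x111) (nat_lit 2) (by decide +kernel) (ClAll.succ (ClAll.succ ClAll.zero n421) n422)

def n432 : Cl (O (nat_lit 3)) (R (nat_lit 102673))
    (p (nat_lit 0xc1) (nat_lit 0) (p (nat_lit 0x81) (nat_lit 1) (p (nat_lit 0x41) (nat_lit 1) (p (nat_lit 0x898a0b090a9a) (nat_lit 0) (p (nat_lit 0x9098a888a1a) (nat_lit 0) (p (nat_lit 0x88890a08079a) (nat_lit 0) (p (nat_lit 0x8088987871a) (nat_lit 0) (p (nat_lit 0x80000800078907088a) (nat_lit 0) (p (nat_lit 0x80000800070886860a) (nat_lit 0) (p (nat_lit 0x8708060782) (nat_lit 0) (p (nat_lit 0x687858702) (nat_lit 0) (p (nat_lit 0x8607050482) (nat_lit 0) (p (nat_lit 0x586848402) (nat_lit 0) (p (nat_lit 0x160014) (nat_lit 0) (p (nat_lit 0x50612) (nat_lit 0) (p (nat_lit 0x40592) (nat_lit 0) (p (nat_lit 0x40492) (nat_lit 0) (p (nat_lit 0x30412) (nat_lit 0) (p (nat_lit 0x30212) (nat_lit 0) (p (nat_lit 0x20192) (nat_lit 0) (p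 (nat_lit 0x20092) (nat_lit 0) (p (nat_lit 0x10012) (nat_lit 0) pn)))))))))))))))))))))) :=
  Cl.node (nat_lit 0x119) (nat_lit 2) (by decide +kernel) (ClAll.succ (ClAll.succ ClAll.zero n423) n424)

def n433 : Cl (O (nat_lit 3)) (R (nat_lit 102673))
    (p (nat_lit 0xc1) (nat_lit 1) (p (nat_lit 0x81) (nat_lit 1) (p (nat_lit 0x41) (nat_lit 1) (p (nat_lit 0x898a0b090a9a) (nat_lit 0) (p (nat_lit 0x9098a888a1a) (nat_lit 0) (p (nat_lit 0x88890a08079a) (nat_lit 0) (p (nat_lit 0x8088987871a) (nat_lit 0) (p (nat_lit 0x80000800078907088a) (nat_lit 0) (p (nat_lit 0x80000800070886860a) (nat_lit 0) (p (nat_lit 0x8708060782) (nat_lit 0) (p (nat_lit 0x687858702) (nat_lit 0) (p (nat_lit 0x8607050482) (nat_lit 0) (p (nat_lit 0x586848402) (nat_lit 0) (p (nat_lit 0x160014) (nat_lit 0) (p (nat_lit 0x50612) (nat_lit 0) (p (nat_lit 0x40592) (nat_lit 0) (p (nat_lit 0x40492) (nat_lit 0) (p (nat_lit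 0x30412) (nat_lit 0) (p (nat_lit 0x30212) (nat_lit 0) (p (nat_lit 0x20192) (nat_lit 0) (p (nat_lit 0x20092) (nat_lit 0) (p (nat_lit 0x10012) (nat_lit 0) pn)))))))))))))))))))))) :=
  Cl.node (nat_lit 0x101) (nat_lit 2) (by decide +kernel) (ClAll.succ (ClAll.succ ClAll.zero n425) s369)

def n434 : Cl (O (nat_lit 3)) (R (nat_lit 102673))
    (p (nat_lit 0x89) (nat_lit 0) (p (nat_lit 0x41) (nat_lit 0) (p (nat_lit 0x898a0b090a9a) (nat_lit 0) (p (nat_lit 0x9098a888a1a) (nat_lit 0) (p (nat_lit 0x88890a08079a) (nat_lit 0) (p (nat_lit 0x8088987871a) (nat_lit 0) (p (nat_lit 0x80000800078907088a) (nat_lit 0) (p (nat_lit 0x80000800070886860a) (nat_lit 0) (p (nat_lit 0x8708060782) (nat_lit 0) (p (nat_lit 0x687858702) (nat_lit 0) (p (nat_lit 0x8607050482) (nat_lit 0) (p (nat_lit 0x586848402) (nat_lit 0) (p (nat_lit 0x160014) (nat_lit 0) (p (nat_lit 0x50612) (nat_lit 0) (p (nat_lit 0x40592)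 (nat_lit 0) (p (nat_lit 0x40492) (nat_lit 0) (p (nat_lit 0x30412) (nat_lit 0) (p (nat_lit 0x30212) (nat_lit 0) (p (nat_lit 0x20192) (nat_lit 0) (p (nat_lit 0x20092) (nat_lit 0) (p (nat_lit 0x10012) (nat_lit 0) pn))))))))))))))))))))) :=
  Cl.node (nat_lit 0xd1) (nat_lit 2) (by decide +kernel) (ClAll.succ (ClAll.succ ClAll.zero n426) n427)

def n435 : Cl (O (nat_lit 3)) (R (nat_lit 102673))
    (p (nat_lit 0x89) (nat_lit 1) (p (nat_lit 0x41) (nat_lit 0) (p (nat_lit 0x898a0b090a9a) (nat_lit 0) (p (nat_lit 0x9098a888a1a) (nat_lit 0) (p (nat_lit 0x88890a08079a) (nat_lit 0) (p (nat_lit 0x8088987871a) (nat_lit 0) (p (nat_lit 0x80000800078907088a) (nat_lit 0) (p (nat_lit 0x80000800070886860a) (nat_lit 0) (p (nat_lit 0x8708060782) (nat_lit 0) (p (nat_lit 0x687858702) (nat_lit 0) (p (nat_lit 0x8607050482) (nat_lit 0) (p (nat_lit 0x586848402) (nat_lit 0) (p (nat_lit 0x160014) (nat_lit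 0) (p (nat_lit 0x50612) (nat_lit 0) (p (nat_lit 0x40592) (nat_lit 0) (p (nat_lit 0x40492) (nat_lit 0) (p (nat_lit 0x30412) (nat_lit 0) (p (nat_lit 0x30212) (nat_lit 0) (p (nat_lit 0x20192) (nat_lit 0) (p (nat_lit 0x20092) (nat_lit 0) (p (nat_lit 0x10012) (nat_lit 0) pn))))))))))))))))))))) :=
  Cl.node (nat_lit 0xc9) (nat_lit 2) (by decide +kernel) (ClAll.succ (ClAll.succ ClAll.zero n428) n429)

def n436 : Cl (O (nat_lit 3)) (R (nat_lit 102673))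
    (p (nat_lit 0x81) (nat_lit 0) (p (nat_lit 0x41) (nat_lit 1) (p (nat_lit 0x898a0b090a9a) (nat_lit 0) (p (nat_lit 0x9098a888a1a) (nat_lit 0) (p (nat_lit 0x88890a08079a) (nat_lit 0) (p (nat_lit 0x8088987871a) (nat_lit 0) (p (nat_lit 0x80000800078907088a) (nat_lit 0) (p (nat_lit 0x80000800070886860a) (nat_lit 0) (p (nat_lit 0x8708060782) (nat_lit 0) (p (nat_lit 0x687858702) (nat_lit 0) (p (nat_lit 0x8607050482) (nat_lit 0) (p (nat_lit 0x586848402) (nat_lit 0) (p (nat_lit 0x160014) (nat_lit 0) (p (nat_lit 0x50612) (nat_lit 0) (p (nat_lit 0x40592) (nat_lit 0) (p (nat_lit 0x40492) (nat_lit 0) (p (nat_lit 0x30412) (nat_lit 0) (p (nat_lit 0x30212) (nat_lit 0) (p (nat_lit 0x20192) (nat_lit 0) (p (nat_lit 0x20092) (nat_lit 0) (p (nat_lit 0x10012) (nat_lit 0) pn))))))))))))))))))))) :=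
  Cl.node (nat_lit 0xd1) (nat_lit 2) (by decide +kernel) (ClAll.succ (ClAll.succ ClAll.zero n430) n431)

def n437 : Cl (O (nat_lit 3)) (R (nat_lit 102673))
    (p (nat_lit 0x81) (nat_lit 1) (p (nat_lit 0x41) (nat_lit 1) (p (nat_lit 0x898a0b090a9a) (nat_lit 0) (p (nat_lit 0x9098a888a1a) (nat_lit 0) (p (nat_lit 0x88890a08079a) (nat_lit 0) (p (nat_lit 0x8088987871a) (nat_lit 0) (p (nat_lit 0x80000800078907088a) (nat_lit 0) (p (nat_lit 0x80000800070886860a) (nat_lit 0) (p (nat_lit 0x8708060782) (nat_lit 0) (p (nat_lit 0x687858702) (nat_lit 0) (p (nat_lit 0x8607050482) (nat_lit 0) (p (nat_lit 0x586848402) (nat_lit 0) (p (nat_lit 0x160014) (nat_lit 0) (p (nat_lit 0x50612) (nat_lit 0) (p (nat_lit 0x40592) (nat_lit 0) (p (nat_lit 0x40492) (nat_lit 0) (p (nat_lit 0x30412) (nat_lit 0) (p (nat_lit 0x30212) (nat_lit 0) (p (nat_lit 0x20192) (nat_lit 0) (p (nat_lit 0x20092) (nat_lit 0)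 (p (nat_lit 0x10012) (nat_lit 0) pn))))))))))))))))))))) :=
  Cl.node (nat_lit 0xc1) (nat_lit 2) (by decide +kernel) (ClAll.succ (ClAll.succ ClAll.zero n432) n433)

def n438 : Cl (O (nat_lit 3)) (R (nat_lit 102673))
    (p (nat_lit 0x41) (nat_lit 0) (p (nat_lit 0x898a0b090a9a) (nat_lit 0) (p (nat_lit 0x9098a888a1a) (nat_lit 0) (p (nat_lit 0x88890a08079a) (nat_lit 0) (p (nat_lit 0x8088987871a) (nat_lit 0) (p (nat_lit 0x80000800078907088a) (nat_lit 0) (p (nat_lit 0x80000800070886860a) (nat_lit 0) (p (nat_lit 0x8708060782) (nat_lit 0) (p (nat_lit 0x687858702) (nat_lit 0) (p (nat_lit 0x8607050482) (nat_lit 0) (p (nat_lit 0x586848402) (nat_lit 0) (p (nat_lit 0x160014) (nat_lit 0) (p (nat_lit 0x50612) (nat_lit 0) (p (nat_lit 0x40592) (nat_lit 0) (p (nat_lit 0x40492) (nat_lit 0) (p (nat_lit 0x30412) (nat_lit 0) (p (nat_lit 0x30212) (nat_lit 0) (p (nat_lit 0x20192) (nat_lit 0) (p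 (nat_lit 0x20092) (nat_lit 0) (p (nat_lit 0x10012) (nat_lit 0) pn)))))))))))))))))))) :=
  Cl.node (nat_lit 0x89) (nat_lit 2) (by decide +kernel) (ClAll.succ (ClAll.succ ClAll.zero n434) n435)

def n439 : Cl (O (nat_lit 3)) (R (nat_lit 102673))
    (p (nat_lit 0x41) (nat_lit 1) (p (nat_lit 0x898a0b090a9a) (nat_lit 0) (p (nat_lit 0x9098a888a1a) (nat_lit 0) (p (nat_lit 0x88890a08079a) (nat_lit 0) (p (nat_lit 0x8088987871a) (nat_lit 0) (p (nat_lit 0x80000800078907088a) (nat_lit 0) (p (nat_lit 0x80000800070886860a) (nat_lit 0) (p (nat_lit 0x8708060782) (nat_lit 0) (p (nat_lit 0x687858702) (nat_lit 0) (p (nat_lit 0x8607050482) (nat_lit 0) (p (nat_lit 0x586848402) (nat_lit 0) (p (nat_lit 0x160014) (nat_lit 0) (p (nat_lit 0x50612) (nat_lit 0) (p (nat_lit 0x40592) (nat_lit 0) (p (nat_lit 0x40492) (nat_lit 0) (p (nat_lit 0x30412) (nat_lit 0) (p (nat_lit 0x30212) (nat_lit 0) (p (nat_lit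 0x20192) (nat_lit 0) (p (nat_lit 0x20092) (nat_lit 0) (p (nat_lit 0x10012) (nat_lit 0) pn)))))))))))))))))))) :=
  Cl.node (nat_lit 0x81) (nat_lit 2) (by decide +kernel) (ClAll.succ (ClAll.succ ClAll.zero n436) n437)

def n440 : Cl (O (nat_lit 3)) (R (nat_lit 102673))
    (p (nat_lit 0x898a0b090a9a) (nat_lit 0) (p (nat_lit 0x9098a888a1a) (nat_lit 0) (p (nat_lit 0x88890a08079a) (nat_lit 0) (p (nat_lit 0x8088987871a) (nat_lit 0) (p (nat_lit 0x80000800078907088a) (nat_lit 0) (p (nat_lit 0x80000800070886860a) (nat_lit 0) (p (nat_lit 0x8708060782) (nat_lit 0) (p (nat_lit 0x687858702) (nat_lit 0) (p (nat_lit 0x8607050482) (nat_lit 0) (p (nat_lit 0x586848402) (nat_lit 0) (p (nat_lit 0x160014) (nat_lit 0) (p (nat_lit 0x50612) (nat_lit 0) (p (nat_lit 0x40592) (nat_lit 0) (p (nat_lit 0x40492) (nat_lit 0) (p (nat_lit 0x30412) (nat_lit 0) (p (nat_lit 0x30212) (nat_lit 0) (p (nat_lit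 0x20192) (nat_lit 0) (p (nat_lit 0x20092) (nat_lit 0) (p (nat_lit 0x10012) (nat_lit 0) pn))))))))))))))))))) :=
  Cl.node (nat_lit 0x41) (nat_lit 2) (by decide +kernel) (ClAll.succ (ClAll.succ ClAll.zero n438) n439)

def n441 : Cl (O (nat_lit 3)) (R (nat_lit 102673))
    (p (nat_lit 0x9098a888a1a) (nat_lit 0) (p (nat_lit 0x88890a08079a) (nat_lit 0) (p (nat_lit 0x8088987871a) (nat_lit 0) (p (nat_lit 0x80000800078907088a) (nat_lit 0) (p (nat_lit 0x80000800070886860a) (nat_lit 0) (p (nat_lit 0x8708060782) (nat_lit 0) (p (nat_lit 0x687858702) (nat_lit 0) (p (nat_lit 0x8607050482) (nat_lit 0) (p (nat_lit 0x586848402) (nat_lit 0) (p (nat_lit 0x160014) (nat_lit 0) (p (nat_lit 0x50612) (nat_lit 0) (p (nat_lit 0x40592) (nat_lit 0) (p (nat_lit 0x40492) (nat_lit 0) (p (nat_lit 0x30412) (nat_lit 0) (p (nat_lit 0x30212) (nat_lit 0) (p (nat_lit 0x20192) (nat_lit 0) (p (nat_lit 0x20092)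 (nat_lit 0) (p (nat_lit 0x10012) (nat_lit 0) pn)))))))))))))))))) :=
  Cl.node (nat_lit 0x898a0b090a9a) (nat_lit 1) (by decide +kernel) (ClAll.succ ClAll.zero n440)

def n442 : Cl (O (nat_lit 3)) (R (nat_lit 102673))
    (p (nat_lit 0x88890a08079a) (nat_lit 0) (p (nat_lit 0x8088987871a) (nat_lit 0) (p (nat_lit 0x80000800078907088a) (nat_lit 0) (p (nat_lit 0x80000800070886860a) (nat_lit 0) (p (nat_lit 0x8708060782) (nat_lit 0) (p (nat_lit 0x687858702) (nat_lit 0) (p (nat_lit 0x8607050482) (nat_lit 0) (p (nat_lit 0x586848402) (nat_lit 0) (p (nat_lit 0x160014) (nat_lit 0) (p (nat_lit 0x50612) (nat_lit 0) (p (nat_lit 0x40592) (nat_lit 0) (p (nat_lit 0x40492) (nat_lit 0) (p (nat_lit 0x30412) (nat_lit 0) (p (nat_lit 0x30212) (nat_lit 0) (p (nat_lit 0x20192) (nat_lit 0) (p (nat_lit 0x20092) (nat_lit 0) (p (nat_lit 0x10012) (nat_lit 0) pn))))))))))))))))) :=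
  Cl.node (nat_lit 0x9098a888a1a) (nat_lit 1) (by decide +kernel) (ClAll.succ ClAll.zero n441)

def n443 : Cl (O (nat_lit 3)) (R (nat_lit 102673))
    (p (nat_lit 0x8088987871a) (nat_lit 0) (p (nat_lit 0x80000800078907088a) (nat_lit 0) (p (nat_lit 0x80000800070886860a) (nat_lit 0) (p (nat_lit 0x8708060782) (nat_lit 0) (p (nat_lit 0x687858702) (nat_lit 0) (p (nat_lit 0x8607050482) (nat_lit 0) (p (nat_lit 0x586848402) (nat_lit 0) (p (nat_lit 0x160014) (nat_lit 0) (p (nat_lit 0x50612) (nat_lit 0) (p (nat_lit 0x40592) (nat_lit 0) (p (nat_lit 0x40492) (nat_lit 0) (p (nat_lit 0x30412) (nat_lit 0) (p (nat_lit 0x30212) (nat_lit 0) (p (nat_lit 0x20192) (nat_lit 0) (p (nat_lit 0x20092) (nat_lit 0) (p (nat_lit 0x10012) (nat_lit 0) pn)))))))))))))))) :=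
  Cl.node (nat_lit 0x88890a08079a) (nat_lit 1) (by decide +kernel) (ClAll.succ ClAll.zero n442)

def n444 : Cl (O (nat_lit 3)) (R (nat_lit 102673))
    (p (nat_lit 0x80000800078907088a) (nat_lit 0) (p (nat_lit 0x80000800070886860a) (nat_lit 0) (p (nat_lit 0x8708060782) (nat_lit 0) (p (nat_lit 0x687858702) (nat_lit 0) (p (nat_lit 0x8607050482) (nat_lit 0) (p (nat_lit 0x586848402) (nat_lit 0) (p (nat_lit 0x160014) (nat_lit 0) (p (nat_lit 0x50612) (nat_lit 0) (p (nat_lit 0x40592) (nat_lit 0) (p (nat_lit 0x40492) (nat_lit 0) (p (nat_lit 0x30412) (nat_lit 0) (p (nat_lit 0x30212) (nat_lit 0) (p (nat_lit 0x20192) (nat_lit 0) (p (nat_lit 0x20092) (nat_lit 0) (p (nat_lit 0x10012) (nat_lit 0) pn))))))))))))))) :=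
  Cl.node (nat_lit 0x8088987871a) (nat_lit 1) (by decide +kernel) (ClAll.succ ClAll.zero n443)

def n445 : Cl (O (nat_lit 3)) (R (nat_lit 102673))
    (p (nat_lit 0x80000800070886860a) (nat_lit 0) (p (nat_lit 0x8708060782) (nat_lit 0) (p (nat_lit 0x687858702) (nat_lit 0) (p (nat_lit 0x8607050482) (nat_lit 0) (p (nat_lit 0x586848402) (nat_lit 0) (p (nat_lit 0x160014) (nat_lit 0) (p (nat_lit 0x50612) (nat_lit 0) (p (nat_lit 0x40592) (nat_lit 0) (p (nat_lit 0x40492) (nat_lit 0) (p (nat_lit 0x30412) (nat_lit 0) (p (nat_lit 0x30212) (nat_lit 0) (p (nat_lit 0x20192) (nat_lit 0) (p (nat_lit 0x20092) (nat_lit 0) (p (nat_lit 0x10012) (nat_lit 0) pn)))))))))))))) :=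
  Cl.node (nat_lit 0x80000800078907088a) (nat_lit 1) (by decide +kernel) (ClAll.succ ClAll.zero n444)

def n446 : Cl (O (nat_lit 3)) (R (nat_lit 102673))
    (p (nat_lit 0x8708060782) (nat_lit 0) (p (nat_lit 0x687858702) (nat_lit 0) (p (nat_lit 0x8607050482) (nat_lit 0) (p (nat_lit 0x586848402) (nat_lit 0) (p (nat_lit 0x160014) (nat_lit 0) (p (nat_lit 0x50612) (nat_lit 0) (p (nat_lit 0x40592) (nat_lit 0) (p (nat_lit 0x40492) (nat_lit 0) (p (nat_lit 0x30412) (nat_lit 0) (p (nat_lit 0x30212) (nat_lit 0) (p (nat_lit 0x20192) (nat_lit 0) (p (nat_lit 0x20092) (nat_lit 0) (p (nat_lit 0x10012) (nat_lit 0) pn))))))))))))) :=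
  Cl.node (nat_lit 0x80000800070886860a) (nat_lit 1) (by decide +kernel) (ClAll.succ ClAll.zero n445)

def n447 : Cl (O (nat_lit 3)) (R (nat_lit 102673))
    (p (nat_lit 0x687858702) (nat_lit 0) (p (nat_lit 0x8607050482) (nat_lit 0) (p (nat_lit 0x586848402) (nat_lit 0) (p (nat_lit 0x160014) (nat_lit 0) (p (nat_lit 0x50612) (nat_lit 0) (p (nat_lit 0x40592) (nat_lit 0) (p (nat_lit 0x40492) (nat_lit 0) (p (nat_lit 0x30412) (nat_lit 0) (p (nat_lit 0x30212) (nat_lit 0) (p (nat_lit 0x20192) (nat_lit 0) (p (nat_lit 0x20092) (nat_lit 0) (p (nat_lit 0x10012) (nat_lit 0) pn)))))))))))) :=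
  Cl.node (nat_lit 0x8708060782) (nat_lit 1) (by decide +kernel) (ClAll.succ ClAll.zero n446)

def n448 : Cl (O (nat_lit 3)) (R (nat_lit 102673))
    (p (nat_lit 0x8607050482) (nat_lit 0) (p (nat_lit 0x586848402) (nat_lit 0) (p (nat_lit 0x160014) (nat_lit 0) (p (nat_lit 0x50612) (nat_lit 0) (p (nat_lit 0x40592) (nat_lit 0) (p (nat_lit 0x40492) (nat_lit 0) (p (nat_lit 0x30412) (nat_lit 0) (p (nat_lit 0x30212) (nat_lit 0) (p (nat_lit 0x20192) (nat_lit 0) (p (nat_lit 0x20092) (nat_lit 0) (p (nat_lit 0x10012) (nat_lit 0) pn))))))))))) :=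
  Cl.node (nat_lit 0x687858702) (nat_lit 1) (by decide +kernel) (ClAll.succ ClAll.zero n447)

def n449 : Cl (O (nat_lit 3)) (R (nat_lit 102673))
    (p (nat_lit 0x586848402) (nat_lit 0) (p (nat_lit 0x160014) (nat_lit 0) (p (nat_lit 0x50612) (nat_lit 0) (p (nat_lit 0x40592) (nat_lit 0) (p (nat_lit 0x40492) (nat_lit 0) (p (nat_lit 0x30412) (nat_lit 0) (p (nat_lit 0x30212) (nat_lit 0) (p (nat_lit 0x20192) (nat_lit 0) (p (nat_lit 0x20092) (nat_lit 0) (p (nat_lit 0x10012) (nat_lit 0) pn)))))))))) :=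
  Cl.node (nat_lit 0x8607050482) (nat_lit 1) (by decide +kernel) (ClAll.succ ClAll.zero n448)

def n450 : Cl (O (nat_lit 3)) (R (nat_lit 102673))
    (p (nat_lit 0x160014) (nat_lit 0) (p (nat_lit 0x50612) (nat_lit 0) (p (nat_lit 0x40592) (nat_lit 0) (p (nat_lit 0x40492) (nat_lit 0) (p (nat_lit 0x30412) (nat_lit 0) (p (nat_lit 0x30212) (nat_lit 0) (p (nat_lit 0x20192) (nat_lit 0) (p (nat_lit 0x20092) (nat_lit 0) (p (nat_lit 0x10012) (nat_lit 0) pn))))))))) :=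
  Cl.node (nat_lit 0x586848402) (nat_lit 1) (by decide +kernel) (ClAll.succ ClAll.zero n449)

def n451 : Cl (O (nat_lit 3)) (R (nat_lit 102673))
    (p (nat_lit 0x50612) (nat_lit 0) (p (nat_lit 0x40592) (nat_lit 0) (p (nat_lit 0x40492) (nat_lit 0) (p (nat_lit 0x30412) (nat_lit 0) (p (nat_lit 0x30212) (nat_lit 0) (p (nat_lit 0x20192) (nat_lit 0) (p (nat_lit 0x20092) (nat_lit 0) (p (nat_lit 0x10012) (nat_lit 0) pn)))))))) :=
  Cl.node (nat_lit 0x160014) (nat_lit 2) (by decide +kernel) (ClAll.succ (ClAll.succ ClAll.zero n450) s370)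

def n452 : Cl (O (nat_lit 3)) (R (nat_lit 102673))
    (p (nat_lit 0x40592) (nat_lit 0) (p (nat_lit 0x40492) (nat_lit 0) (p (nat_lit 0x30412) (nat_lit 0) (p (nat_lit 0x30212) (nat_lit 0) (p (nat_lit 0x20192) (nat_lit 0) (p (nat_lit 0x20092) (nat_lit 0) (p (nat_lit 0x10012) (nat_lit 0) pn))))))) :=
  Cl.node (nat_lit 0x50612) (nat_lit 1) (by decide +kernel) (ClAll.succ ClAll.zero n451)

def n453 : Cl (O (nat_lit 3)) (R (nat_lit 102673))
    (p (nat_lit 0x40492) (nat_lit 0) (p (nat_lit 0x30412) (nat_lit 0) (p (nat_lit 0x30212) (nat_lit 0) (p (nat_lit 0x20192) (nat_lit 0) (p (nat_lit 0x20092) (nat_lit 0) (p (nat_lit 0x10012) (nat_lit 0) pn)))))) :=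
  Cl.node (nat_lit 0x40592) (nat_lit 1) (by decide +kernel) (ClAll.succ ClAll.zero n452)

def n454 : Cl (O (nat_lit 3)) (R (nat_lit 102673))
    (p (nat_lit 0x30412) (nat_lit 0) (p (nat_lit 0x30212) (nat_lit 0) (p (nat_lit 0x20192) (nat_lit 0) (p (nat_lit 0x20092) (nat_lit 0) (p (nat_lit 0x10012) (nat_lit 0) pn))))) :=
  Cl.node (nat_lit 0x40492) (nat_lit 1) (by decide +kernel) (ClAll.succ ClAll.zero n453)

def n455 : Cl (O (nat_lit 3)) (R (nat_lit 102673))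
    (p (nat_lit 0x30212) (nat_lit 0) (p (nat_lit 0x20192) (nat_lit 0) (p (nat_lit 0x20092) (nat_lit 0) (p (nat_lit 0x10012) (nat_lit 0) pn)))) :=
  Cl.node (nat_lit 0x30412) (nat_lit 1) (by decide +kernel) (ClAll.succ ClAll.zero n454)

def n456 : Cl (O (nat_lit 3)) (R (nat_lit 102673))
    (p (nat_lit 0x20192) (nat_lit 0) (p (nat_lit 0x20092) (nat_lit 0) (p (nat_lit 0x10012) (nat_lit 0) pn))) :=
  Cl.node (nat_lit 0x30212) (nat_lit 1) (by decide +kernel) (ClAll.succ ClAll.zero n455)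

def n457 : Cl (O (nat_lit 3)) (R (nat_lit 102673))
    (p (nat_lit 0x20092) (nat_lit 0) (p (nat_lit 0x10012) (nat_lit 0) pn)) :=
  Cl.node (nat_lit 0x20192) (nat_lit 1) (by decide +kernel) (ClAll.succ ClAll.zero n456)

def n458 : Cl (O (nat_lit 3)) (R (nat_lit 102673))
    (p (nat_lit 0x10012) (nat_lit 0) pn) :=
  Cl.node (nat_lit 0x20092) (nat_lit 1) (by decide +kernel) (ClAll.succ ClAll.zero n457)

def n459 : Cl (O (nat_lit 3)) (R (nat_lit 102673))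
    pn :=
  Cl.node (nat_lit 0x10012) (nat_lit 1) (by decide +kernel) (ClAll.succ ClAll.zero n458)

theorem top : Cl (O (nat_lit 3)) (R (nat_lit 102673)) pn := n459

end Pool.Agent.Gen.F5.X12DC13m3
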